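import Pool.Agent.Lib.MP_f2cf74_an.Base

open Set Metric MeasureTheory Complex Filter Topology
open scoped ContDiff ENNReal NNReal

noncomputable section

namespace Pool.Agent.Lib.MP_f2cf74_an

/-! Elementary consequences of the fields of `Model`.  Lipschitz bounds come from
`Convex.norm_image_sub_le_of_norm_fderiv_le`; derivative bounds of Lipschitz functions from
`norm_fderiv_le_of_lip'` or `norm_fderiv_le_of_lipschitz`.  `dens_facts`: the frame spans
(`M.span`), so the determinant does not vanish; it is continuous on the connected space `E`. -/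

theorem Model.K_pos (M : Model) : 0 < M.K := lt_of_lt_of_le one_pos M.one_le

theorem modb_dJ (M : Model) (x : E) : DifferentiableAt ℝ M.J x :=
  M.smJ.differentiable (by simp) x

theorem modb_dA (M : Model) (x : E) : DifferentiableAt ℝ M.A x :=
  M.smA.differentiable (by simp) x

theorem modb_smDJ (M : Model) : ContDiff ℝ ∞ (fderiv ℝ M.J) := M.smJ.fderiv_right (m := ∞) le_rfl

theorem modb_le2 {L : E →L[ℝ] E →L[ℝ] E} {U V : E} {a b c : ℝ} (h : ‖L‖ ≤ a) (hU : ‖U‖ ≤ b)
    (hV : ‖V‖ ≤ c) : ‖L U V‖ ≤ a * b * c := by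
  have ha : 0 ≤ a := (norm_nonneg L).trans h
  have hb : 0 ≤ b := (norm_nonneg U).trans hU
  refine (L.le_opNorm₂ U V).trans ?_
  gcongr

theorem modb_le1 {L : E →L[ℝ] E} {U : E} {a b : ℝ} (h : ‖L‖ ≤ a) (hU : ‖U‖ ≤ b) :
    ‖L U‖ ≤ a * b := by
  have ha : 0 ≤ a := (norm_nonneg L).trans h
  refine (L.le_opNorm U).trans ?_
  gcongr

theorem Model.lipJ (M : Model) (x y : E) : ‖M.J x - M.J y‖ ≤ M.K * ‖x - y‖ := by
  exact convex_univ.norm_image_sub_le_of_norm_fderiv_le (fun z _ => modb_dJ M z)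
    (fun z _ => M.bDJ z) (mem_univ y) (mem_univ x)

theorem Model.lipA (M : Model) (x y : E) : ‖M.A x - M.A y‖ ≤ M.K * ‖x - y‖ := by
  exact convex_univ.norm_image_sub_le_of_norm_fderiv_le (fun z _ => modb_dA M z)
    (fun z _ => M.bDA z) (mem_univ y) (mem_univ x)

/-- Derivative of `J² = -1`. -/
theorem Model.DJ_anti (M : Model) (x U Y : E) :
    fderiv ℝ M.J x U (M.J x Y) = -M.J x (fderiv ℝ M.J x U Y) := by
  have h1 := (modb_dJ M x).hasFDerivAt
  have h2 := h1.clm_apply (h1.clm_apply (hasFDerivAt_const Y x))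
  have h3 : (fun y => M.J y (M.J y Y)) = fun _ => -Y := funext fun y => M.JJ y Y
  rw [h3] at h2
  have h4 := congrArg (fun L : E →L[ℝ] E => L U) (h2.unique (hasFDerivAt_const (-Y) x))
  simp only [_root_.add_apply, ContinuousLinearMap.comp_apply,
    ContinuousLinearMap.flip_apply, _root_.zero_apply, map_zero, zero_add] at h4
  exact eq_neg_of_add_eq_zero_right h4

theorem Model.A_Bv (M : Model) (x : E) (z : F) : M.A x (Bv (M.J x) M.X z) = z := by
  simp only [Bv, map_sum, map_add, map_smul, M.AJ, M.AX]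
  ext i
  fin_cases i <;> simp [ee, Fin.sum_univ_two]

theorem Model.Bv_A (M : Model) (x Y : E) : Bv (M.J x) M.X (M.A x Y) = Y := by
  exact (M.span x Y).symm

theorem Model.J_Bv (M : Model) (x : E) (z : F) :
    M.J x (Bv (M.J x) M.X z) = Bv (M.J x) M.X (I • z) := by
  rw [← M.Bv_A x (M.J x _), M.AJ, M.A_Bv]

theorem Model.norm_Bv (M : Model) (x : E) (z : F) : ‖Bv (M.J x) M.X z‖ ≤ M.K * ‖z‖ := by
  simpa only [M.A_Bv] using M.low x (Bv (M.J x) M.X z)

theorem Model.norm_A (M : Model) (x Y : E) : ‖M.A x Y‖ ≤ M.K * ‖Y‖ := by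
  exact (M.A x).le_of_opNorm_le (M.bA x) Y

theorem Model.beta_bound (M : Model) : ∃ C : ℝ, 0 ≤ C ∧
    (∀ x Y, ‖beta M.J x Y‖ ≤ C * ‖Y‖ ^ 2) ∧
    ∀ x y Y, ‖beta M.J x Y - beta M.J y Y‖ ≤ C * ‖x - y‖ * ‖Y‖ ^ 2 := by
  have hK := M.K_pos
  refine ⟨4 * M.K ^ 2, by positivity, fun x Y => ?_, fun x y Y => ?_⟩
  · have h0 := modb_le1 (M.bJ x) (le_refl ‖Y‖)
    have h1 := modb_le2 (M.bDJ x) h0 (le_refl ‖Y‖)
    have h2 := modb_le2 (M.bDJ x) (le_refl ‖Y‖) h0
    refine (norm_sub_le_of_le h1 h2).trans ?_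
    nlinarith [sq_nonneg (M.K * ‖Y‖)]
  · have h0 := modb_le1 (M.bJ x) (le_refl ‖Y‖)
    have h0' := modb_le1 (M.lipJ x y) (le_refl ‖Y‖)
    have h1 := modb_le2 (M.lipDJ x y) h0 (le_refl ‖Y‖)
    have h2 := modb_le2 (M.bDJ y) h0' (le_refl ‖Y‖)
    have h3 := modb_le2 (M.lipDJ x y) (le_refl ‖Y‖) h0
    have h4 := modb_le2 (M.bDJ y) (le_refl ‖Y‖) h0'
    have e : beta M.J x Y - beta M.J y Y =
        ((fderiv ℝ M.J x - fderiv ℝ M.J y) (M.J x Y) Y + fderiv ℝ M.J y ((M.J x - M.J y) Y) Y) -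
        ((fderiv ℝ M.J x - fderiv ℝ M.J y) Y (M.J x Y) + fderiv ℝ M.J y Y ((M.J x - M.J y) Y)) := by
      simp only [beta, _root_.sub_apply, map_sub]
      abel
    rw [e]
    refine (norm_sub_le_of_le (norm_add_le_of_le h1 h2) (norm_add_le_of_le h3 h4)).trans
      (le_of_eq ?_)
    ring

theorem Model.continuous_beta (M : Model) (Y : E) : Continuous fun x => beta M.J x Y := by
  have h1 := (modb_smDJ M).continuous
  have h2 := M.smJ.continuous.clm_apply (continuous_const (y := Y))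
  exact ((h1.clm_apply h2).clm_apply continuous_const).sub
    ((h1.clm_apply continuous_const).clm_apply h2)

theorem Model.coord1 (M : Model) (y : E) : Coord M y (fun x => M.A y (x - y)) := by
  refine ⟨(M.A y).contDiff.comp (contDiff_id.sub contDiff_const), fun x => ?_,
    fun x => M.norm_A y _, fun x => M.low y _⟩
  have h : HasFDerivAt (fun x => M.A y (x - y)) (M.A y) x :=
    (M.A y).hasFDerivAt.comp x ((hasFDerivAt_id x).sub_const y)
  rw [h.fderiv, norm_sub_rev]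
  exact M.lipA x y

theorem Model.coord2 (M : Model) (x : E) : Coord M x (fun y => M.A y (y - x)) := by
  refine ⟨(contDiff_infty.1 M.smA 1).clm_apply (contDiff_id.sub contDiff_const), fun y => ?_,
    fun y => M.norm_A y _, fun y => M.low y _⟩
  have h := (modb_dA M y).hasFDerivAt.clm_apply ((hasFDerivAt_id y).sub_const x)
  simp only [id] at h
  rw [h.fderiv, ContinuousLinearMap.comp_id, add_sub_cancel_left]
  have hK := M.K_pos
  refine ContinuousLinearMap.opNorm_le_bound _ (by positivity) fun U => ?_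
  rw [ContinuousLinearMap.flip_apply]
  refine ((fderiv ℝ M.A y).le_opNorm₂ U (y - x)).trans ?_
  rw [mul_right_comm]
  gcongr
  exact M.bDA y

theorem modb_det_ne (M : Model) (x : E) : det4 (frame (M.J x) M.X) ≠ 0 := by
  intro h
  obtain ⟨v, hv, h1⟩ := Matrix.exists_mulVec_eq_zero_iff.2 h
  let w : E := WithLp.toLp 2 v
  have h2 : ∀ i, inner ℝ w (frame (M.J x) M.X i) = 0 := by
    intro i
    have h3 := congrFun h1 i
    simp only [Matrix.mulVec, dotProduct, Matrix.of_apply, Pi.zero_apply] at h3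
    rw [PiLp.inner_apply, ← h3]
    simp [w]
  have h4 : inner ℝ w w = 0 := by
    have e0 : inner ℝ w (M.X 0) = 0 := h2 0
    have e1 : inner ℝ w (M.J x (M.X 0)) = 0 := h2 1
    have e2 : inner ℝ w (M.X 1) = 0 := h2 2
    have e3 : inner ℝ w (M.J x (M.X 1)) = 0 := h2 3
    conv_lhs => arg 3; rw [M.span x w]
    simp only [Fin.sum_univ_two, inner_add_right, inner_smul_right, e0, e1, e2, e3, mul_zero,
      add_zero]
  have h5 : w = 0 := inner_self_eq_zero.1 h4
  exact hv (by simpa [w] using congrArg WithLp.ofLp h5)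

theorem modb_coord {V : E → E} (hV : ContDiff ℝ ∞ V) (a : Fin 4) : ContDiff ℝ ∞ fun x => V x a :=
  (EuclideanSpace.proj (𝕜 := ℝ) a).contDiff.comp hV

theorem modb_det_sm (M : Model) : ContDiff ℝ ∞ fun x => det4 (frame (M.J x) M.X) := by
  have h : ∀ i, ContDiff ℝ ∞ fun x => frame (M.J x) M.X i := by
    intro i
    fin_cases i
    · exact contDiff_const (c := M.X 0)
    · exact M.smJ.clm_apply (contDiff_const (c := M.X 0))
    · exact contDiff_const (c := M.X 1)
    · exact M.smJ.clm_apply (contDiff_const (c := M.X 1))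
  simp only [det4, Matrix.det_apply', Matrix.of_apply]
  exact ContDiff.sum fun σ _ => contDiff_const.mul
    (contDiff_prod fun i _ => modb_coord (h (σ i)) i)

theorem Model.dens_facts (M : Model) : ∃ ε : ℝ, (ε = 1 ∨ ε = -1) ∧
    (∀ x, (det4 (frame (M.J x) M.X))⁻¹ = ε * dens M x) ∧ (∀ x, 0 < dens M x) ∧
    ContDiff ℝ 1 (dens M) := by
  have hc := (modb_det_sm M).continuous
  have hsign : (∀ x, 0 < det4 (frame (M.J x) M.X)) ∨ ∀ x, det4 (frame (M.J x) M.X) < 0 := by
    by_contra h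
    push Not at h
    obtain ⟨⟨a, ha⟩, b, hb⟩ := h
    obtain ⟨z, hz⟩ := intermediate_value_univ a b hc (show (0 : ℝ) ∈ Icc _ _ from ⟨ha, hb⟩)
    exact modb_det_ne M z hz
  have hpos : ∀ x, 0 < dens M x := fun x => inv_pos.2 (abs_pos.2 (modb_det_ne M x))
  have hsm := (contDiff_infty.1 (modb_det_sm M) 1).inv (modb_det_ne M)
  rcases hsign with h | h
  · have e : ∀ x, dens M x = (det4 (frame (M.J x) M.X))⁻¹ := fun x => by
      rw [dens, abs_of_pos (h x)]
    refine ⟨1, Or.inl rfl, fun x => by rw [e, one_mul], hpos, ?_⟩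
    rw [funext e]
    exact hsm
  · have e : ∀ x, dens M x = -(det4 (frame (M.J x) M.X))⁻¹ := fun x => by
      rw [dens, abs_of_neg (h x), inv_neg]
    refine ⟨-1, Or.inr rfl, fun x => by rw [e, neg_one_mul, neg_neg], hpos, ?_⟩
    rw [funext e]
    exact hsm.neg

theorem Model.contDiff_Nij (M : Model) : ContDiff ℝ ∞ (Nij M) := by
  have h1 := modb_smDJ M
  have h2 := fun Y : E => M.smJ.clm_apply (contDiff_const (c := Y))
  exact ((((h1.clm_apply contDiff_const).clm_apply contDiff_const).neg.add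
    ((h1.clm_apply contDiff_const).clm_apply contDiff_const)).add
    ((h1.clm_apply (h2 _)).clm_apply (h2 _))).sub ((h1.clm_apply (h2 _)).clm_apply (h2 _))

theorem Model.norm_Nij (M : Model) : ∃ C : ℝ, 0 ≤ C ∧ ∀ x, ‖Nij M x‖ ≤ C := by
  have hK := M.K_pos
  refine ⟨M.K * M.K * M.K + M.K * M.K * M.K + M.K * (M.K * M.K) * (M.K * M.K) +
    M.K * (M.K * M.K) * (M.K * M.K), by positivity, fun x => ?_⟩
  have h0 := fun j => modb_le1 (M.bJ x) (M.bX j)
  refine norm_sub_le_of_le (norm_add_le_of_le (norm_add_le_of_le ?_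
    (modb_le2 (M.bDJ x) (M.bX 1) (M.bX 0))) (modb_le2 (M.bDJ x) (h0 0) (h0 1)))
    (modb_le2 (M.bDJ x) (h0 1) (h0 0))
  rw [norm_neg]
  exact modb_le2 (M.bDJ x) (M.bX 0) (M.bX 1)

theorem contDiff_divg {V : E → E} (hV : ContDiff ℝ ∞ V) : ContDiff ℝ ∞ (divg V) := by
  exact ContDiff.sum fun i _ =>
    modb_coord ((hV.fderiv_right (m := ∞) le_rfl).clm_apply contDiff_const) i

theorem Model.contDiff_vY (M : Model) (j : Fin 2) : ContDiff ℝ ∞ (vY M j) := by
  exact M.smJ.clm_apply contDiff_const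

theorem Model.contDiff_vB (M : Model) (j : Fin 2) : ContDiff ℝ ∞ (vB M j) := by
  exact (((modb_smDJ M).clm_apply contDiff_const).clm_apply (M.contDiff_vY j)).neg

theorem divg_vX (M : Model) (j : Fin 2) (x : E) : divg (vX M j) x = 0 := by
  have h : fderiv ℝ (vX M j) x = 0 := fderiv_const_apply _
  simp [divg, h]

theorem modb_tr (L : E →L[ℝ] E) : |∑ i, L (eb i) i| ≤ 4 * ‖L‖ := by
  refine (Finset.abs_sum_le_sum_abs _ _).trans ?_
  have h : ∀ i ∈ (Finset.univ : Finset (Fin 4)), |L (eb i) i| ≤ ‖L‖ := fun i _ => by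
    refine (PiLp.norm_apply_le (L (eb i)) i).trans ((L.le_opNorm _).trans ?_)
    simp [eb]
  simpa using Finset.sum_le_card_nsmul _ _ _ h

theorem modb_flip {L : E →L[ℝ] E →L[ℝ] E} {V : E} {a c : ℝ} (h : ‖L‖ ≤ a) (hV : ‖V‖ ≤ c) :
    ‖L.flip V‖ ≤ a * c := by
  have ha : 0 ≤ a := (norm_nonneg L).trans h
  have hc : 0 ≤ c := (norm_nonneg V).trans hV
  refine ContinuousLinearMap.opNorm_le_bound _ (by positivity) fun U => ?_
  rw [ContinuousLinearMap.flip_apply, mul_right_comm]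
  exact modb_le2 h le_rfl hV

theorem modb_fd_vY (M : Model) (j : Fin 2) (x : E) :
    fderiv ℝ (vY M j) x = (fderiv ℝ M.J x).flip (M.X j) := by
  have h := ((modb_dJ M x).hasFDerivAt.clm_apply (hasFDerivAt_const (M.X j) x)).fderiv
  rw [ContinuousLinearMap.comp_zero, zero_add] at h
  exact h

/-- Uniform bounds for the vector fields and their divergences. -/
theorem Model.vf_bound (M : Model) : ∃ C : ℝ, 0 ≤ C ∧ ∀ j x, ‖vY M j x‖ ≤ C ∧ ‖vB M j x‖ ≤ C ∧
    ‖fderiv ℝ (vY M j) x‖ ≤ C ∧ |divg (vY M j) x| ≤ C ∧ |divg (vB M j) x| ≤ C ∧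
    ‖fderiv ℝ (divg (vY M j)) x‖ ≤ C := by
  have hK := M.K_pos
  have h1 := M.one_le
  have p2 : M.K * M.K ≤ M.K ^ 4 := by
    rw [← sq]
    exact pow_le_pow_right₀ h1 (by norm_num)
  have p4 : 0 ≤ M.K ^ 4 := by positivity
  refine ⟨8 * M.K ^ 4, by positivity, fun j x => ?_⟩
  have h0 := fun y => modb_le1 (M.bJ y) (M.bX j)
  have hY : ‖fderiv ℝ (vY M j) x‖ ≤ M.K * M.K := by
    rw [modb_fd_vY]
    exact modb_flip (M.bDJ x) (M.bX j)
  have hB : ‖fderiv ℝ (vB M j) x‖ ≤ 2 * M.K ^ 4 := by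
    refine norm_fderiv_le_of_lip' ℝ (by positivity) (Eventually.of_forall fun y => ?_)
    have e : vB M j y - vB M j x =
        -((fderiv ℝ M.J y - fderiv ℝ M.J x) (M.X j) (M.J y (M.X j)) +
          fderiv ℝ M.J x (M.X j) ((M.J y - M.J x) (M.X j))) := by
      simp only [vB, _root_.sub_apply, map_sub]
      abel
    rw [e, norm_neg]
    refine (norm_add_le_of_le (modb_le2 (M.lipDJ y x) (M.bX j) (h0 y))
      (modb_le2 (M.bDJ x) (M.bX j) (modb_le1 (M.lipJ y x) (M.bX j)))).trans (le_of_eq ?_)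
    ring
  refine ⟨(h0 x).trans (by linarith), ?_, hY.trans (by linarith),
    (modb_tr _).trans (by linarith), (modb_tr _).trans (by linarith), ?_⟩
  · rw [vB, norm_neg]
    refine (modb_le2 (M.bDJ x) (M.bX j) (h0 x)).trans ?_
    linarith [show M.K * M.K * (M.K * M.K) = M.K ^ 4 by ring]
  · refine norm_fderiv_le_of_lip' ℝ (by positivity) (Eventually.of_forall fun y => ?_)
    have e : divg (vY M j) y - divg (vY M j) x =
        ∑ i, (fderiv ℝ M.J y - fderiv ℝ M.J x).flip (M.X j) (eb i) i := by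
      simp only [divg, modb_fd_vY, ← Finset.sum_sub_distrib, ContinuousLinearMap.flip_apply,
        _root_.sub_apply, PiLp.sub_apply]
    rw [e, Real.norm_eq_abs]
    refine (modb_tr _).trans ?_
    have h2 := modb_flip (M.lipDJ y x) (M.bX j)
    have h3 := mul_le_mul_of_nonneg_right p2 (norm_nonneg (y - x))
    have h4 := mul_nonneg p4 (norm_nonneg (y - x))
    linarith

theorem Model.dvc_bound (M : Model) : ∃ C : ℝ, 0 ≤ C ∧ ∀ c j x, ‖c‖ ≤ 1 → ‖dvc M c j x‖ ≤ C := by
  obtain ⟨C, hC, h⟩ := M.vf_bound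
  refine ⟨C, hC, fun c j x hc => ?_⟩
  have h1 : |divg (fun y => M.J y (M.X j)) x| ≤ C := (h j x).2.2.2.1
  rw [dvc, norm_div, norm_mul, Complex.norm_real, Real.norm_eq_abs, Complex.norm_ofNat]
  nlinarith [abs_nonneg (divg (fun y => M.J y (M.X j)) x), norm_nonneg c]

theorem Model.continuous_dvc (M : Model) (c : ℂ) (j : Fin 2) : Continuous (dvc M c j) := by
  exact (continuous_const.mul (Complex.continuous_ofReal.comp
    (contDiff_divg (M.contDiff_vY j)).continuous)).div_const _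

end Pool.Agent.Lib.MP_f2cf74_an
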