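import Pool.Agent.Lib.MP_f2cf74_an.AlgA
import Pool.Agent.Lib.MP_f2cf74_an.ModB

open Set Metric MeasureTheory Complex Filter Topology
open scoped ContDiff ENNReal NNReal

noncomputable section

namespace Pool.Agent.Lib.MP_f2cf74_an

/-! The Levi form, `dd^c` and the matrix `H` of smooth functions.  Symmetry of second
derivatives: `ContDiffAt.isSymmSndFDerivAt`.  All identities were checked numerically. -/

theorem algb_JX (M : Model) (x : E) (j : Fin 2) : ‖M.J x (M.X j)‖ ≤ M.K ^ 2 := by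
  calc ‖M.J x (M.X j)‖ ≤ ‖M.J x‖ * ‖M.X j‖ := (M.J x).le_opNorm _
    _ ≤ M.K * M.K := mul_le_mul (M.bJ x) (M.bX j) (norm_nonneg _) M.K_pos.le
    _ = M.K ^ 2 := by ring

theorem algb_X (M : Model) (j : Fin 2) : ‖M.X j‖ ≤ M.K ^ 2 := by
  have := M.one_le
  have := M.bX j
  nlinarith

theorem algb_J (M : Model) (x Y : E) : ‖M.J x Y‖ ≤ M.K * ‖Y‖ :=
  ((M.J x).le_opNorm _).trans (mul_le_mul_of_nonneg_right (M.bJ x) (norm_nonneg _))

theorem algb_DJ (M : Model) (x U V : E) : ‖fderiv ℝ M.J x U V‖ ≤ M.K * ‖U‖ * ‖V‖ := by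
  calc ‖fderiv ℝ M.J x U V‖ ≤ ‖fderiv ℝ M.J x‖ * ‖U‖ * ‖V‖ := (fderiv ℝ M.J x).le_opNorm₂ U V
    _ ≤ M.K * ‖U‖ * ‖V‖ := by
      have := M.bDJ x
      gcongr

theorem algb_app (g : E →L[ℝ] ℝ) {V : E} {c : ℝ} (h : ‖V‖ ≤ c) : |g V| ≤ c * ‖g‖ := by
  calc |g V| = ‖g V‖ := rfl
    _ ≤ ‖g‖ * ‖V‖ := g.le_opNorm V
    _ ≤ ‖g‖ * c := mul_le_mul_of_nonneg_left h (norm_nonneg _)
    _ = c * ‖g‖ := mul_comm _ _

theorem algb_pDJ (M : Model) (x : E) (g : E →L[ℝ] ℝ) {U V : E} (hU : ‖U‖ ≤ M.K ^ 2)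
    (hV : ‖V‖ ≤ M.K ^ 2) : |g (fderiv ℝ M.J x U V)| ≤ M.K ^ 5 * ‖g‖ := by
  refine algb_app g ((algb_DJ M x U V).trans ?_)
  have := M.K_pos
  calc M.K * ‖U‖ * ‖V‖ ≤ M.K * M.K ^ 2 * M.K ^ 2 := by gcongr
    _ = M.K ^ 5 := by ring

theorem algb_norm (a b : ℝ) : ‖(a : ℂ) + I * (b : ℂ)‖ ≤ |a| + |b| := by
  refine (norm_add_le _ _).trans ?_
  simp

theorem algb_norm' (a b : ℝ) : ‖(a : ℂ) - I * (b : ℂ)‖ ≤ |a| + |b| := by
  refine (norm_sub_le _ _).trans ?_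
  simp

theorem algb_cont (M : Model) {f : E → ℝ} (hf : ContDiff ℝ 2 f) {Y Z : E → E}
    (hY : Continuous Y) (hZ : Continuous Z) : Continuous fun x => Om M.J f x (Y x) (Z x) := by
  have h1 : ContDiff ℝ 1 (fderiv ℝ f) := hf.fderiv_right (by norm_num)
  have h2 : Continuous (fderiv ℝ (fderiv ℝ f)) := h1.continuous_fderiv (by norm_num)
  have h3 : Continuous (fderiv ℝ f) := h1.continuous
  have h4 : Continuous M.J := M.smJ.continuous
  have h5 : Continuous (fderiv ℝ M.J) := M.smJ.continuous_fderiv (by simp)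
  unfold Om
  exact ((((h2.clm_apply hY).clm_apply (h4.clm_apply hZ)).neg.sub
    (h3.clm_apply ((h5.clm_apply hY).clm_apply hZ))).add
    ((h2.clm_apply hZ).clm_apply (h4.clm_apply hY))).add
    (h3.clm_apply ((h5.clm_apply hZ).clm_apply hY))

theorem algb_d1 {f : E → ℝ} {x : E} (hf : ContDiffAt ℝ 2 f x) :
    HasFDerivAt (fderiv ℝ f) (fderiv ℝ (fderiv ℝ f) x) x :=
  ((hf.fderiv_right (m := 1) (by norm_num)).differentiableAt (by norm_num)).hasFDerivAt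

theorem algb_dJ (M : Model) (x : E) : HasFDerivAt M.J (fderiv ℝ M.J x) x :=
  (M.smJ.differentiable (by simp) x).hasFDerivAt

theorem algb_dX {f : E → ℝ} {x : E} (hf : ContDiffAt ℝ 2 f x) (W : E) :
    DifferentiableAt ℝ (fun y => fderiv ℝ f y W) x ∧
      ∀ V, fderiv ℝ (fun y => fderiv ℝ f y W) x V = fderiv ℝ (fderiv ℝ f) x V W := by
  have h := (algb_d1 hf).clm_apply (hasFDerivAt_const W x)
  refine ⟨h.differentiableAt, fun V => ?_⟩
  rw [h.fderiv]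
  simp

theorem algb_dY (M : Model) {f : E → ℝ} {x : E} (hf : ContDiffAt ℝ 2 f x) (W : E) :
    DifferentiableAt ℝ (fun y => fderiv ℝ f y (M.J y W)) x ∧
      ∀ V, fderiv ℝ (fun y => fderiv ℝ f y (M.J y W)) x V =
        fderiv ℝ (fderiv ℝ f) x V (M.J x W) + fderiv ℝ f x (fderiv ℝ M.J x V W) := by
  have h := (algb_d1 hf).clm_apply ((algb_dJ M x).clm_apply (hasFDerivAt_const W x))
  refine ⟨h.differentiableAt, fun V => ?_⟩
  rw [h.fderiv]
  simp [add_comm]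

theorem algb_ofReal {g : E → ℝ} {x : E} (hg : DifferentiableAt ℝ g x) :
    HasFDerivAt (fun y => (g y : ℂ)) (Complex.ofRealCLM.comp (fderiv ℝ g x)) x :=
  Complex.ofRealCLM.hasFDerivAt.comp x hg.hasFDerivAt

theorem algb_dLb (M : Model) {f : E → ℝ} {x : E} (hf : ContDiffAt ℝ 2 f x) (k : Fin 2) (V : E) :
    fderiv ℝ (Lb M k f) x V = ((fderiv ℝ (fderiv ℝ f) x V (M.X k) : ℂ) +
      I * ((fderiv ℝ (fderiv ℝ f) x V (M.J x (M.X k)) +
        fderiv ℝ f x (fderiv ℝ M.J x V (M.X k)) : ℝ) : ℂ)) / 2 := by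
  obtain ⟨a1, a2⟩ := algb_dX hf (M.X k)
  obtain ⟨b1, b2⟩ := algb_dY M hf (M.X k)
  have h := ((algb_ofReal a1).add ((algb_ofReal b1).const_mul I)).mul_const (2⁻¹ : ℂ)
  have e : Lb M k f = fun y => ((fderiv ℝ f y (M.X k) : ℂ) +
      I * (fderiv ℝ f y (M.J y (M.X k)) : ℂ)) * 2⁻¹ := by
    funext y
    simp only [Lb, Lg, div_eq_mul_inv]
  rw [e, (show HasFDerivAt (fun y => ((fderiv ℝ f y (M.X k) : ℂ) +
      I * (fderiv ℝ f y (M.J y (M.X k)) : ℂ)) * 2⁻¹) _ x from h).fderiv, ← a2, ← b2]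
  simp
  ring

theorem algb_symm {f : E → ℝ} {x : E} (hf : ContDiffAt ℝ 2 f x) (V W : E) :
    fderiv ℝ (fderiv ℝ f) x V W = fderiv ℝ (fderiv ℝ f) x W V :=
  hf.isSymmSndFDerivAt (by simp) V W

theorem algb_span (M : Model) (x Y : E) (g : E →L[ℝ] ℝ) :
    g Y = (M.A x Y 0).re * g (M.X 0) + (M.A x Y 0).im * g (M.J x (M.X 0)) +
      ((M.A x Y 1).re * g (M.X 1) + (M.A x Y 1).im * g (M.J x (M.X 1))) := by
  conv_lhs => rw [M.span x Y]
  simp [Fin.sum_univ_two]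

theorem algb_span' (M : Model) (x Y : E) (g : E →L[ℝ] ℝ) :
    g (M.J x Y) = (M.A x Y 0).re * g (M.J x (M.X 0)) - (M.A x Y 0).im * g (M.X 0) +
      ((M.A x Y 1).re * g (M.J x (M.X 1)) - (M.A x Y 1).im * g (M.X 1)) := by
  have := algb_span M x Y (g.comp (M.J x))
  simp only [ContinuousLinearMap.comp_apply, M.JJ, map_neg] at this
  rw [this]
  ring

theorem algb_Lg (M : Model) (j : Fin 2) (x : E) (g : E →L[ℝ] ℝ) :
    |g (M.X j)| ≤ 2 * ‖Lg M j x g‖ ∧ |g (M.J x (M.X j))| ≤ 2 * ‖Lg M j x g‖ := by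
  have h1 := Complex.abs_re_le_norm (Lg M j x g)
  have h2 := Complex.abs_im_le_norm (Lg M j x g)
  have e1 : (Lg M j x g).re = g (M.X j) / 2 := by simp [Lg]
  have e2 : (Lg M j x g).im = g (M.J x (M.X j)) / 2 := by simp [Lg]
  rw [e1, abs_div] at h1
  rw [e2, abs_div] at h2
  norm_num at h1 h2
  constructor <;> linarith

theorem isAlt_Om (J : E → E →L[ℝ] E) (f : E → ℝ) (x : E) : IsAlt (Om J f x) := by
  refine ⟨fun Y Y' Z => ?_, fun c Y Z => ?_, fun Y Z => ?_⟩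
  · simp only [Om, map_add, add_apply]
    ring
  · simp only [Om, map_smul, smul_apply, smul_eq_mul]
    ring
  · simp only [Om]
    ring

theorem levi_eq_Om (M : Model) (f : E → ℝ) (x Y : E) :
    levi M.J f x Y = Om M.J f x Y (M.J x Y) := by
  simp only [levi, jetL, beta, Om, M.JJ, map_neg, map_sub]
  ring

theorem hq_H (M : Model) (f : E → ℝ) (x : E) (z : F) :
    4 * Hq (H M f x) z = levi M.J f x (Bv (M.J x) M.X z) := by
  rw [levi_eq_Om, M.J_Bv, hq_hm (isAlt_Om _ _ _)]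
  rfl

theorem psd_H (M : Model) {f : E → ℝ} {S : Set E} (h : Psh M.J f S) {x : E} (hx : x ∈ S) :
    PSD (H M f x) := by
  refine ⟨fun j k => hm_herm (isAlt_Om _ _ _) _ _ j k, fun z => ?_⟩
  have h1 := hq_H M f x z
  have h2 := h x hx (Bv (M.J x) M.X z)
  linarith

theorem continuous_H (M : Model) {f : E → ℝ} (hf : ContDiff ℝ 2 f) (j k : Fin 2) :
    Continuous fun x => H M f x j k := by
  have hX : ∀ j, Continuous fun _ : E => M.X j := fun j => continuous_const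
  have hY : ∀ j, Continuous fun x : E => M.J x (M.X j) := fun j =>
    M.smJ.continuous.clm_apply continuous_const
  have h1 := algb_cont M hf (hX j) (hY k)
  have h2 := algb_cont M hf (hY j) (hX k)
  have h3 := algb_cont M hf (hX j) (hX k)
  have h4 := algb_cont M hf (hY j) (hY k)
  unfold H hm
  exact (Complex.continuous_ofReal.comp ((h1.sub h2).div_const 8)).sub
    (continuous_const.mul (Complex.continuous_ofReal.comp ((h3.add h4).div_const 8)))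

theorem measurable_eT (M : Model) {f : E → ℝ} (hf : ContDiff ℝ 2 f) : Measurable (eT M f) := by
  have h0 := continuous_H M hf 0 0
  have h1 := continuous_H M hf 1 1
  have : Continuous fun x => tr (H M f x) :=
    (Complex.continuous_re.comp h0).add (Complex.continuous_re.comp h1)
  exact this.measurable.ennreal_ofReal

theorem measurable_eG (f : E → ℝ) : Measurable (eG f) := by
  exact (measurable_fderiv ℝ f).enorm

theorem measurable_eD (M : Model) {u v : E → ℝ} (hu : ContDiff ℝ 2 u) (hv : ContDiff ℝ 2 v) :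
    Measurable fun q : E × E => eD M u v q.1 q.2 := by
  have h1 : ∀ j k, Continuous fun q : E × E => H M u q.1 j k := fun j k =>
    (continuous_H M hu j k).comp continuous_fst
  have h2 : ∀ j k, Continuous fun q : E × E => H M v q.2 j k := fun j k =>
    (continuous_H M hv j k).comp continuous_snd
  have : Continuous fun q : E × E => Dd (H M u q.1) (H M v q.2) := by
    unfold Dd
    exact (((Complex.continuous_re.comp (h1 0 0)).mul (Complex.continuous_re.comp (h2 1 1))).add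
      ((Complex.continuous_re.comp (h1 1 1)).mul (Complex.continuous_re.comp (h2 0 0)))).sub
      (continuous_const.mul (Complex.continuous_re.comp
        ((h1 0 1).mul (Complex.continuous_conj.comp (h2 0 1)))))
  exact this.measurable.ennreal_ofReal

theorem contDiff_Lb (M : Model) {f : E → ℝ} (hf : ContDiff ℝ 2 f) (j : Fin 2) :
    ContDiff ℝ 1 (Lb M j f) := by
  have h1 : ContDiff ℝ 1 (fderiv ℝ f) := hf.fderiv_right (by norm_num)
  have h2 : ContDiff ℝ 1 M.J := M.smJ.of_le (by simp)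
  have h3 : ContDiff ℝ 1 fun x => fderiv ℝ f x (M.X j) := h1.clm_apply contDiff_const
  have h4 : ContDiff ℝ 1 fun x => fderiv ℝ f x (M.J x (M.X j)) :=
    h1.clm_apply (h2.clm_apply contDiff_const)
  exact ((Complex.ofRealCLM.contDiff.comp h3).add
    (contDiff_const.mul (Complex.ofRealCLM.contDiff.comp h4))).div_const 2

theorem Lc_ofReal (M : Model) {f : E → ℝ} {x : E} (hf : DifferentiableAt ℝ f x) (j : Fin 2) :
    Lc M I j (fun y => (f y : ℂ)) x = Lb M j f x := by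
  simp only [Lc, Lb, Lg, (algb_ofReal hf).fderiv]
  simp

/-- Comparison of `g` with its `(0,1)` components. -/
theorem Lg_bound (M : Model) : ∃ C : ℝ, 0 ≤ C ∧ ∀ x g, (∀ j, ‖Lg M j x g‖ ≤ C * ‖g‖) ∧
    ‖g‖ ≤ C * (‖Lg M 0 x g‖ + ‖Lg M 1 x g‖) ∧
    ‖g‖ ^ 2 ≤ C * (‖Lg M 0 x g‖ ^ 2 + ‖Lg M 1 x g‖ ^ 2) ∧ ‖sigg M x g‖ ≤ C * ‖g‖ := by
  obtain ⟨N, hN, hNij⟩ := M.norm_Nij
  have hK := M.one_le
  have hK0 := M.K_pos
  refine ⟨32 * M.K ^ 2 + N * (1 + M.K), by positivity, fun x g => ?_⟩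
  have hg := norm_nonneg g
  have hNK : 0 ≤ N * (1 + M.K) := by positivity
  have h0 := norm_nonneg (Lg M 0 x g)
  have h1 := norm_nonneg (Lg M 1 x g)
  have key : ‖g‖ ≤ 4 * M.K * (‖Lg M 0 x g‖ + ‖Lg M 1 x g‖) := by
    refine g.opNorm_le_bound (by positivity) fun Y => ?_
    have hA : ∀ j, |(M.A x Y j).re| ≤ M.K * ‖Y‖ ∧ |(M.A x Y j).im| ≤ M.K * ‖Y‖ := fun j => by
      have := (PiLp.norm_apply_le (M.A x Y) j).trans (M.norm_A x Y)
      exact ⟨(Complex.abs_re_le_norm _).trans this, (Complex.abs_im_le_norm _).trans this⟩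
    have hm : ∀ {a b c d : ℝ}, |a| ≤ c → |b| ≤ d → |a * b| ≤ c * d := fun ha hb => by
      rw [abs_mul]
      exact mul_le_mul ha hb (abs_nonneg _) ((abs_nonneg _).trans ha)
    have t1 := hm (hA 0).1 (algb_Lg M 0 x g).1
    have t2 := hm (hA 0).2 (algb_Lg M 0 x g).2
    have t3 := hm (hA 1).1 (algb_Lg M 1 x g).1
    have t4 := hm (hA 1).2 (algb_Lg M 1 x g).2
    rw [Real.norm_eq_abs, algb_span M x Y g, abs_le]
    rw [abs_le] at t1 t2 t3 t4
    constructor <;> nlinarith [t1.1, t1.2, t2.1, t2.2, t3.1, t3.2, t4.1, t4.2]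
  refine ⟨fun j => ?_, ?_, ?_, ?_⟩
  · have e : ‖Lg M j x g‖ ≤ (|g (M.X j)| + |g (M.J x (M.X j))|) / 2 := by
      unfold Lg
      rw [norm_div, Complex.norm_two]
      exact div_le_div_of_nonneg_right (algb_norm _ _) (by norm_num)
    have a1 := algb_app g (algb_X M j)
    have a2 := algb_app g (algb_JX M x j)
    have : M.K ^ 2 * ‖g‖ ≤ (32 * M.K ^ 2 + N * (1 + M.K)) * ‖g‖ :=
      mul_le_mul_of_nonneg_right (by nlinarith) hg
    linarith
  · refine key.trans (mul_le_mul_of_nonneg_right (by nlinarith) (by positivity))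
  · calc ‖g‖ ^ 2 ≤ (4 * M.K * (‖Lg M 0 x g‖ + ‖Lg M 1 x g‖)) ^ 2 := by gcongr
      _ = 16 * M.K ^ 2 * (‖Lg M 0 x g‖ + ‖Lg M 1 x g‖) ^ 2 := by ring
      _ ≤ 16 * M.K ^ 2 * (2 * (‖Lg M 0 x g‖ ^ 2 + ‖Lg M 1 x g‖ ^ 2)) :=
        mul_le_mul_of_nonneg_left (by nlinarith [sq_nonneg (‖Lg M 0 x g‖ - ‖Lg M 1 x g‖)])
          (by positivity)
      _ = 32 * M.K ^ 2 * (‖Lg M 0 x g‖ ^ 2 + ‖Lg M 1 x g‖ ^ 2) := by ring
      _ ≤ _ := mul_le_mul_of_nonneg_right (by linarith) (by positivity)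
  · have e : ‖sigg M x g‖ ≤ |g (Nij M x)| + |g (M.J x (Nij M x))| := algb_norm _ _
    have a1 := algb_app g (hNij x)
    have a2 := algb_app g ((algb_J M x _).trans (mul_le_mul_of_nonneg_left (hNij x) hK0.le))
    have : 0 ≤ 32 * M.K ^ 2 * ‖g‖ := by positivity
    nlinarith

theorem Om_bound (M : Model) : ∃ C : ℝ, 0 ≤ C ∧ ∀ (f : E → ℝ) x Y Z, |Om M.J f x Y Z| ≤
    C * (‖fderiv ℝ f x‖ + ‖fderiv ℝ (fderiv ℝ f) x‖) * ‖Y‖ * ‖Z‖ := by
  have hK0 := M.K_pos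
  refine ⟨2 * M.K, by positivity, fun f x Y Z => ?_⟩
  have hA : ∀ U V : E, |fderiv ℝ (fderiv ℝ f) x U (M.J x V)| ≤
      M.K * ‖fderiv ℝ (fderiv ℝ f) x‖ * ‖U‖ * ‖V‖ := fun U V => by
    calc |fderiv ℝ (fderiv ℝ f) x U (M.J x V)| = ‖fderiv ℝ (fderiv ℝ f) x U (M.J x V)‖ := rfl
      _ ≤ ‖fderiv ℝ (fderiv ℝ f) x‖ * ‖U‖ * ‖M.J x V‖ := ContinuousLinearMap.le_opNorm₂ _ _ _
      _ ≤ ‖fderiv ℝ (fderiv ℝ f) x‖ * ‖U‖ * (M.K * ‖V‖) :=
        mul_le_mul_of_nonneg_left (algb_J M x V) (by positivity)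
      _ = _ := by ring
  have t1 := hA Y Z
  have t2 := hA Z Y
  have t3 := algb_app (fderiv ℝ f x) (algb_DJ M x Y Z)
  have t4 := algb_app (fderiv ℝ f x) (algb_DJ M x Z Y)
  unfold Om
  rw [abs_le] at t1 t2 t3 t4 ⊢
  constructor <;> nlinarith [t1.1, t1.2, t2.1, t2.2, t3.1, t3.2, t4.1, t4.2]

theorem H_bound (M : Model) : ∃ C : ℝ, 0 ≤ C ∧ ∀ (f : E → ℝ) x j k, ‖H M f x j k‖ ≤
    C * (‖fderiv ℝ f x‖ + ‖fderiv ℝ (fderiv ℝ f) x‖) := by
  obtain ⟨C, hC, h⟩ := Om_bound M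
  have hK0 := M.K_pos
  refine ⟨C * M.K ^ 4, by positivity, fun f x j k => ?_⟩
  have hS : 0 ≤ ‖fderiv ℝ f x‖ + ‖fderiv ℝ (fderiv ℝ f) x‖ :=
    add_nonneg (norm_nonneg _) (ContinuousLinearMap.opNorm_nonneg _)
  have hb : ∀ Y Z : E, ‖Y‖ ≤ M.K ^ 2 → ‖Z‖ ≤ M.K ^ 2 → |Om M.J f x Y Z| ≤
      C * M.K ^ 4 * (‖fderiv ℝ f x‖ + ‖fderiv ℝ (fderiv ℝ f) x‖) := fun Y Z hY hZ => by
    refine (h f x Y Z).trans ?_
    generalize ‖fderiv ℝ f x‖ + ‖fderiv ℝ (fderiv ℝ f) x‖ = S at hS ⊢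
    calc C * S * ‖Y‖ * ‖Z‖ ≤ C * S * M.K ^ 2 * M.K ^ 2 := by gcongr
      _ = _ := by ring
  have t1 := hb _ _ (algb_X M j) (algb_JX M x k)
  have t2 := hb _ _ (algb_JX M x j) (algb_X M k)
  have t3 := hb _ _ (algb_X M j) (algb_X M k)
  have t4 := hb _ _ (algb_JX M x j) (algb_JX M x k)
  have h0 := (abs_nonneg _).trans t1
  unfold H hm
  refine (algb_norm' _ _).trans ?_
  have s1 := abs_sub (Om M.J f x (M.X j) (M.J x (M.X k))) (Om M.J f x (M.J x (M.X j)) (M.X k))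
  have s2 := abs_add_le (Om M.J f x (M.X j) (M.X k))
    (Om M.J f x (M.J x (M.X j)) (M.J x (M.X k)))
  rw [abs_div, abs_div, show |(8 : ℝ)| = 8 by norm_num]
  linarith

/-- `H j k = L_j Lbar_k f` up to first order terms (the second order parts agree by symmetry). -/
theorem H_sub_LL (M : Model) : ∃ C : ℝ, 0 ≤ C ∧ ∀ (f : E → ℝ), ContDiff ℝ 2 f → ∀ x j k,
    ‖H M f x j k - Lc M (-I) j (Lb M k f) x‖ ≤ C * ‖fderiv ℝ f x‖ := by
  have hK0 := M.K_pos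
  refine ⟨2 * M.K ^ 5, by positivity, fun f hf x j k => ?_⟩
  have hf' : ContDiffAt ℝ 2 f x := hf.contDiffAt
  set p := fderiv ℝ f x with hp
  set D := fderiv ℝ M.J x with hD
  have e : H M f x j k - Lc M (-I) j (Lb M k f) x =
      (((-p (D (M.X j) (M.J x (M.X k))) + p (D (M.J x (M.X k)) (M.X j)) -
          p (D (M.J x (M.X j)) (M.X k)) - p (D (M.X k) (M.J x (M.X j)))) / 8 : ℝ) : ℂ) +
        I * (((-p (D (M.X j) (M.X k)) - p (D (M.X k) (M.X j)) +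
          p (D (M.J x (M.X j)) (M.J x (M.X k))) - p (D (M.J x (M.X k)) (M.J x (M.X j)))) / 8 : ℝ) :
          ℂ) := by
    simp only [H, hm, Om, Lc, algb_dLb M hf', M.JJ, map_neg, ← hp, ← hD,
      algb_symm hf' (M.X k) (M.X j), algb_symm hf' (M.J x (M.X k)) (M.J x (M.X j)),
      algb_symm hf' (M.X k) (M.J x (M.X j)), algb_symm hf' (M.J x (M.X k)) (M.X j)]
    apply Complex.ext <;> simp <;> ring
  rw [e]
  refine (algb_norm _ _).trans ?_
  have t1 := algb_pDJ M x p (algb_X M j) (algb_JX M x k)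
  have t2 := algb_pDJ M x p (algb_JX M x k) (algb_X M j)
  have t3 := algb_pDJ M x p (algb_JX M x j) (algb_X M k)
  have t4 := algb_pDJ M x p (algb_X M k) (algb_JX M x j)
  have t5 := algb_pDJ M x p (algb_X M j) (algb_X M k)
  have t6 := algb_pDJ M x p (algb_X M k) (algb_X M j)
  have t7 := algb_pDJ M x p (algb_JX M x j) (algb_JX M x k)
  have t8 := algb_pDJ M x p (algb_JX M x k) (algb_JX M x j)
  rw [← hD, abs_le] at t1 t2 t3 t4 t5 t6 t7 t8
  have hb : ∀ a b : ℝ, |a| ≤ M.K ^ 5 * ‖p‖ → |b| ≤ M.K ^ 5 * ‖p‖ →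
      |a| + |b| ≤ 2 * M.K ^ 5 * ‖p‖ := fun a b ha hb => by linarith
  have h0 : 0 ≤ M.K ^ 5 * ‖p‖ := by positivity
  refine hb _ _ ?_ ?_ <;> rw [abs_le] <;> constructor <;>
    linarith [t1.1, t1.2, t2.1, t2.2, t3.1, t3.2, t4.1, t4.2, t5.1, t5.2, t6.1, t6.2, t7.1, t7.2,
      t8.1, t8.2]

/-- Uses `Model.DJ_anti`. -/
theorem sig_Om (M : Model) {f : E → ℝ} {x : E} (hf : ContDiffAt ℝ 2 f x) :
    sig (Om M.J f x) (M.J x) M.X = sigg M x (fderiv ℝ f x) := by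
  have a1 := M.DJ_anti x (M.X 0) (M.X 1)
  have a2 := M.DJ_anti x (M.X 1) (M.X 0)
  have a3 := M.DJ_anti x (M.J x (M.X 0)) (M.J x (M.X 1))
  have a4 := M.DJ_anti x (M.J x (M.X 1)) (M.J x (M.X 0))
  rw [M.JJ, map_neg, neg_inj] at a3 a4
  simp only [sig, sigg, Om, Nij, M.JJ, map_neg, map_add, map_sub, ← a3, ← a4, a1, a2,
    algb_symm hf (M.X 1) (M.X 0), algb_symm hf (M.J x (M.X 1)) (M.J x (M.X 0)),
    algb_symm hf (M.J x (M.X 1)) (M.X 0), algb_symm hf (M.J x (M.X 0)) (M.X 1)]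
  apply Complex.ext <;> simp <;> ring

theorem sigg_eq (M : Model) (x : E) (g : E →L[ℝ] ℝ) :
    sigg M x g = 2 * ∑ n, (starRingEnd ℂ) (M.A x (Nij M x) n) * Lg M n x g := by
  rw [sigg, algb_span M x (Nij M x) g, algb_span' M x (Nij M x) g]
  simp only [Fin.sum_univ_two, Lg]
  apply Complex.ext <;> simp <;> ring

theorem trH_sum (M : Model) {f : E → ℝ} {x : E} (hf : ContDiffAt ℝ 2 f x) :
    tr (H M f x) = (∑ j, (VD (vX M j) (VD (vX M j) f) x + VD (vY M j) (VD (vY M j) f) x +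
      VD (vB M j) f x)) / 4 := by
  have e1 : ∀ j, VD (vX M j) (VD (vX M j) f) x =
      fderiv ℝ (fderiv ℝ f) x (M.X j) (M.X j) := fun j => (algb_dX hf (M.X j)).2 _
  have e2 : ∀ j, VD (vY M j) (VD (vY M j) f) x =
      fderiv ℝ (fderiv ℝ f) x (M.J x (M.X j)) (M.J x (M.X j)) +
        fderiv ℝ f x (fderiv ℝ M.J x (M.J x (M.X j)) (M.X j)) := fun j =>
    (algb_dY M hf (M.X j)).2 _
  simp only [e1, e2, Fin.sum_univ_two]
  simp only [tr, H, hm, Om, VD, vB, M.JJ, map_neg]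
  simp
  ring

end Pool.Agent.Lib.MP_f2cf74_an
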