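import Pool.Agent.Lib.MP_f2cf74_an.Ibp
import Pool.Agent.Lib.MP_f2cf74_an.AlgB

open Set Metric MeasureTheory Complex Filter Topology
open scoped ContDiff ENNReal NNReal

noncomputable section

namespace Pool.Agent.Lib.MP_f2cf74_an

/-! The adjoint identity for a kernel with a pole of order two.  For each field `V` use `si` for
`Φ * VD V U` and for `adj V Φ * (U - U x)`; for `vB` use `si` for `Φ * (U - U x)`; `trH_sum`.
Near `x`, `|U y - U x| ≤ C ‖y - x‖`.  `inv_cube_le_sg` converts the bounds. -/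

/-- A function with bounded support and a pole of order `k` at `x`. -/
structure adjS_Pole (k : ℕ) (x : E) (R : ℝ) (f : E → ℝ) : Prop where
  diff : ∀ y, y ≠ x → DifferentiableAt ℝ f y
  zero : ∀ y, R < ‖y - x‖ → f y = 0
  bd : ∃ C : ℝ, 0 ≤ C ∧ ∀ y, y ≠ x → ‖y - x‖ < R + 1 →
    |f y| ≤ C * ‖y - x‖⁻¹ ^ k ∧ ‖fderiv ℝ f y‖ ≤ C * ‖y - x‖⁻¹ ^ (k + 1)

theorem adjS_bd {G : Type} [NormedAddCommGroup G] [NormedSpace ℝ G] {g : E → G}
    (hg : ContDiff ℝ 1 g) (x : E) (R : ℝ) : ∃ L : ℝ, 0 ≤ L ∧ ∀ y, ‖y - x‖ < R →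
      ‖g y‖ ≤ L ∧ ‖fderiv ℝ g y‖ ≤ L ∧ ‖g y - g x‖ ≤ L * ‖y - x‖ := by
  obtain ⟨L₁, h1⟩ := (isCompact_closedBall x R).exists_bound_of_continuousOn
    hg.continuous.continuousOn
  obtain ⟨L₂, h2⟩ := (isCompact_closedBall x R).exists_bound_of_continuousOn
    (hg.continuous_fderiv one_ne_zero).continuousOn
  refine ⟨|L₁| + |L₂|, by positivity, fun y hy => ?_⟩
  have hy' : y ∈ closedBall x R := mem_closedBall_iff_norm.2 hy.le
  have h3 : ∀ z ∈ closedBall x R, ‖fderiv ℝ g z‖ ≤ |L₁| + |L₂| := fun z hz => by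
    linarith [h2 z hz, le_abs_self L₂, abs_nonneg L₁]
  refine ⟨by linarith [h1 y hy', le_abs_self L₁, abs_nonneg L₂], h3 y hy', ?_⟩
  exact (convex_closedBall x R).norm_image_sub_le_of_norm_fderiv_le
    (fun z _ => hg.differentiable one_ne_zero z) h3
    (mem_closedBall_self ((norm_nonneg _).trans hy.le)) hy'

theorem adjS_up {d R : ℝ} (h0 : 0 < d) (h : d < R + 1) (k : ℕ) :
    d⁻¹ ^ k ≤ (|R| + 1) * d⁻¹ ^ (k + 1) := by
  have h1 : 1 ≤ (|R| + 1) * d⁻¹ := by
    rw [← div_eq_mul_inv, one_le_div h0]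
    linarith [le_abs_self R]
  calc d⁻¹ ^ k = 1 * d⁻¹ ^ k := (one_mul _).symm
    _ ≤ (|R| + 1) * d⁻¹ * d⁻¹ ^ k := mul_le_mul_of_nonneg_right h1 (by positivity)
    _ = _ := by ring

theorem adjS_dmul {f g : E → ℝ} {y : E} (hf : DifferentiableAt ℝ f y)
    (hg : DifferentiableAt ℝ g y) :
    ‖fderiv ℝ (fun z => f z * g z) y‖ ≤ |f y| * ‖fderiv ℝ g y‖ + |g y| * ‖fderiv ℝ f y‖ := by
  rw [fderiv_fun_mul hf hg]
  refine (norm_add_le _ _).trans (le_of_eq ?_)
  rw [norm_smul, norm_smul, Real.norm_eq_abs, Real.norm_eq_abs]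

namespace adjS_Pole

variable {k : ℕ} {x : E} {R : ℝ} {f g : E → ℝ}

theorem succ (hf : adjS_Pole k x R f) : adjS_Pole (k + 1) x R f := by
  obtain ⟨C, hC, H⟩ := hf.bd
  refine ⟨hf.diff, hf.zero, C * (|R| + 1), by positivity, fun y hy hR => ?_⟩
  have h0 : 0 < ‖y - x‖ := norm_pos_iff.2 (sub_ne_zero.2 hy)
  rw [mul_assoc, mul_assoc]
  exact ⟨(H y hy hR).1.trans (mul_le_mul_of_nonneg_left (adjS_up h0 hR _) hC),
    (H y hy hR).2.trans (mul_le_mul_of_nonneg_left (adjS_up h0 hR _) hC)⟩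

theorem add (hf : adjS_Pole k x R f) (hg : adjS_Pole k x R g) :
    adjS_Pole k x R fun y => f y + g y := by
  obtain ⟨C, hC, H⟩ := hf.bd
  obtain ⟨C', hC', H'⟩ := hg.bd
  refine ⟨fun y hy => (hf.diff y hy).add (hg.diff y hy),
    fun y hy => by rw [hf.zero y hy, hg.zero y hy, add_zero], C + C', by positivity,
    fun y hy hR => ⟨?_, ?_⟩⟩
  · rw [add_mul]
    exact (abs_add_le _ _).trans (add_le_add (H y hy hR).1 (H' y hy hR).1)
  · rw [add_mul, fderiv_fun_add (hf.diff y hy) (hg.diff y hy)]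
    exact (norm_add_le _ _).trans (add_le_add (H y hy hR).2 (H' y hy hR).2)

theorem mul (hf : adjS_Pole k x R f) (hg : ContDiff ℝ 1 g) :
    adjS_Pole k x R fun y => f y * g y := by
  obtain ⟨C, hC, H⟩ := hf.bd
  obtain ⟨L, hL, H'⟩ := adjS_bd hg x (R + 1)
  refine ⟨fun y hy => (hf.diff y hy).mul (hg.differentiable one_ne_zero y),
    fun y hy => by rw [hf.zero y hy, zero_mul], C * L * (|R| + 2), by positivity,
    fun y hy hR => ?_⟩
  have h0 : 0 < ‖y - x‖ := norm_pos_iff.2 (sub_ne_zero.2 hy)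
  obtain ⟨a1, a2⟩ := H y hy hR
  obtain ⟨b1, b2, -⟩ := H' y hR
  rw [Real.norm_eq_abs] at b1
  have c0 : 0 ≤ C * L := by positivity
  refine ⟨?_, ?_⟩
  · rw [abs_mul]
    have c1 := mul_le_mul a1 b1 (abs_nonneg _) (by positivity)
    have c2 : 0 ≤ C * L * (|R| + 1) * ‖y - x‖⁻¹ ^ k := by positivity
    linarith
  · have c1 := mul_le_mul a1 b2 (norm_nonneg _) (by positivity)
    have c2 := mul_le_mul b1 a2 (norm_nonneg _) hL
    have c3 := mul_le_mul_of_nonneg_left (adjS_up h0 hR k) c0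
    have c4 := adjS_dmul (hf.diff y hy) (hg.differentiable one_ne_zero y)
    linarith

theorem mul0 (hf : adjS_Pole (k + 1) x R f) (hg : ContDiff ℝ 1 g) (h1 : g x = 0) :
    adjS_Pole k x R fun y => f y * g y := by
  obtain ⟨C, hC, H⟩ := hf.bd
  obtain ⟨L, hL, H'⟩ := adjS_bd hg x (R + 1)
  refine ⟨fun y hy => (hf.diff y hy).mul (hg.differentiable one_ne_zero y),
    fun y hy => by rw [hf.zero y hy, zero_mul], 2 * (C * L), by positivity,
    fun y hy hR => ?_⟩
  have h0 : 0 < ‖y - x‖ := norm_pos_iff.2 (sub_ne_zero.2 hy)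
  obtain ⟨a1, a2⟩ := H y hy hR
  obtain ⟨-, b2, b1⟩ := H' y hR
  rw [h1, sub_zero, Real.norm_eq_abs] at b1
  have e : ∀ j : ℕ, ‖y - x‖⁻¹ ^ (j + 1) * ‖y - x‖ = ‖y - x‖⁻¹ ^ j := fun j => by
    rw [pow_succ, mul_assoc, inv_mul_cancel₀ h0.ne', mul_one]
  refine ⟨?_, ?_⟩
  · rw [abs_mul]
    have c1 := mul_le_mul a1 b1 (abs_nonneg _) (by positivity)
    have c2 : 0 ≤ C * L * ‖y - x‖⁻¹ ^ k := by positivity
    have c3 : C * ‖y - x‖⁻¹ ^ (k + 1) * (L * ‖y - x‖) = C * L * ‖y - x‖⁻¹ ^ k := by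
      rw [← e k]
      ring
    linarith
  · have c1 := mul_le_mul a1 b2 (norm_nonneg _) (by positivity)
    have c2 := mul_le_mul b1 a2 (norm_nonneg _) (by positivity)
    have c3 : L * ‖y - x‖ * (C * ‖y - x‖⁻¹ ^ (k + 1 + 1)) = C * L * ‖y - x‖⁻¹ ^ (k + 1) := by
      rw [← e (k + 1)]
      ring
    have c4 := adjS_dmul (hf.diff y hy) (hg.differentiable one_ne_zero y)
    linarith

theorem integrable (hf : adjS_Pole 3 x R f) (hg : Continuous g) :
    Integrable fun y => f y * g y := by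
  obtain ⟨C, hC, H⟩ := hf.bd
  obtain ⟨L, hL⟩ := (isCompact_closedBall x (R + 1)).exists_bound_of_continuousOn hg.continuousOn
  have h1 : AEStronglyMeasurable f volume := by
    have : ContinuousOn f {x}ᶜ := fun y hy => (hf.diff y hy).continuousAt.continuousWithinAt
    simpa only [restrict_compl_singleton] using
      this.aestronglyMeasurable (μ := volume) (measurableSet_singleton x).compl
  refine IntegrableOn.integrable_of_forall_notMem_eq_zero (s := ball x (R + 1)) ?_ fun y hy => ?_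
  · refine Integrable.mono' ((integrableOn_inv_cube x (R + 1)).const_mul (C * L))
      (h1.mul hg.aestronglyMeasurable).restrict ?_
    filter_upwards [ae_restrict_mem measurableSet_ball,
      ae_restrict_of_ae (Measure.ae_ne volume x)] with y hy hyx
    rw [norm_mul, mul_right_comm]
    exact mul_le_mul (H y hyx (mem_ball_iff_norm.1 hy)).1 (hL y (ball_subset_closedBall hy))
      (norm_nonneg _) (by positivity)
  · rw [mem_ball_iff_norm, not_lt] at hy
    rw [hf.zero y (by linarith), zero_mul]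

theorem parts {V : E → E} (hV : ContDiff ℝ 1 V) (hf : adjS_Pole 3 x R f) (hg : ContDiff ℝ 1 g)
    (hp : adjS_Pole 2 x R fun y => f y * g y) :
    Integrable (fun y => f y * VD V g y) ∧ Integrable (fun y => adj V f y * g y) ∧
      ∫ y, f y * VD V g y = -∫ y, adj V f y * g y := by
  obtain ⟨C, hC, H⟩ := hp.bd
  obtain ⟨C', hC', H'⟩ := inv_cube_le_sg (R + 1)
  obtain ⟨i1, i2, i3⟩ := si hV x (R + 1) (C * C') hp.diff (fun y hy => hp.zero y (by linarith))
    (fun y hy hR => by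
      rw [mul_assoc]
      exact (H y hy hR).1.trans (mul_le_mul_of_nonneg_left (H' y x hR).2 hC))
    (fun y hy hR => by
      rw [mul_assoc]
      exact (H y hy hR).2.trans (mul_le_mul_of_nonneg_left (H' y x hR).1 hC))
  have i4 : Integrable fun y => f y * VD V g y :=
    hf.integrable ((hg.continuous_fderiv one_ne_zero).clm_apply hV.continuous)
  have e : (fun y => fderiv ℝ (fun y => f y * g y) y (V y) + divg V y • (f y * g y) -
      f y * VD V g y) =ᵐ[volume] fun y => adj V f y * g y := by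
    filter_upwards [Measure.ae_ne volume x] with y hy
    rw [fderiv_fun_mul (hf.diff y hy) (hg.differentiable one_ne_zero y)]
    simp only [adj, VD, add_apply, smul_apply, smul_eq_mul]
    ring
  have i5 : Integrable fun y => fderiv ℝ (fun y => f y * g y) y (V y) + divg V y • (f y * g y) :=
    i1.add i2
  refine ⟨i4, (i5.sub i4).congr e, ?_⟩
  rw [← integral_congr_ae e, integral_sub i5 i4, i3, zero_sub, neg_neg]

end adjS_Pole

theorem adjS_adj {Φ : E → ℝ} {x : E} {R C : ℝ} (hΦ : adjS_Pole 2 x R Φ)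
    (hd : ∀ y, y ≠ x → DifferentiableAt ℝ (fderiv ℝ Φ) y)
    (hb : ∀ y, y ≠ x → ‖fderiv ℝ (fderiv ℝ Φ) y‖ ≤ C * ‖y - x‖⁻¹ ^ 4) {V : E → E}
    (hV : ContDiff ℝ ∞ V) : adjS_Pole 3 x R (adj V Φ) := by
  have hV1 : ContDiff ℝ 1 V := hV.of_le (by simp)
  have h1 : adjS_Pole 3 x R (VD V Φ) := by
    obtain ⟨C', hC', H⟩ := hΦ.bd
    obtain ⟨L, hL, H'⟩ := adjS_bd hV1 x (R + 1)
    refine ⟨fun y hy => (hd y hy).clm_apply (hV1.differentiable one_ne_zero y), fun y hy => ?_,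
      C' * L * (|R| + 1) + |C| * L, by positivity, fun y hy hR => ?_⟩
    · have h2 : Φ =ᶠ[𝓝 y] fun _ => 0 := by
        have h3 : IsOpen {z : E | R < ‖z - x‖} := isOpen_lt continuous_const (by fun_prop)
        filter_upwards [h3.mem_nhds hy] with z hz using hΦ.zero z hz
      rw [VD, h2.fderiv_eq]
      simp
    have h0 : 0 < ‖y - x‖ := norm_pos_iff.2 (sub_ne_zero.2 hy)
    obtain ⟨-, a2⟩ := H y hy hR
    obtain ⟨b1, b2, -⟩ := H' y hR
    have c0 : 0 ≤ C' * L := by positivity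
    refine ⟨?_, ?_⟩
    · have c1 : |VD V Φ y| ≤ ‖fderiv ℝ Φ y‖ * ‖V y‖ := (fderiv ℝ Φ y).le_opNorm _
      have c2 := mul_le_mul a2 b1 (norm_nonneg _) (by positivity)
      have c3 : 0 ≤ (C' * L * |R| + |C| * L) * ‖y - x‖⁻¹ ^ 3 := by positivity
      norm_num only at c2
      linarith
    · have c1 : fderiv ℝ (VD V Φ) y = _ := ((hd y hy).hasFDerivAt.clm_apply
        (hV1.differentiable one_ne_zero y).hasFDerivAt).fderiv
      have c2 := (fderiv ℝ Φ y).opNorm_comp_le (fderiv ℝ V y)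
      have c3 := (fderiv ℝ (fderiv ℝ Φ) y).flip.le_opNorm (V y)
      rw [ContinuousLinearMap.opNorm_flip] at c3
      have c4 := mul_le_mul a2 b2 (norm_nonneg _) (by positivity)
      have c5 := mul_le_mul ((hb y hy).trans (mul_le_mul_of_nonneg_right (le_abs_self C)
        (by positivity))) b1 (norm_nonneg _) (by positivity)
      have c6 := mul_le_mul_of_nonneg_left (adjS_up h0 hR 3) c0
      rw [c1]
      refine (norm_add_le _ _).trans ?_
      norm_num only at c4 c6 ⊢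
      linarith
  have h2 := h1.add (hΦ.mul ((contDiff_divg hV).of_le (by simp))).succ
  have e : adj V Φ = fun y => VD V Φ y + Φ y * divg V y := funext fun y => by rw [adj, mul_comm]
  rw [e]
  exact h2

/-- Two integrable functions with the same integral. -/
def adjS_Eq (a b : E → ℝ) : Prop := Integrable a ∧ Integrable b ∧ ∫ y, a y = ∫ y, b y

theorem adjS_Eq.add {a b a' b' : E → ℝ} (h : adjS_Eq a b) (h' : adjS_Eq a' b') :
    adjS_Eq (fun y => a y + a' y) fun y => b y + b' y :=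
  ⟨h.1.add h'.1, h.2.1.add h'.2.1, by
    rw [integral_add h.1 h'.1, integral_add h.2.1 h'.2.1, h.2.2, h'.2.2]⟩

theorem adjS_Eq.div {a b : E → ℝ} (h : adjS_Eq a b) (c : ℝ) :
    adjS_Eq (fun y => a y / c) fun y => b y / c :=
  ⟨h.1.div_const c, h.2.1.div_const c, by rw [integral_div, integral_div, h.2.2]⟩

theorem adjS_meas {V : E → E} (hV : ContDiff ℝ ∞ V) {Φ : E → ℝ} (hΦ : Measurable Φ) :
    Measurable (adj V Φ) :=
  (ContinuousLinearMap.measurable_apply₂.comp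
    ((measurable_fderiv ℝ Φ).prodMk hV.continuous.measurable)).add
    ((contDiff_divg hV).continuous.measurable.mul hΦ)

theorem adjS (M : Model) {Φ U : E → ℝ} {x : E} {R C : ℝ} (hU : ContDiff ℝ 2 U)
    (h0 : ∀ y, R ≤ ‖y - x‖ → Φ y = 0)
    (hd : ∀ y, y ≠ x → DifferentiableAt ℝ Φ y ∧ DifferentiableAt ℝ (fderiv ℝ Φ) y)
    (hb : ∀ y, y ≠ x → |Φ y| ≤ C * ‖y - x‖⁻¹ ^ 2 ∧ ‖fderiv ℝ Φ y‖ ≤ C * ‖y - x‖⁻¹ ^ 3 ∧
      ‖fderiv ℝ (fderiv ℝ Φ) y‖ ≤ C * ‖y - x‖⁻¹ ^ 4) :
    Integrable (fun y => Φ y * tr (H M U y)) ∧ Integrable (fun y => Pstar M Φ y * (U y - U x)) ∧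
    ∫ y, Φ y * tr (H M U y) = ∫ y, Pstar M Φ y * (U y - U x) := by
  have hΦ : adjS_Pole 2 x R Φ := ⟨fun y hy => (hd y hy).1, fun y hy => h0 y hy.le, |C|,
    abs_nonneg C, fun y hy _ =>
      ⟨(hb y hy).1.trans (mul_le_mul_of_nonneg_right (le_abs_self C) (by positivity)),
        (hb y hy).2.1.trans (mul_le_mul_of_nonneg_right (le_abs_self C) (by positivity))⟩⟩
  have hU1 : ContDiff ℝ 1 fun y => U y - U x := (hU.of_le (by norm_num)).sub contDiff_const
  have hVD : ∀ V, VD V (fun y => U y - U x) = VD V U := fun V => funext fun y => by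
    rw [VD, VD, fderiv_sub_const]
  have k2 : ∀ V : E → E, ContDiff ℝ ∞ V → adjS_Eq (fun y => Φ y * VD V (VD V U) y)
      fun y => adj V (adj V Φ) y * (U y - U x) := by
    intro V hV
    have hV1 : ContDiff ℝ 1 V := hV.of_le (by simp)
    have h1 : ContDiff ℝ 1 (VD V U) := (hU.fderiv_right (m := 1) (by norm_num)).clm_apply hV1
    have h2 := adjS_adj hΦ (fun y hy => (hd y hy).2) (fun y hy => (hb y hy).2.2) hV
    obtain ⟨a1, -, a3⟩ := hΦ.succ.parts hV1 h1 (hΦ.mul h1)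
    obtain ⟨-, b2, b3⟩ := h2.parts hV1 hU1 (h2.mul0 hU1 (sub_self _))
    rw [hVD] at b3
    exact ⟨a1, b2, by rw [a3, b3, neg_neg]⟩
  have k1 : ∀ V : E → E, ContDiff ℝ ∞ V → adjS_Eq (fun y => Φ y * VD V U y)
      fun y => -(adj V Φ y * (U y - U x)) := by
    intro V hV
    obtain ⟨a1, a2, a3⟩ := hΦ.succ.parts (hV.of_le (by simp)) hU1 (hΦ.mul hU1)
    rw [hVD] at a1 a3
    exact ⟨a1, a2.neg, by rw [a3, integral_neg]⟩
  have k3 := fun j => ((k2 (vX M j) contDiff_const).add (k2 _ (M.contDiff_vY j))).add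
    (k1 _ (M.contDiff_vB j))
  have k4 := ((k3 0).add (k3 1)).div 4
  have e1 : (fun y => Φ y * tr (H M U y)) = _ := funext fun y => by
    rw [trH_sum M hU.contDiffAt, Fin.sum_univ_two, ← mul_div_assoc, mul_add, mul_add, mul_add,
      mul_add, mul_add]
  have e2 : (fun y => Pstar M Φ y * (U y - U x)) = _ := funext fun y => by
    rw [Pstar, Fin.sum_univ_two, div_mul_eq_mul_div, add_mul, sub_eq_add_neg (_ + _),
      sub_eq_add_neg (_ + _), add_mul, add_mul, add_mul, add_mul, neg_mul, neg_mul]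
  rw [e1, e2]
  exact k4

theorem measurable_Pstar (M : Model) {Φ : E → ℝ} (hΦ : Measurable Φ) : Measurable (Pstar M Φ) := by
  have hX : ∀ j, ContDiff ℝ ∞ (vX M j) := fun j => contDiff_const
  exact (Finset.measurable_sum _ fun j _ => ((adjS_meas (hX j) (adjS_meas (hX j) hΦ)).add
    (adjS_meas (M.contDiff_vY j) (adjS_meas (M.contDiff_vY j) hΦ))).sub
    (adjS_meas (M.contDiff_vB j) hΦ)).div_const 4

end Pool.Agent.Lib.MP_f2cf74_an
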