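import Pool.Agent.Lib.MP_f2cf74_an.Base

open Set Metric MeasureTheory Complex Filter Topology
open scoped ContDiff ENNReal NNReal

noncomputable section

namespace Pool.Agent.Lib.MP_f2cf74_an

/-! Pointwise algebra of 2-forms on `ℝ⁴` and of `2 × 2` hermitian matrices.
`top22_det`: expand `v i = ∑ a, v i a • eb a`; an alternating form is determined by the six numbers
`Φ (eb a) (eb b)`, `a < b`; then `ring` (with `Matrix.det_succ_row_zero`).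
`top22_frame`, `alt_frame`: only antisymmetry (and bilinearity) is needed; all identities were
checked numerically.  `PSD` facts: test `Hq α z ≥ 0` on suitable `z` to get `0 ≤ α j j` and
`‖α 0 1‖² ≤ α 0 0 * α 1 1`. -/

section

variable {R : Type} [CommRing R] [Algebra ℝ R] {Φ : E → E → R}

theorem algA_add (h : IsAlt Φ) (Y Z Z' : E) : Φ Y (Z + Z') = Φ Y Z + Φ Y Z' := by
  rw [h.anti Y (Z + Z'), h.add, h.anti Y Z, h.anti Y Z', neg_add]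

theorem algA_smul (h : IsAlt Φ) (c : ℝ) (Y Z : E) : Φ Y (c • Z) = c • Φ Y Z := by
  rw [h.anti Y (c • Z), h.smul, h.anti Y Z, smul_neg]

theorem algA_self (h : IsAlt Φ) (Y : E) : Φ Y Y = 0 := by
  have h1 : Φ Y Y + Φ Y Y = 0 := add_eq_zero_iff_eq_neg.2 (h.anti Y Y)
  have h2 : Φ Y Y = (1 / 2 : ℝ) • (Φ Y Y + Φ Y Y) := by module
  rw [h2, h1, smul_zero]

theorem algA_exp (h : IsAlt Φ) (u₀ u₁ u₂ u₃ : E) (a₀ a₁ a₂ a₃ b₀ b₁ b₂ b₃ : ℝ) :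
    Φ (a₀ • u₀ + a₁ • u₁ + (a₂ • u₂ + a₃ • u₃)) (b₀ • u₀ + b₁ • u₁ + (b₂ • u₂ + b₃ • u₃)) =
      (a₀ * b₁ - a₁ * b₀) • Φ u₀ u₁ + (a₀ * b₂ - a₂ * b₀) • Φ u₀ u₂ +
      (a₀ * b₃ - a₃ * b₀) • Φ u₀ u₃ + (a₁ * b₂ - a₂ * b₁) • Φ u₁ u₂ +
      (a₁ * b₃ - a₃ * b₁) • Φ u₁ u₃ + (a₂ * b₃ - a₃ * b₂) • Φ u₂ u₃ := by
  simp only [h.add, h.smul, algA_add h, algA_smul h, algA_self h]
  rw [h.anti u₁ u₀, h.anti u₂ u₀, h.anti u₃ u₀, h.anti u₂ u₁, h.anti u₃ u₁, h.anti u₃ u₂]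
  module

theorem algA_eb (h : IsAlt Φ) (Y Z : E) : Φ Y Z =
    (Y 0 * Z 1 - Y 1 * Z 0) • Φ (eb 0) (eb 1) + (Y 0 * Z 2 - Y 2 * Z 0) • Φ (eb 0) (eb 2) +
      (Y 0 * Z 3 - Y 3 * Z 0) • Φ (eb 0) (eb 3) + (Y 1 * Z 2 - Y 2 * Z 1) • Φ (eb 1) (eb 2) +
      (Y 1 * Z 3 - Y 3 * Z 1) • Φ (eb 1) (eb 3) + (Y 2 * Z 3 - Y 3 * Z 2) • Φ (eb 2) (eb 3) := by
  have e : ∀ U : E, U = U 0 • eb 0 + U 1 • eb 1 + (U 2 • eb 2 + U 3 • eb 3) := fun U => by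
    ext j
    fin_cases j <;> simp [eb]
  rw [← algA_exp h, ← e, ← e]

end

theorem algA_hm (Φ : E → E → ℝ) (J0 : E →L[ℝ] E) (X : Fin 2 → E) (j k : Fin 2) :
    (hm Φ J0 X j k).re = (Φ (X j) (J0 (X k)) - Φ (J0 (X j)) (X k)) / 8 ∧
      (hm Φ J0 X j k).im = -((Φ (X j) (X k) + Φ (J0 (X j)) (J0 (X k))) / 8) := by
  constructor <;> simp [hm]

theorem algA_det (v : Fin 4 → E) : det4 v =
    (v 0 0 * v 1 1 - v 0 1 * v 1 0) * (v 2 2 * v 3 3 - v 2 3 * v 3 2) -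
    (v 0 0 * v 1 2 - v 0 2 * v 1 0) * (v 2 1 * v 3 3 - v 2 3 * v 3 1) +
    (v 0 0 * v 1 3 - v 0 3 * v 1 0) * (v 2 1 * v 3 2 - v 2 2 * v 3 1) +
    (v 0 1 * v 1 2 - v 0 2 * v 1 1) * (v 2 0 * v 3 3 - v 2 3 * v 3 0) -
    (v 0 1 * v 1 3 - v 0 3 * v 1 1) * (v 2 0 * v 3 2 - v 2 2 * v 3 0) +
    (v 0 2 * v 1 3 - v 0 3 * v 1 2) * (v 2 0 * v 3 1 - v 2 1 * v 3 0) := by
  unfold det4
  rw [Matrix.det_succ_row_zero, Fin.sum_univ_four]
  simp only [Matrix.det_fin_three, Matrix.submatrix_apply, Matrix.of_apply]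
  simp [Fin.succAbove]
  ring

theorem top22_det {R : Type} [CommRing R] [Algebra ℝ R] {Φ Ψ : E → E → R} (hΦ : IsAlt Φ)
    (hΨ : IsAlt Ψ) (v : Fin 4 → E) : top22 Φ Ψ v = det4 v • top22 Φ Ψ eb := by
  have e : ∀ a b : Fin 4, Φ (v a) (v b) = _ := fun a b => algA_eb hΦ (v a) (v b)
  have e' : ∀ a b : Fin 4, Ψ (v a) (v b) = _ := fun a b => algA_eb hΨ (v a) (v b)
  rw [algA_det]
  unfold top22
  simp only [e, e', Algebra.smul_def, map_add, map_sub, map_mul]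
  ring

theorem top22_comm {R : Type} [CommRing R] (Φ Ψ : E → E → R) (v : Fin 4 → E) :
    top22 Φ Ψ v = top22 Ψ Φ v := by
  unfold top22; ring

theorem isAlt_w11 {R : Type} [CommRing R] [Algebra ℝ R] {α β : E → R}
    (ha : ∀ Y Z, α (Y + Z) = α Y + α Z) (hs : ∀ (c : ℝ) Y, α (c • Y) = c • α Y)
    (hb : ∀ Y Z, β (Y + Z) = β Y + β Z) (ht : ∀ (c : ℝ) Y, β (c • Y) = c • β Y) :
    IsAlt (w11 α β) := by
  refine ⟨fun Y Y' Z => ?_, fun c Y Z => ?_, fun Y Z => ?_⟩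
  · simp only [w11, ha, hb]
    ring
  · simp only [w11, hs, ht, Algebra.smul_def]
    ring
  · simp only [w11]
    ring

theorem top22_frame {Φ Ψ : E → E → ℝ} (hΦ : IsAlt Φ) (hΨ : IsAlt Ψ) (J0 : E →L[ℝ] E)
    (X : Fin 2 → E) : top22 Φ Ψ (frame J0 X) = 16 * Dd (hm Φ J0 X) (hm Ψ J0 X) +
      (sig Φ J0 X * (starRingEnd ℂ) (sig Ψ J0 X)).re / 2 := by
  simp only [Dd, mul_re, conj_re, conj_im, (algA_hm _ _ _ _ _).1, (algA_hm _ _ _ _ _).2]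
  simp [top22, frame, sig, hΦ.anti (J0 (X 0)) (X 0),
    hΦ.anti (J0 (X 1)) (X 1), hΨ.anti (J0 (X 0)) (X 0), hΨ.anti (J0 (X 1)) (X 1)]
  ring

theorem alt_frame {Φ : E → E → ℝ} (hΦ : IsAlt Φ) (J0 : E →L[ℝ] E) (X : Fin 2 → E) (z w : F) :
    Φ (Bv J0 X z) (Bv J0 X w) = (sig Φ J0 X * (z 0 * w 1 - z 1 * w 0)).re / 2 -
      4 * (∑ j, ∑ k, z j * (starRingEnd ℂ) (w k) * hm Φ J0 X j k).im := by
  unfold Bv
  rw [Fin.sum_univ_two, Fin.sum_univ_two, algA_exp hΦ]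
  simp [Fin.sum_univ_two, hm, sig, algA_self hΦ, hΦ.anti (J0 (X 0)) (X 0),
    hΦ.anti (J0 (X 1)) (X 1), hΦ.anti (X 1) (X 0), hΦ.anti (X 1) (J0 (X 0)),
    hΦ.anti (J0 (X 1)) (X 0), hΦ.anti (J0 (X 1)) (J0 (X 0))]
  ring

theorem hm_herm {Φ : E → E → ℝ} (hΦ : IsAlt Φ) (J0 : E →L[ℝ] E) (X : Fin 2 → E) (j k : Fin 2) :
    hm Φ J0 X k j = (starRingEnd ℂ) (hm Φ J0 X j k) := by
  have h1 := hΦ.anti (X k) (J0 (X j))
  have h2 := hΦ.anti (J0 (X k)) (X j)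
  have h3 := hΦ.anti (X k) (X j)
  have h4 := hΦ.anti (J0 (X k)) (J0 (X j))
  apply Complex.ext <;>
    simp only [conj_re, conj_im, (algA_hm _ _ _ _ _).1, (algA_hm _ _ _ _ _).2] <;> linarith

theorem hq_hm {Φ : E → E → ℝ} (hΦ : IsAlt Φ) (J0 : E →L[ℝ] E) (X : Fin 2 → E) (z : F) :
    Φ (Bv J0 X z) (Bv J0 X (I • z)) = 4 * Hq (hm Φ J0 X) z := by
  rw [alt_frame hΦ]
  simp [Hq, Fin.sum_univ_two]
  ring

theorem Dd_comm (α β : Fin 2 → Fin 2 → ℂ) : Dd α β = Dd β α := by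
  simp [Dd]
  ring

theorem Dd_abs_le (α β : Fin 2 → Fin 2 → ℂ) (a b : ℝ) (ha : ∀ j k, ‖α j k‖ ≤ a)
    (hb : ∀ j k, ‖β j k‖ ≤ b) : |Dd α β| ≤ 4 * (a * b) := by
  have ha0 : 0 ≤ a := (norm_nonneg _).trans (ha 0 0)
  have h : ∀ j k, |(α j j).re * (β k k).re| ≤ a * b := fun j k => by
    rw [abs_mul]
    exact mul_le_mul ((abs_re_le_norm _).trans (ha j j)) ((abs_re_le_norm _).trans (hb k k))
      (abs_nonneg _) ha0
  have h3 : |(α 0 1 * (starRingEnd ℂ) (β 0 1)).re| ≤ a * b := by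
    refine (abs_re_le_norm _).trans ?_
    rw [norm_mul, Complex.norm_conj]
    exact mul_le_mul (ha 0 1) (hb 0 1) (norm_nonneg _) ha0
  have h1 := abs_le.1 (h 0 1)
  have h2 := abs_le.1 (h 1 0)
  have h4 := abs_le.1 h3
  unfold Dd
  rw [abs_le]
  constructor <;> linarith [h1.1, h1.2, h2.1, h2.2, h4.1, h4.2]

theorem algA_herm {α : Fin 2 → Fin 2 → ℂ} (h : PSD α) : (α 0 0).im = 0 ∧ (α 1 1).im = 0 ∧
    (α 1 0).re = (α 0 1).re ∧ (α 1 0).im = -(α 0 1).im := by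
  have h0 := congrArg Complex.im (h.herm 0 0)
  have h1 := congrArg Complex.im (h.herm 1 1)
  rw [conj_im] at h0 h1
  refine ⟨by linarith, by linarith, ?_, ?_⟩
  · rw [h.herm 0 1, conj_re]
  · rw [h.herm 0 1, conj_im]

theorem algA_Hq {α : Fin 2 → Fin 2 → ℂ} (h : PSD α) (c : ℂ) (z w : F) :
    Hq α (c • z + w) = normSq c * Hq α z +
      2 * (c * ∑ j, ∑ k, z j * (starRingEnd ℂ) (w k) * α j k).re + Hq α w := by
  obtain ⟨h0, h1, h2, h3⟩ := algA_herm h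
  simp [Hq, Fin.sum_univ_two, normSq_apply, h0, h1, h2, h3]
  ring

theorem algA_ee (α : Fin 2 → Fin 2 → ℂ) (j : Fin 2) : Hq α (ee j) = (α j j).re := by
  fin_cases j <;> simp [Hq, ee]

theorem algA_sq {x y : ℝ} (hy : 0 ≤ y) (h : x ^ 2 ≤ y ^ 2) : x ≤ y :=
  (le_abs_self x).trans (abs_le_of_sq_le_sq h hy)

theorem tr_eq_Hq (α : Fin 2 → Fin 2 → ℂ) : tr α = Hq α (ee 0) + Hq α (ee 1) := by
  rw [algA_ee, algA_ee, tr]

theorem PSD.diag_nonneg {α : Fin 2 → Fin 2 → ℂ} (h : PSD α) (j : Fin 2) : 0 ≤ (α j j).re := by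
  rw [← algA_ee]
  exact h.pos _

theorem PSD.tr_nonneg {α : Fin 2 → Fin 2 → ℂ} (h : PSD α) : 0 ≤ tr α := by
  exact add_nonneg (h.diag_nonneg 0) (h.diag_nonneg 1)

theorem PSD.off {α : Fin 2 → Fin 2 → ℂ} (h : PSD α) : ‖α 0 1‖ ^ 2 ≤ (α 0 0).re * (α 1 1).re := by
  have key : ∀ x : ℝ, 0 ≤ normSq (α 0 1) * (α 0 0).re * (x * x) + 2 * normSq (α 0 1) * x +
      (α 1 1).re := fun x => by
    have h1 := h.pos ((x * (starRingEnd ℂ) (α 0 1)) • ee 0 + ee 1)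
    rw [algA_Hq h, algA_ee, algA_ee] at h1
    refine h1.trans_eq ?_
    simp [ee, normSq_apply]
    ring
  have h2 := discrim_le_zero key
  rw [discrim] at h2
  rw [Complex.sq_norm]
  rcases (normSq_nonneg (α 0 1)).eq_or_lt with h3 | h3
  · rw [← h3]
    exact mul_nonneg (h.diag_nonneg 0) (h.diag_nonneg 1)
  · nlinarith

theorem PSD.norm_le {α : Fin 2 → Fin 2 → ℂ} (h : PSD α) (j k : Fin 2) : ‖α j k‖ ≤ tr α := by
  obtain ⟨h0, h1, -, -⟩ := algA_herm h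
  have p0 := h.diag_nonneg 0
  have p1 := h.diag_nonneg 1
  have h2 : ‖α 0 1‖ ≤ tr α := algA_sq h.tr_nonneg (h.off.trans (by unfold tr; nlinarith))
  have h3 : ∀ j, (α j j).im = 0 → ‖α j j‖ = (α j j).re := fun j hj => by
    rw [← abs_re_eq_norm.2 hj, abs_of_nonneg (h.diag_nonneg j)]
  fin_cases j <;> fin_cases k
  · exact (h3 0 h0).trans_le (le_add_of_nonneg_right p1)
  · exact h2
  · change ‖α 1 0‖ ≤ _
    rwa [h.herm 0 1, Complex.norm_conj]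
  · exact (h3 1 h1).trans_le (le_add_of_nonneg_left p0)

theorem PSD.Hq_le {α : Fin 2 → Fin 2 → ℂ} (h : PSD α) (z : F) : Hq α z ≤ tr α * ‖z‖ ^ 2 := by
  obtain ⟨h0, h1, h2, h3⟩ := algA_herm h
  have h4 := h.pos (WithLp.toLp 2 ![(starRingEnd ℂ) (z 1), -(starRingEnd ℂ) (z 0)])
  rw [EuclideanSpace.norm_sq_eq, Fin.sum_univ_two, Complex.sq_norm, Complex.sq_norm]
  simp [Hq, tr, Fin.sum_univ_two, normSq_apply, h0, h1, h2, h3] at h4 ⊢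
  linarith

theorem PSD.Hq_add {α : Fin 2 → Fin 2 → ℂ} (h : PSD α) (z w : F) :
    Hq α (z + w) ≤ 2 * Hq α z + 2 * Hq α w := by
  have h1 := algA_Hq h 1 z w
  have h2 := h.pos ((-1 : ℂ) • z + w)
  rw [algA_Hq h, normSq_neg, neg_mul, neg_re] at h2
  rw [one_smul] at h1
  rw [normSq_one] at h1 h2
  linarith

/-- Cauchy-Schwarz with a parameter. -/
theorem PSD.cs {α : Fin 2 → Fin 2 → ℂ} (h : PSD α) (z w : F) (t : ℝ) (ht : 0 < t) :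
    ‖∑ j, ∑ k, z j * (starRingEnd ℂ) (w k) * α j k‖ ≤ (t * Hq α z + Hq α w / t) / 2 := by
  obtain ⟨u, hu, e⟩ := Complex.exists_norm_eq_mul_self
    (∑ j, ∑ k, z j * (starRingEnd ℂ) (w k) * α j k)
  have h1 := h.pos ((-(t : ℂ) * u) • z + w)
  rw [algA_Hq h, mul_assoc (-(t : ℂ)), ← e, normSq_mul, normSq_neg, normSq_ofReal,
    normSq_eq_norm_sq u, hu, neg_mul, neg_re, ← ofReal_mul, ofReal_re] at h1
  obtain ⟨y, hy⟩ : ∃ y, Hq α w = t * y := ⟨Hq α w / t, by field_simp⟩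
  rw [hy] at h1
  rw [hy, mul_div_cancel_left₀ _ ht.ne']
  refine le_of_mul_le_mul_left ?_ ht
  linarith

theorem PSD.Dd_nonneg {α β : Fin 2 → Fin 2 → ℂ} (h : PSD α) (h' : PSD β) : 0 ≤ Dd α β := by
  have p0 := h.diag_nonneg 0
  have p1 := h.diag_nonneg 1
  have q0 := h'.diag_nonneg 0
  have q1 := h'.diag_nonneg 1
  have h1 : (α 0 1 * (starRingEnd ℂ) (β 0 1)).re ≤ ‖α 0 1‖ * ‖β 0 1‖ := by
    refine (re_le_norm _).trans_eq ?_
    rw [norm_mul, Complex.norm_conj]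
  have h2 := mul_le_mul h.off h'.off (sq_nonneg _) (mul_nonneg p0 p1)
  have h3 : 2 * (‖α 0 1‖ * ‖β 0 1‖) ≤ (α 0 0).re * (β 1 1).re + (α 1 1).re * (β 0 0).re :=
    algA_sq (by positivity)
      (by nlinarith [sq_nonneg ((α 0 0).re * (β 1 1).re - (α 1 1).re * (β 0 0).re)])
  unfold Dd
  linarith

theorem algA_wedge {α β : Fin 2 → Fin 2 → ℂ} (h : PSD α) (h' : PSD β) (j l : Fin 2) :
    ‖α j 0 * β l 1 - α j 1 * β l 0‖ ^ 2 ≤ (α j j).re * (β l l).re * Dd α β := by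
  obtain ⟨h0, h1, h2, h3⟩ := algA_herm h
  obtain ⟨k0, k1, k2, k3⟩ := algA_herm h'
  have ha := h.off
  have hb := h'.off
  have hab := mul_le_mul ha hb (sq_nonneg _) ((sq_nonneg _).trans ha)
  rw [Complex.sq_norm, normSq_apply] at ha hb
  rw [Complex.sq_norm, Complex.sq_norm, normSq_apply, normSq_apply] at hab
  rw [Complex.sq_norm, normSq_apply]
  fin_cases j <;> fin_cases l <;> simp [Dd, h0, h1, h2, h3, k0, k1, k2, k3]
  · nlinarith [mul_le_mul_of_nonneg_left ha (sq_nonneg (β 0 0).re),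
      mul_le_mul_of_nonneg_left hb (sq_nonneg (α 0 0).re)]
  · nlinarith
  · nlinarith
  · nlinarith [mul_le_mul_of_nonneg_left ha (sq_nonneg (β 1 1).re),
      mul_le_mul_of_nonneg_left hb (sq_nonneg (α 1 1).re)]

/-- The square of the left side is at most `α j j * β l l * Dd α β` (four cases, each a
polynomial inequality from `PSD.off`); then AM-GM. -/
theorem wedge_amgm {α β : Fin 2 → Fin 2 → ℂ} (h : PSD α) (h' : PSD β) (j l : Fin 2) (t : ℝ)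
    (ht : 0 < t) : ‖α j 0 * β l 1 - α j 1 * β l 0‖ ≤ (t * (tr α * tr β) + Dd α β / t) / 2 := by
  have hD := h.Dd_nonneg h'
  have hT := mul_nonneg h.tr_nonneg h'.tr_nonneg
  have h1 : (α j j).re * (β l l).re ≤ tr α * tr β :=
    mul_le_mul ((re_le_norm _).trans (h.norm_le j j)) ((re_le_norm _).trans (h'.norm_le l l))
      (h'.diag_nonneg l) h.tr_nonneg
  refine algA_sq (by positivity) (((algA_wedge h h' j l).trans
    (mul_le_mul_of_nonneg_right h1 hD)).trans ?_)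
  obtain ⟨y, hy⟩ : ∃ y, Dd α β = t * y := ⟨Dd α β / t, by field_simp⟩
  rw [hy, mul_div_cancel_left₀ _ ht.ne']
  nlinarith [sq_nonneg (t * (tr α * tr β) - y)]

end Pool.Agent.Lib.MP_f2cf74_an
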