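import Pool.Agent.Lib.MP_f2cf74_an.AlgB

open Set Metric MeasureTheory Complex Filter Topology
open scoped ContDiff ENNReal NNReal

noncomputable section

namespace Pool.Agent.Lib.MP_f2cf74_an

/-! Sum, product and chain rules for the Levi form and for `H`. -/

theorem algc_ev {G : Type} [NormedAddCommGroup G] [NormedSpace ℝ G] {f : G → ℝ} {x : G}
    (hf : ContDiffAt ℝ 2 f x) : (∀ᶠ y in 𝓝 x, DifferentiableAt ℝ f y) ∧
      HasFDerivAt (fderiv ℝ f) (fderiv ℝ (fderiv ℝ f) x) x :=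
  ⟨(hf.eventually (by simp)).mono fun _ h => h.differentiableAt (by simp),
    ((hf.fderiv_right (m := 1) (by norm_num)).differentiableAt (by simp)).hasFDerivAt⟩

theorem algc_mul {f g : E → ℝ} {x : E} (hf : ContDiffAt ℝ 2 f x) (hg : ContDiffAt ℝ 2 g x) :
    (∀ U, fderiv ℝ (fun y => f y * g y) x U = f x * fderiv ℝ g x U + g x * fderiv ℝ f x U) ∧
    ∀ U V, fderiv ℝ (fderiv ℝ fun y => f y * g y) x U V =
      f x * fderiv ℝ (fderiv ℝ g) x U V + fderiv ℝ f x U * fderiv ℝ g x V +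
        (g x * fderiv ℝ (fderiv ℝ f) x U V + fderiv ℝ g x U * fderiv ℝ f x V) := by
  obtain ⟨f1, f2⟩ := algc_ev hf
  obtain ⟨g1, g2⟩ := algc_ev hg
  have h1 : (fderiv ℝ fun y => f y * g y) =ᶠ[𝓝 x]
      fun y => f y • fderiv ℝ g y + g y • fderiv ℝ f y := by
    filter_upwards [f1, g1] with y h h'
    exact fderiv_fun_mul h h'
  have h2 := ((f1.self_of_nhds.hasFDerivAt.smul g2).add
    (g1.self_of_nhds.hasFDerivAt.smul f2)).congr_of_eventuallyEq h1
  refine ⟨fun U => ?_, fun U V => ?_⟩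
  · rw [h1.self_of_nhds]
    simp
  · rw [h2.fderiv]
    simp

theorem levi_add (J : E → E →L[ℝ] E) {f g : E → ℝ} {x : E} (hf : ContDiffAt ℝ 2 f x)
    (hg : ContDiffAt ℝ 2 g x) (Y : E) :
    levi J (fun y => f y + g y) x Y = levi J f x Y + levi J g x Y := by
  obtain ⟨f1, f2⟩ := algc_ev hf
  obtain ⟨g1, g2⟩ := algc_ev hg
  have h1 : (fderiv ℝ fun y => f y + g y) =ᶠ[𝓝 x] fun y => fderiv ℝ f y + fderiv ℝ g y := by
    filter_upwards [f1, g1] with y h h'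
    exact fderiv_fun_add h h'
  have h2 := (f2.add g2).congr_of_eventuallyEq h1
  rw [levi, levi, levi, h2.fderiv, h1.self_of_nhds]
  simp only [jetL, add_apply]
  ring

theorem levi_const_mul (J : E → E →L[ℝ] E) {f : E → ℝ} {x : E} (hf : ContDiffAt ℝ 2 f x) (a : ℝ)
    (Y : E) : levi J (fun y => a * f y) x Y = a * levi J f x Y := by
  obtain ⟨h1, h2⟩ := algc_mul (f := fun _ => a) contDiffAt_const hf
  simp only [levi, jetL, h1, h2]
  simp
  ring

theorem levi_add_const (J : E → E →L[ℝ] E) (f : E → ℝ) (x : E) (a : ℝ) (Y : E) :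
    levi J (fun y => f y + a) x Y = levi J f x Y := by
  have h : (fderiv ℝ fun y => f y + a) = fderiv ℝ f := funext fun y => fderiv_add_const a
  rw [levi, levi, h]

theorem levi_comp (J : E → E →L[ℝ] E) {f : E → ℝ} {x : E} (hf : ContDiffAt ℝ 2 f x)
    {χ : ℝ → ℝ} (hχ : ContDiffAt ℝ 2 χ (f x)) (Y : E) :
    levi J (fun y => χ (f y)) x Y = deriv χ (f x) * levi J f x Y +
      deriv (deriv χ) (f x) * (fderiv ℝ f x Y ^ 2 + fderiv ℝ f x (J x Y) ^ 2) := by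
  obtain ⟨f1, f2⟩ := algc_ev hf
  have c1 := (algc_ev hχ).1
  have c2 : HasDerivAt (deriv χ) (deriv (deriv χ) (f x)) (f x) :=
    ((hχ.derivWithin (m := 1) (by norm_num)).differentiableAt (by simp)).hasDerivAt
  have h1 : (fderiv ℝ fun y => χ (f y)) =ᶠ[𝓝 x] fun y => deriv χ (f y) • fderiv ℝ f y := by
    filter_upwards [f1, hf.continuousAt.eventually c1] with y h h'
    exact (h'.hasDerivAt.comp_hasFDerivAt y h.hasFDerivAt).fderiv
  have h2 := ((c2.comp_hasFDerivAt x f1.self_of_nhds.hasFDerivAt).smul f2).congr_of_eventuallyEq h1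
  rw [levi, levi, h2.fderiv, h1.self_of_nhds]
  simp [jetL]
  ring

theorem levi_congr (J : E → E →L[ℝ] E) {f g : E → ℝ} {x : E} (h : f =ᶠ[𝓝 x] g) (Y : E) :
    levi J f x Y = levi J g x Y := by
  rw [levi, levi, h.fderiv_eq, h.fderiv.fderiv_eq]

theorem H_congr (M : Model) {f g : E → ℝ} {x : E} (a : ℝ) (h : f =ᶠ[𝓝 x] fun y => g y + a) :
    H M f x = H M g x := by
  have h1 : (fderiv ℝ fun y => g y + a) = fderiv ℝ g := funext fun y => fderiv_add_const a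
  have h2 : Om M.J f x = Om M.J g x := by
    funext Y Z
    rw [Om, Om, h.fderiv_eq, h.fderiv.fderiv_eq, h1]
  rw [H, H, h2]

theorem Om_mul (J : E → E →L[ℝ] E) {f g : E → ℝ} {x : E} (hf : ContDiffAt ℝ 2 f x)
    (hg : ContDiffAt ℝ 2 g x) (Y Z : E) :
    Om J (fun y => f y * g y) x Y Z = f x * Om J g x Y Z + g x * Om J f x Y Z +
      w11 (fderiv ℝ f x) (eta J g x) Y Z + w11 (fderiv ℝ g x) (eta J f x) Y Z := by
  obtain ⟨h1, h2⟩ := algc_mul hf hg
  simp only [Om, w11, eta, h1, h2]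
  ring

theorem H_mul (M : Model) {f g : E → ℝ} {x : E} (hf : ContDiffAt ℝ 2 f x)
    (hg : ContDiffAt ℝ 2 g x) (j k : Fin 2) :
    H M (fun y => f y * g y) x j k = f x * H M g x j k + g x * H M f x j k +
      (starRingEnd ℂ) (Lb M j f x) * Lb M k g x + (starRingEnd ℂ) (Lb M j g x) * Lb M k f x := by
  simp only [H, hm, Om_mul M.J hf hg, w11, eta, M.JJ, map_neg, Lb, Lg, map_div₀, map_add, map_mul,
    conj_ofReal, conj_I, map_ofNat]
  push_cast
  ring_nf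
  rw [I_sq]
  ring

/-- The form `df ∧ d^c v - dv ∧ d^c f` has no `(1,1)` part. -/
theorem xi_facts (M : Model) (x : E) (p g : E →L[ℝ] ℝ) :
    (∀ j k, hm (fun Y Z => w11 p (fun U => -g (M.J x U)) Y Z - w11 g (fun U => -p (M.J x U)) Y Z)
      (M.J x) M.X j k = 0) ∧
    (starRingEnd ℂ) (sig (fun Y Z => w11 p (fun U => -g (M.J x U)) Y Z -
      w11 g (fun U => -p (M.J x U)) Y Z) (M.J x) M.X) =
      8 * I * (Lg M 0 x p * Lg M 1 x g - Lg M 1 x p * Lg M 0 x g) := by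
  refine ⟨fun j k => ?_, ?_⟩
  · simp only [hm, w11, M.JJ, map_neg]
    push_cast
    ring
  · simp only [sig, w11, M.JJ, map_neg, Lg, map_sub, map_mul, conj_ofReal, conj_I]
    push_cast
    ring_nf
    simp only [I_sq, I_pow_three]
    ring

/-- The square of a nonnegative psh function is psh and its trace dominates the gradient. -/
theorem sq_facts (M : Model) : ∃ C : ℝ, 0 ≤ C ∧ ∀ (c : E) (b B : ℝ) (v : E → ℝ), VOK M c b B v →
    VOK M c b (B ^ 2) (fun y => v y ^ 2) ∧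
    ∀ x ∈ ball c b, ‖fderiv ℝ v x‖ ^ 2 ≤ C * tr (H M (fun y => v y ^ 2) x) := by
  obtain ⟨C, hC, h⟩ := Lg_bound M
  refine ⟨C, hC, fun c b B v hv => ⟨⟨hv.sm.pow 2, fun x hx Y => ?_, fun x _ => sq_nonneg _,
    fun x hx => pow_le_pow_left₀ (hv.nn x hx) (hv.le x hx) 2⟩, fun x hx => ?_⟩⟩
  · have h1 : ContDiffAt ℝ 2 v x := (hv.sm.of_le (by norm_num)).contDiffAt
    obtain ⟨h2, h3⟩ := algc_mul h1 h1
    have h4 := mul_nonneg (hv.nn x hx) (hv.psh x hx Y)
    simp only [levi, jetL, sq, h2, h3] at h4 ⊢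
    nlinarith [mul_self_nonneg (fderiv ℝ v x Y), mul_self_nonneg (fderiv ℝ v x (M.J x Y))]
  · have h1 : ContDiffAt ℝ 2 v x := (hv.sm.of_le (by norm_num)).contDiffAt
    refine (h x _).2.2.1.trans (mul_le_mul_of_nonneg_left ?_ hC)
    have h2 := mul_nonneg (hv.nn x hx) (psd_H M hv.psh hx).tr_nonneg
    have h3 : ∀ j, (H M (fun y => v y ^ 2) x j j).re =
        2 * (v x * (H M v x j j).re) + 2 * ‖Lg M j x (fderiv ℝ v x)‖ ^ 2 := fun j => by
      simp only [sq]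
      rw [H_mul M h1 h1, ← sq, Complex.sq_norm, Complex.normSq_apply, Lb]
      simp
      ring
    rw [tr] at h2
    rw [tr, h3, h3]
    nlinarith [sq_nonneg ‖Lg M 0 x (fderiv ℝ v x)‖, sq_nonneg ‖Lg M 1 x (fderiv ℝ v x)‖]

/-- `‖y - c‖²` is strictly psh near `c`. -/
theorem levi_rho (M : Model) : ∃ R0 : ℝ, 0 < R0 ∧ ∀ c x : E, ‖x - c‖ ≤ R0 → ∀ Y,
    ‖Y‖ ^ 2 ≤ levi M.J (fun y => ‖y - c‖ ^ 2) x Y := by
  obtain ⟨C, hC, hb, -⟩ := M.beta_bound
  refine ⟨1 / (2 * (C + 1)), by positivity, fun c x hx Y => ?_⟩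
  have h1 : (fderiv ℝ fun y : E => ‖y - c‖ ^ 2) = fun y => (2 : ℝ) • innerSL ℝ (y - c) := by
    funext y
    refine ((hasFDerivAt_id y).sub_const c).norm_sq.fderiv.trans ?_
    ext U
    simp
  have h2 : HasFDerivAt (fun y : E => (2 : ℝ) • innerSL ℝ (y - c)) _ x :=
    (((innerSL ℝ (E := E)).hasFDerivAt.comp x ((hasFDerivAt_id x).sub_const c))).const_smul (2 : ℝ)
  rw [levi, h1, h2.fderiv]
  have h3 : |inner ℝ (x - c) (beta M.J x Y)| ≤ 1 / (2 * (C + 1)) * (C * ‖Y‖ ^ 2) :=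
    (abs_real_inner_le_norm _ _).trans (mul_le_mul hx (hb x Y) (norm_nonneg _) (by positivity))
  have h4 : 1 / (2 * (C + 1)) * (C * ‖Y‖ ^ 2) ≤ 1 / 2 * ‖Y‖ ^ 2 := by
    rw [← mul_assoc]
    refine mul_le_mul_of_nonneg_right ?_ (sq_nonneg _)
    rw [div_mul_eq_mul_div, div_le_div_iff₀ (by positivity) (by positivity)]
    linarith
  have h5 := (abs_le.1 (h3.trans h4)).1
  change _ ≤ 2 * inner ℝ Y Y + 2 * inner ℝ (M.J x Y) (M.J x Y) + 2 * inner ℝ (x - c) (beta M.J x Y)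
  rw [real_inner_self_eq_norm_sq, real_inner_self_eq_norm_sq]
  nlinarith [sq_nonneg ‖M.J x Y‖]

end Pool.Agent.Lib.MP_f2cf74_an
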