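import Pool.Agent.Lib.MP_f2cf74_an.Jet

open Set Metric MeasureTheory Complex Filter Topology
open scoped ContDiff ENNReal NNReal

noncomputable section

namespace Pool.Agent.Lib.MP_f2cf74_an

/-! Circle averages in the plane.  `trig_approx`: `span_fourier_closure_eq_top` on
`AddCircle (2 π)` (an element of the span is `P z + conj (Q z)` on the circle, with real part
`re (P + Q)`), or Stone-Weierstrass.  `subharm_avg`: `h = re g + η` is harmonic
(`AnalyticAt.harmonicAt_re`), `circleAverage (re g) = re (g 0)`.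
`circ_le`: maximise `Ψ - ψ`, `ψ ζ = re (g ζ) + η + (e/4 + η) (t² - ‖ζ‖²)`, over the closed disc;
at an interior maximum `Ψ` has the superjet of `ψ` (`peano2`), whose Laplacian is `-e - 4 η`.
`circ_exp`: the average of `q ζ` is `0`, that of `B ζ ζ / 2` is `t² (B 1 1 + B I I) / 4`. -/

theorem sub2_avg {g : ℂ → ℂ} (hg : Differentiable ℂ g) (t : ℝ) :
    Real.circleAverage (fun z => (g z).re) 0 t = (g 0).re :=
  InnerProductSpace.HarmonicOnNhd.circleAverage_eq (f := fun z => (g z).re)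
    fun z _ => (hg.analyticAt z).harmonicAt_re

theorem sub2_mul {g : ℂ → ℂ} (hg : Differentiable ℂ g) (t : ℝ) (c : ℂ) :
    ∃ g' : ℂ → ℂ, Differentiable ℂ g' ∧ ∀ z ∈ sphere (0 : ℂ) t, (c * z).re * (g z).re = (g' z).re := by
  have hd : Differentiable ℂ (dslope g 0) := by
    rw [← differentiableOn_univ, Complex.differentiableOn_dslope univ_mem]
    exact hg.differentiableOn
  refine ⟨fun z => (c * z * g z + (starRingEnd ℂ) c * (t : ℂ) ^ 2 * dslope g 0 z +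
    c * (starRingEnd ℂ) (g 0) * z) / 2, by fun_prop, fun z hz => ?_⟩
  have h1 : g z = z * dslope g 0 z + g 0 := by
    have := sub_smul_dslope g 0 z
    rw [sub_zero, smul_eq_mul] at this
    rw [this, sub_add_cancel]
  have h2 : t ^ 2 = z.re ^ 2 + z.im ^ 2 := by
    rw [← mem_sphere_zero_iff_norm.1 hz, Complex.sq_norm, normSq_apply]
    ring
  simp only
  rw [h1, ← ofReal_pow, h2]
  generalize dslope g 0 z = d
  generalize g 0 = a
  simp only [div_ofNat_re, add_re, mul_re, mul_im, add_im, conj_re, conj_im, ofReal_re, ofReal_im]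
  ring

theorem sub2_dense {ψ : ℂ → ℝ} {t : ℝ} (hψ : ContinuousOn ψ (sphere 0 t)) {η : ℝ} (hη : 0 < η) :
    ∃ g : ℂ → ℂ, Differentiable ℂ g ∧ ∀ z ∈ sphere (0 : ℂ) t, |ψ z - (g z).re| ≤ η := by
  let l : ℂ → C(sphere (0 : ℂ) t, ℝ) := fun c => ⟨fun z => (c * z).re, by fun_prop⟩
  let P : (sphere (0 : ℂ) t → ℝ) → Prop := fun f =>
    ∃ g : ℂ → ℂ, Differentiable ℂ g ∧ ∀ z, f z = (g z).re
  have key : ∀ f ∈ Algebra.adjoin ℝ (range l), ∀ m, P m → P fun z => f z * m z := by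
    intro f hf
    induction hf using Algebra.adjoin_induction with
    | mem f hf =>
      obtain ⟨c, rfl⟩ := hf
      rintro m ⟨g, hg, hm⟩
      obtain ⟨g', h1, h2⟩ := sub2_mul hg t c
      exact ⟨g', h1, fun z => by rw [← h2 z z.2, ← hm]; rfl⟩
    | algebraMap r =>
      rintro m ⟨g, hg, hm⟩
      exact ⟨fun z => r * g z, by fun_prop, fun z => by simp [hm]⟩
    | add f f' _ _ h1 h2 =>
      intro m hm
      obtain ⟨g, hg, e⟩ := h1 m hm
      obtain ⟨g', hg', e'⟩ := h2 m hm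
      refine ⟨fun z => g z + g' z, hg.add hg', fun z => ?_⟩
      rw [add_re, ← e, ← e']
      exact add_mul _ _ _
    | mul f f' _ _ h1 h2 =>
      intro m hm
      simpa only [ContinuousMap.mul_apply, mul_assoc] using h1 _ (h2 m hm)
  have hsep : (Algebra.adjoin ℝ (range l)).SeparatesPoints := by
    intro x y hxy
    by_cases h : (x : ℂ).re = (y : ℂ).re
    · refine ⟨_, ⟨l (-I), Algebra.subset_adjoin ⟨_, rfl⟩, rfl⟩, fun e => hxy ?_⟩
      refine Subtype.ext (Complex.ext h ?_)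
      simpa [l] using e
    · refine ⟨_, ⟨l 1, Algebra.subset_adjoin ⟨_, rfl⟩, rfl⟩, fun e => h ?_⟩
      simpa [l] using e
  obtain ⟨f, hf⟩ := ContinuousMap.exists_mem_subalgebra_near_continuous_of_separatesPoints _ hsep
    (fun z => ψ z) hψ.domRestrict η hη
  obtain ⟨g, hg, e⟩ := key f f.2 (fun _ => 1) ⟨fun _ => 1, differentiable_const _, fun _ => rfl⟩
  refine ⟨g, hg, fun z hz => ?_⟩
  have h1 := hf ⟨z, hz⟩
  have h2 := e ⟨z, hz⟩
  simp only [mul_one] at h2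
  rw [abs_sub_comm, ← h2]
  exact h1.le

theorem sub2_sq (a c : ℝ) (x : ℂ) : SJ (fun y : ℂ => a + c * ‖y‖ ^ 2) x ((2 * c) • innerSL ℝ x)
    ((2 * c) • (innerSL ℝ : ℂ →L[ℝ] ℂ →L[ℝ] ℝ)) := by
  refine fun ε hε => Eventually.of_forall fun y => ?_
  have h1 : ‖y‖ ^ 2 = ‖x‖ ^ 2 + 2 * inner ℝ x (y - x) + ‖y - x‖ ^ 2 := by
    rw [← norm_add_sq_real, add_sub_cancel]
  have h2 : 0 ≤ ε * ‖y - x‖ ^ 2 := by positivity
  change a + c * ‖y‖ ^ 2 ≤ a + c * ‖x‖ ^ 2 + 2 * c * inner ℝ x (y - x) +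
    2 * c * inner ℝ (y - x) (y - x) / 2 + ε * ‖y - x‖ ^ 2
  rw [real_inner_self_eq_norm_sq, h1]
  linarith

theorem trig_approx {ψ : ℂ → ℝ} {t : ℝ} (ht : 0 < t) (hψ : ContinuousOn ψ (sphere 0 t)) {η : ℝ}
    (hη : 0 < η) : ∃ g : ℂ → ℂ, Differentiable ℂ g ∧ (∀ z ∈ sphere (0 : ℂ) t, |ψ z - (g z).re| ≤ η) ∧
      (g 0).re ≤ Real.circleAverage ψ 0 t + η := by
  obtain ⟨g, hg, h⟩ := sub2_dense hψ hη
  refine ⟨g, hg, h, ?_⟩
  have h1 : CircleIntegrable ψ 0 t := hψ.circleIntegrable ht.le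
  have h2 : CircleIntegrable (fun _ : ℂ => η) 0 t := continuousOn_const.circleIntegrable'
  rw [← sub2_avg hg t, ← Real.circleAverage_const η 0 t, ← Real.circleAverage_fun_add h1 h2]
  refine Real.circleAverage_mono
    (continuous_re.comp hg.continuous).continuousOn.circleIntegrable' (h1.add h2) fun z hz => ?_
  rw [abs_of_pos ht] at hz
  have := (abs_le.1 (h z hz)).1
  linarith

theorem subharm_avg {w : ℂ → EReal} {U : Set ℂ} (hw : IsSubharm w U) {ψ : ℂ → ℝ} {t : ℝ}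
    (ht : 0 < t) (hU : closedBall 0 t ⊆ U) (hψ : ContinuousOn ψ (sphere 0 t))
    (h : ∀ z ∈ sphere (0 : ℂ) t, w z ≤ (ψ z : EReal)) :
    w 0 ≤ (Real.circleAverage ψ 0 t : ℝ) := by
  have key : ∀ η : ℝ, 0 < η → w 0 ≤ ((Real.circleAverage ψ 0 t + η : ℝ) : EReal) := by
    intro η hη
    obtain ⟨g, hg, h1, h2⟩ := trig_approx ht hψ (half_pos hη)
    have hg' : Differentiable ℂ fun z => g z + (η / 2 : ℝ) := hg.add_const _
    have h3 := hw.2.2 0 t (fun z => (g z + (η / 2 : ℝ)).re) ht hU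
      (continuous_re.comp hg'.continuous).continuousOn
      (fun z _ => (hg'.analyticAt z).harmonicAt_re) (fun z hz => (h z hz).trans ?_) 0
      (mem_ball_self ht)
    · refine h3.trans (EReal.coe_le_coe_iff.2 ?_)
      rw [add_re, ofReal_re]
      linarith
    · have := (abs_le.1 (h1 z hz)).2
      rw [EReal.coe_le_coe_iff, add_re, ofReal_re]
      linarith
  generalize w 0 = a at key
  induction a with
  | bot => exact bot_le
  | coe a =>
    exact EReal.coe_le_coe_iff.2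
      (le_of_forall_pos_le_add fun η hη => EReal.coe_le_coe_iff.1 (key η hη))
  | top => exact absurd (key 1 one_pos) (not_le.2 (EReal.coe_lt_top _))

theorem circ_le {Ψ : ℂ → ℝ} {t e : ℝ} (ht : 0 < t) (hΨ : ContinuousOn Ψ (closedBall 0 t))
    (h : ∀ ζ ∈ ball (0 : ℂ) t, ∀ q B, SJ Ψ ζ q B → -e ≤ B 1 1 + B I I) :
    Ψ 0 ≤ Real.circleAverage Ψ 0 t + e * t ^ 2 / 4 := by
  refine le_of_forall_pos_le_add fun ε hε => ?_
  obtain ⟨η, hη, rfl⟩ : ∃ η : ℝ, 0 < η ∧ ε = η * (2 + t ^ 2) :=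
    ⟨ε / (2 + t ^ 2), by positivity, by field_simp⟩
  obtain ⟨g, hg, h1, h2⟩ := trig_approx ht (hΨ.mono sphere_subset_closedBall) hη
  let ψ : ℂ → ℝ := fun ζ => (g ζ).re + (η + (e / 4 + η) * t ^ 2 + -(e / 4 + η) * ‖ζ‖ ^ 2)
  have hc : Continuous ψ := (continuous_re.comp hg.continuous).add (by fun_prop)
  obtain ⟨ζ, hζ, hm⟩ := (isCompact_closedBall (0 : ℂ) t).exists_isMaxOn
    ⟨0, mem_closedBall_self ht.le⟩ (hΨ.sub hc.continuousOn)
  rcases (mem_closedBall_zero_iff.1 hζ).lt_or_eq with h3 | h3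
  · exfalso
    have hb : ζ ∈ ball (0 : ℂ) t := mem_ball_zero_iff.2 h3
    have ha := (hg.analyticAt ζ).harmonicAt_re
    have h4 : SJ ψ ζ _ _ := (peano2 ha.1).1.add (sub2_sq _ _ ζ)
    have h5 := h ζ hb _ _ (h4.of_le (w := Ψ) (by
      filter_upwards [closedBall_mem_nhds_of_mem hb] with y hy
      have h6 : Ψ y - ψ y ≤ Ψ ζ - ψ ζ := hm hy
      linarith))
    have h6 := ha.2.eq_of_nhds
    rw [InnerProductSpace.laplacian_eq_iteratedFDeriv_complexPlane] at h6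
    simp only [iteratedFDeriv_two_apply, Matrix.cons_val_zero, Matrix.cons_val_one,
      Pi.zero_apply] at h6
    generalize fderiv ℝ (fderiv ℝ fun z => (g z).re) ζ = B at h5 h6
    change -e ≤ B 1 1 + 2 * -(e / 4 + η) * inner ℝ (1 : ℂ) 1 +
      (B I I + 2 * -(e / 4 + η) * inner ℝ I I) at h5
    rw [real_inner_self_eq_norm_sq, real_inner_self_eq_norm_sq, norm_one, norm_I] at h5
    linarith
  · have h4 : Ψ 0 - ψ 0 ≤ Ψ ζ - ψ ζ := hm (mem_closedBall_self ht.le)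
    have h5 := (abs_le.1 (h1 ζ (mem_sphere_zero_iff_norm.2 h3))).2
    simp only [ψ, h3, norm_zero] at h4
    nlinarith

theorem circ_exp {Ψ : ℂ → ℝ} (hΨ : Continuous Ψ) {q : ℂ →L[ℝ] ℝ} {B : ℂ →L[ℝ] ℂ →L[ℝ] ℝ}
    (h : SJ Ψ 0 q B) {η : ℝ} (hη : 0 < η) : ∀ᶠ t in 𝓝[>] (0 : ℝ),
    Real.circleAverage Ψ 0 t ≤ Ψ 0 + t ^ 2 * (B 1 1 + B I I) / 4 + η * t ^ 2 := by
  obtain ⟨δ, hδ, h1⟩ := Metric.eventually_nhds_iff.1 (h η hη)
  filter_upwards [Ioo_mem_nhdsGT hδ] with t ht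
  let g : ℂ → ℂ := fun z => ((Ψ 0 + t ^ 2 * (B 1 1 + B I I) / 4 + η * t ^ 2 : ℝ) : ℂ) +
    (((q 1 : ℝ) : ℂ) - I * (q I : ℝ)) * z +
    (((B 1 1 - B I I) / 4 : ℝ) - I * ((B 1 I + B I 1) / 4 : ℝ)) * (z * z)
  have hg : Differentiable ℂ g := by fun_prop
  have h0 : (g 0).re = Ψ 0 + t ^ 2 * (B 1 1 + B I I) / 4 + η * t ^ 2 := by
    simp only [g, mul_zero, add_zero, ofReal_re]
  rw [← h0, ← sub2_avg hg t]
  refine Real.circleAverage_mono hΨ.continuousOn.circleIntegrable'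
    (continuous_re.comp hg.continuous).continuousOn.circleIntegrable' fun z hz => ?_
  rw [abs_of_pos ht.1, mem_sphere_zero_iff_norm] at hz
  have h2 := h1 (y := z) (by rw [dist_zero_right, hz]; exact ht.2)
  have h3 : t ^ 2 = z.re ^ 2 + z.im ^ 2 := by
    rw [← hz, Complex.sq_norm, normSq_apply]
    ring
  have h4 : z = z.re • (1 : ℂ) + z.im • I := by
    apply Complex.ext <;> simp
  have h5 : ∀ L : ℂ →L[ℝ] ℝ, L z = z.re * L 1 + z.im * L I := fun L => by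
    conv_lhs => rw [h4, map_add, map_smul, map_smul]
    rfl
  have h6 : B z = z.re • B 1 + z.im • B I := by
    conv_lhs => rw [h4, map_add, map_smul, map_smul]
  rw [sub_zero, hz, h5 q, h5 (B z), h6] at h2
  simp only [add_apply, smul_apply, smul_eq_mul] at h2
  refine h2.trans_eq ?_
  simp only [g, add_re, mul_re, mul_im, sub_re, sub_im, ofReal_re, ofReal_im, I_re, I_im]
  rw [h3]
  ring

end Pool.Agent.Lib.MP_f2cf74_an
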