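import Pool.Agent.Lib.MP_f2cf74_an.ScV
import Pool.Agent.Lib.MP_f2cf74_an.Sub2

open Set Metric MeasureTheory Complex Filter Topology
open scoped ContDiff ENNReal NNReal

noncomputable section

namespace Pool.Agent.Lib.MP_f2cf74_an

/-! Mollification.  `U = φ.normed volume ⋆ supc W δ` for a `ContDiffBump 0` with small `rOut = ε`
(`HasCompactSupport.contDiff_convolution_left`, `ContDiffBump.dist_normed_convolution_le`,
uniform continuity on a compact set).  Fix `x`, `Y ≠ 0`, `γ = gam x Y (J x Y) (beta x Y)`.  For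
`‖h‖ ≤ ε` and small `t`, `Ψ h ζ = supc W δ (γ ζ - h)` satisfies the hypothesis of `circ_le` with
`e = (C m + C ε² / δ) ‖Y‖² + o(1)` as `t → 0` (`gam_shift`, `SJ.shift`, `supc_curve` with `X = Y`,
`lipJ`, `beta_bound`).  Integrate against `φ.normed h` (Fubini for the circle average), then
`peano2`, `sj_gam`, `circ_exp`. -/

theorem moll_jet (M : Model) {Cb : ℝ} (hCb : 0 ≤ Cb)
    (hb : ∀ x y Y, ‖beta M.J x Y - beta M.J y Y‖ ≤ Cb * ‖x - y‖ * ‖Y‖ ^ 2) {c : E}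
    {R R5 B δ m σ t : ℝ} {W : E → ℝ} (hW : WOK M c R5 B W) (hR : R < R5) (hδ : 0 < δ)
    (hs : 4 * B * δ < (R5 - R) ^ 2)
    (hm : ∀ x ∈ ball c R, supc W (closedBall c R5) (2 * δ) x - supc W (closedBall c R5) δ x ≤ m)
    {x Y h : E} (hY : Y ≠ 0) {ζ : ℂ} (hζ : ‖ζ‖ ≤ t)
    (h1 : gam x Y (M.J x Y) (beta M.J x Y) ζ - h ∈ ball c R)
    (h2 : ‖x - (gam x Y (M.J x Y) (beta M.J x Y) ζ - h)‖ ≤ σ) {q : ℂ →L[ℝ] ℝ}
    {A : ℂ →L[ℝ] ℂ →L[ℝ] ℝ}
    (hJ : SJ (fun ξ => supc W (closedBall c R5) δ (gam x Y (M.J x Y) (beta M.J x Y) ξ - h)) ζ q A) :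
    -(((4 * M.K ^ 2 + 2 * Cb) * (σ ^ 2 + 4 * δ * m) * ‖Y‖ ^ 2 + t ^ 2 * ‖beta M.J x Y‖ ^ 2) / δ) ≤
      A 1 1 + A I I := by
  rw [SJ.shift] at hJ
  have e1 : ∀ ξ, gam x Y (M.J x Y) (beta M.J x Y) (ζ + ξ) - h =
      gam (gam x Y (M.J x Y) (beta M.J x Y) ζ - h) (Y + (ζ.re / 2) • beta M.J x Y)
        (M.J x Y + (ζ.im / 2) • beta M.J x Y) (beta M.J x Y) ξ := fun ξ => by
    rw [gam_shift]
    simp only [gam]
    abel
  simp only [e1] at hJ
  obtain ⟨y, hy, h3⟩ := supc_curve M hW hR hδ hs h1 (hm _ h1) hY hJ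
  generalize gam x Y (M.J x Y) (beta M.J x Y) ζ - h = x' at *
  have h4 : ‖x - y‖ ≤ σ + ‖x' - y‖ := by
    rw [← sub_add_sub_cancel x x' y]
    exact (norm_add_le _ _).trans (add_le_add h2 le_rfl)
  have h5 : ∀ s : ℝ, |s| ≤ ‖ζ‖ → ‖(s / 2) • beta M.J x Y‖ ≤ t / 2 * ‖beta M.J x Y‖ := fun s h => by
    rw [norm_smul, Real.norm_eq_abs, abs_div, abs_two]
    exact mul_le_mul_of_nonneg_right (by linarith) (norm_nonneg _)
  have h6 : ‖M.J x Y - M.J y Y‖ ≤ M.K * (σ + ‖x' - y‖) * ‖Y‖ :=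
    ((M.J x - M.J y).le_opNorm Y).trans (mul_le_mul_of_nonneg_right ((M.lipJ x y).trans
      (mul_le_mul_of_nonneg_left h4 M.K_pos.le)) (norm_nonneg _))
  have h7 : ‖M.J x Y + (ζ.im / 2) • beta M.J x Y - M.J y Y‖ ≤
      M.K * (σ + ‖x' - y‖) * ‖Y‖ + t / 2 * ‖beta M.J x Y‖ := by
    rw [add_sub_right_comm]
    exact (norm_add_le _ _).trans (add_le_add h6 (h5 _ (abs_im_le_norm ζ)))
  have h8 : inner ℝ (x' - y) (beta M.J x Y - beta M.J y Y) ≤
      ‖x' - y‖ * (Cb * (σ + ‖x' - y‖) * ‖Y‖ ^ 2) :=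
    (real_inner_le_norm _ _).trans (mul_le_mul_of_nonneg_left ((hb x y Y).trans
      (mul_le_mul_of_nonneg_right (mul_le_mul_of_nonneg_left h4 hCb) (sq_nonneg _)))
      (norm_nonneg _))
  have h9 := pow_le_pow_left₀ (norm_nonneg _) (h5 _ (abs_re_le_norm ζ)) 2
  have h10 := pow_le_pow_left₀ (norm_nonneg _) h7 2
  rw [add_sub_cancel_left] at h3
  rw [neg_le_iff_add_nonneg]
  refine h3.trans (add_le_add le_rfl (div_le_div_of_nonneg_right ?_ hδ.le))
  generalize ‖x' - y‖ = D at *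
  generalize ‖beta M.J x Y‖ = b at *
  generalize ‖Y‖ = n at *
  have k1 : (M.K * (σ + D) * n + t / 2 * b) ^ 2 ≤
      4 * M.K ^ 2 * (σ ^ 2 + D ^ 2) * n ^ 2 + t ^ 2 * b ^ 2 / 2 := by
    linarith [sq_nonneg (M.K * (σ + D) * n - t / 2 * b), sq_nonneg (M.K * (σ - D) * n)]
  have k2 : D * (Cb * (σ + D) * n ^ 2) ≤ 2 * Cb * (σ ^ 2 + D ^ 2) * n ^ 2 := by
    have := mul_nonneg (mul_nonneg hCb (sq_nonneg n))
      (add_nonneg (sq_nonneg (D - σ / 2)) (sq_nonneg σ))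
    have := mul_nonneg (mul_nonneg hCb (sq_nonneg n)) (sq_nonneg σ)
    linarith
  have k3 : (4 * M.K ^ 2 + 2 * Cb) * (σ ^ 2 + D ^ 2) * n ^ 2 ≤
      (4 * M.K ^ 2 + 2 * Cb) * (σ ^ 2 + 4 * δ * m) * n ^ 2 := by gcongr
  linarith [sq_nonneg (t * b)]

theorem moll_avg (φ : ContDiffBump (0 : E)) {w : E → ℝ} (hw : Continuous w) {γ : ℂ → E}
    (hγ : Continuous γ) {t e : ℝ}
    (h : ∀ h ∈ ball (0 : E) φ.rOut, w (γ 0 - h) ≤ Real.circleAverage (fun ζ => w (γ ζ - h)) 0 t + e) :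
    ∫ h, φ.normed volume h • w (γ 0 - h) ≤
      Real.circleAverage (fun ζ => ∫ h, φ.normed volume h • w (γ ζ - h)) 0 t + e := by
  have h0 : ∀ h, h ∉ ball (0 : E) φ.rOut → φ.normed volume h = 0 := fun h hh => by
    rwa [← φ.support_normed_eq (μ := volume), Function.notMem_support] at hh
  have h1 : Integrable (Function.uncurry fun (θ : ℝ) (h : E) =>
      φ.normed volume h • w (γ (circleMap 0 t θ) - h))
      ((volume.restrict (uIoc 0 (2 * Real.pi))).prod volume) := by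
    rw [Measure.restrict_prod_eq_prod_univ]
    refine IntegrableOn.of_forall_sdiff_eq_zero (s := uIoc 0 (2 * Real.pi) ×ˢ ball 0 φ.rOut)
      (IntegrableOn.mono_set (ContinuousOn.integrableOn_compact
        (isCompact_uIcc.prod (isCompact_closedBall (0 : E) φ.rOut)) (Continuous.continuousOn ?_))
        (prod_mono uIoc_subset_uIcc ball_subset_closedBall))
      (measurableSet_uIoc.prod MeasurableSet.univ) fun p hp => ?_
    · exact (φ.continuous_normed.comp continuous_snd).smul (hw.comp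
        ((hγ.comp ((continuous_circleMap 0 t).comp continuous_fst)).sub continuous_snd))
    · change φ.normed volume p.2 • _ = (0 : ℝ)
      rw [h0 _ fun h => hp.2 ⟨hp.1.1, h⟩, zero_smul]
  have h2 : ∀ h, φ.normed volume h • Real.circleAverage (fun ζ => w (γ ζ - h)) 0 t =
      (2 * Real.pi)⁻¹ • ∫ θ in (0 : ℝ)..2 * Real.pi,
        φ.normed volume h • w (γ (circleMap 0 t θ) - h) := fun h => by
    rw [intervalIntegral.integral_smul, Real.circleAverage, smul_comm]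
  have h3 : Integrable fun h =>
      φ.normed volume h • Real.circleAverage (fun ζ => w (γ ζ - h)) 0 t := by
    simp only [h2, intervalIntegral.integral_of_le Real.two_pi_pos.le]
    rw [uIoc_of_le Real.two_pi_pos.le] at h1
    exact h1.integral_prod_right.smul (2 * Real.pi)⁻¹
  have h4 : Integrable fun h => φ.normed volume h • e := φ.integrable_normed.smul_const e
  rw [Real.circleAverage, intervalIntegral_integral_swap h1, ← integral_smul, ← funext h2,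
    ← φ.integral_normed_smul volume e, ← integral_add h3 h4]
  refine integral_mono ((φ.continuous_normed.smul (hw.comp (continuous_const.sub
    continuous_id))).integrable_of_hasCompactSupport φ.hasCompactSupport_normed.smul_right)
    (h3.add h4) fun y => ?_
  by_cases hy : y ∈ ball (0 : E) φ.rOut
  · simp only [← smul_add]
    exact smul_le_smul_of_nonneg_left (h y hy) (φ.nonneg_normed y)
  · simp [h0 y hy]

theorem moll (M : Model) : ∃ C : ℝ, 0 ≤ C ∧ ∀ (c : E) (R2 R R5 B δ m η : ℝ) (W : E → ℝ),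
    WOK M c R5 B W → 0 < R2 → R2 < R → R < R5 → 0 < δ → 4 * B * δ < (R5 - R) ^ 2 → 0 ≤ m →
    (∀ x ∈ ball c R, supc W (closedBall c R5) (2 * δ) x - supc W (closedBall c R5) δ x ≤ m) →
    0 < η → ∃ U : E → ℝ, ContDiff ℝ ∞ U ∧ ∀ x ∈ ball c R2,
      |U x - supc W (closedBall c R5) δ x| ≤ η ∧
      ∀ Y, -((C * m + η) * ‖Y‖ ^ 2) ≤ levi M.J U x Y := by
  obtain ⟨Cb, hCb, -, hb⟩ := M.beta_bound
  have hC : 0 ≤ 4 * M.K ^ 2 + 2 * Cb := by positivity
  refine ⟨4 * (4 * M.K ^ 2 + 2 * Cb), by positivity,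
    fun c R2 R R5 B δ m η W hW h2 hR2 hR hδ hs hm0 hm hη => ?_⟩
  have hw : Continuous (supc W (closedBall c R5) δ) := continuous_supc (isCompact_closedBall c R5)
    (nonempty_closedBall.2 (by linarith)) hW.bd hδ
  obtain ⟨ε₁, hε₁, hu⟩ := Metric.uniformContinuousOn_iff_le.1
    ((isCompact_closedBall c R).uniformContinuousOn_of_continuous hw.continuousOn) η hη
  obtain ⟨ε, hε, e1, e2, e3⟩ : ∃ ε > 0, ε ≤ ε₁ ∧ 2 * ε ≤ R - R2 ∧
      (4 * M.K ^ 2 + 2 * Cb) * (2 * ε) ^ 2 ≤ η / 2 * δ := by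
    have k1 : ∀ᶠ ε in 𝓝 (0 : ℝ), (4 * M.K ^ 2 + 2 * Cb) * (2 * ε) ^ 2 ≤ η / 2 * δ :=
      Tendsto.eventually_le_const (v := 0) (by positivity)
        (Continuous.tendsto' (by fun_prop) 0 0 (by simp))
    have k2 : ∀ᶠ ε in 𝓝 (0 : ℝ), ε ≤ min ε₁ ((R - R2) / 2) :=
      eventually_le_nhds (lt_min hε₁ (by linarith))
    obtain ⟨ε, h1, h3⟩ := (((k1.and k2).filter_mono nhdsWithin_le_nhds).and
      (self_mem_nhdsWithin (s := Ioi (0 : ℝ)))).exists
    exact ⟨ε, h3, (le_min_iff.1 h1.2).1, by linarith [(le_min_iff.1 h1.2).2], h1.1⟩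
  let φ : ContDiffBump (0 : E) := ⟨ε / 2, ε, half_pos hε, half_lt_self hε⟩
  have hU := φ.hasCompactSupport_normed.contDiff_convolution_left (ContinuousLinearMap.lsmul ℝ ℝ)
    (φ.contDiff_normed (μ := volume) (n := ⊤)) (hw.locallyIntegrable (μ := volume))
  refine ⟨_, hU, fun x hx => ⟨φ.dist_normed_convolution_le hw.aestronglyMeasurable fun y hy =>
    hu y ?_ x ?_ ((mem_ball.1 hy).le.trans e1), fun Y => ?_⟩⟩
  · have k1 : dist y x < ε := hy
    exact mem_closedBall.2 (by linarith [dist_triangle y x c, mem_ball.1 hx])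
  · exact mem_closedBall.2 (by linarith [mem_ball.1 hx])
  rcases eq_or_ne Y 0 with rfl | hY
  · simp [levi, jetL, beta]
  obtain ⟨q, A, hq, hA⟩ := sj_gam (peano2 (hU.contDiffAt.of_le (by norm_cast))).1 Y (M.J x Y)
    (beta M.J x Y)
  have hγ := continuous_gam x Y (M.J x Y) (beta M.J x Y)
  have g0 : gam x Y (M.J x Y) (beta M.J x Y) 0 = x := by simp [gam]
  refine le_of_forall_pos_le_add fun κ hκ => ?_
  obtain ⟨t₀, ht₀, k0⟩ := Metric.continuousAt_iff.1 (hγ.continuousAt (x := 0)) ε hε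
  have k1 : ∀ᶠ t in 𝓝 (0 : ℝ), t ^ 2 * ‖beta M.J x Y‖ ^ 2 ≤ η / 2 * δ * ‖Y‖ ^ 2 :=
    Tendsto.eventually_le_const (v := 0) (by positivity)
      (Continuous.tendsto' (by fun_prop) 0 0 (by simp))
  obtain ⟨t, ⟨⟨k2, k3⟩, k4⟩, ht⟩ := ((((k1.and (eventually_le_nhds ht₀)).filter_mono
    nhdsWithin_le_nhds).and (circ_exp (hU.continuous.comp hγ) hq (η := κ / 4)
      (by positivity))).and (self_mem_nhdsWithin (s := Ioi (0 : ℝ)))).exists
  have k5 := moll_avg φ hw hγ (t := t)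
    (e := (4 * (4 * M.K ^ 2 + 2 * Cb) * m + η) * ‖Y‖ ^ 2 * t ^ 2 / 4) fun h hh => by
      refine circ_le (Ψ := fun ζ => supc W (closedBall c R5) δ (gam x Y (M.J x Y) _ ζ - h)) ht
        (hw.comp (hγ.sub continuous_const)).continuousOn fun ζ hζ q' A' hJ => ?_
      have l1 := k0 ((mem_ball.1 hζ).trans_le k3)
      rw [g0, dist_eq_norm'] at l1
      have l2 : ‖x - (gam x Y (M.J x Y) (beta M.J x Y) ζ - h)‖ ≤ 2 * ε := by
        have l3 : ‖h‖ < ε := mem_ball_zero_iff.1 hh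
        rw [sub_sub_eq_add_sub, add_sub_right_comm]
        linarith [norm_add_le (x - gam x Y (M.J x Y) (beta M.J x Y) ζ) h]
      refine le_trans (neg_le_neg ?_) (moll_jet M hCb hb hW hR hδ hs hm hY
        (mem_ball_zero_iff.1 hζ).le (mem_ball.2 ?_) l2 hJ)
      · rw [div_le_iff₀ hδ]
        linarith [mul_le_mul_of_nonneg_right e3 (sq_nonneg ‖Y‖)]
      · rw [← dist_eq_norm'] at l2
        linarith [dist_triangle (gam x Y (M.J x Y) (beta M.J x Y) ζ - h) x c, mem_ball.1 hx]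
  have k6 := k5.trans (add_le_add k4 le_rfl)
  have k7 : 0 ≤ t ^ 2 * ((A 1 1 + A I I) + κ + (4 * (4 * M.K ^ 2 + 2 * Cb) * m + η) * ‖Y‖ ^ 2) := by
    have k8 : ∀ a b : ℝ, a ≤ a + b → 0 ≤ b := fun a b h => by linarith
    rw [add_assoc, add_assoc] at k6
    linarith [k8 _ _ k6]
  have k9 := nonneg_of_mul_nonneg_right k7 (pow_pos ht 2)
  rw [hA] at k9
  unfold levi jetL
  linarith

end Pool.Agent.Lib.MP_f2cf74_an
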