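import Pool.Agent.Lib.MP_f2cf74_an.Env
import Pool.Agent.Lib.MP_f2cf74_an.Moll

open Set Metric MeasureTheory Complex Filter Topology
open scoped ContDiff ENNReal NNReal

noncomputable section

namespace Pool.Agent.Lib.MP_f2cf74_an

/-! Smooth psh approximation from above.  Radii `R₂ < R₂' < R₃ < R₄ < R < R₅ < R₆`.
`g = A (‖x - c‖² - R₂'²) - B` with `g ≥ B` for `R₃ ≤ ‖x - c‖`; `w' = max w g` on `closedBall c R₅`
equals `w` on `ball c R₂'` and `g` for `R₃ ≤ ‖x - c‖`.  Obstacles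
`f i = θ supc w' (1 / (i + 1 + i₀)) + (1 - θ) g` with a bump `θ` (`1` on `ball c R₃`, `0` off
`ball c R₄`); on `ball c R₂` they are `≤ S` (maximisers lie in `ball c R₂'`) and tend to `w`.
`approx1`: `env`, `moll`, then `U + e ‖x - c‖² + η` (`levi_rho`, `levi_add`). -/

theorem approx_rho (c : E) : ContDiff ℝ ∞ fun y : E => ‖y - c‖ ^ 2 :=
  (contDiff_id.sub contDiff_const).norm_sq ℝ

theorem approx_two {f : E → ℝ} (h : ContDiff ℝ ∞ f) (x : E) : ContDiffAt ℝ 2 f x :=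
  (contDiff_infty.1 h 2).contDiffAt

theorem approx_le_supc {W : E → ℝ} {S : Set E} {B δ : ℝ} (hB : ∀ y ∈ S, |W y| ≤ B) (hδ : 0 < δ)
    {x : E} (hx : x ∈ S) : W x ≤ supc W S δ x := by
  simpa using supc_ge hB hδ x hx

theorem approx1 (M : Model) : ∃ R1 : ℝ, 0 < R1 ∧ ∀ (c : E) (R2 R4 R R5 B η : ℝ) (w f : E → ℝ),
    0 < R2 → R2 < R4 → R4 < R → R < R5 → R ≤ R1 → WOK M c R5 B w →
    ContinuousOn f (closedBall c R5) → (∀ x ∈ closedBall c R5, w x ≤ f x ∧ |f x| ≤ B) →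
    (∀ x, R4 ≤ ‖x - c‖ → ‖x - c‖ ≤ R5 → w x = f x) → 0 < η →
    ∃ U : E → ℝ, ContDiff ℝ ∞ U ∧ Psh M.J U (ball c R2) ∧
      ∀ x ∈ ball c R2, w x ≤ U x ∧ U x ≤ f x + η := by
  obtain ⟨R1, hR1, he⟩ := env M
  obtain ⟨R0, hR0, hρ⟩ := levi_rho M
  obtain ⟨C, hC, hm⟩ := moll M
  refine ⟨min R1 R0, lt_min hR1 hR0,
    fun c R2 R4 R R5 B η w f h2 h4 hR h5 hle hw hf hwf hwe hη => ?_⟩
  obtain ⟨W, hW, hW1, hW2⟩ := he c R4 R R5 B w f (h2.trans h4) hR h5 (hle.trans (min_le_left _ _))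
    hw hf hwf hwe
  have hB : 0 ≤ B := (abs_nonneg _).trans (hw.bd c (mem_closedBall_self (by linarith)))
  obtain ⟨ε, hε, hε'⟩ : ∃ ε : ℝ, 0 < ε ∧ ε * (3 + (C + 1) * R2 ^ 2) = η :=
    ⟨η / (3 + (C + 1) * R2 ^ 2), by positivity, div_mul_cancel₀ _ (by positivity)⟩
  obtain ⟨δ0, hδ0, hδ⟩ := hW2 ε hε
  have hd : 0 < (R5 - R) ^ 2 := by
    have := sub_pos.2 h5
    positivity
  obtain ⟨δ, hδ1, hδ2, hδ3⟩ : ∃ δ : ℝ, 0 < δ ∧ 2 * δ ≤ δ0 ∧ 4 * B * δ < (R5 - R) ^ 2 := by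
    refine ⟨min (δ0 / 2) ((R5 - R) ^ 2 / (4 * B + 4)), by positivity,
      by linarith [min_le_left (δ0 / 2) ((R5 - R) ^ 2 / (4 * B + 4))], ?_⟩
    refine lt_of_le_of_lt (mul_le_mul_of_nonneg_left (min_le_right _ _) (by positivity)) ?_
    rw [← mul_div_assoc, div_lt_iff₀ (by positivity)]
    nlinarith
  have hsub : ball c R ⊆ closedBall c R5 :=
    ball_subset_closedBall.trans (closedBall_subset_closedBall h5.le)
  obtain ⟨U, hU, hU'⟩ := hm c R2 R R5 B δ ε ε W hW h2 (h4.trans hR) h5 hδ1 hδ3 hε.le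
    (fun x hx => by
      have h1 := hδ (2 * δ) (by positivity) hδ2 x hx
      have h3 := approx_le_supc hW.bd hδ1 (hsub hx)
      linarith) hε
  have hsm : ContDiff ℝ ∞ fun y : E => (C * ε + ε) * ‖y - c‖ ^ 2 :=
    contDiff_const.mul (approx_rho c)
  refine ⟨fun y => U y + (C * ε + ε) * ‖y - c‖ ^ 2 + ε, (hU.add hsm).add contDiff_const,
    fun x hx Y => ?_, fun x hx => ?_⟩
  · have hx' : ‖x - c‖ ≤ R0 := by
      rw [mem_ball, dist_eq_norm] at hx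
      linarith [min_le_right R1 R0]
    rw [levi_add_const M.J fun y => U y + (C * ε + ε) * ‖y - c‖ ^ 2,
      levi_add _ (approx_two hU x) (approx_two hsm x),
      levi_const_mul _ (approx_two (approx_rho c) x)]
    have h1 := (hU' x hx).2 Y
    have h3 := mul_le_mul_of_nonneg_left (hρ c x hx' Y) (show 0 ≤ C * ε + ε by positivity)
    linarith
  · have hxR : x ∈ ball c R := ball_subset_ball (h4.trans hR).le hx
    have h1 := abs_le.1 (hU' x hx).1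
    have h3 := approx_le_supc hW.bd hδ1 (hsub hxR)
    have h6 := hδ δ hδ1 (by linarith) x hxR
    have h7 := hW1 x (hsub hxR)
    have h8 : ‖x - c‖ ^ 2 ≤ R2 ^ 2 := by
      rw [mem_ball, dist_eq_norm] at hx
      exact pow_le_pow_left₀ (norm_nonneg _) hx.le 2
    have h9 := mul_le_mul_of_nonneg_left h8 (show 0 ≤ C * ε + ε by positivity)
    have h10 : 0 ≤ (C * ε + ε) * ‖x - c‖ ^ 2 := by positivity
    constructor
    · linarith [h1.1, h7.1]
    · linarith [h1.2, h7.2]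

theorem approx_barrier (M : Model) {R0 : ℝ} (hρ : ∀ c x : E, ‖x - c‖ ≤ R0 → ∀ Y,
    ‖Y‖ ^ 2 ≤ levi M.J (fun y => ‖y - c‖ ^ 2) x Y) (c : E) {a b R B : ℝ} (ha : 0 < a)
    (hab : a < b) (hR : a ≤ R) (hB : 0 ≤ B) : ∃ (g : E → ℝ) (B' : ℝ), Continuous g ∧ B ≤ B' ∧
      (∀ x, ‖x - c‖ ≤ R0 → Visc M.J g x 0) ∧ (∀ x, ‖x - c‖ ≤ R → |g x| ≤ B') ∧
      (∀ x, ‖x - c‖ ≤ a → g x ≤ -B) ∧ ∀ x, b ≤ ‖x - c‖ → B ≤ g x := by
  have h1 : 0 < b ^ 2 - a ^ 2 := by nlinarith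
  obtain ⟨A, hA, hA'⟩ : ∃ A : ℝ, 0 ≤ A ∧ A * (b ^ 2 - a ^ 2) = 2 * B :=
    ⟨2 * B / (b ^ 2 - a ^ 2), by positivity, div_mul_cancel₀ _ h1.ne'⟩
  have hsm : ContDiff ℝ ∞ fun y : E => A * ‖y - c‖ ^ 2 := contDiff_const.mul (approx_rho c)
  refine ⟨fun y => A * ‖y - c‖ ^ 2 + (-(A * a ^ 2) - B), A * R ^ 2 + B,
    hsm.continuous.add continuous_const, le_add_of_nonneg_left (by positivity),
    fun x hx => ?_, fun x hx => ?_, fun x hx => ?_, fun x hx => ?_⟩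
  · refine (visc_of_levi (approx_two hsm x) fun Y => ?_).add_const _
    rw [levi_const_mul _ (approx_two (approx_rho c) x), zero_mul, neg_zero]
    exact mul_nonneg hA ((sq_nonneg _).trans (hρ c x hx Y))
  · have h2 := mul_le_mul_of_nonneg_left (pow_le_pow_left₀ (norm_nonneg _) hx 2) hA
    have h3 := mul_le_mul_of_nonneg_left (pow_le_pow_left₀ ha.le hR 2) hA
    have h4 : 0 ≤ A * ‖x - c‖ ^ 2 := by positivity
    have h5 : 0 ≤ A * a ^ 2 := by positivity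
    rw [abs_le]
    constructor <;> linarith
  · have h2 := mul_le_mul_of_nonneg_left (pow_le_pow_left₀ (norm_nonneg _) hx 2) hA
    linarith
  · have h2 := mul_le_mul_of_nonneg_left (pow_le_pow_left₀ (ha.trans hab).le hx 2) hA
    linarith

theorem approx (M : Model) : ∃ R1 : ℝ, 0 < R1 ∧ ∀ (c : E) (R2 R6 B S : ℝ) (w : E → ℝ), 0 < R2 →
    R2 < R6 → R6 ≤ R1 → UpperSemicontinuousOn w (ball c R6) →
    (∀ x ∈ ball c R6, |w x| ≤ B ∧ w x ≤ S ∧ Visc M.J w x 0) →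
    ∃ U : ℕ → E → ℝ, (∀ i, ContDiff ℝ ∞ (U i) ∧ Psh M.J (U i) (ball c R2)) ∧
      ∀ x ∈ ball c R2, (∀ i, w x ≤ U i x ∧ U i x ≤ S + 1) ∧
        Tendsto (fun i => U i x) atTop (𝓝 (w x)) := by
  obtain ⟨R1, hR1, h1⟩ := approx1 M
  obtain ⟨R0, hR0, hρ⟩ := levi_rho M
  refine ⟨min R1 R0, lt_min hR1 hR0, fun c R2 R6 B S w h2 h6 hle husc hw => ?_⟩
  obtain ⟨d, hd, rfl⟩ : ∃ d : ℝ, 0 < d ∧ R6 = R2 + 6 * d := ⟨(R6 - R2) / 6, by linarith, by ring⟩
  have hB : 0 ≤ B := (abs_nonneg _).trans (hw c (mem_ball_self (by linarith))).1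
  obtain ⟨g, B', hg, hBB, hgv, hgb, hg1, hg2⟩ := approx_barrier M hρ c (a := R2 + d)
    (b := R2 + 2 * d) (R := R2 + 5 * d) (by linarith) (by linarith) (by linarith) hB
  have hsub : closedBall c (R2 + 5 * d) ⊆ ball c (R2 + 6 * d) :=
    closedBall_subset_ball (by linarith)
  have hmem : ∀ {x : E} {r : ℝ}, x ∈ closedBall c r ↔ ‖x - c‖ ≤ r := mem_closedBall_iff_norm
  set w' : E → ℝ := fun y => max (w y) (g y) with hw'
  have hW : WOK M c (R2 + 5 * d) B' w' := by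
    refine ⟨(husc.mono hsub).sup hg.continuousOn.upperSemicontinuousOn, fun x hx => ?_,
      fun x hx => ?_⟩
    · exact abs_max_le_max_abs_abs.trans (max_le ((hw x (hsub hx)).1.trans hBB) (hgb x (hmem.1 hx)))
    · refine (hw x (hsub (ball_subset_closedBall hx))).2.2.max (hgv x ?_)
      linarith [hmem.1 (ball_subset_closedBall hx), min_le_right R1 R0]
  have hin : ∀ x, ‖x - c‖ ≤ R2 + d → w' x = w x := fun x hx =>
    max_eq_left ((hg1 x hx).trans (abs_le.1 (hw x (hsub (hmem.2 (by linarith)))).1).1)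
  have hout : ∀ x, R2 + 2 * d ≤ ‖x - c‖ → ‖x - c‖ ≤ R2 + 5 * d → w' x = g x := fun x hx hx' =>
    max_eq_right ((abs_le.1 (hw x (hsub (hmem.2 hx'))).1).2.trans (hg2 x hx))
  let θ : ContDiffBump c := ⟨R2 + 2 * d, R2 + 3 * d, by linarith, by linarith⟩
  have hθ1 : ∀ x, ‖x - c‖ ≤ R2 + 2 * d → θ x = 1 := fun x hx =>
    θ.one_of_mem_closedBall (hmem.2 hx)
  have hθ0 : ∀ x, R2 + 3 * d ≤ ‖x - c‖ → θ x = 0 := fun x hx =>
    θ.zero_of_le_dist (by rw [dist_eq_norm]; exact hx)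
  have hne : (closedBall c (R2 + 5 * d)).Nonempty := nonempty_closedBall.2 (by linarith)
  have hcp : IsCompact (closedBall c (R2 + 5 * d)) := isCompact_closedBall _ _
  obtain ⟨i₀, hi₀⟩ := exists_nat_ge (4 * B' / d ^ 2)
  have hδ : ∀ i : ℕ, (0 : ℝ) < 1 / (((i + i₀ : ℕ) : ℝ) + 1) := fun i => by positivity
  have key : ∀ i : ℕ, ∃ U : E → ℝ, ContDiff ℝ ∞ U ∧ Psh M.J U (ball c R2) ∧
      ∀ x ∈ ball c R2, w x ≤ U x ∧ U x ≤
        supc w' (closedBall c (R2 + 5 * d)) (1 / (((i + i₀ : ℕ) : ℝ) + 1)) x + 1 / ((i : ℝ) + 1) := by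
    intro i
    set s := supc w' (closedBall c (R2 + 5 * d)) (1 / (((i + i₀ : ℕ) : ℝ) + 1)) with hs
    have hsc : Continuous s := continuous_supc hcp hne hW.bd (hδ i)
    obtain ⟨U, hU1, hU2, hU3⟩ := h1 c R2 (R2 + 3 * d) (R2 + 4 * d) (R2 + 5 * d) B'
      (1 / ((i : ℝ) + 1)) w' (fun y => θ y * s y + (1 - θ y) * g y) h2 (by linarith) (by linarith)
      (by linarith) (by linarith [min_le_left R1 R0]) hW
      ((θ.continuous.mul hsc).add ((continuous_const.sub θ.continuous).mul hg)).continuousOn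
      (fun x hx => by
        have e1 : w' x ≤ s x := approx_le_supc hW.bd (hδ i) hx
        have e2 : s x ≤ B' := supc_le hne hW.bd (hδ i) x
        have e3 := abs_le.1 (hW.bd x hx)
        have e4 := abs_le.1 (hgb x (hmem.1 hx))
        have e5 : 0 ≤ θ x := θ.nonneg
        have e6 : 0 ≤ 1 - θ x := sub_nonneg.2 θ.le_one
        refine ⟨?_, abs_le.2 ⟨?_, ?_⟩⟩
        · rcases le_total ‖x - c‖ (R2 + 2 * d) with h | h
          · rw [hθ1 x h]
            linarith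
          · rw [hout x h (hmem.1 hx)] at e1 ⊢
            nlinarith [mul_le_mul_of_nonneg_left e1 e5]
        · nlinarith [mul_le_mul_of_nonneg_left (e3.1.trans e1) e5,
            mul_le_mul_of_nonneg_left e4.1 e6]
        · nlinarith [mul_le_mul_of_nonneg_left e2 e5, mul_le_mul_of_nonneg_left e4.2 e6])
      (fun x hx hx' => by
        rw [hθ0 x hx, hout x (by linarith) hx']
        ring) (by positivity)
    refine ⟨U, hU1, hU2, fun x hx => ?_⟩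
    have hx' : ‖x - c‖ < R2 := mem_ball_iff_norm.1 hx
    have e := hU3 x hx
    rw [hin x (by linarith), hθ1 x (by linarith)] at e
    exact ⟨e.1, by linarith [e.2]⟩
  choose U hU1 hU2 hU3 using key
  refine ⟨U, fun i => ⟨hU1 i, hU2 i⟩, fun x hx => ⟨fun i => ⟨(hU3 i x hx).1, ?_⟩, ?_⟩⟩
  · have hx' : ‖x - c‖ < R2 := mem_ball_iff_norm.1 hx
    obtain ⟨y, hy, e1, -, e2⟩ := supc_max hcp hne hW.usc hW.bd (hδ i) x
    have e3 : ‖x - y‖ ≤ d := by
      refine (pow_le_pow_iff_left₀ (norm_nonneg _) hd.le two_ne_zero).1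
        ((e2 (hmem.2 (by linarith))).trans ?_)
      rw [mul_one_div, div_le_iff₀ (by positivity)]
      rw [div_le_iff₀ (by positivity)] at hi₀
      push_cast
      nlinarith [mul_nonneg (sq_nonneg d) (Nat.cast_nonneg (α := ℝ) i), sq_nonneg d]
    have e4 : ‖y - c‖ ≤ R2 + d := by
      have := norm_sub_le_norm_sub_add_norm_sub y x c
      rw [norm_sub_rev y x] at this
      linarith
    have e5 := (hU3 i x hx).2
    rw [e1, hin y e4] at e5
    have e6 : 0 ≤ ‖x - y‖ ^ 2 / (2 * (1 / (((i + i₀ : ℕ) : ℝ) + 1))) := by positivity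
    have e7 : 1 / ((i : ℝ) + 1) ≤ 1 := by
      rw [div_le_one (by positivity)]
      linarith [Nat.cast_nonneg (α := ℝ) i]
    linarith [(hw y (hsub hy)).2.1]
  · have hx' : ‖x - c‖ < R2 := mem_ball_iff_norm.1 hx
    have t1 := ((supc_tendsto hcp hW.usc hW.bd (x := x) (hmem.2 (by linarith))).comp
      (tendsto_add_atTop_nat i₀)).add (tendsto_one_div_add_atTop_nhds_zero_nat (𝕜 := ℝ))
    rw [add_zero, hin x (by linarith)] at t1
    exact tendsto_of_tendsto_of_tendsto_of_le_of_le tendsto_const_nhds t1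
      (fun i => (hU3 i x hx).1) fun i => (hU3 i x hx).2

end Pool.Agent.Lib.MP_f2cf74_an
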