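import Pool.Agent.Lib.MP_f2cf74_an.Base

open Set Metric MeasureTheory Complex Filter Topology
open scoped ContDiff ENNReal NNReal

noncomputable section

namespace Pool.Agent.Lib.MP_f2cf74_an

/-! Gluing of weak gradients.  `test_split`: a `SmoothPartitionOfUnity` on `E` for the compact
set `tsupport f` subordinate to finitely many balls (`SmoothPartitionOfUnity.exists_isSubordinate`),
`g k = ρ k * f`.  `weak_glue`: choose countably many balls covering `Ω`
(`TopologicalSpace.countable_cover_nhdsWithin` or `isOpen_iUnion_countable`); on overlaps the weak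
gradients agree a.e. (`IsOpen.ae_eq_zero_of_integral_contDiff_smul_eq_zero`, for each `eb k`);
define `G x` through the least index of a ball containing `x`; then `G = G n` a.e. on the `n`-th
ball.  A compact `K ⊆ Ω` is a finite union of compact subsets of such balls. -/

theorem test_split {U : Set E} {f : E → ℝ} (hf : IsTest U f) (r : E → ℝ)
    (hr : ∀ c ∈ U, 0 < r c) : ∃ (t : Finset E) (g : E → E → ℝ), (∀ c ∈ t, c ∈ U) ∧
      (∀ c ∈ t, IsTest (ball c (r c) ∩ U) (g c)) ∧ ∀ x, f x = ∑ c ∈ t, g c x := by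
  classical
  obtain ⟨h1, h2, h3⟩ := hf
  obtain ⟨t, ht, hc⟩ := IsCompact.elim_nhds_subcover h2 (fun c => ball c (r c))
    fun c hc => ball_mem_nhds c (hr c (h3 hc))
  obtain ⟨ρ, hρ⟩ := SmoothPartitionOfUnity.exists_isSubordinate (modelWithCornersSelf ℝ E)
    (isClosed_tsupport f) (fun i : t => ball (i : E) (r i)) (fun _ => isOpen_ball)
    (fun x hx => by simpa using hc hx)
  refine ⟨t, fun c x => if h : c ∈ t then ρ ⟨c, h⟩ x * f x else 0, fun c hc => h3 (ht c hc),
    fun c hc => ?_, fun x => ?_⟩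
  · simp only [dif_pos hc]
    exact ⟨(ρ ⟨c, hc⟩).contMDiff.contDiff.mul h1, h2.mul_left,
      subset_inter (tsupport_mul_subset_left.trans (hρ ⟨c, hc⟩))
        (tsupport_mul_subset_right.trans h3)⟩
  · rw [← Finset.sum_coe_sort t]
    simp only [Finset.coe_mem, dif_pos, Subtype.coe_eta]
    rw [← Finset.sum_mul]
    by_cases hx : x ∈ tsupport f
    · rw [← finsum_eq_sum_of_fintype, ρ.sum_eq_one hx, one_mul]
    · rw [image_eq_zero_of_notMem_tsupport hx, mul_zero]

theorem exg2_d0 {f : E → ℝ} {x : E} (hx : x ∉ tsupport f) (Y : E) : fderiv ℝ f x Y = 0 := by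
  rw [Function.notMem_support.1 fun h => hx (support_fderiv_subset ℝ h)]
  rfl

theorem exg2_int {K : Set E} (hK : IsCompact K) {a φ : E → ℝ} (ha : IntegrableOn a K)
    (hφ : Continuous φ) (h0 : ∀ x ∉ K, φ x = 0) : Integrable fun x => a x * φ x := by
  refine (integrableOn_iff_integrable_of_support_subset fun x hx => ?_).1
    (ha.mul_continuousOn hφ.continuousOn hK)
  by_contra h
  exact hx (by simp [h0 x h])

theorem exg2_one {K : Set E} (hK : IsCompact K) {G : E → E →L[ℝ] ℝ}
    (h : MemLp G 2 (volume.restrict K)) : IntegrableOn G K := by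
  have : IsFiniteMeasure (volume.restrict K) := ⟨by simpa using hK.measure_lt_top⟩
  exact h.integrable one_le_two

theorem exg2_intG {U : Set E} {G : E → E →L[ℝ] ℝ}
    (hG : ∀ K, IsCompact K → K ⊆ U → MemLp G 2 (volume.restrict K)) {f : E → ℝ} (hf : IsTest U f)
    (Y : E) : Integrable fun x => G x Y * f x :=
  exg2_int hf.2.1 ((exg2_one hf.2.1 (hG _ hf.2.1 hf.2.2)).apply_continuousLinearMap Y)
    hf.1.continuous fun _ hx => image_eq_zero_of_notMem_tsupport hx

theorem exg2_glob {U : Set E} {f : E → ℝ} (hf : tsupport f ⊆ U) (v : E → ℝ)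
    (G : E → E →L[ℝ] ℝ) (Y : E) :
    (∫ x in U, v x * fderiv ℝ f x Y = -∫ x in U, G x Y * f x) ↔
      ∫ x, v x * fderiv ℝ f x Y = -∫ x, G x Y * f x := by
  rw [setIntegral_eq_integral_of_forall_compl_eq_zero fun x hx => by
      rw [exg2_d0 (fun h => hx (hf h)), mul_zero],
    setIntegral_eq_integral_of_forall_compl_eq_zero fun x hx => by
      rw [image_eq_zero_of_notMem_tsupport fun h => hx (hf h), mul_zero]]

theorem exg2_uniq {U U' : Set E} (hU : IsOpen U) (hU' : IsOpen U') {v : E → ℝ}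
    {G G' : E → E →L[ℝ] ℝ} (h : IsWeakGrad U v G) (h' : IsWeakGrad U' v G') :
    ∀ᵐ x, x ∈ U ∩ U' → G x = G' x := by
  have key : ∀ k, ∀ᵐ x, x ∈ U ∩ U' → G x (eb k) - G' x (eb k) = 0 := by
    intro k
    refine (hU.inter hU').ae_eq_zero_of_integral_contDiff_smul_eq_zero ?_ fun g g1 g2 g3 => ?_
    · refine (locallyIntegrableOn_iff (hU.inter hU').isLocallyClosed).2 fun K hK hc => ?_
      exact ((exg2_one hc (h.1 K hc (hK.trans inter_subset_left))).apply_continuousLinearMap _).sub
        ((exg2_one hc (h'.1 K hc (hK.trans inter_subset_right))).apply_continuousLinearMap _)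
    · have t1 : IsTest U g := ⟨g1, g2, g3.trans inter_subset_left⟩
      have t2 : IsTest U' g := ⟨g1, g2, g3.trans inter_subset_right⟩
      have e1 := (exg2_glob t1.2.2 v G (eb k)).1 (h.2 g t1 _)
      have e2 := (exg2_glob t2.2.2 v G' (eb k)).1 (h'.2 g t2 _)
      have e3 := integral_sub (exg2_intG h.1 t1 (eb k)) (exg2_intG h'.1 t2 (eb k))
      rw [neg_injective (e1.symm.trans e2), sub_self] at e3
      rw [← e3]
      congr 1
      funext x
      rw [smul_eq_mul]
      ring
  filter_upwards [ae_all_iff.2 key] with x hx hxU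
  refine ContinuousLinearMap.coe_injective
    ((EuclideanSpace.basisFun (Fin 4) ℝ).toBasis.ext fun k => ?_)
  simpa [eb] using sub_eq_zero.1 (hx k hxU)

theorem weak_glue {Ω : Set E} (hΩ : IsOpen Ω) {v : E → ℝ}
    (h : ∀ c ∈ Ω, ∃ r > 0, ball c r ⊆ Ω ∧ IntegrableOn v (ball c r) ∧
      ∃ G, IsWeakGrad (ball c r) v G) : ∃ G, IsWeakGrad Ω v G := by
  choose! r hr hsub hv G hG using h
  obtain ⟨t, htΩ, htc, hcov⟩ := TopologicalSpace.countable_cover_nhdsWithin
    (f := fun c => ball c (r c)) (s := Ω)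
    fun c hc => mem_nhdsWithin_of_mem_nhds (ball_mem_nhds c (hr c hc))
  have hσ : ∀ x ∈ Ω, ∃ d, d ∈ t ∧ x ∈ ball d (r d) := fun x hx => by simpa using hcov hx
  choose! σ hσt hσb using hσ
  have hae : ∀ c ∈ Ω, ∀ᵐ x, x ∈ ball c (r c) → G (σ x) x = G c x := by
    intro c hc
    filter_upwards [(ae_ball_iff htc).2 fun d hd =>
      exg2_uniq isOpen_ball isOpen_ball (hG d (htΩ hd)) (hG c hc)] with x hx hxc
    exact hx (σ x) (hσt x (hsub c hc hxc)) ⟨hσb x (hsub c hc hxc), hxc⟩
  have hloc : ∀ c ∈ Ω,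
      MemLp (fun x => G (σ x) x) 2 (volume.restrict (closedBall c (r c / 2))) := by
    intro c hc
    have h1 : closedBall c (r c / 2) ⊆ ball c (r c) :=
      closedBall_subset_ball (half_lt_self (hr c hc))
    refine ((hG c hc).1 _ (isCompact_closedBall _ _) h1).ae_eq ?_
    rw [EventuallyEq, ae_restrict_iff' measurableSet_closedBall]
    filter_upwards [hae c hc] with x hx hxc using (hx (h1 hxc)).symm
  have hn : ∀ c ∈ Ω, closedBall c (r c / 2) ∈ 𝓝[Ω] c := fun c hc =>
    mem_nhdsWithin_of_mem_nhds (closedBall_mem_nhds c (half_pos (hr c hc)))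
  have l1 : LocallyIntegrableOn (fun x => G (σ x) x) Ω := fun c hc =>
    ⟨_, hn c hc, exg2_one (isCompact_closedBall _ _) (hloc c hc)⟩
  have l2 : LocallyIntegrableOn (fun x => ‖G (σ x) x‖ ^ 2) Ω := fun c hc =>
    ⟨_, hn c hc, (memLp_two_iff_integrable_sq_norm (hloc c hc).1).1 (hloc c hc)⟩
  have hL : ∀ K, IsCompact K → K ⊆ Ω → MemLp (fun x => G (σ x) x) 2 (volume.restrict K) :=
    fun K hK hKΩ => (memLp_two_iff_integrable_sq_norm
      (l1.integrableOn_compact_subset hKΩ hK).1).2 (l2.integrableOn_compact_subset hKΩ hK)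
  refine ⟨fun x => G (σ x) x, hL, fun f hf Y => (exg2_glob hf.2.2 v _ Y).2 ?_⟩
  obtain ⟨s, g, hs, hg, hsum⟩ := test_split hf r hr
  have t1 : ∀ c ∈ s, IsTest (ball c (r c)) (g c) := fun c hc =>
    ⟨(hg c hc).1, (hg c hc).2.1, (hg c hc).2.2.trans inter_subset_left⟩
  have t2 : ∀ c ∈ s, IsTest Ω (g c) := fun c hc =>
    ⟨(hg c hc).1, (hg c hc).2.1, (hg c hc).2.2.trans inter_subset_right⟩
  have e1 : ∀ x, v x * fderiv ℝ f x Y = ∑ c ∈ s, v x * fderiv ℝ (g c) x Y := fun x => by
    rw [show f = fun x => ∑ c ∈ s, g c x from funext hsum,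
      fderiv_fun_sum fun c hc => (hg c hc).1.differentiable (by simp) x,
      ContinuousLinearMap.sum_apply, Finset.mul_sum]
  have e2 : ∀ x, G (σ x) x Y * f x = ∑ c ∈ s, G (σ x) x Y * g c x := fun x => by
    rw [hsum, Finset.mul_sum]
  simp only [e1, e2]
  rw [integral_finsetSum s fun c hc => ?_,
    integral_finsetSum s fun c hc => exg2_intG hL (t2 c hc) Y, ← Finset.sum_neg_distrib]
  · refine Finset.sum_congr rfl fun c hc => ?_
    rw [(exg2_glob (t1 c hc).2.2 v _ Y).1 ((hG c (hs c hc)).2 _ (t1 c hc) Y)]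
    congr 1
    refine integral_congr_ae ?_
    filter_upwards [hae c (hs c hc)] with x hx
    by_cases hxc : x ∈ ball c (r c)
    · rw [hx hxc]
    · rw [image_eq_zero_of_notMem_tsupport fun h => hxc ((t1 c hc).2.2 h), mul_zero, mul_zero]
  · exact exg2_int (t1 c hc).2.1 ((hv c (hs c hc)).mono_set (t1 c hc).2.2)
      (((t1 c hc).1.continuous_fderiv (by simp)).clm_apply continuous_const)
      fun x hx => exg2_d0 hx Y

end Pool.Agent.Lib.MP_f2cf74_an
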