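import Pool.Agent.Lib.MP_f2cf74_an.Base

open Set Metric MeasureTheory Complex Filter Topology
open scoped ContDiff ENNReal NNReal

noncomputable section

namespace Pool.Agent.Lib.MP_f2cf74_an

/-! Existence of a model.  Choose `X 0 ≠ 0` and `X 1` outside the span of `X 0, J c X 0`; then
`B y = Bv (J y) X : F →L[ℝ] E` is bijective at `y = c`, hence near `c`.  Let
`π y = c + θ y • (y - c)` with a bump `θ` at `c` of small outer radius (so `π` is smooth, maps `E`
into a small closed ball in `Ω`, is the identity near `c` and constant outside a compact set);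
`J' = J ∘ π`, `A' = inverse (B ∘ π)` (`contDiffAt_map_inverse`).  All bounds hold since the
functions and their derivatives are continuous and constant (or zero) outside a compact set; for
`lipDJ` apply the mean value inequality to `y ↦ fderiv J' y U` or use
`ContDiff.lipschitzWith_of_hasCompactSupport`. -/

/-- Bounds for a smooth function that is constant outside a ball. -/
theorem mode_bd {G : Type} [NormedAddCommGroup G] [NormedSpace ℝ G] {f : E → G}
    (hf : ContDiff ℝ ∞ f) {c : E} {ρ : ℝ} {g : G} (h : ∀ y, y ∉ closedBall c ρ → f y = g) :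
    ∃ K : ℝ, 0 ≤ K ∧ (∀ x, ‖f x‖ ≤ K) ∧ (∀ x, ‖fderiv ℝ f x‖ ≤ K) ∧
      ∀ x y, ‖fderiv ℝ f x - fderiv ℝ f y‖ ≤ K * ‖x - y‖ := by
  have h1 : HasCompactSupport fun y => f y - g :=
    HasCompactSupport.intro (isCompact_closedBall c ρ) fun y hy => by rw [h y hy, sub_self]
  have h2 : HasCompactSupport (fderiv ℝ f) := by
    have := h1.fderiv ℝ
    rwa [show fderiv ℝ (fun y => f y - g) = fderiv ℝ f from funext fun y => fderiv_sub_const g]
      at this
  have h3 : ContDiff ℝ 1 (fderiv ℝ f) := hf.fderiv_right (m := 1) (by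
    rw [show (1 + 1 : WithTop ℕ∞) = ((2 : ℕ∞) : WithTop ℕ∞) from rfl]
    exact WithTop.coe_le_coe.2 le_top)
  obtain ⟨K₁, hK₁⟩ := (hf.continuous.sub continuous_const).bounded_above_of_compact_support h1
  obtain ⟨K₂, hK₂⟩ := h3.continuous.bounded_above_of_compact_support h2
  obtain ⟨K₃, hK₃⟩ := ContDiff.lipschitzWith_of_hasCompactSupport h2 h3 one_ne_zero
  have p₁ : 0 ≤ K₁ := (norm_nonneg _).trans (hK₁ 0)
  have p₂ : 0 ≤ K₂ := (norm_nonneg _).trans (hK₂ 0)
  have p₃ : (0 : ℝ) ≤ K₃ := K₃.2
  have p₄ := norm_nonneg g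
  refine ⟨K₁ + ‖g‖ + K₂ + K₃, by linarith, fun x => ?_, fun x => (hK₂ x).trans (by linarith),
    fun x y => ?_⟩
  · have := norm_add_le (f x - g) g
    rw [sub_add_cancel] at this
    have h4 : ‖f x - g‖ ≤ K₁ := hK₁ x
    linarith
  · have := hK₃.dist_le_mul x y
    rw [dist_eq_norm, dist_eq_norm] at this
    exact this.trans (mul_le_mul_of_nonneg_right (by linarith) (norm_nonneg _))

/-- The `j`-th coordinate as a real linear map. -/
def mode_pr (j : Fin 2) : F →L[ℝ] ℂ := (EuclideanSpace.proj j : F →L[ℂ] ℂ).restrictScalars ℝ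

/-- `Bv` as a continuous linear map. -/
def mode_B (X : Fin 2 → E) (J0 : E →L[ℝ] E) : F →L[ℝ] E :=
  ∑ j, (reCLM.comp (mode_pr j)).smulRight (X j) +
    J0.comp (∑ j, (imCLM.comp (mode_pr j)).smulRight (X j))

theorem mode_B_apply (X : Fin 2 → E) (J0 : E →L[ℝ] E) (z : F) :
    mode_B X J0 z = ∑ j, ((z j).re • X j + (z j).im • J0 (X j)) := by
  simp [mode_B, mode_pr, Finset.sum_add_distrib]

theorem mode_B_ee (X : Fin 2 → E) (J0 : E →L[ℝ] E) (j : Fin 2) : mode_B X J0 (ee j) = X j := by
  rw [mode_B_apply]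
  fin_cases j <;> simp [ee]

theorem mode_B_I (X : Fin 2 → E) {J0 : E →L[ℝ] E} (h : ∀ Y, J0 (J0 Y) = -Y) (z : F) :
    mode_B X J0 (I • z) = J0 (mode_B X J0 z) := by
  rw [mode_B_apply, mode_B_apply, map_sum]
  refine Finset.sum_congr rfl fun j _ => ?_
  simp [h, add_comm]

theorem mode_X {J0 : E →L[ℝ] E} (h : ∀ Y, J0 (J0 Y) = -Y) :
    ∃ X : Fin 2 → E, (mode_B X J0).IsInvertible := by
  have hE : Module.finrank ℝ E = 4 := finrank_euclideanSpace_fin
  have hF : Module.finrank ℝ F = 4 := by
    rw [← Module.finrank_mul_finrank ℝ ℂ F, Complex.finrank_real_complex,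
      finrank_euclideanSpace_fin]
  obtain ⟨u, hu⟩ := exists_ne (0 : E)
  obtain ⟨v, hv⟩ : ∃ v : E, v ∉ Submodule.span ℝ (Set.range ![u, J0 u]) := by
    by_contra h0
    push Not at h0
    have h1 := finrank_range_le_card (R := ℝ) ![u, J0 u]
    rw [Set.finrank, Submodule.eq_top_iff'.2 h0, finrank_top, hE, Fintype.card_fin] at h1
    omega
  have hinj : Function.Injective (mode_B ![u, v] J0) := by
    refine (injective_iff_map_eq_zero _).2 fun z hz => ?_
    have hz' := congrArg J0 hz
    rw [mode_B_apply, Fin.sum_univ_two] at hz hz'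
    simp only [Matrix.cons_val_zero, Matrix.cons_val_one, map_add, map_smul, h, map_zero,
      Matrix.cons_val_fin_one] at hz hz'
    have h1 : (z 1).re ^ 2 + (z 1).im ^ 2 = 0 := by
      by_contra h0
      refine hv ((Submodule.smul_mem_iff _ h0).1 ?_)
      have e : ((z 1).re ^ 2 + (z 1).im ^ 2) • v =
          (-((z 1).re * (z 0).re + (z 1).im * (z 0).im)) • u +
            ((z 1).im * (z 0).re - (z 1).re * (z 0).im) • J0 u := by
        linear_combination (norm := module) (z 1).re • hz - (z 1).im • hz'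
      rw [e]
      exact Submodule.add_mem _ (Submodule.smul_mem _ _ (Submodule.subset_span ⟨0, rfl⟩))
        (Submodule.smul_mem _ _ (Submodule.subset_span ⟨1, rfl⟩))
    have h2 : (z 1).re = 0 := by nlinarith
    have h3 : (z 1).im = 0 := by nlinarith
    rw [h2, h3] at hz hz'
    have h4 : ((z 0).re ^ 2 + (z 0).im ^ 2) • u = 0 := by
      linear_combination (norm := module) (z 0).re • hz - (z 0).im • hz'
    have h5 := (smul_eq_zero.1 h4).resolve_right hu
    have h6 : (z 0).re = 0 := by nlinarith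
    have h7 : (z 0).im = 0 := by nlinarith
    ext j
    fin_cases j
    · exact Complex.ext h6 h7
    · exact Complex.ext h2 h3
  refine ⟨![u, v], (LinearMap.linearEquivOfInjective (mode_B ![u, v] J0).toLinearMap hinj
    (hF.trans hE.symm)).toContinuousLinearEquiv, ?_⟩
  ext z
  rfl

theorem exists_model {J : E → E →L[ℝ] E} {Ω : Set E} (hΩ : IsOpen Ω) (hJ : IsACS J Ω) {c : E}
    (hc : c ∈ Ω) : ∃ (M : Model) (R : ℝ), 0 < R ∧ ball c R ⊆ Ω ∧ ∀ x ∈ ball c R, M.J x = J x := by
  obtain ⟨X, hX⟩ := mode_X (hJ.2 c hc)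
  have hB : ContDiff ℝ ∞ (mode_B X) := contDiff_const.add (contDiff_id.clm_comp contDiff_const)
  have h1 : ∀ᶠ y in 𝓝 c, y ∈ Ω ∧ (mode_B X (J y)).IsInvertible := by
    refine Filter.Eventually.and (hΩ.mem_nhds hc) ?_
    exact (hB.continuous.continuousAt.comp (hJ.1.continuousOn.continuousAt (hΩ.mem_nhds hc)))
      (ContinuousLinearEquiv.isOpen.mem_nhds hX)
  obtain ⟨r, hr, h2⟩ := Metric.eventually_nhds_iff_ball.1 h1
  let θ : ContDiffBump c := ⟨r / 3, r / 2, by positivity, by linarith⟩
  let p : E → E := fun y => c + θ y • (y - c)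
  have hp : ContDiff ℝ ∞ p := contDiff_const.add (θ.contDiff.smul (contDiff_id.sub contDiff_const))
  have hp0 : ∀ y, y ∉ closedBall c (r / 2) → p y = c := fun y hy => by
    have : θ y = 0 := θ.zero_of_le_dist (not_le.1 hy).le
    simp only [p, this, zero_smul, add_zero]
  have hp1 : ∀ y, p y ∈ ball c r := fun y => by
    by_cases hy : y ∈ closedBall c (r / 2)
    · rw [mem_closedBall, dist_eq_norm] at hy
      rw [mem_ball, dist_eq_norm, add_sub_cancel_left, norm_smul, Real.norm_of_nonneg θ.nonneg]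
      exact (mul_le_of_le_one_left (norm_nonneg _) θ.le_one).trans_lt (by linarith)
    · rw [hp0 y hy]
      exact mem_ball_self hr
  have hJ' : ContDiff ℝ ∞ fun y => J (p y) := hJ.1.comp_contDiff hp fun y => (h2 _ (hp1 y)).1
  have hB' : ContDiff ℝ ∞ fun y => mode_B X (J (p y)) := hB.comp hJ'
  have hi : ∀ y, (mode_B X (J (p y))).IsInvertible := fun y => (h2 _ (hp1 y)).2
  have hJJ : ∀ y Y, J (p y) (J (p y) Y) = -Y := fun y => hJ.2 _ (h2 _ (hp1 y)).1
  have hA : ContDiff ℝ ∞ fun y => (mode_B X (J (p y))).inverse :=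
    contDiff_iff_contDiffAt.2 fun y => ContDiffAt.comp (g := ContinuousLinearMap.inverse)
      (f := fun y => mode_B X (J (p y))) y (hi y).contDiffAt_map_inverse hB'.contDiffAt
  obtain ⟨K₁, p₁, a₁, b₁, c₁⟩ := mode_bd hJ' fun y hy => by rw [hp0 y hy]
  obtain ⟨K₂, p₂, a₂, b₂, -⟩ := mode_bd hA fun y hy => by rw [hp0 y hy]
  obtain ⟨K₃, p₃, a₃, -, -⟩ := mode_bd hB' fun y hy => by rw [hp0 y hy]
  have p₄ := norm_nonneg (X 0)
  have p₅ := norm_nonneg (X 1)
  refine ⟨
    { J := fun y => J (p y)
      X := X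
      A := fun y => (mode_B X (J (p y))).inverse
      K := 1 + K₁ + K₂ + K₃ + ‖X 0‖ + ‖X 1‖
      one_le := by linarith
      smJ := hJ'
      smA := hA
      JJ := hJJ
      AX := fun x j => by rw [← mode_B_ee X (J (p x)) j, (hi x).inverse_apply_self]
      AJ := fun x Y => (hi x).injective (by
        rw [mode_B_I X (hJJ x), (hi x).self_apply_inverse, (hi x).self_apply_inverse])
      span := fun x Y => by rw [← mode_B_apply, (hi x).self_apply_inverse]
      bX := fun j => by
        fin_cases j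
        · change ‖X 0‖ ≤ _
          linarith
        · change ‖X 1‖ ≤ _
          linarith
      bJ := fun x => (a₁ x).trans (by linarith)
      bDJ := fun x => (b₁ x).trans (by linarith)
      lipDJ := fun x y => (c₁ x y).trans
        (mul_le_mul_of_nonneg_right (by linarith) (norm_nonneg _))
      bA := fun x => (a₂ x).trans (by linarith)
      bDA := fun x => (b₂ x).trans (by linarith)
      low := fun x Y => by
        have := (mode_B X (J (p x))).le_of_opNorm_le (a₃ x) ((mode_B X (J (p x))).inverse Y)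
        rw [(hi x).self_apply_inverse] at this
        exact this.trans (mul_le_mul_of_nonneg_right (by linarith) (norm_nonneg _)) },
    r / 3, by positivity, fun y hy => (h2 y (ball_subset_ball (by linarith) hy)).1,
    fun x hx => ?_⟩
  have : θ x = 1 := θ.one_of_mem_closedBall (ball_subset_closedBall hx)
  simp only [p, this, one_smul, add_sub_cancel]

end Pool.Agent.Lib.MP_f2cf74_an
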