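import Pool.Agent.Lib.MP_f2cf74_an.Jet

open Set Metric MeasureTheory Complex Filter Topology
open scoped ContDiff ENNReal NNReal

noncomputable section

namespace Pool.Agent.Lib.MP_f2cf74_an

/-! Circle averages along a `C¹` disc.  `φ y = p (y - x) + A (y - x) (y - x) / 2`,
`m t = circleAverage (φ ∘ l) 0 t`.  Differentiate under the integral:
`t m' t = average of η (l ζ) (dl ζ (I ζ))`, `η y = -Dφ y ∘ J y`, because `dl (I ζ) = J dl ζ`.
The average of `η x (dl ζ (I ζ)) = η x (d/dθ l (t e^{iθ}))` is `0`;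
`η (l ζ) - η x = Dη x (dl 0 ζ) + o(‖ζ‖)`, `dl ζ = dl 0 + o(1)`; the average of the bilinear term is
`t² jetL / 2`.  So `m' t < 0` for small `t > 0`, and `m 0 = 0`. -/

theorem circ_abs {u k : ℂ → ℝ} {Du Dk : ℂ → ℂ →L[ℝ] ℝ} {c t : ℝ} (hc : 0 < c) (ht : 0 < t)
    (hu : ∀ ζ ∈ closedBall (0 : ℂ) t, HasFDerivAt u (Du ζ) ζ)
    (hk : ∀ ζ ∈ closedBall (0 : ℂ) t, HasFDerivAt k (Dk ζ) ζ)
    (hD : ContinuousOn Du (closedBall 0 t)) (h0 : u 0 = 0)
    (h : ∀ ζ ∈ closedBall (0 : ℂ) t, Du ζ ζ ≤ Dk ζ (I * ζ) - c * ‖ζ‖ ^ 2) :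
    Real.circleAverage u 0 t < 0 := by
  have hpi : 0 < 2 * Real.pi := Real.two_pi_pos
  have hm : ∀ s ∈ Icc 0 t, ∀ θ, circleMap 0 s θ ∈ closedBall (0 : ℂ) t := fun s hs θ => by
    rw [mem_closedBall_zero_iff, norm_circleMap_zero, abs_of_nonneg hs.1]
    exact hs.2
  have he : ∀ s θ : ℝ, circleMap 0 s θ = s • circleMap 0 1 θ := fun s θ => by
    simp [circleMap_zero]
  have hG : ContinuousOn (fun q : ℝ × ℝ => Du (circleMap 0 q.1 q.2) (circleMap 0 1 q.2))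
      (Icc 0 t ×ˢ univ) := by
    have h1 : Continuous fun q : ℝ × ℝ => circleMap 0 q.1 q.2 := by
      simp only [circleMap_zero]
      fun_prop
    exact (hD.comp h1.continuousOn fun q hq => hm _ hq.1 _).clm_apply
      ((continuous_circleMap 0 1).comp continuous_snd).continuousOn
  have hI : IntegrableOn (fun q : ℝ × ℝ => Du (circleMap 0 q.1 q.2) (circleMap 0 1 q.2))
      (Icc 0 t ×ˢ Icc 0 (2 * Real.pi)) :=
    (hG.mono (prod_mono Subset.rfl (subset_univ _))).integrableOn_compact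
      (isCompact_Icc.prod isCompact_Icc)
  have h1 : ∀ θ, u (circleMap 0 t θ) = ∫ s in (0 : ℝ)..t, Du (circleMap 0 s θ) (circleMap 0 1 θ) := by
    intro θ
    rw [intervalIntegral.integral_eq_sub_of_hasDerivAt (f := fun s => u (circleMap 0 s θ))]
    · simp [h0]
    · intro s hs
      rw [uIcc_of_le ht.le] at hs
      refine (hu _ (hm s hs θ)).comp_hasDerivAt (f := fun s => circleMap 0 s θ) s ?_
      rw [funext fun s => he s θ]
      exact ((hasDerivAt_id s).smul_const (circleMap 0 1 θ)).congr_deriv (one_smul _ _)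
    · refine ContinuousOn.intervalIntegrable ?_
      rw [uIcc_of_le ht.le]
      exact hG.comp (f := fun s => (s, θ)) (Continuous.prodMk_left θ).continuousOn
        fun s hs => ⟨hs, trivial⟩
  have h2 : ∀ s ∈ Ioo 0 t, ∫ θ in (0 : ℝ)..2 * Real.pi, Du (circleMap 0 s θ) (circleMap 0 1 θ) ≤
      -(2 * Real.pi * c * s) := by
    intro s hs
    have hs' := Ioo_subset_Icc_self hs
    have d : ∀ θ, HasDerivAt (fun θ => s⁻¹ * k (circleMap 0 s θ) - c * s * θ)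
        (s⁻¹ * Dk (circleMap 0 s θ) (circleMap 0 s θ * I) - c * s * 1) θ := fun θ =>
      (((hk _ (hm s hs' θ)).comp_hasDerivAt θ (hasDerivAt_circleMap 0 s θ)).const_mul _).sub
        ((hasDerivAt_id θ).const_mul _)
    refine (intervalIntegral.integral_le_sub_of_hasDeriv_right_of_le hpi.le
      (fun θ _ => (d θ).continuousAt.continuousWithinAt) (fun θ _ => (d θ).hasDerivWithinAt)
      ?_ fun θ _ => ?_).trans (le_of_eq ?_)
    · exact (hG.comp (f := fun θ => (s, θ)) (Continuous.prodMk_right s).continuousOn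
        fun θ _ => ⟨hs', trivial⟩).integrableOn_compact isCompact_Icc
    · have h3 := h _ (hm s hs' θ)
      rw [norm_circleMap_zero, abs_of_pos hs.1, mul_comm I] at h3
      have h4 : Du (circleMap 0 s θ) (circleMap 0 s θ) =
          s * Du (circleMap 0 s θ) (circleMap 0 1 θ) := by
        rw [← smul_eq_mul, ← map_smul, ← he]
      refine le_of_mul_le_mul_left ?_ hs.1
      rw [mul_sub, mul_inv_cancel_left₀ hs.1.ne', ← h4]
      linarith
    · have h3 := periodic_circleMap 0 s 0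
      rw [zero_add] at h3
      rw [h3]
      ring
  have h3 : IntegrableOn (fun s => ∫ θ in (0 : ℝ)..2 * Real.pi,
      Du (circleMap 0 s θ) (circleMap 0 1 θ)) (Icc 0 t) := by
    have h4 := hI.mono_set (prod_mono Subset.rfl Ioc_subset_Icc_self)
    rw [IntegrableOn, Measure.volume_eq_prod, ← Measure.prod_restrict] at h4
    simp only [intervalIntegral.integral_of_le hpi.le]
    exact h4.integral_prod_left
  have d : ∀ s : ℝ, HasDerivAt (fun s => -(Real.pi * c * s ^ 2)) (-(2 * Real.pi * c * s)) s :=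
    fun s => ((hasDerivAt_pow 2 s).const_mul (Real.pi * c)).fun_neg.congr_deriv (by
      push_cast
      ring)
  have h4 := intervalIntegral.integral_le_sub_of_hasDeriv_right_of_le ht.le
    (fun s _ => (d s).continuousAt.continuousWithinAt) (fun s _ => (d s).hasDerivWithinAt) h3 h2
  rw [intervalIntegral_intervalIntegral_swap] at h4
  · rw [Real.circleAverage, smul_eq_mul]
    simp only [h1]
    refine mul_neg_of_pos_of_neg (inv_pos.2 hpi) (h4.trans_lt ?_)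
    have : 0 < Real.pi * c * t ^ 2 := by positivity
    simpa using this
  · rw [uIoc_of_le ht.le, uIoc_of_le hpi.le]
    exact hI.mono_set (prod_mono Ioc_subset_Icc_self Ioc_subset_Icc_self)

/-- The differential of the quadratic function. -/
def circP (x : E) (p : E →L[ℝ] ℝ) (A : E →L[ℝ] E →L[ℝ] ℝ) (y : E) : E →L[ℝ] ℝ :=
  p + (1 / 2 : ℝ) • (A + A.flip) (y - x)

theorem circ_phi (x : E) (p : E →L[ℝ] ℝ) (A : E →L[ℝ] E →L[ℝ] ℝ) (y : E) :
    HasFDerivAt (fun y => p (y - x) + A (y - x) (y - x) / 2) (circP x p A y) y := by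
  have h0 : HasFDerivAt (fun y : E => y - x) (ContinuousLinearMap.id ℝ E) y :=
    (hasFDerivAt_id y).sub_const x
  have h1 := (p.hasFDerivAt.comp y h0).fun_add
    (((A.hasFDerivAt.comp y h0).clm_apply h0).mul_const (2 : ℝ)⁻¹)
  refine h1.congr_fderiv ?_
  ext1 v
  simp [circP]

theorem circ_dP (x : E) (p : E →L[ℝ] ℝ) (A : E →L[ℝ] E →L[ℝ] ℝ) (y : E) :
    HasFDerivAt (circP x p A) ((1 / 2 : ℝ) • (A + A.flip)) y := by
  have h0 : HasFDerivAt (fun y : E => y - x) (ContinuousLinearMap.id ℝ E) y :=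
    (hasFDerivAt_id y).sub_const x
  exact ((((A + A.flip).hasFDerivAt.comp y h0).const_smul (1 / 2 : ℝ)).const_add p).congr_fderiv
    (by rw [ContinuousLinearMap.comp_id])

theorem circ_eta (M : Model) (x : E) (p : E →L[ℝ] ℝ) (A : E →L[ℝ] E →L[ℝ] ℝ) :
    ∃ N : E →L[ℝ] E →L[ℝ] ℝ, HasFDerivAt (fun y => (circP x p A y).comp (M.J y)) N x ∧
      ∀ h v, N h v = p (fderiv ℝ M.J x h v) + (A h (M.J x v) + A (M.J x v) h) / 2 := by
  refine ⟨_, (circ_dP x p A x).clm_comp (M.smJ.differentiable (by simp) x).hasFDerivAt,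
    fun h v => ?_⟩
  simp [circP]
  ring

theorem circ_err {a : ℂ → E →L[ℝ] ℝ} {N : ℂ →L[ℝ] E →L[ℝ] ℝ} {D : ℂ → ℂ →L[ℝ] E}
    (ha : HasFDerivAt a N 0) (hD : ContinuousAt D 0) {ε : ℝ} (hε : 0 < ε) :
    ∀ᶠ ζ in 𝓝 (0 : ℂ), |(a ζ - a 0) (D ζ (I * ζ)) - N ζ (D 0 (I * ζ))| ≤ ε * ‖ζ‖ ^ 2 := by
  have h1 : (fun ζ => ‖a ζ - a 0 - N ζ‖ * ‖D ζ‖) =o[𝓝 0] fun ζ : ℂ => ‖ζ‖ * 1 := by
    refine Asymptotics.IsLittleO.mul_isBigO ?_ (hD.norm.isBigO_one ℝ)
    simpa using ha.isLittleO.norm_norm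
  have h2 : (fun ζ => ‖N ζ‖ * ‖D ζ - D 0‖) =o[𝓝 0] fun ζ : ℂ => ‖ζ‖ * 1 := by
    refine Asymptotics.IsBigO.mul_isLittleO (N.isBigO_id _).norm_norm ?_
    rw [Asymptotics.isLittleO_one_iff]
    exact tendsto_iff_norm_sub_tendsto_zero.1 hD
  refine ((h1.add h2).def hε).mono fun ζ h => ?_
  rw [Real.norm_of_nonneg (by positivity), mul_one, norm_norm] at h
  have e : (a ζ - a 0) (D ζ (I * ζ)) - N ζ (D 0 (I * ζ)) =
      (a ζ - a 0 - N ζ) (D ζ (I * ζ)) + N ζ ((D ζ - D 0) (I * ζ)) := by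
    simp only [ContinuousLinearMap.sub_apply, map_sub]
    ring
  have n0 : ‖I * ζ‖ = ‖ζ‖ := by rw [norm_mul, norm_I, one_mul]
  have n1 := (a ζ - a 0 - N ζ).le_opNorm_of_le ((D ζ).le_opNorm (I * ζ))
  have n2 := (N ζ).le_opNorm_of_le ((D ζ - D 0).le_opNorm (I * ζ))
  rw [n0] at n1 n2
  rw [e]
  refine (abs_add_le _ _).trans ((add_le_add n1 n2).trans ?_)
  have := mul_le_mul_of_nonneg_right h (norm_nonneg ζ)
  linarith

theorem circ_disc (M : Model) {Ω : Set E} {l : ℂ → E} (hl : IsDisc M.J Ω l) {x : E} (h0 : l 0 = x)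
    {p : E →L[ℝ] ℝ} {A : E →L[ℝ] E →L[ℝ] ℝ} (h : jetL M.J x p A (fderiv ℝ l 0 1) < 0) :
    ∀ᶠ t in 𝓝[>] (0 : ℝ),
      Real.circleAverage (fun ζ => p (l ζ - x) + A (l ζ - x) (l ζ - x) / 2) 0 t < 0 := by
  subst h0
  obtain ⟨N, hN, eN⟩ := circ_eta M (l 0) p A
  have hb : ∀ ζ ∈ ball (0 : ℂ) 1, HasFDerivAt l (fderiv ℝ l ζ) ζ := fun ζ hζ =>
    ((hl.1.differentiableOn one_ne_zero).differentiableAt (isOpen_ball.mem_nhds hζ)).hasFDerivAt
  have hD : ContinuousOn (fderiv ℝ l) (ball 0 1) :=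
    hl.1.continuousOn_fderiv_of_isOpen isOpen_ball le_rfl
  have hz : (0 : ℂ) ∈ ball (0 : ℂ) 1 := mem_ball_self one_pos
  obtain ⟨c, hc⟩ : ∃ c, c = -jetL M.J (l 0) p A (fderiv ℝ l 0 1) / 4 := ⟨_, rfl⟩
  have hc0 : 0 < c := by linarith
  obtain ⟨δ, hδ, h1⟩ := Metric.eventually_nhds_iff_ball.1 ((circ_err (hN.comp 0 (hb 0 hz))
    (hD.continuousAt (isOpen_ball.mem_nhds hz)) hc0).and (isOpen_ball.mem_nhds hz))
  filter_upwards [Ioo_mem_nhdsGT hδ] with t ht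
  have h2 : ∀ ζ ∈ closedBall (0 : ℂ) t, ζ ∈ ball (0 : ℂ) 1 := fun ζ hζ =>
    (h1 ζ (closedBall_subset_ball ht.2 hζ)).2
  have hlc : ContinuousOn l (closedBall 0 t) := hl.1.continuousOn.mono h2
  have hP : Continuous (circP (l 0) p A) :=
    continuous_iff_continuousAt.2 fun y => (circ_dP (l 0) p A y).continuousAt
  refine circ_abs hc0 ht.1 (fun ζ hζ => (circ_phi (l 0) p A (l ζ)).comp ζ (hb ζ (h2 ζ hζ)))
    (fun ζ hζ => (((p.comp (M.J (l 0))).hasFDerivAt.comp ζ (hb ζ (h2 ζ hζ))).fun_add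
      ((((N.comp (fderiv ℝ l 0)).hasFDerivAt (x := ζ)).clm_apply
        (fderiv ℝ l 0).hasFDerivAt).mul_const (2 : ℝ)⁻¹)).fun_neg)
    ((hP.comp_continuousOn hlc).clm_comp (hD.mono h2)) (by simp) fun ζ hζ => ?_
  have h3 := (abs_le.1 (h1 ζ (closedBall_subset_ball ht.2 hζ)).1).1
  have h4 : M.J (l ζ) (fderiv ℝ l ζ (I * ζ)) = -fderiv ℝ l ζ ζ := by
    rw [hl.2.2 ζ (h2 ζ hζ), M.JJ]
  have h5 : fderiv ℝ l 0 ζ = ζ.re • fderiv ℝ l 0 1 + ζ.im • M.J (l 0) (fderiv ℝ l 0 1) := by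
    rw [← hl.2.2 0 hz, ← map_smul, ← map_smul, ← map_add]
    congr 1
    simp
  have h6 : fderiv ℝ l 0 (I * ζ) =
      ζ.re • M.J (l 0) (fderiv ℝ l 0 1) - ζ.im • fderiv ℝ l 0 1 := by
    rw [hl.2.2 0 hz, h5, map_add, map_smul, map_smul, M.JJ, smul_neg, sub_eq_add_neg]
  have h7 : N (fderiv ℝ l 0 (I * ζ)) (fderiv ℝ l 0 ζ) - N (fderiv ℝ l 0 ζ) (fderiv ℝ l 0 (I * ζ)) =
      -(4 * c) * ‖ζ‖ ^ 2 := by
    have e1 : N (M.J (l 0) (fderiv ℝ l 0 1)) (fderiv ℝ l 0 1) -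
        N (fderiv ℝ l 0 1) (M.J (l 0) (fderiv ℝ l 0 1)) = -(4 * c) := by
      rw [eN, eN, hc, jetL, beta, M.JJ]
      simp only [map_sub, map_neg, ContinuousLinearMap.neg_apply]
      ring
    rw [h5, h6, ← e1, Complex.sq_norm, normSq_apply]
    simp only [map_add, map_sub, map_smul, ContinuousLinearMap.add_apply,
      ContinuousLinearMap.sub_apply, ContinuousLinearMap.smul_apply, smul_eq_mul]
    ring
  have h8 : circP (l 0) p A (l 0) = p := by simp [circP]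
  simp only [Function.comp_apply, h8, ContinuousLinearMap.sub_apply, ContinuousLinearMap.comp_apply,
    h4, map_neg] at h3
  simp only [ContinuousLinearMap.comp_apply, ContinuousLinearMap.neg_apply,
    ContinuousLinearMap.add_apply, ContinuousLinearMap.smul_apply, ContinuousLinearMap.flip_apply,
    smul_eq_mul]
  linarith

end Pool.Agent.Lib.MP_f2cf74_an
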