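import Pool.Agent.Lib.MP_f2cf74_an.Disc
import Pool.Agent.Lib.MP_f2cf74_an.Circ
import Pool.Agent.Lib.MP_f2cf74_an.Sub2

open Set Metric MeasureTheory Complex Filter Topology
open scoped ContDiff ENNReal NNReal

noncomputable section

namespace Pool.Agent.Lib.MP_f2cf74_an

/-! Disc plurisubharmonicity implies the viscosity condition.  If `u x ≤ -N`, `visc_of_min`.
Otherwise `visc_of_exact`; if `jetL x p A Y < 0` then also for directions near `Y` (continuity) and
their positive multiples (`jetL` is homogeneous of degree two); `exists_disc`, `subharm_avg`,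
`circ_disc` give `u x < u x`. -/

theorem trunc_facts {u : E → EReal} {x : E} (hx : u x ≠ ⊤) (N : ℝ) :
    ((trunc u N x : ℝ) : EReal) = max (u x) ((-N : ℝ) : EReal) := by
  exact EReal.coe_toReal (max_lt hx.lt_top (EReal.coe_lt_top _)).ne
    (lt_max_of_lt_right (EReal.bot_lt_coe _)).ne'

theorem trunc_usc {u : E → EReal} {Ω : Set E} (hu : UpperSemicontinuousOn u Ω)
    (ht : ∀ x ∈ Ω, u x ≠ ⊤) (N : ℝ) : UpperSemicontinuousOn (trunc u N) Ω := by
  intro x hx y hy
  have h : max (u x) ((-N : ℝ) : EReal) < (y : EReal) := by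
    rw [← trunc_facts (ht x hx)]
    exact EReal.coe_lt_coe_iff.2 hy
  filter_upwards [hu x hx y (max_lt_iff.1 h).1, self_mem_nhdsWithin] with z hz hz'
  refine EReal.coe_lt_coe_iff.1 ?_
  rw [trunc_facts (ht z hz')]
  exact max_lt hz (max_lt_iff.1 h).2

theorem trunc_visc (M : Model) {u : E → EReal} {Ω : Set E} (hΩ : IsOpen Ω)
    (hu : IsPSH0 M.J Ω u) (N : ℝ) {x : E} (hx : x ∈ Ω) : Visc M.J (trunc u N) x 0 := by
  rcases le_or_gt (u x) ((-N : ℝ) : EReal) with hN | hN
  · refine visc_of_min ?_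
    filter_upwards [hΩ.mem_nhds hx] with y hy
    refine EReal.coe_le_coe_iff.1 ?_
    rw [trunc_facts (hu.2.1 x hx), trunc_facts (hu.2.1 y hy), max_eq_right hN]
    exact le_max_right _ _
  have hx' : ((trunc u N x : ℝ) : EReal) = u x := by
    rw [trunc_facts (hu.2.1 x hx), max_eq_left hN.le]
  refine visc_of_exact fun p A h Y => ?_
  rw [zero_mul, neg_zero]
  by_contra hY
  have hc : Continuous fun Y => jetL M.J x p A Y := by
    unfold jetL beta
    fun_prop
  obtain ⟨η1, hη1, h1⟩ := Metric.eventually_nhds_iff_ball.1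
    (hc.continuousAt.eventually (gt_mem_nhds (not_le.1 hY)))
  obtain ⟨η2, hη2, h2⟩ := Metric.eventually_nhds_iff_ball.1 (h.and (hΩ.mem_nhds hx))
  obtain ⟨l, ε, hε, hl, h0, hd⟩ := exists_disc M x Y (lt_min (half_pos hη1) hη2)
  have h3 : jetL M.J x p A (fderiv ℝ l 0 1) < 0 := by
    have e : fderiv ℝ l 0 1 = ε • ε⁻¹ • fderiv ℝ l 0 1 := (smul_inv_smul₀ hε.ne' _).symm
    have h4 : ε⁻¹ • fderiv ℝ l 0 1 ∈ ball Y η1 := by
      rw [e, ← smul_sub, norm_smul, Real.norm_of_nonneg hε.le] at hd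
      exact mem_ball_iff_norm.2 ((le_of_mul_le_mul_left hd hε).trans_lt
        ((min_le_left _ _).trans_lt (half_lt_self hη1)))
    have h5 : ∀ Z, jetL M.J x p A (ε • Z) = ε ^ 2 * jetL M.J x p A Z := by
      intro Z
      simp only [jetL, beta, map_smul, smul_apply, map_sub, smul_eq_mul]
      ring
    rw [e, h5]
    exact mul_neg_of_pos_of_neg (by positivity) (h1 _ h4)
  have h6 : ∀ z ∈ ball (0 : ℂ) 1, l z ∈ ball x η2 := fun z hz =>
    ball_subset_ball (min_le_right _ _) (hl.2.1 hz)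
  obtain ⟨t, ht, ht'⟩ := ((circ_disc M hl h0 h3).and (Ioo_mem_nhdsGT one_pos)).exists
  have hs : sphere (0 : ℂ) t ⊆ ball 0 1 := sphere_subset_closedBall.trans
    (closedBall_subset_ball ht'.2)
  have hlc : ContinuousOn (fun ζ => l ζ - x) (sphere 0 t) :=
    (hl.1.continuousOn.mono hs).sub continuousOn_const
  have hψ : ContinuousOn (fun ζ => p (l ζ - x) + A (l ζ - x) (l ζ - x) / 2) (sphere 0 t) :=
    (p.continuous.comp_continuousOn hlc).add
      (((A.continuous.comp_continuousOn hlc).clm_apply hlc).div_const 2)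
  have h7 := subharm_avg (hu.2.2 l ⟨hl.1, fun z hz => (h2 _ (h6 z hz)).2, hl.2.2⟩)
    (ψ := fun ζ => trunc u N x + (p (l ζ - x) + A (l ζ - x) (l ζ - x) / 2)) ht'.1
    (closedBall_subset_ball ht'.2) (continuousOn_const.add hψ) fun z hz => by
      have h8 := h2 _ (h6 z (hs hz))
      refine (le_max_left _ ((-N : ℝ) : EReal)).trans ?_
      rw [← trunc_facts (hu.2.1 _ h8.2), EReal.coe_le_coe_iff, ← add_assoc]
      exact h8.1
  rw [Real.circleAverage_fun_add (circleIntegrable_const _ _ _) (hψ.circleIntegrable ht'.1.le),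
    Real.circleAverage_const, h0, ← hx', EReal.coe_le_coe_iff] at h7
  linarith

end Pool.Agent.Lib.MP_f2cf74_an
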