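import Pool.Agent.Lib.MP_f2cf74_an.Lim
import Pool.Agent.Lib.MP_f2cf74_an.Approx
import Pool.Agent.Lib.MP_f2cf74_an.PVisc
import Pool.Agent.Lib.MP_f2cf74_an.ModE

open Set Metric MeasureTheory Complex Filter Topology
open scoped ContDiff ENNReal NNReal

noncomputable section

namespace Pool.Agent.Lib.MP_f2cf74_an

/-! The local theorem.  `fatou2`: Fatou's lemma (`lintegral_liminf_le'`) in `i`, then in `N`
(`trunc u N` is a pointwise limit of continuous functions on the ball), and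
`|u| ≤ (S + 1 - u) + |S| + 1`.  `loc`: `exists_model`; `u ≤ S` near `c` by upper semicontinuity;
radii `R₂ < R₆`, `submean` with `R₁ = R₂ / 2` gives `r'`, and `11 r ≤ r'`; `approx` for `trunc u N`
and for `v = trunc v B`; `ma_est` and `submean` at the point `x₁` for `U N i - (S + 1)`. -/

theorem loc_abs_le {u : E → EReal} {x : E} {S : ℝ} (hx : u x ≤ (S : EReal)) :
    (u x).abs ≤ liminf (fun N : ℕ => ‖trunc u N x - (S + 1)‖ₑ) atTop + ENNReal.ofReal |S + 1| := by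
  induction hux : u x using EReal.rec with
  | bot =>
    have h1 : Tendsto (fun N : ℕ => ‖trunc u N x - (S + 1)‖ₑ) atTop (𝓝 ⊤) := by
      simp only [trunc, hux, bot_le, max_eq_right, EReal.toReal_coe, Real.enorm_eq_ofReal_abs]
      exact ENNReal.tendsto_ofReal_atTop.comp (tendsto_abs_atBot_atTop.comp
        (tendsto_atBot_add_const_right _ _
          (tendsto_neg_atTop_atBot.comp tendsto_natCast_atTop_atTop)))
    rw [h1.liminf_eq, top_add]
    exact le_top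
  | coe a =>
    have h1 : Tendsto (fun N : ℕ => ‖trunc u N x - (S + 1)‖ₑ) atTop (𝓝 ‖a - (S + 1)‖ₑ) := by
      refine tendsto_const_nhds.congr' ?_
      filter_upwards [tendsto_natCast_atTop_atTop.eventually_ge_atTop (-a)] with N hN
      rw [trunc, hux, max_eq_left (EReal.coe_le_coe_iff.2 (by linarith)), EReal.toReal_coe]
    rw [h1.liminf_eq, EReal.abs_def, Real.enorm_eq_ofReal_abs,
      ← ENNReal.ofReal_add (abs_nonneg _) (abs_nonneg _)]
    exact ENNReal.ofReal_le_ofReal (by simpa using abs_add_le (a - (S + 1)) (S + 1))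
  | top =>
    rw [hux] at hx
    exact absurd hx (not_le.2 (EReal.coe_lt_top S))

theorem fatou2 {u : E → EReal} {T : Set E} (hT : MeasurableSet T) {ν : Measure E} (hν : ν T < ⊤)
    {S : ℝ} (hu : ∀ x ∈ T, u x ≤ (S : EReal)) {U : ℕ → ℕ → E → ℝ}
    (hU : ∀ N i, Continuous (U N i))
    (hl : ∀ N : ℕ, ∀ x ∈ T, Tendsto (fun i => U N i x) atTop (𝓝 (trunc u N x))) {P : ℝ≥0∞}
    (hP : P < ⊤) (h : ∀ N i, ∫⁻ x in T, ‖U N i x - (S + 1)‖ₑ ∂ν ≤ P) :
    ∫⁻ x in T, (u x).abs ∂ν < ⊤ := by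
  have hl' : ∀ N : ℕ, ∀ x ∈ T, Tendsto (fun i => ‖U N i x - (S + 1)‖ₑ) atTop
      (𝓝 ‖trunc u N x - (S + 1)‖ₑ) := fun N x hx => ((hl N x hx).sub_const _).enorm
  have hm : ∀ N i, AEMeasurable (fun x => ‖U N i x - (S + 1)‖ₑ) (ν.restrict T) := fun N i =>
    ((hU N i).sub continuous_const).enorm.measurable.aemeasurable
  have hm' : ∀ N : ℕ, AEMeasurable (fun x => ‖trunc u N x - (S + 1)‖ₑ) (ν.restrict T) := fun N =>
    aemeasurable_of_tendsto_metrizable_ae atTop (hm N)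
      ((ae_restrict_iff' hT).2 (Eventually.of_forall (hl' N)))
  have h1 : ∀ N : ℕ, ∫⁻ x in T, ‖trunc u N x - (S + 1)‖ₑ ∂ν ≤ P := fun N => by
    rw [setLIntegral_congr_fun hT fun x hx => (hl' N x hx).liminf_eq.symm]
    exact (lintegral_liminf_le' (hm N)).trans
      (liminf_le_of_frequently_le' (Frequently.of_forall (h N)))
  have h2 : ∫⁻ x in T, liminf (fun N : ℕ => ‖trunc u N x - (S + 1)‖ₑ) atTop ∂ν ≤ P :=
    (lintegral_liminf_le' hm').trans (liminf_le_of_frequently_le' (Frequently.of_forall h1))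
  refine (setLIntegral_mono' hT fun x hx => loc_abs_le (hu x hx)).trans_lt ?_
  rw [lintegral_add_right _ measurable_const, setLIntegral_const]
  exact ENNReal.add_lt_top.2 ⟨h2.trans_lt hP, ENNReal.mul_lt_top ENNReal.ofReal_lt_top hν⟩

theorem isPSH0_model (M : Model) {J : E → E →L[ℝ] E} {Ω : Set E} {u : E → EReal}
    (hu : IsPSH0 J Ω u) {T : Set E} (hT : T ⊆ Ω) (h : ∀ x ∈ T, M.J x = J x) :
    IsPSH0 M.J T u := by
  refine ⟨hu.1.mono hT, fun x hx => hu.2.1 x (hT hx), fun l hl => hu.2.2 l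
    ⟨hl.1, fun z hz => hT (hl.2.1 hz), fun z hz w => ?_⟩⟩
  rw [hl.2.2 z hz w, h _ (hl.2.1 hz)]

theorem loc_psh_sub {J : E → E →L[ℝ] E} {f : E → ℝ} {T T' : Set E} (h : Psh J f T) (hT : T' ⊆ T)
    (a : ℝ) : Psh J (fun x => f x - a) T' := by
  have e : fderiv ℝ (fun x => f x - a) = fderiv ℝ f := funext fun x => fderiv_sub_const a
  intro x hx Y
  rw [levi, e]
  exact h x (hT hx) Y

theorem loc_trunc {u : E → EReal} {x : E} {S N : ℝ} (hx : u x ≤ (S : EReal)) (hN : -N ≤ S) :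
    -N ≤ trunc u N x ∧ trunc u N x ≤ S ∧ u x ≤ (trunc u N x : EReal) := by
  have h := trunc_facts (hx.trans_lt (EReal.coe_lt_top S)).ne N
  refine ⟨EReal.coe_le_coe_iff.1 ?_, EReal.coe_le_coe_iff.1 ?_, ?_⟩ <;> rw [h]
  · exact le_max_right _ _
  · exact max_le hx (EReal.coe_le_coe_iff.2 hN)
  · exact le_max_left _ _

theorem loc {J : E → E →L[ℝ] E} {Ω : Set E} (hΩ : IsOpen Ω) (hJ : IsACS J Ω) {u : E → EReal}
    (hu : IsPSH0 J Ω u) {v : E → ℝ} (hv : IsPSH0 J Ω fun x => (v x : EReal))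
    (hb : ∃ B, ∀ x ∈ Ω, |v x| ≤ B) {G : E → E →L[ℝ] ℝ} (hG : IsWeakGrad Ω v G) {μ : Measure E}
    (hμ : IsMA J Ω G μ) {c : E} (hc : c ∈ Ω) : ∃ r : ℝ, 0 < r ∧ ball c r ⊆ Ω ∧
      ((∃ x ∈ ball c r, u x ≠ ⊥) →
        ∫⁻ x in ball c r, (u x).abs ∂μ < ⊤ ∧ ∀ y ∈ ball c r, ∃ᶠ x in 𝓝 y, u x ≠ ⊥) := by
  obtain ⟨M, R, hR, hRΩ, hMJ⟩ := exists_model hΩ hJ hc
  obtain ⟨B, hB⟩ := hb
  have hB0 : 0 ≤ B := (abs_nonneg _).trans (hB c hc)
  obtain ⟨S0, hS0, -⟩ := EReal.lt_iff_exists_real_btwn.1 (lt_top_iff_ne_top.2 (hu.2.1 c hc))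
  have hev := hu.1 c hc _ hS0
  rw [hΩ.nhdsWithin_eq hc] at hev
  obtain ⟨ρ, hρ, hρS⟩ := Metric.eventually_nhds_iff_ball.1 hev
  obtain ⟨S, hS, hSS⟩ : ∃ S : ℝ, 0 ≤ S ∧ S0 ≤ S := ⟨|S0|, abs_nonneg _, le_abs_self _⟩
  obtain ⟨R1, hR1, happ⟩ := approx M
  obtain ⟨r0, hr0, hma⟩ := ma_est M
  obtain ⟨R6, h60, h6R, h6ρ, h61⟩ : ∃ R6 : ℝ, 0 < R6 ∧ R6 ≤ R ∧ R6 ≤ ρ ∧ R6 ≤ R1 :=
    ⟨min R (min ρ R1), by positivity, min_le_left _ _, (min_le_right _ _).trans (min_le_left _ _),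
      (min_le_right _ _).trans (min_le_right _ _)⟩
  obtain ⟨r', hr', hr'R, C', hsub⟩ := submean M (R1 := R6 / 4) (by positivity)
  obtain ⟨r, hr, hrr', hrr0⟩ : ∃ r : ℝ, 0 < r ∧ 11 * r ≤ r' ∧ r ≤ r0 :=
    ⟨min (r' / 11) r0, by positivity, by linarith [min_le_left (r' / 11) r0], min_le_right _ _⟩
  obtain ⟨C, hC⟩ := hma c r (B + 1) hr hrr0
  have b6Ω : ball c R6 ⊆ Ω := (ball_subset_ball h6R).trans hRΩ
  have b6J : ∀ x ∈ ball c R6, M.J x = J x := fun x hx => hMJ x (ball_subset_ball h6R hx)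
  have b26 : ball c (R6 / 2) ⊆ ball c R6 := ball_subset_ball (by linarith)
  have b10 : ball c (10 * r) ⊆ ball c (R6 / 2) := ball_subset_ball (by linarith)
  have b4 : ball c (r / 4) ⊆ ball c (10 * r) := ball_subset_ball (by linarith)
  have huS : ∀ x ∈ ball c R6, u x ≤ (S : EReal) := fun x hx =>
    (hρS x (ball_subset_ball h6ρ hx)).le.trans (EReal.coe_le_coe_iff.2 hSS)
  have hu6 := isPSH0_model M hu b6Ω b6J
  have hv6 := isPSH0_model M hv b6Ω b6J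
  have hN : ∀ N : ℕ, -(N : ℝ) ≤ S := fun N => by linarith [Nat.cast_nonneg (α := ℝ) N]
  choose U hU1 hU2 using fun N : ℕ => happ c (R6 / 2) R6 (N + S) S (trunc u N) (by positivity)
    (by linarith) h61 (trunc_usc hu6.1 hu6.2.1 N) fun x hx => by
      obtain ⟨e1, e2, -⟩ := loc_trunc (huS x hx) (hN N)
      exact ⟨abs_le.2 ⟨by linarith, by linarith [Nat.cast_nonneg (α := ℝ) N]⟩, e2,
        trunc_visc M isOpen_ball hu6 N hx⟩
  have hvt : ∀ x ∈ ball c R6, trunc (fun x => (v x : EReal)) B x = v x := fun x hx => by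
    rw [trunc, max_eq_left (EReal.coe_le_coe_iff.2 (abs_le.1 (hB x (b6Ω hx))).1), EReal.toReal_coe]
  obtain ⟨V, hV1, hV2⟩ := happ c (R6 / 2) R6 B B (trunc (fun x => (v x : EReal)) B)
    (by positivity) (by linarith) h61 (trunc_usc hv6.1 hv6.2.1 B) fun x hx =>
      ⟨by rw [hvt x hx]; exact hB x (b6Ω hx), by rw [hvt x hx]; exact (abs_le.1 (hB x (b6Ω hx))).2,
        trunc_visc M isOpen_ball hv6 B hx⟩
  refine ⟨r / 4, by positivity, b4.trans (b10.trans (b26.trans b6Ω)), fun ⟨x₁, hx₁, hne⟩ => ?_⟩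
  have hd : dist x₁ c < r / 4 := hx₁
  have b1 : ball x₁ (R6 / 4) ⊆ ball c (R6 / 2) := ball_subset_ball' (by linarith)
  have b2 : ball c (10 * r) ⊆ ball x₁ r' := ball_subset_ball' (by rw [dist_comm]; linarith)
  have hx2 : x₁ ∈ ball c (R6 / 2) := b10 (b4 hx₁)
  have hxa : u x₁ = ((u x₁).toReal : EReal) :=
    (EReal.coe_toReal ((huS x₁ (b26 hx2)).trans_lt (EReal.coe_lt_top S)).ne hne).symm
  have hW : ∀ N i, ContDiff ℝ ∞ fun x => U N i x - (S + 1) := fun N i =>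
    (hU1 N i).1.sub contDiff_const
  have hW0 : ∀ N i, ∀ x ∈ ball c (R6 / 2), U N i x - (S + 1) ≤ 0 := fun N i x hx =>
    sub_nonpos.2 ((hU2 N x hx).1 i).2
  have key : ∀ N i, nU c (10 * r) (fun x => U N i x - (S + 1)) ≤
      C' * ENNReal.ofReal (S + 1 - (u x₁).toReal) := fun N i => by
    refine (lintegral_mono_set b2).trans ((hsub x₁ _ (contDiff_infty.1 (hW N i) 2)
      (loc_psh_sub (hU1 N i).2 b1 _) fun y hy => hW0 N i y (b1 hy)).trans ?_)
    refine mul_le_mul_right ?_ _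
    have e1 := (loc_trunc (huS x₁ (b26 hx2)) (hN N)).2.2
    rw [hxa] at e1
    have e2 := EReal.coe_le_coe_iff.1 e1
    rw [Real.enorm_eq_ofReal_abs, abs_of_nonpos (hW0 N i x₁ hx2)]
    exact ENNReal.ofReal_le_ofReal (by linarith [((hU2 N x₁ hx2).1 i).1])
  have hfin : (C' : ℝ≥0∞) * ENNReal.ofReal (S + 1 - (u x₁).toReal) < ⊤ :=
    ENNReal.mul_lt_top ENNReal.coe_lt_top ENNReal.ofReal_lt_top
  have huT : ∀ x ∈ ball c (r / 4), u x ≤ (S : EReal) := fun x hx => huS x (b26 (b10 (b4 hx)))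
  have hlT : ∀ N : ℕ, ∀ x ∈ ball c (r / 4), Tendsto (fun i => U N i x) atTop (𝓝 (trunc u N x)) :=
    fun N x hx => (hU2 N x (b10 (b4 hx))).2
  constructor
  · have hK : closedBall c (r / 4) ⊆ Ω :=
      (closedBall_subset_ball (by linarith)).trans (b10.trans (b26.trans b6Ω))
    refine fatou2 measurableSet_ball ((measure_mono ball_subset_closedBall).trans_lt
      (hμ.1 _ (isCompact_closedBall _ _) hK)) huT (fun N i => (hU1 N i).1.continuous) hlT
      (ENNReal.mul_lt_top (ENNReal.coe_lt_top (r := C)) hfin) fun N i => ?_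
    refine (hC J Ω v G μ V _ hΩ (b10.trans (b26.trans b6Ω)) (fun x hx => b6J x (b26 (b10 hx))) hG hμ
      (fun i => ⟨(hV1 i).1, fun x hx => (hV1 i).2 x (b10 hx)⟩) (fun i x hx => ?_) (fun x hx => ?_)
      (hW N i) (loc_psh_sub (hU1 N i).2 b10 _) fun x hx => hW0 N i x (b10 hx)).trans
      (mul_le_mul_right (key N i) _)
    · obtain ⟨e1, e2⟩ := (hV2 x (b10 hx)).1 i
      rw [hvt x (b26 (b10 hx))] at e1
      exact ⟨e1, abs_le.2 ⟨by linarith [(abs_le.1 (hB x (b6Ω (b26 (b10 hx))))).1], e2⟩⟩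
    · rw [← hvt x (b26 (b10 hx))]
      exact (hV2 x (b10 hx)).2
  · intro y hy
    have h1 : ∫⁻ x in ball c (r / 4), (u x).abs < ⊤ :=
      fatou2 measurableSet_ball measure_ball_lt_top huT (fun N i => (hU1 N i).1.continuous) hlT hfin
        fun N i => (lintegral_mono_set b4).trans (key N i)
    intro hev'
    obtain ⟨O, hO, hOo, hyO⟩ := _root_.eventually_nhds_iff.1 (hev'.and (isOpen_ball.mem_nhds hy))
    have h2 := (lintegral_mono_set (fun x hx => (hO x hx).2 : O ⊆ ball c (r / 4))).trans_lt h1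
    rw [setLIntegral_congr_fun hOo.measurableSet (g := fun _ => ⊤) fun x hx => by
      rw [not_not.1 (hO x hx).1, EReal.abs_bot], setLIntegral_const,
      ENNReal.top_mul (hOo.measure_pos volume ⟨y, hyO⟩).ne'] at h2
    exact lt_irrefl _ h2

end Pool.Agent.Lib.MP_f2cf74_an
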