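import Pool.Agent.Lib.MP_f2cf74_an.ExG1
import Pool.Agent.Lib.MP_f2cf74_an.ExG2
import Pool.Agent.Lib.MP_f2cf74_an.Approx
import Pool.Agent.Lib.MP_f2cf74_an.PVisc
import Pool.Agent.Lib.MP_f2cf74_an.ModE
import Pool.Agent.Lib.MP_f2cf74_an.Loc

open Set Metric MeasureTheory Complex Filter Topology
open scoped ContDiff ENNReal NNReal

noncomputable section

namespace Pool.Agent.Lib.MP_f2cf74_an

/-! Smooth approximation of a bounded psh function near a point, and existence of the weak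
gradient.  `exists_model`, `isPSH0_model`, `trunc_usc`, `trunc_visc` (on `Ω` one has
`trunc v B = v`; use `Visc.congr`), `approx`. -/

theorem approxV {J : E → E →L[ℝ] E} {Ω : Set E} (hΩ : IsOpen Ω) (hJ : IsACS J Ω) {v : E → ℝ}
    (hv : IsPSH0 J Ω fun x => (v x : EReal)) (hb : ∃ B, ∀ x ∈ Ω, |v x| ≤ B) {c : E} (hc : c ∈ Ω) :
    ∃ (M : Model) (R B : ℝ) (V : ℕ → E → ℝ), 0 < R ∧ ball c R ⊆ Ω ∧
      (∀ x ∈ ball c R, M.J x = J x) ∧
      (∀ i, ContDiff ℝ ∞ (V i) ∧ Psh M.J (V i) (ball c R)) ∧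
      (∀ i, ∀ x ∈ ball c R, v x ≤ V i x ∧ |V i x| ≤ B) ∧
      ∀ x ∈ ball c R, Tendsto (fun i => V i x) atTop (𝓝 (v x)) := by
  obtain ⟨B, hB⟩ := hb
  obtain ⟨M, R, hR, hRΩ, hM⟩ := exists_model hΩ hJ hc
  obtain ⟨R1, hR1, H⟩ := approx M
  have hsub : ball c (min R R1) ⊆ ball c R := ball_subset_ball (min_le_left _ _)
  have hpos : 0 < min R R1 := lt_min hR hR1
  have hsub2 : ball c (min R R1 / 2) ⊆ ball c (min R R1) := ball_subset_ball (by linarith)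
  have h0 := isPSH0_model M hv hRΩ hM
  have ht : ∀ x ∈ Ω, trunc (fun x => (v x : EReal)) B x = v x := fun x hx => by
    rw [trunc, max_eq_left (EReal.coe_le_coe_iff.2 (abs_le.1 (hB x hx)).1), EReal.toReal_coe]
  obtain ⟨U, h1, h2⟩ := H c (min R R1 / 2) (min R R1) B B (trunc (fun x => (v x : EReal)) B)
    (by linarith) (by linarith) (min_le_right _ _) ((trunc_usc h0.1 h0.2.1 B).mono hsub)
    fun x hx => by
      have hx' := hRΩ (hsub hx)
      refine ⟨?_, ?_, trunc_visc M isOpen_ball h0 B (hsub hx)⟩ <;> rw [ht x hx']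
      exacts [hB x hx', (abs_le.1 (hB x hx')).2]
  refine ⟨M, min R R1 / 2, B + 1, U, by linarith, (hsub2.trans hsub).trans hRΩ,
    fun x hx => hM x (hsub (hsub2 hx)), h1, fun i x hx => ?_, fun x hx => ?_⟩
  · have hx' := hRΩ (hsub (hsub2 hx))
    obtain ⟨h3, h4⟩ := (h2 x hx).1 i
    rw [ht x hx'] at h3
    exact ⟨h3, abs_le.2 ⟨by linarith [(abs_le.1 (hB x hx')).1], h4⟩⟩
  · rw [← ht x (hRΩ (hsub (hsub2 hx)))]
    exact (h2 x hx).2

theorem exG {J : E → E →L[ℝ] E} {Ω : Set E} (hΩ : IsOpen Ω) (hJ : IsACS J Ω) {v : E → ℝ}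
    (hv : IsPSH0 J Ω fun x => (v x : EReal)) (hb : ∃ B, ∀ x ∈ Ω, |v x| ≤ B) :
    ∃ G, IsWeakGrad Ω v G := by
  refine weak_glue hΩ fun c hc => ?_
  obtain ⟨M, R, B, V, hR, hRΩ, -, h1, h2, h3⟩ := approxV hΩ hJ hv hb hc
  exact ⟨R / 2, half_pos hR, (ball_subset_ball (half_le_self hR.le)).trans hRΩ,
    exG_loc M (half_pos hR) (half_lt_self hR)
      (fun i => ⟨(h1 i).1.of_le (WithTop.coe_le_coe.2 (le_top : (3 : ℕ∞) ≤ ⊤)), (h1 i).2⟩)
      (fun i x hx => (h2 i x hx).2) h3⟩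

end Pool.Agent.Lib.MP_f2cf74_an
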