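import Pool.Agent.Lib.MP_f2cf74_an.KF1

open Set Metric MeasureTheory Complex Filter Topology
open scoped ContDiff ENNReal NNReal

noncomputable section

namespace Pool.Agent.Lib.MP_f2cf74_an

/-! One-variable calculus of the barrier profile `barf R τ = τ⁻¹ (1 - √τ / R)₊³`.  With `r = √τ`,
`t = (1 - r/R)₊`, `φ r = r⁻² t³`: `φ' = -2 r⁻³ t³ - 3 r⁻² t² / R`,
`φ'' = 6 r⁻⁴ t³ + 12 r⁻³ t² / R + 6 r⁻² t / R²`, `f1 = φ' / (2 r)`, `f2 = (r φ'' - φ') / (4 r³)`,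
`τ f2 + 2 f1 = (3 r⁻³ t² / R + 6 r⁻² t / R²) / 4`.  Use `hasDerivAt_cut`, `hasDerivAt_max_sq`,
`Real.hasDerivAt_sqrt`. -/

def barA_g0 (R r : ℝ) : ℝ := r⁻¹ ^ 2 * max (1 - r / R) 0 ^ 3

def barA_g1 (R r : ℝ) : ℝ :=
  -(r⁻¹ ^ 4 * max (1 - r / R) 0 ^ 3 + 3 / 2 * R⁻¹ * (r⁻¹ ^ 3 * max (1 - r / R) 0 ^ 2))

def barA_g2 (R r : ℝ) : ℝ :=
  2 * r⁻¹ ^ 6 * max (1 - r / R) 0 ^ 3 + 15 / 4 * R⁻¹ * r⁻¹ ^ 5 * max (1 - r / R) 0 ^ 2 +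
    3 / 2 * R⁻¹ ^ 2 * r⁻¹ ^ 4 * max (1 - r / R) 0

theorem barA_d0 (R : ℝ) {r : ℝ} (hr : r ≠ 0) : HasDerivAt (barA_g0 R) (2 * r * barA_g1 R r) r := by
  have h1 := (hasDerivAt_cut (r / R)).comp r ((hasDerivAt_id r).div_const R)
  have h2 := ((hasDerivAt_inv hr).pow 2).mul h1
  refine (h2.congr_deriv ?_ : HasDerivAt _ _ r)
  simp only [Function.comp, cut, barA_g1, id, Pi.pow_apply]
  generalize max (1 - r / R) 0 = t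
  simp only [div_eq_mul_inv]
  generalize R⁻¹ = v
  norm_num
  field_simp
  ring

theorem barA_d1 (R : ℝ) {r : ℝ} (hr : r ≠ 0) : HasDerivAt (barA_g1 R) (2 * r * barA_g2 R r) r := by
  have h1 := (hasDerivAt_cut (r / R)).comp r ((hasDerivAt_id r).div_const R)
  have h1' := (hasDerivAt_max_sq (r / R)).comp r ((hasDerivAt_id r).div_const R)
  have h2 := ((((hasDerivAt_inv hr).pow 4).mul h1).add
    ((((hasDerivAt_inv hr).pow 3).mul h1').const_mul (3 / 2 * R⁻¹))).neg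
  refine (h2.congr_deriv ?_ : HasDerivAt _ _ r)
  simp only [Function.comp, cut, barA_g2, id, Pi.pow_apply]
  generalize max (1 - r / R) 0 = t
  simp only [div_eq_mul_inv]
  generalize R⁻¹ = v
  norm_num
  field_simp
  ring

theorem barA_sqrt {g g' : ℝ → ℝ} (h : ∀ r, r ≠ 0 → HasDerivAt g (2 * r * g' r) r) {τ : ℝ}
    (hτ : 0 < τ) : HasDerivAt (fun τ => g √τ) (g' √τ) τ := by
  have h0 : √τ ≠ 0 := (Real.sqrt_pos.2 hτ).ne'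
  refine ((h _ h0).comp τ (Real.hasDerivAt_sqrt hτ.ne')).congr_deriv ?_
  field_simp

theorem barA_eq (R : ℝ) {τ : ℝ} (hτ : 0 ≤ τ) : barf R τ = barA_g0 R √τ := by
  rw [barf, barA_g0, inv_pow, Real.sq_sqrt hτ]

theorem barA_ineq {u v t : ℝ} (hv : 1 ≤ v) (hu : v ≤ u) (t0 : 0 ≤ t) (t1 : t ≤ 1) :
    u ^ 2 * t ^ 3 ≤ 8 * u ^ 2 ∧ u ^ 4 * t ^ 3 + 3 / 2 * v * (u ^ 3 * t ^ 2) ≤ 8 * u ^ 4 ∧
    2 * u ^ 6 * t ^ 3 + 15 / 4 * v * u ^ 5 * t ^ 2 + 3 / 2 * v ^ 2 * u ^ 4 * t ≤ 8 * u ^ 6 ∧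
    3 * (u ^ 3 * t ^ 3) + 21 / 4 * (v * u ^ 2 * t ^ 2) + 3 / 2 * (v ^ 2 * u * t) + u ^ 2 * t ^ 3 ≤
      6 * (u ^ 3 * t ^ 2) + 12 * (v * u ^ 2 * t) ∧
    3 / 4 * (v * u ^ 3 * t ^ 2) + 3 / 2 * (v ^ 2 * u ^ 2 * t) ≤ 8 * v * u ^ 3 := by
  have v0 : 0 ≤ v := by linarith
  have u1 : 1 ≤ u := hv.trans hu
  have u0 : 0 ≤ u := by linarith
  have t2 : t ^ 2 ≤ t := by nlinarith
  have t3 : t ^ 3 ≤ t ^ 2 := by nlinarith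
  have t2' : t ^ 2 ≤ 1 := t2.trans t1
  have t3' : t ^ 3 ≤ 1 := t3.trans t2'
  refine ⟨?_, ?_, ?_, ?_, ?_⟩
  · have : u ^ 2 * t ^ 3 ≤ u ^ 2 * 1 := by gcongr
    nlinarith [sq_nonneg u]
  · have a1 : u ^ 4 * t ^ 3 ≤ u ^ 4 * 1 := by gcongr
    have a2 : v * (u ^ 3 * t ^ 2) ≤ u * (u ^ 3 * 1) := by gcongr
    nlinarith [pow_nonneg u0 4]
  · have a1 : u ^ 6 * t ^ 3 ≤ u ^ 6 * 1 := by gcongr
    have a2 : v * u ^ 5 * t ^ 2 ≤ u * u ^ 5 * 1 := by gcongr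
    have a3 : v ^ 2 * u ^ 4 * t ≤ u ^ 2 * u ^ 4 * 1 := by gcongr
    nlinarith [pow_nonneg u0 6]
  · have a1 : u ^ 3 * t ^ 3 ≤ u ^ 3 * t ^ 2 := by gcongr
    have a2 : v * u ^ 2 * t ^ 2 ≤ v * u ^ 2 * t := by gcongr
    have a3 : v * v * u * t ≤ v * u * u * t := by gcongr
    have a4 : u ^ 2 * 1 * t ^ 3 ≤ u ^ 2 * u * t ^ 2 := by gcongr
    have a5 : 0 ≤ u ^ 3 * t ^ 2 := by positivity
    have a6 : 0 ≤ v * u ^ 2 * t := by positivity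
    nlinarith
  · have a1 : v * u ^ 3 * t ^ 2 ≤ v * u ^ 3 * 1 := by gcongr
    have a3 : v * v * u ^ 2 * t ≤ v * u * u ^ 2 * 1 := by gcongr
    have a6 : 0 ≤ v * u ^ 3 := by positivity
    nlinarith

theorem barf_facts : ∃ C : ℝ, 0 ≤ C ∧ ∀ R : ℝ, 0 < R → R ≤ 1 → ∃ f1 f2 : ℝ → ℝ,
    (∀ τ, 0 < τ → HasDerivAt (barf R) (f1 τ) τ) ∧ (∀ τ, 0 < τ → HasDerivAt f1 (f2 τ) τ) ∧
    (∀ τ, 0 ≤ τ → 0 ≤ barf R τ) ∧
    (∀ r, R ≤ r → barf R (r ^ 2) = 0 ∧ f1 (r ^ 2) = 0 ∧ f2 (r ^ 2) = 0) ∧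
    (∀ r, 0 < r → |barf R (r ^ 2)| ≤ C * r⁻¹ ^ 2 ∧ |f1 (r ^ 2)| ≤ C * r⁻¹ ^ 4 ∧
      |f2 (r ^ 2)| ≤ C * r⁻¹ ^ 6 ∧
      r ^ 3 * |f2 (r ^ 2)| + r * |f1 (r ^ 2)| + |barf R (r ^ 2)| ≤
        C * R * (r ^ 2 * f2 (r ^ 2) + 2 * f1 (r ^ 2)) ∧
      r ^ 2 * f2 (r ^ 2) + 2 * f1 (r ^ 2) ≤ C * R⁻¹ * r⁻¹ ^ 3) ∧
    ∀ r, 0 < r → r ≤ R / 2 → r⁻¹ ^ 2 / 8 ≤ barf R (r ^ 2) ∧
      1 ≤ r ^ 2 * f2 (r ^ 2) + 2 * f1 (r ^ 2) := by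
  refine ⟨8, by norm_num, fun R hR hR1 => ⟨fun τ => barA_g1 R √τ, fun τ => barA_g2 R √τ,
    fun τ hτ => ?_, fun τ hτ => barA_sqrt (fun r hr => barA_d1 R hr) hτ, fun τ hτ => ?_,
    fun r hr => ?_, fun r hr => ?_, fun r hr hr' => ?_⟩⟩
  · refine (barA_sqrt (fun r hr => barA_d0 R hr) hτ).congr_of_eventuallyEq ?_
    filter_upwards [lt_mem_nhds hτ] with x hx using barA_eq R hx.le
  · unfold barf
    positivity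
  · have h : max (1 - r / R) 0 = 0 := max_eq_right (by rw [sub_nonpos, one_le_div hR]; exact hr)
    simp [barA_eq R (sq_nonneg r), Real.sqrt_sq (hR.le.trans hr), barA_g0, barA_g1, barA_g2, h]
  all_goals
    simp only [barA_eq R (sq_nonneg r), Real.sqrt_sq hr.le, barA_g0, barA_g1, barA_g2]
    have hv : 1 ≤ R⁻¹ := (one_le_inv₀ hR).2 hR1
    have t0 : 0 ≤ max (1 - r / R) 0 := le_max_right _ _
    have t1 : max (1 - r / R) 0 ≤ 1 := max_le (by linarith [div_pos hr hR]) zero_le_one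
    have e : ∀ t : ℝ, r ^ 2 * (2 * r⁻¹ ^ 6 * t ^ 3 + 15 / 4 * R⁻¹ * r⁻¹ ^ 5 * t ^ 2 +
        3 / 2 * R⁻¹ ^ 2 * r⁻¹ ^ 4 * t) + 2 * -(r⁻¹ ^ 4 * t ^ 3 + 3 / 2 * R⁻¹ * (r⁻¹ ^ 3 * t ^ 2)) =
        3 / 4 * (R⁻¹ * r⁻¹ ^ 3 * t ^ 2) + 3 / 2 * (R⁻¹ ^ 2 * r⁻¹ ^ 2 * t) := fun t => by
      field_simp
      ring
    rw [e]
  · rcases le_total R r with h | h
    · have h : max (1 - r / R) 0 = 0 := max_eq_right (by rw [sub_nonpos, one_le_div hR]; exact h)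
      simp only [h]
      norm_num
      refine ⟨?_, ?_, ?_, ?_⟩ <;> positivity
    · obtain ⟨a1, a2, a3, a4, a5⟩ := barA_ineq hv (inv_anti₀ hr h) t0 t1
      generalize max (1 - r / R) 0 = t at *
      rw [abs_neg, abs_of_nonneg (by positivity), abs_of_nonneg (by positivity),
        abs_of_nonneg (by positivity)]
      refine ⟨a1, a2, a3, le_of_eq_of_le ?_ (a4.trans_eq ?_), a5⟩
      · field_simp
        ring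
      · field_simp
        ring
  · have t2 : 1 / 2 ≤ max (1 - r / R) 0 := le_max_of_le_left (by
      have : r / R ≤ 1 / 2 := by rw [div_le_iff₀ hR]; linarith
      linarith)
    have hu : R⁻¹ ≤ r⁻¹ := inv_anti₀ hr (by linarith)
    have hu2 : 2 ≤ r⁻¹ := by
      rw [le_inv_comm₀ two_pos hr]
      linarith
    generalize max (1 - r / R) 0 = t at *
    generalize R⁻¹ = v at *
    generalize r⁻¹ = u at *
    have a1 : u ^ 2 * (1 / 2) ^ 3 ≤ u ^ 2 * t ^ 3 := by gcongr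
    have a2 : 1 ^ 2 * 2 ^ 2 * (1 / 2) ≤ v ^ 2 * u ^ 2 * t := by gcongr
    have a3 : 0 ≤ v * u ^ 3 * t ^ 2 := by positivity
    constructor <;> linarith

end Pool.Agent.Lib.MP_f2cf74_an
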