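import Pool.Agent.Lib.MP_f2cf74_an.KF1
import Pool.Agent.Lib.MP_f2cf74_an.ModB

open Set Metric MeasureTheory Complex Filter Topology
open scoped ContDiff ENNReal NNReal

noncomputable section

namespace Pool.Agent.Lib.MP_f2cf74_an

/-! `Pstar` of a radial function `Φ y = f (τ y)`, `τ y = ‖A x (y - x)‖²`.  With `ζ = A x (y - x)`:
`Dτ y U = 2 re ⟪ζ, A x U⟫`, `D²τ y U V = 2 re ⟪A x U, A x V⟫`; `X_j τ = 2 re ζ_j`,
`Y_j τ = 2 im ζ_j + O(r²)` (`lipJ`), `X_j X_j τ = 2`, `Y_j Y_j τ = 2 + O(r)`; expand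
`adj V (adj V Φ) = V V Φ + 2 (divg V) V Φ + (V (divg V) + (divg V)²) Φ` and use `vf_bound`. -/

/-- The Hessian of `‖A ·‖²`. -/
def barcB (A : E →L[ℝ] F) : E →L[ℝ] E →L[ℝ] ℝ := (2 : ℝ) • (innerSL ℝ (E := F)).bilinearComp A A

theorem barcB_apply (A : E →L[ℝ] F) (U V : E) : barcB A U V = 2 * inner ℝ (A U) (A V) := by
  simp [barcB]

theorem barc_tau (A : E →L[ℝ] F) (x y : E) :
    HasFDerivAt (fun y => ‖A (y - x)‖ ^ 2) (barcB A (y - x)) y := by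
  have h := (A.hasFDerivAt.comp y ((hasFDerivAt_id y).sub_const x)).norm_sq
  refine h.congr_fderiv ?_
  ext U
  simp [barcB_apply, mul_sub]

theorem barc_re (z : F) (j : Fin 2) : inner ℝ z (ee j) = (z j).re := by
  fin_cases j <;> simp [ee, PiLp.inner_apply]

theorem barc_im (z : F) (j : Fin 2) : inner ℝ z (I • ee j) = (z j).im := by
  fin_cases j <;> simp [ee, PiLp.inner_apply]

theorem barc_ee (j : Fin 2) : ‖ee j‖ = 1 := by simp [ee]

theorem barc_sq (z : F) : ∑ j, ((z j).re ^ 2 + (z j).im ^ 2) = ‖z‖ ^ 2 := by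
  rw [EuclideanSpace.norm_sq_eq]
  exact Finset.sum_congr rfl fun j _ => by rw [Complex.sq_norm, Complex.normSq_apply]; ring

theorem barc_abs (A : E →L[ℝ] F) (U V : E) : |barcB A U V| ≤ 2 * (‖A U‖ * ‖A V‖) := by
  rw [barcB_apply, abs_mul, abs_two]
  exact mul_le_mul_of_nonneg_left (abs_real_inner_le_norm _ _) zero_le_two

theorem barc_norm1 (M : Model) (x U : E) : ‖barcB (M.A x) U‖ ≤ 2 * M.K * ‖M.A x U‖ := by
  have := M.K_pos
  refine ContinuousLinearMap.opNorm_le_bound _ (by positivity) fun V => ?_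
  refine (barc_abs _ U V).trans ?_
  calc 2 * (‖M.A x U‖ * ‖M.A x V‖) ≤ 2 * (‖M.A x U‖ * (M.K * ‖V‖)) := by
        gcongr
        exact M.norm_A x V
    _ = _ := by ring

theorem barc_norm2 (M : Model) (x : E) : ‖barcB (M.A x)‖ ≤ 2 * M.K * M.K := by
  have := M.K_pos
  refine ContinuousLinearMap.opNorm_le_bound _ (by positivity) fun U => ?_
  refine (barc_norm1 M x U).trans ?_
  rw [mul_assoc (2 * M.K)]
  gcongr
  exact M.norm_A x U

theorem barc_der (M : Model) (x y : E) {f f1 f2 : ℝ → ℝ} (hy : y ≠ x)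
    (h1 : ∀ τ, 0 < τ → HasDerivAt f (f1 τ) τ) (h2 : ∀ τ, 0 < τ → HasDerivAt f1 (f2 τ) τ) :
    HasFDerivAt (fun y => f (‖M.A x (y - x)‖ ^ 2))
      (f1 (‖M.A x (y - x)‖ ^ 2) • barcB (M.A x) (y - x)) y ∧
    HasFDerivAt (fderiv ℝ fun y => f (‖M.A x (y - x)‖ ^ 2))
      (f1 (‖M.A x (y - x)‖ ^ 2) • barcB (M.A x) +
        (f2 (‖M.A x (y - x)‖ ^ 2) • barcB (M.A x) (y - x)).smulRight (barcB (M.A x) (y - x))) y := by
  have hp : ∀ z, z ≠ x → 0 < ‖M.A x (z - x)‖ ^ 2 := fun z hz => by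
    have h3 := (norm_pos_iff.2 (sub_ne_zero.2 hz)).trans_le (M.low x (z - x))
    exact pow_pos ((mul_pos_iff_of_pos_left M.K_pos).1 h3) 2
  have h3 : ∀ z, z ≠ x → HasFDerivAt (fun y => f (‖M.A x (y - x)‖ ^ 2))
      (f1 (‖M.A x (z - x)‖ ^ 2) • barcB (M.A x) (z - x)) z := fun z hz =>
    (h1 _ (hp z hz)).comp_hasFDerivAt z (barc_tau (M.A x) x z)
  refine ⟨h3 y hy, ?_⟩
  have h4 : HasFDerivAt (fun z => f1 (‖M.A x (z - x)‖ ^ 2))
      (f2 (‖M.A x (y - x)‖ ^ 2) • barcB (M.A x) (y - x)) y :=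
    (h2 _ (hp y hy)).comp_hasFDerivAt y (barc_tau (M.A x) x y)
  have h5 : HasFDerivAt (fun z => barcB (M.A x) (z - x)) (barcB (M.A x)) y :=
    ((barcB (M.A x)).hasFDerivAt.comp y ((hasFDerivAt_id y).sub_const x)).congr_fderiv
      (ContinuousLinearMap.comp_id _)
  refine (h4.smul h5).congr_of_eventuallyEq ?_
  filter_upwards [isOpen_ne.mem_nhds hy] with z hz
  exact (h3 z hz).fderiv

theorem barc_adj {V : E → E} {Φ : E → ℝ} {y : E} (hV : ContDiff ℝ ∞ V)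
    (h1 : DifferentiableAt ℝ Φ y) (h2 : DifferentiableAt ℝ (fderiv ℝ Φ) y) :
    adj V (adj V Φ) y = fderiv ℝ (fderiv ℝ Φ) y (V y) (V y) + fderiv ℝ Φ y (fderiv ℝ V y (V y)) +
      2 * divg V y * fderiv ℝ Φ y (V y) + (fderiv ℝ (divg V) y (V y) + divg V y ^ 2) * Φ y := by
  have h3 := (hV.differentiable (by simp) y).hasFDerivAt
  have h4 := ((contDiff_divg hV).differentiable (by simp) y).hasFDerivAt
  have h5 : HasFDerivAt (adj V Φ) _ y :=
    (h2.hasFDerivAt.clm_apply h3).add (h4.mul h1.hasFDerivAt)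
  rw [adj, VD, h5.fderiv]
  simp [adj, VD]
  ring

theorem barc_mul {a b A B : ℝ} (ha : |a| ≤ A) (hb : |b| ≤ B) : |a * b| ≤ A * B := by
  rw [abs_mul]
  exact mul_le_mul ha hb (abs_nonneg _) ((abs_nonneg _).trans ha)

theorem barc_app {g : E →L[ℝ] ℝ} {U : E} {A B : ℝ} (ha : ‖g‖ ≤ A) (hb : ‖U‖ ≤ B) :
    |g U| ≤ A * B :=
  (g.le_opNorm U).trans (mul_le_mul ha hb (norm_nonneg _) ((norm_nonneg _).trans ha))

/-- The second field of the frame at a nearby point. -/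
theorem barc_Y (M : Model) (x y : E) (j : Fin 2) (hr : ‖M.A x (y - x)‖ ≤ 1) :
    |barcB (M.A x) (vY M j y) (vY M j y) - 2| ≤
      2 * (M.K ^ 4 * (2 + M.K ^ 4)) * ‖M.A x (y - x)‖ ∧
    |barcB (M.A x) (y - x) (vY M j y) ^ 2 - 4 * (M.A x (y - x) j).im ^ 2| ≤
      4 * (M.K ^ 4 * (2 + M.K ^ 4)) * ‖M.A x (y - x)‖ ^ 3 := by
  have hK := M.K_pos
  obtain ⟨w, hw, hw'⟩ : ∃ w, M.A x (vY M j y) = I • ee j + w ∧
      ‖w‖ ≤ M.K ^ 4 * ‖M.A x (y - x)‖ := by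
    refine ⟨M.A x ((M.J y - M.J x) (M.X j)), ?_, (M.norm_A x _).trans ?_⟩
    · rw [← M.AX x j, ← M.AJ, ← map_add]
      simp [vY]
    · calc M.K * ‖(M.J y - M.J x) (M.X j)‖ ≤ M.K * (‖M.J y - M.J x‖ * ‖M.X j‖) := by
            gcongr
            exact ContinuousLinearMap.le_opNorm _ _
        _ ≤ M.K * (M.K * (M.K * ‖M.A x (y - x)‖) * M.K) := by
            gcongr
            · exact (M.lipJ y x).trans (mul_le_mul_of_nonneg_left (M.low x _) hK.le)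
            · exact M.bX j
        _ = _ := by ring
  rw [barcB_apply, barcB_apply, hw]
  generalize M.A x (y - x) = ζ at *
  generalize hL : M.K ^ 4 = L at *
  have hL0 : 0 ≤ L := hL ▸ by positivity
  have hu : ‖(I • ee j : F)‖ = 1 := by rw [norm_smul, barc_ee, norm_I, one_mul]
  have h0 := norm_nonneg ζ
  have h1 : L * ‖ζ‖ ≤ L := mul_le_of_le_one_right hL0 hr
  constructor
  · rw [real_inner_self_eq_norm_sq, norm_add_sq_real, hu]
    have h2 := abs_real_inner_le_norm (I • ee j : F) w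
    rw [hu, one_mul] at h2
    have h3 : ‖w‖ ^ 2 ≤ L * ‖ζ‖ * L := by
      rw [sq]
      exact mul_le_mul hw' (hw'.trans h1) (norm_nonneg _) (by positivity)
    have h4 := abs_le.1 (h2.trans hw')
    rw [abs_le]
    constructor <;> nlinarith [sq_nonneg ‖w‖, mul_nonneg (mul_nonneg hL0 h0) hL0]
  · rw [inner_add_right, barc_im]
    have h2 : |inner ℝ ζ w| ≤ ‖ζ‖ * (L * ‖ζ‖) :=
      (abs_real_inner_le_norm ζ w).trans (mul_le_mul_of_nonneg_left hw' h0)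
    have h3 : |(ζ j).im| ≤ ‖ζ‖ := (abs_im_le_norm _).trans (PiLp.norm_apply_le ζ j)
    have h4 : |2 * (ζ j).im + inner ℝ ζ w| ≤ ‖ζ‖ * (2 + L) := by
      refine (abs_add_le _ _).trans ?_
      rw [abs_mul, abs_two]
      nlinarith [mul_le_mul_of_nonneg_left h1 h0]
    have h5 := barc_mul h2 h4
    have e : (2 * ((ζ j).im + inner ℝ ζ w)) ^ 2 - 4 * (ζ j).im ^ 2 =
        4 * (inner ℝ ζ w * (2 * (ζ j).im + inner ℝ ζ w)) := by ring
    rw [e, abs_mul, abs_of_pos four_pos]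
    exact (mul_le_mul_of_nonneg_left h5 zero_le_four).trans (le_of_eq (by ring))

theorem radial_facts (M : Model) : ∃ C : ℝ, 0 ≤ C ∧ ∀ (x y : E) (f f1 f2 : ℝ → ℝ), y ≠ x →
    ‖M.A x (y - x)‖ ≤ 1 → (∀ τ, 0 < τ → HasDerivAt f (f1 τ) τ) →
    (∀ τ, 0 < τ → HasDerivAt f1 (f2 τ) τ) →
    ‖fderiv ℝ (fun y => f (‖M.A x (y - x)‖ ^ 2)) y‖ ≤
      C * (‖M.A x (y - x)‖ * |f1 (‖M.A x (y - x)‖ ^ 2)|) ∧
    ‖fderiv ℝ (fderiv ℝ fun y => f (‖M.A x (y - x)‖ ^ 2)) y‖ ≤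
      C * (‖M.A x (y - x)‖ ^ 2 * |f2 (‖M.A x (y - x)‖ ^ 2)| + |f1 (‖M.A x (y - x)‖ ^ 2)|) ∧
    |Pstar M (fun y => f (‖M.A x (y - x)‖ ^ 2)) y -
      (‖M.A x (y - x)‖ ^ 2 * f2 (‖M.A x (y - x)‖ ^ 2) + 2 * f1 (‖M.A x (y - x)‖ ^ 2))| ≤
      C * (‖M.A x (y - x)‖ ^ 3 * |f2 (‖M.A x (y - x)‖ ^ 2)| +
        ‖M.A x (y - x)‖ * |f1 (‖M.A x (y - x)‖ ^ 2)| + |f (‖M.A x (y - x)‖ ^ 2)|) := by
  obtain ⟨c, hc, hv⟩ := M.vf_bound
  have hK := M.K_pos
  have hK1 := M.one_le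
  obtain ⟨N, hN⟩ : ∃ N, N = M.K ^ 4 * (2 + M.K ^ 4) := ⟨_, rfl⟩
  have hN0 : 0 ≤ N := hN ▸ by positivity
  refine ⟨4 * M.K * M.K + 4 * N + 2 * M.K * (3 * c * c + c) + (2 * c * c + c), by positivity,
    fun x y f f1 f2 hy hr h1 h2 => ?_⟩
  obtain ⟨d1, d2⟩ := barc_der M x y hy h1 h2
  have hY := fun j => barc_Y M x y j hr
  have hs := barc_sq (M.A x (y - x))
  have n1 := barc_norm1 M x (y - x)
  have n2 := barc_norm2 M x
  have hX1 : ∀ j, barcB (M.A x) (M.X j) (M.X j) = 2 := fun j => by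
    rw [barcB_apply, M.AX, real_inner_self_eq_norm_sq, barc_ee]
    norm_num
  have hX2 : ∀ j, barcB (M.A x) (y - x) (M.X j) = 2 * (M.A x (y - x) j).re := fun j => by
    rw [barcB_apply, M.AX, barc_re]
  have a1 := fun j => barc_adj (V := vX M j) contDiff_const d1.differentiableAt d2.differentiableAt
  have a2 := fun j => barc_adj (M.contDiff_vY j) d1.differentiableAt d2.differentiableAt
  have e1 := d1.fderiv
  have e2 := d2.fderiv
  have e0 : (fun y => f (‖M.A x (y - x)‖ ^ 2)) y = f (‖M.A x (y - x)‖ ^ 2) := rfl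
  generalize (fun y => f (‖M.A x (y - x)‖ ^ 2)) = Φ at *
  rw [← hN] at hY
  generalize M.A x (y - x) = ζ at *
  generalize f (‖ζ‖ ^ 2) = p0 at *
  generalize f1 (‖ζ‖ ^ 2) = p1 at *
  generalize f2 (‖ζ‖ ^ 2) = p2 at *
  have h0 := norm_nonneg ζ
  have b1 : ‖fderiv ℝ Φ y‖ ≤ 2 * M.K * (‖ζ‖ * |p1|) := by
    rw [e1, norm_smul, Real.norm_eq_abs]
    exact (mul_le_mul_of_nonneg_left n1 (abs_nonneg _)).trans (le_of_eq (by ring))
  have c0 : 0 ≤ 4 * N + 2 * M.K * (3 * c * c + c) + (2 * c * c + c) := by positivity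
  refine ⟨b1.trans (mul_le_mul_of_nonneg_right (by nlinarith) (by positivity)), ?_, ?_⟩
  · rw [e2]
    refine (ContinuousLinearMap.opNorm_add_le _ _).trans ?_
    rw [ContinuousLinearMap.norm_smulRight_apply, norm_smul p2, Real.norm_eq_abs]
    calc ‖p1 • barcB (M.A x)‖ + |p2| * ‖barcB (M.A x) (y - x)‖ * ‖barcB (M.A x) (y - x)‖
        ≤ |p1| * (4 * M.K * M.K) + |p2| * (2 * M.K * ‖ζ‖) * (2 * M.K * ‖ζ‖) := by
          refine add_le_add ((ContinuousLinearMap.opNorm_smul_le _ _).trans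
            (mul_le_mul_of_nonneg_left (by nlinarith) (abs_nonneg _))) ?_
          gcongr
      _ = 4 * M.K * M.K * (‖ζ‖ ^ 2 * |p2| + |p1|) := by ring
      _ ≤ _ := mul_le_mul_of_nonneg_right (by linarith) (by positivity)
  have key : ∀ j, |adj (vX M j) (adj (vX M j) Φ) y + adj (vY M j) (adj (vY M j) Φ) y -
      adj (vB M j) Φ y - (4 * ((ζ j).re ^ 2 + (ζ j).im ^ 2) * p2 + 4 * p1)| ≤
      4 * N * (‖ζ‖ ^ 3 * |p2|) + (2 * N + 2 * M.K * (3 * c * c + c)) * (‖ζ‖ * |p1|) +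
        (2 * c * c + c) * |p0| := by
    intro j
    obtain ⟨v1, v2, v3, v4, v5, v6⟩ := hv j y
    have z1 : fderiv ℝ (vX M j) y = 0 := fderiv_const_apply _
    have z2 : divg (vX M j) = fun _ => 0 := funext (divg_vX M j)
    have z3 : adj (vX M j) (adj (vX M j) Φ) y = p1 * 2 + p2 * (2 * (ζ j).re) ^ 2 := by
      rw [a1, z1, z2, e2]
      simp only [vX, add_apply, smul_apply, ContinuousLinearMap.smulRight_apply, smul_eq_mul,
        zero_apply, map_zero, fderiv_fun_const, Pi.zero_apply, hX1, hX2]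
      ring
    have z4 : fderiv ℝ (fderiv ℝ Φ) y (vY M j y) (vY M j y) =
        p1 * barcB (M.A x) (vY M j y) (vY M j y) +
          p2 * barcB (M.A x) (y - x) (vY M j y) ^ 2 := by
      rw [e2]
      simp only [add_apply, smul_apply, ContinuousLinearMap.smulRight_apply, smul_eq_mul]
      ring
    have t1 := abs_le.1 (barc_mul (le_refl |p1|) (hY j).1)
    have t2 := abs_le.1 (barc_mul (le_refl |p2|) (hY j).2)
    have t3 := abs_le.1 (barc_app b1 (((fderiv ℝ (vY M j) y).le_opNorm (vY M j y)).trans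
      (mul_le_mul v3 v1 (norm_nonneg _) hc)))
    have t4 := abs_le.1 (barc_mul v4 (barc_app b1 v1))
    have t5 := abs_le.1 (barc_mul (barc_app v6 v1) (le_refl |p0|))
    have t6 := abs_le.1 (barc_mul (barc_mul v4 v4) (le_refl |p0|))
    have t7 := abs_le.1 (barc_app b1 v2)
    have t8 := abs_le.1 (barc_mul v5 (le_refl |p0|))
    rw [z3, a2, z4, adj, VD, e0, abs_le]
    constructor <;> linarith [t1.1, t1.2, t2.1, t2.2, t3.1, t3.2, t4.1, t4.2, t5.1, t5.2, t6.1,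
      t6.2, t7.1, t7.2, t8.1, t8.2]
  have k0 := abs_le.1 (key 0)
  have k1 := abs_le.1 (key 1)
  rw [Fin.sum_univ_two] at hs
  have q1 : 0 ≤ ‖ζ‖ ^ 3 * |p2| := by positivity
  have q2 : 0 ≤ ‖ζ‖ * |p1| := by positivity
  have q3 : 0 ≤ |p0| := abs_nonneg _
  have q4 : 4 * N * (‖ζ‖ ^ 3 * |p2|) + (2 * N + 2 * M.K * (3 * c * c + c)) * (‖ζ‖ * |p1|) +
      (2 * c * c + c) * |p0| ≤
      (4 * M.K * M.K + 4 * N + 2 * M.K * (3 * c * c + c) + (2 * c * c + c)) *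
        (‖ζ‖ ^ 3 * |p2| + ‖ζ‖ * |p1| + |p0|) := by
    have r1 : 0 ≤ 4 * M.K * M.K := by positivity
    have r2 : 0 ≤ 2 * M.K * (3 * c * c + c) := by positivity
    have r3 : 0 ≤ 2 * c * c + c := by positivity
    rw [mul_add _ (_ + _), mul_add _ (‖ζ‖ ^ 3 * |p2|)]
    exact add_le_add (add_le_add (mul_le_mul_of_nonneg_right (by linarith) q1)
      (mul_le_mul_of_nonneg_right (by linarith) q2)) (mul_le_mul_of_nonneg_right (by linarith) q3)
  have q5 : 0 ≤ 4 * N * (‖ζ‖ ^ 3 * |p2|) + (2 * N + 2 * M.K * (3 * c * c + c)) * (‖ζ‖ * |p1|) +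
      (2 * c * c + c) * |p0| := by positivity
  have q6 : ‖ζ‖ ^ 2 * p2 =
      ((ζ 0).re ^ 2 + (ζ 0).im ^ 2) * p2 + ((ζ 1).re ^ 2 + (ζ 1).im ^ 2) * p2 := by
    rw [← hs, add_mul]
  refine le_trans ?_ q4
  rw [Pstar, Fin.sum_univ_two, abs_le]
  constructor <;> linarith [k0.1, k0.2, k1.1, k1.2]

theorem radial_diff (M : Model) (x y : E) (f f1 f2 : ℝ → ℝ) (hy : y ≠ x)
    (h1 : ∀ τ, 0 < τ → HasDerivAt f (f1 τ) τ) (h2 : ∀ τ, 0 < τ → HasDerivAt f1 (f2 τ) τ) :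
    DifferentiableAt ℝ (fun y => f (‖M.A x (y - x)‖ ^ 2)) y ∧
    DifferentiableAt ℝ (fderiv ℝ fun y => f (‖M.A x (y - x)‖ ^ 2)) y :=
  ⟨(barc_der M x y hy h1 h2).1.differentiableAt, (barc_der M x y hy h1 h2).2.differentiableAt⟩

end Pool.Agent.Lib.MP_f2cf74_an
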