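import Pool.Agent.Lib.MP_f2cf74_an.Kp

open Set Metric MeasureTheory Complex Filter Topology
open scoped ContDiff ENNReal NNReal

noncomputable section

namespace Pool.Agent.Lib.MP_f2cf74_an

/-! Compositions of kernels.
`k33`: with `D = ‖x - y‖` split into `ball x (D/2)`, `ball y (D/2)` (there the other factor is
`≤ (D/2)⁻³`, use `leb_near 3`) and the rest, where the product is `≤ kp 6 x w + kp 6 y w`
(`leb_far 6`).  `comp33`: Tonelli, `k33` off the null set `w = x`.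
`ball_k3`: if `‖w - y‖ ≤ 2 r` use `ball y r ⊆ ball w (3 r)`, otherwise the kernel is
`≤ (‖w - y‖ / 2)⁻³` on the ball.  `logW`: annuli `2 ^ (-k-2) ≤ ‖h‖ < 2 ^ (-k-1)` contribute
`≤ C / (k + 1)²`.  `decay3`: split at `‖x - y‖ = ρ`, `leb_near 3`, `leb_far 5`. -/

theorem kq_meas_right (p : ℕ) (x : E) : Measurable (fun w : E => kp p x w) := by
  unfold kp
  fun_prop

theorem kq_meas_left (p : ℕ) (y : E) : Measurable (fun w : E => kp p w y) := by
  unfold kp
  fun_prop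

theorem kq_le_of_le (p : ℕ) (x w : E) (a : ℝ) (ha : 0 < a) (h : a ≤ ‖x - w‖) :
    kp p x w ≤ ENNReal.ofReal (a⁻¹ ^ p) := by
  unfold kp
  apply ENNReal.ofReal_le_ofReal
  have h1 : ‖x - w‖⁻¹ ≤ a⁻¹ := inv_anti₀ ha h
  exact pow_le_pow_left₀ (by positivity) h1 p

theorem kq_mul_le (x y w : E) : kp 3 x w * kp 3 y w ≤ kp 6 x w + kp 6 y w := by
  unfold kp
  rw [← ENNReal.ofReal_mul (by positivity), ← ENNReal.ofReal_add (by positivity) (by positivity)]
  apply ENNReal.ofReal_le_ofReal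
  have e1 : ‖x - w‖⁻¹ ^ 6 = (‖x - w‖⁻¹ ^ 3) ^ 2 := by ring
  have e2 : ‖y - w‖⁻¹ ^ 6 = (‖y - w‖⁻¹ ^ 3) ^ 2 := by ring
  rw [e1, e2]
  have h1 : 0 ≤ ‖x - w‖⁻¹ ^ 3 := by positivity
  have h2 : 0 ≤ ‖y - w‖⁻¹ ^ 3 := by positivity
  nlinarith [sq_nonneg (‖x - w‖⁻¹ ^ 3 - ‖y - w‖⁻¹ ^ 3), mul_nonneg h1 h2]

theorem k33 : ∃ C : ℝ≥0, ∀ x y : E, x ≠ y → ∫⁻ w, kp 3 x w * kp 3 w y ≤ C * kp 2 x y := by
  obtain ⟨C1, h1⟩ := leb_near 3 (by norm_num) (by norm_num)
  obtain ⟨C2, h2⟩ := leb_far 6 (by norm_num)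
  refine ⟨8 * C1 + 8 * C2, fun x y hxy => ?_⟩
  have hD : 0 < ‖x - y‖ := norm_pos_iff.mpr (sub_ne_zero.mpr hxy)
  set a : ℝ := ‖x - y‖ / 2 with ha
  have ha0 : 0 < a := by positivity
  set Q : ℝ≥0∞ := ENNReal.ofReal (a⁻¹ ^ 3) with hQ
  have hpt : ∀ w, kp 3 x w * kp 3 w y ≤
      ((ball x a).indicator (fun w => kp 3 x w * Q) w +
        (ball y a).indicator (fun w => kp 3 y w * Q) w) +
      ((ball x a)ᶜ.indicator (fun w => kp 6 x w) w +
        (ball y a)ᶜ.indicator (fun w => kp 6 y w) w) := by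
    intro w
    rw [kp_comm 3 w y]
    have tri : ‖x - y‖ ≤ ‖x - w‖ + ‖y - w‖ := by
      have : x - y = (x - w) - (y - w) := by abel
      rw [this]
      exact norm_sub_le _ _
    by_cases hx : w ∈ ball x a
    · have hx' : ‖x - w‖ < a := by rwa [mem_ball, dist_comm, dist_eq_norm] at hx
      have : kp 3 y w ≤ Q := kq_le_of_le 3 y w a ha0 (by linarith)
      rw [indicator_of_mem hx]
      calc kp 3 x w * kp 3 y w ≤ kp 3 x w * Q := by gcongr
        _ ≤ _ := le_add_right (le_add_right le_rfl)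
    · by_cases hy : w ∈ ball y a
      · have hy' : ‖y - w‖ < a := by rwa [mem_ball, dist_comm, dist_eq_norm] at hy
        have : kp 3 x w ≤ Q := kq_le_of_le 3 x w a ha0 (by linarith)
        rw [indicator_of_mem hy]
        calc kp 3 x w * kp 3 y w ≤ Q * kp 3 y w := by gcongr
          _ = kp 3 y w * Q := mul_comm _ _
          _ ≤ _ := le_add_right (le_add_left le_rfl)
      · rw [indicator_of_mem (show w ∈ (ball x a)ᶜ from hx),
          indicator_of_mem (show w ∈ (ball y a)ᶜ from hy)]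
        exact le_add_left (kq_mul_le x y w)
  have m1 : ∀ z : E, Measurable ((ball z a).indicator (fun w => kp 3 z w * Q)) := fun z =>
    ((kq_meas_right 3 z).mul_const Q).indicator measurableSet_ball
  have m2 : ∀ z : E, Measurable ((ball z a)ᶜ.indicator (fun w => kp 6 z w)) := fun z =>
    (kq_meas_right 6 z).indicator measurableSet_ball.compl
  have i1 : ∀ z : E, ∫⁻ w, (ball z a).indicator (fun w => kp 3 z w * Q) w ≤
      C1 * ENNReal.ofReal (a⁻¹ ^ 2) := by
    intro z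
    rw [lintegral_indicator measurableSet_ball, lintegral_mul_const _ (kq_meas_right 3 z)]
    calc (∫⁻ w in ball z a, kp 3 z w) * Q ≤ C1 * ENNReal.ofReal (a ^ (4 - 3)) * Q := by
          gcongr
          exact h1 z a ha0
      _ = C1 * ENNReal.ofReal (a⁻¹ ^ 2) := by
          rw [mul_assoc, hQ, ← ENNReal.ofReal_mul (by positivity), show 4 - 3 = 1 from rfl]
          congr 2
          field_simp
  have i2 : ∀ z : E, ∫⁻ w, (ball z a)ᶜ.indicator (fun w => kp 6 z w) w ≤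
      C2 * ENNReal.ofReal (a⁻¹ ^ 2) := by
    intro z
    rw [lintegral_indicator measurableSet_ball.compl]
    exact h2 z a ha0
  have hk : ENNReal.ofReal (a⁻¹ ^ 2) = 4 * kp 2 x y := by
    unfold kp
    rw [← ENNReal.ofReal_ofNat 4, ← ENNReal.ofReal_mul (by norm_num)]
    congr 1
    rw [ha]
    field_simp
    norm_num
  calc ∫⁻ w, kp 3 x w * kp 3 w y ≤ _ := lintegral_mono hpt
    _ = ((∫⁻ w, (ball x a).indicator (fun w => kp 3 x w * Q) w) +
        ∫⁻ w, (ball y a).indicator (fun w => kp 3 y w * Q) w) +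
      ((∫⁻ w, (ball x a)ᶜ.indicator (fun w => kp 6 x w) w) +
        ∫⁻ w, (ball y a)ᶜ.indicator (fun w => kp 6 y w) w) := by
        rw [lintegral_add_left ((m1 x).fun_add (m1 y)), lintegral_add_left (m1 x),
          lintegral_add_left (m2 x)]
    _ ≤ (C1 * ENNReal.ofReal (a⁻¹ ^ 2) + C1 * ENNReal.ofReal (a⁻¹ ^ 2)) +
        (C2 * ENNReal.ofReal (a⁻¹ ^ 2) + C2 * ENNReal.ofReal (a⁻¹ ^ 2)) :=
        add_le_add (add_le_add (i1 x) (i1 y)) (add_le_add (i2 x) (i2 y))
    _ = _ := by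
        rw [hk]
        push_cast
        ring

theorem comp33 : ∃ C : ℝ≥0, ∀ (x : E) (S : Set E) (m : E → ℝ≥0∞), Measurable m →
    ∫⁻ y, kp 3 x y * ∫⁻ w in S, kp 3 y w * m w ≤ C * ∫⁻ w in S, kp 2 x w * m w := by
  obtain ⟨C, hC⟩ := k33
  refine ⟨C, fun x S m hm => ?_⟩
  have hmeas : Measurable (Function.uncurry fun y w : E => kp 3 x y * (kp 3 y w * m w)) := by
    unfold Function.uncurry kp
    fun_prop
  have e1 : ∀ y, kp 3 x y * ∫⁻ w in S, kp 3 y w * m w =
      ∫⁻ w in S, kp 3 x y * (kp 3 y w * m w) := fun y =>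
    (lintegral_const_mul _ ((kq_meas_right 3 y).fun_mul hm)).symm
  simp_rw [e1]
  rw [lintegral_lintegral_swap hmeas.aemeasurable,
    ← lintegral_const_mul _ ((kq_meas_right 2 x).fun_mul hm)]
  apply lintegral_mono_ae
  have hne : ∀ᵐ w ∂(volume.restrict S), w ≠ x :=
    ae_restrict_of_ae (by simp [ae_iff])
  filter_upwards [hne] with w hw
  have e2 : ∫⁻ y, kp 3 x y * (kp 3 y w * m w) = (∫⁻ y, kp 3 x y * kp 3 y w) * m w := by
    rw [← lintegral_mul_const _ ((kq_meas_right 3 x).fun_mul (kq_meas_left 3 w))]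
    simp only [mul_assoc]
  rw [e2, ← mul_assoc]
  gcongr
  exact hC x w hw.symm

theorem ball_k3 : ∃ C : ℝ≥0, ∀ (y w : E) (r : ℝ), 0 < r →
    ∫⁻ x in ball y r, kp 3 x w ≤ C * ENNReal.ofReal (r ^ 4 * (‖w - y‖ + r)⁻¹ ^ 3) := by
  obtain ⟨C1, h1⟩ := leb_near 3 (by norm_num) (by norm_num)
  obtain ⟨C2, -, h2⟩ := vol_ball
  refine ⟨81 * C1 + 27 * C2, fun y w r hr => ?_⟩
  have hn : 0 ≤ ‖w - y‖ := norm_nonneg _
  set T : ℝ≥0∞ := ENNReal.ofReal (r ^ 4 * (‖w - y‖ + r)⁻¹ ^ 3) with hT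
  by_cases hc : ‖w - y‖ ≤ 2 * r
  · have hsub : ball y r ⊆ ball w (3 * r) := by
      intro x hx
      rw [mem_ball] at hx ⊢
      have := dist_triangle x y w
      rw [dist_comm y w, dist_eq_norm w y] at this
      linarith
    have hb : ENNReal.ofReal ((3 * r) ^ (4 - 3)) ≤ 81 * T := by
      rw [hT, ← ENNReal.ofReal_ofNat 81, ← ENNReal.ofReal_mul (by norm_num)]
      apply ENNReal.ofReal_le_ofReal
      have h3 : (3 * r)⁻¹ ≤ (‖w - y‖ + r)⁻¹ := inv_anti₀ (by positivity) (by linarith)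
      have h4 : (3 * r)⁻¹ ^ 3 ≤ (‖w - y‖ + r)⁻¹ ^ 3 := pow_le_pow_left₀ (by positivity) h3 3
      calc (3 * r) ^ (4 - 3) = 81 * (r ^ 4 * (3 * r)⁻¹ ^ 3) := by
            rw [show 4 - 3 = 1 from rfl]
            field_simp
            norm_num
        _ ≤ _ := by gcongr
    calc ∫⁻ x in ball y r, kp 3 x w ≤ ∫⁻ x in ball w (3 * r), kp 3 w x := by
          simp_rw [kp_comm 3 w]
          exact lintegral_mono_set hsub
      _ ≤ C1 * ENNReal.ofReal ((3 * r) ^ (4 - 3)) := h1 w _ (by positivity)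
      _ ≤ C1 * (81 * T) := by gcongr
      _ = (81 * C1) * T := by ring
      _ ≤ _ := by
          push_cast
          gcongr
          exact le_add_right le_rfl
  · push Not at hc
    have hb : ∀ x ∈ ball y r, kp 3 x w ≤ ENNReal.ofReal (((‖w - y‖ + r) / 3)⁻¹ ^ 3) := by
      intro x hx
      apply kq_le_of_le 3 x w _ (by positivity)
      rw [mem_ball, dist_eq_norm] at hx
      have tri : ‖w - y‖ ≤ ‖x - y‖ + ‖x - w‖ := by
        have : w - y = (x - y) - (x - w) := by abel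
        rw [this]
        exact norm_sub_le _ _
      linarith
    calc ∫⁻ x in ball y r, kp 3 x w
        ≤ ∫⁻ _ in ball y r, ENNReal.ofReal (((‖w - y‖ + r) / 3)⁻¹ ^ 3) :=
          setLIntegral_mono' measurableSet_ball hb
      _ = ENNReal.ofReal (((‖w - y‖ + r) / 3)⁻¹ ^ 3) * (C2 * ENNReal.ofReal (r ^ 4)) := by
          rw [setLIntegral_const, h2 y r hr.le]
      _ = (27 * C2) * T := by
          have : T = ENNReal.ofReal (r ^ 4) * ENNReal.ofReal ((‖w - y‖ + r)⁻¹ ^ 3) := by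
            rw [hT, ENNReal.ofReal_mul (by positivity)]
          have e : ENNReal.ofReal (((‖w - y‖ + r) / 3)⁻¹ ^ 3) =
              27 * ENNReal.ofReal ((‖w - y‖ + r)⁻¹ ^ 3) := by
            rw [← ENNReal.ofReal_ofNat 27, ← ENNReal.ofReal_mul (by norm_num)]
            congr 1
            field_simp
            norm_num
          rw [this, e]
          ring
      _ ≤ _ := by
          push_cast
          gcongr
          exact le_add_left le_rfl

theorem logW : ∃ C : ℝ≥0, ∀ y : E, ∫⁻ x in ball y (1 / 2), wW y x ≤ C := by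
  obtain ⟨C2, -, h2⟩ := vol_ball
  have hl2 : 0 < Real.log 2 := Real.log_pos (by norm_num)
  set f : ℕ → ℝ := fun k => 16 / Real.log 2 ^ 2 * (1 / ((k + 1 : ℕ) : ℝ) ^ 2) with hf
  have hfs : Summable f := by
    apply Summable.mul_left
    exact (summable_nat_add_iff 1).mpr (Real.summable_one_div_nat_pow.mpr (by norm_num))
  have hf0 : ∀ k, 0 ≤ f k := fun k => by positivity
  refine ⟨C2 * (∑' k, f k).toNNReal, fun y => ?_⟩
  set A : ℕ → Set E := fun k => ball y ((1 / 2) ^ (k + 1)) \ ball y ((1 / 2) ^ (k + 2)) with hA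
  have hcov : ball y (1 / 2) ⊆ {y} ∪ ⋃ k, A k := by
    intro x hx
    by_cases hxy : x = y
    · exact Or.inl hxy
    · right
      have hd : 0 < dist x y := dist_pos.mpr hxy
      have hex : ∃ k : ℕ, (1 / 2 : ℝ) ^ (k + 1) ≤ dist x y := by
        obtain ⟨k, hk⟩ := exists_pow_lt_of_lt_one hd (show (1 / 2 : ℝ) < 1 by norm_num)
        refine ⟨k, le_trans ?_ hk.le⟩
        exact pow_le_pow_of_le_one (by norm_num) (by norm_num) (Nat.le_succ k)
      classical
      have hspec := Nat.find_spec hex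
      have hpos : Nat.find hex ≠ 0 := by
        intro h0
        rw [h0] at hspec
        rw [mem_ball] at hx
        norm_num at hspec hx
        linarith
      obtain ⟨j, hj⟩ := Nat.exists_eq_succ_of_ne_zero hpos
      have hmin := Nat.find_min hex (show j < Nat.find hex by omega)
      rw [hj] at hspec
      refine mem_iUnion.mpr ⟨j, ?_, ?_⟩
      · rw [mem_ball]
        exact not_le.mp hmin
      · rw [mem_ball, not_lt]
        exact hspec
  have hAk : ∀ k, ∫⁻ x in A k, wW y x ≤ C2 * ENNReal.ofReal (f k) := by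
    intro k
    have hb : ∀ x ∈ A k, wW y x ≤
        ENNReal.ofReal (((1 / 2 : ℝ) ^ (k + 2))⁻¹ ^ 4 / (((k + 1 : ℕ) : ℝ) * Real.log 2) ^ 2) := by
      rintro x ⟨hx1, hx2⟩
      rw [mem_ball, dist_comm, dist_eq_norm] at hx1
      rw [mem_ball, dist_comm, dist_eq_norm, not_lt] at hx2
      unfold wW
      apply ENNReal.ofReal_le_ofReal
      have hp : (0 : ℝ) < (1 / 2) ^ (k + 2) := by positivity
      have hn : 0 < ‖y - x‖ := lt_of_lt_of_le hp hx2
      have hlog : Real.log ‖y - x‖ ≤ -(((k + 1 : ℕ) : ℝ) * Real.log 2) := by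
        have := Real.log_le_log hn hx1.le
        rw [Real.log_pow, one_div, Real.log_inv] at this
        linarith
      have hpos : 0 < ((k + 1 : ℕ) : ℝ) * Real.log 2 := by positivity
      have hsq : (((k + 1 : ℕ) : ℝ) * Real.log 2) ^ 2 ≤ Real.log ‖y - x‖ ^ 2 := by
        nlinarith
      have hnum : ‖y - x‖⁻¹ ^ 4 ≤ ((1 / 2 : ℝ) ^ (k + 2))⁻¹ ^ 4 :=
        pow_le_pow_left₀ (by positivity) (inv_anti₀ hp hx2) 4
      exact div_le_div₀ (by positivity) hnum (by positivity) hsq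
    calc ∫⁻ x in A k, wW y x ≤ ∫⁻ _ in A k,
          ENNReal.ofReal (((1 / 2 : ℝ) ^ (k + 2))⁻¹ ^ 4 /
            (((k + 1 : ℕ) : ℝ) * Real.log 2) ^ 2) :=
          setLIntegral_mono' (measurableSet_ball.diff measurableSet_ball) hb
      _ = ENNReal.ofReal (((1 / 2 : ℝ) ^ (k + 2))⁻¹ ^ 4 /
            (((k + 1 : ℕ) : ℝ) * Real.log 2) ^ 2) * volume (A k) := setLIntegral_const _ _
      _ ≤ ENNReal.ofReal (((1 / 2 : ℝ) ^ (k + 2))⁻¹ ^ 4 /
            (((k + 1 : ℕ) : ℝ) * Real.log 2) ^ 2) *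
            (C2 * ENNReal.ofReal (((1 / 2 : ℝ) ^ (k + 1)) ^ 4)) := by
          gcongr
          rw [← h2 y _ (by positivity)]
          exact measure_mono sdiff_subset
      _ = C2 * ENNReal.ofReal (f k) := by
          rw [mul_left_comm, ← ENNReal.ofReal_mul (by positivity)]
          congr 2
          simp only [hf]
          rw [pow_succ (1 / 2 : ℝ) (k + 1)]
          have : (0 : ℝ) < (1 / 2) ^ (k + 1) := by positivity
          have : (0 : ℝ) < ((k + 1 : ℕ) : ℝ) := by positivity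
          field_simp
          norm_num
  calc ∫⁻ x in ball y (1 / 2), wW y x ≤ ∫⁻ x in {y} ∪ ⋃ k, A k, wW y x := lintegral_mono_set hcov
    _ ≤ (∫⁻ x in {y}, wW y x) + ∫⁻ x in ⋃ k, A k, wW y x := lintegral_union_le _ _ _
    _ = ∫⁻ x in ⋃ k, A k, wW y x := by
        rw [setLIntegral_measure_zero _ _ (measure_singleton y), zero_add]
    _ ≤ ∑' k, ∫⁻ x in A k, wW y x := lintegral_iUnion_le _ _
    _ ≤ ∑' k, C2 * ENNReal.ofReal (f k) := ENNReal.tsum_le_tsum hAk
    _ = C2 * ENNReal.ofReal (∑' k, f k) := by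
        rw [ENNReal.tsum_mul_left, ENNReal.ofReal_tsum_of_nonneg hf0 hfs]
    _ = _ := by
        rw [ENNReal.coe_mul]
        rfl

theorem decay3 : ∃ C : ℝ≥0, ∀ (y : E) (ρ : ℝ), 0 < ρ →
    ∫⁻ x, kp 3 y x * ENNReal.ofReal (ρ ^ 2 / (‖x - y‖ ^ 2 + ρ ^ 2)) ≤ C * ENNReal.ofReal ρ := by
  obtain ⟨C1, h1⟩ := leb_near 3 (by norm_num) (by norm_num)
  obtain ⟨C2, h2⟩ := leb_far 5 (by norm_num)
  refine ⟨C1 + C2, fun y ρ hρ => ?_⟩
  rw [← lintegral_add_compl _ (measurableSet_ball (x := y) (ε := ρ))]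
  have i1 : ∫⁻ x in ball y ρ, kp 3 y x * ENNReal.ofReal (ρ ^ 2 / (‖x - y‖ ^ 2 + ρ ^ 2)) ≤
      C1 * ENNReal.ofReal ρ := by
    calc _ ≤ ∫⁻ x in ball y ρ, kp 3 y x := by
          apply lintegral_mono
          intro x
          have : ENNReal.ofReal (ρ ^ 2 / (‖x - y‖ ^ 2 + ρ ^ 2)) ≤ 1 := by
            rw [ENNReal.ofReal_le_one, div_le_one (by positivity)]
            nlinarith [sq_nonneg ‖x - y‖]
          calc kp 3 y x * ENNReal.ofReal (ρ ^ 2 / (‖x - y‖ ^ 2 + ρ ^ 2)) ≤ kp 3 y x * 1 := by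
                gcongr
            _ = _ := mul_one _
      _ ≤ C1 * ENNReal.ofReal (ρ ^ (4 - 3)) := h1 y ρ hρ
      _ = _ := by norm_num
  have i2 : ∫⁻ x in (ball y ρ)ᶜ, kp 3 y x * ENNReal.ofReal (ρ ^ 2 / (‖x - y‖ ^ 2 + ρ ^ 2)) ≤
      C2 * ENNReal.ofReal ρ := by
    calc _ ≤ ∫⁻ x in (ball y ρ)ᶜ, kp 5 y x * ENNReal.ofReal (ρ ^ 2) := by
          apply setLIntegral_mono' measurableSet_ball.compl
          intro x hx
          rw [mem_compl_iff, mem_ball, not_lt, dist_eq_norm] at hx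
          have hn : 0 < ‖x - y‖ := lt_of_lt_of_le hρ hx
          unfold kp
          rw [← ENNReal.ofReal_mul (by positivity), ← ENNReal.ofReal_mul (by positivity),
            norm_sub_rev y x]
          apply ENNReal.ofReal_le_ofReal
          have : ρ ^ 2 / (‖x - y‖ ^ 2 + ρ ^ 2) ≤ ρ ^ 2 / ‖x - y‖ ^ 2 :=
            div_le_div_of_nonneg_left (by positivity) (by positivity) (by nlinarith)
          calc ‖x - y‖⁻¹ ^ 3 * (ρ ^ 2 / (‖x - y‖ ^ 2 + ρ ^ 2))
              ≤ ‖x - y‖⁻¹ ^ 3 * (ρ ^ 2 / ‖x - y‖ ^ 2) := by gcongr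
            _ = _ := by field_simp
      _ = (∫⁻ x in (ball y ρ)ᶜ, kp 5 y x) * ENNReal.ofReal (ρ ^ 2) :=
          lintegral_mul_const _ (kq_meas_right 5 y)
      _ ≤ C2 * ENNReal.ofReal (ρ⁻¹ ^ (5 - 4)) * ENNReal.ofReal (ρ ^ 2) := by
          gcongr
          exact h2 y ρ hρ
      _ = _ := by
          rw [mul_assoc, ← ENNReal.ofReal_mul (by positivity), show 5 - 4 = 1 from rfl]
          congr 2
          field_simp
  calc _ ≤ C1 * ENNReal.ofReal ρ + C2 * ENNReal.ofReal ρ := add_le_add i1 i2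
    _ = _ := by
        push_cast
        ring

/-- Tonelli in the form used for potentials. -/
theorem swap_pot (p : ℕ) (S T : Set E) (m w : E → ℝ≥0∞) (hm : Measurable m) (hw : Measurable w)
    (hT : MeasurableSet T) (P : ℝ≥0∞) (hP : ∀ y ∈ T, ∫⁻ x in S, kp p y x * w x ≤ P) :
    ∫⁻ x in S, w x * ∫⁻ y in T, kp p x y * m y ≤ P * ∫⁻ y in T, m y := by
  have hmeas : Measurable (Function.uncurry fun x y : E => w x * (kp p x y * m y)) := by
    unfold Function.uncurry kp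
    fun_prop
  have e1 : ∀ x, w x * ∫⁻ y in T, kp p x y * m y = ∫⁻ y in T, w x * (kp p x y * m y) := fun x =>
    (lintegral_const_mul _ ((kq_meas_right p x).fun_mul hm)).symm
  simp_rw [e1]
  rw [lintegral_lintegral_swap hmeas.aemeasurable, ← lintegral_const_mul _ hm]
  apply setLIntegral_mono' hT
  intro y hy
  have e2 : ∫⁻ x in S, w x * (kp p x y * m y) = (∫⁻ x in S, kp p y x * w x) * m y := by
    rw [← lintegral_mul_const _ ((kq_meas_right p y).fun_mul hw)]
    congr 1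
    funext x
    rw [kp_comm p x y]
    ring
  rw [e2]
  gcongr
  exact hP y hy

end Pool.Agent.Lib.MP_f2cf74_an
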