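import Pool.Agent.Lib.MP_f2cf74_an.Ibp
import Pool.Agent.Lib.MP_f2cf74_an.AlgC

open Set Metric MeasureTheory Complex Filter Topology
open scoped ContDiff ENNReal NNReal

noncomputable section

namespace Pool.Agent.Lib.MP_f2cf74_an

/-! Mass and Caccioppoli estimates.  `adj_ibp`: `ibp` for `ψ * f`.  `pstar_ibp`: `trH_sum` and
`adj_ibp` twice.  `mass`: a `ContDiffBump c` equal to `1` on `ball c a` with support in a smaller
ball than `ball c b`; `Pstar M ψ` is continuous with support in `tsupport ψ`, hence bounded.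
`cacc`: `sq_facts` for `u + B` and `mass`. -/

theorem mass_vd {n : WithTop ℕ∞} {V : E → E} (hV : ContDiff ℝ n V) {f : E → ℝ}
    (hf : ContDiff ℝ (n + 1) f) : ContDiff ℝ n (VD V f) :=
  (hf.fderiv_right le_rfl).clm_apply hV

theorem mass_divg {V : E → E} (hV : ContDiff ℝ 1 V) : Continuous (divg V) := by
  have := hV.continuous_fderiv one_ne_zero
  unfold divg
  fun_prop

theorem mass_supp (V : E → E) (ψ : E → ℝ) : tsupport (adj V ψ) ⊆ tsupport ψ := by
  refine closure_minimal (fun x hx => ?_) (isClosed_tsupport ψ)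
  by_contra h
  refine hx ?_
  have h1 : fderiv ℝ ψ x = 0 := by
    by_contra e
    exact h (support_fderiv_subset ℝ e)
  simp [adj, VD, h1, image_eq_zero_of_notMem_tsupport h]

theorem mass_hcs (V : E → E) {ψ : E → ℝ} (hc : HasCompactSupport ψ) :
    HasCompactSupport (adj V ψ) :=
  IsCompact.of_isClosed_subset hc (isClosed_tsupport _) (mass_supp V ψ)

theorem mass_sm {V : E → E} (hV : ContDiff ℝ ∞ V) {ψ : E → ℝ} (hψ : ContDiff ℝ ∞ ψ) :
    ContDiff ℝ ∞ (adj V ψ) :=
  (mass_vd hV hψ).add ((contDiff_divg hV).mul hψ)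

theorem mass_int {ψ f : E → ℝ} (hψ : Continuous ψ) (hc : HasCompactSupport ψ) (hf : Continuous f) :
    Integrable fun x => ψ x * f x :=
  (hψ.mul hf).integrable_of_hasCompactSupport hc.mul_right

theorem adj_ibp {V : E → E} (hV : ContDiff ℝ 1 V) {ψ f : E → ℝ} (hψ : ContDiff ℝ 1 ψ)
    (hc : HasCompactSupport ψ) (hf : ContDiff ℝ 1 f) :
    ∫ x, ψ x * VD V f x = -∫ x, adj V ψ x * f x := by
  have h0 : ContDiff ℝ 0 V := hV.of_le zero_le_one
  have h1 := ibp hV (hψ.mul hf) hc.mul_right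
  have h2 : Continuous (adj V ψ) := (mass_vd h0 (f := ψ) (by simpa using hψ)).continuous.add
    ((mass_divg hV).mul hψ.continuous)
  rw [eq_neg_iff_add_eq_zero, ← integral_add
    (mass_int hψ.continuous hc (mass_vd h0 (f := f) (by simpa using hf)).continuous)
    (mass_int h2 (mass_hcs V hc) hf.continuous), ← h1]
  refine integral_congr_ae (Eventually.of_forall fun x => ?_)
  simp only [adj, VD]
  rw [fderiv_fun_mul (hψ.differentiable one_ne_zero x) (hf.differentiable one_ne_zero x)]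
  simp only [add_apply, smul_apply, smul_eq_mul]
  ring

theorem mass_two {V : E → E} (hV : ContDiff ℝ ∞ V) {ψ f : E → ℝ} (hψ : ContDiff ℝ ∞ ψ)
    (hc : HasCompactSupport ψ) (hf : ContDiff ℝ 2 f) :
    ∫ x, ψ x * VD V (VD V f) x = ∫ x, adj V (adj V ψ) x * f x := by
  have h1 : ContDiff ℝ 1 V := hV.of_le (by simp)
  rw [adj_ibp h1 (hψ.of_le (by simp)) hc (mass_vd h1 hf),
    adj_ibp h1 ((mass_sm hV hψ).of_le (by simp)) (mass_hcs V hc) (hf.of_le one_le_two), neg_neg]

theorem pstar_ibp (M : Model) {ψ f : E → ℝ} (hψ : ContDiff ℝ ∞ ψ) (hc : HasCompactSupport ψ)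
    (hf : ContDiff ℝ 2 f) : ∫ x, ψ x * tr (H M f x) = ∫ x, Pstar M ψ x * f x := by
  have hX : ∀ j, ContDiff ℝ ∞ (vX M j) := fun j => contDiff_const
  have hY := M.contDiff_vY
  have hB := M.contDiff_vB
  have a1 : ∀ V : E → E, ContDiff ℝ ∞ V → Integrable fun x => ψ x * VD V f x := fun V hV =>
    mass_int hψ.continuous hc (mass_vd (n := 1) (hV.of_le (by simp)) hf).continuous
  have a2 : ∀ V : E → E, ContDiff ℝ ∞ V → Integrable fun x => ψ x * VD V (VD V f) x := fun V hV =>
    mass_int hψ.continuous hc (mass_vd (n := 0) (hV.of_le (by simp))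
      (by simpa using mass_vd (n := 1) (hV.of_le (by simp)) hf)).continuous
  have b1 : ∀ V : E → E, ContDiff ℝ ∞ V → Integrable fun x => adj V ψ x * f x := fun V hV =>
    mass_int (mass_sm hV hψ).continuous (mass_hcs V hc) hf.continuous
  have b2 : ∀ V : E → E, ContDiff ℝ ∞ V → Integrable fun x => adj V (adj V ψ) x * f x :=
    fun V hV => mass_int (mass_sm hV (mass_sm hV hψ)).continuous (mass_hcs V (mass_hcs V hc))
      hf.continuous
  have e1 : ∀ x, ψ x * tr (H M f x) = (∑ j, (ψ x * VD (vX M j) (VD (vX M j) f) x +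
      ψ x * VD (vY M j) (VD (vY M j) f) x + ψ x * VD (vB M j) f x)) / 4 := fun x => by
    rw [trH_sum M hf.contDiffAt]
    simp only [Fin.sum_univ_two]
    ring
  have e2 : ∀ x, Pstar M ψ x * f x = (∑ j, (adj (vX M j) (adj (vX M j) ψ) x * f x +
      adj (vY M j) (adj (vY M j) ψ) x * f x - adj (vB M j) ψ x * f x)) / 4 := fun x => by
    simp only [Pstar, Fin.sum_univ_two]
    ring
  simp only [e1, e2, integral_div]
  rw [integral_finsetSum _ fun j _ => by exact ((a2 _ (hX j)).add (a2 _ (hY j))).add (a1 _ (hB j)),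
    integral_finsetSum _ fun j _ => by exact ((b2 _ (hX j)).add (b2 _ (hY j))).sub (b1 _ (hB j))]
  congr 1
  refine Finset.sum_congr rfl fun j _ => ?_
  rw [integral_add (by exact (a2 _ (hX j)).add (a2 _ (hY j))) (a1 _ (hB j)),
    integral_add (a2 _ (hX j)) (a2 _ (hY j)),
    integral_sub (by exact (b2 _ (hX j)).add (b2 _ (hY j))) (b1 _ (hB j)),
    integral_add (b2 _ (hX j)) (b2 _ (hY j)), mass_two (hX j) hψ hc hf, mass_two (hY j) hψ hc hf,
    adj_ibp ((hB j).of_le (by simp)) (hψ.of_le (by simp)) hc (hf.of_le one_le_two), sub_eq_add_neg]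

theorem mass_pstar (M : Model) {ψ : E → ℝ} (hψ : ContDiff ℝ ∞ ψ) :
    Continuous (Pstar M ψ) ∧ ∀ x, x ∉ tsupport ψ → Pstar M ψ x = 0 := by
  have hX : ∀ j, ContDiff ℝ ∞ (vX M j) := fun j => contDiff_const
  refine ⟨(continuous_finsetSum _ fun j _ =>
    ((mass_sm (hX j) (mass_sm (hX j) hψ)).continuous.add (mass_sm (M.contDiff_vY j)
      (mass_sm (M.contDiff_vY j) hψ)).continuous).sub
        (mass_sm (M.contDiff_vB j) hψ).continuous).div_const 4, fun x hx => ?_⟩
  have h1 : ∀ V, adj V ψ x = 0 := fun V =>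
    image_eq_zero_of_notMem_tsupport fun h => hx (mass_supp V ψ h)
  have h2 : ∀ V, adj V (adj V ψ) x = 0 := fun V =>
    image_eq_zero_of_notMem_tsupport fun h => hx (mass_supp V ψ (mass_supp V _ h))
  simp [Pstar, h1, h2]

theorem mass (M : Model) (c : E) {a b : ℝ} (ha : 0 < a) (hab : a < b) : ∃ C : ℝ≥0,
    ∀ u, UOK M c b u → ∫⁻ x in ball c a, eT M u x ≤ C * nU c b u := by
  let ψ : ContDiffBump c := ⟨a, (a + b) / 2, ha, by linarith⟩
  have hs : tsupport ψ ⊆ ball c b := by
    rw [ψ.tsupport_eq]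
    exact closedBall_subset_ball (show (a + b) / 2 < b by linarith)
  obtain ⟨h1, h2⟩ := mass_pstar M (ψ := ψ) ψ.contDiff
  obtain ⟨C, hC⟩ := h1.bounded_above_of_compact_support
    (HasCompactSupport.intro ψ.hasCompactSupport h2)
  refine ⟨C.toNNReal, fun u hu => ?_⟩
  have hu2 : ContDiff ℝ 2 u := hu.sm.of_le (by norm_num)
  have h3 : Continuous fun x => tr (H M u x) :=
    (continuous_re.comp (continuous_H M hu2 0 0)).add (continuous_re.comp (continuous_H M hu2 1 1))
  calc _ = ∫⁻ x in ball c a, ENNReal.ofReal (ψ x * tr (H M u x)) :=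
        setLIntegral_congr_fun measurableSet_ball fun x hx => by
          simp only [eT, ψ.one_of_mem_closedBall (ball_subset_closedBall hx), one_mul]
    _ ≤ ∫⁻ x, ENNReal.ofReal (ψ x * tr (H M u x)) := setLIntegral_le_lintegral _ _
    _ = ENNReal.ofReal (∫ x, Pstar M ψ x * u x) := by
        rw [← pstar_ibp M ψ.contDiff ψ.hasCompactSupport hu2,
          ofReal_integral_eq_lintegral_ofReal (mass_int ψ.continuous ψ.hasCompactSupport h3)]
        refine Eventually.of_forall fun x => ?_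
        by_cases hx : x ∈ ball c b
        · exact mul_nonneg ψ.nonneg (psd_H M hu.psh hx).tr_nonneg
        · simp [image_eq_zero_of_notMem_tsupport fun h => hx (hs h)]
    _ ≤ ∫⁻ x, ‖Pstar M ψ x * u x‖ₑ :=
        (Real.ofReal_le_enorm _).trans (enorm_integral_le_lintegral_enorm _)
    _ ≤ ∫⁻ x, (ball c b).indicator (fun x => (C.toNNReal : ℝ≥0∞) * ‖u x‖ₑ) x := by
        refine lintegral_mono fun x => ?_
        by_cases hx : x ∈ ball c b
        · rw [indicator_of_mem hx, enorm_mul]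
          refine mul_le_mul_left ?_ _
          rw [← ofReal_norm]
          exact ENNReal.ofReal_le_ofReal (hC x)
        · simp [h2 x fun h => hx (hs h)]
    _ = _ := by
        rw [lintegral_indicator measurableSet_ball, lintegral_const_mul' _ _ ENNReal.coe_ne_top]
        rfl

theorem massV (M : Model) (c : E) {a b : ℝ} (ha : 0 < a) (hab : a < b) (B : ℝ) : ∃ C : ℝ≥0,
    ∀ v, VOK M c b B v → ∫⁻ x in ball c a, eT M v x ≤ C := by
  obtain ⟨C, hC⟩ := mass M c ha hab
  have hf : C * (ENNReal.ofReal B * volume (ball c b)) ≠ ⊤ :=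
    ENNReal.mul_ne_top ENNReal.coe_ne_top
      (ENNReal.mul_ne_top ENNReal.ofReal_ne_top measure_ball_lt_top.ne)
  refine ⟨(C * (ENNReal.ofReal B * volume (ball c b))).toNNReal, fun v hv => ?_⟩
  rw [ENNReal.coe_toNNReal hf]
  refine (hC v ⟨hv.sm, hv.psh⟩).trans (mul_le_mul_right ?_ _)
  rw [← setLIntegral_const]
  refine setLIntegral_mono' measurableSet_ball fun x hx => ?_
  rw [Real.enorm_of_nonneg (hv.nn x hx)]
  exact ENNReal.ofReal_le_ofReal (hv.le x hx)

theorem cacc (M : Model) (c : E) {a b : ℝ} (ha : 0 < a) (hab : a < b) (B : ℝ) : ∃ C : ℝ≥0,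
    ∀ u, UOK M c b u → (∀ x ∈ ball c b, |u x| ≤ B) → ∫⁻ x in ball c a, eG u x ^ 2 ≤ C := by
  obtain ⟨C₁, h₀, h₁⟩ := sq_facts M
  obtain ⟨C₂, h₂⟩ := massV M c ha hab ((2 * B) ^ 2)
  refine ⟨C₁.toNNReal * C₂, fun u hu hB => ?_⟩
  obtain ⟨h3, h4⟩ := h₁ c b (2 * B) (fun y => u y + B) ⟨hu.sm.add contDiff_const,
    fun x hx Y => by rw [levi_add_const]; exact hu.psh x hx Y,
    fun x hx => by linarith [(abs_le.1 (hB x hx)).1], fun x hx => by linarith [(abs_le.1 (hB x hx)).2]⟩
  rw [ENNReal.coe_mul]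
  refine le_trans ?_ (mul_le_mul_right (h₂ _ h3) _)
  rw [← lintegral_const_mul' _ _ ENNReal.coe_ne_top]
  refine setLIntegral_mono' measurableSet_ball fun x hx => ?_
  have := h4 x (ball_subset_ball hab.le hx)
  rw [fderiv_add_const] at this
  rw [eG, ← ofReal_norm, ← ENNReal.ofReal_pow (norm_nonneg _)]
  exact (ENNReal.ofReal_le_ofReal this).trans (ENNReal.ofReal_mul h₀).le

end Pool.Agent.Lib.MP_f2cf74_an
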