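import Pool.Agent.Lib.MP_f2cf74_an.BarA
import Pool.Agent.Lib.MP_f2cf74_an.BarC
import Pool.Agent.Lib.MP_f2cf74_an.AdjS
import Pool.Agent.Lib.MP_f2cf74_an.Mass
import Pool.Agent.Lib.MP_f2cf74_an.Kq

open Set Metric MeasureTheory Complex Filter Topology
open scoped ContDiff ENNReal NNReal

noncomputable section

namespace Pool.Agent.Lib.MP_f2cf74_an

/-! Consequences of the barrier `barF M R x` with `Q = Pstar M (barF M R x)`.
`barrier`: for `C C' R ≤ 1/2` the error of `radial_facts` is at most half of the main term.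
`pot`: near part from `barrier` (`∫ F tr H v = ∫ Q (v - v x) ≤ B ∫ Q`), far part from `massV`.
`pot2`: `sq_facts`.  `submean`: `0 ≤ ∫ Q (U - U x)`. -/

theorem barb_ae (x : E) : ∀ᵐ y : E, y ≠ x := by
  rw [ae_iff]
  simp

theorem barb_adj (V : E → E) {f : E → ℝ} {y : E} (h : f =ᶠ[𝓝 y] fun _ => 0) :
    adj V f =ᶠ[𝓝 y] fun _ => 0 := by
  filter_upwards [h, h.fderiv (𝕜 := ℝ)] with z h1 h2
  simp [adj, VD, h1, h2]

theorem barb_zero (M : Model) {f : E → ℝ} {y : E} (h : f =ᶠ[𝓝 y] fun _ => 0) :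
    fderiv ℝ f y = 0 ∧ fderiv ℝ (fderiv ℝ f) y = 0 ∧ Pstar M f y = 0 := by
  refine ⟨by simp [h.fderiv_eq], ?_, ?_⟩
  · rw [(h.fderiv (𝕜 := ℝ)).fderiv_eq]
    simp
  · simp [Pstar, (barb_adj _ (barb_adj _ h)).eq_of_nhds, (barb_adj _ h).eq_of_nhds]

theorem barb_pow {K s t : ℝ} (hK : 1 ≤ K) (hs : 0 ≤ s) (ht : 0 ≤ t) (h : s ≤ K * t) {n : ℕ}
    (hn : n ≤ 4) : s ^ n ≤ K ^ 4 * t ^ n :=
  (pow_le_pow_left₀ hs h n).trans (by
    rw [mul_pow]
    exact mul_le_mul_of_nonneg_right (pow_le_pow_right₀ hK hn) (by positivity))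

theorem barrier (M : Model) {R1 : ℝ} (hR1 : 0 < R1) : ∃ r c0 C : ℝ, 0 < r ∧ r ≤ R1 ∧ 0 < c0 ∧
    0 ≤ C ∧ ∀ x : E, ∃ Φ Q : E → ℝ, (∀ y, 0 ≤ Φ y) ∧
      (∀ y, ‖y - x‖ < r → c0 * ‖y - x‖⁻¹ ^ 2 ≤ Φ y) ∧
      (∀ y, y ≠ x → 0 ≤ Q y ∧ Q y ≤ C * ‖y - x‖⁻¹ ^ 3) ∧
      (∀ y, y ≠ x → ‖y - x‖ < r → c0 ≤ Q y) ∧
      (∀ y, R1 ≤ ‖y - x‖ → Φ y = 0 ∧ Q y = 0) ∧ Integrable Q ∧
      ∀ U : E → ℝ, ContDiff ℝ 2 U → Integrable (fun y => Φ y * tr (H M U y)) ∧
        Integrable (fun y => Q y * (U y - U x)) ∧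
        ∫ y, Φ y * tr (H M U y) = ∫ y, Q y * (U y - U x) := by
  obtain ⟨C₁, hC₁, hb⟩ := barf_facts
  obtain ⟨C₂, hC₂, hr⟩ := radial_facts M
  have hK := M.K_pos
  obtain ⟨R, hR, hR1', hR2, hR3⟩ : ∃ R : ℝ, 0 < R ∧ R ≤ 1 ∧ M.K * R ≤ R1 ∧ C₂ * (C₁ * R) ≤ 1 / 2 := by
    have h0 : 0 < 2 * (C₂ * C₁) + 1 := by positivity
    refine ⟨min 1 (min (R1 / M.K) (1 / (2 * (C₂ * C₁) + 1))), by positivity, min_le_left _ _,
      (le_div_iff₀' hK).1 ((min_le_right _ _).trans (min_le_left _ _)), ?_⟩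
    have h1 := (le_div_iff₀ h0).1 ((min_le_right 1 _).trans
      (min_le_right (R1 / M.K) (1 / (2 * (C₂ * C₁) + 1))))
    have h2 : 0 ≤ min 1 (min (R1 / M.K) (1 / (2 * (C₂ * C₁) + 1))) := by positivity
    nlinarith
  obtain ⟨f1, f2, d1, d2, b0, b1, b2, b3⟩ := hb R hR hR1'
  have hC : 0 < C₁ := by
    have h1 := (b3 (R / 2) (by positivity) le_rfl).1.trans
      ((le_abs_self _).trans (b2 (R / 2) (by positivity)).1)
    have h2 : 0 < (R / 2)⁻¹ ^ 2 := by positivity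
    nlinarith
  have hK1 := M.one_le
  have hK2 : 1 ≤ M.K ^ 2 := one_le_pow₀ hK1
  refine ⟨R / (2 * M.K), 1 / (8 * M.K ^ 2), 2 * C₁ * R⁻¹ * M.K ^ 4, by positivity, ?_,
    by positivity, by positivity, fun x => ?_⟩
  · rw [div_le_iff₀ (by positivity)]
    nlinarith
  have hρ : ∀ y, y ≠ x → 0 < ‖M.A x (y - x)‖ := fun y hy => by
    have h1 := (norm_pos_iff.2 (sub_ne_zero.2 hy)).trans_le (M.low x (y - x))
    exact (mul_pos_iff_of_pos_left hK).1 h1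
  have hinv : ∀ y, y ≠ x → ‖M.A x (y - x)‖⁻¹ ≤ M.K * ‖y - x‖⁻¹ := fun y hy => by
    rw [← div_eq_mul_inv, inv_eq_one_div,
      div_le_div_iff₀ (hρ y hy) (norm_pos_iff.2 (sub_ne_zero.2 hy)), one_mul]
    exact M.low x (y - x)
  have hpow : ∀ y, y ≠ x → ∀ n ≤ 4, ‖M.A x (y - x)‖⁻¹ ^ n ≤ M.K ^ 4 * ‖y - x‖⁻¹ ^ n :=
    fun y hy n hn => barb_pow hK1 (by positivity) (by positivity) (hinv y hy) hn
  have hnear : ∀ y, ‖y - x‖ < R / (2 * M.K) → ‖M.A x (y - x)‖ ≤ R / 2 := fun y hy => by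
    have h1 := M.norm_A x (y - x)
    rw [lt_div_iff₀ (by positivity)] at hy
    linarith
  have hfar : ∀ y, R1 ≤ ‖y - x‖ → R ≤ ‖M.A x (y - x)‖ := fun y hy =>
    le_of_mul_le_mul_left (hR2.trans (hy.trans (M.low x (y - x)))) hK
  have hout : ∀ y, 1 < ‖M.A x (y - x)‖ →
      (fun y => barf R (‖M.A x (y - x)‖ ^ 2)) =ᶠ[𝓝 y] fun _ => 0 := fun y hy => by
    have h1 : Continuous fun y => ‖M.A x (y - x)‖ := by fun_prop
    filter_upwards [(isOpen_lt continuous_const h1).mem_nhds hy] with z hz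
    exact (b1 _ (hR1'.trans (le_of_lt hz))).1
  have hQ : ∀ y, y ≠ x → ‖M.A x (y - x)‖ ≤ 1 →
      (‖M.A x (y - x)‖ ^ 2 * f2 (‖M.A x (y - x)‖ ^ 2) + 2 * f1 (‖M.A x (y - x)‖ ^ 2)) / 2 ≤
        Pstar M (fun y => barf R (‖M.A x (y - x)‖ ^ 2)) y ∧
      0 ≤ Pstar M (fun y => barf R (‖M.A x (y - x)‖ ^ 2)) y ∧
      Pstar M (fun y => barf R (‖M.A x (y - x)‖ ^ 2)) y ≤
        2 * (‖M.A x (y - x)‖ ^ 2 * f2 (‖M.A x (y - x)‖ ^ 2) + 2 * f1 (‖M.A x (y - x)‖ ^ 2)) := by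
    intro y hy h1
    have h2 := (hr x y _ f1 f2 hy h1 d1 d2).2.2
    have h3 := (b2 _ (hρ y hy)).2.2.2.1
    have h4 : 0 < C₁ * R := by positivity
    have h5 := nonneg_of_mul_nonneg_right (le_trans (by positivity) h3) h4
    have h6 := mul_le_mul_of_nonneg_left h3 hC₂
    have h7 := mul_le_mul_of_nonneg_right hR3 h5
    have h8 := abs_le.1 h2
    refine ⟨?_, ?_, ?_⟩ <;> linarith [h8.1, h8.2]
  have hQb : ∀ y, y ≠ x → 0 ≤ Pstar M (fun y => barf R (‖M.A x (y - x)‖ ^ 2)) y ∧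
      Pstar M (fun y => barf R (‖M.A x (y - x)‖ ^ 2)) y ≤
        2 * C₁ * R⁻¹ * M.K ^ 4 * ‖y - x‖⁻¹ ^ 3 := fun y hy => by
    rcases le_or_gt ‖M.A x (y - x)‖ 1 with h1 | h1
    · refine ⟨(hQ y hy h1).2.1, (hQ y hy h1).2.2.trans ?_⟩
      have h2 := (b2 _ (hρ y hy)).2.2.2.2
      have h3 := mul_le_mul_of_nonneg_left (hpow y hy 3 (by norm_num))
        (show 0 ≤ C₁ * R⁻¹ by positivity)
      linarith
    · rw [(barb_zero M (hout y h1)).2.2]
      exact ⟨le_rfl, by positivity⟩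
  have hz : ∀ y, R1 ≤ ‖y - x‖ → barf R (‖M.A x (y - x)‖ ^ 2) = 0 ∧
      Pstar M (fun y => barf R (‖M.A x (y - x)‖ ^ 2)) y = 0 := fun y hy => by
    have hy' : y ≠ x := fun e => by
      rw [e, sub_self, norm_zero] at hy
      exact absurd hy (not_le.2 hR1)
    obtain ⟨h1, h2, h3⟩ := b1 _ (hfar y hy)
    refine ⟨h1, ?_⟩
    rcases le_or_gt ‖M.A x (y - x)‖ 1 with h4 | h4
    · refine le_antisymm ((hQ y hy' h4).2.2.trans (le_of_eq ?_)) (hQ y hy' h4).2.1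
      rw [h2, h3]
      ring
    · exact (barb_zero M (hout y h4)).2.2
  refine ⟨fun y => barf R (‖M.A x (y - x)‖ ^ 2), Pstar M fun y => barf R (‖M.A x (y - x)‖ ^ 2),
    fun y => b0 _ (sq_nonneg _), fun y hy => ?_, hQb, fun y hy h => ?_, hz, ?_,
    fun U hU => adjS M (R := R1) (C := (C₁ + 2 * (C₂ * C₁)) * M.K ^ 4) hU (fun y hy => (hz y hy).1)
      (fun y hy => radial_diff M x y _ f1 f2 hy d1 d2) fun y hy => ?_⟩
  · rcases eq_or_ne y x with rfl | hy'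
    · simpa using b0 0 le_rfl
    · refine le_trans ?_ (b3 _ (hρ y hy') (hnear y hy)).1
      have h1 : ‖y - x‖⁻¹ ≤ M.K * ‖M.A x (y - x)‖⁻¹ := by
        rw [← div_eq_mul_inv, inv_eq_one_div,
          div_le_div_iff₀ (norm_pos_iff.2 (sub_ne_zero.2 hy')) (hρ y hy'), one_mul]
        exact M.norm_A x (y - x)
      have h2 := pow_le_pow_left₀ (by positivity) h1 2
      rw [one_div, inv_mul_le_iff₀ (by positivity)]
      linarith
  · have h1 := hnear y h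
    have h2 := (hQ y hy (by linarith)).1
    have h3 := (b3 _ (hρ y hy) h1).2
    have h4 : 1 / (8 * M.K ^ 2) ≤ 1 / 2 := one_div_le_one_div_of_le two_pos (by linarith)
    linarith
  · have h1 : Measurable fun y => barf R (‖M.A x (y - x)‖ ^ 2) := by
      unfold barf
      fun_prop
    refine IntegrableOn.integrable_of_forall_notMem_eq_zero (s := ball x R1)
      (((integrableOn_inv_cube x R1).const_mul (2 * C₁ * R⁻¹ * M.K ^ 4)).mono'
        (measurable_Pstar M h1).aestronglyMeasurable (ae_restrict_of_ae ?_))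
      fun y hy => (hz y (by simpa [dist_eq_norm] using hy)).2
    filter_upwards [barb_ae x] with y hy
    rw [Real.norm_of_nonneg (hQb y hy).1]
    exact (hQb y hy).2
  · obtain ⟨e0, e1, e2, -⟩ := b2 _ (hρ y hy)
    have p2 := hpow y hy 2 (by norm_num)
    have p3 := hpow y hy 3 (by norm_num)
    have p4 := hpow y hy 4 (by norm_num)
    have hρ' := hρ y hy
    have hCC : 0 ≤ C₂ * C₁ := by positivity
    refine ⟨e0.trans ?_, ?_⟩
    · have h1 := mul_le_mul_of_nonneg_left p2 hC₁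
      have h2 : 0 ≤ C₂ * C₁ * (M.K ^ 4 * ‖y - x‖⁻¹ ^ 2) := by positivity
      linarith
    rcases le_or_gt ‖M.A x (y - x)‖ 1 with h1 | h1
    · obtain ⟨r1, r2, -⟩ := hr x y _ f1 f2 hy h1 d1 d2
      generalize ‖M.A x (y - x)‖ = ρ at *
      have q1 : ρ * |f1 (ρ ^ 2)| ≤ C₁ * ρ⁻¹ ^ 3 :=
        (mul_le_mul_of_nonneg_left e1 hρ'.le).trans_eq (by field_simp)
      have q2 : ρ ^ 2 * |f2 (ρ ^ 2)| ≤ C₁ * ρ⁻¹ ^ 4 :=
        (mul_le_mul_of_nonneg_left e2 (sq_nonneg ρ)).trans_eq (by field_simp)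
      have q3 := mul_le_mul_of_nonneg_left q1 hC₂
      have q4 := mul_le_mul_of_nonneg_left (add_le_add q2 e1) hC₂
      have q5 := mul_le_mul_of_nonneg_left p3 hCC
      have q6 := mul_le_mul_of_nonneg_left p4 hCC
      have q7 : 0 ≤ C₁ * (M.K ^ 4 * ‖y - x‖⁻¹ ^ 3) := by positivity
      have q8 : 0 ≤ C₁ * (M.K ^ 4 * ‖y - x‖⁻¹ ^ 4) := by positivity
      have q9 : 0 ≤ C₂ * C₁ * (M.K ^ 4 * ‖y - x‖⁻¹ ^ 3) := by positivity
      constructor <;> linarith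
    · obtain ⟨z1, z2, -⟩ := barb_zero M (hout y h1)
      rw [z1, z2, norm_zero, ContinuousLinearMap.opNorm_zero]
      constructor <;> positivity

theorem barb_int {R1 : ℝ} (hR1 : 0 < R1) (C : ℝ) : ∃ C' : ℝ≥0, ∀ (x : E) (Q g : E → ℝ) (B : ℝ),
    (∀ y, y ≠ x → 0 ≤ Q y ∧ Q y ≤ C * ‖y - x‖⁻¹ ^ 3) → (∀ y, R1 ≤ ‖y - x‖ → Q y = 0) →
    (∀ y, ‖y - x‖ < R1 → |g y| ≤ B) →
    ENNReal.ofReal (∫ y, Q y * g y) ≤ C' * ENNReal.ofReal B := by
  obtain ⟨C3, h3⟩ := leb_near 3 (by norm_num) (by norm_num)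
  refine ⟨|C|.toNNReal * (C3 * (R1 ^ (4 - 3)).toNNReal), fun x Q g B h1 h2 h4 => ?_⟩
  refine (Real.ofReal_le_enorm _).trans ((enorm_integral_le_lintegral_enorm _).trans ?_)
  calc ∫⁻ y, ‖Q y * g y‖ₑ ≤ ∫⁻ y, (ball x R1).indicator
        (fun y => ENNReal.ofReal B * ENNReal.ofReal |C| * kp 3 x y) y := by
        refine lintegral_mono_ae ?_
        filter_upwards [barb_ae x] with y hy
        by_cases hm : y ∈ ball x R1
        · have h5 := h4 y (mem_ball_iff_norm.1 hm)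
          have h6 : 0 ≤ B := (abs_nonneg _).trans h5
          rw [indicator_of_mem hm, kp, ← ENNReal.ofReal_mul h6,
            ← ENNReal.ofReal_mul (by positivity), Real.enorm_eq_ofReal_abs, abs_mul,
            abs_of_nonneg (h1 y hy).1, norm_sub_rev, mul_comm, mul_assoc]
          exact ENNReal.ofReal_le_ofReal (mul_le_mul h5 ((h1 y hy).2.trans
            (mul_le_mul_of_nonneg_right (le_abs_self C) (by positivity))) (h1 y hy).1 h6)
        · rw [h2 y (not_lt.1 fun h => hm (mem_ball_iff_norm.2 h)), zero_mul, enorm_zero]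
          exact zero_le
    _ = ENNReal.ofReal B * ENNReal.ofReal |C| * ∫⁻ y in ball x R1, kp 3 x y := by
        rw [lintegral_indicator measurableSet_ball,
          lintegral_const_mul' _ _ (ENNReal.mul_ne_top ENNReal.ofReal_ne_top ENNReal.ofReal_ne_top)]
    _ ≤ _ := by
        rw [mul_assoc, mul_comm]
        exact mul_le_mul_left (mul_le_mul_right (h3 x R1 hR1) _) _

theorem pot (M : Model) (c : E) {a b : ℝ} (ha : 0 < a) (hab : a < b) (B : ℝ) : ∃ C : ℝ≥0,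
    ∀ v, VOK M c b B v → ∀ x ∈ ball c a, ∫⁻ y in ball c a, kp 2 x y * eT M v y ≤ C := by
  obtain ⟨r, c0, C, hr, -, hc0, -, hB⟩ := barrier M (sub_pos.2 hab)
  obtain ⟨C1, h1⟩ := barb_int (sub_pos.2 hab) C
  obtain ⟨C2, h2⟩ := massV M c ha hab B
  refine ⟨c0⁻¹.toNNReal * (C1 * B.toNNReal) + (r⁻¹ ^ 2).toNNReal * C2, fun v hv x hx => ?_⟩
  obtain ⟨Φ, Q, p1, p2, p3, -, p5, -, p7⟩ := hB x
  have hv2 : ContDiff ℝ 2 v := hv.sm.of_le (by norm_num)
  obtain ⟨i1, -, i3⟩ := p7 v hv2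
  have hx' := mem_ball_iff_norm.1 hx
  have hm : ∀ y, ‖y - x‖ < b - a → y ∈ ball c b := fun y hy =>
    mem_ball_iff_norm.2 ((norm_sub_le_norm_sub_add_norm_sub y x c).trans_lt (by linarith))
  have hxb : x ∈ ball c b := ball_subset_ball hab.le hx
  have h3 : ∫⁻ y, ENNReal.ofReal (Φ y * tr (H M v y)) ≤
      C1 * ENNReal.ofReal B := by
    rw [← ofReal_integral_eq_lintegral_ofReal i1 (Eventually.of_forall fun y => ?_), i3]
    · refine h1 x Q _ B p3 (fun y hy => (p5 y hy).2) fun y hy => abs_le.2 ⟨?_, ?_⟩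
      · linarith [hv.nn y (hm y hy), hv.le x hxb]
      · linarith [hv.le y (hm y hy), hv.nn x hxb]
    · rcases lt_or_ge ‖y - x‖ (b - a) with hy | hy
      · exact mul_nonneg (p1 y) (psd_H M hv.psh (hm y hy)).tr_nonneg
      · simp [(p5 y hy).1]
  calc ∫⁻ y in ball c a, kp 2 x y * eT M v y ≤ ∫⁻ y in ball c a,
        (ENNReal.ofReal c0⁻¹ * ENNReal.ofReal (Φ y * tr (H M v y)) +
          ENNReal.ofReal (r⁻¹ ^ 2) * eT M v y) := by
        refine setLIntegral_mono' measurableSet_ball fun y hy => ?_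
        rcases lt_or_ge ‖y - x‖ r with h4 | h4
        · refine le_add_right ?_
          rw [ENNReal.ofReal_mul (p1 y), ← mul_assoc, ← ENNReal.ofReal_mul (by positivity), kp,
            norm_sub_rev]
          exact mul_le_mul_left
            (ENNReal.ofReal_le_ofReal ((le_inv_mul_iff₀ hc0).2 (p2 y h4))) _
        · refine le_add_left (mul_le_mul_left (ENNReal.ofReal_le_ofReal ?_) _)
          rw [norm_sub_rev]
          gcongr
    _ ≤ _ := by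
        rw [lintegral_add_right _ ((measurable_eT M hv2).const_mul _),
          lintegral_const_mul' _ _ ENNReal.ofReal_ne_top,
          lintegral_const_mul' _ _ ENNReal.ofReal_ne_top]
        exact add_le_add (mul_le_mul_right ((setLIntegral_le_lintegral _ _).trans h3) _)
          (mul_le_mul_right (h2 v hv) _)

theorem pot2 (M : Model) (c : E) {a b : ℝ} (ha : 0 < a) (hab : a < b) (B : ℝ) : ∃ C : ℝ≥0,
    ∀ v, VOK M c b B v → ∀ x ∈ ball c a, ∫⁻ y in ball c a, kp 2 x y * eG v y ^ 2 ≤ C := by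
  obtain ⟨C0, h0, h1⟩ := sq_facts M
  obtain ⟨C, h2⟩ := pot M c ha hab (B ^ 2)
  refine ⟨C0.toNNReal * C, fun v hv x hx => ?_⟩
  obtain ⟨h3, h4⟩ := h1 c b B v hv
  calc ∫⁻ y in ball c a, kp 2 x y * eG v y ^ 2
      ≤ ∫⁻ y in ball c a, ENNReal.ofReal C0 * (kp 2 x y * eT M (fun y => v y ^ 2) y) := by
        refine setLIntegral_mono' measurableSet_ball fun y hy => ?_
        rw [mul_left_comm, eG, eT, ← ENNReal.ofReal_mul h0, ← ofReal_norm,
          ← ENNReal.ofReal_pow (norm_nonneg _)]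
        exact mul_le_mul_right (ENNReal.ofReal_le_ofReal (h4 y (ball_subset_ball hab.le hy))) _
    _ ≤ _ := by
        rw [lintegral_const_mul' _ _ ENNReal.ofReal_ne_top]
        exact mul_le_mul_right (h2 _ h3 x hx) _

theorem submean (M : Model) {R1 : ℝ} (hR1 : 0 < R1) : ∃ r : ℝ, 0 < r ∧ r ≤ R1 ∧ ∃ C : ℝ≥0,
    ∀ (x : E) (U : E → ℝ), ContDiff ℝ 2 U → Psh M.J U (ball x R1) → (∀ y ∈ ball x R1, U y ≤ 0) →
      ∫⁻ y in ball x r, ‖U y‖ₑ ≤ C * ‖U x‖ₑ := by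
  obtain ⟨r, c0, C, hr, hr1, hc0, -, hB⟩ := barrier M hR1
  obtain ⟨C1, h1⟩ := barb_int hR1 C
  refine ⟨r, hr, hr1, c0⁻¹.toNNReal * C1, fun x U hU hp h0 => ?_⟩
  obtain ⟨Φ, Q, p1, -, p3, p4, p5, p6, p7⟩ := hB x
  obtain ⟨-, i2, i3⟩ := p7 U hU
  have h2 : 0 ≤ ∫ y, Q y * (U y - U x) := by
    rw [← i3]
    refine integral_nonneg fun y => ?_
    rcases lt_or_ge ‖y - x‖ R1 with hy | hy
    · exact mul_nonneg (p1 y) (psd_H M hp (mem_ball_iff_norm.2 hy)).tr_nonneg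
    · simp [(p5 y hy).1]
  have e : (fun y => Q y * -U y) = fun y => Q y * -U x - Q y * (U y - U x) := by
    funext y
    ring
  have i4 : Integrable fun y => Q y * -U y := e ▸ (p6.mul_const _).sub i2
  have h3 : ∫⁻ y, ENNReal.ofReal (Q y * -U y) ≤ C1 * ‖U x‖ₑ := by
    rw [← ofReal_integral_eq_lintegral_ofReal i4, e, integral_sub (p6.mul_const _) i2,
      Real.enorm_eq_ofReal_abs]
    · exact (ENNReal.ofReal_le_ofReal (sub_le_self _ h2)).trans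
        (h1 x Q _ _ p3 (fun y hy => (p5 y hy).2) fun y _ => (abs_neg _).le)
    · filter_upwards [barb_ae x] with y hy
      rcases lt_or_ge ‖y - x‖ R1 with h4 | h4
      · exact mul_nonneg (p3 y hy).1 (neg_nonneg.2 (h0 y (mem_ball_iff_norm.2 h4)))
      · simp [(p5 y h4).2]
  calc ∫⁻ y in ball x r, ‖U y‖ₑ
      ≤ ∫⁻ y in ball x r, ENNReal.ofReal c0⁻¹ * ENNReal.ofReal (Q y * -U y) := by
        refine setLIntegral_mono_ae' measurableSet_ball ?_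
        filter_upwards [barb_ae x] with y hy hm
        have h4 := h0 y (ball_subset_ball hr1 hm)
        rw [← ENNReal.ofReal_mul (by positivity), Real.enorm_eq_ofReal_abs, abs_of_nonpos h4]
        exact ENNReal.ofReal_le_ofReal ((le_inv_mul_iff₀ hc0).2 (mul_le_mul_of_nonneg_right
          (p4 y hy (mem_ball_iff_norm.1 hm)) (neg_nonneg.2 h4)))
    _ ≤ _ := by
        rw [lintegral_const_mul' _ _ ENNReal.ofReal_ne_top, ENNReal.coe_mul, mul_assoc]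
        exact mul_le_mul_right ((setLIntegral_le_lintegral _ _).trans h3) _

end Pool.Agent.Lib.MP_f2cf74_an
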