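import Pool.Agent.Lib.MP_f2cf74_an.Defs

/-! Working definitions: a global model of an almost complex structure with a frame, the Levi
form, viscosity plurisubharmonicity, the hermitian matrix `H`, kernels. -/

open Set Metric MeasureTheory Complex Filter Topology
open scoped ContDiff ENNReal NNReal

noncomputable section

namespace Pool.Agent.Lib.MP_f2cf74_an

/-- The model space `ℂ²`. -/
abbrev F := EuclideanSpace ℂ (Fin 2)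

def ee (j : Fin 2) : F := EuclideanSpace.single j 1

/-- A global almost complex structure `J` on `ℝ⁴` with constant fields `X 0, X 1` such that
`X j, J X j` is a frame; `A x` is the complex linear coordinate map of that frame. -/
structure Model where
  J : E → E →L[ℝ] E
  X : Fin 2 → E
  A : E → E →L[ℝ] F
  K : ℝ
  one_le : 1 ≤ K
  smJ : ContDiff ℝ ∞ J
  smA : ContDiff ℝ ∞ A
  JJ : ∀ x Y, J x (J x Y) = -Y
  AX : ∀ x j, A x (X j) = ee j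
  AJ : ∀ x Y, A x (J x Y) = I • A x Y
  span : ∀ x Y, Y = ∑ j, ((A x Y j).re • X j + (A x Y j).im • J x (X j))
  bX : ∀ j, ‖X j‖ ≤ K
  bJ : ∀ x, ‖J x‖ ≤ K
  bDJ : ∀ x, ‖fderiv ℝ J x‖ ≤ K
  lipDJ : ∀ x y, ‖fderiv ℝ J x - fderiv ℝ J y‖ ≤ K * ‖x - y‖
  bA : ∀ x, ‖A x‖ ≤ K
  bDA : ∀ x, ‖fderiv ℝ A x‖ ≤ K
  low : ∀ x Y, ‖Y‖ ≤ K * ‖A x Y‖

/-- The vector with frame coordinates `z`. -/
def Bv (J0 : E →L[ℝ] E) (X : Fin 2 → E) (z : F) : E :=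
  ∑ j, ((z j).re • X j + (z j).im • J0 (X j))

/-- The frame `X 0, J X 0, X 1, J X 1`. -/
def frame (J0 : E →L[ℝ] E) (X : Fin 2 → E) : Fin 4 → E := ![X 0, J0 (X 0), X 1, J0 (X 1)]

def det4 (v : Fin 4 → E) : ℝ := (Matrix.of fun i a => v i a).det

/-- Density of the volume form dual to the frame. -/
def dens (M : Model) (x : E) : ℝ := |det4 (frame (M.J x) M.X)|⁻¹

/-! ### Levi form and viscosity subsolutions -/

def beta (J : E → E →L[ℝ] E) (x Y : E) : E := fderiv ℝ J x (J x Y) Y - fderiv ℝ J x Y (J x Y)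

/-- The Levi form of a 2-jet `(p, A)` at `x`. -/
def jetL (J : E → E →L[ℝ] E) (x : E) (p : E →L[ℝ] ℝ) (A : E →L[ℝ] E →L[ℝ] ℝ) (Y : E) : ℝ :=
  A Y Y + A (J x Y) (J x Y) + p (beta J x Y)

def levi (J : E → E →L[ℝ] E) (f : E → ℝ) (x Y : E) : ℝ :=
  jetL J x (fderiv ℝ f x) (fderiv ℝ (fderiv ℝ f) x) Y

def Psh (J : E → E →L[ℝ] E) (f : E → ℝ) (S : Set E) : Prop := ∀ x ∈ S, ∀ Y, 0 ≤ levi J f x Y

/-- `(p, A)` is a second order superjet of `w` at `x`. -/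
def SJ {G : Type} [NormedAddCommGroup G] [NormedSpace ℝ G] (w : G → ℝ) (x : G) (p : G →L[ℝ] ℝ)
    (A : G →L[ℝ] G →L[ℝ] ℝ) : Prop :=
  ∀ ε > 0, ∀ᶠ y in 𝓝 x, w y ≤ w x + p (y - x) + A (y - x) (y - x) / 2 + ε * ‖y - x‖ ^ 2

/-- `w` is a viscosity subsolution of `Levi ≥ -e ‖·‖²` at `x`. -/
def Visc (J : E → E →L[ℝ] E) (w : E → ℝ) (x : E) (e : ℝ) : Prop :=
  ∀ p A, SJ w x p A → ∀ Y, -(e * ‖Y‖ ^ 2) ≤ jetL J x p A Y

/-- Sup-convolution over the set `S`. -/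
def supc (W : E → ℝ) (S : Set E) (δ : ℝ) (x : E) : ℝ :=
  sSup ((fun y => W y - ‖x - y‖ ^ 2 / (2 * δ)) '' S)

/-- The quadratic curve with 1-jet `(a, b)` and Laplacian `β`. -/
def gam (x a b β : E) (ζ : ℂ) : E := x + ζ.re • a + ζ.im • b + (‖ζ‖ ^ 2 / 4) • β

/-- Truncation of an extended real function. -/
def trunc (u : E → EReal) (N : ℝ) (x : E) : ℝ := (max (u x) ((-N : ℝ) : EReal)).toReal

/-! ### Forms -/

/-- Real bilinear alternating forms with values in an `ℝ`-algebra. -/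
structure IsAlt {R : Type} [CommRing R] [Algebra ℝ R] (Φ : E → E → R) : Prop where
  add : ∀ Y Y' Z, Φ (Y + Y') Z = Φ Y Z + Φ Y' Z
  smul : ∀ (c : ℝ) Y Z, Φ (c • Y) Z = c • Φ Y Z
  anti : ∀ Y Z, Φ Y Z = -Φ Z Y

/-- `d^c f = -df ∘ J`. -/
def eta (J : E → E →L[ℝ] E) (f : E → ℝ) (x Y : E) : ℝ := -fderiv ℝ f x (J x Y)

/-- `dd^c f`. -/
def Om (J : E → E →L[ℝ] E) (f : E → ℝ) (x Y Z : E) : ℝ :=
  -fderiv ℝ (fderiv ℝ f) x Y (J x Z) - fderiv ℝ f x (fderiv ℝ J x Y Z) +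
    fderiv ℝ (fderiv ℝ f) x Z (J x Y) + fderiv ℝ f x (fderiv ℝ J x Z Y)

/-- Real exterior derivative of a 1-form field. -/
def dR (α : E → E → ℝ) (x Y Z : E) : ℝ :=
  fderiv ℝ (fun y => α y Z) x Y - fderiv ℝ (fun y => α y Y) x Z

/-- The hermitian matrix of the `(1,1)` part of a real 2-form in the frame. -/
def hm (Φ : E → E → ℝ) (J0 : E →L[ℝ] E) (X : Fin 2 → E) (j k : Fin 2) : ℂ :=
  (((Φ (X j) (J0 (X k)) - Φ (J0 (X j)) (X k)) / 8 : ℝ) : ℂ) -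
    I * (((Φ (X j) (X k) + Φ (J0 (X j)) (J0 (X k))) / 8 : ℝ) : ℂ)

/-- The `(2,0)` part of a real 2-form in the frame. -/
def sig (Φ : E → E → ℝ) (J0 : E →L[ℝ] E) (X : Fin 2 → E) : ℂ :=
  ((Φ (X 0) (X 1) - Φ (J0 (X 0)) (J0 (X 1)) : ℝ) : ℂ) -
    I * ((Φ (X 0) (J0 (X 1)) + Φ (J0 (X 0)) (X 1) : ℝ) : ℂ)

def H (M : Model) (f : E → ℝ) (x : E) : Fin 2 → Fin 2 → ℂ := hm (Om M.J f x) (M.J x) M.X

def tr (α : Fin 2 → Fin 2 → ℂ) : ℝ := (α 0 0).re + (α 1 1).re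

/-- Mixed discriminant: `Dd α α = 2 det α`. -/
def Dd (α β : Fin 2 → Fin 2 → ℂ) : ℝ :=
  (α 0 0).re * (β 1 1).re + (α 1 1).re * (β 0 0).re - 2 * (α 0 1 * (starRingEnd ℂ) (β 0 1)).re

def Hq (α : Fin 2 → Fin 2 → ℂ) (z : F) : ℝ :=
  (∑ j, ∑ k, z j * (starRingEnd ℂ) (z k) * α j k).re

structure PSD (α : Fin 2 → Fin 2 → ℂ) : Prop where
  herm : ∀ j k, α k j = (starRingEnd ℂ) (α j k)
  pos : ∀ z, 0 ≤ Hq α z

/-- The vector field `N₁` (a Nijenhuis vector) giving the `(2,0)` part of `dd^c f`. -/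
def Nij (M : Model) (x : E) : E :=
  -fderiv ℝ M.J x (M.X 0) (M.X 1) + fderiv ℝ M.J x (M.X 1) (M.X 0) +
    fderiv ℝ M.J x (M.J x (M.X 0)) (M.J x (M.X 1)) - fderiv ℝ M.J x (M.J x (M.X 1)) (M.J x (M.X 0))

/-- `sig` of `dd^c` of a function with differential `g` at `x`. -/
def sigg (M : Model) (x : E) (g : E →L[ℝ] ℝ) : ℂ :=
  (g (Nij M x) : ℂ) + I * (g (M.J x (Nij M x)) : ℂ)

/-- `Lbar_j` applied to a function with differential `g`. -/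
def Lg (M : Model) (j : Fin 2) (x : E) (g : E →L[ℝ] ℝ) : ℂ :=
  ((g (M.X j) : ℂ) + I * (g (M.J x (M.X j)) : ℂ)) / 2

/-- `Lbar_j f`. -/
def Lb (M : Model) (j : Fin 2) (f : E → ℝ) (x : E) : ℂ := Lg M j x (fderiv ℝ f x)

/-- `L_j G` for `c = -I`, `Lbar_j G` for `c = I`. -/
def Lc (M : Model) (c : ℂ) (j : Fin 2) (G : E → ℂ) (x : E) : ℂ :=
  (fderiv ℝ G x (M.X j) + c * fderiv ℝ G x (M.J x (M.X j))) / 2

def divg (V : E → E) (x : E) : ℝ := ∑ i, fderiv ℝ V x (eb i) i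

def dvc (M : Model) (c : ℂ) (j : Fin 2) (x : E) : ℂ :=
  c * (divg (fun y => M.J y (M.X j)) x : ℂ) / 2

/-- The density of the Monge-Ampere current in the frame, a quadratic form in the covector `g`. -/
def m0 (M : Model) (f : E → ℝ) (x : E) (g : E →L[ℝ] ℝ) : ℝ :=
  -(top22 (w11 g (fun Y => -g (M.J x Y))) (Om M.J f x) (frame (M.J x) M.X) +
      (sigg M x g * (4 * I * (Lb M 0 f x * Lg M 1 x g - Lb M 1 f x * Lg M 0 x g))).re +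
      f x * ‖sigg M x g‖ ^ 2 / 2) / 4

/-! ### Kernels -/

def kp (p : ℕ) (x y : E) : ℝ≥0∞ := ENNReal.ofReal (‖x - y‖⁻¹ ^ p)

/-- The weight `ρ⁻⁴ (log ρ)⁻²`. -/
def wW (x y : E) : ℝ≥0∞ := ENNReal.ofReal (‖x - y‖⁻¹ ^ 4 / Real.log ‖x - y‖ ^ 2)

/-- An integrable singularity dominating all the ones that occur. -/
def sg (y x : E) : ℝ := ‖x - y‖ ^ (-(7 / 2) : ℝ)

def cut (t : ℝ) : ℝ := max (1 - t) 0 ^ 3

/-- Flat Wirtinger derivatives on `ℂ²`: `∂_p` for `c = -I`, `∂bar_p` for `c = I`. -/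
def dF (c : ℂ) (p : Fin 2) (k : F → ℂ) (z : F) : ℂ :=
  (fderiv ℝ k z (ee p) + c * fderiv ℝ k z (I • ee p)) / 2

/-- `Z` is a coordinate map centred at `y` adapted to the frame to first order. -/
structure Coord (M : Model) (y : E) (Z : E → F) : Prop where
  diff : ContDiff ℝ 1 Z
  der : ∀ x, ‖fderiv ℝ Z x - M.A x‖ ≤ M.K * ‖x - y‖
  up : ∀ x, ‖Z x‖ ≤ M.K * ‖x - y‖
  low : ∀ x, ‖x - y‖ ≤ M.K * ‖Z x‖

/-- The adjoint divergence of the kernel `k ∘ Z`. -/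
def dvK (M : Model) (c : ℂ) (k : Fin 2 → F → ℂ) (Z : E → F) (x : E) : ℂ :=
  ∑ p, (Lc M c p (fun x' => k p (Z x')) x + dvc M c p x * k p (Z x))

/-- Truncation of a flat kernel at scale `s`. -/
def ktr (s : ℝ) (k : Fin 2 → F → ℂ) (p : Fin 2) (z : F) : ℂ := k p z * (cut (‖z‖ ^ 2 / s ^ 2) : ℂ)

/-- The Bochner-Martinelli type kernel `z_p / ‖z‖⁴`. -/
def kBM (p : Fin 2) (z : F) : ℂ := z p * (((‖z‖ ^ 2)⁻¹ ^ 2 : ℝ) : ℂ)

def Kk (M : Model) (s : ℝ) (j : Fin 2) (x y : E) : ℂ := ktr s kBM j (M.A y (y - x))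

def chiF (s : ℝ) (z : F) : ℝ := 3 * (s ^ 2)⁻¹ * (‖z‖ ^ 2)⁻¹ * max (1 - ‖z‖ ^ 2 / s ^ 2) 0 ^ 2

def chi (M : Model) (s : ℝ) (x y : E) : ℝ := chiF s (M.A y (y - x))

def N0 (M : Model) (x : E) : ℝ := ∫ h, chiF 1 (M.A x h)

/-- The cut-off `a² (3τ + a) / (τ + a)³`. -/
def om (a τ : ℝ) : ℝ := a ^ 2 * (3 * τ + a) / (τ + a) ^ 3
def Qf (a τ : ℝ) : ℝ := a ^ 2 * (4 * τ + 2 * a) / (τ * (τ + a) ^ 3)
def Gf (a τ : ℝ) : ℝ := -(a * (3 * τ + 2 * a) / (τ * (τ + a) ^ 2))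

/-- Kernel of the Lelong number estimate. -/
def kLel (q p : Fin 2) (z : F) : ℂ :=
  ((-Real.log (‖z‖ ^ 2) * (‖z‖ ^ 2)⁻¹ ^ 2 : ℝ) : ℂ) * z p * (starRingEnd ℂ) (z q)

/-- Kernels of the cancellation estimate. -/
def kC1 (a : ℝ) (j n q p : Fin 2) (z : F) : ℂ :=
  ((Gf a (‖z‖ ^ 2) * (‖z‖ ^ 2)⁻¹ ^ 2 : ℝ) : ℂ) * z j * z n * z p * (starRingEnd ℂ) (z q)

def kC2 (a : ℝ) (j n q : Fin 2) (z : F) : ℂ :=
  ((Qf a (‖z‖ ^ 2) * (‖z‖ ^ 2)⁻¹ ^ 2 : ℝ) : ℂ) * z j * z n * (starRingEnd ℂ) (z q) -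
    if q = n then (om a (‖z‖ ^ 2) : ℂ) * kBM j z else 0

/-- Size of a flat kernel and of its derivative at `z`. -/
structure KB (k : F → ℂ) (z : F) (κ : ℝ) : Prop where
  diff : DifferentiableAt ℝ k z
  b0 : ‖k z‖ ≤ κ
  b1 : ‖fderiv ℝ k z‖ * ‖z‖ ≤ κ

/-- The main term of the representation of `Lbar_k f`. -/
def AH (M : Model) (s : ℝ) (k : Fin 2) (f : E → ℝ) (x : E) : ℂ :=
  ∫ y, ∑ j, Kk M s j x y * H M f y j k

/-- Derivative along a vector field and its formal adjoint (up to sign). -/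
def VD (V : E → E) (f : E → ℝ) (x : E) : ℝ := fderiv ℝ f x (V x)
def adj (V : E → E) (f : E → ℝ) (x : E) : ℝ := VD V f x + divg V x * f x

def vX (M : Model) (j : Fin 2) : E → E := fun _ => M.X j
def vY (M : Model) (j : Fin 2) : E → E := fun y => M.J y (M.X j)
def vB (M : Model) (j : Fin 2) : E → E := fun y => -fderiv ℝ M.J y (M.X j) (M.J y (M.X j))

/-- The formal adjoint of `f ↦ tr (H M f)`. -/
def Pstar (M : Model) (Φ : E → ℝ) (x : E) : ℝ :=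
  (∑ j, (adj (vX M j) (adj (vX M j) Φ) x + adj (vY M j) (adj (vY M j) Φ) x - adj (vB M j) Φ x)) / 4

/-- Profile of the barrier `r⁻² (1 - r / R)₊³` as a function of `τ = r²`. -/
def barf (R τ : ℝ) : ℝ := τ⁻¹ * max (1 - √τ / R) 0 ^ 3

def barF (M : Model) (R : ℝ) (x y : E) : ℝ := barf R (‖M.A x (y - x)‖ ^ 2)

/-! ### Classes of functions -/

/-- Bounded upper semicontinuous viscosity plurisubharmonic functions on a closed ball. -/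
structure WOK (M : Model) (c : E) (R B : ℝ) (W : E → ℝ) : Prop where
  usc : UpperSemicontinuousOn W (closedBall c R)
  bd : ∀ x ∈ closedBall c R, |W x| ≤ B
  visc : ∀ x ∈ ball c R, Visc M.J W x 0

/-- Bounds for two derivatives on an annulus. -/
def Ann (c : E) (a b B : ℝ) (v : E → ℝ) : Prop :=
  ∀ x, a ≤ ‖x - c‖ → ‖x - c‖ < b → ‖fderiv ℝ v x‖ ≤ B ∧ ‖fderiv ℝ (fderiv ℝ v) x‖ ≤ B

/-- Bounded Lipschitz coefficients on a ball. -/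
def LipB (c : E) (b L : ℝ) (β : E → ℂ) : Prop :=
  (∀ x ∈ ball c b, ‖β x‖ ≤ L) ∧ ∀ x ∈ ball c b, ∀ y ∈ ball c b, ‖β x - β y‖ ≤ L * ‖x - y‖

structure UOK (M : Model) (c : E) (b : ℝ) (u : E → ℝ) : Prop where
  sm : ContDiff ℝ 3 u
  psh : Psh M.J u (ball c b)

structure VOK (M : Model) (c : E) (b B : ℝ) (v : E → ℝ) : Prop where
  sm : ContDiff ℝ 3 v
  psh : Psh M.J v (ball c b)
  nn : ∀ x ∈ ball c b, 0 ≤ v x
  le : ∀ x ∈ ball c b, v x ≤ B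

def nU (c : E) (b : ℝ) (u : E → ℝ) : ℝ≥0∞ := ∫⁻ x in ball c b, ‖u x‖ₑ
def eT (M : Model) (f : E → ℝ) (x : E) : ℝ≥0∞ := ENNReal.ofReal (tr (H M f x))
def eG (f : E → ℝ) (x : E) : ℝ≥0∞ := ‖fderiv ℝ f x‖ₑ
def eD (M : Model) (u v : E → ℝ) (x y : E) : ℝ≥0∞ := ENNReal.ofReal (Dd (H M u x) (H M v y))

/-! ### Cauchy transform -/

def dz (q : ℂ → F) (ζ : ℂ) : F := (1 / 2 : ℂ) • (fderiv ℝ q ζ 1 - I • fderiv ℝ q ζ I)
def dzb (q : ℂ → F) (ζ : ℂ) : F := (1 / 2 : ℂ) • (fderiv ℝ q ζ 1 + I • fderiv ℝ q ζ I)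
def cT (q : ℂ → F) (z : ℂ) : F := ∫ w : ℂ, ((Real.pi : ℂ) * w)⁻¹ • q (z - w)

end Pool.Agent.Lib.MP_f2cf74_an
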