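import Mathlib

/-! Definitions used in the statement.  `V` is the model space (it will be `ℝ⁴`), `b` is its
standard basis, `M` is a manifold modelled on `V`. -/

open Set Metric MeasureTheory Complex
open scoped ContDiff Manifold

noncomputable section

namespace Pool.Agent.Lib.MP_f2cf74_an.St

/-- The model space `ℝ⁴`. -/
abbrev R4 := EuclideanSpace ℝ (Fin 4)

/-- The standard basis of `ℝ⁴`. -/
def basis4 (i : Fin 4) : R4 := EuclideanSpace.single i 1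

/-- `w : ℂ → [-∞, ∞)` is subharmonic or identically `-∞` on (each component of) the open set `U`:
upper semicontinuous, and dominated on every closed disc by each function that is continuous on
the closed disc, harmonic inside and dominates `w` on the boundary circle. -/
def IsSubharm (w : ℂ → EReal) (U : Set ℂ) : Prop :=
  UpperSemicontinuousOn w U ∧ (∀ z ∈ U, w z ≠ ⊤) ∧
    ∀ (a : ℂ) (r : ℝ) (h : ℂ → ℝ), 0 < r → closedBall a r ⊆ U → ContinuousOn h (closedBall a r) →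
      InnerProductSpace.HarmonicOnNhd h (ball a r) → (∀ z ∈ sphere a r, w z ≤ (h z : EReal)) →
        ∀ z ∈ ball a r, w z ≤ (h z : EReal)

section Chart

variable {V : Type} [NormedAddCommGroup V] [InnerProductSpace ℝ V]

/-- Test functions on `Ω`. -/
def IsTest (Ω : Set V) (f : V → ℝ) : Prop :=
  ContDiff ℝ ∞ f ∧ HasCompactSupport f ∧ tsupport f ⊆ Ω

/-- `G` is a weak differential of `v` on `Ω` that is locally square integrable. -/
def IsWeakGrad [MeasureSpace V] (Ω : Set V) (v : V → ℝ) (G : V → V →L[ℝ] ℝ) : Prop :=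
  (∀ K, IsCompact K → K ⊆ Ω → MemLp G 2 (volume.restrict K)) ∧
    ∀ f, IsTest Ω f → ∀ Y, ∫ x in Ω, v x * fderiv ℝ f x Y = -∫ x in Ω, G x Y * f x

/-- Complex valued 1-, 2- and 3-forms at a point, as functions of real tangent vectors. -/
abbrev F1 (V : Type) := V → ℂ
abbrev F2 (V : Type) := V → V → ℂ
abbrev F3 (V : Type) := V → V → V → ℂ

/-- Projection in one slot: `s = -I` gives the `(1,0)` part, `s = I` the `(0,1)` part. -/
def pr1 (J0 : V →L[ℝ] V) (s : ℂ) (α : F1 V) : F1 V := fun Y => (α Y + s * α (J0 Y)) / 2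

def pr2 (J0 : V →L[ℝ] V) (s t : ℂ) (Φ : F2 V) : F2 V :=
  fun Y Z => pr1 J0 s (fun Y' => pr1 J0 t (Φ Y') Z) Y

def pr3 (J0 : V →L[ℝ] V) (s t r : ℂ) (κ : F3 V) : F3 V :=
  fun Y Z U => pr1 J0 s (fun Y' => pr2 J0 t r (κ Y') Z U) Y

/-- The parts of bidegree `(1,0)`, `(0,1)`, `(2,0)`, `(0,2)`, `(1,1)`, `(2,1)`. -/
def p10 (J0 : V →L[ℝ] V) (α : F1 V) : F1 V := pr1 J0 (-I) α
def p01 (J0 : V →L[ℝ] V) (α : F1 V) : F1 V := pr1 J0 I α
def p20 (J0 : V →L[ℝ] V) (Φ : F2 V) : F2 V := pr2 J0 (-I) (-I) Φ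
def p02 (J0 : V →L[ℝ] V) (Φ : F2 V) : F2 V := pr2 J0 I I Φ
def p11 (J0 : V →L[ℝ] V) (Φ : F2 V) : F2 V := pr2 J0 (-I) I Φ + pr2 J0 I (-I) Φ
def p21 (J0 : V →L[ℝ] V) (κ : F3 V) : F3 V :=
  pr3 J0 (-I) (-I) I κ + pr3 J0 (-I) I (-I) κ + pr3 J0 I (-I) (-I) κ

/-- A real covector as a complex 1-form. -/
def cx (g : V →L[ℝ] ℝ) : F1 V := fun Y => (g Y : ℂ)

/-- Exterior derivative of a 1-form field. -/
def d1 (α : V → F1 V) (x : V) : F2 V :=
  fun Y Z => fderiv ℝ (fun y => α y Z) x Y - fderiv ℝ (fun y => α y Y) x Z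

/-- Exterior derivative of a 2-form field. -/
def d2 (Φ : V → F2 V) (x : V) : F3 V :=
  fun Y Z U => fderiv ℝ (fun y => Φ y Z U) x Y - fderiv ℝ (fun y => Φ y Y U) x Z +
    fderiv ℝ (fun y => Φ y Y Z) x U

/-- `θbar` (an operator of order zero) on a `(1,0)`-form at `x`: minus the `(0,2)` part of `d` of
the `(1,0)`-form field `y ↦ (1,0) part of α at y`, which extends `α`. -/
def thetaBar (J : V → V →L[ℝ] V) (x : V) (α : F1 V) : F2 V :=
  -p02 (J x) (d1 (fun y => p10 (J y) α) x)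

/-- `θ` on a `(0,1)`-form at `x`. -/
def theta1 (J : V → V →L[ℝ] V) (x : V) (α : F1 V) : F2 V :=
  -p20 (J x) (d1 (fun y => p01 (J y) α) x)

/-- `θ` on a `(0,2)`-form at `x`. -/
def theta2 (J : V → V →L[ℝ] V) (x : V) (γ : F2 V) : F3 V :=
  -p21 (J x) (d2 (fun y => p02 (J y) γ) x)

/-- `∂ ∂bar f` for a smooth function `f`. -/
def ddbar (J : V → V →L[ℝ] V) (f : V → ℝ) (x : V) : F2 V :=
  p11 (J x) (d1 (fun y => p01 (J y) (cx (fderiv ℝ f y))) x)

/-- Wedge product of two 1-forms. -/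
def w11 {V : Type} (α β : F1 V) : F2 V := fun Y Z => α Y * β Z - α Z * β Y

/-- Wedge product of two 2-forms, evaluated on four vectors. -/
def top22 {V R : Type} [CommRing R] (Φ Ψ : V → V → R) (v : Fin 4 → V) : R :=
  Φ (v 0) (v 1) * Ψ (v 2) (v 3) - Φ (v 0) (v 2) * Ψ (v 1) (v 3) + Φ (v 0) (v 3) * Ψ (v 1) (v 2) +
    Φ (v 1) (v 2) * Ψ (v 0) (v 3) - Φ (v 1) (v 3) * Ψ (v 0) (v 2) + Φ (v 2) (v 3) * Ψ (v 0) (v 1)

/-- Wedge product of a 3-form and a 1-form, evaluated on four vectors. -/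
def top31 {V : Type} (κ : F3 V) (β : F1 V) (v : Fin 4 → V) : ℂ :=
  κ (v 0) (v 1) (v 2) * β (v 3) - κ (v 0) (v 1) (v 3) * β (v 2) + κ (v 0) (v 2) (v 3) * β (v 1) -
    κ (v 1) (v 2) (v 3) * β (v 0)

/-- The 2-form `(Y, Z) ↦ ⟪J Y, Z⟫ - ⟪Y, J Z⟫`, a positive `(1,1)`-form. -/
def kf (J0 : V →L[ℝ] V) : V → V → ℝ := fun Y Z => inner ℝ (J0 Y) Z - inner ℝ Y (J0 Z)

/-- `1` if the orientation induced by `J0` is that of the basis `b`, `-1` otherwise. -/
def orient (b : Fin 4 → V) (J0 : V →L[ℝ] V) : ℝ := Real.sign (top22 (kf J0) (kf J0) b)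

/-- The current
`-i∂∂bar(i∂u ∧ ∂bar v) + ∂(∂u ∧ θbar ∂v) + ∂bar(θ ∂bar u ∧ ∂bar v) + θ θbar ∂u ∧ ∂bar v
  - θ ∂bar u ∧ θbar ∂v`
tested against `f` is the integral of this 4-form; `gu`, `gv` are the differentials of `u`, `v`
at `x`.  The derivatives are moved to `f` by `⟨∂R, f⟩ = -∫ ∂f ∧ R`, `⟨∂bar R, f⟩ = -∫ ∂bar f ∧ R`,
`⟨∂∂bar S, f⟩ = ∫ ∂∂bar f ∧ S`. -/
def maDens (b : Fin 4 → V) (J : V → V →L[ℝ] V) (f : V → ℝ) (x : V) (gu gv : V →L[ℝ] ℝ) : ℂ :=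
  -I * top22 (ddbar J f x) (I • w11 (p10 (J x) (cx gu)) (p01 (J x) (cx gv))) b -
    top22 (w11 (p10 (J x) (cx (fderiv ℝ f x))) (p10 (J x) (cx gu)))
      (thetaBar J x (p10 (J x) (cx gv))) b -
    top22 (theta1 J x (p01 (J x) (cx gu)))
      (w11 (p01 (J x) (cx (fderiv ℝ f x))) (p01 (J x) (cx gv))) b +
    f x * (top31 (theta2 J x (thetaBar J x (p10 (J x) (cx gu)))) (p01 (J x) (cx gv)) b -
      top22 (theta1 J x (p01 (J x) (cx gu))) (thetaBar J x (p10 (J x) (cx gv))) b)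

/-- The current `i∂∂bar u ∧ i∂∂bar v` on a test function `f`, for weak differentials `Gu`, `Gv`. -/
def maPair [MeasureSpace V] (b : Fin 4 → V) (J : V → V →L[ℝ] V) (Ω : Set V)
    (Gu Gv : V → V →L[ℝ] ℝ) (f : V → ℝ) : ℂ :=
  ∫ x in Ω, (orient b (J x) : ℂ) * maDens b J f x (Gu x) (Gv x)

end Chart

section Manifold

variable (V : Type) [NormedAddCommGroup V] [InnerProductSpace ℝ V]

/-- Fields of endomorphisms of the tangent spaces. -/
abbrev EndField (M : Type*) [TopologicalSpace M] [ChartedSpace V M] :=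
  (x : M) → TangentSpace 𝓘(ℝ, V) x →L[ℝ] TangentSpace 𝓘(ℝ, V) x

variable {V} {M : Type*} [TopologicalSpace M] [ChartedSpace V M]

/-- The differential of a map `M → V`. -/
def dTo (φ : M → V) (x : M) : TangentSpace 𝓘(ℝ, V) x →L[ℝ] V := mfderiv 𝓘(ℝ, V) 𝓘(ℝ, V) φ x

/-- The differential of a map `W → M` from a vector space. -/
def dFrom {W : Type} [NormedAddCommGroup W] [NormedSpace ℝ W] (ψ : W → M) (y : W) :
    W →L[ℝ] TangentSpace 𝓘(ℝ, V) (ψ y) := mfderiv 𝓘(ℝ, W) 𝓘(ℝ, V) ψ y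

/-- The expression `de ∘ J ∘ de⁻¹` of `J` in the chart `e`. -/
def chartJ (J : EndField V M) (e : OpenPartialHomeomorph M V) (y : V) : V →L[ℝ] V :=
  (dTo e (e.symm y)).comp ((J (e.symm y)).comp (dFrom e.symm y))

/-- `J` is a smooth almost complex structure: `J² = -1`, and `J` is smooth in every chart. -/
def IsACS (J : EndField V M) : Prop :=
  (∀ x Y, J x (J x Y) = -Y) ∧ ∀ e ∈ atlas V M, ContDiffOn ℝ ∞ (chartJ J e) e.target

/-- J-holomorphic discs in `Ω`: `C¹` maps of the unit disc with `dl ∘ i = J ∘ dl`. -/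
def IsDisc (J : EndField V M) (Ω : Set M) (l : ℂ → M) : Prop :=
  ContMDiffOn 𝓘(ℝ, ℂ) 𝓘(ℝ, V) 1 l (ball 0 1) ∧ MapsTo l (ball 0 1) Ω ∧
    ∀ z ∈ ball (0 : ℂ) 1, ∀ w : ℂ, dFrom l z (I * w) = J (l z) (dFrom l z w)

/-- Plurisubharmonic functions `Ω → [-∞, ∞)`. -/
def IsPSH (J : EndField V M) (Ω : Set M) (u : M → EReal) : Prop :=
  UpperSemicontinuousOn u Ω ∧ (∀ x ∈ Ω, u x ≠ ⊤) ∧ (∃ x ∈ Ω, u x ≠ ⊥) ∧
    ∀ l, IsDisc J Ω l → IsSubharm (fun z => u (l z)) (ball 0 1)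

/-- The image of `Ω` in the chart `e`. -/
def chartSet {V M : Type*} [TopologicalSpace V] [TopologicalSpace M]
    (e : OpenPartialHomeomorph M V) (Ω : Set M) : Set V := e.target ∩ e.symm ⁻¹' Ω

/-- `μ` is the Monge-Ampere measure `(i∂∂bar v)²` on `Ω`: it is finite on compact subsets, and in
every chart `v` has a locally square integrable weak differential `G` and `μ` acts on test
functions as the current built from `G`. -/
def IsMA [MeasureSpace V] [MeasurableSpace M] (b : Fin 4 → V) (J : EndField V M) (Ω : Set M)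
    (v : M → ℝ) (μ : Measure M) : Prop :=
  (∀ K, IsCompact K → K ⊆ Ω → μ K < ⊤) ∧
    ∀ e ∈ atlas V M, ∃ G, IsWeakGrad (chartSet e Ω) (fun y => v (e.symm y)) G ∧
      ∀ f, IsTest (chartSet e Ω) f →
        ((∫ x in e.source, f (e x) ∂μ : ℝ) : ℂ) = maPair b (chartJ J e) (chartSet e Ω) G G f

end Manifold

end Pool.Agent.Lib.MP_f2cf74_an.St
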