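import Pool.Agent.Lib.MP_f2cf74_an.ManEx
import Pool.Agent.Lib.MP_f2cf74_an.Stmt

/-! The statement-level definitions agree with the working ones. -/

open Set MeasureTheory
open scoped ContDiff Manifold

namespace Pool.Agent.Lib.MP_f2cf74_an

variable {M : Type*} [TopologicalSpace M] [ChartedSpace E M]

theorem br_acs (J : EndField M) : St.IsACS (V := E) J ↔ IsACSM J := Iff.rfl

theorem br_psh (J : EndField M) (Ω : Set M) (u : M → EReal) :
    St.IsPSH (V := E) J Ω u ↔ IsPSHM J Ω u := Iff.rfl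

theorem br_pr1 (J0 : E →L[ℝ] E) (s : ℂ) (α : F1) : St.pr1 J0 s α = pr1 J0 s α := rfl

theorem br_pr2 (J0 : E →L[ℝ] E) (s t : ℂ) (Φ : F2) : St.pr2 J0 s t Φ = pr2 J0 s t Φ := by
  funext Y Z; simp only [St.pr2, pr2, br_pr1]

theorem br_pr3 (J0 : E →L[ℝ] E) (s t r : ℂ) (κ : F3) : St.pr3 J0 s t r κ = pr3 J0 s t r κ := by
  funext Y Z U; simp only [St.pr3, pr3, br_pr1, br_pr2]

theorem br_p10 (J0 : E →L[ℝ] E) (α : F1) : St.p10 J0 α = p10 J0 α := br_pr1 _ _ _
theorem br_p01 (J0 : E →L[ℝ] E) (α : F1) : St.p01 J0 α = p01 J0 α := br_pr1 _ _ _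
theorem br_p20 (J0 : E →L[ℝ] E) (Φ : F2) : St.p20 J0 Φ = p20 J0 Φ := br_pr2 _ _ _ _
theorem br_p02 (J0 : E →L[ℝ] E) (Φ : F2) : St.p02 J0 Φ = p02 J0 Φ := br_pr2 _ _ _ _

theorem br_p11 (J0 : E →L[ℝ] E) (Φ : F2) : St.p11 J0 Φ = p11 J0 Φ := by
  simp only [St.p11, p11, br_pr2]

theorem br_p21 (J0 : E →L[ℝ] E) (κ : F3) : St.p21 J0 κ = p21 J0 κ := by
  simp only [St.p21, p21, br_pr3]

theorem br_cx (g : E →L[ℝ] ℝ) : St.cx g = cx g := rfl
theorem br_d1 (α : E → F1) (x : E) : St.d1 α x = d1 α x := rfl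
theorem br_d2 (Φ : E → F2) (x : E) : St.d2 Φ x = d2 Φ x := rfl

theorem br_thetaBar (J : E → E →L[ℝ] E) (x : E) (α : F1) : St.thetaBar J x α = thetaBar J x α := by
  simp only [St.thetaBar, thetaBar, br_p02, br_p10, br_d1]

theorem br_theta1 (J : E → E →L[ℝ] E) (x : E) (α : F1) : St.theta1 J x α = theta1 J x α := by
  simp only [St.theta1, theta1, br_p20, br_p01, br_d1]

theorem br_theta2 (J : E → E →L[ℝ] E) (x : E) (γ : F2) : St.theta2 J x γ = theta2 J x γ := by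
  simp only [St.theta2, theta2, br_p21, br_p02, br_d2]

theorem br_ddbar (J : E → E →L[ℝ] E) (f : E → ℝ) (x : E) : St.ddbar J f x = ddbar J f x := by
  simp only [St.ddbar, ddbar, br_p11, br_p01, br_d1, br_cx]

theorem br_w11 (α β : F1) : St.w11 α β = w11 α β := rfl

theorem br_top22 {R : Type} [CommRing R] (Φ Ψ : E → E → R) (v : Fin 4 → E) :
    St.top22 Φ Ψ v = top22 Φ Ψ v := rfl

theorem br_top31 (κ : F3) (β : F1) (v : Fin 4 → E) : St.top31 κ β v = top31 κ β v := rfl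

theorem br_basis : St.basis4 = eb := rfl

theorem br_kf (J0 : E →L[ℝ] E) : St.kf J0 = kf J0 := rfl

theorem br_orient (J0 : E →L[ℝ] E) : St.orient St.basis4 J0 = orient J0 := by
  simp only [St.orient, orient, br_kf, br_top22, br_basis]

theorem br_maDens (J : E → E →L[ℝ] E) (f : E → ℝ) (x : E) (g g' : E →L[ℝ] ℝ) :
    St.maDens St.basis4 J f x g g' = maDens J f x g g' := by
  simp only [St.maDens, maDens, br_top22, br_top31, br_basis, br_ddbar, br_w11, br_p10, br_p01,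
    br_cx, br_thetaBar, br_theta1, br_theta2]

theorem br_maPair (J : E → E →L[ℝ] E) (Ω : Set E) (G G' : E → E →L[ℝ] ℝ) (f : E → ℝ) :
    St.maPair St.basis4 J Ω G G' f = maPair J Ω G G' f := by
  simp only [St.maPair, maPair, br_orient, br_maDens]

theorem br_test (Ω : Set E) (f : E → ℝ) : St.IsTest Ω f ↔ IsTest Ω f := Iff.rfl

theorem br_weak (Ω : Set E) (v : E → ℝ) (G : E → E →L[ℝ] ℝ) :
    St.IsWeakGrad Ω v G ↔ IsWeakGrad Ω v G := Iff.rfl

theorem br_chartJ (J : EndField M) (e : OpenPartialHomeomorph M E) :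
    St.chartJ (V := E) J e = chartJ J e := rfl

omit [ChartedSpace E M] in
theorem br_chartSet (e : OpenPartialHomeomorph M E) (Ω : Set M) :
    St.chartSet e Ω = chartSet e Ω := rfl

theorem br_ma [MeasurableSpace M] (J : EndField M) (Ω : Set M) (v : M → ℝ) (μ : Measure M) :
    St.IsMA (V := E) St.basis4 J Ω v μ ↔ IsMAM J Ω v μ := by
  simp only [St.IsMA, IsMAM, br_maPair, br_test, br_weak, br_chartJ, br_chartSet]

end Pool.Agent.Lib.MP_f2cf74_an
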