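import Pool.Agent.Lib.MP_f2cf74_an.Base

open Set Metric MeasureTheory Complex Filter Topology
open scoped ContDiff ENNReal NNReal

noncomputable section

namespace Pool.Agent.Lib.MP_f2cf74_an

/-! The Cauchy transform `cT q = (1 / (π w)) ⋆ q` of a smooth function with support in
`closedBall 0 2`.  The kernel is locally integrable (`integrableOn_ball_of_norm_le_rpow`);
`cT q = k ⋆[lsmul ℝ ℂ] q`, `HasCompactSupport.contDiff_convolution_right`,
`HasCompactSupport.hasFDerivAt_convolution_right`.  Bound: on `closedBall z 2` the kernel is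
`≤ 1` off `ball 0 1`. -/

theorem ct1_norm (w : ℂ) : ‖((Real.pi : ℂ) * w)⁻¹‖ ≤ ‖w‖⁻¹ := by
  rw [norm_inv, norm_mul, Complex.norm_real, Real.norm_of_nonneg Real.pi_pos.le, mul_inv]
  exact mul_le_of_le_one_left (by positivity)
    (inv_le_one_of_one_le₀ (by linarith [Real.two_le_pi]))

theorem ct1_loc : LocallyIntegrable fun w : ℂ => ((Real.pi : ℂ) * w)⁻¹ := by
  refine locallyIntegrable_of_norm_le_rpow (C := 1) (α := 1) (by simp) (by simp)
    (Eventually.of_forall fun w => ?_) ?_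
  · rw [one_mul, Real.rpow_neg_one]
    exact ct1_norm w
  · exact (measurable_const.mul measurable_id).inv.aestronglyMeasurable

theorem ct1_cs {G : Type} [Zero G] {q : ℂ → G} (hs : ∀ z, 2 ≤ ‖z‖ → q z = 0) :
    HasCompactSupport q :=
  HasCompactSupport.intro (isCompact_closedBall (0 : ℂ) 2) fun z hz =>
    hs z (not_le.1 fun h => hz (mem_closedBall_zero_iff.2 h)).le

theorem ct1_conv (q : ℂ → F) : cT q = convolution (fun w : ℂ => ((Real.pi : ℂ) * w)⁻¹) q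
    (ContinuousLinearMap.lsmul ℝ ℂ) volume := rfl

theorem ct1_int {q : ℂ → F} (hq : Continuous q) (hs : ∀ z, 2 ≤ ‖z‖ → q z = 0) (z : ℂ) :
    Integrable fun w : ℂ => ((Real.pi : ℂ) * w)⁻¹ • q (z - w) :=
  (ct1_cs hs).convolutionExists_right (ContinuousLinearMap.lsmul ℝ ℂ) ct1_loc hq z

theorem ct1_fd0 {q : ℂ → F} (hq : ContDiff ℝ ∞ q) (hs : ∀ z, 2 ≤ ‖z‖ → q z = 0) (z : ℂ)
    (hz : 2 ≤ ‖z‖) : fderiv ℝ q z = 0 := by
  have h1 : (closedBall (0 : ℂ) 2)ᶜ ⊆ {z | fderiv ℝ q z = 0} := fun y hy => by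
    have : q =ᶠ[𝓝 y] fun _ => 0 := by
      filter_upwards [isClosed_closedBall.isOpen_compl.mem_nhds hy] with x hx
      exact hs x (not_le.1 fun h => hx (mem_closedBall_zero_iff.2 h)).le
    rw [mem_ofPred_eq, this.fderiv_eq, fderiv_fun_const]
    rfl
  have h2 := closure_minimal h1
    (isClosed_eq (hq.continuous_fderiv (by simp)) continuous_const)
  rw [closure_compl, interior_closedBall _ two_ne_zero] at h2
  exact h2 fun h => not_lt.2 hz (mem_ball_zero_iff.1 h)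

theorem ct1_fdc {q : ℂ → F} (hq : ContDiff ℝ ∞ q) (w : ℂ) :
    ContDiff ℝ ∞ fun ζ => fderiv ℝ q ζ w :=
  (hq.fderiv_right (m := ∞) (by simp)).clm_apply contDiff_const

/-- Both Wirtinger derivatives. -/
def ct1_d (c : ℂ) (q : ℂ → F) (ζ : ℂ) : F := (1 / 2 : ℂ) • (fderiv ℝ q ζ 1 + c • fderiv ℝ q ζ I)

theorem ct1_dz (q : ℂ → F) : dz q = ct1_d (-I) q := by
  funext ζ
  rw [dz, ct1_d, neg_smul, sub_eq_add_neg]

theorem ct1_dzb (q : ℂ → F) : dzb q = ct1_d I q := rfl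

theorem ct1_d_fderiv (c : ℂ) {q : ℂ → F} (hq : ContDiff ℝ ∞ q) (ζ w : ℂ) :
    fderiv ℝ (ct1_d c q) ζ w = (1 / 2 : ℂ) •
      (fderiv ℝ (fderiv ℝ q) ζ w 1 + c • fderiv ℝ (fderiv ℝ q) ζ w I) := by
  have h1 : HasFDerivAt (fderiv ℝ q) (fderiv ℝ (fderiv ℝ q) ζ) ζ :=
    ((hq.fderiv_right (m := ∞) (by simp)).differentiable (by simp) ζ).hasFDerivAt
  have h2 := (((h1.clm_apply (hasFDerivAt_const (1 : ℂ) ζ)).add
    ((h1.clm_apply (hasFDerivAt_const I ζ)).const_smul c)).const_smul (1 / 2 : ℂ)).fderiv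
  refine (congrArg (fun T : ℂ →L[ℝ] F => T w) h2).trans ?_
  simp

theorem cT_contDiff {q : ℂ → F} (hq : ContDiff ℝ ∞ q) (hs : ∀ z, 2 ≤ ‖z‖ → q z = 0) :
    ContDiff ℝ ∞ (cT q) :=
  (ct1_cs hs).contDiff_convolution_right (ContinuousLinearMap.lsmul ℝ ℂ) ct1_loc hq

theorem cT_fderiv {q : ℂ → F} (hq : ContDiff ℝ ∞ q) (hs : ∀ z, 2 ≤ ‖z‖ → q z = 0) (z w : ℂ) :
    fderiv ℝ (cT q) z w = cT (fun ζ => fderiv ℝ q ζ w) z := by
  rw [ct1_conv, ((ct1_cs hs).hasFDerivAt_convolution_right (ContinuousLinearMap.lsmul ℝ ℂ)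
    ct1_loc (hq.of_le (by simp)) z).fderiv, convolution_precompR_apply _ ct1_loc
    ((ct1_cs hs).fderiv ℝ) (hq.continuous_fderiv (by simp)), ct1_conv]

theorem ct1_cT_d (c : ℂ) {q : ℂ → F} (hq : ContDiff ℝ ∞ q) (hs : ∀ z, 2 ≤ ‖z‖ → q z = 0) :
    ct1_d c (cT q) = cT (ct1_d c q) := by
  funext z
  have h : ∀ v : ℂ, Integrable fun w : ℂ => ((Real.pi : ℂ) * w)⁻¹ • fderiv ℝ q (z - w) v :=
    fun v => ct1_int (q := fun ζ => fderiv ℝ q ζ v) (ct1_fdc hq v).continuous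
      (fun ζ hζ => by rw [ct1_fd0 hq hs ζ hζ]; rfl) z
  have h' : Integrable fun w : ℂ => c • (((Real.pi : ℂ) * w)⁻¹ • fderiv ℝ q (z - w) I) :=
    (h I).smul c
  rw [ct1_d, cT_fderiv hq hs, cT_fderiv hq hs]
  unfold cT
  rw [← integral_smul c, ← integral_add (h 1) h', ← integral_smul]
  refine integral_congr_ae (Eventually.of_forall fun w => ?_)
  simp only [ct1_d]
  module

theorem cT_dz {q : ℂ → F} (hq : ContDiff ℝ ∞ q) (hs : ∀ z, 2 ≤ ‖z‖ → q z = 0) :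
    dz (cT q) = cT (dz q) ∧ dzb (cT q) = cT (dzb q) := by
  simp only [ct1_dz, ct1_dzb]
  exact ⟨ct1_cT_d _ hq hs, ct1_cT_d _ hq hs⟩

theorem cT_sub {q q' : ℂ → F} (hq : Continuous q) (hs : ∀ z, 2 ≤ ‖z‖ → q z = 0)
    (hq' : Continuous q') (hs' : ∀ z, 2 ≤ ‖z‖ → q' z = 0) (z : ℂ) :
    cT q z - cT q' z = cT (fun ζ => q ζ - q' ζ) z := by
  unfold cT
  rw [← integral_sub (ct1_int hq hs z) (ct1_int hq' hs' z)]
  simp only [smul_sub]

theorem cT_bound : ∃ C : ℝ, 0 ≤ C ∧ ∀ (q : ℂ → F) (m : ℝ), (∀ z, 2 ≤ ‖z‖ → q z = 0) →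
    (∀ z, ‖q z‖ ≤ m) → ∀ z, ‖cT q z‖ ≤ C * m := by
  have h1 : Integrable ((ball (0 : ℂ) 1).indicator fun w : ℂ => ‖((Real.pi : ℂ) * w)⁻¹‖) :=
    (integrable_indicator_iff measurableSet_ball).2
      ((ct1_loc.integrableOn_isCompact (isCompact_closedBall 0 1)).mono_set
        ball_subset_closedBall).norm
  refine ⟨(∫ w, (ball (0 : ℂ) 1).indicator (fun w : ℂ => ‖((Real.pi : ℂ) * w)⁻¹‖) w) +
    volume.real (closedBall (0 : ℂ) 2), add_nonneg (integral_nonneg fun w =>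
      indicator_nonneg (fun _ _ => norm_nonneg _) w) measureReal_nonneg, fun q m hs hm z => ?_⟩
  have hm0 : 0 ≤ m := (norm_nonneg _).trans (hm 0)
  have h2 : Integrable ((closedBall z 2).indicator fun _ : ℂ => (1 : ℝ)) :=
    (integrable_indicator_iff measurableSet_closedBall).2
      (integrableOn_const (isCompact_closedBall z 2).measure_lt_top.ne)
  have h3 : Integrable fun w => ((ball (0 : ℂ) 1).indicator
      (fun w : ℂ => ‖((Real.pi : ℂ) * w)⁻¹‖) w +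
        (closedBall z 2).indicator (fun _ : ℂ => (1 : ℝ)) w) * m := (h1.add h2).mul_const m
  refine (norm_integral_le_of_norm_le h3 (Eventually.of_forall fun w => ?_)).trans (le_of_eq ?_)
  · have p1 : 0 ≤ (ball (0 : ℂ) 1).indicator (fun w : ℂ => ‖((Real.pi : ℂ) * w)⁻¹‖) w :=
      indicator_nonneg (fun _ _ => norm_nonneg _) w
    have p2 : 0 ≤ (closedBall z 2).indicator (fun _ : ℂ => (1 : ℝ)) w :=
      indicator_nonneg (fun _ _ => zero_le_one) w
    by_cases hw : w ∈ closedBall z 2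
    · rw [norm_smul]
      refine mul_le_mul ?_ (hm _) (norm_nonneg _) (add_nonneg p1 p2)
      by_cases hw' : w ∈ ball (0 : ℂ) 1
      · rw [indicator_of_mem hw']
        exact le_add_of_nonneg_right p2
      · rw [indicator_of_mem hw]
        exact ((ct1_norm w).trans (inv_le_one_of_one_le₀
          (not_lt.1 fun h => hw' (mem_ball_zero_iff.2 h)))).trans (le_add_of_nonneg_left p1)
    · rw [hs (z - w) (not_le.1 fun h => hw (mem_closedBall_iff_norm'.2 h)).le, smul_zero,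
        norm_zero]
      exact mul_nonneg (add_nonneg p1 p2) hm0
  · rw [integral_mul_const, integral_add h1 h2, integral_indicator_const _ measurableSet_closedBall,
      smul_eq_mul, mul_one, Measure.addHaar_real_closedBall_center]

theorem dz_facts {q : ℂ → F} (hq : ContDiff ℝ ∞ q) (hs : ∀ z, 2 ≤ ‖z‖ → q z = 0) :
    ContDiff ℝ ∞ (dz q) ∧ ContDiff ℝ ∞ (dzb q) ∧ (∀ z, 2 ≤ ‖z‖ → dz q z = 0) ∧
      ∀ z, 2 ≤ ‖z‖ → dzb q z = 0 := by
  have h1 : ∀ c, ContDiff ℝ ∞ (ct1_d c q) := fun c =>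
    ((ct1_fdc hq 1).add ((ct1_fdc hq I).const_smul c)).const_smul (1 / 2 : ℂ)
  have h2 : ∀ c z, 2 ≤ ‖z‖ → ct1_d c q z = 0 := fun c z hz => by
    simp [ct1_d, ct1_fd0 hq hs z hz]
  simp only [ct1_dz, ct1_dzb]
  exact ⟨h1 _, h1 _, h2 _, h2 _⟩

theorem fderiv_eq_dz (q : ℂ → F) (z w : ℂ) :
    fderiv ℝ q z w = w • dz q z + (starRingEnd ℂ) w • dzb q z := by
  have h : fderiv ℝ q z w = (w.re : ℂ) • fderiv ℝ q z 1 + (w.im : ℂ) • fderiv ℝ q z I := by
    rw [Complex.coe_smul, Complex.coe_smul, ← map_smul, ← map_smul, ← map_add]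
    refine congrArg _ ?_
    simp
  have e1 : (w.re : ℂ) = (w + (starRingEnd ℂ) w) / 2 := Complex.re_eq_add_conj w
  have e2 : (w.im : ℂ) = ((starRingEnd ℂ) w - w) * I / 2 := by
    rw [Complex.im_eq_sub_conj w]
    field_simp
    rw [Complex.I_sq]
    ring
  rw [h, e1, e2, dz, dzb]
  module

theorem dzb_dz_comm {q : ℂ → F} (hq : ContDiff ℝ ∞ q) : dzb (dz q) = dz (dzb q) := by
  funext ζ
  have h := (hq.contDiffAt (x := ζ)).isSymmSndFDerivAt (by
    rw [minSmoothness_of_isRCLikeNormedField,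
      show (2 : WithTop ℕ∞) = ((2 : ℕ∞) : WithTop ℕ∞) from rfl]
    exact WithTop.coe_le_coe.2 le_top)
  simp only [ct1_dz, ct1_dzb]
  rw [ct1_d, ct1_d, ct1_d_fderiv _ hq, ct1_d_fderiv _ hq, ct1_d_fderiv _ hq, ct1_d_fderiv _ hq,
    h.eq I 1]
  module

end Pool.Agent.Lib.MP_f2cf74_an
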