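import Pool.Agent.Lib.MP_f2cf74_an.CT1

open Set Metric MeasureTheory Complex Filter Topology
open scoped ContDiff ENNReal NNReal

noncomputable section

namespace Pool.Agent.Lib.MP_f2cf74_an

/-! The Cauchy-Pompeiu formula.  With `g w = q (z - w)` and polar coordinates
(`Complex.integral_comp_polarCoord_symm`), `r * (π w)⁻¹ • dzb q (z - w)` equals
`-(2 π)⁻¹ • (∂_r g + (I / r) • ∂_θ g)`; here `∂_θ g / r = fderiv g w (I e^{iθ})` is bounded.  The
`θ`-integral of `∂_θ g` vanishes and `∫ ∂_r g dr = -g 0`; use Fubini on `(0, R) × (-π, π)`. -/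

/-- The point of the unit circle with argument `θ`. -/
def ct2e (θ : ℝ) : ℂ := Real.cos θ + Real.sin θ * I

theorem ct2e_cont : Continuous ct2e := by unfold ct2e; fun_prop

theorem ct2e_norm (θ : ℝ) : ‖ct2e θ‖ = 1 := by
  have := Complex.norm_exp_ofReal_mul_I θ
  rwa [exp_mul_I, ← ofReal_cos, ← ofReal_sin] at this

theorem ct2e_deriv (θ : ℝ) : HasDerivAt ct2e (I * ct2e θ) θ := by
  have h := ((Real.hasDerivAt_cos θ).ofReal_comp).add
    (((Real.hasDerivAt_sin θ).ofReal_comp).mul_const I)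
  refine (h.congr_deriv ?_ :)
  unfold ct2e
  push_cast
  linear_combination (-Complex.sin θ) * I_mul_I

theorem ct2_alg (D : ℂ →L[ℝ] F) {r : ℝ} (hr : 0 < r) (θ : ℝ) :
    r • (((Real.pi : ℂ) * (r * ct2e θ))⁻¹ • ((1 / 2 : ℂ) • (D 1 + I • D I))) =
      ((2 * Real.pi : ℂ))⁻¹ • (D (ct2e θ) + I • D (I * ct2e θ)) := by
  have h1 : D (ct2e θ) = (Real.cos θ : ℂ) • D 1 + (Real.sin θ : ℂ) • D I := by
    rw [Complex.coe_smul, Complex.coe_smul, ← map_smul, ← map_smul, ← map_add]
    congr 1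
    simp [ct2e]
  have h2 : D (I * ct2e θ) = (Real.cos θ : ℂ) • D I - (Real.sin θ : ℂ) • D 1 := by
    rw [Complex.coe_smul, Complex.coe_smul, ← map_smul, ← map_smul, ← map_sub]
    congr 1
    simp only [ct2e, real_smul, mul_one]
    linear_combination (Real.sin θ : ℂ) * I_mul_I
  have h3 : (ct2e θ)⁻¹ = Real.cos θ - Real.sin θ * I := by
    refine inv_eq_of_mul_eq_one_right ?_
    have h := congrArg (fun t : ℝ => (t : ℂ)) (Real.cos_sq_add_sin_sq θ)
    simp only [ofReal_add, ofReal_pow, ofReal_one] at h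
    unfold ct2e
    linear_combination h - (Real.sin θ : ℂ) ^ 2 * I_mul_I
  have hr' : (r : ℂ) ≠ 0 := by exact_mod_cast hr.ne'
  have hp : (Real.pi : ℂ) ≠ 0 := by exact_mod_cast Real.pi_ne_zero
  rw [h1, h2, ← Complex.coe_smul, mul_inv, mul_inv, h3]
  match_scalars
  · field_simp
    ring
  · field_simp
    linear_combination (-Complex.sin θ) * I_mul_I

theorem ct2_int {G : ℝ × ℝ → F} (hG : Continuous G) {R : ℝ} (h0 : ∀ p : ℝ × ℝ, R < p.1 → G p = 0) :
    IntegrableOn G (Ioi (0 : ℝ) ×ˢ Ioo (-Real.pi) Real.pi) := by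
  have h1 : IntegrableOn G (Icc (0 : ℝ) R ×ˢ Icc (-Real.pi) Real.pi) :=
    hG.continuousOn.integrableOn_compact (isCompact_Icc.prod isCompact_Icc)
  refine h1.of_forall_sdiff_eq_zero (measurableSet_Ioi.prod measurableSet_Ioo) fun p hp => ?_
  refine h0 p (lt_of_not_ge fun hc => hp.2 ⟨⟨hp.1.1.le, hc⟩, Ioo_subset_Icc_self hp.1.2⟩)

theorem cT_dzb {q : ℂ → F} (hq : ContDiff ℝ ∞ q) (hs : ∀ z, 2 ≤ ‖z‖ → q z = 0) :
    cT (dzb q) = q := by
  funext z
  have hd : Differentiable ℝ q := hq.differentiable (by simp)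
  have hD : Continuous (fderiv ℝ q) := hq.continuous_fderiv (by simp)
  have hfar : ∀ (r θ : ℝ), ‖z‖ + 2 < r → 2 < ‖z - r * ct2e θ‖ := fun r θ hr => by
    have h1 : ‖(r : ℂ) * ct2e θ‖ = r := by
      rw [norm_mul, ct2e_norm, mul_one, norm_real, Real.norm_of_nonneg]
      linarith [norm_nonneg z]
    have h2 := norm_sub_norm_le ((r : ℂ) * ct2e θ) z
    rw [norm_sub_rev] at h2
    linarith
  have hD0 : ∀ w : ℂ, 2 < ‖w‖ → fderiv ℝ q w = 0 := fun w hw => by
    have h1 : q =ᶠ[𝓝 w] fun _ => 0 := by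
      filter_upwards [(isOpen_lt continuous_const continuous_norm).mem_nhds hw] with y hy
      exact hs y (le_of_lt hy)
    rw [h1.fderiv_eq, fderiv_fun_const]
    rfl
  set A : ℝ × ℝ → F := fun p => fderiv ℝ q (z - p.1 * ct2e p.2) (ct2e p.2) with hA
  set B : ℝ × ℝ → F := fun p => fderiv ℝ q (z - p.1 * ct2e p.2) (I * ct2e p.2) with hB
  have hc : Continuous fun p : ℝ × ℝ => fderiv ℝ q (z - p.1 * ct2e p.2) :=
    hD.comp (continuous_const.sub
      ((continuous_ofReal.comp continuous_fst).mul (ct2e_cont.comp continuous_snd)))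
  have hAc : Continuous A := hc.clm_apply (ct2e_cont.comp continuous_snd)
  have hBc : Continuous B := hc.clm_apply (continuous_const.mul (ct2e_cont.comp continuous_snd))
  have hA0 : ∀ p : ℝ × ℝ, ‖z‖ + 2 < p.1 → A p = 0 := fun p hp => by
    simp only [hA, hD0 _ (hfar p.1 p.2 hp), zero_apply]
  have hB0 : ∀ p : ℝ × ℝ, ‖z‖ + 2 < p.1 → B p = 0 := fun p hp => by
    simp only [hB, hD0 _ (hfar p.1 p.2 hp), zero_apply]
  have hAi := ct2_int hAc hA0
  have hBi := ct2_int hBc hB0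
  have iA : ∀ θ : ℝ, ∫ r in Ioi (0 : ℝ), A (r, θ) = q z := fun θ => by
    have h1 : ∀ r : ℝ, HasDerivAt (fun r : ℝ => -q (z - r * ct2e θ)) (A (r, θ)) r := fun r => by
      have h2 : HasDerivAt (fun r : ℝ => z - r * ct2e θ) (-ct2e θ) r := by
        simpa using ((hasDerivAt_id r).ofReal_comp.mul_const (ct2e θ)).const_sub z
      have h3 := ((hd _).hasFDerivAt.comp_hasDerivAt r h2).neg
      rw [map_neg, neg_neg] at h3
      exact h3
    have h4 : IntegrableOn (fun r : ℝ => A (r, θ)) (Ioi 0) := by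
      have h5 : IntegrableOn (fun r : ℝ => A (r, θ)) (Icc 0 (‖z‖ + 2)) :=
        (hAc.comp (Continuous.prodMk_left θ)).continuousOn.integrableOn_compact isCompact_Icc
      exact h5.of_forall_sdiff_eq_zero measurableSet_Ioi fun r hr =>
        hA0 (r, θ) (lt_of_not_ge fun hc => hr.2 ⟨hr.1.le, hc⟩)
    have h6 : Tendsto (fun r : ℝ => -q (z - r * ct2e θ)) atTop (𝓝 0) := by
      refine tendsto_const_nhds.congr' ?_
      filter_upwards [eventually_gt_atTop (‖z‖ + 2)] with r hr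
      rw [hs _ (hfar r θ hr).le, neg_zero]
    rw [integral_Ioi_of_hasDerivAt_of_tendsto' (fun r _ => h1 r) h4 h6]
    simp
  have iB : ∀ r ∈ Ioi (0 : ℝ), ∫ θ in Ioo (-Real.pi) Real.pi, B (r, θ) = 0 := fun r hr => by
    have hr0 : r ≠ 0 := (mem_Ioi.mp hr).ne'
    have h1 : ∀ θ : ℝ, HasDerivAt (fun θ : ℝ => (-r⁻¹) • q (z - r * ct2e θ)) (B (r, θ)) θ :=
      fun θ => by
        have h2 : HasDerivAt (fun θ : ℝ => z - r * ct2e θ) ((-r) • (I * ct2e θ)) θ := by
          simpa using ((ct2e_deriv θ).const_mul (r : ℂ)).const_sub z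
        have h3 := ((hd _).hasFDerivAt.comp_hasDerivAt θ h2).const_smul (-r⁻¹)
        rw [map_smul, smul_smul, neg_mul_neg, inv_mul_cancel₀ hr0, one_smul] at h3
        exact h3
    rw [← integral_Ioc_eq_integral_Ioo,
      ← intervalIntegral.integral_of_le (by linarith [Real.pi_pos]),
      intervalIntegral.integral_eq_sub_of_hasDerivAt (fun θ _ => h1 θ)
        ((hBc.comp (Continuous.prodMk_right r)).intervalIntegrable _ _)]
    simp [ct2e]
  have jA : ∫ p in Ioi (0 : ℝ) ×ˢ Ioo (-Real.pi) Real.pi, A p = (2 * Real.pi) • q z := by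
    have h1 := hAi
    rw [IntegrableOn, Measure.volume_eq_prod, ← Measure.prod_restrict] at h1
    rw [Measure.volume_eq_prod, ← Measure.prod_restrict, integral_prod_symm _ h1]
    simp only [iA]
    rw [setIntegral_const, Real.volume_real_Ioo_of_le (by linarith [Real.pi_pos])]
    congr 1
    ring
  have jB : ∫ p in Ioi (0 : ℝ) ×ˢ Ioo (-Real.pi) Real.pi, B p = 0 := by
    rw [Measure.volume_eq_prod, setIntegral_prod _ hBi, setIntegral_congr_fun measurableSet_Ioi iB]
    simp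
  have hp : (Real.pi : ℂ) ≠ 0 := by exact_mod_cast Real.pi_ne_zero
  unfold cT
  rw [← Complex.integral_comp_polarCoord_symm]
  change ∫ p in Ioi (0 : ℝ) ×ˢ Ioo (-Real.pi) Real.pi, _ = _
  rw [setIntegral_congr_fun (measurableSet_Ioi.prod measurableSet_Ioo)
    (g := fun p => ((2 * Real.pi : ℂ))⁻¹ • (A p + I • B p)) fun p hp => by
      simp only [Complex.polarCoord_symm_apply]
      exact ct2_alg _ hp.1 p.2]
  rw [integral_smul, integral_add (g := fun p => I • B p) hAi (hBi.smul I), integral_smul, jA, jB, smul_zero, add_zero,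
    ← Complex.coe_smul, smul_smul]
  push_cast
  rw [inv_mul_cancel₀ (mul_ne_zero two_ne_zero hp), one_smul]

end Pool.Agent.Lib.MP_f2cf74_an
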