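import Pool.Agent.Lib.MP_f2cf74_an.KF1

open Set Metric MeasureTheory Complex Filter Topology
open scoped ContDiff ENNReal NNReal

noncomputable section

namespace Pool.Agent.Lib.MP_f2cf74_an

/-! Flat kernel calculus, part 2: the kernels of the cancellation estimate.  With
`B = om a τ / τ²` one has `Qf' = τ B'` and `2 Gf + τ Gf' = -Qf` (derivatives in `τ`);
`om' = -6 a² τ / (τ + a)⁴`.  Use `rad_mul`. -/

theorem om_facts {ρ t : ℝ} (hρ : 0 < ρ) (ht : 0 ≤ t) : 0 ≤ om (ρ ^ 2) (t ^ 2) ∧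
    om (ρ ^ 2) (t ^ 2) ≤ 1 ∧ 1 - om (ρ ^ 2) (t ^ 2) ≤ 3 * t / ρ ∧
    om (ρ ^ 2) (t ^ 2) * t ^ 4 ≤ 3 * ρ ^ 4 := by
  have h0 : 0 < t ^ 2 + ρ ^ 2 := by positivity
  have h3 : 0 < (t ^ 2 + ρ ^ 2) ^ 3 := by positivity
  refine ⟨by unfold om; positivity, ?_, ?_, ?_⟩
  · unfold om
    rw [div_le_one h3]
    have : 0 ≤ (t ^ 2) ^ 2 * (t ^ 2 + 3 * ρ ^ 2) := by positivity
    nlinarith
  · have e : 1 - om (ρ ^ 2) (t ^ 2) =
        t * (t ^ 2 * t * (t ^ 2 + 3 * ρ ^ 2)) / (t ^ 2 + ρ ^ 2) ^ 3 := by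
      unfold om
      field_simp
      ring
    rw [e, div_le_div_iff₀ h3 hρ]
    have a1 : t * ρ ≤ t ^ 2 + ρ ^ 2 := by nlinarith [sq_nonneg (t - ρ), mul_nonneg ht hρ.le]
    have a2 : t ^ 2 ≤ t ^ 2 + ρ ^ 2 := by nlinarith [sq_nonneg ρ]
    have a3 : t ^ 2 + 3 * ρ ^ 2 ≤ 3 * (t ^ 2 + ρ ^ 2) := by nlinarith [sq_nonneg t]
    calc t * (t ^ 2 * t * (t ^ 2 + 3 * ρ ^ 2)) * ρ
        = t * ((t * ρ) * t ^ 2 * (t ^ 2 + 3 * ρ ^ 2)) := by ring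
      _ ≤ t * ((t ^ 2 + ρ ^ 2) * (t ^ 2 + ρ ^ 2) * (3 * (t ^ 2 + ρ ^ 2))) := by gcongr
      _ = 3 * t * (t ^ 2 + ρ ^ 2) ^ 3 := by ring
  · unfold om
    rw [div_mul_eq_mul_div, div_le_iff₀ h3]
    have a2 : t ^ 2 ≤ t ^ 2 + ρ ^ 2 := by nlinarith [sq_nonneg ρ]
    have a3 : 3 * t ^ 2 + ρ ^ 2 ≤ 3 * (t ^ 2 + ρ ^ 2) := by nlinarith [sq_nonneg ρ]
    calc (ρ ^ 2) ^ 2 * (3 * t ^ 2 + ρ ^ 2) * t ^ 4
        = ρ ^ 4 * (t ^ 2 * t ^ 2 * (3 * t ^ 2 + ρ ^ 2)) := by ring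
      _ ≤ ρ ^ 4 * ((t ^ 2 + ρ ^ 2) * (t ^ 2 + ρ ^ 2) * (3 * (t ^ 2 + ρ ^ 2))) := by gcongr
      _ = 3 * ρ ^ 4 * (t ^ 2 + ρ ^ 2) ^ 3 := by ring

theorem Gf_bound {a τ : ℝ} (ha : 0 < a) (hτ : 0 < τ) : |Gf a τ| * τ ≤ 3 * (a / (τ + a)) := by
  have h0 : 0 < τ + a := by positivity
  have e : |Gf a τ| * τ = a / (τ + a) * ((3 * τ + 2 * a) / (τ + a)) := by
    unfold Gf
    rw [abs_neg, abs_of_nonneg (by positivity)]
    field_simp
  rw [e, mul_comm 3 (a / (τ + a))]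
  refine mul_le_mul_of_nonneg_left ?_ (by positivity)
  rw [div_le_iff₀ h0]
  linarith

theorem kf2_Qf {a τ : ℝ} (ha : 0 < a) (hτ : 0 < τ) : |Qf a τ| * τ ≤ 4 * (a / (τ + a)) := by
  have h0 : 0 < τ + a := by positivity
  have e : |Qf a τ| * τ = a / (τ + a) * (a * (4 * τ + 2 * a) / (τ + a) ^ 2) := by
    unfold Qf
    rw [abs_of_nonneg (by positivity)]
    field_simp
  rw [e, mul_comm 4 (a / (τ + a))]
  refine mul_le_mul_of_nonneg_left ?_ (by positivity)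
  rw [div_le_iff₀ (by positivity)]
  nlinarith [mul_pos ha hτ, sq_nonneg τ, sq_nonneg a]

theorem kf2_om {a τ : ℝ} (ha : 0 < a) (hτ : 0 < τ) : |om a τ| ≤ 3 * (a / (τ + a)) := by
  have h0 : 0 < τ + a := by positivity
  have e : |om a τ| = a / (τ + a) * (a * (3 * τ + a) / (τ + a) ^ 2) := by
    unfold om
    rw [abs_of_nonneg (by positivity)]
    field_simp
  rw [e, mul_comm 3 (a / (τ + a))]
  refine mul_le_mul_of_nonneg_left ?_ (by positivity)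
  rw [div_le_iff₀ (by positivity)]
  nlinarith [mul_pos ha hτ, sq_nonneg τ, sq_nonneg a]

/-- The derivative of `om a τ / τ²`. -/
def kf2B (a τ : ℝ) : ℝ := -(6 * a ^ 2 / (τ + a) ^ 4) * τ⁻¹ - 2 * om a τ * τ⁻¹ ^ 3

theorem kf2_B {a τ : ℝ} (ha : 0 < a) (hτ : 0 < τ) :
    |kf2B a τ| * τ ≤ 12 * (a / (τ + a)) * τ⁻¹ ^ 2 := by
  have h0 : 0 < τ + a := by positivity
  have h1 := kf2_om ha hτ
  have h2 : 0 ≤ om a τ := by unfold om; positivity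
  rw [abs_of_nonneg h2] at h1
  have h3 : 6 * a ^ 2 / (τ + a) ^ 4 * τ ^ 2 ≤ 6 * (a / (τ + a)) := by
    have e : 6 * a ^ 2 / (τ + a) ^ 4 * τ ^ 2 = 6 * (a / (τ + a)) * (a * τ ^ 2 / (τ + a) ^ 3) := by
      field_simp
    rw [e]
    refine mul_le_of_le_one_right (by positivity) ?_
    rw [div_le_one (by positivity)]
    have : 0 ≤ τ ^ 3 + 2 * a * τ ^ 2 + 3 * a ^ 2 * τ + a ^ 3 := by positivity
    nlinarith
  have e : |kf2B a τ| * τ = (6 * a ^ 2 / (τ + a) ^ 4 * τ ^ 2 + 2 * om a τ) * τ⁻¹ ^ 2 := by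
    have : kf2B a τ = -((6 * a ^ 2 / (τ + a) ^ 4) * τ⁻¹ + 2 * om a τ * τ⁻¹ ^ 3) := by
      unfold kf2B; ring
    rw [this, abs_neg, abs_of_nonneg (by positivity)]
    field_simp
  rw [e]
  gcongr
  linarith

theorem kf2_d1 {a τ : ℝ} (ha : 0 < a) (hτ : 0 < τ) :
    HasDerivAt (fun τ => Gf a τ * τ⁻¹ ^ 2) ((-Qf a τ - 4 * Gf a τ) * τ⁻¹ ^ 3) τ := by
  have h0 : τ + a ≠ 0 := by positivity
  have hi := hasDerivAt_id' τ
  have h := (((((hi.const_mul 3).add_const (2 * a)).const_mul a).fun_div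
    (hi.fun_mul ((hi.add_const a).fun_pow 2)) (by positivity)).fun_neg).fun_mul
    ((hi.fun_inv hτ.ne').fun_pow 2)
  refine h.congr_deriv ?_
  unfold Qf Gf
  simp only [Nat.cast_ofNat, Nat.add_one_sub_one, pow_one]
  field_simp
  ring

theorem kf2_d2 {a τ : ℝ} (ha : 0 < a) (hτ : 0 < τ) :
    HasDerivAt (fun τ => om a τ * τ⁻¹ ^ 2) (kf2B a τ) τ := by
  have h0 : τ + a ≠ 0 := by positivity
  have hi := hasDerivAt_id' τ
  have h := ((((hi.const_mul 3).add_const a).const_mul (a ^ 2)).fun_div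
    ((hi.add_const a).fun_pow 3) (by positivity)).fun_mul ((hi.fun_inv hτ.ne').fun_pow 2)
  refine h.congr_deriv ?_
  unfold kf2B om
  simp only [Nat.cast_ofNat, Nat.add_one_sub_one, pow_one]
  field_simp
  ring

theorem kf2_d3 {a τ : ℝ} (ha : 0 < a) (hτ : 0 < τ) :
    HasDerivAt (fun τ => Qf a τ * τ⁻¹ ^ 2) ((kf2B a τ - 2 * (Qf a τ * τ⁻¹ ^ 2)) * τ⁻¹) τ := by
  have h0 : τ + a ≠ 0 := by positivity
  have hi := hasDerivAt_id' τ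
  have h := ((((hi.const_mul 4).add_const (2 * a)).const_mul (a ^ 2)).fun_div
    (hi.fun_mul ((hi.add_const a).fun_pow 3)) (by positivity)).fun_mul
    ((hi.fun_inv hτ.ne').fun_pow 2)
  refine h.congr_deriv ?_
  unfold kf2B om Qf
  simp only [Nat.cast_ofNat, Nat.add_one_sub_one, pow_one]
  field_simp
  ring

theorem kf2_mono {k : F → ℂ} {z : F} {α β : ℝ} (h : KB k z α) (hl : α ≤ β) : KB k z β :=
  ⟨h.diff, h.b0.trans hl, h.b1.trans hl⟩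

theorem kf2_mul {f g : F → ℂ} {z : F} {α β : ℝ} (hf : KB f z α) (hg : KB g z β) :
    KB (fun w => f w * g w) z (2 * (α * β)) := by
  have ha : 0 ≤ α := (norm_nonneg _).trans hf.b0
  have hb : 0 ≤ β := (norm_nonneg _).trans hg.b0
  refine ⟨hf.diff.fun_mul hg.diff, ?_, ?_⟩
  · rw [norm_mul]
    have := mul_le_mul hf.b0 hg.b0 (norm_nonneg _) ha
    nlinarith [mul_nonneg ha hb]
  · rw [fderiv_fun_mul hf.diff hg.diff]
    have h1 : ‖f z • fderiv ℝ g z + g z • fderiv ℝ f z‖ ≤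
        ‖f z‖ * ‖fderiv ℝ g z‖ + ‖g z‖ * ‖fderiv ℝ f z‖ := by
      rw [← norm_smul, ← norm_smul]
      exact norm_add_le _ _
    have h2 := mul_le_mul hf.b0 hg.b1 (by positivity) ha
    have h3 := mul_le_mul hg.b0 hf.b1 (by positivity) hb
    nlinarith [mul_le_mul_of_nonneg_right h1 (norm_nonneg z)]

theorem kf2_sub {f g : F → ℂ} {z : F} {α β : ℝ} (hf : KB f z α) (hg : KB g z β) :
    KB (fun w => f w - g w) z (α + β) := by
  refine ⟨hf.diff.fun_sub hg.diff, (norm_sub_le _ _).trans (add_le_add hf.b0 hg.b0), ?_⟩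
  rw [fderiv_fun_sub hf.diff hg.diff]
  have h1 := mul_le_mul_of_nonneg_right (norm_sub_le (fderiv ℝ f z) (fderiv ℝ g z)) (norm_nonneg z)
  nlinarith [hf.b1, hg.b1]

theorem kf2_dmul {f g : F → ℂ} {z : F} (hf : DifferentiableAt ℝ f z) (hg : DifferentiableAt ℝ g z)
    (c : ℂ) (p : Fin 2) : dF c p (fun w => f w * g w) z = dF c p f z * g z + f z * dF c p g z := by
  unfold dF
  rw [fderiv_fun_mul hf hg]
  simp
  ring

theorem kf2_dsub {f g : F → ℂ} {z : F} (hf : DifferentiableAt ℝ f z) (hg : DifferentiableAt ℝ g z)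
    (c : ℂ) (p : Fin 2) : dF c p (fun w => f w - g w) z = dF c p f z - dF c p g z := by
  unfold dF
  rw [fderiv_fun_sub hf hg]
  simp
  ring

theorem kf2_lin (L : F →L[ℝ] ℂ) (hL : ∀ w, ‖L w‖ ≤ ‖w‖) (z : F) : KB L z ‖z‖ := by
  refine ⟨L.differentiableAt, hL z, ?_⟩
  rw [L.fderiv]
  exact mul_le_of_le_one_left (norm_nonneg z)
    (L.opNorm_le_bound zero_le_one fun w => by rw [one_mul]; exact hL w)

/-- A coordinate. -/
def kf2c (j : Fin 2) : F →L[ℝ] ℂ := (EuclideanSpace.proj j : F →L[ℂ] ℂ).restrictScalars ℝ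

/-- A conjugate coordinate. -/
def kf2s (j : Fin 2) : F →L[ℝ] ℂ := (Complex.conjCLE : ℂ →L[ℝ] ℂ).comp (kf2c j)

theorem kf2_c (j : Fin 2) (z : F) : KB (fun w : F => w j) z ‖z‖ :=
  kf2_lin (kf2c j) (fun w => PiLp.norm_apply_le w j) z

theorem kf2_s (j : Fin 2) (z : F) : KB (fun w : F => (starRingEnd ℂ) (w j)) z ‖z‖ :=
  kf2_lin (kf2s j) (fun w => (RCLike.norm_conj (w j)).trans_le (PiLp.norm_apply_le w j)) z

theorem kf2_dc (c : ℂ) (p j : Fin 2) (z : F) :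
    dF c p (fun w : F => w j) z = if j = p then (1 + c * I) / 2 else 0 := by
  have e : fderiv ℝ (fun w : F => w j) z = kf2c j := (kf2c j).fderiv
  unfold dF
  rw [e]
  by_cases h : j = p <;> simp [kf2c, ee, h]

theorem kf2_ds (c : ℂ) (p j : Fin 2) (z : F) :
    dF c p (fun w : F => (starRingEnd ℂ) (w j)) z = if j = p then (1 - c * I) / 2 else 0 := by
  have e : fderiv ℝ (fun w : F => (starRingEnd ℂ) (w j)) z = kf2s j := (kf2s j).fderiv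
  unfold dF
  rw [e]
  by_cases h : j = p <;> simp [kf2s, kf2c, ee, h, sub_eq_add_neg]

theorem kf2_rad {m : F → ℂ} {φ : ℝ → ℝ} {φ' : ℝ} {z : F} {α β : ℝ} (hm : KB m z α)
    (hφ : HasDerivAt φ φ' (‖z‖ ^ 2)) (h0 : |φ (‖z‖ ^ 2)| ≤ β) (h1 : |φ'| * ‖z‖ ^ 2 ≤ β) :
    KB (fun w => m w * (φ (‖w‖ ^ 2) : ℂ)) z (3 * (α * β)) := by
  have ha : 0 ≤ α := (norm_nonneg _).trans hm.b0
  have hb : 0 ≤ β := (abs_nonneg _).trans h0
  obtain ⟨r1, -, r3⟩ := rad_mul hm.diff hφ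
  refine ⟨r1, ?_, ?_⟩
  · rw [norm_mul, Complex.norm_real, Real.norm_eq_abs]
    have := mul_le_mul hm.b0 h0 (abs_nonneg _) ha
    nlinarith [mul_nonneg ha hb]
  · have h2 := mul_le_mul hm.b1 h0 (abs_nonneg _) ha
    have h3 := mul_le_mul hm.b0 h1 (by positivity) ha
    nlinarith [mul_le_mul_of_nonneg_right r3 (norm_nonneg z)]

theorem kf2_tau (z : F) : ((‖z‖ ^ 2 : ℝ) : ℂ) =
    z 0 * (starRingEnd ℂ) (z 0) + z 1 * (starRingEnd ℂ) (z 1) := by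
  rw [EuclideanSpace.norm_sq_eq, Fin.sum_univ_two, Complex.mul_conj, Complex.mul_conj,
    Complex.normSq_eq_norm_sq, Complex.normSq_eq_norm_sq, Complex.ofReal_add]

theorem kf2_conj (u : ℂ) : (u.re : ℂ) + -I * u.im = (starRingEnd ℂ) u := by
  apply Complex.ext <;> simp

theorem kf2_self (u : ℂ) : (u.re : ℂ) + I * u.im = u := by
  apply Complex.ext <;> simp

theorem kC1_facts : ∃ C : ℝ, 0 ≤ C ∧ ∀ (a : ℝ) (z : F) (j n q : Fin 2), 0 < a → z ≠ 0 →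
    (∀ p, KB (kC1 a j n q p) z (C * (a / (‖z‖ ^ 2 + a) * ‖z‖⁻¹ ^ 2))) ∧
    ∑ p, dF (-I) p (kC1 a j n q p) z =
      -(((Qf a (‖z‖ ^ 2) * (‖z‖ ^ 2)⁻¹ ^ 2 : ℝ) : ℂ) * z j * z n * (starRingEnd ℂ) (z q)) := by
  refine ⟨384, by norm_num, fun a z j n q ha hz => ?_⟩
  have hr : 0 < ‖z‖ := norm_pos_iff.2 hz
  have hτ : 0 < ‖z‖ ^ 2 := by positivity
  have e : ∀ p, kC1 a j n q p = fun w : F => (w j * w n * w p * (starRingEnd ℂ) (w q)) *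
      ((Gf a (‖w‖ ^ 2) * (‖w‖ ^ 2)⁻¹ ^ 2 : ℝ) : ℂ) := by
    intro p
    funext w
    unfold kC1
    ring
  have hm := fun p => kf2_mul (kf2_mul (kf2_mul (kf2_c j z) (kf2_c n z)) (kf2_c p z)) (kf2_s q z)
  have hd := kf2_d1 ha hτ
  have hG := Gf_bound ha hτ
  have hQ := kf2_Qf ha hτ
  have hθ : 0 < a / (‖z‖ ^ 2 + a) := by positivity
  constructor
  · intro p
    rw [e]
    refine kf2_mono (kf2_rad (β := 16 * (a / (‖z‖ ^ 2 + a)) * (‖z‖ ^ 2)⁻¹ ^ 3) (hm p) hd ?_ ?_)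
      (le_of_eq ?_)
    · have : |Gf a (‖z‖ ^ 2) * (‖z‖ ^ 2)⁻¹ ^ 2| =
          |Gf a (‖z‖ ^ 2)| * ‖z‖ ^ 2 * (‖z‖ ^ 2)⁻¹ ^ 3 := by
        rw [abs_mul, abs_of_nonneg (a := (‖z‖ ^ 2)⁻¹ ^ 2) (by positivity)]
        field_simp
      rw [this]
      refine mul_le_mul_of_nonneg_right ?_ (by positivity)
      linarith
    · rw [abs_mul, abs_of_nonneg (a := (‖z‖ ^ 2)⁻¹ ^ 3) (by positivity), mul_right_comm]
      refine mul_le_mul_of_nonneg_right ?_ (by positivity)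
      have h1 : |-Qf a (‖z‖ ^ 2) - 4 * Gf a (‖z‖ ^ 2)| ≤
          |Qf a (‖z‖ ^ 2)| + 4 * |Gf a (‖z‖ ^ 2)| := by
        refine (abs_sub _ _).trans ?_
        rw [abs_neg, abs_mul, abs_of_nonneg (a := (4 : ℝ)) (by norm_num)]
      nlinarith [mul_le_mul_of_nonneg_right h1 hτ.le]
    · field_simp
      norm_num
  · have h1 : ∀ p, dF (-I) p (fun w : F => w j * w n * w p * (starRingEnd ℂ) (w q)) z =
        ((if j = p then z n * z p else 0) + (if n = p then z j * z p else 0) + z j * z n) *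
          (starRingEnd ℂ) (z q) := by
      intro p
      rw [kf2_dmul (kf2_mul (kf2_mul (kf2_c j z) (kf2_c n z)) (kf2_c p z)).diff (kf2_s q z).diff,
        kf2_dmul (kf2_mul (kf2_c j z) (kf2_c n z)).diff (kf2_c p z).diff,
        kf2_dmul (kf2_c j z).diff (kf2_c n z).diff, kf2_dc, kf2_dc, kf2_dc, kf2_ds]
      have i1 : (1 + -I * I) / 2 = 1 := by linear_combination (-1 / 2) * I_mul_I
      have i2 : (1 - -I * I) / 2 = 0 := by linear_combination (1 / 2) * I_mul_I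
      rw [i1, i2, if_pos rfl, ite_self]
      split_ifs <;> ring
    have h2 : ∑ p : Fin 2, ((if j = p then z n * z p else 0) + (if n = p then z j * z p else 0) +
        z j * z n) = 4 * (z j * z n) := by
      rw [Finset.sum_add_distrib, Finset.sum_add_distrib, Finset.sum_ite_eq, Finset.sum_ite_eq]
      simp
      ring
    have h3 : ((‖z‖ ^ 2 : ℝ) : ℂ) * (((‖z‖ ^ 2)⁻¹ : ℝ) : ℂ) = 1 := by
      rw [← Complex.ofReal_mul, mul_inv_cancel₀ hτ.ne', Complex.ofReal_one]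
    have h4 := kf2_tau z
    rw [Fin.sum_univ_two] at h2
    rw [Fin.sum_univ_two, e, e, (rad_mul (hm 0).diff hd).2.1, (rad_mul (hm 1).diff hd).2.1, h1, h1,
      kf2_conj, kf2_conj]
    simp only [Complex.ofReal_mul, Complex.ofReal_sub, Complex.ofReal_neg,
      Complex.ofReal_pow ((‖z‖ ^ 2)⁻¹), Complex.ofReal_ofNat]
    generalize (((‖z‖ ^ 2)⁻¹ : ℝ) : ℂ) = s at *
    generalize ((‖z‖ ^ 2 : ℝ) : ℂ) = τ at *
    generalize ((Qf a (‖z‖ ^ 2) : ℝ) : ℂ) = Q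
    generalize ((Gf a (‖z‖ ^ 2) : ℝ) : ℂ) = G
    linear_combination (starRingEnd ℂ) (z q) * G * s ^ 2 * h2 +
      z j * z n * (starRingEnd ℂ) (z q) * (-Q - 4 * G) * s ^ 2 * (h3 - s * h4)

theorem kC2_facts : ∃ C : ℝ, 0 ≤ C ∧ ∀ (a : ℝ) (z : F) (j n : Fin 2), 0 < a → z ≠ 0 →
    (∀ q, KB (kC2 a j n q) z (C * (a / (‖z‖ ^ 2 + a) * ‖z‖⁻¹ ^ 3))) ∧
    ∑ q, dF I q (kC2 a j n q) z = 0 := by
  refine ⟨276, by norm_num, fun a z j n ha hz => ?_⟩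
  have hr : 0 < ‖z‖ := norm_pos_iff.2 hz
  have hτ : 0 < ‖z‖ ^ 2 := by positivity
  have e : ∀ q, kC2 a j n q = fun w : F => (w j * w n * (starRingEnd ℂ) (w q)) *
      ((Qf a (‖w‖ ^ 2) * (‖w‖ ^ 2)⁻¹ ^ 2 : ℝ) : ℂ) - (if q = n then 1 else 0) *
      (w j * ((om a (‖w‖ ^ 2) * (‖w‖ ^ 2)⁻¹ ^ 2 : ℝ) : ℂ)) := by
    intro q
    funext w
    unfold kC2 kBM
    rw [Complex.ofReal_mul (om a _)]
    split_ifs <;> ring
  have hm := fun q => kf2_mul (kf2_mul (kf2_c j z) (kf2_c n z)) (kf2_s q z)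
  have hd2 := kf2_d2 ha hτ
  have hd3 := kf2_d3 ha hτ
  have hB := kf2_B ha hτ
  have hQ := kf2_Qf ha hτ
  have ho := kf2_om ha hτ
  have hθ : 0 < a / (‖z‖ ^ 2 + a) := by positivity
  have q0 : |Qf a (‖z‖ ^ 2) * (‖z‖ ^ 2)⁻¹ ^ 2| ≤ 4 * (a / (‖z‖ ^ 2 + a)) * (‖z‖ ^ 2)⁻¹ ^ 3 := by
    have : |Qf a (‖z‖ ^ 2) * (‖z‖ ^ 2)⁻¹ ^ 2| =
        |Qf a (‖z‖ ^ 2)| * ‖z‖ ^ 2 * (‖z‖ ^ 2)⁻¹ ^ 3 := by
      rw [abs_mul, abs_of_nonneg (a := (‖z‖ ^ 2)⁻¹ ^ 2) (by positivity)]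
      field_simp
    rw [this]
    gcongr
  have hp : 0 < a / (‖z‖ ^ 2 + a) * (‖z‖ ^ 2)⁻¹ ^ 3 := by positivity
  have k1 : ∀ q, KB (fun w : F => (w j * w n * (starRingEnd ℂ) (w q)) *
      ((Qf a (‖w‖ ^ 2) * (‖w‖ ^ 2)⁻¹ ^ 2 : ℝ) : ℂ)) z
      (240 * (a / (‖z‖ ^ 2 + a) * ‖z‖⁻¹ ^ 3)) := by
    intro q
    refine kf2_mono (kf2_rad (β := 20 * (a / (‖z‖ ^ 2 + a)) * (‖z‖ ^ 2)⁻¹ ^ 3) (hm q) hd3 ?_ ?_)
      (le_of_eq ?_)
    · refine q0.trans ?_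
      nlinarith
    · rw [abs_mul, abs_of_nonneg (a := (‖z‖ ^ 2)⁻¹) (by positivity), mul_assoc,
        inv_mul_cancel₀ hτ.ne', mul_one]
      have h1 : |kf2B a (‖z‖ ^ 2)| ≤ 12 * (a / (‖z‖ ^ 2 + a)) * (‖z‖ ^ 2)⁻¹ ^ 3 := by
        have : |kf2B a (‖z‖ ^ 2)| = |kf2B a (‖z‖ ^ 2)| * ‖z‖ ^ 2 * (‖z‖ ^ 2)⁻¹ := by
          field_simp
        rw [this, pow_succ (‖z‖ ^ 2)⁻¹ 2, ← mul_assoc]
        gcongr
      refine (abs_sub _ _).trans ?_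
      rw [abs_mul 2, abs_of_nonneg (a := (2 : ℝ)) (by norm_num)]
      nlinarith
    · field_simp
      norm_num
  have k2 : KB (fun w : F => w j * ((om a (‖w‖ ^ 2) * (‖w‖ ^ 2)⁻¹ ^ 2 : ℝ) : ℂ)) z
      (36 * (a / (‖z‖ ^ 2 + a) * ‖z‖⁻¹ ^ 3)) := by
    refine kf2_mono (kf2_rad (β := 12 * (a / (‖z‖ ^ 2 + a)) * (‖z‖ ^ 2)⁻¹ ^ 2) (kf2_c j z) hd2 ?_
      hB) (le_of_eq ?_)
    · rw [abs_mul, abs_of_nonneg (a := (‖z‖ ^ 2)⁻¹ ^ 2) (by positivity)]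
      gcongr
      linarith
    · field_simp
      norm_num
  constructor
  · intro q
    rw [e]
    by_cases h : q = n
    · simp only [if_pos h, one_mul]
      exact kf2_mono (kf2_sub (k1 q) k2) (le_of_eq (by ring))
    · simp only [if_neg h, zero_mul, sub_zero]
      refine kf2_mono (k1 q) ?_
      gcongr
      norm_num
  · have i1 : (1 + I * I) / 2 = 0 := by linear_combination (1 / 2) * I_mul_I
    have i2 : (1 - I * I) / 2 = 1 := by linear_combination (-1 / 2) * I_mul_I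
    have h1 : ∀ q, dF I q (fun w : F => w j * w n * (starRingEnd ℂ) (w q)) z = z j * z n := by
      intro q
      rw [kf2_dmul (kf2_mul (kf2_c j z) (kf2_c n z)).diff (kf2_s q z).diff,
        kf2_dmul (kf2_c j z).diff (kf2_c n z).diff, kf2_dc, kf2_dc, kf2_ds, i1, i2]
      simp
    have h2 : ∀ q, dF I q (kC2 a j n q) z =
        z j * z n * ((Qf a (‖z‖ ^ 2) * (‖z‖ ^ 2)⁻¹ ^ 2 : ℝ) : ℂ) +
          z j * z n * (starRingEnd ℂ) (z q) * (((kf2B a (‖z‖ ^ 2) -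
            2 * (Qf a (‖z‖ ^ 2) * (‖z‖ ^ 2)⁻¹ ^ 2)) * (‖z‖ ^ 2)⁻¹ : ℝ) : ℂ) * z q -
          if n = q then z j * (kf2B a (‖z‖ ^ 2) : ℂ) * z q else 0 := by
      intro q
      rw [e]
      by_cases h : q = n
      · simp only [if_pos h, if_pos h.symm, one_mul]
        rw [kf2_dsub (k1 q).diff k2.diff, (rad_mul (hm q).diff hd3).2.1,
          (rad_mul (kf2_c j z).diff hd2).2.1, h1, kf2_dc, i1, kf2_self, ite_self, zero_mul,
          zero_add]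
      · simp only [if_neg h, if_neg (Ne.symm h), zero_mul, sub_zero]
        rw [(rad_mul (hm q).diff hd3).2.1, h1, kf2_self]
    have h3 : ((‖z‖ ^ 2 : ℝ) : ℂ) * (((‖z‖ ^ 2)⁻¹ : ℝ) : ℂ) = 1 := by
      rw [← Complex.ofReal_mul, mul_inv_cancel₀ hτ.ne', Complex.ofReal_one]
    have h4 := kf2_tau z
    rw [Finset.sum_congr rfl fun q _ => h2 q, Finset.sum_sub_distrib, Finset.sum_ite_eq,
      if_pos (Finset.mem_univ n), Fin.sum_univ_two, Complex.ofReal_mul (kf2B a _ - _),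
      Complex.ofReal_sub, Complex.ofReal_mul 2, Complex.ofReal_ofNat]
    generalize ((Qf a (‖z‖ ^ 2) * (‖z‖ ^ 2)⁻¹ ^ 2 : ℝ) : ℂ) = Q
    generalize (((‖z‖ ^ 2)⁻¹ : ℝ) : ℂ) = s at *
    generalize ((‖z‖ ^ 2 : ℝ) : ℂ) = τ at *
    generalize ((kf2B a (‖z‖ ^ 2) : ℝ) : ℂ) = B
    linear_combination z j * z n * (B - 2 * Q) * (h3 - s * h4)

end Pool.Agent.Lib.MP_f2cf74_an
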