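import Pool.Agent.Lib.MP_f2cf74_an.KF1
import Pool.Agent.Lib.MP_f2cf74_an.ModB

open Set Metric MeasureTheory Complex Filter Topology
open scoped ContDiff ENNReal NNReal

noncomputable section

namespace Pool.Agent.Lib.MP_f2cf74_an

/-! Properties of the kernel `Kk M s j x y = ktr s kBM j (A y (y - x))`.  `Kk_lip`: mean value
inequality for `x ↦ ktr s kBM j (A y (y - x))` on the convex set `closedBall x' (‖x' - y‖ / 2)`. -/

theorem kkf_cont (M : Model) : Continuous fun q : E × E => M.A q.2 (q.2 - q.1) :=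
  (M.smA.continuous.comp continuous_snd).clm_apply (continuous_snd.sub continuous_fst)

theorem kkf_low (M : Model) (x y : E) : ‖x - y‖ ≤ M.K * ‖M.A y (y - x)‖ := by
  rw [norm_sub_rev]
  exact M.low y (y - x)

theorem kkf_out (M : Model) {s : ℝ} {x y : E} (h : M.K * s ≤ ‖x - y‖) : s ≤ ‖M.A y (y - x)‖ :=
  le_of_mul_le_mul_left (h.trans (kkf_low M x y)) M.K_pos

theorem kkf_inv (M : Model) {x y : E} (h : x ≠ y) :
    0 < ‖M.A y (y - x)‖ ∧ ‖M.A y (y - x)‖⁻¹ ≤ M.K * ‖x - y‖⁻¹ := by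
  have h0 : 0 < ‖x - y‖ := norm_pos_iff.2 (sub_ne_zero.2 h)
  have h1 := kkf_low M x y
  have h2 : 0 < ‖M.A y (y - x)‖ := (mul_pos_iff_of_pos_left M.K_pos).1 (h0.trans_le h1)
  refine ⟨h2, ?_⟩
  rw [← div_eq_mul_inv, le_div_iff₀ h0, inv_mul_le_iff₀ h2, mul_comm]
  exact h1

theorem kkf_KB {s : ℝ} (hs : 0 < s) (j : Fin 2) {z : F} (hz : 0 < ‖z‖) :
    KB (ktr s kBM j) z (7 * (5 * ‖z‖⁻¹ ^ 3)) :=
  (ktr_facts hs ((kBM_facts (norm_pos_iff.1 hz)).1 j)).1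

theorem measurable_Kk (M : Model) (s : ℝ) (j : Fin 2) :
    Measurable fun q : E × E => Kk M s j q.1 q.2 := by
  have h1 : Continuous fun q : E × E => M.A q.2 (q.2 - q.1) j :=
    (EuclideanSpace.proj (𝕜 := ℂ) j).continuous.comp (kkf_cont M)
  have h2 : Continuous fun q : E × E => ‖M.A q.2 (q.2 - q.1)‖ ^ 2 := (kkf_cont M).norm.pow 2
  have h3 : Continuous cut := continuous_iff_continuousAt.2 fun t => (hasDerivAt_cut t).continuousAt
  exact (h1.measurable.mul (measurable_ofReal.comp (h2.measurable.inv.pow_const 2))).mul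
    (measurable_ofReal.comp (h3.comp (h2.div_const (s ^ 2))).measurable)

theorem measurable_chi (M : Model) {s : ℝ} (hs : 0 < s) :
    Measurable fun q : E × E => chi M s q.1 q.2 := by
  exact (chiF_facts hs).2.2.1.comp (kkf_cont M).measurable

theorem Kk_zero (M : Model) {s : ℝ} (hs : 0 < s) (j : Fin 2) {x y : E} (h : M.K * s ≤ ‖x - y‖) :
    Kk M s j x y = 0 := by
  exact ktr_eq_zero hs kBM j (kkf_out M h)

theorem Kk_bound (M : Model) : ∃ C : ℝ, 0 ≤ C ∧ ∀ (s : ℝ) (j : Fin 2) (x y : E), 0 < s →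
    ‖Kk M s j x y‖ ≤ C * ‖x - y‖⁻¹ ^ 3 := by
  have hK := M.K_pos
  refine ⟨35 * M.K ^ 3, by positivity, fun s j x y hs => ?_⟩
  rcases eq_or_ne x y with rfl | h
  · simp [Kk, ktr, kBM]
  obtain ⟨h1, h2⟩ := kkf_inv M h
  have h3 := pow_le_pow_left₀ (inv_nonneg.2 h1.le) h2 3
  refine (kkf_KB hs j h1).b0.trans ?_
  rw [mul_pow] at h3
  linarith

theorem Kk_lip (M : Model) : ∃ C : ℝ, 0 ≤ C ∧ ∀ (s : ℝ) (j : Fin 2) (x x' y : E), 0 < s →
    x' ≠ y → ‖x - x'‖ ≤ ‖x' - y‖ / 2 →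
    ‖Kk M s j x y - Kk M s j x' y‖ ≤ C * ‖x - x'‖ * ‖x' - y‖⁻¹ ^ 4 := by
  have hK := M.K_pos
  refine ⟨560 * M.K ^ 5, by positivity, fun s j x x' y hs h hx => ?_⟩
  have h0 : 0 < ‖x' - y‖ := norm_pos_iff.2 (sub_ne_zero.2 h)
  have h1 : ∀ w ∈ closedBall x' (‖x' - y‖ / 2), ‖x' - y‖ / 2 ≤ ‖w - y‖ := fun w hw => by
    have := norm_sub_le_norm_sub_add_norm_sub x' w y
    rw [mem_closedBall', dist_eq_norm] at hw
    linarith
  have h2 : ∀ w ∈ closedBall x' (‖x' - y‖ / 2), w ≠ y := fun w hw e => by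
    have := h1 w hw
    rw [e, sub_self, norm_zero] at this
    linarith
  have h3 := (convex_closedBall x' (‖x' - y‖ / 2)).norm_image_sub_le_of_norm_hasFDerivWithin_le
    (𝕜 := ℝ) (f := fun w => Kk M s j w y)
    (f' := fun w => (fderiv ℝ (ktr s kBM j) (M.A y (y - w))).comp (-M.A y))
    (C := 560 * M.K ^ 5 * ‖x' - y‖⁻¹ ^ 4) (fun w hw => ?_) (fun w hw => ?_)
    (mem_closedBall_self (by positivity)) (mem_closedBall_iff_norm.2 hx)
  · linarith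
  · have h4 : HasFDerivAt (fun w => M.A y (y - w)) (-M.A y) w :=
      ((M.A y).hasFDerivAt.comp w ((hasFDerivAt_id w).const_sub y)).congr_fderiv (by simp)
    exact ((kkf_KB hs j (kkf_inv M (h2 w hw)).1).diff.hasFDerivAt.comp w h4).hasFDerivWithinAt
  · obtain ⟨h4, h5⟩ := kkf_inv M (h2 w hw)
    have h6 : ‖w - y‖⁻¹ ≤ 2 * ‖x' - y‖⁻¹ :=
      (inv_anti₀ (by positivity) (h1 w hw)).trans_eq (by rw [inv_div, div_eq_mul_inv])
    have h7 := pow_le_pow_left₀ (inv_nonneg.2 h4.le)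
      (h5.trans (mul_le_mul_of_nonneg_left h6 hK.le)) 4
    have h8 := (le_div_iff₀ h4).2 (kkf_KB hs j h4).b1
    refine ((ContinuousLinearMap.opNorm_comp_le _ _).trans
      (mul_le_mul h8 ((norm_neg _).trans_le (M.bA y)) (norm_nonneg _) (by positivity))).trans ?_
    rw [div_eq_mul_inv]
    have h9 := mul_le_mul_of_nonneg_left h7 hK.le
    linarith

theorem chi_bound (M : Model) : ∃ C : ℝ, 0 ≤ C ∧ ∀ (s : ℝ) (x y : E), 0 < s → 0 ≤ chi M s x y ∧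
    chi M s x y ≤ C * s⁻¹ * ‖x - y‖⁻¹ ^ 3 ∧ (M.K * s ≤ ‖x - y‖ → chi M s x y = 0) := by
  have hK := M.K_pos
  refine ⟨18 * M.K ^ 3, by positivity, fun s x y hs => ?_⟩
  obtain ⟨c1, c2, -, c4⟩ := chiF_facts hs
  refine ⟨c1 _, ?_, fun h => c2 _ (kkf_out M h)⟩
  rcases eq_or_ne x y with rfl | h
  · simp [chi, chiF]
  obtain ⟨h1, h2⟩ := kkf_inv M h
  rcases le_or_gt s ‖M.A y (y - x)‖ with h3 | h3
  · rw [chi, c2 _ h3]
    positivity
  have h4 := (c4 _ (norm_pos_iff.1 h1)).b0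
  rw [norm_real, Real.norm_of_nonneg (c1 _), ← inv_pow] at h4
  have h5 := pow_le_pow_left₀ (inv_nonneg.2 h1.le) h2 3
  have h6 := mul_le_mul_of_nonneg_right (inv_anti₀ h1 h3.le)
    (show 0 ≤ s⁻¹ * ‖M.A y (y - x)‖⁻¹ ^ 2 by positivity)
  have h7 := mul_le_mul_of_nonneg_left h5 (inv_pos.2 hs).le
  refine h4.trans ?_
  linarith

end Pool.Agent.Lib.MP_f2cf74_an
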