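import Pool.Agent.Lib.MP_f2cf74_an.Lel1
import Pool.Agent.Lib.MP_f2cf74_an.KF2
import Pool.Agent.Lib.MP_f2cf74_an.KkF

open Set Metric MeasureTheory Complex Filter Topology
open scoped ContDiff ENNReal NNReal

noncomputable section

namespace Pool.Agent.Lib.MP_f2cf74_an

/-! The cancellation estimate.  Let `a₀ = ρ²`, `ζ = A y (x - y)`, `τ = ‖ζ‖²`; the integrand is
`-cut * om * kBM j ζ * Lb n v`.  Step 1: `ki` with `c = I`, `k = kC2 a₀ j n`, `G = v - v y`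
(`Lc_ofReal`, `kC2_facts`; error `≤ C B ρ` by `decay3`).  Step 2: for each `q`, `ki` with
`c = -I`, `k = kC1 a₀ j n q`, `G = Lb M q v` (error `≤ C ρ` by `g0`, since
`a₀ / (τ + a₀) ‖ζ‖⁻² ≤ ρ ‖ζ‖⁻³`), `H_sub_LL`.  The main term is
`cut * Gf τ⁻² ζ_j ζ_n * Hq (H v) ζ` (the double sum is real since `H` is hermitian), bounded with
`Gf_bound`, `a₀ / (τ + a₀) ≤ (-log τ) / (-log ρ)` for `τ ≤ 1/4`, and `lel1`.
Finally `ρ ≤ 1 / (-log ρ)`. -/

theorem can_loc {G : E → ℂ} (hG : ContDiff ℝ 1 G) (y : E) (R : ℝ) : ∃ L : ℝ, 0 ≤ L ∧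
    ∀ x, ‖x - y‖ ≤ R → ‖G x‖ ≤ L ∧ ‖fderiv ℝ G x‖ ≤ L ∧ ‖G x - G y‖ ≤ L * ‖x - y‖ := by
  obtain ⟨L1, h1⟩ := (isCompact_closedBall y R).exists_bound_of_continuousOn
    hG.continuous.continuousOn
  obtain ⟨L2, h2⟩ := (isCompact_closedBall y R).exists_bound_of_continuousOn
    (hG.continuous_fderiv one_ne_zero).continuousOn
  refine ⟨max (max L1 L2) 0, le_max_right _ _, fun x hx => ?_⟩
  have hx' : x ∈ closedBall y R := mem_closedBall_iff_norm.2 hx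
  have h3 : ∀ w ∈ closedBall y R, ‖fderiv ℝ G w‖ ≤ max (max L1 L2) 0 := fun w hw =>
    (h2 w hw).trans ((le_max_right _ _).trans (le_max_left _ _))
  exact ⟨(h1 x hx').trans ((le_max_left _ _).trans (le_max_left _ _)), h3 x hx',
    (convex_closedBall y R).norm_image_sub_le_of_norm_fderiv_le
      (fun w _ => hG.differentiable one_ne_zero w) h3
      (mem_closedBall_self ((norm_nonneg _).trans hx)) hx'⟩

theorem can_inv (M : Model) {y x : E} (hx : x ≠ y) :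
    M.A y (x - y) ≠ 0 ∧ ‖M.A y (x - y)‖⁻¹ ≤ M.K * ‖x - y‖⁻¹ := by
  have h0 : 0 < ‖x - y‖ := norm_pos_iff.2 (sub_ne_zero.2 hx)
  have h1 := M.low y (x - y)
  have h2 : 0 < ‖M.A y (x - y)‖ := by
    by_contra h
    have := mul_nonpos_of_nonneg_of_nonpos M.K_pos.le (not_lt.1 h)
    linarith
  refine ⟨norm_pos_iff.1 h2, ?_⟩
  rw [← div_eq_mul_inv, inv_eq_one_div, div_le_div_iff₀ h2 h0]
  linarith

theorem can_mem (M : Model) {c y x : E} {a s : ℝ} (hy : y ∈ ball c a)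
    (hx : ‖M.A y (x - y)‖ ≤ s) : ‖x - y‖ ≤ M.K * s ∧ x ∈ ball c (a + M.K * s) := by
  have h1 := (M.low y (x - y)).trans (mul_le_mul_of_nonneg_left hx M.K_pos.le)
  have h2 := dist_triangle x y c
  rw [dist_eq_norm x y] at h2
  exact ⟨h1, mem_ball.2 (by linarith [mem_ball.1 hy])⟩

theorem can_frac {ρ t : ℝ} (hρ : 0 < ρ) : 0 ≤ ρ ^ 2 / (t ^ 2 + ρ ^ 2) ∧
    ρ ^ 2 / (t ^ 2 + ρ ^ 2) ≤ 1 :=
  ⟨by positivity, (div_le_one (by positivity)).2 (by nlinarith)⟩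

theorem can_rho {ρ : ℝ} (hρ : 0 < ρ) (h : ρ ≤ 1 / 2) : 0 < -Real.log ρ ∧ ρ ≤ 1 / (-Real.log ρ) := by
  have h1 : 0 < -Real.log ρ := neg_pos.2 (Real.log_neg hρ (by linarith))
  refine ⟨h1, ?_⟩
  have h2 := Real.log_le_sub_one_of_pos (inv_pos.2 hρ)
  rw [Real.log_inv] at h2
  rw [le_div_iff₀ h1]
  calc ρ * -Real.log ρ ≤ ρ * ρ⁻¹ := by gcongr; linarith
    _ = 1 := mul_inv_cancel₀ hρ.ne'

theorem can_log {ρ τ : ℝ} (hρ : 0 < ρ) (h : ρ ≤ 1 / 2) (hτ : 0 < τ) (h' : τ ≤ 1 / 4) :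
    ρ ^ 2 / (τ + ρ ^ 2) ≤ 1 / (-Real.log ρ) * -Real.log τ := by
  obtain ⟨h1, h2⟩ := can_rho hρ h
  rcases le_total τ ρ with h3 | h3
  · have := Real.log_le_log hτ h3
    rw [one_div_mul_eq_div]
    exact ((div_le_one (by positivity)).2 (by linarith)).trans
      ((one_le_div h1).2 (by linarith))
  · have h4 : Real.log τ ≤ -1 := by
      have h5 := Real.log_le_log hτ h'
      have h6 : Real.log (1 / 4) = -(2 * Real.log 2) := by
        rw [one_div, Real.log_inv, show (4 : ℝ) = 2 ^ 2 by norm_num, Real.log_pow]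
        norm_num
      linarith [Real.log_two_gt_d9]
    have h5 : ρ ^ 2 / (τ + ρ ^ 2) ≤ ρ := by
      rw [div_le_iff₀ (by positivity)]
      nlinarith [mul_pos hρ (pow_pos hρ 2)]
    exact h5.trans (h2.trans (le_mul_of_one_le_right (by positivity) (by linarith)))

theorem can_meas (M : Model) (y : E) (s : ℝ) : MeasurableSet {x | ‖M.A y (x - y)‖ < s} :=
  (isOpen_lt (by fun_prop) continuous_const).measurableSet

theorem can_ae (y : E) : ∀ᵐ x : E, x ≠ y := by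
  simp [ae_iff]

/-- The first order error terms. -/
theorem can_g (M : Model) (c : E) {a b s : ℝ} (ha : 0 < a) (hs : 0 < s)
    (hab : a + M.K * s < b) (B D : ℝ) (hD : 0 ≤ D) : ∃ C : ℝ≥0, ∀ v, VOK M c b B v →
    ∀ y ∈ ball c a, ∀ ρ, 0 < ρ → ∀ m : E → ℝ≥0∞, (∀ x, x ≠ y → m x ≤ ENNReal.ofReal (D *
      (ρ ^ 2 / (‖M.A y (x - y)‖ ^ 2 + ρ ^ 2) * ‖M.A y (x - y)‖⁻¹ ^ 2 * ‖fderiv ℝ v x‖))) →
    ∫⁻ x in {x | ‖M.A y (x - y)‖ < s}, m x ≤ C * ENNReal.ofReal ρ := by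
  have hK := M.K_pos
  obtain ⟨C, hC⟩ := g0 M c (show 0 < a + M.K * s by positivity) hab B
  refine ⟨(D * M.K ^ 3).toNNReal * C, fun v hv y hy ρ hρ m hm => ?_⟩
  have h1 : ∀ x, x ≠ y → m x ≤ ENNReal.ofReal (D * M.K ^ 3 * ρ) * (kp 3 y x * eG v x) := by
    intro x hx
    obtain ⟨h2, h3⟩ := can_inv M hx
    refine (hm x hx).trans ?_
    rw [kp, eG, ← ofReal_norm, ← ENNReal.ofReal_mul (by positivity),
      ← ENNReal.ofReal_mul (by positivity), norm_sub_rev y x]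
    refine ENNReal.ofReal_le_ofReal ?_
    set t := ‖M.A y (x - y)‖
    have ht : 0 < t := norm_pos_iff.2 h2
    have h4 : ρ ^ 2 / (t ^ 2 + ρ ^ 2) ≤ ρ * t⁻¹ := by
      rw [← div_eq_mul_inv, div_le_div_iff₀ (by positivity) ht]
      nlinarith [mul_nonneg hρ.le (sq_nonneg (t - ρ)), mul_pos (pow_pos hρ 2) ht]
    calc _ ≤ D * (ρ * (M.K * ‖x - y‖⁻¹) * (M.K * ‖x - y‖⁻¹) ^ 2 * ‖fderiv ℝ v x‖) := by
          gcongr
          exact h4.trans (by gcongr)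
      _ = _ := by ring
  calc _ ≤ ∫⁻ x in ball c (a + M.K * s),
        ENNReal.ofReal (D * M.K ^ 3 * ρ) * (kp 3 y x * eG v x) :=
        (lintegral_mono_ae (ae_restrict_of_ae ((can_ae y).mono h1))).trans
          (lintegral_mono_set fun x hx => (can_mem M hy (le_of_lt hx)).2)
    _ ≤ ENNReal.ofReal (D * M.K ^ 3 * ρ) * C := by
        rw [lintegral_const_mul' _ _ ENNReal.ofReal_ne_top]
        gcongr
        exact hC v hv y (ball_subset_ball (le_add_of_nonneg_right (by positivity)) hy)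
    _ = _ := by
        rw [ENNReal.ofReal_mul (by positivity), ENNReal.coe_mul]
        exact mul_right_comm _ _ _

theorem can_S (M : Model) (c : E) {a b s : ℝ} (hs : 0 < s)
    (hab : a + M.K * s < b) (B : ℝ) : ∃ C : ℝ≥0, ∀ v, VOK M c b B v → ∀ y ∈ ball c a,
    ∀ ρ, 0 < ρ → ∀ j n : Fin 2,
    Integrable (fun x => ∑ q, ktr s (kC2 (ρ ^ 2) j n) q (M.A y (x - y)) * Lb M q v x) ∧
    ‖∫ x, ∑ q, ktr s (kC2 (ρ ^ 2) j n) q (M.A y (x - y)) * Lb M q v x‖ₑ ≤ C * ENNReal.ofReal ρ := by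
  have hK := M.K_pos
  obtain ⟨C1, h1⟩ := ki M hs
  obtain ⟨C2, hC2, h2⟩ := kC2_facts
  obtain ⟨C3, h3⟩ := decay3
  obtain ⟨C4, hC4, h4⟩ := inv_cube_le_sg (M.K * s + 1)
  refine ⟨C1 * ((C2 * M.K ^ 5 * B).toNNReal * C3), fun v hv y hy ρ hρ j n => ?_⟩
  have hv1 : ContDiff ℝ 1 v := hv.sm.of_le (by norm_num)
  have hG : ContDiff ℝ 1 fun x => ((v x - v y : ℝ) : ℂ) :=
    ofRealCLM.contDiff.comp (hv1.sub contDiff_const)
  obtain ⟨L, hL, h5⟩ := can_loc hG y (M.K * s)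
  have hyb : y ∈ ball c b := ball_subset_ball (by nlinarith) hy
  have hB : 0 ≤ B := (hv.nn y hyb).trans (hv.le y hyb)
  obtain ⟨i1, -, h6⟩ := h1 y _ I (kC2 (ρ ^ 2) j n)
    (fun x => C2 * (ρ ^ 2 / (‖M.A y (x - y)‖ ^ 2 + ρ ^ 2) * ‖M.A y (x - y)‖⁻¹ ^ 3))
    (C2 * M.K ^ 3 * C4 * L) _ (M.coord1 y) norm_I.le hG
    (fun x hx _ => (h2 _ _ j n (by positivity) (can_inv M hx).1).1) (fun x hx hz => by
      have h7 := (can_mem M hy hz).1
      obtain ⟨-, h8, h9⟩ := h5 x h7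
      have h10 : C2 * (ρ ^ 2 / (‖M.A y (x - y)‖ ^ 2 + ρ ^ 2) * ‖M.A y (x - y)‖⁻¹ ^ 3) ≤
          C2 * M.K ^ 3 * C4 * sg y x :=
        calc _ ≤ C2 * (1 * (M.K * ‖x - y‖⁻¹) ^ 3) := by
              gcongr
              exacts [(can_frac hρ).2, (can_inv M hx).2]
          _ = C2 * M.K ^ 3 * ‖x - y‖⁻¹ ^ 3 := by ring
          _ ≤ C2 * M.K ^ 3 * (C4 * sg y x) := by
              gcongr
              exact (h4 x y (by linarith)).1
          _ = _ := by ring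
      have h11 : 0 ≤ C2 * M.K ^ 3 * C4 * sg y x := le_trans (by positivity) h10
      rw [sub_self (v y), ofReal_zero, sub_zero] at h9
      exact ⟨(mul_le_mul h10 h9 (norm_nonneg _) h11).trans_eq (by ring),
        (mul_le_mul h10 h8 (norm_nonneg _) h11).trans_eq (by ring)⟩)
  have e1 : ∀ q x, Lc M I q (fun x => ((v x - v y : ℝ) : ℂ)) x = Lb M q v x := fun q x => by
    rw [Lc_ofReal M ((hv1.differentiable one_ne_zero x).sub_const _), Lb, Lb, fderiv_sub_const]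
  have e2 : ∫ x, (cut (‖M.A y (x - y)‖ ^ 2 / s ^ 2) : ℂ) *
      (∑ p, dF I p (kC2 (ρ ^ 2) j n p) (M.A y (x - y))) * ((v x - v y : ℝ) : ℂ) = 0 :=
    integral_eq_zero_of_ae ((can_ae y).mono fun x hx => by
      simp only [(h2 _ _ j n (pow_pos hρ 2) (can_inv M hx).1).2, mul_zero, zero_mul, Pi.zero_apply])
  simp only [e1] at i1 h6
  rw [e2, add_zero] at h6
  refine ⟨i1, h6.trans ?_⟩
  rw [ENNReal.coe_mul, ENNReal.coe_mul, mul_assoc, mul_assoc]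
  gcongr
  calc _ ≤ ∫⁻ x in {x | ‖M.A y (x - y)‖ < s}, ENNReal.ofReal (C2 * M.K ^ 5 * B) *
        (kp 3 y x * ENNReal.ofReal (ρ ^ 2 / (‖x - y‖ ^ 2 + ρ ^ 2))) := by
        refine lintegral_mono_ae ?_
        filter_upwards [ae_restrict_of_ae (can_ae y), ae_restrict_mem (can_meas M y s)] with x hx hz
        have hxb : x ∈ ball c b := ball_subset_ball hab.le (can_mem M hy (le_of_lt hz)).2
        have h7 : ‖((v x - v y : ℝ) : ℂ)‖ ≤ B := by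
          rw [norm_real, Real.norm_eq_abs, abs_le]
          constructor <;> linarith [hv.nn x hxb, hv.le x hxb, hv.nn y hyb, hv.le y hyb]
        have h8 : ρ ^ 2 / (‖M.A y (x - y)‖ ^ 2 + ρ ^ 2) ≤
            M.K ^ 2 * (ρ ^ 2 / (‖x - y‖ ^ 2 + ρ ^ 2)) := by
          have h9 := pow_le_pow_left₀ (norm_nonneg _) (M.low y (x - y)) 2
          have h10 : ρ ^ 2 ≤ M.K ^ 2 * ρ ^ 2 :=
            le_mul_of_one_le_left (by positivity) (one_le_pow₀ M.one_le)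
          rw [mul_div_assoc', div_le_div_iff₀ (by positivity) (by positivity)]
          calc _ ≤ ρ ^ 2 * ((M.K * ‖M.A y (x - y)‖) ^ 2 + M.K ^ 2 * ρ ^ 2) := by gcongr
            _ = _ := by ring
        rw [kp, ← ofReal_norm, ← ENNReal.ofReal_mul (by positivity),
          ← ENNReal.ofReal_mul (by positivity), ← ENNReal.ofReal_mul (by positivity),
          norm_sub_rev y x]
        refine ENNReal.ofReal_le_ofReal ?_
        calc _ ≤ C2 * (M.K ^ 2 * (ρ ^ 2 / (‖x - y‖ ^ 2 + ρ ^ 2)) * (M.K * ‖x - y‖⁻¹) ^ 3) * B := by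
              gcongr
              exact (can_inv M hx).2
          _ = _ := by ring
    _ ≤ _ := by
        rw [lintegral_const_mul' _ _ ENNReal.ofReal_ne_top]
        exact mul_le_mul' le_rfl ((setLIntegral_le_lintegral _ _).trans (h3 y ρ hρ))

theorem can_D (M : Model) (c : E) {a b s : ℝ} (ha : 0 < a) (hs : 0 < s)
    (hab : a + M.K * s < b) (B : ℝ) : ∃ C : ℝ≥0, ∀ v, VOK M c b B v → ∀ y ∈ ball c a,
    ∀ ρ, 0 < ρ → ∀ j n q : Fin 2,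
    Integrable (fun x => ∑ p, ktr s (kC1 (ρ ^ 2) j n q) p (M.A y (x - y)) *
      Lc M (-I) p (Lb M q v) x) ∧
    Integrable (fun x => (cut (‖M.A y (x - y)‖ ^ 2 / s ^ 2) : ℂ) *
      (∑ p, dF (-I) p (kC1 (ρ ^ 2) j n q p) (M.A y (x - y))) * Lb M q v x) ∧
    ‖(∫ x, ∑ p, ktr s (kC1 (ρ ^ 2) j n q) p (M.A y (x - y)) * Lc M (-I) p (Lb M q v) x) +
      ∫ x, (cut (‖M.A y (x - y)‖ ^ 2 / s ^ 2) : ℂ) *
        (∑ p, dF (-I) p (kC1 (ρ ^ 2) j n q p) (M.A y (x - y))) * Lb M q v x‖ₑ ≤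
      C * ENNReal.ofReal ρ := by
  have hK := M.K_pos
  obtain ⟨C1, h1⟩ := ki M hs
  obtain ⟨C2, hC2, h2⟩ := kC1_facts
  obtain ⟨C3, hC3, h3⟩ := Lg_bound M
  obtain ⟨C4, hC4, h4⟩ := inv_cube_le_sg (M.K * s + 1)
  obtain ⟨C5, h5⟩ := can_g M c ha hs hab B (C2 * C3) (by positivity)
  refine ⟨C1 * C5, fun v hv y hy ρ hρ j n q => ?_⟩
  have hG := contDiff_Lb M (hv.sm.of_le (by norm_num)) q
  obtain ⟨L, hL, h6⟩ := can_loc hG y (M.K * s)
  obtain ⟨i1, i2, h7⟩ := h1 y _ (-I) (kC1 (ρ ^ 2) j n q)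
    (fun x => C2 * (ρ ^ 2 / (‖M.A y (x - y)‖ ^ 2 + ρ ^ 2) * ‖M.A y (x - y)‖⁻¹ ^ 2))
    (C2 * M.K ^ 2 * C4 * L * (1 + M.K * s)) _ (M.coord1 y) (by simp) hG
    (fun x hx _ => (h2 _ _ j n q (by positivity) (can_inv M hx).1).1) (fun x hx hz => by
      have h7 := (can_mem M hy hz).1
      obtain ⟨h9, h8, -⟩ := h6 x h7
      have h0 : 0 ≤ sg y x := Real.rpow_nonneg (norm_nonneg _) _
      have h10 : C2 * (ρ ^ 2 / (‖M.A y (x - y)‖ ^ 2 + ρ ^ 2) * ‖M.A y (x - y)‖⁻¹ ^ 2) ≤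
          C2 * M.K ^ 2 * (C4 * (‖x - y‖ * sg y x)) :=
        calc _ ≤ C2 * (1 * (M.K * ‖x - y‖⁻¹) ^ 2) := by
              gcongr
              exacts [(can_frac hρ).2, (can_inv M hx).2]
          _ = C2 * M.K ^ 2 * ‖x - y‖⁻¹ ^ 2 := by ring
          _ ≤ _ := by
              gcongr
              exact (h4 x y (by linarith)).2
      refine ⟨(mul_le_mul h10 h9 (norm_nonneg _) (by positivity)).trans ?_,
        (mul_le_mul h10 h8 (norm_nonneg _) (by positivity)).trans ?_⟩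
      · calc _ = C2 * M.K ^ 2 * C4 * L * 1 * (‖x - y‖ * sg y x) := by ring
          _ ≤ _ := by
            gcongr
            exact le_add_of_nonneg_right (by positivity)
      · calc _ = C2 * M.K ^ 2 * C4 * L * ‖x - y‖ * sg y x := by ring
          _ ≤ _ := by
            gcongr
            linarith)
  refine ⟨i1, i2, h7.trans ?_⟩
  rw [ENNReal.coe_mul, mul_assoc]
  refine mul_le_mul' le_rfl (h5 v hv y hy ρ hρ _ fun x _ => ?_)
  rw [← ofReal_norm, ← ENNReal.ofReal_mul (by positivity)]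
  refine ENNReal.ofReal_le_ofReal ?_
  exact (mul_le_mul_of_nonneg_left ((h3 x _).1 q) (by positivity)).trans_eq (by ring)

theorem can_pt {α β : Fin 2 → Fin 2 → ℂ} (hα : PSD α) {e : ℝ} (h : ∀ p q, ‖α p q - β p q‖ ≤ e)
    (z : F) : ‖∑ q, ∑ p, z p * (starRingEnd ℂ) (z q) * β p q‖ ≤ Hq α z + 4 * (‖z‖ ^ 2 * e) := by
  have h1 := hα.cs z z 1 one_pos
  have h2 : ∀ p q, ‖z p * (starRingEnd ℂ) (z q) * (α p q - β p q)‖ ≤ ‖z‖ ^ 2 * e := fun p q => by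
    rw [norm_mul, norm_mul, norm_conj, sq]
    gcongr
    exacts [PiLp.norm_apply_le z p, PiLp.norm_apply_le z q, h p q]
  have h3 : ∑ q, ∑ p, z p * (starRingEnd ℂ) (z q) * β p q =
      (∑ p, ∑ q, z p * (starRingEnd ℂ) (z q) * α p q) -
        ∑ p, ∑ q, z p * (starRingEnd ℂ) (z q) * (α p q - β p q) := by
    simp only [Fin.sum_univ_two]
    ring
  rw [h3]
  refine (norm_sub_le _ _).trans (add_le_add (h1.trans_eq (by ring)) ?_)
  refine (norm_sum_le_of_le _ fun p _ => norm_sum_le_of_le _ fun q _ => h2 p q).trans_eq ?_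
  simp only [Fin.sum_univ_two]
  ring

theorem can_P (M : Model) (c : E) {a b s : ℝ} (ha : 0 < a) (hs : 0 < s) (hs2 : s ≤ 1 / 2)
    (hab : a + M.K * s < b) (B : ℝ) : ∃ C : ℝ≥0, ∀ v, VOK M c b B v → ∀ y ∈ ball c a,
    ∀ ρ, 0 < ρ → ρ ≤ 1 / 2 → ∀ j n : Fin 2,
    ∫⁻ x, ‖∑ q, ∑ p, ktr s (kC1 (ρ ^ 2) j n q) p (M.A y (x - y)) * Lc M (-I) p (Lb M q v) x‖ₑ ≤
      C * ENNReal.ofReal (1 / (-Real.log ρ)) := by
  obtain ⟨C1, h1⟩ := lel1 M c ha hs hs2 hab B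
  obtain ⟨C2, hC2, h2⟩ := H_sub_LL M
  obtain ⟨C3, h3⟩ := can_g M c ha hs hab B (12 * C2) (by positivity)
  refine ⟨3 * C1 + C3, fun v hv y hy ρ hρ hρ2 j n => ?_⟩
  obtain ⟨hl, hρ3⟩ := can_rho hρ hρ2
  set m : E → ℝ≥0∞ := fun x => ENNReal.ofReal (12 * C2 *
    (ρ ^ 2 / (‖M.A y (x - y)‖ ^ 2 + ρ ^ 2) * ‖M.A y (x - y)‖⁻¹ ^ 2 * ‖fderiv ℝ v x‖)) with hm
  have hmm : Measurable m := by
    have := measurable_fderiv ℝ v
    have : Measurable fun x => ‖M.A y (x - y)‖ := by fun_prop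
    fun_prop
  have h4 : ∀ x, x ≠ y →
      ‖∑ q, ∑ p, ktr s (kC1 (ρ ^ 2) j n q) p (M.A y (x - y)) * Lc M (-I) p (Lb M q v) x‖ₑ ≤
      ENNReal.ofReal (3 * (1 / (-Real.log ρ))) * ENNReal.ofReal (cut (‖M.A y (x - y)‖ ^ 2 / s ^ 2) *
        (-Real.log (‖M.A y (x - y)‖ ^ 2) * (‖M.A y (x - y)‖ ^ 2)⁻¹ ^ 2) *
          Hq (H M v x) (M.A y (x - y))) + {x | ‖M.A y (x - y)‖ < s}.indicator m x := by
    intro x hx
    rcases le_or_gt s ‖M.A y (x - y)‖ with hz | hz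
    · simp only [ktr_eq_zero hs _ _ hz, zero_mul, Finset.sum_const_zero, enorm_zero, zero_le]
    have hα := psd_H M hv.psh (ball_subset_ball hab.le (can_mem M hy hz.le).2)
    have h5 := can_pt hα (h2 v (hv.sm.of_le (by norm_num)) x) (M.A y (x - y))
    have h6 := hα.pos (M.A y (x - y))
    rw [indicator_of_mem (by exact hz), hm]
    beta_reduce
    have ht : 0 < ‖M.A y (x - y)‖ := norm_pos_iff.2 (can_inv M hx).1
    generalize M.A y (x - y) = z at *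
    have h7 := Gf_bound (pow_pos hρ 2) (pow_pos ht 2)
    have h8 := can_log hρ hρ2 (pow_pos ht 2) (by nlinarith)
    have h9 := cut_nonneg (‖z‖ ^ 2 / s ^ 2)
    have h10 := cut_le_one (t := ‖z‖ ^ 2 / s ^ 2) (by positivity)
    have h11 : 0 ≤ -Real.log (‖z‖ ^ 2) := neg_nonneg.2 (Real.log_nonpos (by positivity) (by nlinarith))
    have e : ∑ q, ∑ p, ktr s (kC1 (ρ ^ 2) j n q) p z * Lc M (-I) p (Lb M q v) x =
        ((cut (‖z‖ ^ 2 / s ^ 2) * (Gf (ρ ^ 2) (‖z‖ ^ 2) * (‖z‖ ^ 2)⁻¹ ^ 2) : ℝ) : ℂ) * (z j * z n) *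
          ∑ q, ∑ p, z p * (starRingEnd ℂ) (z q) * Lc M (-I) p (Lb M q v) x := by
      simp only [ktr, kC1, Fin.sum_univ_two, ofReal_mul]
      ring
    rw [e, ← ofReal_norm, ← ENNReal.ofReal_mul (by positivity),
      ← ENNReal.ofReal_add (by positivity) (by positivity), norm_mul, norm_mul, norm_mul, norm_real,
      Real.norm_eq_abs, abs_mul, abs_mul, abs_of_nonneg h9, abs_of_nonneg (sq_nonneg (‖z‖ ^ 2)⁻¹)]
    refine ENNReal.ofReal_le_ofReal ?_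
    calc _ ≤ cut (‖z‖ ^ 2 / s ^ 2) * (|Gf (ρ ^ 2) (‖z‖ ^ 2)| * (‖z‖ ^ 2)⁻¹ ^ 2) * (‖z‖ * ‖z‖) *
          (Hq (H M v x) z + 4 * (‖z‖ ^ 2 * (C2 * ‖fderiv ℝ v x‖))) := by
          gcongr
          exacts [PiLp.norm_apply_le z j, PiLp.norm_apply_le z n]
      _ = |Gf (ρ ^ 2) (‖z‖ ^ 2)| * ‖z‖ ^ 2 * (cut (‖z‖ ^ 2 / s ^ 2) * (‖z‖ ^ 2)⁻¹ ^ 2 *
          Hq (H M v x) z) + |Gf (ρ ^ 2) (‖z‖ ^ 2)| * ‖z‖ ^ 2 * (cut (‖z‖ ^ 2 / s ^ 2) *
          (4 * C2 * ‖z‖⁻¹ ^ 2 * ‖fderiv ℝ v x‖)) := by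
          field_simp
      _ ≤ 3 * (1 / (-Real.log ρ) * -Real.log (‖z‖ ^ 2)) * (cut (‖z‖ ^ 2 / s ^ 2) * (‖z‖ ^ 2)⁻¹ ^ 2 *
          Hq (H M v x) z) + 3 * (ρ ^ 2 / (‖z‖ ^ 2 + ρ ^ 2)) * (1 *
          (4 * C2 * ‖z‖⁻¹ ^ 2 * ‖fderiv ℝ v x‖)) :=
          add_le_add (mul_le_mul_of_nonneg_right (by linarith) (by positivity))
            (mul_le_mul h7 (by gcongr) (by positivity) (by positivity))
      _ = _ := by ring
  refine (lintegral_mono_ae ((can_ae y).mono h4)).trans ?_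
  rw [lintegral_add_right _ (hmm.indicator (can_meas M y s)), lintegral_indicator (can_meas M y s),
    lintegral_const_mul' _ _ ENNReal.ofReal_ne_top, ENNReal.ofReal_mul zero_le_three,
    ENNReal.coe_add, add_mul, ENNReal.coe_mul, mul_right_comm]
  gcongr
  · simp
  · exact h1 v hv y hy
  · exact (h3 v hv y hy ρ hρ m fun x _ => le_rfl).trans (by gcongr)

theorem can (M : Model) (c : E) {a b s : ℝ} (ha : 0 < a) (hs : 0 < s) (hs2 : s ≤ 1 / 2)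
    (hab : a + M.K * s < b) (B : ℝ) : ∃ C : ℝ≥0, ∀ v, VOK M c b B v → ∀ y ∈ ball c a,
    ∀ ρ, 0 < ρ → ρ ≤ 1 / 2 → ∀ j n : Fin 2,
    ‖∫ x, Kk M s j x y * (om (ρ ^ 2) (‖M.A y (y - x)‖ ^ 2) : ℂ) * Lb M n v x‖ₑ ≤
      C * ENNReal.ofReal (1 / (-Real.log ρ)) := by
  obtain ⟨C1, h1⟩ := can_S M c hs hab B
  obtain ⟨C2, h2⟩ := can_D M c ha hs hab B
  obtain ⟨C3, h3⟩ := can_P M c ha hs hs2 hab B
  obtain ⟨C4, -, h4⟩ := kC1_facts
  refine ⟨C1 + C2 + C2 + C3, fun v hv y hy ρ hρ hρ2 j n => ?_⟩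
  obtain ⟨i1, b1⟩ := h1 v hv y hy ρ hρ j n
  obtain ⟨i2, i3, b2⟩ := h2 v hv y hy ρ hρ j n 0
  obtain ⟨i4, i5, b3⟩ := h2 v hv y hy ρ hρ j n 1
  have b4 := (enorm_integral_le_lintegral_enorm _).trans (h3 v hv y hy ρ hρ hρ2 j n)
  have hρ3 := ENNReal.ofReal_le_ofReal (can_rho hρ hρ2).2
  simp only [Fin.sum_univ_two (f := fun q => ∑ p, ktr s (kC1 (ρ ^ 2) j n q) p _ * _)] at b4
  rw [integral_add i2 i4] at b4
  rw [integral_congr_ae (g := fun x =>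
      (∑ q, ktr s (kC2 (ρ ^ 2) j n) q (M.A y (x - y)) * Lb M q v x) +
      ((cut (‖M.A y (x - y)‖ ^ 2 / s ^ 2) : ℂ) *
        (∑ p, dF (-I) p (kC1 (ρ ^ 2) j n 0 p) (M.A y (x - y))) * Lb M 0 v x +
      (cut (‖M.A y (x - y)‖ ^ 2 / s ^ 2) : ℂ) *
        (∑ p, dF (-I) p (kC1 (ρ ^ 2) j n 1 p) (M.A y (x - y))) * Lb M 1 v x))
    ((can_ae y).mono fun x hx => ?_), integral_add i1 (by exact i3.add i5), integral_add i3 i5]
  · have key : ∀ S D0 D1 P0 P1 : ℂ, ‖S + (D0 + D1)‖ₑ ≤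
        ‖S‖ₑ + ‖P0 + D0‖ₑ + ‖P1 + D1‖ₑ + ‖P0 + P1‖ₑ := fun S D0 D1 P0 P1 => by
      rw [show S + (D0 + D1) = S + (P0 + D0) + (P1 + D1) - (P0 + P1) by ring]
      exact enorm_sub_le.trans (add_le_add ((enorm_add_le _ _).trans
        (add_le_add (enorm_add_le _ _) le_rfl)) le_rfl)
    refine (key _ _ _ _ _).trans ((add_le_add (add_le_add (add_le_add b1 b2) b3) b4).trans ?_)
    simp only [ENNReal.coe_add, add_mul]
    gcongr
  · have hz := (can_inv M hx).1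
    simp only [(h4 _ _ j n _ (pow_pos hρ 2) hz).2]
    rw [Kk, ← neg_sub x y, map_neg]
    generalize M.A y (x - y) = z
    fin_cases n <;> simp [ktr, kC2, kBM] <;> ring

end Pool.Agent.Lib.MP_f2cf74_an
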