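import Pool.Agent.Lib.MP_f2cf74_an.AlgC

open Set Metric MeasureTheory Complex Filter Topology
open scoped ContDiff ENNReal NNReal

noncomputable section

namespace Pool.Agent.Lib.MP_f2cf74_an

/-! The pointwise inequality behind the core estimate, for `f = -φ u`: `H_mul`, `sigg_eq`,
`PSD.Dd_nonneg` (the term `-v φ Dd (H u) (H v)` is `≤ 0`), and where `φ` is not locally constant
the bounds `‖dv‖, ‖D²v‖ ≤ B` (`H_bound`, `Dd_abs_le`, `Lg_bound`). -/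

theorem corept_Lg (M : Model) (j : Fin 2) (x : E) (a b : ℝ) (p q : E →L[ℝ] ℝ) :
    Lg M j x (a • p + b • q) = a * Lg M j x p + b * Lg M j x q := by
  simp only [Lg, add_apply, smul_apply, smul_eq_mul]
  push_cast
  ring

theorem corept_H (M : Model) {φ u : E → ℝ} {x : E} (hφ : ContDiffAt ℝ 2 φ x)
    (hu : ContDiffAt ℝ 2 u x) (j k : Fin 2) : H M (fun y => -(φ y * u y)) x j k =
      -(φ x * H M u x j k) - (u x * H M φ x j k + (starRingEnd ℂ) (Lb M j φ x) * Lb M k u x +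
        (starRingEnd ℂ) (Lb M j u x) * Lb M k φ x) := by
  have h1 := H_mul M (f := fun _ => (-1 : ℝ)) contDiffAt_const (hφ.mul hu) j k
  have h2 : H M (fun _ => (-1 : ℝ)) x j k = 0 := by simp [H, hm, Om]
  have h3 : ∀ i, Lb M i (fun _ => (-1 : ℝ)) x = 0 := fun i => by simp [Lb, Lg]
  simp only [neg_one_mul] at h1
  rw [h1, h2, h3, h3, H_mul M hφ hu]
  simp only [map_zero]
  push_cast
  ring

theorem core_pt (M : Model) (B L : ℝ) : ∃ C : ℝ, 0 ≤ C ∧ ∀ (φ u v : E → ℝ) (x : E),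
    ContDiffAt ℝ 2 φ x → ContDiffAt ℝ 2 u x → ContDiffAt ℝ 2 v x → 0 ≤ φ x → φ x ≤ 1 →
    ‖fderiv ℝ φ x‖ ≤ L → ‖fderiv ℝ (fderiv ℝ φ) x‖ ≤ L → 0 ≤ v x → v x ≤ B →
    PSD (H M u x) → PSD (H M v x) →
    ((fderiv ℝ φ x = 0 ∧ fderiv ℝ (fderiv ℝ φ) x = 0) ∨
      (‖fderiv ℝ v x‖ ≤ B ∧ ‖fderiv ℝ (fderiv ℝ v) x‖ ≤ B)) →
    v x * (16 * Dd (H M (fun y => -(φ y * u y)) x) (H M v x) +
        (sigg M x (fderiv ℝ (fun y => -(φ y * u y)) x) *
          (starRingEnd ℂ) (sigg M x (fderiv ℝ v x))).re / 2) -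
      (sigg M x (fderiv ℝ v x) * (4 * I * (Lb M 0 (fun y => -(φ y * u y)) x * Lb M 1 v x -
        Lb M 1 (fun y => -(φ y * u y)) x * Lb M 0 v x))).re ≤
      ((∑ n, (8 * I * φ x * (starRingEnd ℂ) (M.A x (Nij M x) n)) * Lb M n v x) *
        (Lb M 0 u x * Lb M 1 v x - Lb M 1 u x * Lb M 0 v x)).re +
      C * (|u x| + ‖fderiv ℝ u x‖ + ‖fderiv ℝ u x‖ * ‖fderiv ℝ v x‖) := by
  obtain ⟨a, ha, hL⟩ := Lg_bound M
  obtain ⟨b, hb, hH⟩ := H_bound M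
  refine ⟨(256 * B ^ 2 * |L| * b ^ 2 + B ^ 2 * |L| * a ^ 2 + 8 * a ^ 3 * |L| * B ^ 2) +
    512 * B ^ 2 * |L| * b * a ^ 2 + |B| * a ^ 2, by positivity,
    fun φ u v x hφ hu hv φ0 φ1 l1 l2 v0 v1 pu pv hc => ?_⟩
  have hB : 0 ≤ B := v0.trans v1
  have hL0 : 0 ≤ L := (norm_nonneg _).trans l1
  rw [abs_of_nonneg hB, abs_of_nonneg hL0]
  have hd : fderiv ℝ (fun y => -(φ y * u y)) x =
      (-φ x) • fderiv ℝ u x + (-u x) • fderiv ℝ φ x := by
    rw [fderiv_fun_neg, fderiv_fun_mul (hφ.differentiableAt two_ne_zero)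
      (hu.differentiableAt two_ne_zero), neg_add, neg_smul, neg_smul]
  have hD : Dd (H M (fun y => -(φ y * u y)) x) (H M v x) = -(φ x * Dd (H M u x) (H M v x)) -
      Dd (fun j k => u x * H M φ x j k + (starRingEnd ℂ) (Lb M j φ x) * Lb M k u x +
        (starRingEnd ℂ) (Lb M j u x) * Lb M k φ x) (H M v x) := by
    simp only [Dd, corept_H M hφ hu, sub_mul, neg_mul, mul_assoc, sub_re, neg_re, re_ofReal_mul]
    ring
  have c1 : (‖fderiv ℝ φ x‖ + ‖fderiv ℝ (fderiv ℝ φ) x‖) *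
      (‖fderiv ℝ v x‖ + ‖fderiv ℝ (fderiv ℝ v) x‖) ≤ 4 * (L * B) := by
    rcases hc with ⟨h1, h2⟩ | ⟨h1, h2⟩
    · rw [h2, h1, norm_zero, ContinuousLinearMap.opNorm_zero, add_zero, zero_mul]
      positivity
    · calc _ ≤ (L + L) * (B + B) := by gcongr
        _ = _ := by ring
  have c2 : ‖fderiv ℝ φ x‖ * ‖fderiv ℝ v x‖ ≤ L * B ∧
      ‖fderiv ℝ φ x‖ * ‖fderiv ℝ v x‖ ^ 2 ≤ L * B ^ 2 := by
    rcases hc with ⟨h1, -⟩ | ⟨h1, -⟩
    · rw [h1, norm_zero, zero_mul, zero_mul]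
      exact ⟨by positivity, by positivity⟩
    · exact ⟨by gcongr, by gcongr⟩
  have e1 := Dd_abs_le (fun j k => u x * H M φ x j k + (starRingEnd ℂ) (Lb M j φ x) * Lb M k u x +
      (starRingEnd ℂ) (Lb M j u x) * Lb M k φ x) (H M v x)
    ((|u x| * b + 2 * a ^ 2 * ‖fderiv ℝ u x‖) * (‖fderiv ℝ φ x‖ + ‖fderiv ℝ (fderiv ℝ φ) x‖)) _
    (fun j k => by
      have t1 := hH φ x j k
      have t2 : ∀ i, ‖Lb M i φ x‖ ≤ a * (‖fderiv ℝ φ x‖ + ‖fderiv ℝ (fderiv ℝ φ) x‖) := fun i =>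
        ((hL x _).1 i).trans (mul_le_mul_of_nonneg_left
          (le_add_of_nonneg_right (ContinuousLinearMap.opNorm_nonneg _)) ha)
      have t3 : ∀ i, ‖Lb M i u x‖ ≤ a * ‖fderiv ℝ u x‖ := (hL x _).1
      refine (norm_add₃_le).trans ?_
      simp only [norm_mul, RCLike.norm_conj, norm_real, Real.norm_eq_abs]
      calc _ ≤ |u x| * (b * (‖fderiv ℝ φ x‖ + ‖fderiv ℝ (fderiv ℝ φ) x‖)) +
            a * (‖fderiv ℝ φ x‖ + ‖fderiv ℝ (fderiv ℝ φ) x‖) * (a * ‖fderiv ℝ u x‖) +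
            a * ‖fderiv ℝ u x‖ * (a * (‖fderiv ℝ φ x‖ + ‖fderiv ℝ (fderiv ℝ φ) x‖)) := by
            gcongr <;> first | exact t2 _ | exact t3 _
        _ = _ := by ring) (hH v x)
  have e2 : ‖fderiv ℝ (fun y => -(φ y * u y)) x‖ ≤ ‖fderiv ℝ u x‖ + |u x| * ‖fderiv ℝ φ x‖ := by
    rw [hd]
    refine (norm_add_le _ _).trans ?_
    rw [norm_smul, norm_smul, norm_neg, norm_neg, Real.norm_of_nonneg φ0, Real.norm_eq_abs]
    gcongr
    exact mul_le_of_le_one_left (norm_nonneg _) φ1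
  have e3 : (sigg M x (fderiv ℝ (fun y => -(φ y * u y)) x) *
      (starRingEnd ℂ) (sigg M x (fderiv ℝ v x))).re ≤
      a * (‖fderiv ℝ u x‖ + |u x| * ‖fderiv ℝ φ x‖) * (a * ‖fderiv ℝ v x‖) := by
    refine (re_le_norm _).trans ?_
    rw [norm_mul, RCLike.norm_conj]
    gcongr
    · exact (hL x _).2.2.2.trans (mul_le_mul_of_nonneg_left e2 ha)
    · exact (hL x _).2.2.2
  have e4 : (4 * I * u x * sigg M x (fderiv ℝ v x) *
      (Lb M 0 φ x * Lb M 1 v x - Lb M 1 φ x * Lb M 0 v x)).re ≤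
      4 * |u x| * (a * ‖fderiv ℝ v x‖) * (a * ‖fderiv ℝ φ x‖ * (a * ‖fderiv ℝ v x‖) +
        a * ‖fderiv ℝ φ x‖ * (a * ‖fderiv ℝ v x‖)) := by
    refine (re_le_norm _).trans ?_
    simp only [norm_mul, norm_I, mul_one, norm_real, Real.norm_eq_abs, Complex.norm_ofNat]
    gcongr
    · exact (hL x _).2.2.2
    · refine (norm_sub_le _ _).trans ?_
      rw [norm_mul, norm_mul]
      gcongr <;> exact (hL x _).1 _
  have e5 : sigg M x (fderiv ℝ v x) * (4 * I * (Lb M 0 (fun y => -(φ y * u y)) x * Lb M 1 v x -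
      Lb M 1 (fun y => -(φ y * u y)) x * Lb M 0 v x)) =
      -((∑ n, (8 * I * φ x * (starRingEnd ℂ) (M.A x (Nij M x) n)) * Lb M n v x) *
        (Lb M 0 u x * Lb M 1 v x - Lb M 1 u x * Lb M 0 v x)) -
      4 * I * u x * sigg M x (fderiv ℝ v x) *
        (Lb M 0 φ x * Lb M 1 v x - Lb M 1 φ x * Lb M 0 v x) := by
    simp only [Lb, hd, corept_Lg, sigg_eq, Fin.sum_univ_two]
    push_cast
    ring
  have e6 := mul_nonneg φ0 (pu.Dd_nonneg pv)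
  rw [e5, hD, sub_re, neg_re]
  generalize Dd (fun j k => u x * H M φ x j k + (starRingEnd ℂ) (Lb M j φ x) * Lb M k u x +
    (starRingEnd ℂ) (Lb M j u x) * Lb M k φ x) (H M v x) = D at e1 ⊢
  generalize φ x * Dd (H M u x) (H M v x) = D' at e6 ⊢
  generalize (sigg M x (fderiv ℝ (fun y => -(φ y * u y)) x) *
    (starRingEnd ℂ) (sigg M x (fderiv ℝ v x))).re = S at e3 ⊢
  generalize (4 * I * u x * sigg M x (fderiv ℝ v x) *
    (Lb M 0 φ x * Lb M 1 v x - Lb M 1 φ x * Lb M 0 v x)).re = T at e4 ⊢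
  have u0 := abs_nonneg (u x)
  have q0 := norm_nonneg (fderiv ℝ u x)
  have g0 := norm_nonneg (fderiv ℝ v x)
  have p0 := norm_nonneg (fderiv ℝ φ x)
  have f1 : -D ≤ 16 * (L * B) * b * (|u x| * b + 2 * a ^ 2 * ‖fderiv ℝ u x‖) := by
    refine (neg_le_abs D).trans (e1.trans ?_)
    have := mul_le_mul_of_nonneg_left c1
      (show 0 ≤ 4 * b * (|u x| * b + 2 * a ^ 2 * ‖fderiv ℝ u x‖) by positivity)
    linarith
  have f2 : S ≤ a ^ 2 * (‖fderiv ℝ u x‖ * ‖fderiv ℝ v x‖) + a ^ 2 * |u x| * (L * B) := by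
    have := mul_le_mul_of_nonneg_left c2.1 (show 0 ≤ a ^ 2 * |u x| by positivity)
    linarith
  have f3 : T ≤ 8 * a ^ 3 * |u x| * (L * B ^ 2) := by
    have := mul_le_mul_of_nonneg_left c2.2 (show 0 ≤ 8 * a ^ 3 * |u x| by positivity)
    linarith
  generalize |u x| = U at *
  generalize ‖fderiv ℝ u x‖ = Q at *
  generalize ‖fderiv ℝ v x‖ = G at *
  have f4 : v x * (16 * (-D' - D) + S / 2) ≤ B * (256 * (L * B) * b * (U * b + 2 * a ^ 2 * Q) +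
      (a ^ 2 * (Q * G) + a ^ 2 * U * (L * B))) := by
    refine (mul_le_mul_of_nonneg_left ?_ v0).trans (mul_le_mul_of_nonneg_right v1 (by positivity))
    have : 0 ≤ a ^ 2 * (Q * G) + a ^ 2 * U * (L * B) := by positivity
    linarith
  have f5 : 0 ≤ (256 * B ^ 2 * L * b ^ 2 + B ^ 2 * L * a ^ 2 + 8 * a ^ 3 * L * B ^ 2) * (Q + Q * G) +
      512 * B ^ 2 * L * b * a ^ 2 * (U + Q * G) + B * a ^ 2 * (U + Q) := by positivity
  linarith

end Pool.Agent.Lib.MP_f2cf74_an
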