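import Pool.Agent.Lib.MP_f2cf74_an.E2b

open Set Metric MeasureTheory Complex Filter Topology
open scoped ContDiff ENNReal NNReal

noncomputable section

namespace Pool.Agent.Lib.MP_f2cf74_an

/-! The term `E₂`.  Choose `s`; apply `e2b` to `β n / N0²` (`N0_facts`).  With
`N0 u_k = -AH u + Ru`, `N0 v_m = -AH v + Rv` (`repH'`):
`(N0 u_k) (N0 v_m) = AH u AH v + Ru (N0 v_m) - AH u Rv`.  The term with `Ru` is bounded by `ui`
with `w = eG v ^ 2` and `pot2`; in the term with `Rv` use `g0` for `Rv`, `AH_bound`, `swap_pot`,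
`g0` and `mass`. -/

theorem e2a_en {z : ℂ} {g : E →L[ℝ] ℝ} {C : ℝ} (h : ‖z‖ ≤ C * ‖g‖) :
    ‖z‖ₑ ≤ C.toNNReal * ‖g‖ₑ := by
  rw [← ofReal_norm, ← ofReal_norm]
  refine (ENNReal.ofReal_le_ofReal h).trans ?_
  rw [ENNReal.ofReal_mul' (norm_nonneg _)]
  rfl

theorem e2a_lip {N : E → ℝ} {c0 C0 : ℝ} (hc : 0 < c0) (hN : ∀ x, c0 ≤ N x ∧ N x ≤ C0)
    (hL : ∀ x x', |N x - N x'| ≤ C0 * ‖x - x'‖) {c : E} {b L : ℝ} (hb : 0 < b) {β : E → ℂ}
    (h : LipB c b L β) :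
    LipB c b (L * (c0⁻¹ ^ 2 + 2 * C0 ^ 2 * c0⁻¹ ^ 4)) fun x => β x / (N x : ℂ) ^ 2 := by
  have hL0 : 0 ≤ L := (norm_nonneg _).trans (h.1 c (mem_ball_self hb))
  have hp : ∀ x, 0 < N x := fun x => hc.trans_le (hN x).1
  have hi : ∀ x, (N x)⁻¹ ≤ c0⁻¹ := fun x => inv_anti₀ hc (hN x).1
  have hi0 : ∀ x, 0 ≤ (N x)⁻¹ := fun x => (inv_pos.2 (hp x)).le
  have hC0 : 0 ≤ C0 := (hp c).le.trans (hN c).2
  have hn : ∀ x, ‖(((N x)⁻¹ ^ 2 : ℝ) : ℂ)‖ ≤ c0⁻¹ ^ 2 := fun x => by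
    rw [Complex.norm_real, Real.norm_of_nonneg (by positivity)]
    exact pow_le_pow_left₀ (hi0 x) (hi x) 2
  have he : ∀ x, β x / (N x : ℂ) ^ 2 = β x * (((N x)⁻¹ ^ 2 : ℝ) : ℂ) := fun x => by
    push_cast
    rw [div_eq_mul_inv, inv_pow]
  have hq : 0 ≤ 2 * C0 ^ 2 * c0⁻¹ ^ 4 := by positivity
  simp only [LipB, he]
  refine ⟨fun x hx => ?_, fun x hx y hy => ?_⟩
  · rw [norm_mul]
    exact mul_le_mul (h.1 x hx) ((hn x).trans (le_add_of_nonneg_right hq)) (norm_nonneg _) hL0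
  · have h1 : ‖(((N x)⁻¹ ^ 2 : ℝ) : ℂ) - (((N y)⁻¹ ^ 2 : ℝ) : ℂ)‖ ≤
        2 * C0 ^ 2 * c0⁻¹ ^ 4 * ‖x - y‖ := by
      rw [← Complex.ofReal_sub, Complex.norm_real, Real.norm_eq_abs,
        show (N x)⁻¹ ^ 2 - (N y)⁻¹ ^ 2 =
          -((N x - N y) * ((N x + N y) * ((N x)⁻¹ ^ 2 * (N y)⁻¹ ^ 2))) by
            have := (hp x).ne'
            have := (hp y).ne'
            field_simp
            ring, abs_neg, abs_mul, abs_of_nonneg (a := (N x + N y) * _)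
          (mul_nonneg (add_pos (hp x) (hp y)).le (by positivity))]
      calc _ ≤ C0 * ‖x - y‖ * ((C0 + C0) * (c0⁻¹ ^ 2 * c0⁻¹ ^ 2)) := by
            refine mul_le_mul (hL x y) (mul_le_mul (add_le_add (hN x).2 (hN y).2)
              (mul_le_mul (pow_le_pow_left₀ (hi0 x) (hi x) 2) (pow_le_pow_left₀ (hi0 y) (hi y) 2)
                (by positivity) (by positivity)) (by positivity) (by positivity))
              (mul_nonneg (add_pos (hp x) (hp y)).le (by positivity)) (by positivity)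
        _ = _ := by ring
    rw [show β x * (((N x)⁻¹ ^ 2 : ℝ) : ℂ) - β y * (((N y)⁻¹ ^ 2 : ℝ) : ℂ) =
      (β x - β y) * (((N x)⁻¹ ^ 2 : ℝ) : ℂ) +
        β y * ((((N x)⁻¹ ^ 2 : ℝ) : ℂ) - (((N y)⁻¹ ^ 2 : ℝ) : ℂ)) by ring]
    refine (norm_add_le _ _).trans ?_
    rw [norm_mul, norm_mul]
    calc _ ≤ L * ‖x - y‖ * c0⁻¹ ^ 2 + L * (2 * C0 ^ 2 * c0⁻¹ ^ 4 * ‖x - y‖) :=
          add_le_add (mul_le_mul (h.2 x hx y hy) (hn x) (norm_nonneg _) (by positivity))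
            (mul_le_mul (h.1 y hy) h1 (norm_nonneg _) hL0)
      _ = _ := by ring

theorem e2a_pt {S r₀ r₁ n₀ n₁ a₀ a₁ t₀ t₁ : ℂ} {c₁ c₂ c₃ c₄ c₅ g Iu Ju : ℝ≥0∞} (hS : ‖S‖ₑ ≤ c₁ * g)
    (hr₀ : ‖r₀‖ₑ ≤ c₂ * Iu) (hr₁ : ‖r₁‖ₑ ≤ c₂ * Iu) (hn₀ : ‖n₀‖ₑ ≤ c₃ * g) (hn₁ : ‖n₁‖ₑ ≤ c₃ * g)
    (ha₀ : ‖a₀‖ₑ ≤ c₄ * Ju) (ha₁ : ‖a₁‖ₑ ≤ c₄ * Ju) (ht₀ : ‖t₀‖ₑ ≤ c₅) (ht₁ : ‖t₁‖ₑ ≤ c₅) :
    ‖S * (r₀ * n₁ - r₁ * n₀ + (a₁ * t₀ - a₀ * t₁))‖ₑ ≤
      2 * c₁ * c₂ * c₃ * (g ^ 2 * Iu) + 2 * c₁ * c₄ * c₅ * (g * Ju) := by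
  rw [enorm_mul]
  calc _ ≤ c₁ * g * (c₂ * Iu * (c₃ * g) + c₂ * Iu * (c₃ * g) + (c₄ * Ju * c₅ + c₄ * Ju * c₅)) := by
        refine mul_le_mul' hS ((enorm_add_le _ _).trans (add_le_add (enorm_sub_le.trans ?_)
          (enorm_sub_le.trans ?_)))
        · rw [enorm_mul, enorm_mul]
          exact add_le_add (mul_le_mul' hr₀ hn₁) (mul_le_mul' hr₁ hn₀)
        · rw [enorm_mul, enorm_mul]
          exact add_le_add (mul_le_mul' ha₁ ht₀) (mul_le_mul' ha₀ ht₁)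
    _ = _ := by ring

theorem e2 (M : Model) (c : E) {a a' b δ : ℝ} (ha : 0 < a) (haa : a < a') (hab : a' < b)
    (hδ : 0 < δ) (hδ2 : δ ≤ 1 / 2) (B L : ℝ) : ∃ C : ℝ≥0, ∀ (u v : E → ℝ) (β : Fin 2 → E → ℂ),
    UOK M c b u → VOK M c b B v → (∀ n, Continuous (β n)) → (∀ n, LipB c b L (β n)) →
    (∀ n x, x ∉ ball c a → β n x = 0) →
    ‖∫ x, (∑ n, β n x * Lb M n v x) * (Lb M 0 u x * Lb M 1 v x - Lb M 1 u x * Lb M 0 v x)‖ₑ ≤
      C * (nU c b u + ∫⁻ y in ball c a', ∫⁻ y' in ball y δ, wW y y' * eD M u v y y') := by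
  have hK := M.K_pos
  set s : ℝ := min (1 / 2) (min ((a' - a) / M.K) (min ((b - a') / (2 * M.K)) (δ / (2 * M.K))))
    with hsdef
  have hs : 0 < s := lt_min (by norm_num) (lt_min (div_pos (by linarith) hK)
    (lt_min (div_pos (by linarith) (by linarith)) (div_pos hδ (by linarith))))
  have hs1 : a + M.K * s ≤ a' := by
    have : s ≤ (a' - a) / M.K := (min_le_right _ _).trans (min_le_left _ _)
    rw [le_div_iff₀ hK] at this
    linarith
  have hs2 : a' + M.K * s < b := by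
    have : s ≤ (b - a') / (2 * M.K) :=
      (min_le_right _ _).trans ((min_le_right _ _).trans (min_le_left _ _))
    rw [le_div_iff₀ (by linarith)] at this
    linarith
  have hs3 : 2 * (M.K * s) ≤ δ := by
    have : s ≤ δ / (2 * M.K) :=
      (min_le_right _ _).trans ((min_le_right _ _).trans (min_le_right _ _))
    rw [le_div_iff₀ (by linarith)] at this
    linarith
  obtain ⟨c0, C0, hc0, hN, hNL⟩ := N0_facts M
  set L' : ℝ := L * (c0⁻¹ ^ 2 + 2 * C0 ^ 2 * c0⁻¹ ^ 4) with hL'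
  have ha' : 0 < a' := ha.trans haa
  have hb : 0 < b := ha'.trans hab
  have hm1 : a' < (a' + b) / 2 := by linarith
  have hm2 : (a' + b) / 2 < b := by linarith
  obtain ⟨C1, h1⟩ := e2b M c ha hs (min_le_left _ _) hs1 hs2 hs3 hδ2 B L'
  obtain ⟨CR, hR⟩ := repH' M hs
  obtain ⟨CA, hA⟩ := AH_bound M
  obtain ⟨CL, hCL, hLg⟩ := Lg_bound M
  obtain ⟨G0, hG⟩ := g0 M c ha' hab B
  obtain ⟨CU, hU⟩ := ui M c ha' hm1 hm2
  obtain ⟨P2, hP⟩ := pot2 M c (ha'.trans hm1) hm2 B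
  obtain ⟨CM, hM⟩ := mass M c ha' hab
  set k₁ : ℝ≥0 := 2 * (2 * L' * CL).toNNReal * CR * (C0 * CL).toNNReal with hk₁
  set k₂ : ℝ≥0 := 2 * (2 * L' * CL).toNNReal * CA * (CR * G0) with hk₂
  refine ⟨C1 + k₁ * (CU * P2) + k₂ * (G0 * CM), fun u v β hu hv hβ hβL hβ0 => ?_⟩
  have hNc : Continuous (N0 M) := by
    refine (LipschitzWith.of_dist_le_mul (K := C0.toNNReal) fun x y => ?_).continuous
    rw [Real.dist_eq, dist_eq_norm]
    exact (hNL x y).trans (mul_le_mul_of_nonneg_right (Real.le_coe_toNNReal _) (norm_nonneg _))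
  have hNp : ∀ x, (N0 M x : ℂ) ≠ 0 := fun x => by
    exact_mod_cast (hc0.trans_le (hN x).1).ne'
  have hlip : ∀ n, LipB c b L' fun x => β n x / (N0 M x : ℂ) ^ 2 := fun n =>
    e2a_lip hc0 hN hNL hb (hβL n)
  have hu2 : ContDiff ℝ 2 u := hu.sm.of_le (by norm_num)
  have hv2 : ContDiff ℝ 2 v := hv.sm.of_le (by norm_num)
  obtain ⟨i1, b1⟩ := h1 u v (fun n x => β n x / (N0 M x : ℂ) ^ 2) hu hv
    (fun n => ((hβ n).div ((continuous_ofReal.comp hNc).pow 2) fun x => pow_ne_zero 2 (hNp x)).measurable)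
    hlip (fun n x hx => by simp [hβ0 n x hx])
  set f : E → ℂ := fun x =>
    (∑ n, β n x * Lb M n v x) * (Lb M 0 u x * Lb M 1 v x - Lb M 1 u x * Lb M 0 v x) with hf
  set g : E → ℂ := fun x => (∑ n, β n x / (N0 M x : ℂ) ^ 2 * Lb M n v x) *
      (AH M s 0 u x * AH M s 1 v x - AH M s 1 u x * AH M s 0 v x) with hg
  have hLc : ∀ (w : E → ℝ), ContDiff ℝ 2 w → ∀ j, Continuous (Lb M j w) := fun w hw j =>
    (contDiff_Lb M hw j).continuous
  have hfi : Integrable f := by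
    refine Continuous.integrable_of_hasCompactSupport ?_
      (HasCompactSupport.intro (isCompact_closedBall c a) fun x hx => ?_)
    · exact (continuous_finsetSum _ fun n _ => (hβ n).mul (hLc v hv2 n)).mul
        (((hLc u hu2 0).mul (hLc v hv2 1)).sub ((hLc u hu2 1).mul (hLc v hv2 0)))
    · simp [hf, hβ0 _ x fun h => hx (ball_subset_closedBall h)]
  set Iu : E → ℝ≥0∞ := fun x => ∫⁻ y in ball c a', kp 3 x y * eG u y with hIu
  set Ju : E → ℝ≥0∞ := fun x => ∫⁻ y in ball c a', kp 3 x y * eT M u y with hJu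
  have hsub : ∀ x ∈ ball c a, ball x (M.K * s) ⊆ ball c a' := fun x hx =>
    ball_subset_ball' (by linarith [mem_ball.1 hx])
  have hab1 : ball c a ⊆ ball c a' := ball_subset_ball haa.le
  have hab2 : ball c a' ⊆ ball c b := ball_subset_ball hab.le
  have hpt : ∀ x, ‖f x - g x‖ₑ ≤
      (ball c a).indicator (fun x => k₁ * (eG v x ^ 2 * Iu x) + k₂ * (eG v x * Ju x)) x := by
    intro x
    by_cases hx : x ∈ ball c a
    · rw [indicator_of_mem hx]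
      have hid : f x - g x = (∑ n, β n x / (N0 M x : ℂ) ^ 2 * Lb M n v x) *
          (((N0 M x : ℂ) * Lb M 0 u x + AH M s 0 u x) * ((N0 M x : ℂ) * Lb M 1 v x) -
            ((N0 M x : ℂ) * Lb M 1 u x + AH M s 1 u x) * ((N0 M x : ℂ) * Lb M 0 v x) +
            (AH M s 1 u x * ((N0 M x : ℂ) * Lb M 0 v x + AH M s 0 v x) -
              AH M s 0 u x * ((N0 M x : ℂ) * Lb M 1 v x + AH M s 1 v x))) := by
        have := hNp x
        simp only [hf, hg, Fin.sum_univ_two]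
        field_simp
        ring
      have hL'0 : 0 ≤ L' := (norm_nonneg _).trans ((hlip 0).1 c (mem_ball_self hb))
      have hS : ‖∑ n, β n x / (N0 M x : ℂ) ^ 2 * Lb M n v x‖ₑ ≤
          (2 * L' * CL).toNNReal * eG v x := by
        refine e2a_en ?_
        have hn : ∀ n, ‖β n x / (N0 M x : ℂ) ^ 2 * Lb M n v x‖ ≤ L' * (CL * ‖fderiv ℝ v x‖) :=
          fun n => by
            rw [norm_mul]
            exact mul_le_mul ((hlip n).1 x (hab2 (hab1 hx))) ((hLg x _).1 n) (norm_nonneg _) hL'0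
        rw [Fin.sum_univ_two]
        refine (norm_add_le _ _).trans ?_
        linarith [hn 0, hn 1]
      have hr : ∀ k, ‖(N0 M x : ℂ) * Lb M k u x + AH M s k u x‖ₑ ≤ CR * Iu x := fun k =>
        (hR x k u hu2).trans (mul_le_mul' le_rfl (lintegral_mono_set (hsub x hx)))
      have ht : ∀ k, ‖(N0 M x : ℂ) * Lb M k v x + AH M s k v x‖ₑ ≤ CR * G0 := fun k =>
        (hR x k v hv2).trans (mul_le_mul' le_rfl
          ((lintegral_mono_set (hsub x hx)).trans (hG v hv x (hab1 hx))))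
      have hn : ∀ k, ‖(N0 M x : ℂ) * Lb M k v x‖ₑ ≤ (C0 * CL).toNNReal * eG v x := fun k => by
        refine e2a_en ?_
        rw [norm_mul, Complex.norm_real, Real.norm_of_nonneg (hc0.le.trans (hN x).1), mul_assoc]
        exact mul_le_mul (hN x).2 ((hLg x _).1 k) (norm_nonneg _)
          (hc0.le.trans ((hN x).1.trans (hN x).2))
      have hah : ∀ k, ‖AH M s k u x‖ₑ ≤ CA * Ju x := fun k =>
        (hA x s k u hs fun y hy => hu.psh y (hab2 (hsub x hx hy))).trans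
          (mul_le_mul' le_rfl (lintegral_mono_set (hsub x hx)))
      rw [hid, hk₁, hk₂]
      push_cast
      exact e2a_pt hS (hr 0) (hr 1) (hn 0) (hn 1) (hah 0) (hah 1) (ht 0) (ht 1)
    · simp [hf, hg, hβ0 _ x hx]
  have hIm : Measurable Iu :=
    Measurable.lintegral_prod_right' (ν := volume.restrict (ball c a'))
      (f := fun q : E × E => kp 3 q.1 q.2 * eG u q.2)
      ((measurable_kp 3).mul ((measurable_eG u).comp measurable_snd))
  have hg2 : Measurable fun x => eG v x ^ 2 := (measurable_eG v).pow_const 2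
  have e1 : ∫⁻ x in ball c a, eG v x ^ 2 * Iu x ≤ CU * P2 * nU c b u :=
    (lintegral_mono_set hab1).trans (hU u _ P2 hu hg2 fun y hy =>
      (lintegral_mono_set (ball_subset_ball hm1.le)).trans (hP v hv y hy))
  have e2 : ∫⁻ x in ball c a, eG v x * Ju x ≤ G0 * (CM * nU c b u) :=
    (swap_pot 3 _ _ _ _ (measurable_eT M hu2) (measurable_eG v) measurableSet_ball G0 fun y hy =>
      (lintegral_mono_set hab1).trans (hG v hv y hy)).trans (mul_le_mul' le_rfl (hM u hu))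
  have e3 : ‖∫ x, (f x - g x)‖ₑ ≤ k₁ * (CU * P2 * nU c b u) + k₂ * (G0 * (CM * nU c b u)) := by
    refine (enorm_integral_le_lintegral_enorm _).trans ((lintegral_mono hpt).trans ?_)
    rw [lintegral_indicator measurableSet_ball,
      lintegral_add_left (f := fun x => (k₁ : ℝ≥0∞) * (eG v x ^ 2 * Iu x))
        ((hg2.mul hIm).const_mul _),
      lintegral_const_mul' _ _ ENNReal.coe_ne_top,
      lintegral_const_mul' _ _ ENNReal.coe_ne_top]
    exact add_le_add (mul_le_mul' le_rfl e1) (mul_le_mul' le_rfl e2)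
  rw [show ∫ x, f x = (∫ x, g x) + ∫ x, (f x - g x) by rw [integral_sub hfi i1]; ring]
  refine (enorm_add_le _ _).trans ((add_le_add b1 e3).trans ?_)
  push_cast
  rw [add_mul, add_mul, add_assoc]
  refine add_le_add le_rfl (add_le_add ?_ ?_)
  · rw [← mul_assoc]
    exact mul_le_mul' le_rfl le_self_add
  · rw [← mul_assoc (G0 : ℝ≥0∞), ← mul_assoc]
    exact mul_le_mul' le_rfl le_self_add

end Pool.Agent.Lib.MP_f2cf74_an
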