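import Pool.Agent.Lib.MP_f2cf74_an.TwoA

open Set Metric MeasureTheory Complex Filter Topology
open scoped ContDiff ENNReal NNReal

noncomputable section

namespace Pool.Agent.Lib.MP_f2cf74_an

/-! The integrated two-point inequality.  Substitute `y' = y + h`, Tonelli, `twoA`, `logW`;
`wW ‖h‖² ≤ C kp 2`, `wW ‖h‖ ≤ C kp 3` since `(log ‖h‖)² ≥ (log 2)²`; undo the substitution and use
`pot` with `mass`, `g0` with `mass`, and `ui` with `w = eT v` and `pot`. -/

theorem twoB_shift (f : E → ℝ≥0∞) (y : E) (δ : ℝ) :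
    ∫⁻ y' in ball y δ, f y' = ∫⁻ h in ball 0 δ, f (y + h) := by
  rw [← lintegral_indicator measurableSet_ball, ← lintegral_indicator measurableSet_ball,
    ← lintegral_add_left_eq_self _ y]
  refine lintegral_congr fun h => ?_
  have h1 : y + h ∈ ball y δ ↔ h ∈ ball (0 : E) δ := by simp [mem_ball, dist_eq_norm]
  by_cases h2 : h ∈ ball (0 : E) δ
  · rw [indicator_of_mem h2, indicator_of_mem (h1.2 h2)]
  · rw [indicator_of_notMem h2, indicator_of_notMem fun h3 => h2 (h1.1 h3)]

theorem twoB_w (y h : E) : wW y (y + h) = wW 0 h := by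
  unfold wW
  rw [sub_add_cancel_left, zero_sub]

theorem twoB_le (y : E) {h : E} (hh : ‖h‖ ≤ 1 / 2) (i p : ℕ) (hp : p + i = 4) :
    wW 0 h * ENNReal.ofReal (‖h‖ ^ i) ≤ 4 * kp p y (y + h) := by
  unfold wW kp
  rw [sub_add_cancel_left, zero_sub, norm_neg, ← ENNReal.ofReal_mul (by positivity),
    ← ENNReal.ofReal_ofNat 4, ← ENNReal.ofReal_mul (by norm_num)]
  refine ENNReal.ofReal_le_ofReal ?_
  rcases (norm_nonneg h).eq_or_lt with h0 | h0
  · rw [← h0, Real.log_zero, zero_pow two_ne_zero, div_zero, zero_mul]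
    positivity
  · have h1 : Real.log ‖h‖ ≤ -(1 / 2) := by
      linarith [Real.log_le_sub_one_of_pos h0]
    have h2 : 1 / 4 ≤ Real.log ‖h‖ ^ 2 := by nlinarith
    have h3 : ‖h‖⁻¹ ^ 4 * ‖h‖ ^ i = ‖h‖⁻¹ ^ p := by
      rw [show ‖h‖⁻¹ ^ 4 = ‖h‖⁻¹ ^ (p + i) by rw [hp], pow_add, mul_assoc, ← mul_pow,
        inv_mul_cancel₀ h0.ne', one_pow, mul_one]
    rw [div_mul_eq_mul_div, h3, div_le_iff₀ (by linarith)]
    have h4 : 0 ≤ ‖h‖⁻¹ ^ p := by positivity
    nlinarith

theorem twoB_comp {X : Type} [MeasurableSpace X] {k : E → E → ℝ≥0∞}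
    (hk : Measurable fun q : E × E => k q.1 q.2) {f g : X → E} (hf : Measurable f)
    (hg : Measurable g) : Measurable fun x => k (f x) (g x) :=
  hk.comp (hf.prodMk hg)

theorem twoB_kp {X : Type} [MeasurableSpace X] (p : ℕ) {f g : X → E} (hf : Measurable f)
    (hg : Measurable g) : Measurable fun x => kp p (f x) (g x) :=
  twoB_comp (measurable_kp p) hf hg

/-- The error terms. -/
def twoB_err (M : Model) (u v : E → ℝ) (y y' : E) : ℝ≥0∞ :=
  eT M u y * (kp 2 y y' * eT M v y') + eT M u y * (kp 3 y y' * eG v y') +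
    eT M v y' * (kp 3 y' y * eG u y)

theorem twoB_err_le (M : Model) (c : E) {a b : ℝ} (ha : 0 < a) (hab : a < b) (B : ℝ) :
    ∃ C : ℝ≥0, ∀ (u v : E → ℝ), UOK M c b u → VOK M c b B v →
    ∫⁻ y in ball c a, ∫⁻ y' in ball c a, twoB_err M u v y y' ≤ C * nU c b u := by
  have ha' : a < (a + b) / 2 := by linarith
  have hb' : (a + b) / 2 < b := by linarith
  obtain ⟨C1, h1⟩ := pot M c (ha.trans ha') hb' B
  obtain ⟨C2, h2⟩ := mass M c ha hab
  obtain ⟨C3, h3⟩ := g0 M c ha hab B
  obtain ⟨C4, h4⟩ := ui M c ha ha' hb'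
  refine ⟨C1 * C2 + C3 * C2 + C4 * C1, fun u v hu hv => ?_⟩
  have mu : Measurable (eT M u) := measurable_eT M (hu.sm.of_le (by norm_num))
  have mv : Measurable (eT M v) := measurable_eT M (hv.sm.of_le (by norm_num))
  have m1 : Measurable fun q : E × E => eT M u q.1 * (kp 2 q.1 q.2 * eT M v q.2) :=
    (mu.comp measurable_fst).mul ((measurable_kp 2).mul (mv.comp measurable_snd))
  have m2 : Measurable fun q : E × E => eT M u q.1 * (kp 3 q.1 q.2 * eG v q.2) :=
    (mu.comp measurable_fst).mul ((measurable_kp 3).mul ((measurable_eG v).comp measurable_snd))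
  have m3 : Measurable fun q : E × E => eT M v q.2 * (kp 3 q.2 q.1 * eG u q.1) :=
    (mv.comp measurable_snd).mul ((twoB_kp 3 measurable_snd measurable_fst).mul
      ((measurable_eG u).comp measurable_fst))
  have hp : ∀ y ∈ ball c ((a + b) / 2), ∫⁻ x in ball c a, kp 2 y x * eT M v x ≤ C1 := fun y hy =>
    (lintegral_mono_set (ball_subset_ball ha'.le)).trans (h1 v hv y hy)
  have key : ∀ (k : E → E → ℝ≥0∞) (C : ℝ≥0), (∀ y ∈ ball c a, ∫⁻ x in ball c a, k y x ≤ C) →
      ∫⁻ y in ball c a, ∫⁻ y' in ball c a, eT M u y * k y y' ≤ C * C2 * nU c b u := by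
    intro k C hk
    calc ∫⁻ y in ball c a, ∫⁻ y' in ball c a, eT M u y * k y y'
        ≤ ∫⁻ y in ball c a, C * eT M u y := setLIntegral_mono' measurableSet_ball fun y hy => by
          rw [lintegral_const_mul' (eT M u y) _ ENNReal.ofReal_ne_top, mul_comm]
          exact mul_le_mul_left (hk y hy) _
      _ ≤ C * C2 * nU c b u := by
          rw [lintegral_const_mul' _ _ ENNReal.coe_ne_top, mul_assoc]
          exact mul_le_mul_right (h2 u hu) _
  have k1 := key (fun y x => kp 2 y x * eT M v x) C1 fun y hy => hp y (ball_subset_ball ha'.le hy)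
  have k2 := key (fun y x => kp 3 y x * eG v x) C3 (h3 v hv)
  have k3 : ∫⁻ y in ball c a, ∫⁻ y' in ball c a, eT M v y' * (kp 3 y' y * eG u y) ≤
      C4 * C1 * nU c b u := by
    rw [lintegral_lintegral_swap m3.aemeasurable]
    refine le_trans (le_of_eq (lintegral_congr fun y' => ?_)) (h4 u _ _ hu mv hp)
    exact lintegral_const_mul' _ _ ENNReal.ofReal_ne_top
  have e : ∀ y, ∫⁻ y' in ball c a, twoB_err M u v y y' =
      (∫⁻ y' in ball c a, eT M u y * (kp 2 y y' * eT M v y')) +
        (∫⁻ y' in ball c a, eT M u y * (kp 3 y y' * eG v y')) +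
        ∫⁻ y' in ball c a, eT M v y' * (kp 3 y' y * eG u y) := fun y => by
    unfold twoB_err
    have n2 : Measurable fun y' => eT M u y * (kp 3 y y' * eG v y') :=
      ((twoB_kp 3 measurable_const measurable_id).mul (measurable_eG v)).const_mul _
    have n3 : Measurable fun y' => eT M v y' * (kp 3 y' y * eG u y) :=
      mv.mul ((twoB_kp 3 measurable_id measurable_const).mul_const _)
    rw [lintegral_add_right _ n3, lintegral_add_right _ n2]
  simp only [e]
  rw [lintegral_add_right _ m3.lintegral_prod_right', lintegral_add_right _ m2.lintegral_prod_right']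
  push_cast
  rw [add_mul, add_mul]
  exact add_le_add (add_le_add k1 k2) k3

theorem twoB (M : Model) (c : E) {r a1 b δ : ℝ} (hr : 0 < r) (hδ : 0 < δ) (hδ1 : δ ≤ 1 / 2)
    (h1 : r + δ ≤ a1) (h2 : a1 + δ < b) (B : ℝ) : ∃ C : ℝ≥0,
    ∀ (u v : E → ℝ), UOK M c b u → VOK M c b B v → Ann c r b B v →
    ∫⁻ y in ball c a1, ∫⁻ y' in ball y δ, wW y y' * eD M u v y y' ≤ C * nU c b u := by
  have ha1 : 0 < a1 := by linarith
  obtain ⟨a2, h12, h3⟩ : ∃ a2, a1 < a2 ∧ a2 + δ < b := ⟨(a1 + (b - δ)) / 2, by linarith, by linarith⟩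
  obtain ⟨C1, k1⟩ := twoA M c hr hδ (by linarith) h1 h12 h3 B
  obtain ⟨C2, k2⟩ := logW
  obtain ⟨C3, k3⟩ := twoB_err_le M c (by linarith : 0 < a2 + δ) h3 B
  refine ⟨C1 * (C2 + 4 * C3), fun u v hu hv hA => ?_⟩
  have mu : Measurable (eT M u) := measurable_eT M (hu.sm.of_le (by norm_num))
  have mv : Measurable (eT M v) := measurable_eT M (hv.sm.of_le (by norm_num))
  have mW : Measurable fun h : E => wW 0 h := twoB_comp measurable_wW measurable_const measurable_id
  have ms : Measurable fun q : E × E => q.1 + q.2 := measurable_fst.add measurable_snd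
  have mD : Measurable fun q : E × E => wW 0 q.2 * eD M u v q.1 (q.1 + q.2) :=
    (twoB_comp measurable_wW measurable_const measurable_snd).mul (twoB_comp (measurable_eD M
      (hu.sm.of_le (by norm_num)) (hv.sm.of_le (by norm_num))) measurable_fst ms)
  have mE : Measurable fun q : E × E => twoB_err M u v q.1 (q.1 + q.2) := by
    have n1 : Measurable fun q : E × E => eT M u q.1 := mu.comp measurable_fst
    have n2 : Measurable fun q : E × E => eT M v (q.1 + q.2) := mv.comp ms
    have n3 : Measurable fun q : E × E => eG v (q.1 + q.2) := (measurable_eG v).comp ms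
    have n4 : Measurable fun q : E × E => eG u q.1 := (measurable_eG u).comp measurable_fst
    unfold twoB_err
    exact ((n1.mul ((twoB_kp 2 measurable_fst ms).mul n2)).add
      (n1.mul ((twoB_kp 3 measurable_fst ms).mul n3))).add
      (n2.mul ((twoB_kp 3 ms measurable_fst).mul n4))
  have e1 : ∫⁻ h in ball (0 : E) δ, ∫⁻ y in ball c a2, twoB_err M u v y (y + h) ≤
      C3 * nU c b u := by
    rw [← lintegral_lintegral_swap mE.aemeasurable]
    refine le_trans ?_ (k3 u v hu hv)
    refine (setLIntegral_mono' measurableSet_ball fun y hy => ?_).trans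
      (lintegral_mono_set (ball_subset_ball (by linarith : a2 ≤ a2 + δ)))
    rw [← twoB_shift (twoB_err M u v y) y δ]
    refine lintegral_mono_set (ball_subset_ball' ?_)
    linarith [mem_ball.1 hy]
  have e2 : ∀ h ∈ ball (0 : E) δ, ∫⁻ y in ball c a1, wW 0 h * eD M u v y (y + h) ≤
      C1 * (wW 0 h * nU c b u + 4 * ∫⁻ y in ball c a2, twoB_err M u v y (y + h)) := by
    intro h hh
    have hh' : ‖h‖ < δ := mem_ball_zero_iff.1 hh
    have hW : wW 0 h ≠ ⊤ := ENNReal.ofReal_ne_top
    rw [lintegral_const_mul' _ _ hW]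
    refine (mul_le_mul_right (k1 u v hu hv hA h hh') _).trans ?_
    rw [mul_left_comm, mul_add, ← lintegral_const_mul' _ _ hW,
      ← lintegral_const_mul' 4 _ ENNReal.ofNat_ne_top]
    refine mul_le_mul_right (add_le_add le_rfl (lintegral_mono fun y => ?_)) _
    have p2 := twoB_le y (hh'.le.trans hδ1) 2 2 rfl
    have p3 := twoB_le y (hh'.le.trans hδ1) 1 3 rfl
    rw [pow_one] at p3
    calc _ = wW 0 h * ENNReal.ofReal (‖h‖ ^ 2) * (eT M u y * eT M v (y + h)) +
          wW 0 h * ENNReal.ofReal ‖h‖ * (eT M u y * eG v (y + h)) +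
          wW 0 h * ENNReal.ofReal ‖h‖ * (eG u y * eT M v (y + h)) := by ring
      _ ≤ 4 * kp 2 y (y + h) * (eT M u y * eT M v (y + h)) +
          4 * kp 3 y (y + h) * (eT M u y * eG v (y + h)) +
          4 * kp 3 y (y + h) * (eG u y * eT M v (y + h)) := by gcongr
      _ = 4 * twoB_err M u v y (y + h) := by
        unfold twoB_err
        rw [kp_comm 3 (y + h) y]
        ring
  have e3 : ∫⁻ h in ball (0 : E) δ, wW 0 h ≤ C2 :=
    (lintegral_mono_set (ball_subset_ball hδ1)).trans (k2 0)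
  calc ∫⁻ y in ball c a1, ∫⁻ y' in ball y δ, wW y y' * eD M u v y y'
      = ∫⁻ y in ball c a1, ∫⁻ h in ball (0 : E) δ, wW 0 h * eD M u v y (y + h) :=
        lintegral_congr fun y => by
          rw [twoB_shift]
          simp only [twoB_w]
    _ = ∫⁻ h in ball (0 : E) δ, ∫⁻ y in ball c a1, wW 0 h * eD M u v y (y + h) :=
        lintegral_lintegral_swap mD.aemeasurable
    _ ≤ ∫⁻ h in ball (0 : E) δ,
          C1 * (wW 0 h * nU c b u + 4 * ∫⁻ y in ball c a2, twoB_err M u v y (y + h)) :=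
        setLIntegral_mono' measurableSet_ball e2
    _ = C1 * ((∫⁻ h in ball (0 : E) δ, wW 0 h) * nU c b u +
          4 * ∫⁻ h in ball (0 : E) δ, ∫⁻ y in ball c a2, twoB_err M u v y (y + h)) := by
        rw [lintegral_const_mul' _ _ ENNReal.coe_ne_top, lintegral_add_left (mW.mul_const _),
          lintegral_mul_const _ mW, lintegral_const_mul' 4 _ ENNReal.ofNat_ne_top]
    _ ≤ C1 * (C2 * nU c b u + 4 * (C3 * nU c b u)) := by gcongr
    _ = _ := by
        push_cast
        ring

end Pool.Agent.Lib.MP_f2cf74_an
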