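import Pool.Agent.Lib.MP_f2cf74_an.CoreId
import Pool.Agent.Lib.MP_f2cf74_an.CorePt
import Pool.Agent.Lib.MP_f2cf74_an.E2a
import Pool.Agent.Lib.MP_f2cf74_an.TwoB

open Set Metric MeasureTheory Complex Filter Topology
open scoped ContDiff ENNReal NNReal

noncomputable section

namespace Pool.Agent.Lib.MP_f2cf74_an

/-! The core estimate for smooth functions.  `φ` is a `ContDiffBump c` with `rIn = 2 r`,
`rOut = 3 r`; `f = -φ u ≥ 0` on `ball c (10 r)` and `f = 0` off `ball c (3 r)`.  `core_id`,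
`core_pt` (off `closedBall c (3 r)` all terms vanish), `e2` with
`β n = dens * 8 I φ conj (A Nij n)` (`C¹`, so Lipschitz on the ball), `a = 3 r`, `a' = 4 r`,
`δ = min r (1/2)`, `twoB`, `t3`, `gd` with `g0`; lower bound for `dens`. -/

theorem core_cont_Dd (M : Model) {f g : E → ℝ} (hf : ContDiff ℝ 2 f) (hg : ContDiff ℝ 2 g) :
    Continuous fun x => Dd (H M f x) (H M g x) := by
  have h1 := continuous_H M hf
  have h2 := continuous_H M hg
  unfold Dd
  exact (((continuous_re.comp (h1 0 0)).mul (continuous_re.comp (h2 1 1))).add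
    ((continuous_re.comp (h1 1 1)).mul (continuous_re.comp (h2 0 0)))).sub
    (continuous_const.mul (continuous_re.comp ((h1 0 1).mul (continuous_conj.comp (h2 0 1)))))

theorem core_cont_sigg (M : Model) {f : E → ℝ} (hf : ContDiff ℝ 2 f) :
    Continuous fun x => sigg M x (fderiv ℝ f x) := by
  have h1 : Continuous (fderiv ℝ f) := hf.continuous_fderiv (by norm_num)
  have h2 := M.contDiff_Nij.continuous
  have h3 := M.smJ.continuous
  unfold sigg
  exact (continuous_ofReal.comp (h1.clm_apply h2)).add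
    (continuous_const.mul (continuous_ofReal.comp (h1.clm_apply (h3.clm_apply h2))))

/-- The main term. -/
def core_T (M : Model) (f v : E → ℝ) (x : E) : ℝ :=
  f x * (16 * Dd (H M v x) (H M v x) + ‖sigg M x (fderiv ℝ v x)‖ ^ 2 / 2)

/-- The term after the integration by parts. -/
def core_G (M : Model) (f v : E → ℝ) (x : E) : ℝ :=
  v x * (16 * Dd (H M f x) (H M v x) +
      (sigg M x (fderiv ℝ f x) * (starRingEnd ℂ) (sigg M x (fderiv ℝ v x))).re / 2) -
    (sigg M x (fderiv ℝ v x) * (4 * I * (Lb M 0 f x * Lb M 1 v x - Lb M 1 f x * Lb M 0 v x))).re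

theorem core_G_zero (M : Model) {f : E → ℝ} (v : E → ℝ) {x : E} (h : f =ᶠ[𝓝 x] fun _ => 0) :
    core_G M f v x = 0 := by
  have h1 : fderiv ℝ f x = 0 := by rw [h.fderiv_eq]; simp
  have h2 : H M f x = fun _ _ => 0 := by
    rw [H_congr M (g := fun _ => 0) 0 (by simpa using h)]
    funext j k
    simp [H, hm, Om]
  simp [core_G, h1, h2, Lb, Lg, sigg, Dd]

theorem core_int (M : Model) {f v : E → ℝ} (hf : ContDiff ℝ 2 f) (hv : ContDiff ℝ 3 v) {K : Set E}
    (hK : IsCompact K) (h0 : ∀ x, x ∉ K → f =ᶠ[𝓝 x] fun _ => 0) :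
    Integrable (fun x => dens M x * core_T M f v x) ∧
    Integrable (fun x => dens M x * core_G M f v x) ∧
    ∫ x, dens M x * core_T M f v x = ∫ x, dens M x * core_G M f v x := by
  obtain ⟨-, -, -, -, hd⟩ := M.dens_facts
  have hv2 : ContDiff ℝ 2 v := hv.of_le (by norm_num)
  have hz : ∀ x, x ∉ K → f x = 0 := fun x hx => (h0 x hx).self_of_nhds
  have c1 := core_cont_sigg M hf
  have c2 := core_cont_sigg M hv2
  have c3 := fun j => (contDiff_Lb M hf j).continuous
  have c4 := fun j => (contDiff_Lb M hv2 j).continuous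
  have h1 : Integrable (fun x => dens M x * core_T M f v x) :=
    (hd.continuous.mul (hf.continuous.mul ((continuous_const.mul (core_cont_Dd M hv2 hv2)).add
      ((c2.norm.pow 2).div_const 2)))).integrable_of_hasCompactSupport
      (HasCompactSupport.intro hK fun x hx => by simp [hz x hx])
  have h2 : Integrable (fun x => dens M x * core_G M f v x) := by
    refine Continuous.integrable_of_hasCompactSupport (hd.continuous.mul ?_)
      (HasCompactSupport.intro hK fun x hx => by rw [core_G_zero M v (h0 x hx), mul_zero])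
    exact (hv.continuous.mul ((continuous_const.mul (core_cont_Dd M hf hv2)).add
      ((continuous_re.comp (c1.mul (continuous_conj.comp c2))).div_const 2))).sub
      (continuous_re.comp (c2.mul (continuous_const.mul
        (((c3 0).mul (c4 1)).sub ((c3 1).mul (c4 0))))))
  refine ⟨h1, h2, sub_eq_zero.mp ?_⟩
  rw [← integral_sub h1 h2, ← core_id M hf (HasCompactSupport.intro hK hz) hv]
  congr 1
  funext x
  unfold core_T core_G
  ring

theorem core_lip (c : E) (b : ℝ) {β : Fin 2 → E → ℂ} (h : ∀ n, ContDiff ℝ 1 (β n)) :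
    ∃ L, ∀ n, LipB c b L (β n) := by
  have key : ∀ n, ∃ L, ∀ x ∈ closedBall c b, ‖β n x‖ ≤ L ∧ ‖fderiv ℝ (β n) x‖ ≤ L := fun n => by
    obtain ⟨L₀, h₀⟩ := (isCompact_closedBall c b).exists_bound_of_continuousOn
      (h n).continuous.continuousOn
    obtain ⟨L₁, h₁⟩ := (isCompact_closedBall c b).exists_bound_of_continuousOn
      ((h n).continuous_fderiv one_ne_zero).continuousOn
    exact ⟨max L₀ L₁, fun x hx => ⟨(h₀ x hx).trans (le_max_left _ _),
      (h₁ x hx).trans (le_max_right _ _)⟩⟩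
  choose L hL using key
  have hle : ∀ n, L n ≤ max (L 0) (L 1) := fun n => by
    fin_cases n
    exacts [le_max_left _ _, le_max_right _ _]
  exact ⟨max (L 0) (L 1), fun n => ⟨fun x hx => (hL n x (ball_subset_closedBall hx)).1.trans (hle n),
    fun x hx y hy => (convex_ball c b).norm_image_sub_le_of_norm_fderiv_le
      (fun z _ => (h n).differentiable one_ne_zero z)
      (fun z hz => (hL n z (ball_subset_closedBall hz)).2.trans (hle n)) hy hx⟩⟩

theorem core_ofReal {g : E → ℝ} (hg : Integrable g) :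
    ENNReal.ofReal (∫ x, g x) ≤ ∫⁻ x, ENNReal.ofReal (g x) := by
  refine (ENNReal.ofReal_le_ofReal (integral_mono hg hg.pos_part fun x => le_max_left _ _)).trans ?_
  rw [ofReal_integral_eq_lintegral_ofReal hg.pos_part (ae_of_all _ fun x => le_max_right _ _)]
  exact le_of_eq (lintegral_congr fun x => by simp)

/-- The coefficients of the non-integrable error term. -/
def core_b (M : Model) (φ : E → ℝ) (n : Fin 2) (x : E) : ℂ :=
  (dens M x : ℂ) * (8 * I * φ x * (starRingEnd ℂ) (M.A x (Nij M x) n))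

theorem core_b_contDiff (M : Model) {φ : E → ℝ} (hφ : ContDiff ℝ 1 φ) (n : Fin 2) :
    ContDiff ℝ 1 (core_b M φ n) := by
  obtain ⟨-, -, -, -, hd⟩ := M.dens_facts
  have h1 : ContDiff ℝ 1 fun x => M.A x (Nij M x) :=
    (M.smA.of_le (by exact_mod_cast le_top)).clm_apply
      (M.contDiff_Nij.of_le (by exact_mod_cast le_top))
  have h2 : ContDiff ℝ 1 fun x => M.A x (Nij M x) n := (contDiff_piLp 2).1 h1 n
  exact (ofRealCLM.contDiff.comp hd).mul ((contDiff_const.mul (ofRealCLM.contDiff.comp hφ)).mul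
    (conjCLE.contDiff.comp h2))

/-- The integrable error terms. -/
theorem core_err (M : Model) (c : E) {r : ℝ} (hr : 0 < r) (B : ℝ) : ∃ C : ℝ≥0, ∀ u v : E → ℝ,
    UOK M c (10 * r) u → VOK M c (10 * r) B v →
    ∫⁻ x in ball c (4 * r), (‖u x‖ₑ + eG u x + eG v x * eG u x) ≤ C * nU c (10 * r) u := by
  obtain ⟨C₁, h₁⟩ := t3 M c (a := 4 * r) (b := 10 * r) (by linarith) (by linarith)
  obtain ⟨C₂, h₂⟩ := g0 M c (a := 5 * r) (b := 10 * r) (by linarith) (by linarith) B
  obtain ⟨C₃, h₃⟩ := gd M c (a := 4 * r) (a' := 5 * r) (b := 10 * r) (by linarith) (by linarith)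
    (by linarith)
  refine ⟨1 + C₁ + C₃ * C₂, fun u v hu hv => ?_⟩
  rw [lintegral_add_left (f := fun x => ‖u x‖ₑ + eG u x)
    (hu.sm.continuous.measurable.enorm.add (measurable_eG u)),
    lintegral_add_left hu.sm.continuous.measurable.enorm]
  push_cast
  rw [add_mul, add_mul, one_mul]
  exact add_le_add (add_le_add (lintegral_mono_set (ball_subset_ball (by linarith))) (h₁ u hu))
    (h₃ u (eG v) C₂ hu (measurable_eG v) fun y hy =>
      (lintegral_mono_set (ball_subset_ball (by linarith))).trans (h₂ v hv y hy))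

theorem core (M : Model) (c : E) {r : ℝ} (hr : 0 < r) (B : ℝ) : ∃ C : ℝ≥0, ∀ u v : E → ℝ,
    UOK M c (10 * r) u → (∀ x ∈ ball c (10 * r), u x ≤ 0) → VOK M c (10 * r) B v →
    Ann c r (10 * r) B v →
    ∫⁻ x in ball c (2 * r), ‖u x‖ₑ * eD M v v x x ≤ C * nU c (10 * r) u := by
  obtain ⟨-, -, -, hdp, hd⟩ := M.dens_facts
  let φ : ContDiffBump c := ⟨2 * r, 3 * r, by linarith, by linarith⟩
  have hφ : ContDiff ℝ 2 φ := φ.contDiff
  have hK := isCompact_closedBall c (3 * r)
  have hφ0 : ∀ x, x ∉ ball c (3 * r) → φ x = 0 := fun x hx => φ.zero_of_le_dist (not_lt.mp hx)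
  have hφ1 : ∀ x, x ∉ closedBall c (3 * r) → (φ : E → ℝ) =ᶠ[𝓝 x] 0 := fun x hx =>
    notMem_tsupport_iff_eventuallyEq.mp (by rwa [φ.tsupport_eq])
  obtain ⟨L₁, hL₁⟩ := hK.exists_bound_of_continuousOn
    (hφ.continuous_fderiv (by norm_num)).continuousOn
  obtain ⟨L₂, hL₂⟩ := hK.exists_bound_of_continuousOn
    ((hφ.fderiv_right (m := 1) (by norm_num)).continuous_fderiv one_ne_zero).continuousOn
  obtain ⟨D₁, hD₁⟩ := hK.exists_bound_of_continuousOn hd.continuous.continuousOn
  obtain ⟨D₀, hD₀⟩ := hK.exists_bound_of_continuousOn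
    (hd.continuous.inv₀ fun x => (hdp x).ne').continuousOn
  have hb := core_b_contDiff M (hφ.of_le (by norm_num))
  obtain ⟨L, hL⟩ := core_lip c (10 * r) hb
  obtain ⟨Cp, hCp, hpt⟩ := core_pt M B (max L₁ L₂)
  have hδ : 0 < min r (1 / 2) := lt_min hr (by norm_num)
  have hδr : min r (1 / 2) ≤ r := min_le_left _ _
  obtain ⟨Ce, he⟩ := e2 M c (a := 3 * r) (a' := 4 * r) (b := 10 * r) (by linarith) (by linarith)
    (by linarith) hδ (min_le_right _ _) B L
  obtain ⟨Ct, ht⟩ := twoB M c (a1 := 4 * r) (b := 10 * r) hr hδ (min_le_right _ _) (by linarith)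
    (by linarith) B
  obtain ⟨Cr, hr'⟩ := core_err M c hr B
  refine ⟨D₀.toNNReal * (Ce * (1 + Ct) + (D₁ * Cp).toNNReal * Cr), fun u v hu hu0 hv hA => ?_⟩
  have hu2 : ContDiff ℝ 2 u := hu.sm.of_le (by norm_num)
  have hv2 : ContDiff ℝ 2 v := hv.sm.of_le (by norm_num)
  set f : E → ℝ := fun y => -(φ y * u y) with hf
  have hf0 : ∀ x, x ∉ closedBall c (3 * r) → f =ᶠ[𝓝 x] fun _ => 0 := fun x hx =>
    (hφ1 x hx).mono fun y hy => by simp [hf, hy]
  obtain ⟨i1, i2, i3⟩ := core_int M (hφ.mul hu2).neg hv.sm hK hf0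
  set Q : E → ℂ := fun x => (∑ n, core_b M φ n x * Lb M n v x) *
    (Lb M 0 u x * Lb M 1 v x - Lb M 1 u x * Lb M 0 v x) with hQ
  have hQ0 : ∀ x, x ∉ closedBall c (3 * r) → Q x = 0 := fun x hx => by
    simp [hQ, core_b, hφ0 x fun h => hx (ball_subset_closedBall h)]
  have c3 := fun j => (contDiff_Lb M hu2 j).continuous
  have c4 := fun j => (contDiff_Lb M hv2 j).continuous
  have i4 : Integrable Q :=
    ((continuous_finsetSum _ fun n _ => (hb n).continuous.mul (c4 n)).mul
      (((c3 0).mul (c4 1)).sub ((c3 1).mul (c4 0)))).integrable_of_hasCompactSupport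
      (HasCompactSupport.intro hK hQ0)
  have hsub : closedBall c (3 * r) ⊆ ball c (10 * r) := closedBall_subset_ball (by linarith)
  have hT0 : ∀ x, 0 ≤ dens M x * core_T M f v x := fun x => by
    by_cases hx : x ∈ closedBall c (3 * r)
    · have h1 := (psd_H M hv.psh (hsub hx)).Dd_nonneg (psd_H M hv.psh (hsub hx))
      exact mul_nonneg (hdp x).le (mul_nonneg (neg_nonneg.mpr
        (mul_nonpos_of_nonneg_of_nonpos φ.nonneg (hu0 x (hsub hx)))) (by positivity))
    · rw [core_T, (hf0 x hx).self_of_nhds, zero_mul, mul_zero]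
  have low : ∫⁻ x in ball c (2 * r), ‖u x‖ₑ * eD M v v x x ≤
      D₀.toNNReal * ENNReal.ofReal (∫ x, dens M x * core_T M f v x) := by
    rw [ofReal_integral_eq_lintegral_ofReal i1 (ae_of_all _ hT0),
      ← lintegral_const_mul' _ _ ENNReal.coe_ne_top]
    refine (setLIntegral_mono' measurableSet_ball fun x hx => ?_).trans (setLIntegral_le_lintegral _ _)
    have hx3 : x ∈ closedBall c (3 * r) :=
      ball_subset_closedBall (ball_subset_ball (by linarith) hx)
    have h1 := (psd_H M hv.psh (hsub hx3)).Dd_nonneg (psd_H M hv.psh (hsub hx3))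
    have h2 : (dens M x)⁻¹ ≤ D₀ := (le_abs_self _).trans (hD₀ x hx3)
    have h3 := hdp x
    have h4 : f x = ‖u x‖ := by
      rw [hf, Real.norm_eq_abs, abs_of_nonpos (hu0 x (hsub hx3))]
      simp [φ.one_of_mem_closedBall (ball_subset_closedBall hx)]
    have h5 : 0 ≤ D₀ := (inv_pos.mpr h3).le.trans h2
    rw [← ofReal_norm, eD, ← ENNReal.ofReal_mul (norm_nonneg _)]
    refine (ENNReal.ofReal_le_ofReal ?_).trans (ENNReal.ofReal_mul h5).le
    calc ‖u x‖ * Dd (H M v x) (H M v x) ≤ core_T M f v x := by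
          rw [core_T, h4]
          exact mul_le_mul_of_nonneg_left
            (by nlinarith [sq_nonneg ‖sigg M x (fderiv ℝ v x)‖]) (norm_nonneg _)
      _ = (dens M x)⁻¹ * (dens M x * core_T M f v x) := by field_simp
      _ ≤ _ := mul_le_mul_of_nonneg_right h2 (hT0 x)
  have up : ∀ x, ENNReal.ofReal (dens M x * core_G M f v x - (Q x).re) ≤
      (ball c (4 * r)).indicator (fun x => ((D₁ * Cp).toNNReal : ℝ≥0∞) *
        (‖u x‖ₑ + eG u x + eG v x * eG u x)) x := fun x => by
    by_cases hx : x ∈ closedBall c (3 * r)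
    · have h1 := hpt φ u v x hφ.contDiffAt hu2.contDiffAt hv2.contDiffAt φ.nonneg φ.le_one
        ((hL₁ x hx).trans (le_max_left _ _)) ((hL₂ x hx).trans (le_max_right _ _))
        (hv.nn x (hsub hx)) (hv.le x (hsub hx)) (psd_H M hu.psh (hsub hx))
        (psd_H M hv.psh (hsub hx)) (by
          by_cases h2 : x ∈ ball c (2 * r)
          · have h3 := φ.eventuallyEq_one_of_mem_ball h2
            refine Or.inl ⟨by rw [h3.fderiv_eq]; simp, ?_⟩
            rw [h3.fderiv.fderiv_eq]
            simp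
          · rw [mem_ball, dist_eq_norm, not_lt] at h2
            exact Or.inr (hA x (by linarith) (by simpa [dist_eq_norm] using hsub hx)))
      have h2 : dens M x ≤ D₁ := (le_abs_self _).trans (hD₁ x hx)
      have h3 := hdp x
      have h4 : (Q x).re = dens M x * ((∑ n, (8 * I * φ x * (starRingEnd ℂ) (M.A x (Nij M x) n)) *
          Lb M n v x) * (Lb M 0 u x * Lb M 1 v x - Lb M 1 u x * Lb M 0 v x)).re := by
        rw [← re_ofReal_mul, hQ]
        simp only [core_b, Fin.sum_univ_two]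
        congr 1
        ring
      rw [indicator_of_mem (closedBall_subset_ball (by linarith) hx), eG, eG, ← ofReal_norm,
        ← ofReal_norm, ← ofReal_norm, ← ENNReal.ofReal_mul (norm_nonneg _),
        ← ENNReal.ofReal_add (norm_nonneg _) (norm_nonneg _),
        ← ENNReal.ofReal_add (by positivity) (by positivity)]
      refine (ENNReal.ofReal_le_ofReal ?_).trans
        (ENNReal.ofReal_mul (mul_nonneg (h3.le.trans h2) hCp)).le
      rw [h4, ← mul_sub, mul_assoc D₁, mul_comm ‖fderiv ℝ v x‖]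
      exact (mul_le_mul_of_nonneg_left (sub_le_iff_le_add'.mpr h1) h3.le).trans
        (mul_le_mul_of_nonneg_right h2 (by positivity))
    · rw [core_G_zero M v (hf0 x hx), hQ0 x hx]
      simp
  have i5 : Integrable fun x => (Q x).re := i4.re
  have e1 : ∫ x, dens M x * core_T M f v x ≤
      ‖∫ x, Q x‖ + ∫ x, (dens M x * core_G M f v x - (Q x).re) := by
    have h1 : ∫ x, (Q x).re = (∫ x, Q x).re := integral_re i4
    rw [integral_sub i2 i5, h1, i3]
    linarith [re_le_norm (∫ x, Q x)]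
  have e2 : ENNReal.ofReal (∫ x, (dens M x * core_G M f v x - (Q x).re)) ≤
      (D₁ * Cp).toNNReal * (Cr * nU c (10 * r) u) := by
    refine (core_ofReal (i2.sub i5)).trans ((lintegral_mono up).trans ?_)
    rw [lintegral_indicator measurableSet_ball, lintegral_const_mul' _ _ ENNReal.coe_ne_top]
    exact mul_le_mul_right (hr' u v hu hv) _
  have e3 : ‖∫ x, Q x‖ₑ ≤ Ce * (nU c (10 * r) u + Ct * nU c (10 * r) u) :=
    (he u v _ hu hv (fun n => (hb n).continuous) hL fun n x hx => by simp [core_b, hφ0 x hx]).trans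
      (mul_le_mul_right (add_le_add le_rfl (ht u v hu hv hA)) _)
  refine low.trans ?_
  push_cast
  rw [mul_assoc]
  refine mul_le_mul_right ((ENNReal.ofReal_le_ofReal e1).trans (ENNReal.ofReal_add_le.trans ?_)) _
  rw [ofReal_norm]
  refine (add_le_add e3 e2).trans (le_of_eq ?_)
  ring

end Pool.Agent.Lib.MP_f2cf74_an
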