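import Pool.Agent.Lib.MP_f2cf74_an.Stokes
import Pool.Agent.Lib.MP_f2cf74_an.AlgC

open Set Metric MeasureTheory Complex Filter Topology
open scoped ContDiff ENNReal NNReal

noncomputable section

namespace Pool.Agent.Lib.MP_f2cf74_an

/-! Integral identities from `stokes`, moved to the frame with `top22_det` and `dens_facts`.
`core_id`: `stokes f (eta v) (eta v)` minus `stokes v (eta f) (eta v)`; `top22_frame`, `xi_facts`,
`sig_Om`.  `i1`: in addition `stokes v (eta v) (eta f)`. -/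

/-- The integrand of `stokes a (eta b) (eta c)`. -/
def coreT (M : Model) (a b c : E → ℝ) (x : E) : ℝ :=
  top22 (w11 (fderiv ℝ a x) (eta M.J b x)) (Om M.J c x) eb +
    a x * top22 (Om M.J b x) (Om M.J c x) eb

theorem coreid_out {f : E → ℝ} {x : E} (hx : x ∉ tsupport f) :
    f x = 0 ∧ fderiv ℝ f x = 0 ∧ fderiv ℝ (fderiv ℝ f) x = 0 :=
  ⟨image_eq_zero_of_notMem_tsupport hx, fderiv_of_notMem_tsupport ℝ hx,
    fderiv_of_notMem_tsupport ℝ fun h => hx (tsupport_fderiv_subset ℝ h)⟩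

theorem coreT_int (M : Model) {a b c f : E → ℝ} (ha : ContDiff ℝ 1 a) (hb : ContDiff ℝ 2 b)
    (hc : ContDiff ℝ 3 c) (hf : HasCompactSupport f) (h : a = f ∨ b = f ∨ c = f) :
    Integrable (coreT M a b c) ∧ ∫ x, coreT M a b c x = 0 := by
  have hJ : ContDiff ℝ 1 M.J := M.smJ.of_le (by norm_cast)
  have hc2 : ContDiff ℝ 2 c := hc.of_le (by norm_cast)
  constructor
  · refine Continuous.integrable_of_hasCompactSupport ?_ (HasCompactSupport.intro hf fun x hx => ?_)
    · have h1 := continuous_Om hJ hb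
      have h2 := continuous_Om hJ hc2
      have h3 : ∀ Y, Continuous fun x => fderiv ℝ a x Y := fun Y =>
        (ha.continuous_fderiv one_ne_zero).clm_apply continuous_const
      have h4 : ∀ Y, Continuous fun x => eta M.J b x Y := fun Y =>
        (contDiff_eta (n := 1) M.smJ hb Y).continuous
      have h5 := ha.continuous
      unfold coreT top22 w11
      fun_prop
    · obtain ⟨h1, h2, h3⟩ := coreid_out hx
      rcases h with rfl | rfl | rfl <;> simp [coreT, top22, w11, eta, Om, h1, h2, h3]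
  · obtain ⟨R, hR⟩ := hf.isCompact.isBounded.subset_ball 0
    have h1 := stokes (α := eta M.J b) (γ := eta M.J c) ha
      (fun i => contDiff_eta (n := 1) M.smJ hb _) (fun i => contDiff_eta (n := 2) M.smJ hc _) R
      fun x hx => by
        obtain ⟨h1, h2, h3⟩ := coreid_out (f := f) (x := x) fun h =>
          (mem_ball_zero_iff.1 (hR h)).not_ge hx
        rw [dR_eta hJ hc2]
        rcases h with rfl | rfl | rfl <;> simp [eta, Om, h1, h2, h3]
    simpa only [dR_eta hJ hb, dR_eta hJ hc2, coreT] using h1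

theorem coreid_alt (M : Model) (x : E) (p g : E →L[ℝ] ℝ) :
    IsAlt (w11 p fun U => -g (M.J x U)) :=
  isAlt_w11 (by simp) (by simp) (fun Y Z => by simp [add_comm]) (by simp)

theorem coreid_pt (M : Model) : ∃ ε : ℝ, Continuous (dens M) ∧
    (∀ (x : E) (Φ Ψ : E → E → ℝ), IsAlt Φ → IsAlt Ψ →
      dens M x * top22 Φ Ψ (frame (M.J x) M.X) = ε * top22 Φ Ψ eb) ∧
    ∀ (f v : E → ℝ) (x : E), ContDiffAt ℝ 2 f x → ContDiffAt ℝ 2 v x →
      dens M x * (f x * (16 * Dd (H M v x) (H M v x) + ‖sigg M x (fderiv ℝ v x)‖ ^ 2 / 2) -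
      v x * (16 * Dd (H M f x) (H M v x) +
        (sigg M x (fderiv ℝ f x) * (starRingEnd ℂ) (sigg M x (fderiv ℝ v x))).re / 2) +
      (sigg M x (fderiv ℝ v x) *
        (4 * I * (Lb M 0 f x * Lb M 1 v x - Lb M 1 f x * Lb M 0 v x))).re) =
      ε * (coreT M f v v x - coreT M v f v x) := by
  obtain ⟨ε, hε, h1, h2, h3⟩ := M.dens_facts
  have h4 : ∀ (x : E) (Φ Ψ : E → E → ℝ), IsAlt Φ → IsAlt Ψ →
      dens M x * top22 Φ Ψ (frame (M.J x) M.X) = ε * top22 Φ Ψ eb := fun x Φ Ψ hΦ hΨ => by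
    have h5 : ε * ε = 1 := by rcases hε with rfl | rfl <;> norm_num
    have h6 : det4 (frame (M.J x) M.X) ≠ 0 := fun h => by
      have h7 := h1 x
      rw [h, inv_zero] at h7
      exact mul_ne_zero (left_ne_zero_of_mul_eq_one h5) (h2 x).ne' h7.symm
    have h7 := inv_mul_cancel₀ h6
    rw [h1] at h7
    rw [top22_det hΦ hΨ, smul_eq_mul]
    linear_combination (ε * top22 Φ Ψ eb) * h7 -
      (dens M x * det4 (frame (M.J x) M.X) * top22 Φ Ψ eb) * h5
  refine ⟨ε, h3.continuous, h4, fun f v x hf hv => ?_⟩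
  have a1 := coreid_alt M x (fderiv ℝ f x) (fderiv ℝ v x)
  have a2 := coreid_alt M x (fderiv ℝ v x) (fderiv ℝ f x)
  have a3 : IsAlt fun Y Z => w11 (fderiv ℝ f x) (fun U => -fderiv ℝ v x (M.J x U)) Y Z -
      w11 (fderiv ℝ v x) (fun U => -fderiv ℝ f x (M.J x U)) Y Z :=
    ⟨fun Y Y' Z => by rw [a1.add, a2.add]; ring, fun c Y Z => by rw [a1.smul, a2.smul, smul_sub],
      fun Y Z => by rw [a1.anti, a2.anti]; ring⟩
  have b1 := h4 x _ _ (isAlt_Om M.J v x) (isAlt_Om M.J v x)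
  have b2 := h4 x _ _ (isAlt_Om M.J f x) (isAlt_Om M.J v x)
  have b3 := h4 x _ _ a3 (isAlt_Om M.J v x)
  obtain ⟨c1, c2⟩ := xi_facts M x (fderiv ℝ f x) (fderiv ℝ v x)
  rw [top22_frame (isAlt_Om M.J v x) (isAlt_Om M.J v x), sig_Om M hv, mul_conj', ← ofReal_pow,
    ofReal_re] at b1
  rw [top22_frame (isAlt_Om M.J f x) (isAlt_Om M.J v x), sig_Om M hv, sig_Om M hf] at b2
  rw [top22_frame a3 (isAlt_Om M.J v x), sig_Om M hv, ← conj_re, map_mul, c2, conj_conj, Dd, c1,
    c1, c1] at b3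
  have d1 : (8 * I * (Lg M 0 x (fderiv ℝ f x) * Lg M 1 x (fderiv ℝ v x) -
      Lg M 1 x (fderiv ℝ f x) * Lg M 0 x (fderiv ℝ v x)) * sigg M x (fderiv ℝ v x)).re =
      2 * (sigg M x (fderiv ℝ v x) *
        (4 * I * (Lb M 0 f x * Lb M 1 v x - Lb M 1 f x * Lb M 0 v x))).re := by
    rw [← re_ofReal_mul, Lb, Lb, Lb, Lb]
    congr 1
    push_cast
    ring
  rw [d1, zero_mul, zero_re] at b3
  unfold coreT H eta
  simp only [top22] at b1 b2 b3 ⊢
  linear_combination f x * b1 - v x * b2 + b3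

theorem core_id (M : Model) {f v : E → ℝ} (hf : ContDiff ℝ 2 f) (hc : HasCompactSupport f)
    (hv : ContDiff ℝ 3 v) :
    ∫ x, dens M x * (f x * (16 * Dd (H M v x) (H M v x) + ‖sigg M x (fderiv ℝ v x)‖ ^ 2 / 2) -
      v x * (16 * Dd (H M f x) (H M v x) +
        (sigg M x (fderiv ℝ f x) * (starRingEnd ℂ) (sigg M x (fderiv ℝ v x))).re / 2) +
      (sigg M x (fderiv ℝ v x) *
        (4 * I * (Lb M 0 f x * Lb M 1 v x - Lb M 1 f x * Lb M 0 v x))).re) = 0 := by
  obtain ⟨ε, -, -, h⟩ := coreid_pt M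
  have hv2 : ContDiff ℝ 2 v := hv.of_le (by norm_cast)
  obtain ⟨h1, h2⟩ := coreT_int M (hf.of_le (by norm_cast)) hv2 hv hc (.inl rfl)
  obtain ⟨h3, h4⟩ := coreT_int M (hv.of_le (by norm_cast)) hf hv hc (.inr (.inl rfl))
  simp only [fun x => h f v x hf.contDiffAt hv2.contDiffAt]
  rw [integral_const_mul, integral_sub h1 h3, h2, h4, sub_self, mul_zero]

theorem i1 (M : Model) {f v : E → ℝ} (hf : ContDiff ℝ 3 f) (hc : HasCompactSupport f)
    (hv : ContDiff ℝ 3 v) : ∫ x, dens M x * m0 M f x (fderiv ℝ v x) =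
      ∫ x, dens M x * (4 * (f x * Dd (H M v x) (H M v x))) := by
  obtain ⟨ε, hd, h0, h⟩ := coreid_pt M
  have hv2 : ContDiff ℝ 2 v := hv.of_le (by norm_cast)
  have hf2 : ContDiff ℝ 2 f := hf.of_le (by norm_cast)
  obtain ⟨h1, h2⟩ := coreT_int M (hf.of_le (by norm_cast)) hv2 hv hc (.inl rfl)
  obtain ⟨h3, h4⟩ := coreT_int M (hv.of_le (by norm_cast)) hf2 hv hc (.inr (.inl rfl))
  obtain ⟨h5, h6⟩ := coreT_int M (hv.of_le (by norm_cast)) hv2 hf hc (.inr (.inr rfl))
  have h7 : ∀ x, dens M x * m0 M f x (fderiv ℝ v x) =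
      dens M x * (4 * (f x * Dd (H M v x) (H M v x))) -
        ε / 4 * (coreT M f v v x - coreT M v f v x + coreT M v v f x) := fun x => by
    have b0 := h f v x hf2.contDiffAt hv2.contDiffAt
    have b1 := h0 x _ _ (coreid_alt M x (fderiv ℝ v x) (fderiv ℝ v x)) (isAlt_Om M.J f x)
    have b2 := h0 x _ _ (isAlt_Om M.J f x) (isAlt_Om M.J v x)
    rw [top22_frame (isAlt_Om M.J f x) (isAlt_Om M.J v x), sig_Om M hv2.contDiffAt,
      sig_Om M hf2.contDiffAt, top22_comm] at b2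
    have b3 : coreT M v v f x = top22 (w11 (fderiv ℝ v x) fun U => -fderiv ℝ v x (M.J x U))
      (Om M.J f x) eb + v x * top22 (Om M.J v x) (Om M.J f x) eb := rfl
    rw [b3, m0]
    unfold H Lb at *
    linear_combination (-1 / 4) * b0 - (1 / 4) * b1 - (v x / 4) * b2
  have h8 : Integrable fun x => dens M x * (4 * (f x * Dd (H M v x) (H M v x))) := by
    refine Continuous.integrable_of_hasCompactSupport ?_
      (HasCompactSupport.intro hc fun x hx => by simp [(coreid_out hx).1])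
    have h9 := continuous_H M hv2
    have h10 := hf.continuous
    generalize H M v = G at h9
    unfold Dd
    fun_prop
  simp only [h7]
  have h9 : Integrable fun x => coreT M f v v x - coreT M v f v x := h1.sub h3
  have h10 : Integrable fun x => coreT M f v v x - coreT M v f v x + coreT M v v f x := h9.add h5
  rw [integral_sub h8 (h10.const_mul _), integral_const_mul,
    integral_add h9 h5, integral_sub h1 h3, h2, h4, h6]
  simp

end Pool.Agent.Lib.MP_f2cf74_an
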