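import Mathlib

/-! Statement-level definitions: almost complex structures on open subsets of `ℝ⁴`,
plurisubharmonic functions (through J-holomorphic discs), the operators `∂, ∂bar, θ, θbar`
and the Monge-Ampere current of functions in `W^{1,2}_loc`. -/

open Set Metric MeasureTheory Complex
open scoped ContDiff

noncomputable section

namespace Pool.Agent.Lib.MP_f2cf74_an

/-- The model space `ℝ⁴`. -/
abbrev E := EuclideanSpace ℝ (Fin 4)

/-- `J` is a smooth almost complex structure on `Ω`. -/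
def IsACS (J : E → E →L[ℝ] E) (Ω : Set E) : Prop :=
  ContDiffOn ℝ ∞ J Ω ∧ ∀ x ∈ Ω, ∀ Y, J x (J x Y) = -Y

/-- `l` is a J-holomorphic disc in `Ω`: a `C¹` map of the unit disc into `Ω` with
`dl ∘ i = J ∘ dl`. -/
def IsDisc (J : E → E →L[ℝ] E) (Ω : Set E) (l : ℂ → E) : Prop :=
  ContDiffOn ℝ 1 l (ball 0 1) ∧ MapsTo l (ball 0 1) Ω ∧
    ∀ z ∈ ball (0 : ℂ) 1, ∀ w : ℂ, fderiv ℝ l z (I * w) = J (l z) (fderiv ℝ l z w)

/-- `w : ℂ → [-∞, ∞)` is subharmonic or identically `-∞` on (each component of) the open set `U`: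
upper semicontinuous, and dominated on every closed disc by each function that is continuous on
the closed disc, harmonic inside and dominates `w` on the boundary circle. -/
def IsSubharm (w : ℂ → EReal) (U : Set ℂ) : Prop :=
  UpperSemicontinuousOn w U ∧ (∀ z ∈ U, w z ≠ ⊤) ∧
    ∀ (a : ℂ) (r : ℝ) (h : ℂ → ℝ), 0 < r → closedBall a r ⊆ U → ContinuousOn h (closedBall a r) →
      InnerProductSpace.HarmonicOnNhd h (ball a r) → (∀ z ∈ sphere a r, w z ≤ (h z : EReal)) →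
        ∀ z ∈ ball a r, w z ≤ (h z : EReal)

/-- `u : Ω → [-∞, ∞)` is upper semicontinuous and subharmonic or `≡ -∞` on each J-disc. -/
def IsPSH0 (J : E → E →L[ℝ] E) (Ω : Set E) (u : E → EReal) : Prop :=
  UpperSemicontinuousOn u Ω ∧ (∀ x ∈ Ω, u x ≠ ⊤) ∧
    ∀ l, IsDisc J Ω l → IsSubharm (fun z => u (l z)) (ball 0 1)

/-- `u` is plurisubharmonic on `Ω`: as above, and `u ≢ -∞`. -/
def IsPSH (J : E → E →L[ℝ] E) (Ω : Set E) (u : E → EReal) : Prop :=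
  IsPSH0 J Ω u ∧ ∃ x ∈ Ω, u x ≠ ⊥

/-- Test functions on `Ω`. -/
def IsTest (Ω : Set E) (f : E → ℝ) : Prop :=
  ContDiff ℝ ∞ f ∧ HasCompactSupport f ∧ tsupport f ⊆ Ω

/-- `G` is a weak differential of `v` on `Ω` that is locally square integrable. -/
def IsWeakGrad (Ω : Set E) (v : E → ℝ) (G : E → E →L[ℝ] ℝ) : Prop :=
  (∀ K, IsCompact K → K ⊆ Ω → MemLp G 2 (volume.restrict K)) ∧
    ∀ f, IsTest Ω f → ∀ Y, ∫ x in Ω, v x * fderiv ℝ f x Y = -∫ x in Ω, G x Y * f x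

/-- Complex valued 1-, 2- and 3-forms at a point, as functions of real tangent vectors. -/
abbrev F1 := E → ℂ
abbrev F2 := E → E → ℂ
abbrev F3 := E → E → E → ℂ

/-- Projection in one slot: `s = -I` gives the `(1,0)` part, `s = I` the `(0,1)` part. -/
def pr1 (J0 : E →L[ℝ] E) (s : ℂ) (α : F1) : F1 := fun Y => (α Y + s * α (J0 Y)) / 2

def pr2 (J0 : E →L[ℝ] E) (s t : ℂ) (Φ : F2) : F2 :=
  fun Y Z => pr1 J0 s (fun Y' => pr1 J0 t (Φ Y') Z) Y

def pr3 (J0 : E →L[ℝ] E) (s t r : ℂ) (κ : F3) : F3 :=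
  fun Y Z U => pr1 J0 s (fun Y' => pr2 J0 t r (κ Y') Z U) Y

/-- The parts of bidegree `(1,0)`, `(0,1)`, `(2,0)`, `(0,2)`, `(1,1)`, `(2,1)`. -/
def p10 (J0 : E →L[ℝ] E) (α : F1) : F1 := pr1 J0 (-I) α
def p01 (J0 : E →L[ℝ] E) (α : F1) : F1 := pr1 J0 I α
def p20 (J0 : E →L[ℝ] E) (Φ : F2) : F2 := pr2 J0 (-I) (-I) Φ
def p02 (J0 : E →L[ℝ] E) (Φ : F2) : F2 := pr2 J0 I I Φ
def p11 (J0 : E →L[ℝ] E) (Φ : F2) : F2 := pr2 J0 (-I) I Φ + pr2 J0 I (-I) Φ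
def p21 (J0 : E →L[ℝ] E) (κ : F3) : F3 :=
  pr3 J0 (-I) (-I) I κ + pr3 J0 (-I) I (-I) κ + pr3 J0 I (-I) (-I) κ

/-- A real covector as a complex 1-form. -/
def cx (g : E →L[ℝ] ℝ) : F1 := fun Y => (g Y : ℂ)

/-- Exterior derivative of a 1-form field. -/
def d1 (α : E → F1) (x : E) : F2 :=
  fun Y Z => fderiv ℝ (fun y => α y Z) x Y - fderiv ℝ (fun y => α y Y) x Z

/-- Exterior derivative of a 2-form field. -/
def d2 (Φ : E → F2) (x : E) : F3 :=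
  fun Y Z U => fderiv ℝ (fun y => Φ y Z U) x Y - fderiv ℝ (fun y => Φ y Y U) x Z +
    fderiv ℝ (fun y => Φ y Y Z) x U

/-- `θbar` (an operator of order zero) on a `(1,0)`-form at `x`: minus the `(0,2)` part of `d` of
the `(1,0)`-form field `y ↦ (1,0) part of α at y`, which extends `α`. -/
def thetaBar (J : E → E →L[ℝ] E) (x : E) (α : F1) : F2 :=
  -p02 (J x) (d1 (fun y => p10 (J y) α) x)

/-- `θ` on a `(0,1)`-form at `x`. -/
def theta1 (J : E → E →L[ℝ] E) (x : E) (α : F1) : F2 :=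
  -p20 (J x) (d1 (fun y => p01 (J y) α) x)

/-- `θ` on a `(0,2)`-form at `x`. -/
def theta2 (J : E → E →L[ℝ] E) (x : E) (γ : F2) : F3 :=
  -p21 (J x) (d2 (fun y => p02 (J y) γ) x)

/-- `∂ ∂bar f` for a smooth function `f`. -/
def ddbar (J : E → E →L[ℝ] E) (f : E → ℝ) (x : E) : F2 :=
  p11 (J x) (d1 (fun y => p01 (J y) (cx (fderiv ℝ f y))) x)

/-- Wedge product of two 1-forms. -/
def w11 {R : Type} [CommRing R] (α β : E → R) : E → E → R := fun Y Z => α Y * β Z - α Z * β Y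

/-- Wedge product of two 2-forms, evaluated on four vectors. -/
def top22 {R : Type} [CommRing R] (Φ Ψ : E → E → R) (v : Fin 4 → E) : R :=
  Φ (v 0) (v 1) * Ψ (v 2) (v 3) - Φ (v 0) (v 2) * Ψ (v 1) (v 3) + Φ (v 0) (v 3) * Ψ (v 1) (v 2) +
    Φ (v 1) (v 2) * Ψ (v 0) (v 3) - Φ (v 1) (v 3) * Ψ (v 0) (v 2) + Φ (v 2) (v 3) * Ψ (v 0) (v 1)

/-- Wedge product of a 3-form and a 1-form, evaluated on four vectors. -/
def top31 (κ : F3) (β : F1) (v : Fin 4 → E) : ℂ :=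
  κ (v 0) (v 1) (v 2) * β (v 3) - κ (v 0) (v 1) (v 3) * β (v 2) + κ (v 0) (v 2) (v 3) * β (v 1) -
    κ (v 1) (v 2) (v 3) * β (v 0)

/-- The standard basis of `ℝ⁴`. -/
def eb (i : Fin 4) : E := EuclideanSpace.single i 1

/-- The 2-form `(Y, Z) ↦ ⟪J Y, Z⟫ - ⟪Y, J Z⟫`, a positive `(1,1)`-form. -/
def kf (J0 : E →L[ℝ] E) : E → E → ℝ := fun Y Z => inner ℝ (J0 Y) Z - inner ℝ Y (J0 Z)

/-- `1` if the orientation induced by `J0` is that of the standard basis, `-1` otherwise. -/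
def orient (J0 : E →L[ℝ] E) : ℝ := Real.sign (top22 (kf J0) (kf J0) eb)

/-- The current
`-i∂∂bar(i∂u ∧ ∂bar v) + ∂(∂u ∧ θbar ∂v) + ∂bar(θ ∂bar u ∧ ∂bar v) + θ θbar ∂u ∧ ∂bar v
  - θ ∂bar u ∧ θbar ∂v`
tested against `f` is the integral of this 4-form; `gu`, `gv` are the differentials of `u`, `v`
at `x`.  The derivatives are moved to `f` by `⟨∂R, f⟩ = -∫ ∂f ∧ R`, `⟨∂bar R, f⟩ = -∫ ∂bar f ∧ R`,
`⟨∂∂bar S, f⟩ = ∫ ∂∂bar f ∧ S`. -/
def maDens (J : E → E →L[ℝ] E) (f : E → ℝ) (x : E) (gu gv : E →L[ℝ] ℝ) : ℂ :=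
  -I * top22 (ddbar J f x) (I • w11 (p10 (J x) (cx gu)) (p01 (J x) (cx gv))) eb -
    top22 (w11 (p10 (J x) (cx (fderiv ℝ f x))) (p10 (J x) (cx gu)))
      (thetaBar J x (p10 (J x) (cx gv))) eb -
    top22 (theta1 J x (p01 (J x) (cx gu)))
      (w11 (p01 (J x) (cx (fderiv ℝ f x))) (p01 (J x) (cx gv))) eb +
    f x * (top31 (theta2 J x (thetaBar J x (p10 (J x) (cx gu)))) (p01 (J x) (cx gv)) eb -
      top22 (theta1 J x (p01 (J x) (cx gu))) (thetaBar J x (p10 (J x) (cx gv))) eb)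

/-- The current `i∂∂bar u ∧ i∂∂bar v` on a test function `f`, for weak differentials `Gu`, `Gv`. -/
def maPair (J : E → E →L[ℝ] E) (Ω : Set E) (Gu Gv : E → E →L[ℝ] ℝ) (f : E → ℝ) : ℂ :=
  ∫ x in Ω, (orient (J x) : ℂ) * maDens J f x (Gu x) (Gv x)

/-- The Borel measure `μ`, finite on compact subsets of `Ω`, represents the current
`(i∂∂bar v)²`, where `G` is the weak differential of `v`. -/
def IsMA (J : E → E →L[ℝ] E) (Ω : Set E) (G : E → E →L[ℝ] ℝ) (μ : Measure E) : Prop :=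
  (∀ K, IsCompact K → K ⊆ Ω → μ K < ⊤) ∧
    ∀ f, IsTest Ω f → ((∫ x, f x ∂μ : ℝ) : ℂ) = maPair J Ω G G f

end Pool.Agent.Lib.MP_f2cf74_an
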