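import Pool.Agent.Lib.MP_f2cf74_an.Defs

/-! Statement-level definitions on a smooth 4-manifold. -/

open Set Metric MeasureTheory Complex
open scoped ContDiff Manifold

noncomputable section

namespace Pool.Agent.Lib.MP_f2cf74_an

variable {M : Type*} [TopologicalSpace M] [ChartedSpace E M]

/-- Fields of endomorphisms of the tangent spaces. -/
abbrev EndField (M : Type*) [TopologicalSpace M] [ChartedSpace E M] :=
  (x : M) → TangentSpace 𝓘(ℝ, E) x →L[ℝ] TangentSpace 𝓘(ℝ, E) x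

/-- The expression `de ∘ J ∘ de⁻¹` of `J` in the chart `e`. -/
def chartJ (J : EndField M) (e : OpenPartialHomeomorph M E) (y : E) : E →L[ℝ] E :=
  (mfderiv 𝓘(ℝ, E) 𝓘(ℝ, E) e (e.symm y)).comp
    ((J (e.symm y)).comp (mfderiv 𝓘(ℝ, E) 𝓘(ℝ, E) e.symm y))

/-- `J` is a smooth almost complex structure: `J² = -1`, and `J` is smooth in every chart. -/
def IsACSM (J : EndField M) : Prop :=
  (∀ x Y, J x (J x Y) = -Y) ∧ ∀ e ∈ atlas E M, ContDiffOn ℝ ∞ (chartJ J e) e.target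

/-- J-holomorphic discs in `Ω`. -/
def IsDiscM (J : EndField M) (Ω : Set M) (l : ℂ → M) : Prop :=
  ContMDiffOn 𝓘(ℝ, ℂ) 𝓘(ℝ, E) 1 l (ball 0 1) ∧ MapsTo l (ball 0 1) Ω ∧
    ∀ z ∈ ball (0 : ℂ) 1, ∀ w : ℂ,
      mfderiv 𝓘(ℝ, ℂ) 𝓘(ℝ, E) l z (I * w) = J (l z) (mfderiv 𝓘(ℝ, ℂ) 𝓘(ℝ, E) l z w)

/-- Plurisubharmonic functions `Ω → [-∞, ∞)`. -/
def IsPSHM (J : EndField M) (Ω : Set M) (u : M → EReal) : Prop :=
  UpperSemicontinuousOn u Ω ∧ (∀ x ∈ Ω, u x ≠ ⊤) ∧ (∃ x ∈ Ω, u x ≠ ⊥) ∧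
    ∀ l, IsDiscM J Ω l → IsSubharm (fun z => u (l z)) (ball 0 1)

/-- The image of `Ω` in the chart `e`. -/
def chartSet (e : OpenPartialHomeomorph M E) (Ω : Set M) : Set E := e.target ∩ e.symm ⁻¹' Ω

/-- `μ` is the Monge-Ampere measure `(i∂∂bar v)²` on `Ω`: it is finite on compact subsets, and in
every chart `v` has a locally square integrable weak differential `G` and `μ` acts on test
functions as the current built from `G`. -/
def IsMAM [MeasurableSpace M] (J : EndField M) (Ω : Set M) (v : M → ℝ) (μ : Measure M) : Prop :=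
  (∀ K, IsCompact K → K ⊆ Ω → μ K < ⊤) ∧
    ∀ e ∈ atlas E M, ∃ G, IsWeakGrad (chartSet e Ω) (fun y => v (e.symm y)) G ∧
      ∀ f, IsTest (chartSet e Ω) f →
        ((∫ x in e.source, f (e x) ∂μ : ℝ) : ℂ) = maPair (chartJ J e) (chartSet e Ω) G G f

end Pool.Agent.Lib.MP_f2cf74_an
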