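import Pool.Agent.Lib.MP_f2cf74_an.Pic2
import Pool.Agent.Lib.MP_f2cf74_an.ModB

open Set Metric MeasureTheory Complex Filter Topology
open scoped ContDiff ENNReal NNReal

noncomputable section

namespace Pool.Agent.Lib.MP_f2cf74_an

/-! Existence of small J-discs with almost prescribed direction.  Let `B₀ : F →L[ℝ] E` be
`Bv (J x) X` (inverse of `A x`), `J' z = A x ∘ J (x + B₀ z) ∘ B₀`, so `J' 0 = i`.  With a bump `θ`,
`J'' z = J' (θ z • z)` stays so close to `i` that `i + J'' z` is invertible for all `z`, and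
`J'' = J'` near `0`.  `S z = (i + J'' z)⁻¹ (i - J'' z)` (`ContinuousLinearMap.inverse`,
`contDiffAt_map_inverse`, or `Ring.inverse`) is smooth, antilinear, `S 0 = 0`; `q = S p` means
`i p - i q = J'' (p + q)`.  Put `l ζ = x + B₀ (ε • μ ζ)`. -/

theorem disc_lin {G : Type} [NormedAddCommGroup G] [NormedSpace ℝ G] (D : ℂ →L[ℝ] G)
    (T : G →L[ℝ] G) (hT : ∀ Y, T (T Y) = -Y) (h : D I = T (D 1)) (w : ℂ) :
    D (I * w) = T (D w) := by
  have e1 : w = w.re • (1 : ℂ) + w.im • I := by simp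
  have e2 : I * w = w.re • I - w.im • (1 : ℂ) := by
    apply Complex.ext <;> simp
  rw [e2]
  conv_rhs => rw [e1]
  simp only [map_add, map_neg, map_smul, h, hT, smul_neg, sub_eq_add_neg]

theorem disc_S {G : Type} [NormedAddCommGroup G] [NormedSpace ℝ G] [FiniteDimensional ℝ G]
    {J : G → G →L[ℝ] G} (hJ : ContDiff ℝ ∞ J) (hJJ : ∀ z Y, J z (J z Y) = -Y) :
    ∃ (S : G → G →L[ℝ] G) (δ : ℝ), 0 < δ ∧ ContDiff ℝ ∞ S ∧ S 0 = 0 ∧
      (∀ z w, S z (J 0 w) = -(J 0 (S z w))) ∧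
      ∀ z, ‖z‖ < δ → ∀ p, J 0 p - J 0 (S z p) = J z (p + S z p) := by
  have := FiniteDimensional.complete ℝ G
  obtain ⟨ι, hι⟩ : ∃ ι, ι = J 0 := ⟨_, rfl⟩
  have hsq : ∀ z, J z * J z = -1 := fun z => ContinuousLinearMap.ext fun Y => hJJ z Y
  have hιι : ι * ι = -1 := hι ▸ hsq 0
  have hu : IsUnit (ι + J 0) := by
    rw [← hι]
    refine ⟨⟨ι + ι, (-(1 / 2) : ℝ) • ι, ?_, ?_⟩, rfl⟩
    · rw [mul_smul_comm, add_mul, hιι]
      module
    · rw [smul_mul_assoc, mul_add, hιι]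
      module
  have hc : Continuous fun z => ι + J z := continuous_const.add hJ.continuous
  obtain ⟨r, hr, hball⟩ := Metric.isOpen_iff.1 (Units.isOpen.preimage hc) 0 hu
  let θ : ContDiffBump (0 : G) := ⟨r / 2, r, by positivity, by linarith⟩
  obtain ⟨g, hg⟩ : ∃ g : G → G, g = fun z => θ z • z := ⟨_, rfl⟩
  have hgs : ContDiff ℝ ∞ g := hg ▸ θ.contDiff.smul contDiff_id
  have hgu : ∀ z, IsUnit (ι + J (g z)) := by
    intro z
    refine hball (mem_ball_zero_iff.2 ?_)
    rw [hg]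
    dsimp only
    rcases lt_or_ge ‖z‖ r with h | h
    · rw [norm_smul, Real.norm_of_nonneg θ.nonneg]
      exact (mul_le_of_le_one_left (norm_nonneg _) θ.le_one).trans_lt h
    · rw [θ.zero_of_le_dist (by simpa using h), zero_smul, norm_zero]
      exact hr
  rw [← hι]
  refine ⟨fun z => Ring.inverse (ι + J (g z)) * (ι - J (g z)), r / 2, by positivity, ?_, ?_,
    fun z w => ?_, fun z hz p => ?_⟩
  · refine ContDiff.mul (contDiff_iff_contDiffAt.2 fun z => ?_)
      (contDiff_const.sub (hJ.comp hgs))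
    obtain ⟨u, hu⟩ := hgu z
    exact ContDiffAt.comp (g := Ring.inverse) z (hu ▸ contDiffAt_ringInverse ℝ u)
      (contDiff_const.add (hJ.comp hgs)).contDiffAt
  · simp [hg, hι]
  · have h1 := Ring.inverse_mul_cancel _ (hgu z)
    have h2 := Ring.mul_inverse_cancel _ (hgu z)
    have h3 := hsq (g z)
    beta_reduce
    generalize Ring.inverse (ι + J (g z)) = V at h1 h2 ⊢
    generalize J (g z) = T at h1 h2 h3 ⊢
    have h4 : T * (ι + T) = (ι + T) * ι := by rw [mul_add, add_mul, h3, hιι, add_comm]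
    have h5 : V * T = ι * V := by
      calc V * T = V * (T * (ι + T)) * V := by rw [mul_assoc, mul_assoc, h2, mul_one]
        _ = _ := by rw [h4, ← mul_assoc V, h1, one_mul]
    have h6 : (ι - T) * ι = -(T * (ι - T)) := by
      rw [sub_mul, mul_sub, h3, hιι]
      abel
    have h7 : V * (ι - T) * ι = -(ι * (V * (ι - T))) := by
      rw [mul_assoc, h6, mul_neg, ← mul_assoc, h5, mul_assoc]
    exact congrArg (fun L : G →L[ℝ] G => L w) h7
  · have h1 : g z = z := by
      rw [hg]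
      dsimp only
      rw [θ.one_of_mem_closedBall (mem_closedBall_zero_iff.2 hz.le), one_smul]
    have h2 := Ring.mul_inverse_cancel _ (hgu z)
    beta_reduce
    rw [h1] at h2 ⊢
    have h3 : (ι + J z) * (Ring.inverse (ι + J z) * (ι - J z)) = ι - J z := by
      rw [← mul_assoc, h2, one_mul]
    have h4 := congrArg (fun L : G →L[ℝ] G => L p) h3
    generalize Ring.inverse (ι + J z) * (ι - J z) = W at h4 ⊢
    simp only [ContinuousLinearMap.mul_apply, ContinuousLinearMap.add_apply,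
      ContinuousLinearMap.sub_apply] at h4
    rw [map_add, ← sub_eq_zero, ← neg_eq_zero, ← sub_eq_zero.2 h4]
    abel

theorem exists_disc (M : Model) (x X : E) {η : ℝ} (hη : 0 < η) : ∃ (l : ℂ → E) (ε : ℝ), 0 < ε ∧
    IsDisc M.J (ball x η) l ∧ l 0 = x ∧ ‖fderiv ℝ l 0 1 - ε • X‖ ≤ ε * η := by
  have hb : Function.Bijective (M.A x : E →ₗ[ℝ] F) :=
    ⟨fun Y Y' h => by
      rw [← M.Bv_A x Y, ← M.Bv_A x Y']
      exact congrArg _ h, fun z => ⟨_, M.A_Bv x z⟩⟩
  obtain ⟨e, he⟩ : ∃ e : E ≃L[ℝ] F, ∀ Y, e Y = M.A x Y :=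
    ⟨(LinearEquiv.ofBijective _ hb).toContinuousLinearEquiv, fun _ => rfl⟩
  obtain ⟨B, hB⟩ : ∃ B : F →L[ℝ] E, B = e.symm := ⟨_, rfl⟩
  have hB1 : ∀ Y, B (e Y) = Y := fun Y => by simp [hB]
  have hB2 : ∀ z, e (B z) = z := fun z => by simp [hB]
  obtain ⟨S, δ, hδ, hS, hS0, hSa, hSe⟩ := disc_S
    (J := fun z => (e : E →L[ℝ] F).comp ((M.J (x + B z)).comp B))
    (contDiff_const.clm_comp ((M.smJ.comp (contDiff_const.add B.contDiff)).clm_comp
      contDiff_const))
    (fun z Y => by simp [hB1, hB2, M.JJ])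
  have h0 : ∀ Y, (e : E →L[ℝ] F).comp ((M.J (x + B 0)).comp B) Y = I • Y := fun Y => by
    simp only [map_zero, add_zero, ContinuousLinearMap.comp_apply, ContinuousLinearEquiv.coe_coe]
    rw [he, M.AJ, ← he, hB2]
  simp only [h0] at hSa hSe
  have hn := norm_nonneg B
  obtain ⟨η', hη', h1, h2⟩ : ∃ η', 0 < η' ∧ η' ≤ δ ∧ 2 * (‖B‖ + 1) * η' ≤ η :=
    ⟨min δ (η / (2 * (‖B‖ + 1))), by positivity, min_le_left _ _, by
      rw [mul_comm, ← le_div_iff₀ (by positivity)]
      exact min_le_right _ _⟩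
  obtain ⟨ε, μ, p, hε, hμ, hμ0, hp, hq, H⟩ := picard hS hS0 hSa (e X) hη'
  have hd : ∀ z w, fderiv ℝ (fun ζ => x + B (ε • μ ζ)) z w = B (ε • fderiv ℝ μ z w) := by
    intro z w
    have := (B.hasFDerivAt.comp z
      ((hμ.differentiable one_ne_zero z).hasFDerivAt.const_smul ε)).const_add x
    exact congrArg (fun L : ℂ →L[ℝ] E => L w) this.fderiv
  refine ⟨fun ζ => x + B (ε • μ ζ), ε, hε, ⟨?_, fun z hz => ?_, fun z hz w => ?_⟩, by simp [hμ0], ?_⟩
  · exact (contDiff_const.add (B.contDiff.comp (hμ.const_smul ε))).contDiffOn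
  · rw [mem_ball_iff_norm, add_sub_cancel_left]
    have h3 := B.le_of_opNorm_le_of_le le_rfl (H z hz).1.le
    nlinarith
  · refine disc_lin _ _ (M.JJ _) ?_ w
    have h3 := congrArg B (hSe _ ((H z hz).1.trans_le h1) (p z))
    simp only [ContinuousLinearMap.comp_apply, ContinuousLinearEquiv.coe_coe, hB1] at h3
    rw [hd, hd, (H z hz).2, (H z hz).2, map_smul, map_smul, map_smul]
    simp only [conj_I, neg_smul, map_one, one_smul, ← sub_eq_add_neg]
    rw [h3]
  · rw [hd, (H 0 (mem_ball_self one_pos)).2, map_smul, ← smul_sub, norm_smul,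
      Real.norm_of_nonneg hε.le]
    refine mul_le_mul_of_nonneg_left ?_ hε.le
    simp only [map_one, one_smul]
    have h3 : B (p 0 + S (ε • μ 0) (p 0)) - X = B (p 0 - e X + S (ε • μ 0) (p 0)) := by
      simp only [map_add, map_sub, hB1]
      abel
    have h4 := B.le_of_opNorm_le_of_le le_rfl ((norm_add_le _ _).trans (add_le_add hp hq))
    rw [h3]
    nlinarith

end Pool.Agent.Lib.MP_f2cf74_an
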