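import Pool.Agent.Lib.MP_f2cf74_an.Kp

open Set Metric MeasureTheory Complex Filter Topology
open scoped ContDiff ENNReal NNReal

noncomputable section

namespace Pool.Agent.Lib.MP_f2cf74_an

/-! Fubini for a product of two kernel integrals.  The function
`(x, y, y') ↦ β x * K j x y * K l x y' * α y * γ y'` is integrable on `E × E × E`
(dominated by a product of `‖x - y‖⁻³`, `‖x - y'‖⁻³` on bounded sets); use `integral_prod_mul`,
`integral_integral_swap`, `enorm_integral_le_lintegral_enorm`. -/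

/-- The hypotheses on one kernel. -/
structure Fub3K (C R : ℝ) (K : E → E → ℂ) : Prop where
  ms : Measurable fun q : E × E => K q.1 q.2
  bd : ∀ x y, ‖K x y‖ ≤ C * ‖x - y‖⁻¹ ^ 3
  zero : ∀ x y, R ≤ ‖x - y‖ → K x y = 0

theorem fub3_ms {K : E → E → ℂ} {C R : ℝ} (hK : Fub3K C R K) {f : E → ℂ} (hf : Continuous f)
    (x : E) : Measurable fun y => K x y * f y :=
  (hK.ms.comp measurable_prodMk_left).mul hf.measurable

theorem fub3_one {K : E → E → ℂ} {C R : ℝ} (hK : Fub3K C R K) {f : E → ℂ} (hf : Continuous f)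
    (c : E) (a : ℝ) : ∃ B : ℝ≥0∞, B < ⊤ ∧ ∀ x ∈ ball c a, ∫⁻ y, ‖K x y * f y‖ₑ ≤ B := by
  obtain ⟨C', h⟩ := leb_near 3 (by norm_num) (by norm_num)
  obtain ⟨M, hM⟩ :=
    (isCompact_closedBall c (a + (|R| + 1))).exists_bound_of_continuousOn hf.continuousOn
  refine ⟨ENNReal.ofReal (C * M) * (C' * ENNReal.ofReal ((|R| + 1) ^ (4 - 3))), by finiteness,
    fun x hx => le_trans ?_ (mul_le_mul_right (h x _ (by positivity)) _)⟩
  rw [← lintegral_const_mul' _ _ ENNReal.ofReal_ne_top, ← lintegral_indicator measurableSet_ball]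
  refine lintegral_mono fun y => ?_
  rcases le_or_gt R ‖x - y‖ with h1 | h1
  · simp [hK.zero x y h1]
  have h2 : y ∈ ball x (|R| + 1) := by
    rw [mem_ball', dist_eq_norm]
    linarith [le_abs_self R]
  have h3 : y ∈ closedBall c (a + (|R| + 1)) := by
    rw [mem_closedBall]
    linarith [dist_triangle y x c, mem_ball.1 hx, mem_ball.1 h2]
  rw [indicator_of_mem h2, kp, ← ENNReal.ofReal_mul' (by positivity), ← ofReal_norm,
    norm_mul, mul_right_comm]
  exact ENNReal.ofReal_le_ofReal (mul_le_mul (hK.bd x y) (hM y h3) (norm_nonneg _)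
    ((norm_nonneg _).trans (hK.bd x y)))

theorem fub3_int1 {K : E → E → ℂ} {C R : ℝ} (hK : Fub3K C R K) {f : E → ℂ} (hf : Continuous f)
    (x : E) : Integrable fun y => K x y * f y := by
  obtain ⟨B, hB, h⟩ := fub3_one hK hf x 1
  exact ⟨(fub3_ms hK hf x).aestronglyMeasurable, (h x (mem_ball_self one_pos)).trans_lt hB⟩

theorem fub3_int3 {K L : E → E → ℂ} {C R a : ℝ} {c : E} (hK : Fub3K C R K) (hL : Fub3K C R L)
    {β f g : E → ℂ} (hβ : Measurable β) (hβb : ∀ x, ‖β x‖ ≤ C) (hβ0 : ∀ x, x ∉ ball c a → β x = 0)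
    (hf : Continuous f) (hg : Continuous g) :
    Integrable (fun q : E × E × E => β q.1 * (K q.1 q.2.1 * f q.2.1 * (L q.1 q.2.2 * g q.2.2)))
      (volume.prod (volume.prod volume)) := by
  obtain ⟨B, hB, h⟩ := fub3_one hK hf c a
  obtain ⟨B', hB', h'⟩ := fub3_one hL hg c a
  refine ⟨Measurable.aestronglyMeasurable ((hβ.comp measurable_fst).mul
    (((hK.ms.comp (measurable_fst.prodMk measurable_snd.fst)).mul
      (hf.measurable.comp measurable_snd.fst)).mul
    ((hL.ms.comp (measurable_fst.prodMk measurable_snd.snd)).mul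
      (hg.measurable.comp measurable_snd.snd)))), (lintegral_prod_le _).trans_lt ?_⟩
  refine lt_of_le_of_lt (lintegral_mono (g := (ball c a).indicator fun _ =>
    ENNReal.ofReal C * (B * B')) fun x => ?_) ?_
  · by_cases hx : x ∈ ball c a
    · simp only [enorm_mul (β x), enorm_mul (K x _ * f _)]
      rw [indicator_of_mem hx, lintegral_const_mul' _ _ enorm_ne_top,
        lintegral_prod_mul (f := fun y => ‖K x y * f y‖ₑ) (g := fun y => ‖L x y * g y‖ₑ)
          (fub3_ms hK hf x).enorm.aemeasurable (fub3_ms hL hg x).enorm.aemeasurable,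
        ← ofReal_norm]
      exact mul_le_mul' (ENNReal.ofReal_le_ofReal (hβb x)) (mul_le_mul' (h x hx) (h' x hx))
    · simp [hβ0 x hx]
  · rw [lintegral_indicator measurableSet_ball, setLIntegral_const]
    exact ENNReal.mul_lt_top (by finiteness) measure_ball_lt_top

theorem fub3 {K : Fin 2 → E → E → ℂ} {β : E → ℂ} {α γ : E → Fin 2 → Fin 2 → ℂ} {C R a : ℝ} {c : E}
    (hK : ∀ j, Measurable fun q : E × E => K j q.1 q.2)
    (hKb : ∀ j x y, ‖K j x y‖ ≤ C * ‖x - y‖⁻¹ ^ 3) (hK0 : ∀ j x y, R ≤ ‖x - y‖ → K j x y = 0)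
    (hβ : Measurable β) (hβb : ∀ x, ‖β x‖ ≤ C) (hβ0 : ∀ x, x ∉ ball c a → β x = 0)
    (hα : ∀ j k, Continuous fun y => α y j k) (hγ : ∀ j k, Continuous fun y => γ y j k) :
    Integrable (fun x => β x * ((∫ y, ∑ j, K j x y * α y j 0) * (∫ y, ∑ j, K j x y * γ y j 1) -
      (∫ y, ∑ j, K j x y * α y j 1) * (∫ y, ∑ j, K j x y * γ y j 0))) ∧
    ‖∫ x, β x * ((∫ y, ∑ j, K j x y * α y j 0) * (∫ y, ∑ j, K j x y * γ y j 1) -
      (∫ y, ∑ j, K j x y * α y j 1) * (∫ y, ∑ j, K j x y * γ y j 0))‖ₑ ≤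
      ∑ j, ∑ l, ∫⁻ y, ∫⁻ y', ‖∫ x, β x * (K j x y * K l x y')‖ₑ *
        ‖α y j 0 * γ y' l 1 - α y j 1 * γ y' l 0‖ₑ := by
  have hk : ∀ j, Fub3K C R (K j) := fun j => ⟨hK j, hKb j, hK0 j⟩
  let G : Fin 2 → Fin 2 → E → E × E → ℂ := fun j l x p =>
    β x * (K j x p.1 * K l x p.2) * (α p.1 j 0 * γ p.2 l 1 - α p.1 j 1 * γ p.2 l 0)
  have hG : ∀ j l, Integrable (Function.uncurry (G j l)) (volume.prod (volume.prod volume)) :=
    fun j l => ((fub3_int3 (hk j) (hk l) hβ hβb hβ0 (hα j 0) (hγ l 1)).sub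
      (fub3_int3 (hk j) (hk l) hβ hβb hβ0 (hα j 1) (hγ l 0))).congr
        (Eventually.of_forall fun q => by simp only [G, Function.uncurry, Pi.sub_apply]; ring)
  have h1 : ∀ j l x, ∫ p, G j l x p ∂(volume.prod volume) =
      β x * ((∫ y, K j x y * α y j 0) * (∫ y, K l x y * γ y l 1) -
        (∫ y, K j x y * α y j 1) * ∫ y, K l x y * γ y l 0) := fun j l x => by
    rw [← integral_prod_mul, ← integral_prod_mul, ← integral_sub
      ((fub3_int1 (hk j) (hα j 0) x).mul_prod (fub3_int1 (hk l) (hγ l 1) x))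
      ((fub3_int1 (hk j) (hα j 1) x).mul_prod (fub3_int1 (hk l) (hγ l 0) x)), ← integral_const_mul]
    exact integral_congr_ae (Eventually.of_forall fun p => by simp only [G]; ring)
  have h2 : (fun x => β x * ((∫ y, ∑ j, K j x y * α y j 0) * (∫ y, ∑ j, K j x y * γ y j 1) -
      (∫ y, ∑ j, K j x y * α y j 1) * (∫ y, ∑ j, K j x y * γ y j 0))) =
      fun x => ∑ j, ∑ l, ∫ p, G j l x p ∂(volume.prod volume) := by
    funext x
    rw [integral_finsetSum _ fun j _ => fub3_int1 (hk j) (hα j 0) x,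
      integral_finsetSum _ fun j _ => fub3_int1 (hk j) (hα j 1) x,
      integral_finsetSum _ fun j _ => fub3_int1 (hk j) (hγ j 0) x,
      integral_finsetSum _ fun j _ => fub3_int1 (hk j) (hγ j 1) x]
    simp only [h1, Fin.sum_univ_two]
    ring
  have h3 : ∀ j l, Integrable fun x => ∫ p, G j l x p ∂(volume.prod volume) :=
    fun j l => (hG j l).integral_prod_left
  have h4 : ∀ j, Integrable fun x => ∑ l, ∫ p, G j l x p ∂(volume.prod volume) :=
    fun j => integrable_finsetSum _ fun l _ => h3 j l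
  rw [h2]
  refine ⟨integrable_finsetSum _ fun j _ => h4 j, ?_⟩
  rw [integral_finsetSum _ fun j _ => h4 j]
  refine (enorm_sum_le _ _).trans (Finset.sum_le_sum fun j _ => ?_)
  rw [integral_finsetSum _ fun l _ => h3 j l]
  refine (enorm_sum_le _ _).trans (Finset.sum_le_sum fun l _ => ?_)
  rw [integral_integral_swap (hG j l)]
  refine (enorm_integral_le_lintegral_enorm _).trans ((lintegral_prod_le _).trans_eq ?_)
  simp only [G, integral_mul_const, enorm_mul]

end Pool.Agent.Lib.MP_f2cf74_an
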