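import Pool.Agent.Lib.MP_f2cf74_an.Gam
import Pool.Agent.Lib.MP_f2cf74_an.Fub3

open Set Metric MeasureTheory Complex Filter Topology
open scoped ContDiff ENNReal NNReal

noncomputable section

namespace Pool.Agent.Lib.MP_f2cf74_an

/-! The main part of the term `E₂`.  `fub3`; the inner integral vanishes unless
`y, y' ∈ ball c (a + K s)` and `‖y - y'‖ < 2 K s ≤ δ`; there use `gam_bound` (with `a'` in place of
`a`) and `wedge_amgm` with `t = ρ (-log ρ)`; the first part is bounded by `pot` and `mass`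
(`swap_pot`), the second is the hypothesis. -/

theorem e2b_pt {α γ : Fin 2 → Fin 2 → ℂ} (hα : PSD α) (hγ : PSD γ) (j l : Fin 2) {ρ : ℝ}
    (h0 : 0 < ρ) (h1 : ρ ≤ 1 / 2) :
    ENNReal.ofReal (ρ⁻¹ ^ 3 / (-Real.log ρ)) * ‖α j 0 * γ l 1 - α j 1 * γ l 0‖ₑ ≤
      ENNReal.ofReal (tr α) * (ENNReal.ofReal (ρ⁻¹ ^ 2) * ENNReal.ofReal (tr γ)) +
        ENNReal.ofReal (ρ⁻¹ ^ 4 / Real.log ρ ^ 2) * ENNReal.ofReal (Dd α γ) := by
  have hl : 0 < -Real.log ρ := neg_pos.2 (Real.log_neg h0 (by linarith))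
  have h2 := wedge_amgm hα hγ j l (ρ * -Real.log ρ) (mul_pos h0 hl)
  have t1 := hα.tr_nonneg
  have t2 := hγ.tr_nonneg
  have t3 := hα.Dd_nonneg hγ
  have hl' : Real.log ρ ≠ 0 := by linarith
  rw [← ofReal_norm, ← ENNReal.ofReal_mul (by positivity),
    ← ENNReal.ofReal_mul (by positivity), ← ENNReal.ofReal_mul t1,
    ← ENNReal.ofReal_mul (by positivity), ← ENNReal.ofReal_add (by positivity) (by positivity)]
  refine ENNReal.ofReal_le_ofReal ((mul_le_mul_of_nonneg_left h2 (by positivity)).trans ?_)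
  have e : ρ⁻¹ ^ 3 / (-Real.log ρ) *
      ((ρ * -Real.log ρ * (tr α * tr γ) + Dd α γ / (ρ * -Real.log ρ)) / 2) =
      (tr α * (ρ⁻¹ ^ 2 * tr γ) + ρ⁻¹ ^ 4 / Real.log ρ ^ 2 * Dd α γ) / 2 := by
    field_simp
    ring
  rw [e]
  exact half_le_self (by positivity)

theorem e2b_zero (M : Model) {c : E} {a a' s δ : ℝ} (hs : 0 < s) (haa : a + M.K * s ≤ a')
    (hδ : 2 * (M.K * s) ≤ δ) {β : E → ℂ} (hβ : ∀ x, x ∉ ball c a → β x = 0) (j l : Fin 2)
    {y y' : E} (h : y ∉ ball c a' ∨ y' ∉ ball c a' ∨ y' ∉ ball y δ) :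
    ∫ x, β x * (Kk M s j x y * Kk M s l x y') = 0 := by
  have key : ∀ x z : E, x ∈ ball c a → z ∉ ball c a' → M.K * s ≤ ‖x - z‖ := by
    intro x z hx hz
    rw [mem_ball] at hx
    rw [mem_ball, not_lt] at hz
    have h1 := dist_triangle z x c
    rw [dist_comm z x, dist_eq_norm x z] at h1
    linarith
  refine integral_eq_zero_of_ae (Filter.Eventually.of_forall fun x => ?_)
  show β x * (Kk M s j x y * Kk M s l x y') = 0
  by_cases hx : x ∈ ball c a
  · rcases h with h | h | h
    · rw [Kk_zero M hs j (key x y hx h), zero_mul, mul_zero]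
    · rw [Kk_zero M hs l (key x y' hx h), mul_zero, mul_zero]
    · rw [mem_ball, not_lt] at h
      have h1 := dist_triangle y' x y
      rw [dist_comm y' x, dist_eq_norm x y', dist_eq_norm x y] at h1
      by_cases h2 : M.K * s ≤ ‖x - y‖
      · rw [Kk_zero M hs j h2, zero_mul, mul_zero]
      · rw [Kk_zero M hs l (x := x) (y := y') (by linarith), mul_zero, mul_zero]
  · rw [hβ x hx, zero_mul]

theorem e2b (M : Model) (c : E) {a a' b s δ : ℝ} (ha : 0 < a) (hs : 0 < s) (hs2 : s ≤ 1 / 2)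
    (haa : a + M.K * s ≤ a') (hab : a' + M.K * s < b) (hδ : 2 * (M.K * s) ≤ δ) (hδ2 : δ ≤ 1 / 2)
    (B L : ℝ) : ∃ C : ℝ≥0, ∀ (u v : E → ℝ) (β : Fin 2 → E → ℂ), UOK M c b u → VOK M c b B v →
    (∀ n, Measurable (β n)) → (∀ n, LipB c b L (β n)) → (∀ n x, x ∉ ball c a → β n x = 0) →
    Integrable (fun x => (∑ n, β n x * Lb M n v x) *
      (AH M s 0 u x * AH M s 1 v x - AH M s 1 u x * AH M s 0 v x)) ∧
    ‖∫ x, (∑ n, β n x * Lb M n v x) *
      (AH M s 0 u x * AH M s 1 v x - AH M s 1 u x * AH M s 0 v x)‖ₑ ≤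
      C * (nU c b u + ∫⁻ y in ball c a', ∫⁻ y' in ball y δ, wW y y' * eD M u v y y') := by
  have hKs : 0 < M.K * s := mul_pos M.K_pos hs
  have ha' : 0 < a' := by linarith
  have hb' : a' < b := by linarith
  obtain ⟨Cg, hg⟩ := gam_bound M c ha' hs hs2 hab B L
  obtain ⟨Cp, hp⟩ := pot M c ha' hb' B
  obtain ⟨Cm, hm⟩ := mass M c ha' hb'
  obtain ⟨Ck, hCk, hk⟩ := Kk_bound M
  refine ⟨4 * (Cg * (Cp * Cm + 1)), fun u v β hu hv hβm hβl hβ0 => ?_⟩
  have hu2 : ContDiff ℝ 2 u := hu.sm.of_le (by norm_num)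
  have hv2 : ContDiff ℝ 2 v := hv.sm.of_le (by norm_num)
  have hLc : ∀ n, Continuous (Lb M n v) := fun n => (contDiff_Lb M hv2 n).continuous
  have hβ0' : ∀ x, x ∉ ball c a → ∑ n, β n x * Lb M n v x = 0 := fun x hx =>
    Finset.sum_eq_zero fun n _ => by rw [hβ0 n x hx, zero_mul]
  obtain ⟨D, hD⟩ : ∃ D : ℝ, ∀ x, ‖∑ n, β n x * Lb M n v x‖ ≤ D := by
    choose D hD using fun n =>
      (isCompact_closedBall c a).exists_bound_of_continuousOn (hLc n).continuousOn
    refine ⟨max 0 (∑ n, L * D n), fun x => ?_⟩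
    by_cases hx : x ∈ ball c a
    · refine le_max_of_le_right ((norm_sum_le _ _).trans (Finset.sum_le_sum fun n _ => ?_))
      have h1 := (hβl n).1 x (ball_subset_ball (by linarith) hx)
      rw [norm_mul]
      exact mul_le_mul h1 (hD n x (ball_subset_closedBall hx)) (norm_nonneg _)
        ((norm_nonneg _).trans h1)
    · rw [hβ0' x hx, norm_zero]
      exact le_max_left _ _
  obtain ⟨h1, h2⟩ := fub3 (K := Kk M s) (β := fun x => ∑ n, β n x * Lb M n v x) (α := H M u)
    (γ := H M v) (C := max Ck D) (R := M.K * s) (a := a) (c := c) (measurable_Kk M s)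
    (fun j x y => (hk s j x y hs).trans
      (mul_le_mul_of_nonneg_right (le_max_left _ _) (by positivity)))
    (fun j x y h => Kk_zero M hs j h)
    (Finset.measurable_sum _ fun n _ => (hβm n).mul (hLc n).measurable)
    (fun x => (hD x).trans (le_max_right _ _)) hβ0' (continuous_H M hu2) (continuous_H M hv2)
  refine ⟨h1, h2.trans ?_⟩
  set W : E → ℝ≥0∞ := fun y => ∫⁻ y' in ball y δ, wW y y' * eD M u v y y' with hW
  have inner : ∀ j l : Fin 2, ∀ y ∈ ball c a',
      ∫⁻ y', ‖∫ x, (∑ n, β n x * Lb M n v x) * (Kk M s j x y * Kk M s l x y')‖ₑ *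
        ‖H M u y j 0 * H M v y' l 1 - H M u y j 1 * H M v y' l 0‖ₑ ≤
      Cg * (Cp * eT M u y + W y) := by
    intro j l y hy
    have hmk : Measurable fun y' => kp 2 y y' * eT M v y' :=
      ((measurable_kp 2).comp measurable_prodMk_left).mul (measurable_eT M hv2)
    have hne : ∀ᵐ y' : E, y' ≠ y := by
      simp [ae_iff]
    calc _ ≤ ∫⁻ y', ((ball c a').indicator
            (fun y' => (Cg * eT M u y) * (kp 2 y y' * eT M v y')) y' +
          (ball y δ).indicator (fun y' => Cg * (wW y y' * eD M u v y y')) y') := by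
          refine lintegral_mono_ae (hne.mono fun y' hy' => ?_)
          by_cases h3 : y' ∈ ball c a' ∧ y' ∈ ball y δ
          · rw [indicator_of_mem h3.1, indicator_of_mem h3.2]
            have h4 : ‖y - y'‖ ≤ 1 / 2 := by
              have h5 := h3.2
              rw [mem_ball, dist_comm, dist_eq_norm] at h5
              linarith
            have h6 := e2b_pt (psd_H M hu.psh (ball_subset_ball hb'.le hy))
              (psd_H M hv.psh (ball_subset_ball hb'.le h3.1)) j l
              (norm_pos_iff.2 (sub_ne_zero.2 hy'.symm)) h4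
            refine (mul_le_mul_left (hg v β hv hβm hβl y hy y' h3.1 hy'.symm h4 j l) _).trans ?_
            rw [mul_assoc, mul_assoc, ← mul_add]
            exact mul_le_mul_right h6 _
          · rw [e2b_zero M hs haa hδ hβ0' j l (Or.inr (not_and_or.1 h3)), enorm_zero, zero_mul]
            exact zero_le
      _ = Cg * eT M u y * (∫⁻ y' in ball c a', kp 2 y y' * eT M v y') + Cg * W y := by
          rw [lintegral_add_left ((hmk.const_mul _).indicator measurableSet_ball),
            lintegral_indicator measurableSet_ball, lintegral_indicator measurableSet_ball,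
            lintegral_const_mul _ hmk, lintegral_const_mul' _ _ ENNReal.coe_ne_top]
      _ ≤ Cg * eT M u y * Cp + Cg * W y := by
          gcongr
          exact hp v hv y hy
      _ = Cg * (Cp * eT M u y + W y) := by ring
  have outer : ∀ j l : Fin 2,
      ∫⁻ y, ∫⁻ y', ‖∫ x, (∑ n, β n x * Lb M n v x) * (Kk M s j x y * Kk M s l x y')‖ₑ *
        ‖H M u y j 0 * H M v y' l 1 - H M u y j 1 * H M v y' l 0‖ₑ ≤
      Cg * (Cp * Cm + 1) * (nU c b u + ∫⁻ y in ball c a', W y) := by
    intro j l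
    calc _ ≤ ∫⁻ y, (ball c a').indicator (fun y => Cg * (Cp * eT M u y + W y)) y := by
          refine lintegral_mono fun y => ?_
          by_cases hy : y ∈ ball c a'
          · rw [indicator_of_mem hy]
            exact inner j l y hy
          · simp only [fun y' => e2b_zero M hs haa hδ hβ0' j l (y := y) (y' := y') (Or.inl hy),
              enorm_zero, zero_mul, lintegral_zero]
            exact zero_le
      _ = Cg * (Cp * (∫⁻ y in ball c a', eT M u y) + ∫⁻ y in ball c a', W y) := by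
          rw [lintegral_indicator measurableSet_ball,
            lintegral_const_mul' _ _ ENNReal.coe_ne_top,
            lintegral_add_left ((measurable_eT M hu2).const_mul _),
            lintegral_const_mul' _ _ ENNReal.coe_ne_top]
      _ ≤ Cg * (Cp * (Cm * nU c b u) + ∫⁻ y in ball c a', W y) := by
          gcongr
          exact hm u hu
      _ ≤ Cg * (Cp * Cm + 1) * (nU c b u + ∫⁻ y in ball c a', W y) := by
          rw [mul_assoc, mul_add ((Cp : ℝ≥0∞) * Cm + 1), ← mul_assoc (Cp : ℝ≥0∞)]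
          gcongr
          · exact le_self_add
          · exact le_mul_of_one_le_left' le_add_self
  refine (Finset.sum_le_sum fun j _ => Finset.sum_le_sum fun l _ => outer j l).trans (le_of_eq ?_)
  simp only [Fin.sum_univ_two]
  push_cast
  ring

end Pool.Agent.Lib.MP_f2cf74_an
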