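import Pool.Agent.Lib.MP_f2cf74_an.Jet

open Set Metric MeasureTheory Complex Filter Topology
open scoped ContDiff ENNReal NNReal

noncomputable section

namespace Pool.Agent.Lib.MP_f2cf74_an

/-! Stability of viscosity subsolutions.  Use `visc_of_exact`.  Let
`φ y = p (y - x) + A (y - x) (y - x) / 2` and `W y ≤ W x + φ y` on `closedBall x r₀ ⊆ ball x ρ`.
Fix `ε > 0`.  For `η → 0` maximise the usc function `s - φ - ε ‖· - x‖²` over `closedBall x r₀`
(`UpperSemicontinuousOn.exists_isMaxOn`) at `z`; then `ε ‖z - x‖² ≤ η + |φ y| + ε η²`, so `z → x`,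
and `s` has at `z` the superjet of the smooth function `φ + ε ‖· - x‖²` (`peano2`, `SJ.of_le`);
`levi` of that function is continuous in the point.  Then let `ε → 0`. -/

theorem stab_sj {s : E → ℝ} {x z : E} {p : E →L[ℝ] ℝ} {B : E →L[ℝ] E →L[ℝ] ℝ}
    (h : ∀ᶠ y in 𝓝 z, s y - (p (y - x) + B (y - x) (y - x) / 2) ≤
      s z - (p (z - x) + B (z - x) (z - x) / 2)) :
    SJ s z (p + (1 / 2 : ℝ) • (B (z - x) + B.flip (z - x))) B := by
  intro ε hε
  filter_upwards [h] with y hy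
  rw [show y - x = (y - z) + (z - x) by abel] at hy
  simp only [map_add, add_apply, smul_apply,
    ContinuousLinearMap.flip_apply, smul_eq_mul] at hy ⊢
  have : 0 ≤ ε * ‖y - z‖ ^ 2 := by positivity
  linarith

theorem stab_cont (M : Model) (x Y : E) (p : E →L[ℝ] ℝ) (B : E →L[ℝ] E →L[ℝ] ℝ) :
    Continuous fun z => jetL M.J z (p + (1 / 2 : ℝ) • (B (z - x) + B.flip (z - x))) B Y := by
  have h1 : Continuous M.J := M.smJ.continuous
  have h2 : Continuous (fderiv ℝ M.J) := M.smJ.continuous_fderiv (by simp)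
  unfold jetL beta
  fun_prop

theorem stab_eps (M : Model) {W : E → ℝ} {x : E} {ρ e : ℝ} (hρ : 0 < ρ)
    (h : ∀ η > 0, ∃ (s : E → ℝ) (y : E), ‖y - x‖ < η ∧ W x - η < s y ∧
      UpperSemicontinuousOn s (ball x ρ) ∧ (∀ z ∈ ball x ρ, Visc M.J s z e) ∧
      ∀ z ∈ ball x ρ, s z ≤ W z) {p : E →L[ℝ] ℝ} {B : E →L[ℝ] E →L[ℝ] ℝ} {ε : ℝ} (hε : 0 < ε)
    (hW : ∀ᶠ y in 𝓝 x, W y ≤ W x + (p (y - x) + B (y - x) (y - x) / 2) - ε * ‖y - x‖ ^ 2)
    (Y : E) : -(e * ‖Y‖ ^ 2) ≤ jetL M.J x p B Y := by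
  refine le_of_forall_gt_imp_ge_of_dense fun c hc => ?_
  have h1 := (stab_cont M x Y p B).continuousAt (x := x) |>.eventually_lt_const (u := c)
    (by simpa using hc)
  obtain ⟨r, hr, h2⟩ := Metric.nhds_basis_closedBall.eventually_iff.1
    ((h1.and hW).and (ball_mem_nhds x hρ))
  set q : E → ℝ := fun y => p (y - x) + B (y - x) (y - x) / 2 with hq
  have hqc : Continuous q := by fun_prop
  have hr2 : 0 < ε * r ^ 2 / 2 := by positivity
  obtain ⟨δ, hδ, h3⟩ := Metric.eventually_nhds_iff.1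
    (hqc.continuousAt (x := x) |>.eventually_lt_const (u := ε * r ^ 2 / 2) (by simpa [hq] using hr2))
  obtain ⟨s, y, hy, hs, husc, hv, hle⟩ := h (min (min δ r) (ε * r ^ 2 / 2)) (by positivity)
  have hsub : closedBall x r ⊆ ball x ρ := fun z hz => (h2 hz).2
  have hy1 : y ∈ closedBall x r := mem_closedBall_iff_norm.2
    (hy.le.trans ((min_le_left _ _).trans (min_le_right _ _)))
  have hy2 : q y < ε * r ^ 2 / 2 := h3 (by
    rw [dist_eq_norm]
    exact hy.trans_le ((min_le_left _ _).trans (min_le_left _ _)))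
  obtain ⟨z, hz, hmax⟩ := UpperSemicontinuousOn.exists_isMaxOn ⟨x, mem_closedBall_self hr.le⟩
    (isCompact_closedBall x r) ((husc.mono hsub).add
      (hqc.neg.continuousOn.upperSemicontinuousOn (s := closedBall x r)))
  have h4 : s y + -q y ≤ s z + -q z := hmax hy1
  have h5 : ε * ‖z - x‖ ^ 2 < ε * r ^ 2 := by
    have a1 := hle z (hsub hz)
    have a2 : W z ≤ W x + q z - ε * ‖z - x‖ ^ 2 := (h2 hz).1.2
    linarith [min_le_right (min δ r) (ε * r ^ 2 / 2)]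
  have h6 : z ∈ ball x r := mem_ball_iff_norm.2
    (lt_of_pow_lt_pow_left₀ 2 hr.le (lt_of_mul_lt_mul_left h5 hε.le))
  refine (hv z (hsub hz) _ _ (stab_sj (x := x) (p := p) (B := B) ?_) Y).trans (h2 hz).1.1.le
  filter_upwards [isOpen_ball.mem_nhds h6] with w hw
  have : s w + -q w ≤ s z + -q z := hmax (ball_subset_closedBall hw)
  simp only [hq] at this
  linarith

theorem stab (M : Model) {W : E → ℝ} {x : E} {ρ e : ℝ} (hρ : 0 < ρ)
    (h : ∀ η > 0, ∃ (s : E → ℝ) (y : E), ‖y - x‖ < η ∧ W x - η < s y ∧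
      UpperSemicontinuousOn s (ball x ρ) ∧ (∀ z ∈ ball x ρ, Visc M.J s z e) ∧
      ∀ z ∈ ball x ρ, s z ≤ W z) : Visc M.J W x e := by
  refine visc_of_exact fun p A hW Y => ?_
  obtain ⟨N, hN⟩ : ∃ N : E →L[ℝ] E →L[ℝ] ℝ, ∀ Y, N Y Y = ‖Y‖ ^ 2 :=
    ⟨innerSL ℝ, fun Y => real_inner_self_eq_norm_sq Y⟩
  have key : ∀ ε > 0, -(e * ‖Y‖ ^ 2) ≤
      jetL M.J x p A Y + ε * (2 * (‖Y‖ ^ 2 + ‖M.J x Y‖ ^ 2)) := fun ε hε => by
    refine (stab_eps M hρ h (p := p) (B := A + (2 * ε) • N) hε ?_ Y).trans (le_of_eq ?_)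
    · filter_upwards [hW] with y hy
      simp only [add_apply, smul_apply, hN, smul_eq_mul]
      linarith
    · simp only [jetL, add_apply, smul_apply, hN,
        smul_eq_mul]
      ring
  have hc : Continuous fun ε : ℝ => jetL M.J x p A Y + ε * (2 * (‖Y‖ ^ 2 + ‖M.J x Y‖ ^ 2)) := by
    fun_prop
  simpa using ge_of_tendsto ((hc.tendsto 0).mono_left (nhdsWithin_le_nhds (s := Ioi 0)))
    (eventually_mem_nhdsWithin.mono key)

/-- Upper semicontinuous envelope of a bounded function on an open set. -/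
theorem usc_env {W : E → ℝ} {U : Set E} (hU : IsOpen U) {B : ℝ} (hB : ∀ x ∈ U, |W x| ≤ B) :
    ∃ W' : E → ℝ, UpperSemicontinuousOn W' U ∧ (∀ x ∈ U, W x ≤ W' x) ∧
      ∀ x ∈ U, ∀ η > 0, ∃ y ∈ U, ‖y - x‖ < η ∧ W' x - η < W y := by
  have hb : ∀ x, BddBelow {b | ∀ᶠ y in 𝓝 x, W y ≤ b} := fun x =>
    ⟨W x, fun b hb => Eventually.self_of_nhds (p := fun y => W y ≤ b) hb⟩
  have hn : ∀ x ∈ U, {b | ∀ᶠ y in 𝓝 x, W y ≤ b}.Nonempty := fun x hx =>
    ⟨B, (hU.eventually_mem hx).mono fun y hy => (le_abs_self _).trans (hB y hy)⟩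
  refine ⟨fun x => sInf {b | ∀ᶠ y in 𝓝 x, W y ≤ b}, fun x hx c hc => ?_, fun x hx =>
    le_csInf (hn x hx) fun b hb => Eventually.self_of_nhds (p := fun y => W y ≤ b) hb,
    fun x hx η hη => ?_⟩
  · obtain ⟨b, h1, h2⟩ := exists_lt_of_csInf_lt (hn x hx) hc
    exact ((eventually_eventually_nhds.2 h1).mono fun y hy =>
      (csInf_le (hb y) hy).trans_lt h2).filter_mono nhdsWithin_le_nhds
  · by_contra hc
    push Not at hc
    have : sInf {b | ∀ᶠ y in 𝓝 x, W y ≤ b} ≤ sInf {b | ∀ᶠ y in 𝓝 x, W y ≤ b} - η := by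
      refine csInf_le (hb x) ?_
      filter_upwards [hU.mem_nhds hx, ball_mem_nhds x hη] with y h1 h2
      exact hc y h1 (mem_ball_iff_norm.1 h2)
    linarith

end Pool.Agent.Lib.MP_f2cf74_an
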