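import Pool.Agent.Lib.MP_f2cf74_an.ScV
import Pool.Agent.Lib.MP_f2cf74_an.Stab

open Set Metric MeasureTheory Complex Filter Topology
open scoped ContDiff ENNReal NNReal

noncomputable section

namespace Pool.Agent.Lib.MP_f2cf74_an

/-! The envelope below a continuous obstacle.  Let `𝓕` be the functions that are usc on
`ball c R`, `Visc .. 0` there and `≤ f` there; `W₀ = sup 𝓕`; its usc envelope (`usc_env`) lies in
`𝓕` (`stab`; continuity of `f`), hence equals `W₀`.  `W = W₀` on `ball c R`, `W = w` outside; near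
points with `R₄ < ‖x - c‖` it equals `w`.  With `m δ = sup over ball c R of (supc W δ - W)` the
function `supc W δ + C m (2 δ) (‖x - c‖² - R²) - η` lies in `𝓕` (`supc_visc`, `levi_rho`,
`Visc.add_smooth`, `supc_unif`, `supc_mono`), so `m δ ≤ m (2 δ) / 2 + η` when `C R² ≤ 1/2`.
Iterate and use `supc_mono_delta`. -/

/-- The largest subsolution below a continuous obstacle on an open set. -/
theorem env_max (M : Model) {U : Set E} (hU : IsOpen U) {B : ℝ} {w f : E → ℝ}
    (hw1 : UpperSemicontinuousOn w U) (hw2 : ∀ x ∈ U, Visc M.J w x 0) (hf : ContinuousOn f U)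
    (hwf : ∀ x ∈ U, w x ≤ f x) (hwB : ∀ x ∈ U, |w x| ≤ B) (hfB : ∀ x ∈ U, |f x| ≤ B) :
    ∃ W : E → ℝ, UpperSemicontinuousOn W U ∧ (∀ x ∈ U, Visc M.J W x 0) ∧ (∀ x ∈ U, W x ≤ f x) ∧
      ∀ s : E → ℝ, UpperSemicontinuousOn s U → (∀ x ∈ U, Visc M.J s x 0) →
        (∀ x ∈ U, s x ≤ f x) → ∀ x ∈ U, s x ≤ W x := by
  set P : Set (E → ℝ) := {s | UpperSemicontinuousOn s U ∧ (∀ x ∈ U, Visc M.J s x 0) ∧
    ∀ x ∈ U, s x ≤ f x} with hP
  have hwP : w ∈ P := ⟨hw1, hw2, hwf⟩
  set W₀ : E → ℝ := fun x => sSup ((fun s : E → ℝ => s x) '' P) with hW₀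
  have hne : ∀ x, ((fun s : E → ℝ => s x) '' P).Nonempty := fun x => ⟨_, w, hwP, rfl⟩
  have hub : ∀ x ∈ U, f x ∈ upperBounds ((fun s : E → ℝ => s x) '' P) := by
    rintro x hx _ ⟨s, hs, rfl⟩
    exact hs.2.2 x hx
  have h1 : ∀ s ∈ P, ∀ x ∈ U, s x ≤ W₀ x := fun s hs x hx => le_csSup ⟨_, hub x hx⟩ ⟨s, hs, rfl⟩
  have h2 : ∀ x ∈ U, W₀ x ≤ f x := fun x hx => csSup_le (hne x) (hub x hx)
  have h3 : ∀ x ∈ U, |W₀ x| ≤ B := fun x hx => abs_le.2
    ⟨(abs_le.1 (hwB x hx)).1.trans (h1 w hwP x hx), (h2 x hx).trans (abs_le.1 (hfB x hx)).2⟩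
  obtain ⟨W, hW1, hW2, hW3⟩ := usc_env hU h3
  refine ⟨W, hW1, fun x hx => ?_, fun x hx => ?_, fun s a b c x hx =>
    (h1 s ⟨a, b, c⟩ x hx).trans (hW2 x hx)⟩
  · obtain ⟨ρ, hρ, hsub⟩ := Metric.isOpen_iff.1 hU x hx
    refine stab M hρ fun η hη => ?_
    obtain ⟨y, hy, h4, h5⟩ := hW3 x hx η hη
    obtain ⟨_, ⟨s, hs, rfl⟩, h6⟩ := exists_lt_of_lt_csSup (hne y) h5
    exact ⟨s, y, h4, h6, hs.1.mono hsub, fun z hz => hs.2.1 z (hsub hz),
      fun z hz => (h1 s hs z (hsub hz)).trans (hW2 z (hsub hz))⟩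
  · refine le_of_forall_pos_le_add fun ε hε => ?_
    obtain ⟨δ, hδ, h4⟩ := Metric.continuousOn_iff.1 hf x hx (ε / 2) (half_pos hε)
    obtain ⟨y, hy, h5, h6⟩ := hW3 x hx (min δ (ε / 2)) (lt_min hδ (half_pos hε))
    have h7 := h4 y hy (by rw [dist_eq_norm]; exact h5.trans_le (min_le_left _ _))
    rw [Real.dist_eq] at h7
    have h8 := (abs_lt.1 h7).2
    have h9 := h2 y hy
    have h10 := min_le_right δ (ε / 2)
    linarith

/-- Iteration of the halving estimate. -/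
theorem env_iter {P : ℝ → ℝ → Prop} {B η δ1 : ℝ} (hB : 0 ≤ B) (hη : 0 < η) (hδ1 : 0 < δ1)
    (mono : ∀ δ m m', m ≤ m' → P δ m → P δ m') (h0 : P δ1 B)
    (step : ∀ δ m, 0 < δ → δ ≤ δ1 → 0 ≤ m → P (2 * δ) m → P δ (m / 2 + η / 4)) :
    ∃ δ0 > 0, P δ0 η := by
  have key : ∀ k : ℕ, P (δ1 * (1 / 2) ^ k) (B * (1 / 2) ^ k + η / 2) := by
    intro k
    induction k with
    | zero => exact mono _ B _ (by simp; linarith) (by simpa using h0)
    | succ k ih =>
      have h1 : (1 / 2 : ℝ) ^ (k + 1) ≤ 1 := pow_le_one₀ (by norm_num) (by norm_num)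
      have h2 := step (δ1 * (1 / 2) ^ (k + 1)) (B * (1 / 2) ^ k + η / 2) (by positivity)
        (mul_le_of_le_one_right hδ1.le h1) (by positivity)
        (by rwa [show 2 * (δ1 * (1 / 2) ^ (k + 1)) = δ1 * (1 / 2) ^ k by ring])
      exact mono _ _ _ (le_of_eq (by ring)) h2
  obtain ⟨k, hk⟩ := exists_pow_lt_of_lt_one (x := η / 2 / (B + 1)) (y := (1 / 2 : ℝ))
    (by positivity) (by norm_num)
  refine ⟨δ1 * (1 / 2) ^ k, by positivity, mono _ _ _ ?_ (key k)⟩
  rw [lt_div_iff₀ (by positivity)] at hk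
  have h3 : (0 : ℝ) ≤ (1 / 2) ^ k := by positivity
  nlinarith

theorem env (M : Model) : ∃ R1 : ℝ, 0 < R1 ∧ ∀ (c : E) (R4 R R5 B : ℝ) (w f : E → ℝ), 0 < R4 →
    R4 < R → R < R5 → R ≤ R1 → WOK M c R5 B w → ContinuousOn f (closedBall c R5) →
    (∀ x ∈ closedBall c R5, w x ≤ f x ∧ |f x| ≤ B) →
    (∀ x, R4 ≤ ‖x - c‖ → ‖x - c‖ ≤ R5 → w x = f x) →
    ∃ W, WOK M c R5 B W ∧ (∀ x ∈ closedBall c R5, w x ≤ W x ∧ W x ≤ f x) ∧
      ∀ η > 0, ∃ δ0 > 0, ∀ δ, 0 < δ → δ ≤ δ0 → ∀ x ∈ ball c R,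
        supc W (closedBall c R5) δ x ≤ W x + η := by
  classical
  obtain ⟨C, hC, hvisc⟩ := supc_visc M
  obtain ⟨R0, hR0, hrho⟩ := levi_rho M
  refine ⟨min R0 (1 / (C + 1)), lt_min hR0 (by positivity), ?_⟩
  intro c R4 R R5 B w f h4 h4R hR5 hR1 hw hf hwf hann
  have hRpos : 0 < R := h4.trans h4R
  have hsub : ball c R ⊆ closedBall c R5 :=
    ball_subset_closedBall.trans (closedBall_subset_closedBall hR5.le)
  have hsub' : ball c R ⊆ ball c R5 := ball_subset_ball hR5.le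
  have hne : (closedBall c R5).Nonempty := ⟨c, mem_closedBall_self (hRpos.trans hR5).le⟩
  have hB : 0 ≤ B := (abs_nonneg _).trans (hwf c (mem_closedBall_self (hRpos.trans hR5).le)).2
  have hCR : C * R ^ 2 ≤ 1 / 2 := by
    have h1 : R * (C + 1) ≤ 1 := (le_div_iff₀ (by positivity)).1 (hR1.trans (min_le_right _ _))
    have h2 : (R * (C + 1)) ^ 2 ≤ 1 := pow_le_one₀ (by positivity) h1
    nlinarith [sq_nonneg R, sq_nonneg (R * C)]
  obtain ⟨W', hW1, hW2, hW3, hmax⟩ := env_max M isOpen_ball (hw.usc.mono hsub)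
    (fun x hx => hw.visc x (hsub' hx)) (hf.mono hsub) (fun x hx => (hwf x (hsub hx)).1)
    (fun x hx => hw.bd x (hsub hx)) (fun x hx => (hwf x (hsub hx)).2)
  have hwW : ∀ x ∈ ball c R, w x ≤ W' x :=
    hmax w (hw.usc.mono hsub) (fun x hx => hw.visc x (hsub' hx)) fun x hx => (hwf x (hsub hx)).1
  set W : E → ℝ := fun x => if x ∈ ball c R then W' x else w x with hWd
  have hin : ∀ x ∈ ball c R, W x = W' x := fun x hx => if_pos hx
  have hout : ∀ x, R4 ≤ ‖x - c‖ → ‖x - c‖ ≤ R5 → W x = w x := by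
    intro x h1 h2
    by_cases hx : x ∈ ball c R
    · rw [hin x hx]
      exact le_antisymm ((hW3 x hx).trans (hann x h1 h2).ge) (hwW x hx)
    · exact if_neg hx
  have hbet : ∀ x ∈ closedBall c R5, w x ≤ W x ∧ W x ≤ f x := by
    intro x hx
    by_cases hx' : x ∈ ball c R
    · rw [hin x hx']
      exact ⟨hwW x hx', hW3 x hx'⟩
    · rw [show W x = w x from if_neg hx']
      exact ⟨le_rfl, (hwf x hx).1⟩
  have hev : ∀ x ∈ ball c R, W =ᶠ[𝓝 x] W' := fun x hx =>
    Filter.eventually_of_mem (isOpen_ball.mem_nhds hx) hin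
  have hfar : ∀ x, x ∉ ball c R → ∀ᶠ y in 𝓝 x, R4 < ‖y - c‖ := by
    intro x hx
    rw [mem_ball, dist_eq_norm, not_lt] at hx
    exact (continuous_id.sub continuous_const).norm.continuousAt.eventually_const_lt
      (h4R.trans_le hx)
  have hW : WOK M c R5 B W := by
    refine ⟨fun x hx => ?_, fun x hx => abs_le.2 ⟨(abs_le.1 (hw.bd x hx)).1.trans (hbet x hx).1,
      (hbet x hx).2.trans (abs_le.1 (hwf x hx).2).2⟩, fun x hx => ?_⟩
    · intro a ha
      by_cases hx' : x ∈ ball c R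
      · rw [hin x hx'] at ha
        have h1 := hW1 x hx' a ha
        rw [nhdsWithin_eq_nhds.2 (isOpen_ball.mem_nhds hx')] at h1
        refine Filter.Eventually.filter_mono nhdsWithin_le_nhds ?_
        filter_upwards [h1, hev x hx'] with y h2 h3
        rwa [h3]
      · rw [show W x = w x from if_neg hx'] at ha
        filter_upwards [hw.usc x hx a ha, nhdsWithin_le_nhds (hfar x hx'), self_mem_nhdsWithin]
          with y h2 h3 h5
        rwa [hout y (le_of_lt h3) (by rwa [mem_closedBall, dist_eq_norm] at h5)]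
    · by_cases hx' : x ∈ ball c R
      · exact (hW2 x hx').congr (hev x hx')
      · refine (hw.visc x hx).congr ?_
        filter_upwards [hfar x hx', isOpen_ball.mem_nhds hx] with y h2 h3
        exact hout y h2.le (by rw [mem_ball, dist_eq_norm] at h3; exact h3.le)
  refine ⟨W, hW, hbet, fun η hη => ?_⟩
  obtain ⟨δ2, hδ2, hunif⟩ := supc_unif (isCompact_closedBall c R5) hf (η := η / 4) (by positivity)
  have hgap : 0 < (R5 - R) ^ 2 := pow_pos (sub_pos.2 hR5) 2
  obtain ⟨δ0, hδ0, hP⟩ := env_iter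
    (P := fun δ m => ∀ x ∈ ball c R, supc W (closedBall c R5) δ x ≤ W x + m) (B := 2 * B)
    (δ1 := min δ2 ((R5 - R) ^ 2 / (4 * B + 1))) (by positivity) hη (lt_min hδ2 (by positivity))
    (fun δ m m' h1 h2 x hx => (h2 x hx).trans (by linarith))
    (fun x hx => by
      have h1 := supc_le hne hW.bd (lt_min hδ2 (by positivity : 0 < (R5 - R) ^ 2 / (4 * B + 1))) x
      have h2 := (abs_le.1 (hW.bd x (hsub hx))).1
      linarith)
    (fun δ m hδ hδ1 hm h2δ => by
      have hs : 4 * B * δ < (R5 - R) ^ 2 := by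
        have h1 := (le_div_iff₀ (by positivity)).1 (hδ1.trans (min_le_right _ _))
        linarith
      have hsm : ContDiff ℝ 2 fun y : E => ‖y - c‖ ^ 2 :=
        (contDiff_id.sub contDiff_const).norm_sq ℝ
      have h1 : ∀ x ∈ ball c R, Visc M.J (fun y => supc W (closedBall c R5) δ y +
          C * m * ‖y - c‖ ^ 2 + (-(C * m * R ^ 2) - η / 4)) x 0 := by
        intro x hx
        have h2 := supc_ge hW.bd hδ x (hsub hx)
        rw [sub_self, norm_zero, zero_pow two_ne_zero, zero_div, sub_zero] at h2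
        have h3 := hvisc c R R5 B δ m W hW hR5 hδ hs x hx (by linarith [h2δ x hx])
        have h5 : ‖x - c‖ ≤ R0 := by
          rw [mem_ball, dist_eq_norm] at hx
          exact hx.le.trans (hR1.trans (min_le_left _ _))
        have h6 := h3.add_smooth (φ := fun y => C * m * ‖y - c‖ ^ 2) (e' := C * m)
          (contDiff_const.mul hsm).contDiffAt fun Y => by
            rw [levi_const_mul _ hsm.contDiffAt]
            exact mul_le_mul_of_nonneg_left (hrho c x h5 Y) (mul_nonneg hC hm)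
        rw [sub_self] at h6
        exact h6.add_const _
      have h7 : Continuous fun y => supc W (closedBall c R5) δ y +
          C * m * ‖y - c‖ ^ 2 + (-(C * m * R ^ 2) - η / 4) :=
        ((continuous_supc (isCompact_closedBall c R5) hne hW.bd hδ).add
          (continuous_const.mul hsm.continuous)).add continuous_const
      have h8 := hmax _ h7.continuousOn.upperSemicontinuousOn h1 fun x hx => by
        have h2 := supc_mono hne (fun y hy => (hwf y hy).2) (fun y hy => (hbet y hy).2) hδ x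
        have h3 := hunif δ hδ (hδ1.trans (min_le_left _ _)) x (hsub hx)
        have h5 : ‖x - c‖ ^ 2 ≤ R ^ 2 := by
          rw [mem_ball, dist_eq_norm] at hx
          exact pow_le_pow_left₀ (norm_nonneg _) hx.le 2
        have h6 := mul_le_mul_of_nonneg_left h5 (mul_nonneg hC hm)
        linarith
      intro x hx
      have h2 := h8 x hx
      rw [hin x hx]
      have h3 : 0 ≤ C * m * ‖x - c‖ ^ 2 := by positivity
      have h5 := mul_le_mul_of_nonneg_left hCR hm
      nlinarith)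
  exact ⟨δ0, hδ0, fun δ hδ hle x hx => (supc_mono_delta hne hW.bd hδ hle x).trans (hP x hx)⟩

end Pool.Agent.Lib.MP_f2cf74_an
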