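import Pool.Agent.Lib.MP_f2cf74_an.Mass

open Set Metric MeasureTheory Complex Filter Topology
open scoped ContDiff ENNReal NNReal

noncomputable section

namespace Pool.Agent.Lib.MP_f2cf74_an

/-! Local existence of the weak gradient.  By `cacc` the functions `fderiv (V i) · (eb k)` are
bounded in `L²(ball c a)`.  For `φ ∈ L²` let `Λ φ` be the limit of `⟪d V i (eb k), φ⟫` along an
ultrafilter finer than `atTop` (`hyperfilter ℕ`, `Ultrafilter.of`, compactness of `Icc`), or use
Hahn-Banach; `Λ` is linear and bounded, so `InnerProductSpace.toDual` gives `g k ∈ L²`.  Put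
`G x = ∑ k, g k x • (proj k)`.  For a test function, `ibp` and dominated convergence. -/

/-- A weak cluster point of a bounded sequence. -/
theorem exG1_weak {G : Type} [NormedAddCommGroup G] [InnerProductSpace ℝ G] [CompleteSpace G]
    {u : ℕ → G} {R : ℝ} (h : ∀ i, ‖u i‖ ≤ R) :
    ∃ g : G, ∀ φ L, Tendsto (fun i => inner ℝ (u i) φ) atTop (𝓝 L) → inner ℝ g φ = L := by
  obtain ⟨Λ, -, hΛ⟩ := (WeakDual.isCompact_closedBall (0 : StrongDual ℝ G) R).ultrafilter_le_nhds
    ((hyperfilter ℕ).map fun i => StrongDual.toWeakDual (InnerProductSpace.toDual ℝ G (u i)))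
    (by
      rw [Ultrafilter.coe_map, le_principal_iff, mem_map]
      exact Eventually.of_forall fun i => by simpa using h i)
  refine ⟨(InnerProductSpace.toDual ℝ G).symm (WeakDual.toStrongDual Λ), fun φ L hL => ?_⟩
  rw [InnerProductSpace.toDual_symm_apply]
  exact tendsto_nhds_unique (((WeakDual.eval_continuous φ).tendsto Λ).comp hΛ)
    (hL.mono_left Nat.hyperfilter_le_atTop)

theorem exG_loc (M : Model) {v : E → ℝ} {c : E} {a b B : ℝ} (ha : 0 < a) (hab : a < b)
    {V : ℕ → E → ℝ} (hV : ∀ i, UOK M c b (V i)) (hB : ∀ i, ∀ x ∈ ball c b, |V i x| ≤ B)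
    (hl : ∀ x ∈ ball c b, Tendsto (fun i => V i x) atTop (𝓝 (v x))) :
    IntegrableOn v (ball c a) ∧ ∃ G, IsWeakGrad (ball c a) v G := by
  have hs : ball c a ⊆ ball c b := ball_subset_ball hab.le
  have hae : ∀ᵐ x ∂volume.restrict (ball c a), x ∈ ball c b :=
    (ae_restrict_mem measurableSet_ball).mono hs
  have hV1 : ∀ i, ContDiff ℝ 1 (V i) := fun i => (hV i).sm.of_le (by norm_num)
  have hfin : IsFiniteMeasure (volume.restrict (ball c a)) :=
    isFiniteMeasure_restrict.2 measure_ball_lt_top.ne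
  refine ⟨Integrable.of_bound (aestronglyMeasurable_of_tendsto_ae atTop
    (fun i => (hV1 i).continuous.aestronglyMeasurable) (hae.mono hl)) B
    (hae.mono fun x hx => le_of_tendsto' (hl x hx).norm fun i => hB i x hx), ?_⟩
  obtain ⟨C, hC⟩ := cacc M c ha hab B
  let w : ℕ → E → E := fun i x => (InnerProductSpace.toDual ℝ E).symm (fderiv ℝ (V i) x)
  have h1 : ∀ i, eLpNorm (w i) 2 (volume.restrict (ball c a)) ≤ (C : ℝ≥0∞) ^ (1 / 2 : ℝ) := by
    intro i
    rw [eLpNorm_eq_lintegral_rpow_enorm_toReal two_ne_zero ENNReal.ofNat_ne_top]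
    simp only [ENNReal.toReal_ofNat, ENNReal.rpow_ofNat]
    refine ENNReal.rpow_le_rpow (le_trans (le_of_eq ?_) (hC _ (hV i) (hB i))) (by norm_num)
    refine lintegral_congr fun x => ?_
    rw [eG, ← ofReal_norm, ← ofReal_norm, LinearIsometryEquiv.norm_map]
  have h2 : (C : ℝ≥0∞) ^ (1 / 2 : ℝ) ≠ ⊤ :=
    ENNReal.rpow_ne_top_of_nonneg (by norm_num) ENNReal.coe_ne_top
  have h3 : ∀ i, MemLp (w i) 2 (volume.restrict (ball c a)) := fun i =>
    ⟨((InnerProductSpace.toDual ℝ E).symm.continuous.comp
      ((hV1 i).continuous_fderiv one_ne_zero)).aestronglyMeasurable, (h1 i).trans_lt h2.lt_top⟩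
  obtain ⟨g, hg⟩ := exG1_weak (u := fun i => (h3 i).toLp (w i)) fun i => by
    rw [Lp.norm_toLp]
    exact ENNReal.toReal_mono h2 (h1 i)
  refine ⟨fun x => InnerProductSpace.toDual ℝ E (g x), fun K _ hK => ?_, fun f hf Y => ?_⟩
  · exact ((Lp.memLp g).congr_norm ((InnerProductSpace.toDual ℝ E).continuous.comp_aestronglyMeasurable
      (Lp.aestronglyMeasurable g)) (.of_forall fun x => (LinearIsometryEquiv.norm_map _ _).symm)
      ).mono_measure (Measure.restrict_mono hK le_rfl)
  have hf1 : ContDiff ℝ 1 f := hf.1.of_le (by exact_mod_cast le_top)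
  have hd : ∀ {u : E → ℝ}, ContDiff ℝ 1 u → Continuous fun x => fderiv ℝ u x Y := fun hu =>
    (hu.continuous_fderiv one_ne_zero).clm_apply continuous_const
  have h4 : MemLp (fun x => f x • Y) 2 (volume.restrict (ball c a)) :=
    ((hf1.continuous.smul continuous_const).memLp_of_hasCompactSupport
      (hf.2.1.smul_right (f' := fun _ => Y))).restrict _
  have h5 : ∀ q : Lp E 2 (volume.restrict (ball c a)), inner ℝ q (h4.toLp _) =
      ∫ x in ball c a, inner ℝ (q x) Y * f x := fun q => by
    rw [L2.inner_def]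
    refine integral_congr_ae (h4.coeFn_toLp.mono fun x hx => ?_)
    beta_reduce
    rw [hx, real_inner_smul_right, mul_comm]
  have h6 : ∀ i, inner ℝ ((h3 i).toLp (w i)) (h4.toLp _) =
      -∫ x in ball c a, V i x * fderiv ℝ f x Y := fun i => by
    rw [h5, setIntegral_eq_integral_of_forall_compl_eq_zero (f := fun x => V i x * _) fun x hx => by
        rw [fderiv_of_notMem_tsupport ℝ fun h => hx (hf.2.2 h), zero_apply, mul_zero],
      integral_mul_fderiv_eq_neg_fderiv_mul_of_integrable
        (((hd (hV1 i)).mul hf1.continuous).integrable_of_hasCompactSupport hf.2.1.mul_left)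
        (((hV1 i).continuous.mul (hd hf1)).integrable_of_hasCompactSupport
          (hf.2.1.fderiv_apply ℝ Y).mul_left)
        (((hV1 i).continuous.mul hf1.continuous).integrable_of_hasCompactSupport hf.2.1.mul_left)
        (fun x _ => (hV1 i).differentiable one_ne_zero x)
        (fun x _ => hf1.differentiable one_ne_zero x), neg_neg,
      ← setIntegral_eq_integral_of_forall_compl_eq_zero (s := ball c a)
        (f := fun x => fderiv ℝ (V i) x Y * f x) fun x hx => by
        rw [image_eq_zero_of_notMem_tsupport fun h => hx (hf.2.2 h), mul_zero]]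
    refine integral_congr_ae ((h3 i).coeFn_toLp.mono fun x hx => ?_)
    beta_reduce
    rw [hx]
    exact congrArg (· * f x) InnerProductSpace.toDual_symm_apply
  have h7 := hg (h4.toLp _) (-∫ x in ball c a, v x * fderiv ℝ f x Y) (by
    simp only [h6]
    refine (tendsto_integral_of_dominated_convergence (fun x => B * ‖fderiv ℝ f x Y‖)
      (fun i => ((hV1 i).continuous.mul (hd hf1)).aestronglyMeasurable)
      (((hd hf1).integrable_of_hasCompactSupport (hf.2.1.fderiv_apply ℝ Y)).norm.const_mul
        B).integrableOn (fun i => hae.mono fun x hx => ?_)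
      (hae.mono fun x hx => (hl x hx).mul_const _)).neg
    exact (norm_mul _ _).trans_le (mul_le_mul_of_nonneg_right (hB i x hx) (norm_nonneg _)))
  rw [h5] at h7
  exact neg_eq_iff_eq_neg.1 h7.symm

end Pool.Agent.Lib.MP_f2cf74_an
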