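import Pool.Agent.Lib.MP_f2cf74_an.MaLim
import Pool.Agent.Lib.MP_f2cf74_an.ApV

open Set Metric MeasureTheory Complex Filter Topology
open scoped ContDiff ENNReal NNReal

noncomputable section

namespace Pool.Agent.Lib.MP_f2cf74_an

/-! Local existence of the measure.  `weak_cluster`: `Λ f` is the limit of `∫ f ∂ν i` along an
ultrafilter finer than `atTop`; it is a positive linear functional on `C_c(E, ℝ)`;
`RealRMK.rieszMeasure`, `RealRMK.integral_rieszMeasure`.  `exMu_loc`: `approxV`; with a bump `χ`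
(`1` on `ball c (R/4)`, support in `ball c (R/2)`) take
`ν i = volume.withDensity (ofReal (dens * 4 χ Dd (H V i) (H V i)))`; the masses converge by
`ma_lim`, so they are bounded. -/

theorem weak_cluster (ν : ℕ → Measure E) (C : ℝ≥0) (h : ∀ i, ν i univ ≤ C) :
    ∃ μ : Measure E, (∀ K, IsCompact K → μ K < ⊤) ∧ ∀ f : E → ℝ, Continuous f →
      HasCompactSupport f → ∀ L, Tendsto (fun i => ∫ x, f x ∂ν i) atTop (𝓝 L) →
        ∫ x, f x ∂μ = L := by
  have hfin : ∀ i, IsFiniteMeasure (ν i) := fun i => ⟨(h i).trans_lt ENNReal.coe_lt_top⟩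
  have h1 : ∀ f : CompactlySupportedContinuousMap E ℝ, ∃ L : ℝ,
      Tendsto (fun i => ∫ x, f x ∂ν i) (hyperfilter ℕ) (𝓝 L) := by
    intro f
    obtain ⟨B, hB⟩ := f.continuous.bounded_above_of_compact_support f.hasCompactSupport
    have hB0 : 0 ≤ B := (norm_nonneg _).trans (hB 0)
    have h2 : ∀ i, ∫ x, f x ∂ν i ∈ closedBall (0 : ℝ) (B * C) := by
      intro i
      rw [mem_closedBall_zero_iff]
      refine (norm_integral_le_of_norm_le_const (Eventually.of_forall hB)).trans
        (mul_le_mul_of_nonneg_left ?_ hB0)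
      exact ENNReal.toReal_le_coe_of_le_coe (h i)
    obtain ⟨L, -, hL⟩ := (isCompact_closedBall (0 : ℝ) (B * C)).ultrafilter_le_nhds
      ((hyperfilter ℕ).map fun i => ∫ x, f x ∂ν i)
      (by rw [Ultrafilter.coe_map, le_principal_iff, mem_map]; exact Eventually.of_forall h2)
    exact ⟨L, hL⟩
  choose Λ hΛ using h1
  let Λ' : CompactlySupportedContinuousMap E ℝ →ₚ[ℝ] ℝ := PositiveLinearMap.mk₀
    { toFun := Λ
      map_add' := fun f g => tendsto_nhds_unique (hΛ (f + g))
        (((hΛ f).add (hΛ g)).congr fun i => (integral_add' f.integrable g.integrable).symm)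
      map_smul' := fun a f => tendsto_nhds_unique (hΛ (a • f))
        (((hΛ f).const_smul a).congr fun i => (integral_smul a f).symm) }
    fun f hf => ge_of_tendsto' (hΛ f) fun i => integral_nonneg hf
  refine ⟨RealRMK.rieszMeasure Λ', fun K hK => hK.measure_lt_top, fun f hf hc L hL => ?_⟩
  exact (RealRMK.integral_rieszMeasure Λ' ⟨⟨f, hf⟩, hc⟩).trans
    (tendsto_nhds_unique (hΛ _) (hL.mono_left Nat.hyperfilter_le_atTop))

theorem exMu_cont (M : Model) {V : E → ℝ} (hV : ContDiff ℝ ∞ V) :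
    Continuous fun x => Dd (H M V x) (H M V x) := by
  have h := continuous_H M (contDiff_infty.1 hV 2)
  exact (((continuous_re.comp (h 0 0)).mul (continuous_re.comp (h 1 1))).add
    ((continuous_re.comp (h 1 1)).mul (continuous_re.comp (h 0 0)))).sub
    (continuous_const.mul (continuous_re.comp ((h 0 1).mul (continuous_conj.comp (h 0 1)))))

theorem exMu_loc {J : E → E →L[ℝ] E} {Ω : Set E} (hΩ : IsOpen Ω) (hJ : IsACS J Ω) {v : E → ℝ}
    (hv : IsPSH0 J Ω fun x => (v x : EReal)) (hb : ∃ B, ∀ x ∈ Ω, |v x| ≤ B)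
    {G : E → E →L[ℝ] ℝ} (hG : IsWeakGrad Ω v G) {c : E} (hc : c ∈ Ω) :
    ∃ r > 0, ball c r ⊆ Ω ∧ ∃ ν : Measure E, (∀ K, IsCompact K → ν K < ⊤) ∧
      ∀ f, IsTest (ball c r) f → ((∫ x, f x ∂ν : ℝ) : ℂ) = maPair J Ω G G f := by
  obtain ⟨M, R, B, V, hR, hRΩ, hMJ, hV, hB, hl⟩ := approxV hΩ hJ hv hb hc
  obtain ⟨ε, -, -, hd0, hd1⟩ := M.dens_facts
  have hlim := fun f (hf : IsTest (ball c (R / 2)) f) =>
    ma_lim M hΩ hG (half_pos hR) (half_lt_self hR) hRΩ hMJ hV hB hl hf
  let χ : ContDiffBump c := ⟨R / 4, R / 3, by positivity, by linarith⟩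
  have hχ : IsTest (ball c (R / 2)) χ := ⟨χ.contDiff, χ.hasCompactSupport, by
    rw [χ.tsupport_eq]
    exact closedBall_subset_ball (show R / 3 < R / 2 by linarith)⟩
  let ρ : ℕ → E → ℝ := fun i x => dens M x * (4 * (χ x * Dd (H M (V i) x) (H M (V i) x)))
  have hρc : ∀ i, Continuous (ρ i) := fun i =>
    hd1.continuous.mul (continuous_const.mul (χ.continuous.mul (exMu_cont M (hV i).1)))
  have hρs : ∀ i, HasCompactSupport (ρ i) := fun i =>
    (χ.hasCompactSupport.mul_right.mul_left (f := fun _ => (4 : ℝ))).mul_left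
  have hρ0 : ∀ i x, 0 ≤ ρ i x := by
    intro i x
    refine mul_nonneg (hd0 x).le (mul_nonneg (by norm_num) ?_)
    by_cases hx : x ∈ ball c R
    · exact mul_nonneg χ.nonneg ((psd_H M (hV i).2 hx).Dd_nonneg (psd_H M (hV i).2 hx))
    · rw [χ.zero_of_le_dist, zero_mul]
      rw [mem_ball, not_lt] at hx
      exact le_trans (show R / 3 ≤ R by linarith) hx
  obtain ⟨C, hC⟩ := (hlim _ hχ).norm.bddAbove_range
  have hm : ∀ i, Measurable fun x => (ρ i x).toNNReal := fun i => (hρc i).measurable.real_toNNReal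
  obtain ⟨μ, hμ1, hμ2⟩ := weak_cluster
    (fun i => volume.withDensity fun x => ((ρ i x).toNNReal : ℝ≥0∞)) C.toNNReal fun i => by
      rw [withDensity_apply _ MeasurableSet.univ, Measure.restrict_univ]
      have h1 := ofReal_integral_eq_lintegral_ofReal
        ((hρc i).integrable_of_hasCompactSupport (μ := volume) (hρs i))
        (Eventually.of_forall (hρ0 i))
      refine h1.symm.le.trans (ENNReal.ofReal_le_ofReal ?_)
      have h2 := hC ⟨i, rfl⟩
      simp only [norm_real, Real.norm_eq_abs] at h2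
      exact (le_abs_self _).trans h2
  refine ⟨R / 4, by positivity, (ball_subset_ball (by linarith)).trans hRΩ, μ, hμ1, fun f hf => ?_⟩
  have h1 := hlim f ⟨hf.1, hf.2.1, hf.2.2.trans (ball_subset_ball (by linarith))⟩
  have h2 := (continuous_re.tendsto _).comp h1
  have h3 := (continuous_ofReal.tendsto _).comp h2
  rw [hμ2 f hf.1.continuous hf.2.1 _ (h2.congr fun i => ?_)]
  · exact tendsto_nhds_unique h3 h1
  · rw [integral_withDensity_eq_integral_smul (hm i)]
    simp only [Function.comp_apply, ofReal_re]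
    refine integral_congr_ae (Eventually.of_forall fun x => ?_)
    simp only [NNReal.smul_def, Real.coe_toNNReal _ (hρ0 i x), smul_eq_mul]
    by_cases hx : x ∈ ball c (R / 4)
    · simp only [ρ]
      rw [χ.one_of_mem_closedBall (ball_subset_closedBall hx)]
      ring
    · rw [image_eq_zero_of_notMem_tsupport fun h => hx (hf.2.2 h)]
      ring

end Pool.Agent.Lib.MP_f2cf74_an
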