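import Pool.Agent.Lib.MP_f2cf74_an.T3
import Pool.Agent.Lib.MP_f2cf74_an.BarB

open Set Metric MeasureTheory Complex Filter Topology
open scoped ContDiff ENNReal NNReal

noncomputable section

namespace Pool.Agent.Lib.MP_f2cf74_an

/-! Potentials of gradients.  All three proofs start from `grad_rep` with a small `δ`, so that
for `x ∈ ball c a`: `eG f x ≤ C ∫⁻ y in ball c a', kp 3 x y * (eT f y + eG f y)`.
`g0`: `comp33`, `pot`, `eG ≤ 1 + eG²`, `pot2`, `leb_near 2`.
`gd`: `swap_pot`, `mass`, `t3`.  `ui`: `comp33`, then `swap_pot`, `mass`, `t3`. -/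

theorem G0_rep (M : Model) (c : E) {a a' b : ℝ} (haa : a < a') (hab : a' ≤ b) : ∃ C : ℝ≥0,
    ∀ f : E → ℝ, ContDiff ℝ 2 f → Psh M.J f (ball c b) → ∀ x ∈ ball c a,
      eG f x ≤ C * ∫⁻ y in ball c a', kp 3 x y * (eT M f y + eG f y) := by
  obtain ⟨C, hC⟩ := grad_rep M (sub_pos.2 haa)
  refine ⟨C, fun f hf hp x hx => ?_⟩
  have hs : ball x (a' - a) ⊆ ball c a' := ball_subset_ball' (by linarith [mem_ball.1 hx])
  refine (hC x f hf fun y hy => hp y (ball_subset_ball hab (hs hy))).trans ?_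
  exact mul_le_mul_right (lintegral_mono_set hs) _

theorem G0_two (M : Model) (c : E) {a a' b : ℝ} (haa : a < a') (hab : a' ≤ b) : ∃ C : ℝ≥0,
    ∀ f : E → ℝ, ContDiff ℝ 2 f → Psh M.J f (ball c b) → ∀ x : E,
      ∫⁻ y in ball c a, kp 3 x y * eG f y ≤
        C * ∫⁻ y in ball c a', kp 2 x y * (eT M f y + eG f y) := by
  obtain ⟨C, hC⟩ := G0_rep M c haa hab
  obtain ⟨D, hD⟩ := comp33
  refine ⟨C * D, fun f hf hp x => ?_⟩
  calc ∫⁻ y in ball c a, kp 3 x y * eG f y
      ≤ ∫⁻ y in ball c a, C * (kp 3 x y *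
          ∫⁻ w in ball c a', kp 3 y w * (eT M f w + eG f w)) := by
        refine setLIntegral_mono' measurableSet_ball fun y hy => ?_
        rw [mul_left_comm]
        exact mul_le_mul_right (hC f hf hp y hy) _
    _ = C * ∫⁻ y in ball c a, kp 3 x y *
          ∫⁻ w in ball c a', kp 3 y w * (eT M f w + eG f w) :=
        lintegral_const_mul' _ _ ENNReal.coe_ne_top
    _ ≤ C * (D * ∫⁻ y in ball c a', kp 2 x y * (eT M f y + eG f y)) :=
        mul_le_mul_right ((setLIntegral_le_lintegral _ _).trans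
          (hD x _ _ ((measurable_eT M hf).add (measurable_eG f)))) _
    _ = _ := by rw [ENNReal.coe_mul, mul_assoc]

theorem G0_mass (M : Model) (c : E) {a b : ℝ} (ha : 0 < a) (hab : a < b) : ∃ C : ℝ≥0,
    ∀ u, UOK M c b u → ∫⁻ x in ball c a, (eT M u x + eG u x) ≤ C * nU c b u := by
  obtain ⟨C, hC⟩ := mass M c ha hab
  obtain ⟨D, hD⟩ := t3 M c ha hab
  refine ⟨C + D, fun u hu => ?_⟩
  rw [lintegral_add_right _ (measurable_eG u), ENNReal.coe_add, add_mul]
  exact add_le_add (hC u hu) (hD u hu)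

theorem G0_meas (p : ℕ) (x : E) : Measurable fun y => kp p x y := by
  have h := (measurable_kp p).comp (measurable_prodMk_left (x := x))
  simpa only [Function.comp_def] using h

theorem G0_sq (t : ℝ≥0∞) : t ≤ 1 + t ^ 2 := by
  rcases le_total t 1 with h | h
  · exact h.trans le_self_add
  · exact (le_self_pow h two_ne_zero).trans le_add_self


theorem g0 (M : Model) (c : E) {a b : ℝ} (ha : 0 < a) (hab : a < b) (B : ℝ) : ∃ C : ℝ≥0,
    ∀ v, VOK M c b B v → ∀ x ∈ ball c a, ∫⁻ y in ball c a, kp 3 x y * eG v y ≤ C := by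
  have h1 : a < (a + b) / 2 := by linarith
  have h2 : (a + b) / 2 < b := by linarith
  have h0 : 0 < (a + b) / 2 := ha.trans h1
  obtain ⟨C, hC⟩ := G0_two M c h1 h2.le
  obtain ⟨C1, hC1⟩ := pot M c h0 h2 B
  obtain ⟨C2, hC2⟩ := pot2 M c h0 h2 B
  obtain ⟨C3, hC3⟩ := leb_near 2 two_pos (by norm_num)
  refine ⟨C * (C1 + (C3 * Real.toNNReal ((a + b) ^ (4 - 2)) + C2)), fun v hv x hx => ?_⟩
  have hf : ContDiff ℝ 2 v := hv.sm.of_le (by norm_num)
  have hx' : x ∈ ball c ((a + b) / 2) := ball_subset_ball h1.le hx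
  have hk : Measurable fun y => kp 2 x y := G0_meas 2 x
  refine (hC v hf hv.psh x).trans ?_
  rw [ENNReal.coe_mul]
  refine mul_le_mul_right ?_ _
  calc ∫⁻ y in ball c ((a + b) / 2), kp 2 x y * (eT M v y + eG v y)
      ≤ ∫⁻ y in ball c ((a + b) / 2),
          (kp 2 x y * eT M v y + (kp 2 x y + kp 2 x y * eG v y ^ 2)) := by
        refine lintegral_mono fun y => ?_
        rw [mul_add]
        refine add_le_add le_rfl ((mul_le_mul_right (G0_sq _) _).trans_eq ?_)
        rw [mul_add, mul_one]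
    _ = (∫⁻ y in ball c ((a + b) / 2), kp 2 x y * eT M v y) +
          ((∫⁻ y in ball c ((a + b) / 2), kp 2 x y) +
            ∫⁻ y in ball c ((a + b) / 2), kp 2 x y * eG v y ^ 2) := by
        rw [lintegral_add_left (f := fun y => kp 2 x y * eT M v y) (hk.mul (measurable_eT M hf)),
          lintegral_add_left hk]
    _ ≤ _ := by
        rw [ENNReal.coe_add, ENNReal.coe_add, ENNReal.coe_mul]
        refine add_le_add (hC1 v hv x hx') (add_le_add ?_ (hC2 v hv x hx'))
        refine (lintegral_mono_set (ball_subset_ball' ?_)).trans (hC3 x (a + b) (by linarith))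
        rw [dist_comm]
        linarith [mem_ball.1 hx']

theorem gd (M : Model) (c : E) {a a' b : ℝ} (ha : 0 < a) (haa : a < a') (hab : a' < b) :
    ∃ C : ℝ≥0, ∀ (u : E → ℝ) (w : E → ℝ≥0∞) (P : ℝ≥0∞), UOK M c b u → Measurable w →
      (∀ y ∈ ball c a', ∫⁻ x in ball c a, kp 3 y x * w x ≤ P) →
      ∫⁻ x in ball c a, w x * eG u x ≤ C * P * nU c b u := by
  obtain ⟨C, hC⟩ := G0_rep M c haa hab.le
  obtain ⟨D, hD⟩ := G0_mass M c (ha.trans haa) hab
  refine ⟨C * D, fun u w P hu hw hP => ?_⟩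
  have hf : ContDiff ℝ 2 u := hu.sm.of_le (by norm_num)
  calc ∫⁻ x in ball c a, w x * eG u x
      ≤ ∫⁻ x in ball c a, C * (w x * ∫⁻ y in ball c a', kp 3 x y * (eT M u y + eG u y)) := by
        refine setLIntegral_mono' measurableSet_ball fun x hx => ?_
        rw [mul_left_comm]
        exact mul_le_mul_right (hC u hf hu.psh x hx) _
    _ = C * ∫⁻ x in ball c a, w x * ∫⁻ y in ball c a', kp 3 x y * (eT M u y + eG u y) :=
        lintegral_const_mul' _ _ ENNReal.coe_ne_top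
    _ ≤ C * (P * (D * nU c b u)) :=
        mul_le_mul_right ((swap_pot 3 _ _ _ w ((measurable_eT M hf).add (measurable_eG u)) hw
          measurableSet_ball P hP).trans (mul_le_mul_right (hD u hu) _)) _
    _ = _ := by rw [ENNReal.coe_mul]; ring

theorem ui (M : Model) (c : E) {a a' b : ℝ} (ha : 0 < a) (haa : a < a') (hab : a' < b) :
    ∃ C : ℝ≥0, ∀ (u : E → ℝ) (w : E → ℝ≥0∞) (P : ℝ≥0∞), UOK M c b u → Measurable w →
      (∀ y ∈ ball c a', ∫⁻ x in ball c a, kp 2 y x * w x ≤ P) →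
      ∫⁻ x in ball c a, w x * ∫⁻ y in ball c a, kp 3 x y * eG u y ≤ C * P * nU c b u := by
  obtain ⟨C, hC⟩ := G0_two M c haa hab.le
  obtain ⟨D, hD⟩ := G0_mass M c (ha.trans haa) hab
  refine ⟨C * D, fun u w P hu hw hP => ?_⟩
  have hf : ContDiff ℝ 2 u := hu.sm.of_le (by norm_num)
  calc ∫⁻ x in ball c a, w x * ∫⁻ y in ball c a, kp 3 x y * eG u y
      ≤ ∫⁻ x in ball c a, C * (w x * ∫⁻ y in ball c a', kp 2 x y * (eT M u y + eG u y)) := by
        refine lintegral_mono fun x => ?_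
        rw [mul_left_comm]
        exact mul_le_mul_right (hC u hf hu.psh x) _
    _ = C * ∫⁻ x in ball c a, w x * ∫⁻ y in ball c a', kp 2 x y * (eT M u y + eG u y) :=
        lintegral_const_mul' _ _ ENNReal.coe_ne_top
    _ ≤ C * (P * (D * nU c b u)) :=
        mul_le_mul_right ((swap_pot 2 _ _ _ w ((measurable_eT M hf).add (measurable_eG u)) hw
          measurableSet_ball P hP).trans (mul_le_mul_right (hD u hu) _)) _
    _ = _ := by rw [ENNReal.coe_mul]; ring

end Pool.Agent.Lib.MP_f2cf74_an
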