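import Pool.Agent.Lib.MP_f2cf74_an.Lel2

open Set Metric MeasureTheory Complex Filter Topology
open scoped ContDiff ENNReal NNReal

noncomputable section

namespace Pool.Agent.Lib.MP_f2cf74_an

/-! Gradient averages with a logarithmic gain.
`g1`: `grad_rep`, `g0` (contribution `C t⁴`), `ball_k3`; with `ν = eT v · vol` restricted to
`ball c a'` split `D = ‖w - y‖` into `D < t` (`lel2`), `t ≤ D < √t` (`lp_far 3 2` with
`A = 2 C / (-log t)`, from `lel2`), `√t ≤ D` (`pot`).  For `t ≥ 1/4` use a crude bound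
(`cacc` or `g0`).  Note `t (-log t) ≤ 1` and `√t (-log t) ≤ 1`.
`g2`: `ν = eG v · vol` restricted to `ball c a`; `d < ρ`: `lp_near 2 3`; `ρ ≤ d < √ρ`:
`lp_far 6 3`; `√ρ ≤ d`: `g0`.  For `ρ ≥ 1/4` use `g0`. -/

theorem g12_split (ν : Measure E) (y : E) (r S : ℝ) {k f₁ f₂ f₃ : E → ℝ≥0∞}
    (h₁ : ∀ x, ‖x - y‖ < r → k x ≤ f₁ x) (h₂ : ∀ x, r ≤ ‖x - y‖ → k x ≤ f₂ x)
    (h₃ : ∀ x, S ≤ ‖x - y‖ → k x ≤ f₃ x) :
    ∫⁻ x, k x ∂ν ≤ ∫⁻ x in ball y r, f₁ x ∂ν + ∫⁻ x in ball y S \ ball y r, f₂ x ∂ν +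
      ∫⁻ x, f₃ x ∂ν := by
  have hu : (univ : Set E) ⊆ ball y r ∪ (ball y S \ ball y r) ∪ (ball y S)ᶜ := by
    intro x _
    by_cases h1 : x ∈ ball y r
    · exact Or.inl (Or.inl h1)
    · by_cases h2 : x ∈ ball y S
      · exact Or.inl (Or.inr ⟨h2, h1⟩)
      · exact Or.inr h2
  rw [← setLIntegral_univ]
  refine (lintegral_mono_set hu).trans ((lintegral_union_le _ _ _).trans (add_le_add
    ((lintegral_union_le _ _ _).trans (add_le_add ?_ ?_)) ?_))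
  · exact setLIntegral_mono' measurableSet_ball fun x hx => h₁ x (mem_ball_iff_norm.1 hx)
  · exact setLIntegral_mono' (measurableSet_ball.diff measurableSet_ball) fun x hx =>
      h₂ x (not_lt.1 fun h => hx.2 (mem_ball_iff_norm.2 h))
  · exact (setLIntegral_mono' measurableSet_ball.compl fun x hx =>
      h₃ x (not_lt.1 fun h => hx (mem_ball_iff_norm.2 h))).trans (setLIntegral_le_lintegral _ _)

theorem g12_grow {ν : Measure E} {y : E} {m : ℕ} {C : ℝ≥0∞} {S L : ℝ} (hS : S ≤ 1 / 2) (hL : 0 < L)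
    (hLS : L ≤ -Real.log S)
    (h : ∀ s, 0 < s → s ≤ 1 / 2 → ν (ball y s) ≤ C * ENNReal.ofReal (s ^ m / (-Real.log s))) :
    ∀ s, 0 < s → s ≤ S → ν (ball y s) ≤ C * ENNReal.ofReal L⁻¹ * ENNReal.ofReal (s ^ m) := by
  intro s hs hsS
  refine (h s hs (hsS.trans hS)).trans ?_
  rw [mul_assoc, ← ENNReal.ofReal_mul (inv_nonneg.2 hL.le), ← div_eq_inv_mul]
  have h1 : L ≤ -Real.log s := hLS.trans (neg_le_neg (Real.log_le_log hs hsS))
  gcongr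

theorem g12_sqrt {t : ℝ} (h0 : 0 < t) (h1 : t ≤ 1 / 2) : ∃ u : ℝ, 0 < u ∧ u ≤ 1 ∧ u ^ 2 = t ∧
    0 < -Real.log t ∧ u * (-Real.log t) ≤ 2 ∧ -Real.log t / 2 ≤ -Real.log (u / 2) := by
  have hu : 0 < √t := Real.sqrt_pos.2 h0
  have h2 : Real.log t = 2 * Real.log √t := by
    rw [Real.log_sqrt h0.le]
    ring
  refine ⟨√t, hu, Real.sqrt_le_one.2 (by linarith), Real.sq_sqrt h0.le,
    neg_pos.2 (Real.log_neg h0 (by linarith)), ?_, ?_⟩
  · have h3 := Real.one_sub_inv_le_log_of_pos hu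
    have h4 := mul_le_mul_of_nonneg_left h3 hu.le
    rw [mul_sub, mul_inv_cancel₀ hu.ne'] at h4
    rw [h2]
    linarith
  · have h3 := Real.log_le_log (show 0 < √t / 2 by positivity) (show √t / 2 ≤ √t by linarith)
    rw [h2]
    linarith

theorem g12_mul (C : ℝ≥0∞) {p q r : ℝ} (hp : 0 ≤ p) (h : p * q ≤ r) :
    ENNReal.ofReal p * (C * ENNReal.ofReal q) ≤ C * ENNReal.ofReal r := by
  rw [mul_left_comm, ← ENNReal.ofReal_mul hp]
  gcongr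

theorem g12_mul3 (C C' : ℝ≥0∞) {p q q' r : ℝ} (hp : 0 ≤ p) (hq : 0 ≤ q) (h : p * (q * q') ≤ r) :
    ENNReal.ofReal p * (C * (C' * ENNReal.ofReal q) * ENNReal.ofReal q') ≤
      C * C' * ENNReal.ofReal r := by
  refine le_trans (le_of_eq ?_) (g12_mul (C * C') hp h)
  rw [ENNReal.ofReal_mul hq]
  ring

theorem g12_ker {y x : E} {p : ℕ} {k q : ℝ} (hq : 0 ≤ q) (h : k ≤ q * ‖x - y‖⁻¹ ^ p) :
    ENNReal.ofReal k ≤ ENNReal.ofReal q * kp p y x := by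
  rw [kp, ← ENNReal.ofReal_mul hq, norm_sub_rev]
  exact ENNReal.ofReal_le_ofReal h

theorem g12_meas (p : ℕ) (y : E) : Measurable (kp p y) := by
  unfold kp
  fun_prop

theorem g12_ball (m : E → ℝ≥0∞) (T : Set E) (y : E) (s : ℝ) :
    (volume.restrict T).withDensity m (ball y s) = ∫⁻ x in ball y s ∩ T, m x := by
  rw [withDensity_apply _ measurableSet_ball, Measure.restrict_restrict measurableSet_ball]

theorem g12_int {m k : E → ℝ≥0∞} (hm : Measurable m) (hk : Measurable k) (T : Set E) :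
    ∫⁻ x, k x ∂(volume.restrict T).withDensity m = ∫⁻ x in T, k x * m x := by
  rw [lintegral_withDensity_eq_lintegral_mul _ hm hk]
  simp only [Pi.mul_apply, mul_comm]

/-- The three zones for the first kernel. -/
theorem g12_one (C P : ℝ≥0) : ∃ C' : ℝ≥0, ∀ (ν : Measure E) (y : E) (t : ℝ), 0 < t → t ≤ 1 / 2 →
    (∀ s, 0 < s → s ≤ 1 / 2 → ν (ball y s) ≤ C * ENNReal.ofReal (s ^ 2 / (-Real.log s))) →
    ∫⁻ x, kp 2 y x ∂ν ≤ P →
    ∫⁻ x, ENNReal.ofReal (t ^ 4 * (‖x - y‖ + t)⁻¹ ^ 3) ∂ν ≤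
      C' * ENNReal.ofReal (t ^ 3 / (-Real.log t)) := by
  obtain ⟨C₁, h₁⟩ := lp_far 3 2 (by norm_num)
  refine ⟨(C + C₁ * C + P) * 4, fun ν y t h0 h1 hν hP => ?_⟩
  obtain ⟨u, hu, hu1, hut, hl, hul, hlu⟩ := g12_sqrt h0 h1
  have hν0 := hν t h0 h1
  have hν1 := g12_grow (by linarith) (half_pos hl) hlu hν
  clear hν hlu
  generalize -Real.log t = l at hl hul hν0 hν1 ⊢
  have hT : 0 ≤ t ^ 3 / l := by positivity
  refine (g12_split ν y t (u / 2) (f₁ := fun _ => ENNReal.ofReal t)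
    (f₂ := fun x => ENNReal.ofReal (t ^ 4) * kp 3 y x)
    (f₃ := fun x => ENNReal.ofReal (t ^ 4 * (u / 2)⁻¹) * kp 2 y x) (fun x _ => ?_) (fun x hx => ?_)
    fun x hx => ?_).trans ?_
  · refine ENNReal.ofReal_le_ofReal ?_
    calc t ^ 4 * (‖x - y‖ + t)⁻¹ ^ 3 ≤ t ^ 4 * t⁻¹ ^ 3 := by
          gcongr
          exact le_add_of_nonneg_left (norm_nonneg _)
      _ = t := by field_simp
  · refine g12_ker (by positivity) ?_
    have : 0 < ‖x - y‖ := h0.trans_le hx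
    gcongr
    exact le_add_of_nonneg_right h0.le
  · refine g12_ker (by positivity) ?_
    have : 0 < ‖x - y‖ := lt_of_lt_of_le (by positivity) hx
    calc t ^ 4 * (‖x - y‖ + t)⁻¹ ^ 3 ≤ t ^ 4 * ‖x - y‖⁻¹ ^ 3 := by
          gcongr
          exact le_add_of_nonneg_right h0.le
      _ = t ^ 4 * ‖x - y‖⁻¹ * ‖x - y‖⁻¹ ^ 2 := by ring
      _ ≤ t ^ 4 * (u / 2)⁻¹ * ‖x - y‖⁻¹ ^ 2 := by gcongr
  have k1 : ∫⁻ _ in ball y t, ENNReal.ofReal t ∂ν ≤ C * ENNReal.ofReal (4 * (t ^ 3 / l)) := by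
    rw [setLIntegral_const]
    refine (mul_le_mul_right hν0 _).trans (g12_mul _ h0.le ?_)
    have : t * (t ^ 2 / l) = t ^ 3 / l := by ring
    linarith
  have k2 : ∫⁻ x in ball y (u / 2) \ ball y t, ENNReal.ofReal (t ^ 4) * kp 3 y x ∂ν ≤
      C₁ * C * ENNReal.ofReal (4 * (t ^ 3 / l)) := by
    rw [lintegral_const_mul' _ _ ENNReal.ofReal_ne_top]
    refine (mul_le_mul_right (h₁ ν y t (u / 2) _ h0 hν1) _).trans
        (g12_mul3 _ _ (by positivity) (by positivity) ?_)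
    have : t ^ 4 * ((l / 2)⁻¹ * t⁻¹ ^ (3 - 2)) = 2 * (t ^ 3 / l) := by
      norm_num
      field_simp
    linarith
  have k3 : ∫⁻ x, ENNReal.ofReal (t ^ 4 * (u / 2)⁻¹) * kp 2 y x ∂ν ≤
      P * ENNReal.ofReal (4 * (t ^ 3 / l)) := by
    rw [lintegral_const_mul' _ _ ENNReal.ofReal_ne_top, mul_comm]
    refine mul_le_mul' hP (ENNReal.ofReal_le_ofReal ?_)
    have e : t ^ 4 * (u / 2)⁻¹ = 2 * (u * l) * (t ^ 3 / l) := by
      rw [← hut]
      field_simp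
    rw [e]
    exact mul_le_mul_of_nonneg_right (by linarith) hT
  refine (add_le_add (add_le_add k1 k2) k3).trans (le_of_eq ?_)
  rw [ENNReal.ofReal_mul (by norm_num), ENNReal.ofReal_ofNat]
  push_cast
  ring

/-- The three zones for the second kernel. -/
theorem g12_two (C P : ℝ≥0) : ∃ C' : ℝ≥0, ∀ (ν : Measure E) (y : E) (t : ℝ), 0 < t → t ≤ 1 / 2 →
    (∀ s, 0 < s → s ≤ 1 / 2 → ν (ball y s) ≤ C * ENNReal.ofReal (s ^ 3 / (-Real.log s))) →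
    ∫⁻ x, kp 3 y x ∂ν ≤ P →
    ∫⁻ x, ENNReal.ofReal (‖x - y‖⁻¹ ^ 2 * (‖x - y‖ + t)⁻¹ ^ 4) ∂ν ≤
      C' * ENNReal.ofReal (t⁻¹ ^ 3 / (-Real.log t)) := by
  obtain ⟨C₀, h₀⟩ := lp_near 2 3 (by norm_num) (by norm_num)
  obtain ⟨C₁, h₁⟩ := lp_far 6 3 (by norm_num)
  refine ⟨(C₀ * C + C₁ * C + P) * 16, fun ν y t h0 h1 hν hP => ?_⟩
  obtain ⟨u, hu, hu1, hut, hl, hul, hlu⟩ := g12_sqrt h0 h1
  have hν0 := g12_grow h1 hl le_rfl hν
  have hν1 := g12_grow (by linarith) (half_pos hl) hlu hν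
  clear hν hlu
  generalize -Real.log t = l at hl hul hν0 hν1 ⊢
  have hT : 0 ≤ t⁻¹ ^ 3 / l := by positivity
  refine (g12_split ν y t (u / 2) (f₁ := fun x => ENNReal.ofReal (t⁻¹ ^ 4) * kp 2 y x)
    (f₂ := fun x => ENNReal.ofReal 1 * kp 6 y x)
    (f₃ := fun x => ENNReal.ofReal ((u / 2)⁻¹ ^ 3) * kp 3 y x) (fun x _ => ?_) (fun x hx => ?_)
    fun x hx => ?_).trans ?_
  · refine g12_ker (by positivity) ?_
    rw [mul_comm]
    gcongr
    exact le_add_of_nonneg_left (norm_nonneg _)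
  · refine g12_ker (by positivity) ?_
    have : 0 < ‖x - y‖ := h0.trans_le hx
    calc ‖x - y‖⁻¹ ^ 2 * (‖x - y‖ + t)⁻¹ ^ 4 ≤ ‖x - y‖⁻¹ ^ 2 * ‖x - y‖⁻¹ ^ 4 := by
          gcongr
          exact le_add_of_nonneg_right h0.le
      _ = 1 * ‖x - y‖⁻¹ ^ 6 := by ring
  · refine g12_ker (by positivity) ?_
    have : 0 < ‖x - y‖ := lt_of_lt_of_le (by positivity) hx
    calc ‖x - y‖⁻¹ ^ 2 * (‖x - y‖ + t)⁻¹ ^ 4 ≤ ‖x - y‖⁻¹ ^ 2 * ‖x - y‖⁻¹ ^ 4 := by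
          gcongr
          exact le_add_of_nonneg_right h0.le
      _ = ‖x - y‖⁻¹ ^ 3 * ‖x - y‖⁻¹ ^ 3 := by ring
      _ ≤ (u / 2)⁻¹ ^ 3 * ‖x - y‖⁻¹ ^ 3 := by gcongr
  have k1 : ∫⁻ x in ball y t, ENNReal.ofReal (t⁻¹ ^ 4) * kp 2 y x ∂ν ≤
      C₀ * C * ENNReal.ofReal (16 * (t⁻¹ ^ 3 / l)) := by
    rw [lintegral_const_mul' _ _ ENNReal.ofReal_ne_top]
    refine (mul_le_mul_right (h₀ ν y t _ h0 hν0) _).trans
        (g12_mul3 _ _ (by positivity) (by positivity) ?_)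
    have : t⁻¹ ^ 4 * (l⁻¹ * t ^ (3 - 2)) = t⁻¹ ^ 3 / l := by
      norm_num
      field_simp
    linarith
  have k2 : ∫⁻ x in ball y (u / 2) \ ball y t, ENNReal.ofReal 1 * kp 6 y x ∂ν ≤
      C₁ * C * ENNReal.ofReal (16 * (t⁻¹ ^ 3 / l)) := by
    rw [lintegral_const_mul' _ _ ENNReal.ofReal_ne_top]
    refine (mul_le_mul_right (h₁ ν y t (u / 2) _ h0 hν1) _).trans
        (g12_mul3 _ _ (by positivity) (by positivity) ?_)
    have : 1 * ((l / 2)⁻¹ * t⁻¹ ^ (6 - 3)) = 2 * (t⁻¹ ^ 3 / l) := by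
      norm_num
      field_simp
    linarith
  have k3 : ∫⁻ x, ENNReal.ofReal ((u / 2)⁻¹ ^ 3) * kp 3 y x ∂ν ≤
      P * ENNReal.ofReal (16 * (t⁻¹ ^ 3 / l)) := by
    rw [lintegral_const_mul' _ _ ENNReal.ofReal_ne_top, mul_comm]
    refine mul_le_mul' hP (ENNReal.ofReal_le_ofReal ?_)
    have e : (u / 2)⁻¹ ^ 3 = 8 * (t * (u * l)) * (t⁻¹ ^ 3 / l) := by
      rw [← hut]
      field_simp
      norm_num
    rw [e]
    refine mul_le_mul_of_nonneg_right ?_ hT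
    have : 0 ≤ u * l := by positivity
    nlinarith
  refine (add_le_add (add_le_add k1 k2) k3).trans (le_of_eq ?_)
  rw [ENNReal.ofReal_mul (by norm_num), ENNReal.ofReal_ofNat]
  push_cast
  ring

theorem g1 (M : Model) (c : E) {a b : ℝ} (ha : 0 < a) (hab : a < b) (B : ℝ) : ∃ C : ℝ≥0,
    ∀ v, VOK M c b B v → ∀ y ∈ ball c a, ∀ t, 0 < t → t ≤ 1 / 2 →
    ∫⁻ x in ball y t ∩ ball c a, eG v x ≤ C * ENNReal.ofReal (t ^ 3 / (-Real.log t)) := by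
  obtain ⟨a', h1, h2⟩ := exists_between hab
  have ha' : 0 < a' := ha.trans h1
  obtain ⟨C₁, H₁⟩ := grad_rep M (sub_pos.2 h1)
  obtain ⟨C₀, H₀⟩ := g0 M c ha' h2 B
  obtain ⟨C₂, H₂⟩ := lel2 M c ha' h2 B
  obtain ⟨P, HP⟩ := pot M c ha' h2 B
  obtain ⟨C₃, H₃⟩ := g12_one C₂ P
  obtain ⟨C₄, H₄⟩ := ball_k3
  obtain ⟨C₅, -, H₅⟩ := vol_ball
  refine ⟨C₁ * (C₄ * C₃ + C₀ * C₅ * 2), fun v hv y hy t ht0 ht1 => ?_⟩
  have hv2 : ContDiff ℝ 2 v := hv.sm.of_le (by norm_num)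
  have hm := measurable_eT M hv2
  have hy' : y ∈ ball c a' := ball_subset_ball h1.le hy
  have k1 : ∀ x ∈ ball y t ∩ ball c a,
      eG v x ≤ C₁ * ((∫⁻ w in ball c a', kp 3 x w * eT M v w) + C₀) := by
    intro x hx
    have hsub : ball x (a' - a) ⊆ ball c a' :=
      ball_subset_ball' (by have := mem_ball.1 hx.2; linarith)
    refine (H₁ x v hv2 fun z hz => hv.psh z (ball_subset_ball h2.le (hsub hz))).trans
      (mul_le_mul_right ((lintegral_mono_set hsub).trans ?_) _)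
    simp only [mul_add]
    rw [lintegral_add_left (f := fun w => kp 3 x w * eT M v w) ((g12_meas 3 x).mul hm)]
    exact add_le_add le_rfl (H₀ v hv x (ball_subset_ball h1.le hx.2))
  have k2 : ∫⁻ x in ball y t, ∫⁻ w in ball c a', kp 3 x w * eT M v w ≤
      C₄ * (C₃ * ENNReal.ofReal (t ^ 3 / (-Real.log t))) := by
    rw [lintegral_lintegral_swap
      ((measurable_kp 3).mul (hm.comp measurable_snd)).aemeasurable]
    have e1 : ∀ w, ∫⁻ x in ball y t, kp 3 x w * eT M v w ≤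
        C₄ * (ENNReal.ofReal (t ^ 4 * (‖w - y‖ + t)⁻¹ ^ 3) * eT M v w) := fun w => by
      rw [lintegral_mul_const' (eT M v w) _ ENNReal.ofReal_ne_top, ← mul_assoc]
      exact mul_le_mul_left (H₄ y w t ht0) _
    refine (lintegral_mono e1).trans ?_
    rw [lintegral_const_mul' _ _ ENNReal.coe_ne_top, ← g12_int hm (by fun_prop)]
    refine mul_le_mul_right (H₃ _ y t ht0 ht1 (fun s hs0 hs1 => ?_) ?_) _
    · rw [g12_ball]
      exact H₂ v hv y hy' s hs0 hs1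
    · rw [g12_int hm (g12_meas 2 y)]
      exact HP v hv y hy'
  have k3 : ∫⁻ _ in ball y t, (C₀ : ℝ≥0∞) ≤
      C₀ * C₅ * 2 * ENNReal.ofReal (t ^ 3 / (-Real.log t)) := by
    obtain ⟨u, hu, hu1, hut, hl, hul, -⟩ := g12_sqrt ht0 ht1
    rw [setLIntegral_const, H₅ y t ht0.le, mul_assoc, mul_assoc, ← ENNReal.ofReal_ofNat 2,
      ← ENNReal.ofReal_mul (by norm_num)]
    refine mul_le_mul_right (mul_le_mul_right (ENNReal.ofReal_le_ofReal ?_) _) _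
    generalize -Real.log t = l at hl hul ⊢
    have e : t ^ 4 = u * (u * l) * (t ^ 3 / l) := by
      rw [← hut]
      field_simp
    rw [e]
    refine mul_le_mul_of_nonneg_right ?_ (by positivity)
    have : 0 ≤ u * l := by positivity
    nlinarith
  refine (setLIntegral_mono' (measurableSet_ball.inter measurableSet_ball) k1).trans
    ((lintegral_mono_set inter_subset_left).trans ?_)
  rw [lintegral_const_mul' _ _ ENNReal.coe_ne_top, lintegral_add_right _ measurable_const]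
  refine (mul_le_mul_right (add_le_add k2 k3) _).trans (le_of_eq ?_)
  push_cast
  ring

theorem g2 (M : Model) (c : E) {a b : ℝ} (ha : 0 < a) (hab : a < b) (B : ℝ) : ∃ C : ℝ≥0,
    ∀ v, VOK M c b B v → ∀ y ∈ ball c a, ∀ ρ, 0 < ρ → ρ ≤ 1 / 2 →
    ∫⁻ x in ball c a, ENNReal.ofReal (‖x - y‖⁻¹ ^ 2 * (‖x - y‖ + ρ)⁻¹ ^ 4) * eG v x ≤
      C * ENNReal.ofReal (ρ⁻¹ ^ 3 / (-Real.log ρ)) := by
  obtain ⟨C₁, H₁⟩ := g1 M c ha hab B
  obtain ⟨P, HP⟩ := g0 M c ha hab B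
  obtain ⟨C₂, H₂⟩ := g12_two C₁ P
  refine ⟨C₂, fun v hv y hy ρ h0 h1 => ?_⟩
  rw [← g12_int (measurable_eG v) (by fun_prop)]
  refine H₂ _ y ρ h0 h1 (fun s hs0 hs1 => ?_) ?_
  · rw [g12_ball]
    exact H₁ v hv y hy s hs0 hs1
  · rw [g12_int (measurable_eG v) (g12_meas 3 y)]
    exact HP v hv y hy

end Pool.Agent.Lib.MP_f2cf74_an
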