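import Pool.Agent.Lib.MP_f2cf74_an.GamPt
import Pool.Agent.Lib.MP_f2cf74_an.Can
import Pool.Agent.Lib.MP_f2cf74_an.G12

open Set Metric MeasureTheory Complex Filter Topology
open scoped ContDiff ENNReal NNReal

noncomputable section

namespace Pool.Agent.Lib.MP_f2cf74_an

/-! The bound for the composed kernel.  For each `n` split by `gam_pt`; the two near parts are
bounded by `can` and `Kk_bound`, the remainder (it vanishes outside
`ball y (K s) ∪ ball y' (K s) ⊆ ball c (a + K s)`) by `g2` and `Lg_bound`.  Integrability of the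
three pieces: `Kk_bound`, `Kk_zero`, `integrableOn_inv_cube`, and
`d⁻³ d'⁻³ ≤ (ρ/2)⁻³ (d⁻³ + d'⁻³)`. -/

theorem gam_real {z : ℂ} {C : ℝ≥0} {t : ℝ} (ht : 0 ≤ t) :
    ‖z‖ₑ ≤ C * ENNReal.ofReal t ↔ ‖z‖ ≤ C * t := by
  rw [← ofReal_norm, ← ENNReal.ofReal_coe_nnreal, ← ENNReal.ofReal_mul C.coe_nonneg,
    ENNReal.ofReal_le_ofReal_iff (mul_nonneg C.coe_nonneg ht)]

theorem gam_int (M : Model) {s : ℝ} (hs : 0 < s) (j : Fin 2) (y : E) {g : E → ℂ}
    (hg : Continuous g) : Integrable fun x => Kk M s j x y * g x := by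
  obtain ⟨C, hC, h⟩ := Kk_bound M
  obtain ⟨D, hD⟩ := (isCompact_closedBall y (M.K * s)).exists_bound_of_continuousOn hg.continuousOn
  have hm : Measurable fun x => Kk M s j x y :=
    (measurable_Kk M s j).comp (f := fun x : E => (x, y)) (measurable_id.prodMk measurable_const)
  refine IntegrableOn.integrable_of_forall_notMem_eq_zero (s := ball y (M.K * s)) ?_ fun x hx => ?_
  · refine Integrable.mono' ((integrableOn_inv_cube y (M.K * s)).const_mul (C * D))
      (hm.mul hg.measurable).aestronglyMeasurable ?_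
    refine (ae_restrict_iff' measurableSet_ball).2 (Eventually.of_forall fun x hx => ?_)
    rw [norm_mul]
    calc ‖Kk M s j x y‖ * ‖g x‖ ≤ C * ‖x - y‖⁻¹ ^ 3 * D :=
          mul_le_mul (h s j x y hs) (hD x (ball_subset_closedBall hx)) (norm_nonneg _)
            (by positivity)
      _ = _ := by ring
  · rw [Kk_zero M hs j (by simpa [dist_eq_norm] using hx), zero_mul]

theorem gam_cont (M : Model) {ρ : ℝ} (hρ : 0 < ρ) (y : E) :
    Continuous fun x => (om (ρ ^ 2) (‖M.A y (y - x)‖ ^ 2) : ℂ) := by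
  refine Complex.continuous_ofReal.comp ?_
  unfold om
  refine Continuous.div (by fun_prop) (by fun_prop) fun x => by positivity

theorem gam_bound (M : Model) (c : E) {a b s : ℝ} (ha : 0 < a) (hs : 0 < s) (hs2 : s ≤ 1 / 2)
    (hab : a + M.K * s < b) (B L : ℝ) : ∃ C : ℝ≥0, ∀ (v : E → ℝ) (β : Fin 2 → E → ℂ),
    VOK M c b B v → (∀ n, Measurable (β n)) → (∀ n, LipB c b L (β n)) →
    ∀ y ∈ ball c a, ∀ y' ∈ ball c a, y ≠ y' → ‖y - y'‖ ≤ 1 / 2 → ∀ j l : Fin 2,
    ‖∫ x, (∑ n, β n x * Lb M n v x) * (Kk M s j x y * Kk M s l x y')‖ₑ ≤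
      C * ENNReal.ofReal (‖y - y'‖⁻¹ ^ 3 / (-Real.log ‖y - y'‖)) := by
  obtain ⟨Cp, hCp, hp⟩ := gam_pt M
  obtain ⟨Ck, hCk, hk⟩ := Kk_bound M
  obtain ⟨Cl, hCl, hl⟩ := Lg_bound M
  obtain ⟨Cc, hc⟩ := can M c ha hs hs2 hab B
  have hKs : 0 < M.K * s := mul_pos (by linarith [M.one_le]) hs
  obtain ⟨Cg, hg⟩ := g2 M c (a := a + M.K * s) (by linarith) hab B
  refine ⟨(2 * Cp * L * Cl).toNNReal * (Cg + Cg) + (4 * L * Ck * Cc).toNNReal,
    fun v β hv _ hβ y hy y' hy' hne hρ j l => ?_⟩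
  set ρ := ‖y - y'‖ with hρd
  have hρ0 : 0 < ρ := norm_pos_iff.2 (sub_ne_zero.2 hne)
  have hlog : 0 < -Real.log ρ := neg_pos.2 (Real.log_neg hρ0 (by linarith))
  have hab1 : ball c a ⊆ ball c (a + M.K * s) := ball_subset_ball (by linarith)
  have hab2 : ball c (a + M.K * s) ⊆ ball c b := ball_subset_ball hab.le
  have hyb := hab2 (hab1 hy)
  have hyb' := hab2 (hab1 hy')
  have hL : 0 ≤ L := (norm_nonneg _).trans ((hβ 0).1 y hyb)
  by_cases hF : Integrable fun x => (∑ n, β n x * Lb M n v x) * (Kk M s j x y * Kk M s l x y')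
  swap
  · rw [integral_undef hF, enorm_zero]
    exact zero_le
  have hLb : ∀ n, Continuous (Lb M n v) := fun n =>
    (contDiff_Lb M (hv.sm.of_le (by norm_num)) n).continuous
  set P : Fin 2 → E → Fin 2 → E → ℂ := fun i z n x =>
    Kk M s i x z * (om (ρ ^ 2) (‖M.A z (z - x)‖ ^ 2) : ℂ) * Lb M n v x with hP
  have hPi : ∀ i z n, Integrable (P i z n) := fun i z n => by
    refine (gam_int M hs i z ((gam_cont M hρ0 z).mul (hLb n))).congr
      (Eventually.of_forall fun x => ?_)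
    exact (mul_assoc _ _ _).symm
  have hPb : ∀ i, ∀ z ∈ ball c a, ∀ n, ‖∫ x, P i z n x‖ ≤ Cc * (1 / -Real.log ρ) :=
    fun i z hz n => (gam_real (by positivity)).1 (hc v hv z hz ρ hρ0 hρ i n)
  set G : E → ℂ := fun x => ∑ n, (β n y * Kk M s l y y' * P j y n x +
    β n y' * Kk M s j y' y * P l y' n x) with hG
  have hGn : ∀ n, Integrable fun x => β n y * Kk M s l y y' * P j y n x +
      β n y' * Kk M s j y' y * P l y' n x := fun n =>
    ((hPi j y n).const_mul _).add ((hPi l y' n).const_mul _)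
  have hGi : Integrable G := integrable_finsetSum _ fun n _ => hGn n
  have hGb : ‖∫ x, G x‖ₑ ≤
      (4 * L * Ck * Cc).toNNReal * ENNReal.ofReal (ρ⁻¹ ^ 3 / -Real.log ρ) := by
    rw [gam_real (by positivity), Real.coe_toNNReal _ (by positivity), hG,
      integral_finsetSum _ fun n _ => hGn n]
    refine (norm_sum_le _ _).trans ((Finset.sum_le_card_nsmul _ _
      (2 * (L * (Ck * ρ⁻¹ ^ 3) * (Cc * (1 / -Real.log ρ)))) fun n _ => ?_).trans (le_of_eq ?_))
    · rw [integral_add ((hPi j y n).const_mul _) ((hPi l y' n).const_mul _), integral_const_mul,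
        integral_const_mul, two_mul]
      refine (norm_add_le _ _).trans (add_le_add ?_ ?_)
      · rw [norm_mul, norm_mul]
        exact mul_le_mul (mul_le_mul ((hβ n).1 y hyb) (hk s l y y' hs) (norm_nonneg _) hL)
          (hPb j y hy n) (norm_nonneg _) (by positivity)
      · rw [norm_mul, norm_mul]
        have h1 := hk s j y' y hs
        rw [norm_sub_rev] at h1
        exact mul_le_mul (mul_le_mul ((hβ n).1 y' hyb') h1 (norm_nonneg _) hL)
          (hPb l y' hy' n) (norm_nonneg _) (by positivity)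
    · simp only [Finset.card_univ, Fintype.card_fin, nsmul_eq_mul, Nat.cast_ofNat]
      ring
  set T : E → ℂ := fun x =>
    (∑ n, β n x * Lb M n v x) * (Kk M s j x y * Kk M s l x y') - G x with hT
  have hT0 : ∀ x, x ∉ ball c (a + M.K * s) → T x = 0 := by
    intro x hx
    have h1 : ∀ i, ∀ z ∈ ball c a, Kk M s i x z = 0 := fun i z hz => Kk_zero M hs i (by
      have h2 := dist_triangle x z c
      rw [mem_ball] at hx hz
      rw [← dist_eq_norm]
      linarith [not_lt.1 hx])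
    simp [hT, hG, hP, h1 j y hy, h1 l y' hy']
  set u : E → E → ℝ := fun z x => ‖x - z‖⁻¹ ^ 2 * (‖x - z‖ + ρ)⁻¹ ^ 4 with hu
  have hu0 : ∀ z x, 0 ≤ u z x := fun z x => by positivity
  have hT1 : ∀ x ∈ ball c (a + M.K * s), x ≠ y → x ≠ y' → ‖T x‖ₑ ≤
      (2 * Cp * L * Cl).toNNReal *
        (ENNReal.ofReal (u y x) * eG v x + ENNReal.ofReal (u y' x) * eG v x) := by
    intro x hx h1 h2
    have hxb := hab2 hx
    rw [← add_mul, eG, ← ofReal_norm (fderiv ℝ v x),
      ← ENNReal.ofReal_add (hu0 _ _) (hu0 _ _),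
      ← ENNReal.ofReal_mul (add_nonneg (hu0 _ _) (hu0 _ _)),
      gam_real (mul_nonneg (add_nonneg (hu0 _ _) (hu0 _ _)) (norm_nonneg _)),
      Real.coe_toNNReal _ (by positivity)]
    have e : T x = ∑ n, (β n x * Kk M s j x y * Kk M s l x y' -
        β n y * Kk M s l y y' * (Kk M s j x y * (om (ρ ^ 2) (‖M.A y (y - x)‖ ^ 2) : ℂ)) -
        β n y' * Kk M s j y' y * (Kk M s l x y' * (om (ρ ^ 2) (‖M.A y' (y' - x)‖ ^ 2) : ℂ))) *
        Lb M n v x := by
      simp only [hT, hG, hP, Fin.sum_univ_two]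
      ring
    rw [e]
    refine (norm_sum_le _ _).trans ((Finset.sum_le_card_nsmul _ _
      (Cp * L * (u y x + u y' x) * (Cl * ‖fderiv ℝ v x‖)) fun n _ => ?_).trans (le_of_eq ?_))
    · rw [norm_mul]
      exact mul_le_mul (hp s L j l x y y' _ _ _ hs hne (by linarith) h1 h2 ((hβ n).1 x hxb)
        ((hβ n).1 y hyb) ((hβ n).1 y' hyb') ((hβ n).2 x hxb y hyb) ((hβ n).2 x hxb y' hyb'))
        ((hl x _).1 n) (norm_nonneg _)
        (mul_nonneg (mul_nonneg hCp hL) (add_nonneg (hu0 _ _) (hu0 _ _)))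
    · simp only [Finset.card_univ, Fintype.card_fin, nsmul_eq_mul, Nat.cast_ofNat]
      ring
  have hTb : ‖∫ x, T x‖ₑ ≤ (2 * Cp * L * Cl).toNNReal * (Cg + Cg) *
      ENNReal.ofReal (ρ⁻¹ ^ 3 / -Real.log ρ) := by
    rw [← setIntegral_eq_integral_of_forall_compl_eq_zero hT0]
    refine (enorm_integral_le_lintegral_enorm _).trans ?_
    have h1 : ∀ᵐ x ∂(volume.restrict (ball c (a + M.K * s))), ‖T x‖ₑ ≤
        (2 * Cp * L * Cl).toNNReal *
          (ENNReal.ofReal (u y x) * eG v x + ENNReal.ofReal (u y' x) * eG v x) := by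
      filter_upwards [ae_restrict_mem measurableSet_ball, ae_restrict_of_ae (Measure.ae_ne volume y),
        ae_restrict_of_ae (Measure.ae_ne volume y')] with x h1 h2 h3 using hT1 x h1 h2 h3
    refine (lintegral_mono_ae h1).trans ?_
    have h2 : Measurable fun x => ENNReal.ofReal (u y x) * eG v x :=
      (Measurable.ennreal_ofReal (by simp only [hu]; fun_prop)).mul (measurable_eG v)
    rw [lintegral_const_mul' _ _ ENNReal.coe_ne_top, lintegral_add_left h2,
      mul_assoc _ ((Cg : ℝ≥0∞) + Cg), add_mul]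
    exact mul_le_mul_right (add_le_add (hg v hv y (hab1 hy) ρ hρ0 hρ)
      (hg v hv y' (hab1 hy') ρ hρ0 hρ)) _
  have e : ∫ x, (∑ n, β n x * Lb M n v x) * (Kk M s j x y * Kk M s l x y') =
      (∫ x, T x) + ∫ x, G x := by
    rw [hT, integral_sub hF hGi, sub_add_cancel]
  rw [e, ENNReal.coe_add, add_mul, ENNReal.coe_mul, ENNReal.coe_add]
  exact (enorm_add_le _ _).trans (add_le_add hTb hGb)

end Pool.Agent.Lib.MP_f2cf74_an
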