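import Pool.Agent.Lib.MP_f2cf74_an.KkF
import Pool.Agent.Lib.MP_f2cf74_an.KF2

open Set Metric MeasureTheory Complex Filter Topology
open scoped ContDiff ENNReal NNReal

noncomputable section

namespace Pool.Agent.Lib.MP_f2cf74_an

/-! Pointwise splitting of the product of two kernels.  Let `d = ‖x - y‖`, `d' = ‖x - y'‖`,
`ρ = ‖y - y'‖`.  Case `d ≤ ρ / 2`: `‖β x K x y' - β y K y y'‖ ≤ C L d ρ⁻⁴` (`Kk_lip`, `ρ ≤ 1`),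
`1 - om ≤ 3 K d / ρ`, the third term is `≤ C L ρ⁻⁶`.  Case `d' ≤ ρ / 2`: symmetric.  Otherwise
the first term is `≤ C L (d⁻⁶ + d'⁻⁶)`, and `om ≤ 3 K⁴ ρ⁴ / d⁴` (`om_facts`). -/

theorem gamPt_near {C1 C2 K L d d' ρ o1 o2 : ℝ} {a b c e βx βy βy' : ℂ} (hC1 : 0 ≤ C1)
    (hC2 : 0 ≤ C2) (hK : 0 ≤ K) (hd : 0 < d) (hρ : 0 < ρ) (hρ1 : ρ ≤ 1)
    (h1 : d ≤ ρ / 2) (h2 : ρ / 2 ≤ d') (hx : ‖βx‖ ≤ L) (hy : ‖βy‖ ≤ L) (hy' : ‖βy'‖ ≤ L)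
    (hxy : ‖βx - βy‖ ≤ L * d) (ha : ‖a‖ ≤ C1 * d⁻¹ ^ 3) (hb : ‖b‖ ≤ C1 * d'⁻¹ ^ 3)
    (hc : ‖c‖ ≤ C1 * ρ⁻¹ ^ 3) (he : ‖e‖ ≤ C1 * ρ⁻¹ ^ 3) (hbc : ‖b - c‖ ≤ C2 * d * ρ⁻¹ ^ 4)
    (ho1 : o1 ≤ 1) (ho1' : 1 - o1 ≤ 3 * (K * d) / ρ) (ho2 : 0 ≤ o2) (ho2' : o2 ≤ 1) :
    ‖βx * a * b - βy * c * (a * (o1 : ℂ)) - βy' * e * (b * (o2 : ℂ))‖ ≤
      16 * (C1 * (C1 + C2) + 3 * K * C1 ^ 2 + 8 * C1 ^ 2) * L * (d⁻¹ ^ 2 * (d + ρ)⁻¹ ^ 4) := by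
  have hL : 0 ≤ L := le_trans (norm_nonneg _) hx
  have hd' : 0 < d' := by linarith
  set u := d⁻¹ with hu
  set r := ρ⁻¹ with hr
  have hu0 : 0 < u := inv_pos.mpr hd
  have hr0 : 0 < r := inv_pos.mpr hρ
  have hud : d * u = 1 := mul_inv_cancel₀ hd.ne'
  have hr1 : 1 ≤ r := by rw [hr]; exact (one_le_inv₀ hρ).mpr hρ1
  have hru : r ≤ u := by rw [hr, hu]; exact inv_anti₀ hd (by linarith)
  have hd'r : d'⁻¹ ≤ 2 * r := by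
    have : d'⁻¹ ≤ (ρ / 2)⁻¹ := inv_anti₀ (by linarith) h2
    calc d'⁻¹ ≤ (ρ / 2)⁻¹ := this
      _ = 2 * r := by rw [hr]; field_simp
  have hrs : r ≤ 2 * (d + ρ)⁻¹ := by
    have : (2 * ρ)⁻¹ ≤ (d + ρ)⁻¹ := inv_anti₀ (by linarith) (by linarith)
    calc r = 2 * (2 * ρ)⁻¹ := by rw [hr]; field_simp
      _ ≤ 2 * (d + ρ)⁻¹ := by linarith
  have hr4 : r ^ 4 ≤ 16 * (d + ρ)⁻¹ ^ 4 := by
    calc r ^ 4 ≤ (2 * (d + ρ)⁻¹) ^ 4 := pow_le_pow_left₀ hr0.le hrs 4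
      _ = 16 * (d + ρ)⁻¹ ^ 4 := by ring
  have e1 : βx * a * b - βy * c * (a * (o1 : ℂ)) - βy' * e * (b * (o2 : ℂ)) =
      a * (βx * (b - c) + (βx - βy) * c) + βy * c * a * ((1 - o1 : ℝ) : ℂ) -
        βy' * e * b * (o2 : ℂ) := by
    push_cast; ring
  have t1 : ‖βx * (b - c) + (βx - βy) * c‖ ≤ L * d * (C1 + C2) * r ^ 4 := by
    have s1 : ‖βx * (b - c)‖ ≤ L * (C2 * d * r ^ 4) := by
      rw [norm_mul]; exact mul_le_mul hx hbc (norm_nonneg _) hL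
    have s2 : ‖(βx - βy) * c‖ ≤ L * d * (C1 * r ^ 3) := by
      rw [norm_mul]; exact mul_le_mul hxy hc (norm_nonneg _) (by positivity)
    have s3 : r ^ 3 ≤ r ^ 4 := pow_le_pow_right₀ hr1 (by norm_num)
    have s4 : L * d * (C1 * r ^ 3) ≤ L * d * (C1 * r ^ 4) := by gcongr
    calc _ ≤ ‖βx * (b - c)‖ + ‖(βx - βy) * c‖ := norm_add_le _ _
      _ ≤ L * (C2 * d * r ^ 4) + L * d * (C1 * r ^ 4) := by linarith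
      _ = L * d * (C1 + C2) * r ^ 4 := by ring
  have t2 : ‖a * (βx * (b - c) + (βx - βy) * c)‖ ≤ C1 * (C1 + C2) * L * (u ^ 2 * r ^ 4) := by
    rw [norm_mul]
    calc _ ≤ C1 * u ^ 3 * (L * d * (C1 + C2) * r ^ 4) :=
          mul_le_mul ha t1 (norm_nonneg _) (by positivity)
      _ = C1 * (C1 + C2) * L * (u ^ 2 * r ^ 4) * (d * u) := by ring
      _ = _ := by rw [hud, mul_one]
  have t3 : ‖βy * c * a * ((1 - o1 : ℝ) : ℂ)‖ ≤ 3 * K * C1 ^ 2 * L * (u ^ 2 * r ^ 4) := by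
    rw [norm_mul, norm_mul, norm_mul, Complex.norm_real, Real.norm_eq_abs,
      abs_of_nonneg (by linarith)]
    have h3 : 1 - o1 ≤ 3 * (K * d) * r := by rw [hr, ← div_eq_mul_inv]; exact ho1'
    calc _ ≤ L * (C1 * r ^ 3) * (C1 * u ^ 3) * (3 * (K * d) * r) := by
          have : 0 ≤ 1 - o1 := by linarith
          gcongr
      _ = 3 * K * C1 ^ 2 * L * (u ^ 2 * r ^ 4) * (d * u) := by ring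
      _ = _ := by rw [hud, mul_one]
  have t4 : ‖βy' * e * b * (o2 : ℂ)‖ ≤ 8 * C1 ^ 2 * L * (u ^ 2 * r ^ 4) := by
    rw [norm_mul, norm_mul, norm_mul, Complex.norm_real, Real.norm_eq_abs, abs_of_nonneg ho2]
    have hb' : ‖b‖ ≤ C1 * (2 * r) ^ 3 := by
      refine hb.trans ?_
      have : 0 ≤ d'⁻¹ := (inv_pos.mpr hd').le
      gcongr
    calc _ ≤ L * (C1 * r ^ 3) * (C1 * (2 * r) ^ 3) * 1 := by gcongr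
      _ = 8 * C1 ^ 2 * L * (r ^ 2 * r ^ 4) := by ring
      _ ≤ 8 * C1 ^ 2 * L * (u ^ 2 * r ^ 4) := by gcongr
  rw [e1]
  calc _ ≤ ‖a * (βx * (b - c) + (βx - βy) * c) + βy * c * a * ((1 - o1 : ℝ) : ℂ)‖ +
        ‖βy' * e * b * (o2 : ℂ)‖ := norm_sub_le _ _
    _ ≤ ‖a * (βx * (b - c) + (βx - βy) * c)‖ + ‖βy * c * a * ((1 - o1 : ℝ) : ℂ)‖ +
        ‖βy' * e * b * (o2 : ℂ)‖ := by gcongr; exact norm_add_le _ _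
    _ ≤ (C1 * (C1 + C2) + 3 * K * C1 ^ 2 + 8 * C1 ^ 2) * L * (u ^ 2 * r ^ 4) := by linarith
    _ ≤ (C1 * (C1 + C2) + 3 * K * C1 ^ 2 + 8 * C1 ^ 2) * L * (u ^ 2 * (16 * (d + ρ)⁻¹ ^ 4)) := by
        gcongr
    _ = _ := by ring

theorem gamPt_half {C1 K L d ρ t o : ℝ} {a c β : ℂ} (hC1 : 0 ≤ C1) (hK : 0 ≤ K) (hd : 0 < d)
    (hρ : 0 < ρ) (h1 : ρ / 2 ≤ d) (hβ : ‖β‖ ≤ L) (ha : ‖a‖ ≤ C1 * d⁻¹ ^ 3)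
    (hc : ‖c‖ ≤ C1 * ρ⁻¹ ^ 3) (ho : 0 ≤ o) (hot : o * t ^ 4 ≤ 3 * ρ ^ 4) (hdt : d ≤ K * t) :
    ‖β * c * (a * (o : ℂ))‖ ≤ 6 * K ^ 4 * C1 ^ 2 * L * d⁻¹ ^ 6 := by
  have hL : 0 ≤ L := le_trans (norm_nonneg _) hβ
  set u := d⁻¹ with hu
  set r := ρ⁻¹ with hr
  have hu0 : 0 < u := inv_pos.mpr hd
  have hr0 : 0 < r := inv_pos.mpr hρ
  have hud : d * u = 1 := mul_inv_cancel₀ hd.ne'
  have hrρ : ρ * r = 1 := mul_inv_cancel₀ hρ.ne'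
  have h2 : o * d ^ 4 ≤ 3 * K ^ 4 * ρ ^ 4 := by
    calc o * d ^ 4 ≤ o * (K * t) ^ 4 := by gcongr
      _ = K ^ 4 * (o * t ^ 4) := by ring
      _ ≤ K ^ 4 * (3 * ρ ^ 4) := by gcongr
      _ = _ := by ring
  have h3 : o ≤ 3 * K ^ 4 * ρ ^ 4 * u ^ 4 := by
    calc o = o * (d * u) ^ 4 := by rw [hud]; ring
      _ = o * d ^ 4 * u ^ 4 := by ring
      _ ≤ 3 * K ^ 4 * ρ ^ 4 * u ^ 4 := by gcongr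
  have h4 : ρ * u ≤ 2 := by
    calc ρ * u ≤ (2 * d) * u := by gcongr; linarith
      _ = 2 := by rw [mul_assoc, hud, mul_one]
  rw [norm_mul, norm_mul, norm_mul, Complex.norm_real, Real.norm_eq_abs, abs_of_nonneg ho]
  calc _ ≤ L * (C1 * r ^ 3) * (C1 * u ^ 3 * (3 * K ^ 4 * ρ ^ 4 * u ^ 4)) := by gcongr
    _ = 3 * K ^ 4 * C1 ^ 2 * L * u ^ 6 * (ρ * u) * (ρ * r) ^ 3 := by ring
    _ ≤ 3 * K ^ 4 * C1 ^ 2 * L * u ^ 6 * 2 * (ρ * r) ^ 3 := by gcongr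
    _ = _ := by rw [hrρ]; ring

theorem gamPt_six {d ρ : ℝ} (hd : 0 < d) (hρ : 0 < ρ) (h1 : ρ / 2 ≤ d) :
    d⁻¹ ^ 6 ≤ 81 * (d⁻¹ ^ 2 * (d + ρ)⁻¹ ^ 4) := by
  have h2 : d⁻¹ ≤ 3 * (d + ρ)⁻¹ := by
    have : (3 * d)⁻¹ ≤ (d + ρ)⁻¹ := inv_anti₀ (by linarith) (by linarith)
    calc d⁻¹ = 3 * (3 * d)⁻¹ := by field_simp
      _ ≤ 3 * (d + ρ)⁻¹ := by linarith
  have h0 : 0 ≤ d⁻¹ := (inv_pos.mpr hd).le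
  calc d⁻¹ ^ 6 = d⁻¹ ^ 2 * d⁻¹ ^ 4 := by ring
    _ ≤ d⁻¹ ^ 2 * (3 * (d + ρ)⁻¹) ^ 4 := by gcongr
    _ = _ := by ring

theorem gamPt_far {C1 K L d d' ρ t1 t2 o1 o2 : ℝ} {a b c e βx βy βy' : ℂ} (hC1 : 0 ≤ C1)
    (hK : 0 ≤ K) (hρ : 0 < ρ) (h1 : ρ / 2 ≤ d) (h2 : ρ / 2 ≤ d') (hx : ‖βx‖ ≤ L)
    (hy : ‖βy‖ ≤ L) (hy' : ‖βy'‖ ≤ L) (ha : ‖a‖ ≤ C1 * d⁻¹ ^ 3) (hb : ‖b‖ ≤ C1 * d'⁻¹ ^ 3)
    (hc : ‖c‖ ≤ C1 * ρ⁻¹ ^ 3) (he : ‖e‖ ≤ C1 * ρ⁻¹ ^ 3) (ho1 : 0 ≤ o1) (ho2 : 0 ≤ o2)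
    (hot1 : o1 * t1 ^ 4 ≤ 3 * ρ ^ 4) (hot2 : o2 * t2 ^ 4 ≤ 3 * ρ ^ 4) (hdt1 : d ≤ K * t1)
    (hdt2 : d' ≤ K * t2) :
    ‖βx * a * b - βy * c * (a * (o1 : ℂ)) - βy' * e * (b * (o2 : ℂ))‖ ≤
      81 * (C1 ^ 2 + 6 * K ^ 4 * C1 ^ 2) * L *
        (d⁻¹ ^ 2 * (d + ρ)⁻¹ ^ 4 + d'⁻¹ ^ 2 * (d' + ρ)⁻¹ ^ 4) := by
  have hL : 0 ≤ L := le_trans (norm_nonneg _) hx
  have hd : 0 < d := by linarith
  have hd' : 0 < d' := by linarith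
  have s1 := gamPt_half hC1 hK hd hρ h1 hy ha hc ho1 hot1 hdt1
  have s2 := gamPt_half hC1 hK hd' hρ h2 hy' hb he ho2 hot2 hdt2
  have s3 := gamPt_six hd hρ h1
  have s4 := gamPt_six hd' hρ h2
  have hu : 0 ≤ d⁻¹ := (inv_pos.mpr hd).le
  have hu' : 0 ≤ d'⁻¹ := (inv_pos.mpr hd').le
  have s0 : ‖βx * a * b‖ ≤ C1 ^ 2 * L * (d⁻¹ ^ 6 + d'⁻¹ ^ 6) := by
    rw [norm_mul, norm_mul]
    have h5 : d⁻¹ ^ 3 * d'⁻¹ ^ 3 ≤ d⁻¹ ^ 6 + d'⁻¹ ^ 6 := by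
      nlinarith [sq_nonneg (d⁻¹ ^ 3 - d'⁻¹ ^ 3), mul_nonneg (pow_nonneg hu 3) (pow_nonneg hu' 3)]
    calc _ ≤ L * (C1 * d⁻¹ ^ 3) * (C1 * d'⁻¹ ^ 3) := by gcongr
      _ = C1 ^ 2 * L * (d⁻¹ ^ 3 * d'⁻¹ ^ 3) := by ring
      _ ≤ _ := by gcongr
  have s5 : d⁻¹ ^ 6 + d'⁻¹ ^ 6 ≤
      81 * (d⁻¹ ^ 2 * (d + ρ)⁻¹ ^ 4 + d'⁻¹ ^ 2 * (d' + ρ)⁻¹ ^ 4) := by linarith
  calc _ ≤ ‖βx * a * b - βy * c * (a * (o1 : ℂ))‖ + ‖βy' * e * (b * (o2 : ℂ))‖ := norm_sub_le _ _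
    _ ≤ ‖βx * a * b‖ + ‖βy * c * (a * (o1 : ℂ))‖ + ‖βy' * e * (b * (o2 : ℂ))‖ := by
        gcongr; exact norm_sub_le _ _
    _ ≤ (C1 ^ 2 + 6 * K ^ 4 * C1 ^ 2) * L * (d⁻¹ ^ 6 + d'⁻¹ ^ 6) := by linarith
    _ ≤ (C1 ^ 2 + 6 * K ^ 4 * C1 ^ 2) * L *
        (81 * (d⁻¹ ^ 2 * (d + ρ)⁻¹ ^ 4 + d'⁻¹ ^ 2 * (d' + ρ)⁻¹ ^ 4)) := by gcongr
    _ = _ := by ring

theorem gam_pt (M : Model) : ∃ C : ℝ, 0 ≤ C ∧ ∀ (s L : ℝ) (j l : Fin 2) (x y y' : E)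
    (βx βy βy' : ℂ), 0 < s → y ≠ y' → ‖y - y'‖ ≤ 1 → x ≠ y → x ≠ y' → ‖βx‖ ≤ L → ‖βy‖ ≤ L →
    ‖βy'‖ ≤ L → ‖βx - βy‖ ≤ L * ‖x - y‖ → ‖βx - βy'‖ ≤ L * ‖x - y'‖ →
    ‖βx * Kk M s j x y * Kk M s l x y' -
      βy * Kk M s l y y' * (Kk M s j x y * (om (‖y - y'‖ ^ 2) (‖M.A y (y - x)‖ ^ 2) : ℂ)) -
      βy' * Kk M s j y' y * (Kk M s l x y' * (om (‖y - y'‖ ^ 2) (‖M.A y' (y' - x)‖ ^ 2) : ℂ))‖ ≤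
      C * L * (‖x - y‖⁻¹ ^ 2 * (‖x - y‖ + ‖y - y'‖)⁻¹ ^ 4 +
        ‖x - y'‖⁻¹ ^ 2 * (‖x - y'‖ + ‖y - y'‖)⁻¹ ^ 4) := by
  obtain ⟨C1, hC1, hb⟩ := Kk_bound M
  obtain ⟨C2, hC2, hl⟩ := Kk_lip M
  have hK : 0 ≤ M.K := M.K_pos.le
  set CA := 16 * (C1 * (C1 + C2) + 3 * M.K * C1 ^ 2 + 8 * C1 ^ 2) with hCA
  set CB := 81 * (C1 ^ 2 + 6 * M.K ^ 4 * C1 ^ 2) with hCB
  have hCA0 : 0 ≤ CA := by positivity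
  have hCB0 : 0 ≤ CB := by positivity
  refine ⟨CA + CB, by positivity, ?_⟩
  intro s L j l x y y' βx βy βy' hs hyy hρ1 hxy hxy' hx hy hy' hl1 hl2
  have hL : 0 ≤ L := le_trans (norm_nonneg _) hx
  have hd : 0 < ‖x - y‖ := norm_pos_iff.mpr (sub_ne_zero.mpr hxy)
  have hd' : 0 < ‖x - y'‖ := norm_pos_iff.mpr (sub_ne_zero.mpr hxy')
  have hρ : 0 < ‖y - y'‖ := norm_pos_iff.mpr (sub_ne_zero.mpr hyy)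
  have ha := hb s j x y hs
  have hb' := hb s l x y' hs
  have hc := hb s l y y' hs
  have he := hb s j y' y hs
  rw [norm_sub_rev y' y] at he
  obtain ⟨o10, o11, o12, o13⟩ := om_facts hρ (norm_nonneg (M.A y (y - x)))
  obtain ⟨o20, o21, o22, o23⟩ := om_facts hρ (norm_nonneg (M.A y' (y' - x)))
  have up1 : ‖M.A y (y - x)‖ ≤ M.K * ‖x - y‖ := by
    rw [norm_sub_rev x y]; exact M.norm_A _ _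
  have up2 : ‖M.A y' (y' - x)‖ ≤ M.K * ‖x - y'‖ := by
    rw [norm_sub_rev x y']; exact M.norm_A _ _
  have lo1 : ‖x - y‖ ≤ M.K * ‖M.A y (y - x)‖ := by
    rw [norm_sub_rev x y]; exact M.low _ _
  have lo2 : ‖x - y'‖ ≤ M.K * ‖M.A y' (y' - x)‖ := by
    rw [norm_sub_rev x y']; exact M.low _ _
  have tri : ‖y - y'‖ ≤ ‖x - y‖ + ‖x - y'‖ := by
    calc ‖y - y'‖ = ‖(x - y') - (x - y)‖ := by congr 1; abel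
      _ ≤ ‖x - y'‖ + ‖x - y‖ := norm_sub_le _ _
      _ = _ := add_comm _ _
  have P1 : 0 ≤ ‖x - y‖⁻¹ ^ 2 * (‖x - y‖ + ‖y - y'‖)⁻¹ ^ 4 := by positivity
  have P2 : 0 ≤ ‖x - y'‖⁻¹ ^ 2 * (‖x - y'‖ + ‖y - y'‖)⁻¹ ^ 4 := by positivity
  by_cases h1 : ‖x - y‖ ≤ ‖y - y'‖ / 2
  · have hbc := hl s l x y y' hs hyy h1
    have o12' : 1 - om (‖y - y'‖ ^ 2) (‖M.A y (y - x)‖ ^ 2) ≤
        3 * (M.K * ‖x - y‖) / ‖y - y'‖ := by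
      refine o12.trans ?_
      gcongr
    have := gamPt_near hC1 hC2 hK hd hρ hρ1 h1 (by linarith) hx hy hy' hl1 ha hb' hc he hbc o11
      o12' o20 o21
    refine this.trans ?_
    rw [← hCA]
    gcongr
    · linarith
    · linarith
  · by_cases h2 : ‖x - y'‖ ≤ ‖y - y'‖ / 2
    · have hae := hl s j x y' y hs hyy.symm (by rw [norm_sub_rev y' y]; exact h2)
      rw [norm_sub_rev y' y] at hae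
      have o22' : 1 - om (‖y - y'‖ ^ 2) (‖M.A y' (y' - x)‖ ^ 2) ≤
          3 * (M.K * ‖x - y'‖) / ‖y - y'‖ := by
        refine o22.trans ?_
        gcongr
      have := gamPt_near hC1 hC2 hK hd' hρ hρ1 h2 (by linarith) hx hy' hy hl2 hb' ha he hc hae o21
        o22' o10 o11
      have e1 : ∀ a b p q : ℂ, βx * a * b - p - q = βx * b * a - q - p := by
        intro a b p q; ring
      rw [e1]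
      refine this.trans ?_
      rw [← hCA]
      gcongr
      · linarith
      · linarith
    · have := gamPt_far hC1 hK hρ (not_le.mp h1).le (not_le.mp h2).le hx hy hy' ha hb' hc he o10
        o20 o13 o23 lo1 lo2
      refine this.trans ?_
      rw [← hCB]
      gcongr
      linarith

end Pool.Agent.Lib.MP_f2cf74_an
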