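import Pool.Agent.Lib.MP_f2cf74_an.Kp
import Pool.Agent.Lib.MP_f2cf74_an.ModB

open Set Metric MeasureTheory Complex Filter Topology
open scoped ContDiff ENNReal NNReal

noncomputable section

namespace Pool.Agent.Lib.MP_f2cf74_an

/-! Integration by parts.  `ibp`: write `V x = ∑ i, V x i • eb i` and use
`integral_bilinear_hasFDerivAt_right_eq_neg_left_of_integrable` (or
`integral_smul_fderiv_eq_neg_fderiv_smul_of_integrable`) in the direction `eb i`.
`si`: apply the same to `(1 - θ ((x - y) / ε)) • Φ x` for a bump `θ` equal to `1` near `0`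
(this function is differentiable everywhere, bounded with bounded derivative and compact support)
and let `ε → 0` by dominated convergence; the term with the derivative of `θ` is bounded by
`C ε⁻¹ ‖Φ‖ ≤ C' sg y x` on `ball y ε`, whose integral tends to `0`.  Measurability of the
derivative: `measurable_fderiv`. -/

theorem ibp_lin {G : Type} [NormedAddCommGroup G] [NormedSpace ℝ G] (L : E →L[ℝ] G) (v : E) :
    L v = ∑ i, v i • L (eb i) := by
  have e : v = ∑ i, v i • eb i := by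
    ext j
    simp [eb, Pi.single_apply]
  conv_lhs => rw [e, map_sum]
  simp only [map_smul]

theorem ibp_coord {V : E → E} (hV : ContDiff ℝ 1 V) (i : Fin 4) :
    ContDiff ℝ 1 (fun x => V x i) ∧ ∀ x v, fderiv ℝ (fun x => V x i) x v = fderiv ℝ V x v i := by
  refine ⟨(EuclideanSpace.proj (𝕜 := ℝ) i).contDiff.comp hV, fun x v => ?_⟩
  exact congrArg (fun L : E →L[ℝ] ℝ => L v) ((EuclideanSpace.proj (𝕜 := ℝ) i).hasFDerivAt.comp x
    (hV.differentiable one_ne_zero x).hasFDerivAt).fderiv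

theorem ibp_int {G : Type} [NormedAddCommGroup G] [NormedSpace ℝ G] {K : Set E} (hK : IsCompact K)
    {f : E → ℝ} (hf : Continuous f) {g : E → G} (hg : Integrable g) (h : ∀ x, x ∉ K → g x = 0) :
    Integrable fun x => f x • g x :=
  (hg.integrableOn.continuousOn_smul hf.continuousOn hK).integrable_of_forall_notMem_eq_zero
    fun x hx => by rw [h x hx, smul_zero]

theorem ibp_core {G : Type} [NormedAddCommGroup G] [NormedSpace ℝ G] {K : Set E} (hK : IsCompact K)
    {Φ : E → G} (i0 : Integrable Φ) (i1 : ∀ v, Integrable fun x => fderiv ℝ Φ x v)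
    (h0 : ∀ x, x ∉ K → Φ x = 0) {V : E → E} (hV : ContDiff ℝ 1 V) :
    Integrable (fun x => fderiv ℝ Φ x (V x)) ∧ Integrable (fun x => divg V x • Φ x) ∧
      ((∀ x ∈ tsupport V, DifferentiableAt ℝ Φ x) →
        ∫ x, (fderiv ℝ Φ x (V x) + divg V x • Φ x) = 0) := by
  have h1 : ∀ v x, x ∉ K → fderiv ℝ Φ x v = 0 := by
    intro v x hx
    have e : Φ =ᶠ[𝓝 x] fun _ => 0 := by
      filter_upwards [hK.isClosed.isOpen_compl.mem_nhds hx] with z hz using h0 z hz
    rw [e.fderiv_eq]
    simp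
  have a1 := fun i => ibp_int hK (ibp_coord hV i).1.continuous (i1 (eb i)) (h1 _)
  have a2 := fun i => ibp_int hK (f := fun x => fderiv ℝ (fun x => V x i) x (eb i))
    (((ibp_coord hV i).1.continuous_fderiv one_ne_zero).clm_apply continuous_const) i0 h0
  have e1 : (fun x => fderiv ℝ Φ x (V x)) = fun x => ∑ i, V x i • fderiv ℝ Φ x (eb i) :=
    funext fun x => ibp_lin _ _
  have e2 : (fun x => divg V x • Φ x) =
      fun x => ∑ i, fderiv ℝ (fun x => V x i) x (eb i) • Φ x := funext fun x => by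
    simp only [divg, Finset.sum_smul, (ibp_coord hV _).2]
  have b1 : Integrable fun x => fderiv ℝ Φ x (V x) :=
    e1 ▸ integrable_finsetSum _ fun i _ => a1 i
  have b2 : Integrable fun x => divg V x • Φ x := e2 ▸ integrable_finsetSum _ fun i _ => a2 i
  refine ⟨b1, b2, fun hd => ?_⟩
  rw [integral_add b1 b2, e1, e2, integral_finsetSum _ fun i _ => a1 i,
    integral_finsetSum _ fun i _ => a2 i, ← Finset.sum_add_distrib]
  refine Finset.sum_eq_zero fun i _ => ?_
  have hs : tsupport (fun x => V x i) ⊆ tsupport V := closure_mono fun z hz =>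
    Function.mem_support.2 fun e => Function.mem_support.1 hz (by simp [e])
  rw [integral_smul_fderiv_eq_neg_fderiv_smul_of_integrable (a2 i) (a1 i)
    (ibp_int hK (ibp_coord hV i).1.continuous i0 h0)
    (fun x _ => (ibp_coord hV i).1.differentiable one_ne_zero x)
    fun x hx => hd x (hs hx), neg_add_cancel]

theorem ibp_divg {χ : E → ℝ} (hχ : ContDiff ℝ 1 χ) {V : E → E} (hV : ContDiff ℝ 1 V) (x : E) :
    divg (fun x => χ x • V x) x = χ x * divg V x + fderiv ℝ χ x (V x) := by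
  rw [divg, divg, fderiv_fun_smul (hχ.differentiable one_ne_zero x)
    (hV.differentiable one_ne_zero x), ibp_lin (fderiv ℝ χ x), Finset.mul_sum,
    ← Finset.sum_add_distrib]
  refine Finset.sum_congr rfl fun i _ => ?_
  simp [mul_comm]

theorem ibp_cut (y : E) : ∃ (χ : ℕ → E → ℝ) (K : ℝ), (∀ n, ContDiff ℝ 1 (χ n)) ∧
    (∀ n, χ n =ᶠ[𝓝 y] 0) ∧ (∀ n x, |χ n x| ≤ 1) ∧
    (∀ n x, ‖fderiv ℝ (χ n) x‖ * ‖x - y‖ ≤ K) ∧
    ∀ x, x ≠ y → ∀ᶠ n in atTop, χ n x = 1 ∧ fderiv ℝ (χ n) x = 0 := by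
  let θ : ContDiffBump (0 : E) := ⟨1, 2, one_pos, one_lt_two⟩
  have hθ : ContDiff ℝ 1 θ := θ.contDiff
  obtain ⟨K, hK⟩ := (((hθ.continuous_fderiv one_ne_zero).norm.mul
    continuous_norm).bounded_above_of_compact_support
      (θ.hasCompactSupport.fderiv ℝ).norm.mul_right)
  have hD : ∀ (n : ℕ) x, fderiv ℝ (fun x => 1 - θ (((n : ℝ) + 1) • (x - y))) x =
      -(((n : ℝ) + 1) • fderiv ℝ θ (((n : ℝ) + 1) • (x - y))) := by
    intro n x
    have h := ((hθ.differentiable one_ne_zero _).hasFDerivAt.comp x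
      (((hasFDerivAt_id x).sub_const y).const_smul ((n : ℝ) + 1))).const_sub 1
    refine h.fderiv.trans ?_
    ext v
    simp
  refine ⟨fun n x => 1 - θ (((n : ℝ) + 1) • (x - y)), K, fun n => contDiff_const.sub
    (hθ.comp ((contDiff_id.sub contDiff_const).const_smul _)), fun n => ?_, fun n x => ?_,
    fun n x => ?_, fun x hx => ?_⟩
  · have h : Tendsto (fun x => ((n : ℝ) + 1) • (x - y)) (𝓝 y) (𝓝 0) :=
      Continuous.tendsto' (by fun_prop) _ _ (by simp)
    filter_upwards [h.eventually θ.eventuallyEq_one] with x hx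
    simp only [hx, Pi.one_apply, sub_self, Pi.zero_apply]
  · have h1 := θ.nonneg (x := ((n : ℝ) + 1) • (x - y))
    have h2 := θ.le_one (x := ((n : ℝ) + 1) • (x - y))
    exact abs_le.2 ⟨by linarith, by linarith⟩
  · have h := (le_abs_self _).trans (hK (((n : ℝ) + 1) • (x - y)))
    rw [hD, norm_neg, norm_smul]
    refine le_of_eq_of_le ?_ h
    simp only [Pi.mul_apply, norm_smul]
    ring
  · have hp : 0 < ‖x - y‖ := norm_pos_iff.2 (sub_ne_zero.2 hx)
    filter_upwards [tendsto_natCast_atTop_atTop.eventually_ge_atTop (2 / ‖x - y‖)] with n hn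
    have h1 : ((n : ℝ) + 1) • (x - y) ∉ tsupport θ := by
      rw [θ.tsupport_eq, mem_closedBall_zero_iff, norm_smul, Real.norm_of_nonneg (by positivity),
        not_le]
      rw [div_le_iff₀ hp] at hn
      show 2 < _
      linarith
    rw [hD, image_eq_zero_of_notMem_tsupport h1, fderiv_of_notMem_tsupport ℝ h1]
    simp

theorem ibp {G : Type} [NormedAddCommGroup G] [NormedSpace ℝ G] [FiniteDimensional ℝ G]
    {V : E → E} (hV : ContDiff ℝ 1 V) {Φ : E → G} (hΦ : ContDiff ℝ 1 Φ)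
    (hc : HasCompactSupport Φ) : ∫ x, (fderiv ℝ Φ x (V x) + divg V x • Φ x) = 0 := by
  exact (ibp_core hc.isCompact (hΦ.continuous.integrable_of_hasCompactSupport hc)
    (fun v => ((hΦ.continuous_fderiv one_ne_zero).clm_apply
      continuous_const).integrable_of_hasCompactSupport (hc.fderiv_apply ℝ v))
    (fun x hx => image_eq_zero_of_notMem_tsupport hx) hV).2.2
    fun x _ => hΦ.differentiable one_ne_zero x

theorem si {G : Type} [NormedAddCommGroup G] [NormedSpace ℝ G] [FiniteDimensional ℝ G]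
    {V : E → E} (hV : ContDiff ℝ 1 V) {Φ : E → G} (y : E) (R C : ℝ)
    (hd : ∀ x, x ≠ y → DifferentiableAt ℝ Φ x) (h0 : ∀ x, R ≤ ‖x - y‖ → Φ x = 0)
    (h1 : ∀ x, x ≠ y → ‖x - y‖ < R → ‖Φ x‖ ≤ C * (‖x - y‖ * sg y x))
    (h2 : ∀ x, x ≠ y → ‖x - y‖ < R → ‖fderiv ℝ Φ x‖ ≤ C * sg y x) :
    Integrable (fun x => fderiv ℝ Φ x (V x)) ∧ Integrable (fun x => divg V x • Φ x) ∧
      ∫ x, (fderiv ℝ Φ x (V x) + divg V x • Φ x) = 0 := by
  have := FiniteDimensional.complete ℝ G
  borelize G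
  obtain ⟨S, hS⟩ : ∃ S : E → ℝ, S = (ball y R).indicator (sg y) := ⟨_, rfl⟩
  have iS : Integrable S := hS ▸ (integrable_indicator_iff measurableSet_ball).2
    (integrableOn_sg y R)
  have hK := isCompact_closedBall y R
  have S0 : ∀ x, x ∉ closedBall y R → S x = 0 := fun x hx => by
    rw [hS, indicator_of_notMem fun h => hx (ball_subset_closedBall h)]
  have P0 : ∀ x, x ∉ closedBall y R → Φ x = 0 := fun x hx =>
    h0 x (not_le.1 (mem_closedBall_iff_norm.not.1 hx)).le
  have a1 : ∀ᵐ x, x ≠ y ∧ 0 ≤ |C| * S x ∧ ‖Φ x‖ ≤ ‖x - y‖ * (|C| * S x) ∧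
      ‖fderiv ℝ Φ x‖ ≤ |C| * S x := by
    filter_upwards [measure_eq_zero_iff_ae_notMem.1 (Measure.addHaar_sphere volume y R),
      measure_eq_zero_iff_ae_notMem.1 (measure_singleton (μ := volume) y)] with x hx hy
    rcases lt_or_gt_of_ne (mem_sphere_iff_norm.not.1 hx) with h | h
    · have hs : 0 ≤ sg y x := Real.rpow_nonneg (norm_nonneg _) _
      rw [hS, indicator_of_mem (mem_ball_iff_norm.2 h), mul_left_comm]
      exact ⟨hy, by positivity,
        (h1 x hy h).trans (mul_le_mul_of_nonneg_right (le_abs_self C) (by positivity)),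
        (h2 x hy h).trans (mul_le_mul_of_nonneg_right (le_abs_self C) hs)⟩
    · have hx' : x ∉ closedBall y R := mem_closedBall_iff_norm.not.2 (not_le.2 h)
      have e : Φ =ᶠ[𝓝 x] fun _ => 0 := by
        filter_upwards [hK.isClosed.isOpen_compl.mem_nhds hx'] with z hz using P0 z hz
      rw [S0 x hx', P0 x hx', e.fderiv_eq]
      simpa using hy
  have iS' : ∀ {f : E → ℝ}, Continuous f → Integrable fun x => f x * (|C| * S x) := fun hf =>
    ibp_int hK hf (iS.const_mul |C|) fun x hx => by rw [S0 x hx, mul_zero]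
  have i0 : Integrable Φ := by
    refine (iS' (continuous_id.sub continuous_const).norm).mono' ?_ (a1.mono fun x hx => hx.2.2.1)
    rw [← restrict_compl_singleton (μ := volume) y]
    exact ContinuousOn.aestronglyMeasurable
      (fun x hx => (hd x hx).continuousAt.continuousWithinAt) (measurableSet_singleton y).compl
  have i1 : ∀ v, Integrable fun x => fderiv ℝ Φ x v := fun v =>
    ((iS.const_mul |C|).mul_const ‖v‖).mono'
      (measurable_fderiv_apply_const ℝ Φ v).aestronglyMeasurable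
      (a1.mono fun x hx => (fderiv ℝ Φ x).le_of_opNorm_le hx.2.2.2 v)
  obtain ⟨b1, b2, -⟩ := ibp_core hK i0 i1 P0 hV
  refine ⟨b1, b2, ?_⟩
  obtain ⟨χ, K, c1, c2, c3, c4, c5⟩ := ibp_cut y
  have hn := fun n => ibp_core hK i0 i1 P0 ((c1 n).smul hV)
  have e : ∀ n x, fderiv ℝ Φ x (χ n x • V x) + divg (fun x => χ n x • V x) x • Φ x =
      χ n x • (fderiv ℝ Φ x (V x) + divg V x • Φ x) + fderiv ℝ (χ n) x (V x) • Φ x := by
    intro n x
    rw [ibp_divg (c1 n) hV, map_smul, add_smul, smul_add, mul_smul, add_assoc]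
  have h3 := tendsto_integral_of_dominated_convergence (μ := volume)
    (F := fun n x => fderiv ℝ Φ x (χ n x • V x) + divg (fun x => χ n x • V x) x • Φ x)
    (f := fun x => fderiv ℝ Φ x (V x) + divg V x • Φ x)
    (fun x => ‖fderiv ℝ Φ x (V x) + divg V x • Φ x‖ + K * ‖V x‖ * (|C| * S x))
    (fun n => ((hn n).1.add (hn n).2.1).aestronglyMeasurable)
    ((b1.add b2).norm.add (iS' (continuous_const.mul hV.continuous.norm)))
    (fun n => a1.mono fun x hx => by
      rw [e]
      refine (norm_add_le _ _).trans (add_le_add ?_ ?_)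
      · rw [norm_smul]
        exact mul_le_of_le_one_left (norm_nonneg _) (c3 n x)
      · have h4 := hx.2.1
        calc ‖fderiv ℝ (χ n) x (V x) • Φ x‖
            ≤ ‖fderiv ℝ (χ n) x‖ * ‖V x‖ * (‖x - y‖ * (|C| * S x)) := by
              rw [norm_smul]
              exact mul_le_mul (ContinuousLinearMap.le_opNorm _ _) hx.2.2.1 (norm_nonneg _)
                (by positivity)
          _ = ‖fderiv ℝ (χ n) x‖ * ‖x - y‖ * ‖V x‖ * (|C| * S x) := by ring
          _ ≤ K * ‖V x‖ * (|C| * S x) := by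
              gcongr
              exact c4 n x)
    (a1.mono fun x hx => tendsto_const_nhds.congr' ((c5 x hx.1).mono fun n h => by
      beta_reduce
      rw [e, h.1, h.2]
      simp))
  refine tendsto_nhds_unique h3 (tendsto_const_nhds.congr fun n => ((hn n).2.2 fun x hx =>
    hd x fun hxy => ?_).symm)
  exact notMem_tsupport_iff_eventuallyEq.2 (c2 n) (hxy ▸ tsupport_smul_subset_left _ _ hx)

/-- The version for the complex fields `L_j`, `Lbar_j`. -/
theorem siL (M : Model) (c : ℂ) (j : Fin 2) {Φ : E → ℂ} (y : E) (R C : ℝ)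
    (hd : ∀ x, x ≠ y → DifferentiableAt ℝ Φ x) (h0 : ∀ x, R ≤ ‖x - y‖ → Φ x = 0)
    (h1 : ∀ x, x ≠ y → ‖x - y‖ < R → ‖Φ x‖ ≤ C * (‖x - y‖ * sg y x))
    (h2 : ∀ x, x ≠ y → ‖x - y‖ < R → ‖fderiv ℝ Φ x‖ ≤ C * sg y x) :
    Integrable (fun x => Lc M c j Φ x + dvc M c j x * Φ x) ∧
      ∫ x, (Lc M c j Φ x + dvc M c j x * Φ x) = 0 := by
  obtain ⟨a1, a2, a3⟩ := si (V := fun _ => M.X j) contDiff_const y R C hd h0 h1 h2
  obtain ⟨b1, b2, b3⟩ := si (V := fun x => M.J x (M.X j))
    ((M.smJ.of_le (by exact_mod_cast le_top)).clm_apply contDiff_const) y R C hd h0 h1 h2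
  have e : (fun x => Lc M c j Φ x + dvc M c j x * Φ x) = fun x =>
      2⁻¹ * (fderiv ℝ Φ x (M.X j) + divg (fun _ => M.X j) x • Φ x) +
        c / 2 * (fderiv ℝ Φ x (M.J x (M.X j)) + divg (fun x => M.J x (M.X j)) x • Φ x) := by
    funext x
    have e0 : divg (fun _ => M.X j) x = 0 := by simp [divg]
    rw [Lc, dvc, e0, zero_smul, real_smul]
    ring
  have a4 : Integrable fun x => 2⁻¹ * (fderiv ℝ Φ x (M.X j) + divg (fun _ => M.X j) x • Φ x) :=
    (a1.add a2).const_mul 2⁻¹
  have b4 : Integrable fun x =>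
      c / 2 * (fderiv ℝ Φ x (M.J x (M.X j)) + divg (fun x => M.J x (M.X j)) x • Φ x) :=
    (b1.add b2).const_mul (c / 2)
  rw [e, integral_add a4 b4, integral_const_mul, integral_const_mul, a3, b3]
  exact ⟨a4.add b4, by simp⟩

end Pool.Agent.Lib.MP_f2cf74_an
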