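import Pool.Agent.Lib.MP_f2cf74_an.Stokes
import Pool.Agent.Lib.MP_f2cf74_an.AlgC

open Set Metric MeasureTheory Complex Filter Topology
open scoped ContDiff ENNReal NNReal

noncomputable section

namespace Pool.Agent.Lib.MP_f2cf74_an

/-! Naturality under a local diffeomorphism intertwining `J` and `J'`.
`Om_nat`: near `x`, `eta J (V ∘ Φ) y Z = eta J' V (Φ y) (DΦ y Z)`; differentiate; the terms with
`D²Φ` cancel by symmetry (or expand `Om` directly after differentiating `hJ`).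
`dens_nat`: for `Ψ Y Z = (Om Y Z + Om (J Y) (J Z)) / 2` one has `hm Ψ = H`, `sig Ψ = 0`, so
`16 dens * |Dd H H| = |top22 Ψ Ψ eb|` (`top22_frame`, `top22_det`); `Ψ` pulls back, and
`det4 (fun i => L (eb i)) = L.det`. -/

theorem Om_nat {J J' : E → E →L[ℝ] E} {Φ : E → E} {V : E → ℝ} {x : E}
    (hJ1 : ContDiffAt ℝ 1 J x) (hJ2 : ContDiffAt ℝ 1 J' (Φ x)) (hΦ : ContDiffAt ℝ 2 Φ x)
    (hV : ContDiffAt ℝ 2 V (Φ x))
    (hJ : ∀ᶠ y in 𝓝 x, ∀ Y, J' (Φ y) (fderiv ℝ Φ y Y) = fderiv ℝ Φ y (J y Y)) (Y Z : E) :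
    Om J (fun y => V (Φ y)) x Y Z = Om J' V (Φ x) (fderiv ℝ Φ x Y) (fderiv ℝ Φ x Z) := by
  have hP : HasFDerivAt (fderiv ℝ Φ) (fderiv ℝ (fderiv ℝ Φ) x) x :=
    ((hΦ.fderiv_right (m := 1) (by norm_num)).differentiableAt one_ne_zero).hasFDerivAt
  have hQ : HasFDerivAt (fderiv ℝ V) (fderiv ℝ (fderiv ℝ V) (Φ x)) (Φ x) :=
    ((hV.fderiv_right (m := 1) (by norm_num)).differentiableAt one_ne_zero).hasFDerivAt
  have hΦ1 : HasFDerivAt Φ (fderiv ℝ Φ x) x := (hΦ.differentiableAt two_ne_zero).hasFDerivAt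
  have hA : HasFDerivAt J (fderiv ℝ J x) x := (hJ1.differentiableAt one_ne_zero).hasFDerivAt
  have hB : HasFDerivAt J' (fderiv ℝ J' (Φ x)) (Φ x) :=
    (hJ2.differentiableAt one_ne_zero).hasFDerivAt
  have hf1 : fderiv ℝ (fun y => V (Φ y)) =ᶠ[𝓝 x]
      fun y => (fderiv ℝ V (Φ y)).comp (fderiv ℝ Φ y) := by
    filter_upwards [hΦ.eventually (by simp),
      hΦ.continuousAt.tendsto.eventually (hV.eventually (by simp))] with y h1 h2
    exact ((h2.differentiableAt two_ne_zero).hasFDerivAt.comp y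
      (h1.differentiableAt two_ne_zero).hasFDerivAt).fderiv
  have hf2 : ∀ U W, fderiv ℝ (fderiv ℝ (fun y => V (Φ y))) x U W =
      fderiv ℝ (fderiv ℝ V) (Φ x) (fderiv ℝ Φ x U) (fderiv ℝ Φ x W) +
        fderiv ℝ V (Φ x) (fderiv ℝ (fderiv ℝ Φ) x U W) := by
    intro U W
    rw [(((hQ.comp x hΦ1).clm_comp hP).congr_of_eventuallyEq hf1).fderiv]
    simp [add_comm]
  have hD : ∀ U W, fderiv ℝ J' (Φ x) (fderiv ℝ Φ x U) (fderiv ℝ Φ x W) +
      J' (Φ x) (fderiv ℝ (fderiv ℝ Φ) x U W) =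
      fderiv ℝ (fderiv ℝ Φ) x U (J x W) + fderiv ℝ Φ x (fderiv ℝ J x U W) := by
    intro U W
    have a1 := (hB.comp x hΦ1).clm_apply (hP.clm_apply (hasFDerivAt_const W x))
    have a2 := hP.clm_apply (hA.clm_apply (hasFDerivAt_const W x))
    have a3 : (fun y => J' (Φ y) (fderiv ℝ Φ y W)) =ᶠ[𝓝 x] fun y => fderiv ℝ Φ y (J y W) := by
      filter_upwards [hJ] with y hy using hy W
    have a4 := (a2.congr_of_eventuallyEq a3).unique a1
    have a5 := DFunLike.congr_fun a4 U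
    simp at a5
    rw [add_comm, ← a5, add_comm]
  have hs : fderiv ℝ (fderiv ℝ Φ) x Y Z = fderiv ℝ (fderiv ℝ Φ) x Z Y :=
    (hΦ.isSymmSndFDerivAt (by simp)).eq Y Z
  have h0 := hJ.self_of_nhds
  have e1 := congrArg (fderiv ℝ V (Φ x)) (hD Y Z)
  have e2 := congrArg (fderiv ℝ V (Φ x)) (hD Z Y)
  unfold Om
  rw [hf2, hf2, hf1.self_of_nhds, h0, h0]
  rw [map_add, map_add] at e1 e2
  rw [hs] at e1
  simp only [ContinuousLinearMap.comp_apply]
  linarith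

theorem levi_nat (M M' : Model) {Φ : E → E} {V : E → ℝ} {x : E} (hΦ : ContDiffAt ℝ 2 Φ x)
    (hV : ContDiffAt ℝ 2 V (Φ x))
    (hJ : ∀ᶠ y in 𝓝 x, ∀ Y, M'.J (Φ y) (fderiv ℝ Φ y Y) = fderiv ℝ Φ y (M.J y Y)) (Y : E) :
    levi M.J (fun y => V (Φ y)) x Y = levi M'.J V (Φ x) (fderiv ℝ Φ x Y) := by
  rw [levi_eq_Om, levi_eq_Om, Om_nat (M.smJ.of_le (by simp)).contDiffAt
    (M'.smJ.of_le (by simp)).contDiffAt hΦ hV hJ, hJ.self_of_nhds]

/-- The `J`-invariant part of `dd^c f`. -/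
def inv1_psi (M : Model) (f : E → ℝ) (x Y Z : E) : ℝ :=
  (Om M.J f x Y Z + Om M.J f x (M.J x Y) (M.J x Z)) / 2

theorem inv1_alt (M : Model) (f : E → ℝ) (x : E) : IsAlt (inv1_psi M f x) := by
  have h := isAlt_Om M.J f x
  refine ⟨fun Y Y' Z => ?_, fun c Y Z => ?_, fun Y Z => ?_⟩
  · unfold inv1_psi
    rw [map_add, h.add, h.add]; ring
  · unfold inv1_psi
    rw [map_smul, h.smul, h.smul]; simp only [smul_eq_mul]; ring
  · unfold inv1_psi
    rw [h.anti Y Z, h.anti (M.J x Y) (M.J x Z)]; ring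

theorem inv1_neg {Φ : E → E → ℝ} (h : IsAlt Φ) (Y Z : E) :
    Φ (-Y) Z = -Φ Y Z ∧ Φ Y (-Z) = -Φ Y Z := by
  have h1 : ∀ Y Z, Φ (-Y) Z = -Φ Y Z := fun Y Z => by
    have := h.smul (-1) Y Z
    simpa using this
  refine ⟨h1 Y Z, ?_⟩
  rw [h.anti Y (-Z), h1, h.anti Y Z]

theorem inv1_dens (M : Model) (f : E → ℝ) (x : E) :
    dens M x * |Dd (H M f x) (H M f x)| =
      |top22 (inv1_psi M f x) (inv1_psi M f x) eb| / 16 := by
  have h := isAlt_Om M.J f x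
  have h1 : hm (inv1_psi M f x) (M.J x) M.X = H M f x := by
    funext j k
    unfold H hm inv1_psi
    simp only [M.JJ, (inv1_neg h _ _).1, (inv1_neg h _ _).2]
    push_cast
    ring
  have h2 : sig (inv1_psi M f x) (M.J x) M.X = 0 := by
    unfold sig inv1_psi
    simp only [M.JJ, (inv1_neg h _ _).1, (inv1_neg h _ _).2]
    push_cast
    ring
  have h3 := top22_frame (inv1_alt M f x) (inv1_alt M f x) (M.J x) M.X
  rw [h1, h2, top22_det (inv1_alt M f x) (inv1_alt M f x), smul_eq_mul] at h3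
  simp only [zero_mul, Complex.zero_re, zero_div, add_zero] at h3
  obtain ⟨ε, -, -, h4, -⟩ := M.dens_facts
  have h5 := h4 x
  unfold dens at h5 ⊢
  have h6 : 0 < |det4 (frame (M.J x) M.X)| := inv_pos.1 h5
  have h7 : Dd (H M f x) (H M f x) =
      det4 (frame (M.J x) M.X) * top22 (inv1_psi M f x) (inv1_psi M f x) eb / 16 := by linarith
  rw [h7, abs_div, abs_mul, abs_of_pos (by norm_num : (0 : ℝ) < 16)]
  field_simp

theorem inv1_det (L : E →L[ℝ] E) : det4 (fun i => L (eb i)) = L.det := by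
  unfold det4 ContinuousLinearMap.det
  rw [← LinearMap.det_toMatrix (EuclideanSpace.basisFun (Fin 4) ℝ).toBasis, ← Matrix.det_transpose]
  refine congrArg Matrix.det ?_
  ext i j
  simp [LinearMap.toMatrix_apply, eb]

theorem dens_nat (M M' : Model) {Φ : E → E} {V : E → ℝ} {x : E} (hΦ : ContDiffAt ℝ 2 Φ x)
    (hV : ContDiffAt ℝ 2 V (Φ x))
    (hJ : ∀ᶠ y in 𝓝 x, ∀ Y, M'.J (Φ y) (fderiv ℝ Φ y Y) = fderiv ℝ Φ y (M.J y Y)) :
    dens M x * |Dd (H M (fun y => V (Φ y)) x) (H M (fun y => V (Φ y)) x)| =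
      |(fderiv ℝ Φ x).det| * (dens M' (Φ x) * |Dd (H M' V (Φ x)) (H M' V (Φ x))|) := by
  rw [inv1_dens, inv1_dens]
  have h1 : ∀ Y Z, inv1_psi M (fun y => V (Φ y)) x Y Z =
      inv1_psi M' V (Φ x) (fderiv ℝ Φ x Y) (fderiv ℝ Φ x Z) := by
    intro Y Z
    unfold inv1_psi
    rw [Om_nat (M.smJ.of_le (by simp)).contDiffAt (M'.smJ.of_le (by simp)).contDiffAt hΦ hV hJ,
      Om_nat (M.smJ.of_le (by simp)).contDiffAt (M'.smJ.of_le (by simp)).contDiffAt hΦ hV hJ,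
      hJ.self_of_nhds, hJ.self_of_nhds]
  have h2 : top22 (inv1_psi M (fun y => V (Φ y)) x) (inv1_psi M (fun y => V (Φ y)) x) eb =
      top22 (inv1_psi M' V (Φ x)) (inv1_psi M' V (Φ x)) (fun i => fderiv ℝ Φ x (eb i)) := by
    unfold top22
    simp only [h1]
  rw [h2, top22_det (inv1_alt M' V (Φ x)) (inv1_alt M' V (Φ x)), inv1_det, smul_eq_mul, abs_mul]
  ring

end Pool.Agent.Lib.MP_f2cf74_an
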