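import Pool.Agent.Lib.MP_f2cf74_an.Lim

open Set Metric MeasureTheory Complex Filter Topology
open scoped ContDiff ENNReal NNReal

noncomputable section

namespace Pool.Agent.Lib.MP_f2cf74_an

/-! The pairing is the limit of the smooth Monge-Ampere integrals: `maDens_congr`, `ma_pt`,
`maDens_zero`, `m0_zero`, `w12`, `m0_lim`, `i1` (as in the proof of `ma_est`).
`maPair_integrable`: near each point use a model; `ma_pt`, `continuous_m0`, `m0_lip` with
`g' = 0` and `m0 M f x 0 = 0`. -/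

theorem maPair_eq (M : Model) {J : E → E →L[ℝ] E} {Ω : Set E} (hΩ : IsOpen Ω)
    {G : E → E →L[ℝ] ℝ} {c : E} {b : ℝ} (hb : ball c b ⊆ Ω) (hJ : ∀ x ∈ ball c b, M.J x = J x)
    {f : E → ℝ} (hf : IsTest (ball c b) f) :
    (∀ x, (orient (J x) : ℂ) * maDens J f x (G x) (G x) = ((dens M x * m0 M f x (G x) : ℝ) : ℂ)) ∧
    maPair J Ω G G f = ((∫ x, dens M x * m0 M f x (G x) : ℝ) : ℂ) := by
  have hf2 : ContDiff ℝ 2 f := hf.1.of_le (WithTop.coe_le_coe.2 le_top)
  have h1 : ∀ x, (orient (J x) : ℂ) * maDens J f x (G x) (G x) =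
      ((dens M x * m0 M f x (G x) : ℝ) : ℂ) := by
    intro x
    by_cases hx : x ∈ ball c b
    · have he : J =ᶠ[𝓝 x] M.J := by
        filter_upwards [isOpen_ball.mem_nhds hx] with y hy using (hJ y hy).symm
      rw [maDens_congr he, ← hJ x hx]
      exact ma_pt M hf2 x (G x)
    · have hx' : x ∉ tsupport f := fun h => hx (hf.2.2 h)
      rw [maDens_zero J hx', m0_zero M hx']
      simp
  refine ⟨h1, ?_⟩
  unfold maPair
  simp_rw [h1]
  rw [setIntegral_eq_integral_of_forall_compl_eq_zero, integral_complex_ofReal]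
  intro x hx
  have hx' : x ∉ tsupport f := fun h => hx (hb (hf.2.2 h))
  rw [m0_zero M hx']
  simp

theorem maLim_m0_zero (M : Model) (f : E → ℝ) (x : E) : m0 M f x 0 = 0 := by
  simp [m0, top22, w11, sigg, Lg]

theorem m0_integrable (M : Model) {G : E → E →L[ℝ] ℝ} {f : E → ℝ} (hf : ContDiff ℝ 2 f)
    (hc : HasCompactSupport f) (hG : MemLp G 2 (volume.restrict (tsupport f))) :
    Integrable fun x => dens M x * m0 M f x (G x) := by
  obtain ⟨C, hC, hL⟩ := m0_lip M hf hc
  have hsupp : Function.support (fun x => dens M x * m0 M f x (G x)) ⊆ tsupport f := by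
    intro x hx
    by_contra h
    exact hx (by simp only [m0_zero M h, mul_zero])
  rw [← integrableOn_iff_integrable_of_support_subset hsupp]
  have hm : AEStronglyMeasurable (fun x => dens M x * m0 M f x (G x))
      (volume.restrict (tsupport f)) :=
    (continuous_m0 M hf).comp_aestronglyMeasurable
      (f := fun x => (x, G x)) (aestronglyMeasurable_id.prodMk hG.1)
  have hI : Integrable (fun x => C * ‖G x‖ ^ 2) (volume.restrict (tsupport f)) :=
    (hG.integrable_norm_pow (by norm_num)).const_mul C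
  refine hI.mono' hm (Eventually.of_forall fun x => ?_)
  have := hL x (G x) 0
  rw [maLim_m0_zero, mul_zero, sub_zero, sub_zero, norm_zero, add_zero] at this
  rw [Real.norm_eq_abs, sq]
  exact this

theorem ma_lim (M : Model) {J : E → E →L[ℝ] E} {Ω : Set E} (hΩ : IsOpen Ω) {v : E → ℝ}
    {G : E → E →L[ℝ] ℝ} (hG : IsWeakGrad Ω v G) {c : E} {a b B : ℝ} (ha : 0 < a) (hab : a < b)
    (hb : ball c b ⊆ Ω) (hJ : ∀ x ∈ ball c b, M.J x = J x) {V : ℕ → E → ℝ}
    (hV : ∀ i, ContDiff ℝ ∞ (V i) ∧ Psh M.J (V i) (ball c b))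
    (hB : ∀ i, ∀ x ∈ ball c b, v x ≤ V i x ∧ |V i x| ≤ B)
    (hl : ∀ x ∈ ball c b, Tendsto (fun i => V i x) atTop (𝓝 (v x))) {f : E → ℝ}
    (hf : IsTest (ball c a) f) :
    Tendsto (fun i => ((∫ x, dens M x * (4 * (f x * Dd (H M (V i) x) (H M (V i) x))) : ℝ) : ℂ))
      atTop (𝓝 (maPair J Ω G G f)) := by
  have hf' : IsTest (ball c b) f := ⟨hf.1, hf.2.1, hf.2.2.trans (ball_subset_ball hab.le)⟩
  have hf2 : ContDiff ℝ 2 f := hf.1.of_le (WithTop.coe_le_coe.2 le_top)
  have hf3 : ContDiff ℝ 3 f := hf.1.of_le (WithTop.coe_le_coe.2 le_top)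
  rw [(maPair_eq M hΩ hb hJ hf').2]
  have hM : MemLp G 2 (volume.restrict (ball c a)) :=
    (hG.1 (closedBall c a) (isCompact_closedBall c a)
      ((closedBall_subset_ball hab).trans hb)).mono_measure
      (Measure.restrict_mono ball_subset_closedBall le_rfl)
  have h := m0_lim M hf2 hf.2.2 hM (g := fun i => fderiv ℝ (V i))
    (fun i => (hV i).1.continuous_fderiv (by simp)) (w12 M hΩ hG ha hab hb hV hB hl)
  have h2 := (continuous_ofReal.tendsto _).comp h
  refine h2.congr fun i => ?_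
  simp only [Function.comp]
  rw [i1 M hf3 hf.2.1 ((hV i).1.of_le (WithTop.coe_le_coe.2 le_top))]

end Pool.Agent.Lib.MP_f2cf74_an
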