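import Pool.Agent.Lib.MP_f2cf74_an.Inv1
import Pool.Agent.Lib.MP_f2cf74_an.MaLim
import Pool.Agent.Lib.MP_f2cf74_an.ApV

open Set Metric MeasureTheory Complex Filter Topology
open scoped ContDiff ENNReal NNReal

noncomputable section

namespace Pool.Agent.Lib.MP_f2cf74_an

/-! Invariance of the pairing under a change of coordinates.  `approxV` at `c` gives `M, R, V`;
`exists_model` at `Φ c` gives `M'`.  Let `V' i y = χ y * V i (Φ.symm y)` with a bump `χ` at `Φ c`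
supported in `Φ.target`; it is smooth on `E`, `V' i ∘ Φ = V i` near points close to `c`, and it is
`M'.J`-psh on a small ball (`levi_nat`, `levi_congr`; `fderiv Φ x` is onto).  Apply `ma_lim` on both
sides; the integrals agree by `integral_image_eq_integral_abs_det_fderiv_smul`, `dens_nat`,
`H_congr` and `PSD.Dd_nonneg`. -/

theorem inv2_cd {f : E → ℝ} (h : ∀ x ∈ tsupport f, ContDiffAt ℝ ∞ f x) : ContDiff ℝ ∞ f := by
  refine contDiff_iff_contDiffAt.2 fun x => ?_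
  by_cases hx : x ∈ tsupport f
  · exact h x hx
  · exact contDiffAt_const.congr_of_eventuallyEq (notMem_tsupport_iff_eventuallyEq.1 hx)

theorem test_pull (Φ : OpenPartialHomeomorph E E) (h1 : ContDiffOn ℝ ∞ Φ Φ.source) {f' : E → ℝ}
    (hf : IsTest Φ.target f') : ∃ f, IsTest Φ.source f ∧ (∀ x ∈ Φ.source, f x = f' (Φ x)) ∧
      tsupport f ⊆ Φ.symm '' tsupport f' := by
  have hK : IsCompact (Φ.symm '' tsupport f') :=
    hf.2.1.isCompact.image_of_continuousOn (Φ.continuousOn_symm.mono hf.2.2)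
  have hs : tsupport (Φ.source.indicator fun x => f' (Φ x)) ⊆ Φ.symm '' tsupport f' := by
    refine closure_minimal (fun x hx => ?_) hK.isClosed
    rw [support_indicator] at hx
    exact ⟨Φ x, subset_tsupport _ hx.2, Φ.left_inv hx.1⟩
  have hs' : tsupport (Φ.source.indicator fun x => f' (Φ x)) ⊆ Φ.source := fun x hx => by
    obtain ⟨y, hy, rfl⟩ := hs hx
    exact Φ.map_target (hf.2.2 hy)
  refine ⟨_, ⟨inv2_cd fun x hx => ?_, hK.of_isClosed_subset (isClosed_tsupport _) hs,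
    hs'⟩, fun x hx => indicator_of_mem hx _, hs⟩
  have hx' := Φ.open_source.mem_nhds (hs' hx)
  refine (hf.1.contDiffAt.comp x (h1.contDiffAt hx')).congr_of_eventuallyEq ?_
  filter_upwards [hx'] with z hz using indicator_of_mem hz _

theorem ma_inv {J J' : E → E →L[ℝ] E} {Ω Ω' : Set E} (hΩ : IsOpen Ω) (hΩ' : IsOpen Ω')
    (hJ : IsACS J Ω) (hJ' : IsACS J' Ω') {v v' : E → ℝ}
    (hv : IsPSH0 J Ω fun x => (v x : EReal)) (hb : ∃ B, ∀ x ∈ Ω, |v x| ≤ B)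
    {G G' : E → E →L[ℝ] ℝ} (hG : IsWeakGrad Ω v G) (hG' : IsWeakGrad Ω' v' G')
    (Φ : OpenPartialHomeomorph E E) (hs : Φ.source ⊆ Ω) (ht : Φ.target ⊆ Ω')
    (h1 : ContDiffOn ℝ ∞ Φ Φ.source) (h2 : ContDiffOn ℝ ∞ Φ.symm Φ.target)
    (hJJ : ∀ x ∈ Φ.source, ∀ Y, J' (Φ x) (fderiv ℝ Φ x Y) = fderiv ℝ Φ x (J x Y))
    (hvv : ∀ x ∈ Φ.source, v' (Φ x) = v x) {c : E} (hc : c ∈ Φ.source) :
    ∃ r > 0, ∀ f', IsTest (ball (Φ c) r ∩ Φ.target) f' → ∀ f, IsTest Φ.source f →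
      (∀ x ∈ Φ.source, f x = f' (Φ x)) → maPair J Ω G G f = maPair J' Ω' G' G' f' := by
  obtain ⟨M, R, B, V, hR, hRΩ, hM, hV, hB, hl⟩ := approxV hΩ hJ hv hb (hs hc)
  obtain ⟨M', R', hR', hRΩ', hM'⟩ := exists_model hΩ' hJ' (ht (Φ.map_source hc))
  obtain ⟨ρ, hρ, hT⟩ : ∃ ρ > 0, ∀ y ∈ ball (Φ c) (4 * ρ),
      y ∈ Φ.target ∧ Φ.symm y ∈ ball c (R / 2) ∧ y ∈ ball (Φ c) R' := by
    have h3 : ∀ᶠ y in 𝓝 (Φ c), Φ.symm y ∈ ball c (R / 2) := by
      refine (Φ.continuousAt_symm (Φ.map_source hc)).eventually_mem ?_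
      rw [Φ.left_inv hc]
      exact ball_mem_nhds _ (half_pos hR)
    obtain ⟨ε, hε, h⟩ := Metric.eventually_nhds_iff_ball.1
      ((Φ.open_target.eventually_mem (Φ.map_source hc)).and (h3.and (ball_mem_nhds _ hR')))
    exact ⟨ε / 4, by positivity, fun y hy => h y (by rwa [mul_div_cancel₀ _ four_ne_zero] at hy)⟩
  have hT2 := fun y (hy : y ∈ ball (Φ c) (2 * ρ)) => hT y (ball_subset_ball (by linarith) hy)
  have hR2 : ball c (R / 2) ⊆ ball c R := ball_subset_ball (half_le_self hR.le)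
  let χ : ContDiffBump (Φ c) := ⟨2 * ρ, 3 * ρ, by positivity, by linarith⟩
  obtain ⟨W, hW, hW'⟩ : ∃ W : ℕ → E → ℝ, (∀ i, ContDiff ℝ ∞ (W i)) ∧
      ∀ i, ∀ y ∈ ball (Φ c) (2 * ρ), W i y = V i (Φ.symm y) := by
    refine ⟨fun i y => χ y * V i (Φ.symm y), fun i => inv2_cd fun y hy => ?_,
      fun i y hy => ?_⟩
    · have h3 : y ∈ closedBall (Φ c) (3 * ρ) := χ.tsupport_eq ▸ tsupport_mul_subset_left hy
      exact χ.contDiff.contDiffAt.mul ((hV i).1.contDiffAt.comp y (h2.contDiffAt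
        (Φ.open_target.mem_nhds (hT y (closedBall_subset_ball (by linarith) h3)).1)))
    · beta_reduce
      rw [χ.one_of_mem_closedBall (ball_subset_closedBall hy), one_mul]
  obtain ⟨U, hU⟩ : ∃ U, U = Φ.source ∩ Φ ⁻¹' ball (Φ c) (2 * ρ) := ⟨_, rfl⟩
  have hUo : IsOpen U := hU ▸ Φ.isOpen_inter_preimage isOpen_ball
  have hU1 : ∀ x ∈ U, x ∈ Φ.source ∧ Φ x ∈ ball (Φ c) (2 * ρ) ∧ x ∈ ball c (R / 2) := by
    intro x hx
    rw [hU] at hx
    have h3 := (hT2 _ hx.2).2.1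
    rw [Φ.left_inv hx.1] at h3
    exact ⟨hx.1, hx.2, h3⟩
  have hU2 : ∀ y ∈ ball (Φ c) (2 * ρ), Φ.symm y ∈ U ∧ Φ (Φ.symm y) = y := by
    intro y hy
    have h3 := Φ.right_inv (hT2 y hy).1
    refine ⟨hU ▸ ⟨Φ.map_target (hT2 y hy).1, ?_⟩, h3⟩
    rwa [mem_preimage, h3]
  have two : (2 : WithTop ℕ∞) ≤ ((⊤ : ℕ∞) : WithTop ℕ∞) := WithTop.coe_le_coe.2 le_top
  have a1 : ∀ x ∈ U, ContDiffAt ℝ 2 Φ x := fun x hx =>
    (h1.contDiffAt (Φ.open_source.mem_nhds (hU1 x hx).1)).of_le two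
  have a2 : ∀ x ∈ U, ∀ᶠ y in 𝓝 x, ∀ Y,
      M'.J (Φ y) (fderiv ℝ Φ y Y) = fderiv ℝ Φ y (M.J y Y) := by
    intro x hx
    filter_upwards [hUo.mem_nhds hx] with z hz Y
    rw [hM' _ (hT2 _ (hU1 z hz).2.1).2.2, hM _ (hR2 (hU1 z hz).2.2), hJJ z (hU1 z hz).1]
  have a3 : ∀ i, ∀ x ∈ U, (fun y => W i (Φ y)) =ᶠ[𝓝 x] V i := by
    intro i x hx
    filter_upwards [hUo.mem_nhds hx] with z hz
    rw [hW' i _ (hU1 z hz).2.1, Φ.left_inv (hU1 z hz).1]
  have a4 : ∀ i, Psh M'.J (W i) (ball (Φ c) (2 * ρ)) := by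
    intro i y hy Y
    obtain ⟨hx, e⟩ := hU2 y hy
    have h3 : fderiv ℝ Φ (Φ.symm y) (fderiv ℝ Φ.symm y Y) = Y := by
      have h4 := (((a1 _ hx).differentiableAt two_ne_zero).hasFDerivAt.comp y
        ((h2.contDiffAt (Φ.open_target.mem_nhds (hT2 y hy).1)).differentiableAt
          (by simp)).hasFDerivAt).unique
        ((hasFDerivAt_id y).congr_of_eventuallyEq (Φ.eventually_right_inverse (hT2 y hy).1))
      exact congrArg (fun L : E →L[ℝ] E => L Y) h4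
    have h5 := levi_nat M M' (a1 _ hx) ((hW i).contDiffAt.of_le two) (a2 _ hx)
      (fderiv ℝ Φ.symm y Y)
    rw [h3, e, levi_congr _ (a3 i _ hx)] at h5
    exact h5 ▸ (hV i).2 _ (hR2 (hU1 _ hx).2.2) _
  have a5 : ∀ y ∈ ball (Φ c) (2 * ρ), v' y = v (Φ.symm y) := fun y hy => by
    rw [← hvv _ (Φ.map_target (hT2 y hy).1), (hU2 y hy).2]
  refine ⟨ρ, hρ, fun f' hf' f hf hff => ?_⟩
  have hρ2 : ball (Φ c) ρ ⊆ ball (Φ c) (2 * ρ) := ball_subset_ball (by linarith)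
  have b1 : tsupport f ⊆ U := by
    intro x hx
    have hx' := hf.2.2 hx
    refine hU ▸ ⟨hx', hρ2 (hf'.2.2 ?_).1⟩
    by_contra h
    refine notMem_tsupport_iff_eventuallyEq.2 ?_ hx
    filter_upwards [Φ.open_source.mem_nhds hx',
      (Φ.continuousAt hx').eventually (notMem_tsupport_iff_eventuallyEq.1 h)] with z hz hz'
    rw [hff z hz, hz']
    rfl
  have l1 := ma_lim M hΩ hG (half_pos hR) (half_lt_self hR) hRΩ hM hV hB hl
    (f := f) ⟨hf.1, hf.2.1, fun x hx => (hU1 x (b1 hx)).2.2⟩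
  have l2 := ma_lim M' hΩ' hG' (B := B) hρ (by linarith : ρ < 2 * ρ)
    (fun y hy => ht (hT2 y hy).1) (fun y hy => hM' y (hT2 y hy).2.2) (fun i => ⟨hW i, a4 i⟩)
    (fun i y hy => by
      rw [a5 y hy, hW' i y hy]
      exact hB i _ (hR2 (hT2 y hy).2.1))
    (fun y hy => by
      rw [a5 y hy]
      exact (hl _ (hR2 (hT2 y hy).2.1)).congr fun i => (hW' i y hy).symm)
    (f := f') ⟨hf'.1, hf'.2.1, fun y hy => (hf'.2.2 hy).1⟩
  refine tendsto_nhds_unique l1 (l2.congr fun i => congrArg _ ?_)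
  rw [← setIntegral_eq_integral_of_forall_compl_eq_zero (s := Φ '' U),
    ← setIntegral_eq_integral_of_forall_compl_eq_zero (μ := volume) (s := U),
    integral_image_eq_integral_abs_det_fderiv_smul volume hUo.measurableSet
      (fun x hx => ((a1 x hx).differentiableAt two_ne_zero).hasFDerivAt.hasFDerivWithinAt)
      (Φ.injOn.mono fun x hx => (hU1 x hx).1)]
  · refine setIntegral_congr_fun hUo.measurableSet fun x hx => ?_
    have h3 := dens_nat M M' (a1 x hx) ((hW i).contDiffAt.of_le two) (a2 x hx)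
    have h4 := psd_H M (hV i).2 (hR2 (hU1 x hx).2.2)
    have h5 := psd_H M' (a4 i) (hU1 x hx).2.1
    rw [H_congr M (g := V i) 0 (by simpa only [add_zero] using a3 i x hx),
      abs_of_nonneg (h4.Dd_nonneg h4), abs_of_nonneg (h5.Dd_nonneg h5)] at h3
    simp only [smul_eq_mul, hff x (hU1 x hx).1]
    linear_combination -4 * f' (Φ x) * h3
  · intro x hx
    rw [image_eq_zero_of_notMem_tsupport fun h => hx (b1 h), zero_mul, mul_zero, mul_zero]
  · intro y hy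
    rw [image_eq_zero_of_notMem_tsupport fun h => hy ⟨_, (hU2 y (hρ2 (hf'.2.2 h).1)).1,
      (hU2 y (hρ2 (hf'.2.2 h).1)).2⟩, zero_mul, mul_zero, mul_zero]

end Pool.Agent.Lib.MP_f2cf74_an
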