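import Pool.Agent.Lib.MP_f2cf74_an.AlgC

open Set Metric MeasureTheory Complex Filter Topology
open scoped ContDiff ENNReal NNReal

noncomputable section

namespace Pool.Agent.Lib.MP_f2cf74_an

/-! Superjets.  `peano2`: mean value inequality for
`y ↦ f y - Df x (y - x) - D²f x (y - x) (y - x) / 2` (symmetry of the second derivative).
`visc_of_exact`: add `ε ⟪·,·⟫` (`innerSL ℝ`) to `A` and let `ε → 0`. -/

section
variable {G : Type} [NormedAddCommGroup G] [NormedSpace ℝ G]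

theorem jet_aux1 {f : G → ℝ} {x : G} (hf : ContDiffAt ℝ 2 f x) {ε : ℝ} (hε : 0 < ε) :
    ∀ᶠ y in 𝓝 x, |f y - f x - fderiv ℝ f x (y - x) -
      fderiv ℝ (fderiv ℝ f) x (y - x) (y - x) / 2| ≤ ε * ‖y - x‖ ^ 2 := by
  have hsym : IsSymmSndFDerivAt ℝ f x := hf.isSymmSndFDerivAt (by simp)
  have h1 : HasFDerivAt (fderiv ℝ f) (fderiv ℝ (fderiv ℝ f) x) x :=
    ((hf.fderiv_right (m := 1) (by norm_num)).differentiableAt (by simp)).hasFDerivAt
  generalize hA : fderiv ℝ (fderiv ℝ f) x = A at *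
  have hs : ∀ u v, A u v = A v u := fun u v => hA ▸ hsym.eq u v
  have h2 := (hasFDerivAt_iff_isLittleO.1 h1).def hε
  have h3 : ∀ᶠ y in 𝓝 x, ContDiffAt ℝ 2 f y := hf.eventually (by simp)
  obtain ⟨δ, hδ, hb⟩ := Metric.eventually_nhds_iff_ball.1 (h2.and h3)
  filter_upwards [ball_mem_nhds x hδ] with y hy
  have hsub : closedBall x ‖y - x‖ ⊆ ball x δ :=
    closedBall_subset_ball (by rwa [mem_ball, dist_eq_norm] at hy)
  have hd : ∀ z ∈ closedBall x ‖y - x‖, HasFDerivWithinAt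
      (fun z => f z - fderiv ℝ f x (z - x) - A (z - x) (z - x) / 2)
      (fderiv ℝ f z - fderiv ℝ f x - A (z - x)) (closedBall x ‖y - x‖) z := fun z hz => by
    have e1 : HasFDerivAt f (fderiv ℝ f z) z :=
      ((hb z (hsub hz)).2.differentiableAt (by simp)).hasFDerivAt
    have e2 : HasFDerivAt (fun z => z - x) (ContinuousLinearMap.id ℝ G) z :=
      (hasFDerivAt_id z).sub_const x
    have e3 := (fderiv ℝ f x).hasFDerivAt.comp z e2
    have e4 := ((A.hasFDerivAt.comp z e2).clm_apply e2).mul_const (2⁻¹ : ℝ)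
    refine HasFDerivAt.hasFDerivWithinAt ?_
    refine (((e1.sub e3).sub e4).congr_fderiv ?_).congr_of_eventuallyEq
      (Eventually.of_forall fun u => ?_)
    · ext u
      simp [hs u]
      ring
    · simp [div_eq_mul_inv]
  have h4 := (convex_closedBall x ‖y - x‖).norm_image_sub_le_of_norm_hasFDerivWithin_le hd
    (C := ε * ‖y - x‖) (fun z hz => (hb z (hsub hz)).1.trans
      (mul_le_mul_of_nonneg_left (by rwa [mem_closedBall, dist_eq_norm] at hz) hε.le))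
    (mem_closedBall_self (norm_nonneg _)) (by rw [mem_closedBall, dist_eq_norm])
  rw [Real.norm_eq_abs] at h4
  convert h4 using 1
  · simp only [sub_self, map_zero]
    congr 1
    ring
  · ring

theorem jet_aux3 (V : Type) [NormedAddCommGroup V] [InnerProductSpace ℝ V] :
    ∃ Q : V →L[ℝ] V →L[ℝ] ℝ, ∀ u, Q u u = ‖u‖ ^ 2 :=
  ⟨innerSL ℝ, fun u => real_inner_self_eq_norm_sq u⟩

theorem peano2 {f : G → ℝ} {x : G} (hf : ContDiffAt ℝ 2 f x) :
    SJ f x (fderiv ℝ f x) (fderiv ℝ (fderiv ℝ f) x) ∧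
    SJ (fun y => -f y) x (-fderiv ℝ f x) (-fderiv ℝ (fderiv ℝ f) x) := by
  constructor
  · intro ε hε
    filter_upwards [jet_aux1 hf hε] with y hy
    linarith [(abs_le.1 hy).2]
  · intro ε hε
    filter_upwards [jet_aux1 hf hε] with y hy
    simp only [_root_.neg_apply]
    linarith [(abs_le.1 hy).1]

theorem SJ.of_le {w φ : G → ℝ} {x : G} {p : G →L[ℝ] ℝ} {A : G →L[ℝ] G →L[ℝ] ℝ} (h : SJ φ x p A)
    (hw : ∀ᶠ y in 𝓝 x, w y - w x ≤ φ y - φ x) : SJ w x p A := by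
  intro ε hε
  filter_upwards [h ε hε, hw] with y h1 h2
  linarith

theorem SJ.add {w φ : G → ℝ} {x : G} {p q : G →L[ℝ] ℝ} {A B : G →L[ℝ] G →L[ℝ] ℝ}
    (h : SJ w x p A) (h' : SJ φ x q B) : SJ (fun y => w y + φ y) x (p + q) (A + B) := by
  intro ε hε
  filter_upwards [h (ε / 2) (half_pos hε), h' (ε / 2) (half_pos hε)] with y h1 h2
  simp only [_root_.add_apply]
  linarith

theorem SJ.nonneg {w : G → ℝ} {x : G} {p : G →L[ℝ] ℝ} {A : G →L[ℝ] G →L[ℝ] ℝ} (h : SJ w x p A)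
    (hw : ∀ᶠ y in 𝓝 x, w x ≤ w y) : p = 0 ∧ ∀ Y, 0 ≤ A Y Y := by
  have key : ∀ ε > 0, ∀ Y, ∀ᶠ t in 𝓝[>] (0 : ℝ),
      0 < t ∧ 0 ≤ p Y + t * (A Y Y / 2 + ε * ‖Y‖ ^ 2) := by
    intro ε hε Y
    have h1 : Tendsto (fun t : ℝ => x + t • Y) (𝓝[>] 0) (𝓝 x) := by
      have h2 : Continuous fun t : ℝ => x + t • Y := by fun_prop
      simpa using (h2.tendsto 0).mono_left (nhdsWithin_le_nhds (s := Ioi 0))
    filter_upwards [h1.eventually ((h ε hε).and hw), self_mem_nhdsWithin] with t ht ht0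
    have ht1 : 0 < t := ht0
    refine ⟨ht1, nonneg_of_mul_nonneg_right ?_ ht1⟩
    obtain ⟨h3, h4⟩ := ht
    simp only [add_sub_cancel_left, map_smul, _root_.smul_apply, smul_eq_mul,
      norm_smul, mul_pow, Real.norm_eq_abs, sq_abs] at h3
    linarith
  have h1 : ∀ Y, 0 ≤ p Y := fun Y => by
    have h2 : Continuous fun t : ℝ => p Y + t * (A Y Y / 2 + 1 * ‖Y‖ ^ 2) := by fun_prop
    have h3 := (h2.tendsto 0).mono_left (nhdsWithin_le_nhds (s := Ioi 0))
    simpa using ge_of_tendsto h3 ((key 1 one_pos Y).mono fun t ht => ht.2)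
  have hp : p = 0 := by
    ext Y
    have h2 := h1 (-Y)
    rw [map_neg] at h2
    exact le_antisymm (by simpa using h2) (h1 Y)
  refine ⟨hp, fun Y => ?_⟩
  have h2 : ∀ ε > 0, 0 ≤ A Y Y / 2 + ε * ‖Y‖ ^ 2 := fun ε hε => by
    obtain ⟨t, ht, h3⟩ := (key ε hε Y).exists
    rw [hp, _root_.zero_apply, zero_add] at h3
    exact nonneg_of_mul_nonneg_right h3 ht
  have h3 : Continuous fun ε : ℝ => A Y Y / 2 + ε * ‖Y‖ ^ 2 := by fun_prop
  have h4 := ge_of_tendsto ((h3.tendsto 0).mono_left (nhdsWithin_le_nhds (s := Ioi 0)))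
    (eventually_nhdsWithin_of_forall h2)
  linarith

theorem SJ.shift {w : G → ℝ} {x : G} {p : G →L[ℝ] ℝ} {A : G →L[ℝ] G →L[ℝ] ℝ} :
    SJ w x p A ↔ SJ (fun y => w (x + y)) 0 p A := by
  simp only [SJ, ← map_add_left_nhds_zero x, eventually_map, add_sub_cancel_left, add_zero,
    sub_zero]

end

variable {J : E → E →L[ℝ] E} {w w' : E → ℝ} {x : E} {e e' : ℝ}

theorem visc_of_exact (h : ∀ (p : E →L[ℝ] ℝ) (A : E →L[ℝ] E →L[ℝ] ℝ),
    (∀ᶠ y in 𝓝 x, w y ≤ w x + p (y - x) + A (y - x) (y - x) / 2) →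
      ∀ Y, -(e * ‖Y‖ ^ 2) ≤ jetL J x p A Y) : Visc J w x e := by
  intro p A hA Y
  obtain ⟨Q, hQ⟩ := jet_aux3 E
  have h2 : ∀ ε > 0, -(e * ‖Y‖ ^ 2) ≤ jetL J x p A Y + ε * (2 * (‖Y‖ ^ 2 + ‖J x Y‖ ^ 2)) := by
    intro ε hε
    have h3 := h p (A + (2 * ε) • Q) (by
      filter_upwards [hA ε hε] with y hy
      simp only [_root_.add_apply, _root_.smul_apply,
        hQ, smul_eq_mul]
      linarith) Y
    simp only [jetL, _root_.add_apply, _root_.smul_apply,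
      hQ, smul_eq_mul] at h3 ⊢
    linarith
  have h3 : Continuous fun ε : ℝ => jetL J x p A Y + ε * (2 * (‖Y‖ ^ 2 + ‖J x Y‖ ^ 2)) := by
    fun_prop
  have h4 := ge_of_tendsto ((h3.tendsto 0).mono_left (nhdsWithin_le_nhds (s := Ioi 0)))
    (eventually_nhdsWithin_of_forall h2)
  linarith

theorem Visc.mono (h : Visc J w x e) (he : e ≤ e') : Visc J w x e' := by
  intro p A hA Y
  have h1 := mul_le_mul_of_nonneg_right he (sq_nonneg ‖Y‖)
  linarith [h p A hA Y]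

theorem Visc.congr (h : Visc J w x e) (hw : w' =ᶠ[𝓝 x] w) : Visc J w' x e := by
  intro p A hA
  refine h p A (hA.of_le ?_)
  filter_upwards [hw] with y hy
  rw [hy, hw.eq_of_nhds]

theorem Visc.max (h : Visc J w x e) (h' : Visc J w' x e) :
    Visc J (fun y => max (w y) (w' y)) x e := by
  intro p A hA
  rcases le_total (w x) (w' x) with h1 | h1
  · refine h' p A (hA.of_le (Eventually.of_forall fun y => ?_))
    rw [max_eq_right h1]
    linarith [le_max_right (w y) (w' y)]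
  · refine h p A (hA.of_le (Eventually.of_forall fun y => ?_))
    rw [max_eq_left h1]
    linarith [le_max_left (w y) (w' y)]

theorem Visc.add_smooth (h : Visc J w x e) {φ : E → ℝ} (hφ : ContDiffAt ℝ 2 φ x)
    (hl : ∀ Y, e' * ‖Y‖ ^ 2 ≤ levi J φ x Y) : Visc J (fun y => w y + φ y) x (e - e') := by
  intro p A hA Y
  have h1 := h _ _ ((hA.add (peano2 hφ).2).of_le (Eventually.of_forall fun y => by linarith)) Y
  have h2 := hl Y
  simp only [levi, jetL, _root_.add_apply, _root_.neg_apply] at h1 h2 ⊢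
  linarith

theorem Visc.add_const (h : Visc J w x e) (a : ℝ) : Visc J (fun y => w y + a) x e := by
  intro p A hA
  exact h p A (hA.of_le (Eventually.of_forall fun y => by linarith))

theorem visc_of_levi {φ : E → ℝ} (hφ : ContDiffAt ℝ 2 φ x)
    (hl : ∀ Y, -(e * ‖Y‖ ^ 2) ≤ levi J φ x Y) : Visc J φ x e := by
  intro p A hA Y
  obtain ⟨h1, h2⟩ := (hA.add (peano2 hφ).2).nonneg (Eventually.of_forall fun y => by linarith)
  have h3 := congrArg (fun q : E →L[ℝ] ℝ => q (beta J x Y)) h1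
  have h4 := h2 Y
  have h5 := h2 (J x Y)
  have h6 := hl Y
  simp only [levi, jetL, _root_.add_apply, _root_.neg_apply,
    _root_.zero_apply] at h3 h4 h5 h6 ⊢
  linarith

/-- At a point where `w` has a local minimum every superjet is nonnegative. -/
theorem visc_of_min (hw : ∀ᶠ y in 𝓝 x, w x ≤ w y) : Visc J w x 0 := by
  intro p A hA Y
  obtain ⟨h1, h2⟩ := hA.nonneg hw
  simp only [jetL, h1, _root_.zero_apply]
  linarith [h2 Y, h2 (J x Y)]

theorem jet_aux2 (x a b β : E) : Continuous (gam x a b β) := by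
  unfold gam
  fun_prop

/-- Restriction of a superjet to a quadratic curve. -/
theorem sj_gam {p : E →L[ℝ] ℝ} {A : E →L[ℝ] E →L[ℝ] ℝ} (h : SJ w x p A) (a b β : E) :
    ∃ (q : ℂ →L[ℝ] ℝ) (B : ℂ →L[ℝ] ℂ →L[ℝ] ℝ), SJ (fun ζ => w (gam x a b β ζ)) 0 q B ∧
      B 1 1 + B I I = A a a + A b b + p β := by
  obtain ⟨L, hL⟩ : ∃ L : ℂ →L[ℝ] E, ∀ ζ, L ζ = ζ.re • a + ζ.im • b :=
    ⟨reCLM.smulRight a + imCLM.smulRight b, fun ζ => by simp⟩
  obtain ⟨Q, hQ⟩ := jet_aux3 ℂ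
  have h0 : gam x a b β 0 = x := by simp [gam]
  have hg : ∀ ζ, gam x a b β ζ - x = L ζ + (‖ζ‖ ^ 2 / 4) • β := fun ζ => by
    rw [hL, gam]
    abel
  refine ⟨p.comp L, A.bilinearComp L L + (p β / 2) • Q, ?_, ?_⟩
  · intro ε hε
    have hK : 0 < (‖L‖ + ‖β‖) ^ 2 + 1 := by positivity
    have h1 : Tendsto (gam x a b β) (𝓝 0) (𝓝 x) := by
      simpa only [h0] using (jet_aux2 x a b β).tendsto 0
    have h2 : Continuous fun ζ : ℂ => (A (L ζ) β + A β (L ζ)) / 8 + ‖ζ‖ ^ 2 * A β β / 32 := by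
      fun_prop
    have h3 := (h2.tendsto 0).eventually (gt_mem_nhds (a := ε / 2) (by simpa using hε))
    filter_upwards [h1.eventually (h (ε / 2 / ((‖L‖ + ‖β‖) ^ 2 + 1)) (by positivity)), h3,
      closedBall_mem_nhds (0 : ℂ) one_pos] with ζ h4 h5 h6
    rw [mem_closedBall_zero_iff] at h6
    have h7 : ‖L ζ + (‖ζ‖ ^ 2 / 4) • β‖ ≤ (‖L‖ + ‖β‖) * ‖ζ‖ := by
      refine (norm_add_le _ _).trans ?_
      rw [norm_smul, Real.norm_of_nonneg (by positivity)]
      have h8 : ‖ζ‖ ^ 2 / 4 ≤ ‖ζ‖ := by nlinarith [norm_nonneg ζ]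
      have h9 := mul_le_mul_of_nonneg_right h8 (norm_nonneg β)
      linarith [L.le_opNorm ζ]
    have h8 : ε / 2 / ((‖L‖ + ‖β‖) ^ 2 + 1) * ‖L ζ + (‖ζ‖ ^ 2 / 4) • β‖ ^ 2 ≤
        ε / 2 * ‖ζ‖ ^ 2 := by
      rw [div_mul_eq_mul_div, div_le_iff₀ hK, mul_assoc]
      refine mul_le_mul_of_nonneg_left ?_ (half_pos hε).le
      have h9 := pow_le_pow_left₀ (norm_nonneg _) h7 2
      nlinarith [sq_nonneg ‖ζ‖]
    have h9 := mul_le_mul_of_nonneg_right h5.le (sq_nonneg ‖ζ‖)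
    rw [hg] at h4
    generalize ‖L ζ + (‖ζ‖ ^ 2 / 4) • β‖ = N at h4 h8
    simp only [h0, sub_zero, map_add, map_smul, _root_.add_apply,
      _root_.smul_apply, ContinuousLinearMap.comp_apply,
      ContinuousLinearMap.bilinearComp_apply, hQ,
      smul_eq_mul] at h4 ⊢
    linarith
  · simp only [_root_.add_apply, _root_.smul_apply,
      ContinuousLinearMap.bilinearComp_apply, hQ,
      smul_eq_mul, hL]
    simp
    ring

theorem gam_shift (x a b β : E) (ζ ξ : ℂ) : gam x a b β (ζ + ξ) =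
    gam (gam x a b β ζ) (a + (ζ.re / 2) • β) (b + (ζ.im / 2) • β) β ξ := by
  simp only [gam, Complex.sq_norm, normSq_apply, add_re, add_im]
  module

theorem continuous_gam (x a b β : E) : Continuous (gam x a b β) := by
  exact jet_aux2 x a b β

end Pool.Agent.Lib.MP_f2cf74_an
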