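import Pool.Agent.Lib.MP_f2cf74_an.Base

open Set Metric MeasureTheory Complex Filter Topology
open scoped ContDiff ENNReal NNReal

noncomputable section

namespace Pool.Agent.Lib.MP_f2cf74_an

/-! Flat kernel calculus on `ℂ²`, part 1.  Every kernel is `m z * φ (‖z‖²)` with `m` a monomial in
`z j`, `conj (z j)`; `rad_mul` gives its derivative.  Note `dF c p (‖·‖²) z = re (z p) + c im (z p)`,
which is `conj (z p)` for `c = -I` and `z p` for `c = I`. -/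

theorem kf1_tau (z : F) : HasFDerivAt (fun w : F => ‖w‖ ^ 2) (2 • innerSL ℝ z) z :=
  (hasStrictFDerivAt_norm_sq z).hasFDerivAt

theorem kf1_inner (z w : F) : (2 • innerSL ℝ z) w = 2 * (∑ j, (starRingEnd ℂ) (z j) * w j).re := by
  simp only [smul_apply, innerSL_apply_apply, PiLp.inner_apply, Complex.inner,
    nsmul_eq_mul, Nat.cast_ofNat, re_sum, mul_comm]

theorem kf1_max (n : ℕ) (t : ℝ) : HasDerivAt (fun t : ℝ => max t 0 ^ (n + 2))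
    ((n + 2 : ℕ) * max t 0 ^ (n + 1)) t := by
  rcases lt_trichotomy t 0 with h | rfl | h
  · rw [max_eq_right h.le, zero_pow (by omega), mul_zero]
    refine (hasDerivAt_const t (0 : ℝ)).congr_of_eventuallyEq ?_
    filter_upwards [Iio_mem_nhds h] with u hu
    rw [max_eq_right (le_of_lt hu), zero_pow (by omega)]
  · rw [max_self, zero_pow (by omega), mul_zero, hasDerivAt_iff_tendsto_slope_zero]
    have h1 : Tendsto (fun u : ℝ => max u 0 ^ (n + 1)) (𝓝[≠] 0) (𝓝 0) := by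
      have h2 : Continuous fun u : ℝ => max u 0 ^ (n + 1) := by fun_prop
      simpa using (h2.tendsto 0).mono_left (nhdsWithin_le_nhds (s := {0}ᶜ))
    refine h1.congr' ?_
    filter_upwards [self_mem_nhdsWithin] with u hu
    have hu' : u ≠ 0 := hu
    rcases le_total u 0 with h | h
    · simp [h]
    · simp only [zero_add, max_eq_left h, max_self, smul_eq_mul]
      rw [zero_pow (by omega), sub_zero]
      field_simp
      ring
  · rw [max_eq_left h.le]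
    refine (hasDerivAt_pow (n + 2) t).congr_of_eventuallyEq ?_
    filter_upwards [Ioi_mem_nhds h] with u hu
    rw [max_eq_left (le_of_lt hu)]

theorem kf1_ee (p : Fin 2) : ‖ee p‖ = 1 := by simp [ee]

/-- The coordinate as a real linear map. -/
def kf1_pr (p : Fin 2) : F →L[ℝ] ℂ := PiLp.proj 2 (fun _ : Fin 2 => ℂ) p

theorem kf1_pr_apply (p : Fin 2) (w : F) : kf1_pr p w = w p := rfl

theorem kf1_pr_norm (p : Fin 2) : ‖kf1_pr p‖ ≤ 1 :=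
  ContinuousLinearMap.opNorm_le_bound _ zero_le_one fun w => by
    rw [one_mul]
    exact PiLp.norm_apply_le w p

theorem kf1_has (p : Fin 2) (z : F) : HasFDerivAt (fun w : F => w p) (kf1_pr p) z :=
  (kf1_pr p).hasFDerivAt

theorem kf1_conj (a : ℂ) : (a.re : ℂ) + -I * a.im = (starRingEnd ℂ) a := by
  apply Complex.ext <;> simp

theorem kf1_sum (z : F) : ∑ p, z p * (starRingEnd ℂ) (z p) = ((‖z‖ ^ 2 : ℝ) : ℂ) := by
  rw [EuclideanSpace.norm_sq_eq]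
  simp only [mul_conj, normSq_eq_norm_sq, ofReal_sum]

theorem kf1_M {x : ℝ} (hx : 0 ≤ x) :
    0 ≤ max (1 - x) 0 ∧ max (1 - x) 0 ≤ 1 ∧ max (1 - x) 0 * x ≤ 1 := by
  refine ⟨le_max_right _ _, max_le (by linarith) zero_le_one, ?_⟩
  rcases le_total (1 - x) 0 with h | h
  · rw [max_eq_right h]
    simp
  · rw [max_eq_left h]
    nlinarith

theorem fderiv_tau (z w : F) : fderiv ℝ (fun w : F => ‖w‖ ^ 2) z w =
    2 * (∑ j, (starRingEnd ℂ) (z j) * w j).re := by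
  rw [(kf1_tau z).fderiv, kf1_inner]

theorem contDiff_tau : ContDiff ℝ ∞ (fun w : F => ‖w‖ ^ 2) := by
  exact contDiff_norm_sq ℝ

theorem hasDerivAt_cut (t : ℝ) : HasDerivAt cut (-3 * max (1 - t) 0 ^ 2) t := by
  have h := (kf1_max 1 (1 - t)).comp t ((hasDerivAt_id t).const_sub 1)
  refine HasDerivAt.congr_deriv h ?_
  push_cast
  ring

theorem hasDerivAt_max_sq (t : ℝ) :
    HasDerivAt (fun t : ℝ => max (1 - t) 0 ^ 2) (-2 * max (1 - t) 0) t := by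
  have h := (kf1_max 0 (1 - t)).comp t ((hasDerivAt_id t).const_sub 1)
  refine HasDerivAt.congr_deriv h ?_
  push_cast
  ring

theorem cut_nonneg (t : ℝ) : 0 ≤ cut t := by
  exact pow_nonneg (le_max_right _ _) 3

theorem cut_le_one {t : ℝ} (ht : 0 ≤ t) : cut t ≤ 1 := by
  exact pow_le_one₀ (kf1_M ht).1 (kf1_M ht).2.1

theorem cut_eq_zero {t : ℝ} (ht : 1 ≤ t) : cut t = 0 := by
  rw [cut, max_eq_right (by linarith)]
  norm_num

/-- Derivative of `m z * φ (‖z‖²)`. -/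
theorem rad_mul {m : F → ℂ} {φ : ℝ → ℝ} {φ' : ℝ} {z : F} (hm : DifferentiableAt ℝ m z)
    (hφ : HasDerivAt φ φ' (‖z‖ ^ 2)) :
    DifferentiableAt ℝ (fun w => m w * (φ (‖w‖ ^ 2) : ℂ)) z ∧
    (∀ c p, dF c p (fun w => m w * (φ (‖w‖ ^ 2) : ℂ)) z =
      dF c p m z * (φ (‖z‖ ^ 2) : ℂ) + m z * (φ' : ℂ) * ((z p).re + c * (z p).im)) ∧
    ‖fderiv ℝ (fun w => m w * (φ (‖w‖ ^ 2) : ℂ)) z‖ ≤
      ‖fderiv ℝ m z‖ * |φ (‖z‖ ^ 2)| + ‖m z‖ * (2 * |φ'| * ‖z‖) := by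
  have h1 : HasFDerivAt (fun w : F => φ (‖w‖ ^ 2)) (φ' • (2 • innerSL ℝ z)) z :=
    hφ.comp_hasFDerivAt z (kf1_tau z)
  have h2 : HasFDerivAt (fun w : F => (φ (‖w‖ ^ 2) : ℂ))
      (ofRealCLM.comp (φ' • (2 • innerSL ℝ z))) z := ofRealCLM.hasFDerivAt.comp z h1
  have h3 : HasFDerivAt (fun w => m w * (φ (‖w‖ ^ 2) : ℂ))
      (m z • ofRealCLM.comp (φ' • (2 • innerSL ℝ z)) + (φ (‖z‖ ^ 2) : ℂ) • fderiv ℝ m z) z :=
    hm.hasFDerivAt.mul h2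
  refine ⟨h3.differentiableAt, fun c p => ?_, ?_⟩
  · have e1 : (2 • innerSL ℝ z) (ee p) = 2 * (z p).re := by
      rw [kf1_inner]
      fin_cases p <;> simp [ee]
    have e2 : (2 • innerSL ℝ z) (I • ee p) = 2 * (z p).im := by
      rw [kf1_inner]
      fin_cases p <;> simp [ee]
    have e3 : ∀ v : F, (m z • ofRealCLM.comp (φ' • (2 • innerSL ℝ z : F →L[ℝ] ℝ)) +
        (φ (‖z‖ ^ 2) : ℂ) • fderiv ℝ m z) v = m z * ((φ' * (2 • innerSL ℝ z : F →L[ℝ] ℝ) v : ℝ) : ℂ) +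
          (φ (‖z‖ ^ 2) : ℂ) * fderiv ℝ m z v := fun _ => rfl
    rw [dF, dF, h3.fderiv, e3, e3, e1, e2]
    push_cast
    ring
  · rw [h3.fderiv]
    have e1 : ‖ofRealCLM.comp (φ' • (2 • innerSL ℝ z : F →L[ℝ] ℝ))‖ ≤ 2 * |φ'| * ‖z‖ := by
      refine (ContinuousLinearMap.opNorm_comp_le _ _).trans ?_
      rw [ofRealCLM_norm, one_mul, norm_smul, RCLike.norm_nsmul ℝ, innerSL_apply_norm,
        Real.norm_eq_abs]
      simp only [nsmul_eq_mul, Nat.cast_ofNat]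
      linarith
    refine (norm_add_le _ _).trans ?_
    rw [norm_smul, norm_smul, norm_real, Real.norm_eq_abs]
    have e2 := mul_le_mul_of_nonneg_left e1 (norm_nonneg (m z))
    linarith

theorem norm_dF_le {k : F → ℂ} {c : ℂ} (hc : ‖c‖ ≤ 1) (p : Fin 2) (z : F) :
    ‖dF c p k z‖ ≤ ‖fderiv ℝ k z‖ := by
  have h1 := (fderiv ℝ k z).le_opNorm (ee p)
  have h2 := (fderiv ℝ k z).le_opNorm (I • ee p)
  rw [norm_smul, norm_I, one_mul] at h2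
  rw [kf1_ee, mul_one] at h1 h2
  have h3 := norm_add_le (fderiv ℝ k z (ee p)) (c * fderiv ℝ k z (I • ee p))
  rw [norm_mul] at h3
  have h4 := mul_le_mul hc h2 (norm_nonneg _) zero_le_one
  rw [dF, norm_div, RCLike.norm_ofNat]
  linarith

theorem kBM_facts {z : F} (hz : z ≠ 0) : (∀ p, KB (kBM p) z (5 * ‖z‖⁻¹ ^ 3)) ∧
    ∑ p, dF (-I) p (kBM p) z = 0 := by
  have hr : 0 < ‖z‖ := norm_pos_iff.mpr hz
  have hφ : HasDerivAt (fun τ : ℝ => τ⁻¹ ^ 2) (-2 * (‖z‖ ^ 2)⁻¹ ^ 3) (‖z‖ ^ 2) := by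
    refine HasDerivAt.congr_deriv ((hasDerivAt_inv (pow_pos hr 2).ne').fun_pow 2) ?_
    simp only [Nat.add_one_sub_one, pow_one]
    field_simp
    ring
  have key := fun p => rad_mul (kf1_has p z).differentiableAt hφ
  refine ⟨fun p => ⟨(key p).1, ?_, ?_⟩, ?_⟩
  · rw [kBM, norm_mul, norm_real, Real.norm_of_nonneg (by positivity)]
    have h1 := mul_le_mul_of_nonneg_right (PiLp.norm_apply_le z p)
      (show 0 ≤ (‖z‖ ^ 2)⁻¹ ^ 2 by positivity)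
    have h2 : ‖z‖ * (‖z‖ ^ 2)⁻¹ ^ 2 = ‖z‖⁻¹ ^ 3 := by field_simp
    have h3 : 0 ≤ ‖z‖⁻¹ ^ 3 := by positivity
    linarith
  · have h1 := (key p).2.2
    rw [(kf1_has p z).fderiv, abs_of_nonneg (by positivity), abs_mul, abs_neg, abs_two,
      abs_of_nonneg (by positivity)] at h1
    have h2 := mul_le_mul_of_nonneg_right (kf1_pr_norm p) (show 0 ≤ (‖z‖ ^ 2)⁻¹ ^ 2 by positivity)
    have h3 := mul_le_mul_of_nonneg_right (PiLp.norm_apply_le z p)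
      (show 0 ≤ 2 * (2 * (‖z‖ ^ 2)⁻¹ ^ 3) * ‖z‖ by positivity)
    refine (mul_le_mul_of_nonneg_right (h1.trans (add_le_add h2 h3)) hr.le).trans (le_of_eq ?_)
    field_simp
    ring
  · have h1 : ∀ p, dF (-I) p (kBM p) z = (((‖z‖ ^ 2)⁻¹ ^ 2 : ℝ) : ℂ) +
        ((-2 * (‖z‖ ^ 2)⁻¹ ^ 3 : ℝ) : ℂ) * (z p * (starRingEnd ℂ) (z p)) := fun p => by
      refine ((key p).2.1 (-I) p).trans ?_
      have h2 : dF (-I) p (fun w : F => w p) z = 1 := by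
        rw [dF, (kf1_has p z).fderiv, kf1_pr_apply, kf1_pr_apply]
        simp only [ee, PiLp.smul_apply, PiLp.single_eq_same, smul_eq_mul, mul_one, neg_mul,
          I_mul_I]
        norm_num
      rw [h2, kf1_conj]
      ring
    simp only [h1, Finset.sum_add_distrib, ← Finset.mul_sum, kf1_sum, Finset.sum_const,
      Finset.card_univ, Fintype.card_fin, nsmul_eq_mul]
    have h2 : (‖z‖ : ℂ) ≠ 0 := ofReal_ne_zero.mpr hr.ne'
    push_cast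
    field_simp
    ring

theorem ktr_facts {s : ℝ} (hs : 0 < s) {k : Fin 2 → F → ℂ} {z : F} {κ : ℝ} {p : Fin 2}
    (hk : KB (k p) z κ) : KB (ktr s k p) z (7 * κ) ∧ ∀ c q, dF c q (ktr s k p) z =
      (cut (‖z‖ ^ 2 / s ^ 2) : ℂ) * dF c q (k p) z -
        ((3 * (s ^ 2)⁻¹ * max (1 - ‖z‖ ^ 2 / s ^ 2) 0 ^ 2 : ℝ) : ℂ) * k p z *
          ((z q).re + c * (z q).im) := by
  have hx : 0 ≤ ‖z‖ ^ 2 / s ^ 2 := by positivity
  have hφ : HasDerivAt (fun τ : ℝ => cut (τ / s ^ 2))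
      (-(3 * (s ^ 2)⁻¹ * max (1 - ‖z‖ ^ 2 / s ^ 2) 0 ^ 2)) (‖z‖ ^ 2) := by
    have h1 := HasDerivAt.comp (h₂ := cut) (h := fun τ : ℝ => τ / s ^ 2) (‖z‖ ^ 2)
      (hasDerivAt_cut (‖z‖ ^ 2 / s ^ 2)) ((hasDerivAt_id (‖z‖ ^ 2)).div_const (s ^ 2))
    refine HasDerivAt.congr_deriv h1 ?_
    ring
  have key := rad_mul hk.diff hφ
  have hκ : 0 ≤ κ := (norm_nonneg _).trans hk.b0
  have c0 := cut_nonneg (‖z‖ ^ 2 / s ^ 2)
  have c1 := cut_le_one hx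
  refine ⟨⟨key.1, ?_, ?_⟩, fun c q => ?_⟩
  · rw [ktr, norm_mul, norm_real, Real.norm_of_nonneg c0]
    have := mul_le_mul hk.b0 c1 c0 hκ
    linarith
  · have h1 := key.2.2
    rw [abs_of_nonneg c0, abs_neg, abs_of_nonneg (by positivity)] at h1
    obtain ⟨m0, m1, m2⟩ := kf1_M hx
    have h2 : 2 * (3 * (s ^ 2)⁻¹ * max (1 - ‖z‖ ^ 2 / s ^ 2) 0 ^ 2) * ‖z‖ * ‖z‖ ≤ 6 := by
      have h3 := mul_le_mul m1 m2 (mul_nonneg m0 hx) zero_le_one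
      calc _ = 6 * (max (1 - ‖z‖ ^ 2 / s ^ 2) 0 * (max (1 - ‖z‖ ^ 2 / s ^ 2) 0 *
            (‖z‖ ^ 2 / s ^ 2))) := by ring
        _ ≤ 6 := by linarith
    have h3 := mul_le_mul hk.b0 h2 (by positivity) hκ
    have h4 := mul_le_mul hk.b1 c1 c0 hκ
    refine (mul_le_mul_of_nonneg_right h1 (norm_nonneg z)).trans ?_
    linarith
  · refine (key.2.1 c q).trans ?_
    push_cast
    ring

theorem ktr_eq_zero {s : ℝ} (hs : 0 < s) (k : Fin 2 → F → ℂ) (p : Fin 2) {z : F} (hz : s ≤ ‖z‖) :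
    ktr s k p z = 0 := by
  rw [ktr, cut_eq_zero, ofReal_zero, mul_zero]
  rw [le_div_iff₀ (by positivity), one_mul]
  exact pow_le_pow_left₀ hs.le hz 2

/-- Outside the closed ball the truncated kernel vanishes near `z`. -/
theorem ktr_KB_out {s : ℝ} (hs : 0 < s) (k : Fin 2 → F → ℂ) (p : Fin 2) {z : F} (hz : s < ‖z‖) :
    KB (ktr s k p) z 0 := by
  have h : ktr s k p =ᶠ[𝓝 z] fun _ => 0 := by
    filter_upwards [(isOpen_lt continuous_const continuous_norm).mem_nhds hz] with w hw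
    exact ktr_eq_zero hs k p (le_of_lt hw)
  refine ⟨(differentiableAt_const 0).congr_of_eventuallyEq h, ?_, ?_⟩
  · rw [ktr_eq_zero hs k p hz.le, norm_zero]
  · rw [h.fderiv_eq]
    simp

theorem ktr_kBM_div {s : ℝ} (hs : 0 < s) {z : F} (hz : z ≠ 0) :
    ∑ p, dF (-I) p (ktr s kBM p) z = -(chiF s z : ℂ) := by
  have hr : 0 < ‖z‖ := norm_pos_iff.mpr hz
  obtain ⟨h1, h2⟩ := kBM_facts hz
  have h3 : ∀ p, dF (-I) p (ktr s kBM p) z = (cut (‖z‖ ^ 2 / s ^ 2) : ℂ) * dF (-I) p (kBM p) z -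
      ((3 * (s ^ 2)⁻¹ * max (1 - ‖z‖ ^ 2 / s ^ 2) 0 ^ 2 * (‖z‖ ^ 2)⁻¹ ^ 2 : ℝ) : ℂ) *
        (z p * (starRingEnd ℂ) (z p)) := fun p => by
    rw [(ktr_facts hs (h1 p)).2, kf1_conj, kBM]
    push_cast
    ring
  simp only [h3, Finset.sum_sub_distrib, ← Finset.mul_sum, h2, kf1_sum, mul_zero, zero_sub, chiF]
  norm_cast
  field_simp

theorem chiF_facts {s : ℝ} (hs : 0 < s) : (∀ z, 0 ≤ chiF s z) ∧ (∀ z, s ≤ ‖z‖ → chiF s z = 0) ∧
    Measurable (chiF s) ∧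
    ∀ z, z ≠ 0 → KB (fun w => (chiF s w : ℂ)) z (18 * (s ^ 2)⁻¹ * ‖z‖⁻¹ ^ 2) := by
  have h0 : ∀ z, 0 ≤ chiF s z := fun z => by
    unfold chiF
    positivity
  refine ⟨h0, fun z hz => ?_, ?_, fun z hz => ?_⟩
  · rw [chiF, max_eq_right]
    · simp
    · rw [sub_nonpos, le_div_iff₀ (by positivity), one_mul]
      exact pow_le_pow_left₀ hs.le hz 2
  · unfold chiF
    fun_prop
  have hr : 0 < ‖z‖ := norm_pos_iff.mpr hz
  have hx : 0 ≤ ‖z‖ ^ 2 / s ^ 2 := by positivity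
  obtain ⟨m0, m1, m2⟩ := kf1_M hx
  have hφ : HasDerivAt (fun τ : ℝ => 3 * (s ^ 2)⁻¹ * τ⁻¹ * max (1 - τ / s ^ 2) 0 ^ 2)
      (-(3 * (s ^ 2)⁻¹ * (‖z‖ ^ 2)⁻¹ ^ 2 * (max (1 - ‖z‖ ^ 2 / s ^ 2) 0 ^ 2 +
        2 * (max (1 - ‖z‖ ^ 2 / s ^ 2) 0 * (‖z‖ ^ 2 / s ^ 2))))) (‖z‖ ^ 2) := by
    have h1 : HasDerivAt (fun τ : ℝ => max (1 - τ / s ^ 2) 0 ^ 2) _ (‖z‖ ^ 2) :=
      HasDerivAt.comp (h₂ := fun t : ℝ => max (1 - t) 0 ^ 2) (h := fun τ : ℝ => τ / s ^ 2)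
        (‖z‖ ^ 2) (hasDerivAt_max_sq (‖z‖ ^ 2 / s ^ 2))
        ((hasDerivAt_id (‖z‖ ^ 2)).div_const (s ^ 2))
    refine HasDerivAt.congr_deriv
      (((hasDerivAt_inv (pow_pos hr 2).ne').const_mul (3 * (s ^ 2)⁻¹)).fun_mul h1) ?_
    generalize max (1 - ‖z‖ ^ 2 / s ^ 2) 0 = M
    field_simp
    ring
  have key := rad_mul (differentiableAt_const (1 : ℂ)) hφ
  simp only [one_mul] at key
  have m3 : max (1 - ‖z‖ ^ 2 / s ^ 2) 0 ^ 2 ≤ 1 := pow_le_one₀ m0 m1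
  have hp : 0 ≤ (s ^ 2)⁻¹ * ‖z‖⁻¹ ^ 2 := by positivity
  refine ⟨key.1, ?_, ?_⟩
  · rw [norm_real, Real.norm_of_nonneg (h0 z), chiF, ← inv_pow ‖z‖]
    have := mul_le_mul_of_nonneg_left m3 hp
    linarith
  · have h1 := key.2.2
    rw [fderiv_fun_const, Pi.zero_apply, norm_zero, zero_mul, zero_add, norm_one, one_mul, abs_neg,
      abs_of_nonneg (by positivity)] at h1
    refine (mul_le_mul_of_nonneg_right h1 hr.le).trans ?_
    have h2 := mul_le_mul_of_nonneg_left (add_le_add m3 (mul_le_mul_of_nonneg_left m2 zero_le_two))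
      hp
    generalize max (1 - ‖z‖ ^ 2 / s ^ 2) 0 ^ 2 +
      2 * (max (1 - ‖z‖ ^ 2 / s ^ 2) 0 * (‖z‖ ^ 2 / s ^ 2)) = T at h2 ⊢
    calc _ = 6 * ((s ^ 2)⁻¹ * ‖z‖⁻¹ ^ 2 * T) := by field_simp; ring
      _ ≤ _ := by linarith

theorem kLel_facts {z : F} (hz : z ≠ 0) (h : ‖z‖ ≤ 1 / 2) (q : Fin 2) :
    (∀ p, KB (kLel q p) z (10 * (-Real.log (‖z‖ ^ 2) * ‖z‖⁻¹ ^ 2))) ∧
    ∑ p, dF (-I) p (kLel q p) z = -((((‖z‖ ^ 2)⁻¹ ^ 2 : ℝ) : ℂ) * (starRingEnd ℂ) (z q)) := by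
  have hr : 0 < ‖z‖ := norm_pos_iff.mpr hz
  have hL : 1 ≤ -Real.log (‖z‖ ^ 2) := by
    have h1 : ‖z‖ ^ 2 ≤ (2 ^ 2)⁻¹ := by nlinarith
    have h2 := Real.log_le_log (pow_pos hr 2) h1
    rw [Real.log_inv, Real.log_pow 2 2] at h2
    have h3 := Real.log_two_gt_d9
    push_cast at h2
    linarith
  have hφ : HasDerivAt (fun τ : ℝ => -Real.log τ * τ⁻¹ ^ 2)
      (-((1 + 2 * -Real.log (‖z‖ ^ 2)) * (‖z‖ ^ 2)⁻¹ ^ 3)) (‖z‖ ^ 2) := by
    refine HasDerivAt.congr_deriv ((Real.hasDerivAt_log (pow_pos hr 2).ne').fun_neg.fun_mul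
      ((hasDerivAt_inv (pow_pos hr 2).ne').fun_pow 2)) ?_
    simp only [Nat.add_one_sub_one, pow_one]
    generalize Real.log (‖z‖ ^ 2) = L
    field_simp
    ring
  have hc : HasFDerivAt (fun w : F => (starRingEnd ℂ) (w q))
      ((conjCLE : ℂ →L[ℝ] ℂ).comp (kf1_pr q)) z :=
    (conjCLE : ℂ →L[ℝ] ℂ).hasFDerivAt.comp z (kf1_has q z)
  have hm : ∀ p, HasFDerivAt (fun w : F => w p * (starRingEnd ℂ) (w q))
      (z p • (conjCLE : ℂ →L[ℝ] ℂ).comp (kf1_pr q) + (starRingEnd ℂ) (z q) • kf1_pr p) z :=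
    fun p => (kf1_has p z).mul hc
  have key := fun p => rad_mul (hm p).differentiableAt hφ
  have e : ∀ p, kLel q p = fun w : F => w p * (starRingEnd ℂ) (w q) *
      ((-Real.log (‖w‖ ^ 2) * (‖w‖ ^ 2)⁻¹ ^ 2 : ℝ) : ℂ) := fun p => by
    funext w
    rw [kLel]
    ring
  have n0 : ∀ p, ‖z p * (starRingEnd ℂ) (z q)‖ ≤ ‖z‖ * ‖z‖ := fun p => by
    rw [norm_mul, norm_conj]
    exact mul_le_mul (PiLp.norm_apply_le z p) (PiLp.norm_apply_le z q) (norm_nonneg _) hr.le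
  have n1 : ∀ p, ‖z p • (conjCLE : ℂ →L[ℝ] ℂ).comp (kf1_pr q) + (starRingEnd ℂ) (z q) • kf1_pr p‖ ≤
      2 * ‖z‖ := fun p => by
    have a1 : ‖(conjCLE : ℂ →L[ℝ] ℂ).comp (kf1_pr q)‖ ≤ 1 := by
      refine (ContinuousLinearMap.opNorm_comp_le _ _).trans ?_
      rw [conjCLE_norm, one_mul]
      exact kf1_pr_norm q
    refine (norm_add_le _ _).trans ?_
    rw [norm_smul, norm_smul, norm_conj]
    have a2 := mul_le_mul (PiLp.norm_apply_le z p) a1 (norm_nonneg _) hr.le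
    have a3 := mul_le_mul (PiLp.norm_apply_le z q) (kf1_pr_norm p) (norm_nonneg _) hr.le
    linarith
  simp only [e]
  refine ⟨fun p => ⟨(key p).1, ?_, ?_⟩, ?_⟩
  · generalize -Real.log (‖z‖ ^ 2) = L at hL ⊢
    have hL0 : 0 ≤ L := by linarith
    rw [norm_mul, norm_real, Real.norm_of_nonneg (by positivity)]
    have h1 := mul_le_mul_of_nonneg_right (n0 p) (show 0 ≤ L * (‖z‖ ^ 2)⁻¹ ^ 2 by positivity)
    have h2 : ‖z‖ * ‖z‖ * (L * (‖z‖ ^ 2)⁻¹ ^ 2) = L * ‖z‖⁻¹ ^ 2 := by field_simp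
    have h3 : 0 ≤ L * ‖z‖⁻¹ ^ 2 := by positivity
    linarith
  · have h1 := (key p).2.2
    refine (mul_le_mul_of_nonneg_right h1 hr.le).trans ?_
    rw [(hm p).fderiv]
    generalize -Real.log (‖z‖ ^ 2) = L at hL ⊢
    have hL0 : 0 ≤ L := by linarith
    rw [abs_of_nonneg (by positivity), abs_neg, abs_of_nonneg (by positivity)]
    have h2 := mul_le_mul_of_nonneg_right (n1 p) (show 0 ≤ L * (‖z‖ ^ 2)⁻¹ ^ 2 by positivity)
    have h3 := mul_le_mul_of_nonneg_right (n0 p)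
      (show 0 ≤ 2 * ((1 + 2 * L) * (‖z‖ ^ 2)⁻¹ ^ 3) * ‖z‖ by positivity)
    refine (mul_le_mul_of_nonneg_right (add_le_add h2 h3) hr.le).trans ?_
    have h4 : 0 ≤ ‖z‖⁻¹ ^ 2 := by positivity
    have h5 := mul_le_mul_of_nonneg_right hL h4
    calc _ = 2 * (1 * ‖z‖⁻¹ ^ 2) + 6 * (L * ‖z‖⁻¹ ^ 2) := by field_simp; ring
      _ ≤ _ := by nlinarith
  · have h1 : ∀ p, dF (-I) p (fun w : F => w p * (starRingEnd ℂ) (w q)) z =
        (starRingEnd ℂ) (z q) := fun p => by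
      rw [dF, (hm p).fderiv]
      simp only [add_apply, smul_apply,
        ContinuousLinearMap.comp_apply, kf1_pr_apply, ContinuousLinearEquiv.coe_coe, conjCLE_apply,
        PiLp.smul_apply, smul_eq_mul, map_mul, conj_I, ee, PiLp.single_eq_same]
      linear_combination ((z p * (starRingEnd ℂ) ((EuclideanSpace.single p (1 : ℂ) : F) q) -
        (starRingEnd ℂ) (z q)) / 2) * I_mul_I
    have h2 : ∀ p, dF (-I) p (fun w : F => w p * (starRingEnd ℂ) (w q) *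
        ((-Real.log (‖w‖ ^ 2) * (‖w‖ ^ 2)⁻¹ ^ 2 : ℝ) : ℂ)) z = (starRingEnd ℂ) (z q) *
        (((-Real.log (‖z‖ ^ 2) * (‖z‖ ^ 2)⁻¹ ^ 2 : ℝ) : ℂ) +
          ((-((1 + 2 * -Real.log (‖z‖ ^ 2)) * (‖z‖ ^ 2)⁻¹ ^ 3) : ℝ) : ℂ) *
            (z p * (starRingEnd ℂ) (z p))) := fun p => by
      refine ((key p).2.1 (-I) p).trans ?_
      rw [h1, kf1_conj]
      ring
    simp only [h2, Finset.sum_add_distrib, ← Finset.mul_sum, kf1_sum, Finset.sum_const,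
      Finset.card_univ, Fintype.card_fin, nsmul_eq_mul]
    have h3 : (‖z‖ : ℂ) ≠ 0 := ofReal_ne_zero.mpr hr.ne'
    generalize Real.log (‖z‖ ^ 2) = L
    push_cast
    field_simp
    ring

end Pool.Agent.Lib.MP_f2cf74_an
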