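import Pool.Agent.Lib.MP_f2cf74_an.Ibp
import Pool.Agent.Lib.MP_f2cf74_an.KF1

open Set Metric MeasureTheory Complex Filter Topology
open scoped ContDiff ENNReal NNReal

noncomputable section

namespace Pool.Agent.Lib.MP_f2cf74_an

/-! Integration by parts against kernels `k p (Z x)`.
`dvK_sub`: chain rule; `fderiv Z x = A x + e` with `‖e‖ ≤ K ‖x - y‖ ≤ K² ‖Z x‖`,
`A x (X p) = ee p`, `A x (J x (X p)) = I • ee p`.
`ki0`: `siL` for `Φ = k p (Z ·) * G`, Leibniz rule, sum over `p`.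
`ki`: `ki0` for `ktr s k` with `R = K s` (`ktr_facts`, `ktr_KB_out`; replace `κ` by `0` where
`s < ‖Z x‖`), `dvK_sub`; the term with the derivative of the cut-off is `≤ 12 κ / s`. -/

theorem ki_sg_nonneg (y x : E) : 0 ≤ sg y x := Real.rpow_nonneg (norm_nonneg _) _

theorem ki_kappa_nonneg {k : F → ℂ} {z : F} {κ : ℝ} (h : KB k z κ) : 0 ≤ κ :=
  (norm_nonneg _).trans h.b0

theorem ki_half {c a b : ℂ} (hc : ‖c‖ ≤ 1) {A B : ℝ} (ha : ‖a‖ ≤ A) (hb : ‖b‖ ≤ B) :
    ‖(a + c * b) / 2‖ ≤ (A + B) / 2 := by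
  rw [norm_div, Complex.norm_two]
  have h1 : ‖c * b‖ ≤ B := by
    rw [norm_mul]
    exact (mul_le_of_le_one_left (norm_nonneg _) hc).trans hb
  have h2 := norm_add_le a (c * b)
  linarith

theorem ki_JX (M : Model) (x : E) (p : Fin 2) : ‖M.J x (M.X p)‖ ≤ M.K ^ 2 := by
  refine ((M.J x).le_opNorm _).trans ?_
  rw [sq]
  exact mul_le_mul (M.bJ x) (M.bX p) (norm_nonneg _) M.K_pos.le

theorem ki_X (M : Model) (p : Fin 2) : ‖M.X p‖ ≤ M.K ^ 2 :=
  (M.bX p).trans (by nlinarith [M.one_le])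

theorem ki_Lc_le (M : Model) {c : ℂ} (hc : ‖c‖ ≤ 1) (p : Fin 2) (G : E → ℂ) (x : E) :
    ‖Lc M c p G x‖ ≤ ‖fderiv ℝ G x‖ * M.K ^ 2 := by
  have h1 : ∀ v : E, ‖v‖ ≤ M.K ^ 2 → ‖fderiv ℝ G x v‖ ≤ ‖fderiv ℝ G x‖ * M.K ^ 2 := fun v hv =>
    ((fderiv ℝ G x).le_opNorm v).trans (mul_le_mul_of_nonneg_left hv (norm_nonneg _))
  refine (ki_half hc (h1 _ (ki_X M p)) (h1 _ (ki_JX M x p))).trans (le_of_eq ?_)
  ring

theorem ki_integrable {f : E → ℂ} (hf : AEStronglyMeasurable f volume) {y : E} {R C : ℝ}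
    (h1 : ∀ x, x ≠ y → ‖x - y‖ < R → ‖f x‖ ≤ C * sg y x)
    (h0 : ∀ x, x ≠ y → R ≤ ‖x - y‖ → f x = 0) : Integrable f := by
  have hi : Integrable ((ball y R).indicator fun x => C * sg y x) :=
    (integrable_indicator_iff measurableSet_ball).2 ((integrableOn_sg y R).const_mul C)
  refine hi.mono' hf ?_
  filter_upwards [Measure.ae_ne volume y] with x hx
  by_cases hR : ‖x - y‖ < R
  · rw [indicator_of_mem (mem_ball_iff_norm.2 hR)]
    exact h1 x hx hR
  · rw [indicator_of_notMem (fun h => hR (mem_ball_iff_norm.1 h)), h0 x hx (not_lt.1 hR), norm_zero]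

theorem ki_aesm {f : E → ℂ} {y : E} (h : ∀ x, x ≠ y → ContinuousAt f x) :
    AEStronglyMeasurable f volume := by
  rw [← restrict_compl_singleton (μ := volume) y]
  exact ContinuousOn.aestronglyMeasurable (fun x hx => (h x hx).continuousWithinAt)
    (measurableSet_singleton y).compl

theorem ki_cont_Lc (M : Model) (c : ℂ) (p : Fin 2) {G : E → ℂ} (hG : ContDiff ℝ 1 G) :
    Continuous (Lc M c p G) := by
  have h1 : Continuous (fderiv ℝ G) := hG.continuous_fderiv one_ne_zero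
  have h2 : Continuous fun x => M.J x (M.X p) := M.smJ.continuous.clm_apply continuous_const
  exact ((h1.clm_apply continuous_const).add (continuous_const.mul (h1.clm_apply h2))).div_const _

theorem ki_Lc_mul (M : Model) (c : ℂ) (p : Fin 2) {f G : E → ℂ} {x : E}
    (hf : DifferentiableAt ℝ f x) (hG : DifferentiableAt ℝ G x) :
    Lc M c p (fun x => f x * G x) x = Lc M c p f x * G x + f x * Lc M c p G x := by
  simp only [Lc, fderiv_fun_mul hf hG, add_apply, smul_apply, smul_eq_mul]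
  ring

theorem ki_fderiv_comp {M : Model} {y : E} {Z : E → F} (hZ : Coord M y Z) {k : F → ℂ} {x : E}
    (hk : DifferentiableAt ℝ k (Z x)) :
    HasFDerivAt (fun x' => k (Z x')) ((fderiv ℝ k (Z x)).comp (fderiv ℝ Z x)) x :=
  hk.hasFDerivAt.comp x (hZ.diff.differentiable one_ne_zero x).hasFDerivAt

/-- The truncated kernel vanishes to first order on the sphere and outside. -/
theorem ki_KB_zero {s : ℝ} (hs : 0 < s) {k : Fin 2 → F → ℂ} {p : Fin 2} {z : F} (hz : s ≤ ‖z‖)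
    (hk : ‖z‖ ≤ s → DifferentiableAt ℝ (k p) z) : KB (ktr s k p) z 0 := by
  rcases hz.lt_or_eq with hlt | heq
  · exact ktr_KB_out hs k p hlt
  have h1 : ‖z‖ ^ 2 / s ^ 2 = 1 := by rw [← heq]; exact div_self (pow_ne_zero 2 hs.ne')
  have h2 : HasDerivAt (fun t : ℝ => cut (t / s ^ 2))
      (-3 * max (1 - ‖z‖ ^ 2 / s ^ 2) 0 ^ 2 * (1 / s ^ 2)) (‖z‖ ^ 2) :=
    HasDerivAt.comp (h := fun t : ℝ => t / s ^ 2) (‖z‖ ^ 2) (hasDerivAt_cut (‖z‖ ^ 2 / s ^ 2))
      ((hasDerivAt_id' (‖z‖ ^ 2)).div_const (s ^ 2))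
  obtain ⟨h3, -, h4⟩ := rad_mul (hk heq.ge) h2
  have h5 : cut (‖z‖ ^ 2 / s ^ 2) = 0 := cut_eq_zero h1.ge
  refine ⟨h3, by rw [ktr_eq_zero hs k p heq.le, norm_zero], ?_⟩
  have h6 : ‖fderiv ℝ (ktr s k p) z‖ ≤ 0 := by
    refine h4.trans (le_of_eq ?_)
    rw [h5, h1]
    simp
  exact mul_nonpos_of_nonpos_of_nonneg h6 (norm_nonneg _)

theorem dvK_sub (M : Model) : ∃ C : ℝ, 0 ≤ C ∧ ∀ (y : E) (Z : E → F) (c : ℂ)
    (k : Fin 2 → F → ℂ) (x : E) (κ : ℝ), Coord M y Z → ‖c‖ ≤ 1 → (∀ p, KB (k p) (Z x) κ) →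
    ‖dvK M c k Z x - ∑ p, dF c p (k p) (Z x)‖ ≤ C * κ := by
  obtain ⟨Cd, hCd, hd⟩ := M.dvc_bound
  refine ⟨2 * (M.K ^ 4 + Cd), by positivity, fun y Z c k x κ hZ hc hk => ?_⟩
  have hK := M.K_pos
  have key : ∀ p, ‖Lc M c p (fun x' => k p (Z x')) x + dvc M c p x * k p (Z x) -
      dF c p (k p) (Z x)‖ ≤ (M.K ^ 4 + Cd) * κ := by
    intro p
    have hκ := ki_kappa_nonneg (hk p)
    have h1 : ∀ v : E, ‖v‖ ≤ M.K ^ 2 →
        ‖fderiv ℝ (k p) (Z x) ((fderiv ℝ Z x - M.A x) v)‖ ≤ M.K ^ 4 * κ := by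
      intro v hv
      have h2 : ‖(fderiv ℝ Z x - M.A x) v‖ ≤ M.K * (M.K * ‖Z x‖) * M.K ^ 2 :=
        ((fderiv ℝ Z x - M.A x).le_opNorm v).trans (mul_le_mul ((hZ.der x).trans
          (mul_le_mul_of_nonneg_left (hZ.low x) hK.le)) hv (norm_nonneg _) (by positivity))
      refine ((fderiv ℝ (k p) (Z x)).le_opNorm _).trans
        ((mul_le_mul_of_nonneg_left h2 (norm_nonneg _)).trans ?_)
      calc _ = M.K ^ 4 * (‖fderiv ℝ (k p) (Z x)‖ * ‖Z x‖) := by ring
        _ ≤ _ := mul_le_mul_of_nonneg_left (hk p).b1 (by positivity)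
    have h2 : Lc M c p (fun x' => k p (Z x')) x + dvc M c p x * k p (Z x) - dF c p (k p) (Z x) =
        (fderiv ℝ (k p) (Z x) ((fderiv ℝ Z x - M.A x) (M.X p)) +
          c * fderiv ℝ (k p) (Z x) ((fderiv ℝ Z x - M.A x) (M.J x (M.X p)))) / 2 +
          dvc M c p x * k p (Z x) := by
      simp only [Lc, dF, (ki_fderiv_comp hZ (hk p).diff).fderiv, ContinuousLinearMap.comp_apply,
        sub_apply, map_sub, M.AJ, M.AX]
      ring
    rw [h2]
    refine (norm_add_le _ _).trans ?_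
    have h3 := ki_half hc (h1 _ (ki_X M p)) (h1 _ (ki_JX M x p))
    have h4 : ‖dvc M c p x * k p (Z x)‖ ≤ Cd * κ := by
      rw [norm_mul]
      exact mul_le_mul (hd c p x hc) (hk p).b0 (norm_nonneg _) hCd
    linarith
  rw [dvK, ← Finset.sum_sub_distrib, Fin.sum_univ_two]
  refine (norm_add_le _ _).trans ?_
  linarith [key 0, key 1]

theorem measurable_dvK (M : Model) (c : ℂ) {k : Fin 2 → F → ℂ} (hk : ∀ p, Measurable (k p))
    {Z : E → F} (hZ : Continuous Z) : Measurable (dvK M c k Z) := by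
  refine Finset.measurable_sum _ fun p _ => Measurable.add ?_
    ((M.continuous_dvc c p).measurable.mul ((hk p).comp hZ.measurable))
  have h1 : Measurable (fderiv ℝ fun x' => k p (Z x')) := measurable_fderiv ℝ _
  have h2 : Measurable fun x => M.J x (M.X p) :=
    (M.smJ.continuous.clm_apply continuous_const).measurable
  have h3 : Continuous fun q : (E →L[ℝ] ℂ) × E => q.1 q.2 := continuous_fst.clm_apply continuous_snd
  have h4 : Measurable fun x => fderiv ℝ (fun x' => k p (Z x')) x (M.J x (M.X p)) :=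
    h3.measurable.comp (h1.prodMk h2)
  exact ((measurable_fderiv_apply_const ℝ _ (M.X p)).add (h4.const_mul c)).div_const 2

theorem ki0 (M : Model) {y : E} {Z : E → F} (hZ : Coord M y Z) {c : ℂ} (hc : ‖c‖ ≤ 1)
    {k : Fin 2 → F → ℂ} {κ : E → ℝ} {R C1 : ℝ} {G : E → ℂ} (hG : ContDiff ℝ 1 G)
    (hk : ∀ x, x ≠ y → ∀ p, KB (k p) (Z x) (κ x))
    (h0 : ∀ x, R ≤ ‖x - y‖ → ∀ p, k p (Z x) = 0)
    (hb : ∀ x, x ≠ y → ‖x - y‖ < R → κ x * ‖G x‖ ≤ C1 * (‖x - y‖ * sg y x) ∧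
      κ x * ‖fderiv ℝ G x‖ ≤ C1 * sg y x) :
    Integrable (fun x => ∑ p, k p (Z x) * Lc M c p G x) ∧
    Integrable (fun x => dvK M c k Z x * G x) ∧
    ∫ x, ∑ p, k p (Z x) * Lc M c p G x = -∫ x, dvK M c k Z x * G x := by
  have hK := M.K_pos
  have hGd : ∀ x, DifferentiableAt ℝ G x := fun x => hG.differentiable one_ne_zero x
  have hkd : ∀ x, x ≠ y → ∀ p, DifferentiableAt ℝ (fun x' => k p (Z x')) x := fun x hx p =>
    (ki_fderiv_comp hZ (hk x hx p).diff).differentiableAt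
  have hS : ∀ p, Integrable (fun x => Lc M c p (fun x => k p (Z x) * G x) x +
      dvc M c p x * (k p (Z x) * G x)) ∧
      ∫ x, (Lc M c p (fun x => k p (Z x) * G x) x + dvc M c p x * (k p (Z x) * G x)) = 0 := by
    intro p
    refine siL M c p y R ((1 + M.K * (M.K + M.K * |R|)) * C1)
      (fun x hx => (hkd x hx p).mul (hGd x)) (fun x hx => by rw [h0 x hx p, zero_mul])
      (fun x hx hR => ?_) (fun x hx hR => ?_)
    · have hκ := ki_kappa_nonneg (hk x hx p)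
      have h1 := (hb x hx hR).1
      have h2 : ‖k p (Z x) * G x‖ ≤ κ x * ‖G x‖ := by
        rw [norm_mul]
        exact mul_le_mul_of_nonneg_right (hk x hx p).b0 (norm_nonneg _)
      have h3 : 0 ≤ C1 * (‖x - y‖ * sg y x) := le_trans (by positivity) h1
      have h4 : 0 ≤ M.K * (M.K + M.K * |R|) * (C1 * (‖x - y‖ * sg y x)) := by positivity
      nlinarith
    · have hκ := ki_kappa_nonneg (hk x hx p)
      have hρ : 0 < ‖x - y‖ := norm_pos_iff.2 (sub_ne_zero.2 hx)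
      have h1 : ‖fderiv ℝ Z x‖ ≤ M.K + M.K * |R| := by
        have h2 := norm_add_le (fderiv ℝ Z x - M.A x) (M.A x)
        rw [sub_add_cancel] at h2
        have h3 : M.K * ‖x - y‖ ≤ M.K * |R| :=
          mul_le_mul_of_nonneg_left (hR.le.trans (le_abs_self R)) hK.le
        linarith [hZ.der x, M.bA x]
      have h2 : ‖fderiv ℝ (k p) (Z x)‖ * ‖x - y‖ ≤ M.K * κ x := by
        calc _ ≤ ‖fderiv ℝ (k p) (Z x)‖ * (M.K * ‖Z x‖) :=
              mul_le_mul_of_nonneg_left (hZ.low x) (norm_nonneg _)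
          _ = M.K * (‖fderiv ℝ (k p) (Z x)‖ * ‖Z x‖) := by ring
          _ ≤ _ := mul_le_mul_of_nonneg_left (hk x hx p).b1 hK.le
      have h3 : ‖fderiv ℝ (k p) (Z x)‖ * ‖G x‖ ≤ M.K * (C1 * sg y x) := by
        refine le_of_mul_le_mul_right ?_ hρ
        calc _ = ‖fderiv ℝ (k p) (Z x)‖ * ‖x - y‖ * ‖G x‖ := by ring
          _ ≤ M.K * κ x * ‖G x‖ := mul_le_mul_of_nonneg_right h2 (norm_nonneg _)
          _ = M.K * (κ x * ‖G x‖) := by ring
          _ ≤ M.K * (C1 * (‖x - y‖ * sg y x)) := mul_le_mul_of_nonneg_left (hb x hx hR).1 hK.le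
          _ = _ := by ring
      have h4 : ‖fderiv ℝ (fun x' => k p (Z x')) x‖ ≤ ‖fderiv ℝ (k p) (Z x)‖ * (M.K + M.K * |R|) := by
        rw [(ki_fderiv_comp hZ (hk x hx p).diff).fderiv]
        exact (ContinuousLinearMap.opNorm_comp_le _ _).trans
          (mul_le_mul_of_nonneg_left h1 (norm_nonneg _))
      rw [fderiv_fun_mul (hkd x hx p) (hGd x)]
      refine (norm_add_le _ _).trans ?_
      rw [norm_smul, norm_smul]
      have h5 : ‖k p (Z x)‖ * ‖fderiv ℝ G x‖ ≤ C1 * sg y x :=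
        (mul_le_mul_of_nonneg_right (hk x hx p).b0 (norm_nonneg _)).trans (hb x hx hR).2
      have h6 : ‖G x‖ * ‖fderiv ℝ (fun x' => k p (Z x')) x‖ ≤
          M.K * (C1 * sg y x) * (M.K + M.K * |R|) := by
        calc _ ≤ ‖G x‖ * (‖fderiv ℝ (k p) (Z x)‖ * (M.K + M.K * |R|)) :=
              mul_le_mul_of_nonneg_left h4 (norm_nonneg _)
          _ = ‖fderiv ℝ (k p) (Z x)‖ * ‖G x‖ * (M.K + M.K * |R|) := by ring
          _ ≤ _ := mul_le_mul_of_nonneg_right h3 (by positivity)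
      linarith
  have hA : Integrable (fun x => ∑ p, k p (Z x) * Lc M c p G x) := by
    refine integrable_finsetSum _ fun p _ => ki_integrable (y := y) (R := R) (C := M.K ^ 2 * C1)
      (ki_aesm fun x hx => (hkd x hx p).continuousAt.mul (ki_cont_Lc M c p hG).continuousAt)
      (fun x hx hR => ?_) (fun x _ hR => by rw [h0 x hR p, zero_mul])
    rw [norm_mul]
    calc _ ≤ κ x * (‖fderiv ℝ G x‖ * M.K ^ 2) := mul_le_mul (hk x hx p).b0 (ki_Lc_le M hc p G x)
          (norm_nonneg _) (ki_kappa_nonneg (hk x hx p))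
      _ = M.K ^ 2 * (κ x * ‖fderiv ℝ G x‖) := by ring
      _ ≤ M.K ^ 2 * (C1 * sg y x) := mul_le_mul_of_nonneg_left (hb x hx hR).2 (by positivity)
      _ = _ := by ring
  have hT : Integrable (fun x => ∑ p, (Lc M c p (fun x => k p (Z x) * G x) x +
      dvc M c p x * (k p (Z x) * G x))) := integrable_finsetSum _ fun p _ => (hS p).1
  have hE : (fun x => dvK M c k Z x * G x) =ᵐ[volume] fun x =>
      (∑ p, (Lc M c p (fun x => k p (Z x) * G x) x + dvc M c p x * (k p (Z x) * G x))) -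
        ∑ p, k p (Z x) * Lc M c p G x := by
    filter_upwards [Measure.ae_ne volume y] with x hx
    rw [dvK, Finset.sum_mul, ← Finset.sum_sub_distrib]
    refine Finset.sum_congr rfl fun p _ => ?_
    rw [ki_Lc_mul M c p (hkd x hx p) (hGd x)]
    ring
  refine ⟨hA, (hT.sub hA).congr hE.symm, ?_⟩
  rw [integral_congr_ae hE, integral_sub hT hA, integral_finsetSum _ fun p _ => (hS p).1,
    Finset.sum_eq_zero fun p _ => (hS p).2, zero_sub, neg_neg]

theorem ki (M : Model) {s : ℝ} (hs : 0 < s) : ∃ C : ℝ≥0, ∀ (y : E) (Z : E → F) (c : ℂ)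
    (k : Fin 2 → F → ℂ) (κ : E → ℝ) (C1 : ℝ) (G : E → ℂ), Coord M y Z → ‖c‖ ≤ 1 →
    ContDiff ℝ 1 G → (∀ x, x ≠ y → ‖Z x‖ ≤ s → ∀ p, KB (k p) (Z x) (κ x)) →
    (∀ x, x ≠ y → ‖Z x‖ ≤ s → κ x * ‖G x‖ ≤ C1 * (‖x - y‖ * sg y x) ∧
      κ x * ‖fderiv ℝ G x‖ ≤ C1 * sg y x) →
    Integrable (fun x => ∑ p, ktr s k p (Z x) * Lc M c p G x) ∧
    Integrable (fun x => (cut (‖Z x‖ ^ 2 / s ^ 2) : ℂ) * (∑ p, dF c p (k p) (Z x)) * G x) ∧
    ‖(∫ x, ∑ p, ktr s k p (Z x) * Lc M c p G x) +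
      ∫ x, (cut (‖Z x‖ ^ 2 / s ^ 2) : ℂ) * (∑ p, dF c p (k p) (Z x)) * G x‖ₑ ≤
      C * ∫⁻ x in {x | ‖Z x‖ < s}, ENNReal.ofReal (κ x) * ‖G x‖ₑ := by
  obtain ⟨C0, hC0, hsub⟩ := dvK_sub M
  have hK := M.K_pos
  have hC : 0 ≤ 7 * C0 + 12 / s := by positivity
  refine ⟨NNReal.mk (7 * C0 + 12 / s) hC, fun y Z c k κ C1 G hZ hc hG hk hb => ?_⟩
  have hk0 : ∀ x, x ≠ y → s ≤ ‖Z x‖ → ∀ p, KB (ktr s k p) (Z x) 0 := fun x hx hz p =>
    ki_KB_zero hs hz fun h => (hk x hx h p).diff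
  have hk' : ∀ x, x ≠ y → ∀ p, KB (ktr s k p) (Z x) (if ‖Z x‖ < s then 7 * κ x else 0) := by
    intro x hx p
    split_ifs with h
    · exact (ktr_facts hs (hk x hx h.le p)).1
    · exact hk0 x hx (not_lt.1 h) p
  have hout : ∀ x, M.K * s ≤ ‖x - y‖ → s ≤ ‖Z x‖ := fun x hx =>
    le_of_mul_le_mul_left (hx.trans (hZ.low x)) hK
  obtain ⟨hA, hB, hI⟩ := ki0 M hZ hc (R := M.K * s) (C1 := 7 * |C1|) hG hk'
    (fun x hx p => ktr_eq_zero hs k p (hout x hx)) (fun x hx _ => by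
      have h1 := ki_sg_nonneg y x
      have h2 : C1 * (‖x - y‖ * sg y x) ≤ |C1| * (‖x - y‖ * sg y x) :=
        mul_le_mul_of_nonneg_right (le_abs_self _) (by positivity)
      have h3 : C1 * sg y x ≤ |C1| * sg y x := mul_le_mul_of_nonneg_right (le_abs_self _) h1
      split_ifs with h
      · obtain ⟨h4, h5⟩ := hb x hx h.le
        constructor <;> linarith
      · rw [zero_mul, zero_mul]
        constructor <;> positivity)
  have hcut : Continuous cut := continuous_iff_continuousAt.2 fun t => (hasDerivAt_cut t).continuousAt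
  have hZc : Continuous Z := hZ.diff.continuous
  have hTm : Measurable fun x =>
      (cut (‖Z x‖ ^ 2 / s ^ 2) : ℂ) * (∑ p, dF c p (k p) (Z x)) * G x := by
    refine Measurable.mul (Measurable.mul (Continuous.measurable ?_)
      (Finset.measurable_sum _ fun p _ => ?_)) hG.continuous.measurable
    · exact Complex.continuous_ofReal.comp (hcut.comp ((hZc.norm.pow 2).div_const _))
    · exact ((((measurable_fderiv_apply_const ℝ (k p) (ee p)).add
        ((measurable_fderiv_apply_const ℝ (k p) (I • ee p)).const_mul c)).div_const 2).comp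
          hZc.measurable)
  have hD0 : ∀ x, x ≠ y → s ≤ ‖Z x‖ → dvK M c (ktr s k) Z x * G x -
      (cut (‖Z x‖ ^ 2 / s ^ 2) : ℂ) * (∑ p, dF c p (k p) (Z x)) * G x = 0 := by
    intro x hx hz
    have h1 : cut (‖Z x‖ ^ 2 / s ^ 2) = 0 :=
      cut_eq_zero ((one_le_div (by positivity)).2 (pow_le_pow_left₀ hs.le hz 2))
    have h2 := hsub y Z c (ktr s k) x 0 hZ hc (hk0 x hx hz)
    have h3 : ∀ p, dF c p (ktr s k p) (Z x) = 0 := fun p => by
      have h4 : ‖fderiv ℝ (ktr s k p) (Z x)‖ ≤ 0 :=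
        nonpos_of_mul_nonpos_left (hk0 x hx hz p).b1 (hs.trans_le hz)
      exact norm_le_zero_iff.1 ((norm_dF_le hc p _).trans h4)
    rw [Finset.sum_eq_zero fun p _ => h3 p, sub_zero, mul_zero, norm_le_zero_iff] at h2
    rw [h1, h2]
    simp
  have hD1 : ∀ x, x ≠ y → ‖Z x‖ < s → ‖dvK M c (ktr s k) Z x * G x -
      (cut (‖Z x‖ ^ 2 / s ^ 2) : ℂ) * (∑ p, dF c p (k p) (Z x)) * G x‖ ≤
      (7 * C0 + 12 / s) * (κ x * ‖G x‖) := by
    intro x hx hz
    have hκ := ki_kappa_nonneg (hk x hx hz.le 0)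
    have h2 := hsub y Z c (ktr s k) x _ hZ hc fun p => (ktr_facts hs (hk x hx hz.le p)).1
    have h3 : ∀ p, ‖dF c p (ktr s k p) (Z x) -
        (cut (‖Z x‖ ^ 2 / s ^ 2) : ℂ) * dF c p (k p) (Z x)‖ ≤ 6 / s * κ x := by
      intro p
      rw [(ktr_facts hs (hk x hx hz.le p)).2 c p, sub_sub_cancel_left, norm_neg, norm_mul, norm_mul,
        Complex.norm_real, Real.norm_of_nonneg (by positivity)]
      have h4 : max (1 - ‖Z x‖ ^ 2 / s ^ 2) 0 ^ 2 ≤ 1 :=
        pow_le_one₀ (le_max_right _ _) (max_le (sub_le_self _ (by positivity)) zero_le_one)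
      have h5 : ‖Z x p‖ ≤ s := (PiLp.norm_apply_le (Z x) p).trans hz.le
      have h6 : ‖(((Z x p).re : ℂ) + c * ((Z x p).im : ℂ))‖ ≤ 2 * s := by
        refine (norm_add_le _ _).trans ?_
        rw [norm_mul, Complex.norm_real, Complex.norm_real, Real.norm_eq_abs, Real.norm_eq_abs]
        have h7 := Complex.abs_re_le_norm (Z x p)
        have h8 := Complex.abs_im_le_norm (Z x p)
        have h9 : ‖c‖ * |(Z x p).im| ≤ |(Z x p).im| := mul_le_of_le_one_left (abs_nonneg _) hc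
        linarith
      calc _ ≤ 3 * (s ^ 2)⁻¹ * 1 * κ x * (2 * s) :=
            mul_le_mul (mul_le_mul (mul_le_mul_of_nonneg_left h4 (by positivity))
              (hk x hx hz.le p).b0 (norm_nonneg _) (by positivity)) h6 (norm_nonneg _)
              (by positivity)
        _ = 6 / s * κ x := by field_simp; ring
    have h4 : ‖dvK M c (ktr s k) Z x - (cut (‖Z x‖ ^ 2 / s ^ 2) : ℂ) * ∑ p, dF c p (k p) (Z x)‖ ≤
        (7 * C0 + 12 / s) * κ x := by
      have h5 : dvK M c (ktr s k) Z x - (cut (‖Z x‖ ^ 2 / s ^ 2) : ℂ) * ∑ p, dF c p (k p) (Z x) =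
          (dvK M c (ktr s k) Z x - ∑ p, dF c p (ktr s k p) (Z x)) +
          ((dF c 0 (ktr s k 0) (Z x) - (cut (‖Z x‖ ^ 2 / s ^ 2) : ℂ) * dF c 0 (k 0) (Z x)) +
          (dF c 1 (ktr s k 1) (Z x) - (cut (‖Z x‖ ^ 2 / s ^ 2) : ℂ) * dF c 1 (k 1) (Z x))) := by
        rw [Fin.sum_univ_two, Fin.sum_univ_two]
        ring
      rw [h5]
      refine (norm_add_le _ _).trans ((add_le_add h2 ((norm_add_le _ _).trans
        (add_le_add (h3 0) (h3 1)))).trans (le_of_eq ?_))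
      ring
    rw [← sub_mul, norm_mul, ← mul_assoc]
    exact mul_le_mul_of_nonneg_right h4 (norm_nonneg _)
  have hD : Integrable fun x => dvK M c (ktr s k) Z x * G x -
      (cut (‖Z x‖ ^ 2 / s ^ 2) : ℂ) * (∑ p, dF c p (k p) (Z x)) * G x := by
    refine ki_integrable (y := y) (R := M.K * s) (C := (7 * C0 + 12 / s) * (|C1| * (M.K * s)))
      (hB.aestronglyMeasurable.sub hTm.aestronglyMeasurable) (fun x hx hR => ?_)
      (fun x hx hR => hD0 x hx (hout x hR))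
    have h1 := ki_sg_nonneg y x
    by_cases hz : ‖Z x‖ < s
    · refine (hD1 x hx hz).trans ?_
      rw [mul_assoc (7 * C0 + 12 / s)]
      refine mul_le_mul_of_nonneg_left ((hb x hx hz.le).1.trans ?_) hC
      rw [mul_assoc |C1|]
      exact mul_le_mul (le_abs_self _) (mul_le_mul_of_nonneg_right hR.le h1) (by positivity)
        (abs_nonneg _)
    · rw [hD0 x hx (not_lt.1 hz), norm_zero]
      positivity
  have hT : Integrable fun x =>
      (cut (‖Z x‖ ^ 2 / s ^ 2) : ℂ) * (∑ p, dF c p (k p) (Z x)) * G x :=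
    (hB.sub hD).congr (Eventually.of_forall fun x => sub_sub_cancel _ _)
  refine ⟨hA, hT, ?_⟩
  have hm : MeasurableSet {x | ‖Z x‖ < s} := (isOpen_lt hZc.norm continuous_const).measurableSet
  rw [hI, neg_add_eq_sub, ← neg_sub, enorm_neg, ← integral_sub hB hT,
    ← lintegral_const_mul' _ _ ENNReal.coe_ne_top, ← lintegral_indicator hm]
  refine (enorm_integral_le_lintegral_enorm _).trans (lintegral_mono_ae ?_)
  filter_upwards [Measure.ae_ne volume y] with x hx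
  by_cases hz : ‖Z x‖ < s
  · rw [indicator_of_mem (show x ∈ {x | ‖Z x‖ < s} from hz), ← ofReal_norm,
      ← ofReal_norm, ← ENNReal.ofReal_mul (ki_kappa_nonneg (hk x hx hz.le 0)),
      ← ENNReal.ofReal_eq_coe_nnreal hC, ← ENNReal.ofReal_mul hC]
    exact ENNReal.ofReal_le_ofReal (hD1 x hx hz)
  · rw [hD0 x hx (not_lt.1 hz), enorm_zero]
    exact zero_le

end Pool.Agent.Lib.MP_f2cf74_an
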