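import Pool.Agent.Lib.MP_f2cf74_an.Base

open Set Metric MeasureTheory Complex Filter Topology
open scoped ContDiff ENNReal NNReal

noncomputable section

namespace Pool.Agent.Lib.MP_f2cf74_an

/-! Kernels `kp p x y = ‖x - y‖⁻¹ ^ p` against measures with power growth.
`lp_near`: cover `ball y a \ {y}` by the annuli `a / 2 ^ (k + 1) ≤ ‖x - y‖ < a / 2 ^ k`
(`lintegral_iUnion_le`, geometric series; `kp p y y = 0`).  `lp_far`: annuli
`2 ^ k a ≤ ‖x - y‖ < min (2 ^ (k + 1) a) S`.  The Lebesgue versions use `Measure.addHaar_ball`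
(dimension 4); for `leb_far` exhaust the complement by `ball y n \ ball y a`.
`integrableOn_sg`: `integrableOn_ball_of_norm_le_rpow` and a translation. -/

theorem kp_comm (p : ℕ) (x y : E) : kp p x y = kp p y x := by
  unfold kp
  rw [norm_sub_rev]

theorem measurable_kp (p : ℕ) : Measurable (fun q : E × E => kp p q.1 q.2) := by
  unfold kp
  exact ENNReal.measurable_ofReal.comp
    (((measurable_fst.sub measurable_snd).norm.inv).pow_const p)

theorem measurable_wW : Measurable (fun q : E × E => wW q.1 q.2) := by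
  unfold wW
  have h : Measurable (fun q : E × E => ‖q.1 - q.2‖) := (measurable_fst.sub measurable_snd).norm
  exact ENNReal.measurable_ofReal.comp
    ((h.inv.pow_const 4).div ((Real.measurable_log.comp h).pow_const 2))

theorem kp_aux_sum (ν : Measure E) (T : Set E) (hT : MeasurableSet T) (f : E → ℝ≥0∞)
    (B : ℕ → Set E) (hB : ∀ k, MeasurableSet (B k)) (c : ℕ → ℝ≥0∞) (D : ℝ≥0∞)
    (h : ∀ x ∈ T, f x = 0 ∨ ∃ k, x ∈ B k ∧ f x ≤ c k)
    (hD : ∀ k, c k * ν (B k) ≤ D * (2⁻¹) ^ k) : ∫⁻ x in T, f x ∂ν ≤ 2 * D := by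
  calc ∫⁻ x in T, f x ∂ν ≤ ∫⁻ x in T, ∑' k, (B k).indicator (fun _ => c k) x ∂ν := by
        refine setLIntegral_mono' hT fun x hx => ?_
        rcases h x hx with h0 | ⟨k, hk, hle⟩
        · simp [h0]
        · refine le_trans ?_ (ENNReal.le_tsum k)
          simpa [indicator_of_mem hk] using hle
    _ ≤ ∫⁻ x, ∑' k, (B k).indicator (fun _ => c k) x ∂ν := setLIntegral_le_lintegral _ _
    _ = ∑' k, c k * ν (B k) := by
        rw [lintegral_tsum fun k => (measurable_const.indicator (hB k)).aemeasurable]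
        refine tsum_congr fun k => ?_
        rw [lintegral_indicator_const (hB k)]
    _ ≤ ∑' k : ℕ, D * (2⁻¹) ^ k := ENNReal.tsum_le_tsum hD
    _ = 2 * D := by
        rw [ENNReal.tsum_mul_left, ENNReal.tsum_geometric, ENNReal.one_sub_inv_two, inv_inv,
          mul_comm]

theorem kp_aux_half (D : ℝ) (hD : 0 ≤ D) (k : ℕ) :
    ENNReal.ofReal (D * (2⁻¹) ^ k) = ENNReal.ofReal D * (2⁻¹) ^ k := by
  rw [ENNReal.ofReal_mul hD, ENNReal.ofReal_pow (by norm_num),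
    ENNReal.ofReal_inv_of_pos (by norm_num)]
  simp

theorem kp_aux_near {d a : ℝ} (hd : 0 < d) (hda : d < a) :
    ∃ k : ℕ, a / 2 ^ (k + 1) ≤ d ∧ d < a / 2 ^ k := by
  classical
  have hex : ∃ k : ℕ, a / 2 ^ (k + 1) ≤ d := by
    obtain ⟨n, hn⟩ := pow_unbounded_of_one_lt (a / d) (by norm_num : (1 : ℝ) < 2)
    refine ⟨n, ?_⟩
    rw [div_lt_iff₀ hd] at hn
    rw [div_le_iff₀ (by positivity), pow_succ]
    have : 0 < 2 ^ n * d := by positivity
    nlinarith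
  refine ⟨Nat.find hex, Nat.find_spec hex, ?_⟩
  rcases Nat.eq_zero_or_pos (Nat.find hex) with h0 | h0
  · rw [h0]; simpa using hda
  · have := Nat.find_min hex (m := Nat.find hex - 1) (by omega)
    rw [show Nat.find hex - 1 + 1 = Nat.find hex by omega] at this
    exact lt_of_not_ge this

theorem kp_aux_pw (k q : ℕ) (hq : 0 < q) : ((2 : ℝ) ^ k)⁻¹ ^ q ≤ (2⁻¹) ^ k := by
  have h1 : ((2 : ℝ) ^ k)⁻¹ ≤ 1 := inv_le_one_of_one_le₀ (one_le_pow₀ (by norm_num))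
  calc ((2 : ℝ) ^ k)⁻¹ ^ q ≤ ((2 : ℝ) ^ k)⁻¹ ^ 1 :=
        pow_le_pow_of_le_one (by positivity) h1 hq
    _ = (2⁻¹) ^ k := by rw [pow_one, inv_pow]

theorem kp_aux_far (p m : ℕ) (h : m < p) (ν : Measure E) (y : E) (a : ℝ) (A : ℝ≥0∞) (ha : 0 < a)
    (T : Set E) (hT : MeasurableSet T) (hTa : ∀ x ∈ T, a ≤ ‖x - y‖)
    (hν : ∀ s, 0 < s → ν (ball y s ∩ T) ≤ A * ENNReal.ofReal (s ^ m)) :
    ∫⁻ x in T, kp p y x ∂ν ≤ ((2 * 2 ^ m : ℝ≥0) : ℝ≥0∞) * A * ENNReal.ofReal (a⁻¹ ^ (p - m)) := by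
  obtain ⟨q, rfl⟩ := Nat.exists_eq_add_of_lt h
  have hq : m + q + 1 - m = q + 1 := by omega
  rw [hq]
  have key := kp_aux_sum ν T hT (fun x => kp (m + q + 1) y x)
    (fun k => ball y (2 ^ (k + 1) * a) ∩ T) (fun k => measurableSet_ball.inter hT)
    (fun k => ENNReal.ofReal ((2 ^ k * a)⁻¹ ^ (m + q + 1)))
    (A * ENNReal.ofReal (2 ^ m * a⁻¹ ^ (q + 1))) ?_ ?_
  · refine key.trans (le_of_eq ?_)
    rw [ENNReal.ofReal_mul (by positivity), ENNReal.ofReal_pow (by norm_num)]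
    push_cast
    simp only [ENNReal.ofReal_ofNat]
    ring
  · intro x hx
    right
    have h1 : 1 ≤ ‖x - y‖ / a := by rw [le_div_iff₀ ha]; simpa using hTa x hx
    obtain ⟨k, hk1, hk2⟩ := exists_nat_pow_near h1 (by norm_num : (1 : ℝ) < 2)
    rw [le_div_iff₀ ha] at hk1
    rw [div_lt_iff₀ ha] at hk2
    refine ⟨k, ⟨by rwa [mem_ball, dist_eq_norm], hx⟩, ?_⟩
    unfold kp
    rw [norm_sub_rev]
    refine ENNReal.ofReal_le_ofReal (pow_le_pow_left₀ (by positivity) ?_ _)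
    exact inv_anti₀ (by positivity) hk1
  · intro k
    calc ENNReal.ofReal ((2 ^ k * a)⁻¹ ^ (m + q + 1)) * ν (ball y (2 ^ (k + 1) * a) ∩ T)
        ≤ ENNReal.ofReal ((2 ^ k * a)⁻¹ ^ (m + q + 1)) *
            (A * ENNReal.ofReal ((2 ^ (k + 1) * a) ^ m)) := by
          gcongr
          exact hν _ (by positivity)
      _ = A * ENNReal.ofReal ((2 ^ k * a)⁻¹ ^ (m + q + 1) * (2 ^ (k + 1) * a) ^ m) := by
          rw [ENNReal.ofReal_mul (by positivity)]; ring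
      _ ≤ A * ENNReal.ofReal (2 ^ m * a⁻¹ ^ (q + 1) * (2⁻¹) ^ k) := by
          gcongr A * ENNReal.ofReal ?_
          have e : ((2 : ℝ) ^ k * a)⁻¹ ^ (m + q + 1) * (2 ^ (k + 1) * a) ^ m =
              2 ^ m * a⁻¹ ^ (q + 1) * ((2 : ℝ) ^ k)⁻¹ ^ (q + 1) := by
            rw [pow_succ (2 : ℝ) k]
            generalize hb : (2 : ℝ) ^ k = b
            have hb0 : b ≠ 0 := by rw [← hb]; positivity
            have ha0 := ha.ne'
            simp only [mul_pow, mul_inv, pow_add, inv_pow]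
            field_simp
          rw [e]
          gcongr
          exact kp_aux_pw k (q + 1) (by omega)
      _ = A * ENNReal.ofReal (2 ^ m * a⁻¹ ^ (q + 1)) * 2⁻¹ ^ k := by
          rw [kp_aux_half _ (by positivity), mul_assoc]

theorem kp_aux_sg {d : ℝ} (hd : 0 < d) : d ^ (-(7 / 2) : ℝ) = (Real.sqrt d)⁻¹ ^ 7 := by
  rw [Real.sqrt_eq_rpow, ← Real.rpow_neg hd.le, ← Real.rpow_natCast, ← Real.rpow_mul hd.le]
  norm_num

theorem lp_near (p m : ℕ) (hp : 0 < p) (h : p < m) : ∃ C : ℝ≥0, ∀ (ν : Measure E) (y : E) (a : ℝ)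
    (A : ℝ≥0∞), 0 < a → (∀ s, 0 < s → s ≤ a → ν (ball y s) ≤ A * ENNReal.ofReal (s ^ m)) →
    ∫⁻ x in ball y a, kp p y x ∂ν ≤ C * A * ENNReal.ofReal (a ^ (m - p)) := by
  obtain ⟨q, rfl⟩ := Nat.exists_eq_add_of_lt h
  have hq : p + q + 1 - p = q + 1 := by omega
  rw [hq]
  refine ⟨2 * 2 ^ p, fun ν y a A ha hν => ?_⟩
  have key := kp_aux_sum ν (ball y a) measurableSet_ball (fun x => kp p y x)
    (fun k => ball y (a / 2 ^ k)) (fun k => measurableSet_ball)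
    (fun k => ENNReal.ofReal ((a / 2 ^ (k + 1))⁻¹ ^ p))
    (A * ENNReal.ofReal (2 ^ p * a ^ (q + 1))) ?_ ?_
  · refine key.trans (le_of_eq ?_)
    rw [ENNReal.ofReal_mul (by positivity), ENNReal.ofReal_pow (by norm_num)]
    push_cast
    simp only [ENNReal.ofReal_ofNat]
    ring
  · intro x hx
    by_cases hxy : x = y
    · left
      simp [kp, hxy, hp.ne']
    · right
      have hd : 0 < ‖x - y‖ := norm_pos_iff.2 (sub_ne_zero.2 hxy)
      rw [mem_ball, dist_eq_norm] at hx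
      obtain ⟨k, hk1, hk2⟩ := kp_aux_near hd hx
      refine ⟨k, by rwa [mem_ball, dist_eq_norm], ?_⟩
      unfold kp
      rw [norm_sub_rev]
      refine ENNReal.ofReal_le_ofReal (pow_le_pow_left₀ (by positivity) ?_ _)
      exact inv_anti₀ (by positivity) hk1
  · intro k
    have h2 : (1 : ℝ) ≤ 2 ^ k := one_le_pow₀ (by norm_num)
    calc ENNReal.ofReal ((a / 2 ^ (k + 1))⁻¹ ^ p) * ν (ball y (a / 2 ^ k))
        ≤ ENNReal.ofReal ((a / 2 ^ (k + 1))⁻¹ ^ p) *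
            (A * ENNReal.ofReal ((a / 2 ^ k) ^ (p + q + 1))) := by
          gcongr
          exact hν _ (by positivity) (div_le_self ha.le h2)
      _ = A * ENNReal.ofReal ((a / 2 ^ (k + 1))⁻¹ ^ p * (a / 2 ^ k) ^ (p + q + 1)) := by
          rw [ENNReal.ofReal_mul (by positivity)]; ring
      _ ≤ A * ENNReal.ofReal (2 ^ p * a ^ (q + 1) * (2⁻¹) ^ k) := by
          gcongr A * ENNReal.ofReal ?_
          have e : (a / (2 : ℝ) ^ (k + 1))⁻¹ ^ p * (a / 2 ^ k) ^ (p + q + 1) =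
              2 ^ p * a ^ (q + 1) * ((2 : ℝ) ^ k)⁻¹ ^ (q + 1) := by
            rw [pow_succ (2 : ℝ) k]
            generalize hb : (2 : ℝ) ^ k = b
            have hb0 : b ≠ 0 := by rw [← hb]; positivity
            have ha0 := ha.ne'
            simp only [inv_div, div_pow, mul_pow, pow_add, inv_pow]
            field_simp
          rw [e]
          gcongr
          exact kp_aux_pw k (q + 1) (by omega)
      _ = A * ENNReal.ofReal (2 ^ p * a ^ (q + 1)) * 2⁻¹ ^ k := by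
          rw [kp_aux_half _ (by positivity), mul_assoc]

theorem lp_far (p m : ℕ) (h : m < p) : ∃ C : ℝ≥0, ∀ (ν : Measure E) (y : E) (a S : ℝ)
    (A : ℝ≥0∞), 0 < a → (∀ s, 0 < s → s ≤ S → ν (ball y s) ≤ A * ENNReal.ofReal (s ^ m)) →
    ∫⁻ x in ball y S \ ball y a, kp p y x ∂ν ≤ C * A * ENNReal.ofReal (a⁻¹ ^ (p - m)) := by
  refine ⟨2 * 2 ^ m, fun ν y a S A ha hν => ?_⟩
  refine kp_aux_far p m h ν y a A ha _ (measurableSet_ball.diff measurableSet_ball) ?_ ?_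
  · intro x hx
    have := hx.2
    rw [mem_ball, dist_eq_norm] at this
    exact le_of_not_gt this
  · intro s hs
    by_cases hS : 0 < S
    · calc ν (ball y s ∩ (ball y S \ ball y a)) ≤ ν (ball y (min s S)) := by
            refine measure_mono fun x hx => ?_
            exact mem_ball.2 (lt_min (mem_ball.1 hx.1) (mem_ball.1 hx.2.1))
        _ ≤ A * ENNReal.ofReal (min s S ^ m) := hν _ (lt_min hs hS) (min_le_right _ _)
        _ ≤ A * ENNReal.ofReal (s ^ m) := by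
            have : 0 ≤ min s S := (lt_min hs hS).le
            gcongr
            exact min_le_left _ _
    · rw [ball_eq_empty.2 (le_of_not_gt hS)]
      simp

theorem vol_ball : ∃ C : ℝ≥0, 0 < C ∧ ∀ (y : E) (s : ℝ), 0 ≤ s →
    volume (ball y s) = C * ENNReal.ofReal (s ^ 4) := by
  have hfin : volume (ball (0 : E) 1) ≠ ⊤ := measure_ball_lt_top.ne
  have hpos : volume (ball (0 : E) 1) ≠ 0 := (measure_ball_pos volume _ one_pos).ne'
  refine ⟨(volume (ball (0 : E) 1)).toNNReal, ENNReal.toNNReal_pos hpos hfin, fun y s hs => ?_⟩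
  rw [ENNReal.coe_toNNReal hfin, Measure.addHaar_ball volume y hs, mul_comm]
  simp

theorem leb_near (p : ℕ) (hp : 0 < p) (h : p < 4) : ∃ C : ℝ≥0, ∀ (y : E) (a : ℝ), 0 < a →
    ∫⁻ x in ball y a, kp p y x ≤ C * ENNReal.ofReal (a ^ (4 - p)) := by
  obtain ⟨C, hC⟩ := lp_near p 4 hp h
  obtain ⟨V, -, hV⟩ := vol_ball
  refine ⟨C * V, fun y a ha => ?_⟩
  have := hC volume y a V ha fun s hs _ => (hV y s hs.le).le
  simpa using this

theorem leb_far (p : ℕ) (h : 4 < p) : ∃ C : ℝ≥0, ∀ (y : E) (a : ℝ), 0 < a →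
    ∫⁻ x in (ball y a)ᶜ, kp p y x ≤ C * ENNReal.ofReal (a⁻¹ ^ (p - 4)) := by
  obtain ⟨V, -, hV⟩ := vol_ball
  refine ⟨2 * 2 ^ 4 * V, fun y a ha => ?_⟩
  have := kp_aux_far p 4 h volume y a V ha (ball y a)ᶜ measurableSet_ball.compl ?_ ?_
  · rw [ENNReal.coe_mul (2 * 2 ^ 4) V]
    exact this
  · intro x hx
    rw [mem_compl_iff, mem_ball, dist_eq_norm] at hx
    exact le_of_not_gt hx
  · intro s hs
    exact (measure_mono inter_subset_left).trans (hV y s hs.le).le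

theorem integrableOn_sg (y : E) (R : ℝ) : IntegrableOn (sg y) (ball y R) := by
  have h0 : IntegrableOn (fun x : E => ‖x‖ ^ (-(7 / 2) : ℝ)) (ball 0 R) volume := by
    refine integrableOn_ball_of_norm_le_rpow (C := 1) (α := 7 / 2) (by simp) (by simp; norm_num)
      (Eventually.of_forall fun x => ?_) ?_
    · rw [one_mul, Real.norm_of_nonneg (by positivity)]
    · exact (measurable_norm.pow_const _).aestronglyMeasurable
  have h1 := ((measurePreserving_sub_right (volume : Measure E) y).integrableOn_comp_preimage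
    (MeasurableEquiv.subRight y).measurableEmbedding).2 h0
  have e : (fun x : E => x - y) ⁻¹' ball 0 R = ball y R := by
    ext x; simp [dist_eq_norm]
  rw [e] at h1
  exact h1

/-- `d⁻³ ≤ C d^(-7/2)` on a bounded set. -/
theorem inv_cube_le_sg (R : ℝ) : ∃ C : ℝ, 0 ≤ C ∧ ∀ x y : E, ‖x - y‖ < R →
    ‖x - y‖⁻¹ ^ 3 ≤ C * sg y x ∧ ‖x - y‖⁻¹ ^ 2 ≤ C * (‖x - y‖ * sg y x) := by
  refine ⟨Real.sqrt R, Real.sqrt_nonneg _, fun x y hxy => ?_⟩
  unfold sg
  generalize hd : ‖x - y‖ = d at hxy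
  have hd0 : 0 ≤ d := hd ▸ norm_nonneg _
  rcases hd0.eq_or_lt with h0 | h0
  · subst h0
    rw [Real.zero_rpow (by norm_num)]
    simp
  · rw [kp_aux_sg h0]
    have hle : Real.sqrt d ≤ Real.sqrt R := Real.sqrt_le_sqrt hxy.le
    have hu : 0 < Real.sqrt d := Real.sqrt_pos.2 h0
    have e : d = Real.sqrt d ^ 2 := (Real.sq_sqrt h0.le).symm
    generalize Real.sqrt d = u at hle hu e
    subst e
    have hu0 := hu.ne'
    constructor
    · calc (u ^ 2)⁻¹ ^ 3 = u * u⁻¹ ^ 7 := by field_simp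
        _ ≤ _ := by gcongr
    · calc (u ^ 2)⁻¹ ^ 2 = u * (u ^ 2 * u⁻¹ ^ 7) := by field_simp
        _ ≤ _ := by gcongr

/-- The same with a logarithm. -/
theorem log_le_sg (K R : ℝ) (hK : 1 ≤ K) : ∃ C : ℝ, 0 ≤ C ∧ ∀ (x y : E) (t : ℝ), ‖x - y‖ < R →
    x ≠ y → ‖x - y‖ ≤ K * t → t ≤ 1 →
    -Real.log (t ^ 2) * t⁻¹ ^ 2 ≤ C * (‖x - y‖ * sg y x) ∧
      -Real.log (t ^ 2) * t⁻¹ ^ 2 ≤ C * sg y x ∧
      -Real.log (t ^ 2) * t⁻¹ ^ 2 ≤ C * ‖x - y‖⁻¹ ^ 3 := by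
  refine ⟨4 * K ^ 5 * (1 + |R| + Real.sqrt R), by positivity, fun x y t hR hxy hK' ht => ?_⟩
  unfold sg
  have h0 : 0 < ‖x - y‖ := norm_pos_iff.2 (sub_ne_zero.2 hxy)
  generalize ‖x - y‖ = d at hR hK' h0
  have ht0 : 0 < t := by
    by_contra hn
    have : K * t ≤ 0 := mul_nonpos_of_nonneg_of_nonpos (by linarith) (le_of_not_gt hn)
    linarith
  rw [kp_aux_sg h0]
  have hle : Real.sqrt d ≤ Real.sqrt R := Real.sqrt_le_sqrt hR.le
  have hu : 0 < Real.sqrt d := Real.sqrt_pos.2 h0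
  have e : d = Real.sqrt d ^ 2 := (Real.sq_sqrt h0.le).symm
  generalize Real.sqrt d = u at hle hu e
  subst e
  have hv : 0 < Real.sqrt t := Real.sqrt_pos.2 ht0
  have e : t = Real.sqrt t ^ 2 := (Real.sq_sqrt ht0.le).symm
  generalize Real.sqrt t = v at hv e
  subst e
  have hu0 := hu.ne'
  have hv0 := hv.ne'
  have huv : u ≤ K * v := by
    refine (pow_le_pow_iff_left₀ hu.le (by positivity) two_ne_zero).1 (hK'.trans ?_)
    have : K ≤ K ^ 2 := by nlinarith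
    rw [mul_pow]
    gcongr
  have hinv : v⁻¹ ≤ K * u⁻¹ := by
    rw [← div_eq_mul_inv, le_div_iff₀ hu, inv_mul_le_iff₀ hv, mul_comm]
    exact huv
  have hlog : -Real.log ((v ^ 2) ^ 2) ≤ 4 * v⁻¹ := by
    have h1 := Real.log_le_sub_one_of_pos (inv_pos.2 hv)
    rw [Real.log_inv] at h1
    rw [← pow_mul, Real.log_pow]
    push_cast
    linarith
  have main : -Real.log ((v ^ 2) ^ 2) * (v ^ 2)⁻¹ ^ 2 ≤ 4 * K ^ 5 * u⁻¹ ^ 5 := by
    calc -Real.log ((v ^ 2) ^ 2) * (v ^ 2)⁻¹ ^ 2 ≤ 4 * v⁻¹ * (v ^ 2)⁻¹ ^ 2 := by gcongr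
      _ = 4 * v⁻¹ ^ 5 := by field_simp
      _ ≤ 4 * (K * u⁻¹) ^ 5 := by gcongr
      _ = 4 * K ^ 5 * u⁻¹ ^ 5 := by ring
  have hR1 : 0 ≤ |R| := abs_nonneg R
  have hR2 : 0 ≤ Real.sqrt R := Real.sqrt_nonneg R
  have hR3 : u ^ 2 ≤ |R| := hR.le.trans (le_abs_self R)
  have hK0 : 0 ≤ K := by linarith
  refine ⟨main.trans ?_, main.trans ?_, main.trans ?_⟩
  · calc 4 * K ^ 5 * u⁻¹ ^ 5 = 4 * K ^ 5 * 1 * (u ^ 2 * u⁻¹ ^ 7) := by field_simp
      _ ≤ _ := by gcongr; linarith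
  · calc 4 * K ^ 5 * u⁻¹ ^ 5 = 4 * K ^ 5 * u ^ 2 * u⁻¹ ^ 7 := by field_simp
      _ ≤ _ := by gcongr; linarith
  · calc 4 * K ^ 5 * u⁻¹ ^ 5 = 4 * K ^ 5 * u * (u ^ 2)⁻¹ ^ 3 := by field_simp
      _ ≤ _ := by gcongr; linarith

theorem integrableOn_inv_cube (y : E) (R : ℝ) :
    IntegrableOn (fun x => ‖x - y‖⁻¹ ^ 3) (ball y R) := by
  obtain ⟨C, -, hC⟩ := inv_cube_le_sg R
  refine Integrable.mono' ((integrableOn_sg y R).const_mul C) ?_ ?_
  · exact (((measurable_id.sub_const y).norm.inv).pow_const 3).aestronglyMeasurable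
  · refine (ae_restrict_iff' measurableSet_ball).2 (Eventually.of_forall fun x hx => ?_)
    rw [Real.norm_of_nonneg (by positivity)]
    exact (hC x y (by rwa [mem_ball, dist_eq_norm] at hx)).1

end Pool.Agent.Lib.MP_f2cf74_an
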