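import Pool.Agent.Lib.MP_f2cf74_an.G0

open Set Metric MeasureTheory Complex Filter Topology
open scoped ContDiff ENNReal NNReal

noncomputable section

namespace Pool.Agent.Lib.MP_f2cf74_an

/-! Lelong type estimate with a logarithm.  For each `q` use `ki` with `c = -I`, `k = kLel q`,
`Z x = A y (x - y)`, `G = Lb M q v` (`kLel_facts`, `log_le_sg`); replace `Lc (-I) p (Lb q v)` by
`H p q` (`H_sub_LL`); the sum over `p, q` is the real integrand below.  Every error is bounded by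
`C ∫⁻ kp 3 y x * eG v x` over `ball y (K s) ⊆ ball c (a + K s)`, which is bounded by `g0`. -/

theorem lel1_abs {Φ g : E → ℂ} (hΦ : AEStronglyMeasurable Φ volume) (hg : Integrable g)
    (h0 : ∀ x, 0 ≤ (Φ x).re) :
    ∫⁻ x, ENNReal.ofReal (Φ x).re ≤ ‖∫ x, g x‖ₑ + ∫⁻ x, ‖Φ x - g x‖ₑ := by
  rcases eq_or_ne (∫⁻ x, ‖Φ x - g x‖ₑ) ⊤ with h | h
  · rw [h, add_top]
    exact le_top
  have he : Integrable fun x => Φ x - g x := ⟨hΦ.sub hg.aestronglyMeasurable, h.lt_top⟩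
  have hi : Integrable Φ := (hg.add he).congr (Eventually.of_forall fun x => by simp)
  have e : ∫ x, Φ x = (∫ x, g x) + ∫ x, (Φ x - g x) := by
    rw [integral_sub hi hg]
    ring
  have e2 : ∫ x, (Φ x).re = (∫ x, Φ x).re := integral_re hi
  rw [← ofReal_integral_eq_lintegral_ofReal (f := fun x => (Φ x).re) hi.re
    (Eventually.of_forall h0), e2]
  refine (ENNReal.ofReal_le_ofReal (re_le_norm _)).trans ?_
  rw [ofReal_norm, e]
  exact (enorm_add_le _ _).trans (add_le_add le_rfl (enorm_integral_le_lintegral_enorm _))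

theorem lel1_int {S T : Set E} (hST : S ⊆ T) (hS : MeasurableSet S) {w : E → ℝ≥0∞} {y : E}
    {v : E → ℝ} {D : ℝ} (hD : 0 ≤ D) {P : ℝ≥0} (hP : ∫⁻ x in T, kp 3 y x * eG v x ≤ P)
    (h : ∀ x ∈ S, x ≠ y → w x ≤ ENNReal.ofReal (D * (‖x - y‖⁻¹ ^ 3 * ‖fderiv ℝ v x‖))) :
    ∫⁻ x in S, w x ≤ ((D.toNNReal * P : ℝ≥0) : ℝ≥0∞) := by
  have h1 : ∫⁻ x in S, w x ≤ ∫⁻ x in S, ENNReal.ofReal D * (kp 3 y x * eG v x) := by
    refine setLIntegral_mono_ae' hS ?_
    filter_upwards [compl_mem_ae_iff.2 (measure_singleton y)] with x hx hxS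
    refine (h x hxS hx).trans (le_of_eq ?_)
    rw [ENNReal.ofReal_mul hD, ENNReal.ofReal_mul (by positivity), ofReal_norm, kp, eG,
      norm_sub_rev]
  rw [lintegral_const_mul' _ _ ENNReal.ofReal_ne_top] at h1
  rw [ENNReal.coe_mul]
  exact h1.trans (mul_le_mul_right ((lintegral_mono_set hST).trans hP) _)

theorem lel1_bd {G : E → ℂ} (hG : ContDiff ℝ 1 G) (y : E) (R : ℝ) : ∃ D : ℝ, 0 ≤ D ∧
    ∀ x, ‖x - y‖ ≤ R → ‖G x‖ ≤ D ∧ ‖fderiv ℝ G x‖ ≤ D := by
  obtain ⟨D₁, h1⟩ := (isCompact_closedBall y R).exists_bound_of_continuousOn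
    hG.continuous.continuousOn
  obtain ⟨D₂, h2⟩ := (isCompact_closedBall y R).exists_bound_of_continuousOn
    (hG.continuous_fderiv one_ne_zero).continuousOn
  refine ⟨max (max D₁ D₂) 0, le_max_right _ _, fun x hx => ?_⟩
  have hx' := mem_closedBall_iff_norm.2 hx
  exact ⟨(h1 x hx').trans ((le_max_left _ _).trans (le_max_left _ _)),
    (h2 x hx').trans ((le_max_right _ _).trans (le_max_left _ _))⟩

theorem lel1_meas (s : ℝ) (q p : Fin 2) : Measurable (ktr s (kLel q) p) := by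
  have h : ∀ j : Fin 2, Continuous fun z : F => z j := fun j => by fun_prop
  have h1 : Measurable fun z : F => (starRingEnd ℂ) (z q) :=
    (continuous_conj.comp (h q)).measurable
  have h2 : Measurable fun z : F => -Real.log (‖z‖ ^ 2) * (‖z‖ ^ 2)⁻¹ ^ 2 := by fun_prop
  have h3 : Measurable fun z : F => cut (‖z‖ ^ 2 / s ^ 2) := by
    unfold cut
    fun_prop
  exact (((measurable_ofReal.comp h2).mul (h p).measurable).mul h1).mul (measurable_ofReal.comp h3)

theorem lel1_re (s : ℝ) (z : F) (α : Fin 2 → Fin 2 → ℂ) :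
    (∑ q, ∑ p, ktr s (kLel q) p z * α p q).re =
      cut (‖z‖ ^ 2 / s ^ 2) * (-Real.log (‖z‖ ^ 2) * (‖z‖ ^ 2)⁻¹ ^ 2) * Hq α z := by
  rw [Hq, ← re_ofReal_mul, ofReal_mul]
  congr 1
  simp only [ktr, kLel, Fin.sum_univ_two]
  ring

theorem lel1_div {z : F} (hz : z ≠ 0) (h : ‖z‖ ≤ 1 / 2) (s : ℝ) (q : Fin 2) :
    ‖(cut (‖z‖ ^ 2 / s ^ 2) : ℂ) * ∑ p, dF (-I) p (kLel q p) z‖ ≤ ‖z‖⁻¹ ^ 3 := by
  have h0 : 0 < ‖z‖ := norm_pos_iff.2 hz
  rw [(kLel_facts hz h q).2, norm_mul, norm_neg, norm_mul, norm_real, norm_real, norm_conj,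
    Real.norm_of_nonneg (cut_nonneg _), Real.norm_of_nonneg (by positivity)]
  refine (mul_le_of_le_one_left (by positivity) (cut_le_one (by positivity))).trans
    ((mul_le_mul_of_nonneg_left (PiLp.norm_apply_le z q) (by positivity)).trans (le_of_eq ?_))
  field_simp

theorem lel1 (M : Model) (c : E) {a b s : ℝ} (ha : 0 < a) (hs : 0 < s) (hs2 : s ≤ 1 / 2)
    (hab : a + M.K * s < b) (B : ℝ) : ∃ C : ℝ≥0, ∀ v, VOK M c b B v → ∀ y ∈ ball c a,
    ∫⁻ x, ENNReal.ofReal (cut (‖M.A y (x - y)‖ ^ 2 / s ^ 2) *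
      (-Real.log (‖M.A y (x - y)‖ ^ 2) * (‖M.A y (x - y)‖ ^ 2)⁻¹ ^ 2) *
        Hq (H M v x) (M.A y (x - y))) ≤ C := by
  have hK := M.K_pos
  obtain ⟨C₀, h₀⟩ := g0 M c (a := a + M.K * s) (by positivity) hab B
  obtain ⟨Ck, hk⟩ := ki M hs
  obtain ⟨C₁, hC₁, h₁⟩ := log_le_sg M.K (M.K * s + 1) M.one_le
  obtain ⟨CL, hCL, hL⟩ := Lg_bound M
  obtain ⟨CH, hCH, hH⟩ := H_sub_LL M
  refine ⟨∑ _q : Fin 2, (Ck * ((10 * C₁ * CL).toNNReal * C₀) + (M.K ^ 3 * CL).toNNReal * C₀) +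
    (280 * C₁ * CH).toNNReal * C₀, fun v hv y hy => ?_⟩
  have hZ := M.coord1 y
  set Z : E → F := fun x => M.A y (x - y) with hZd
  have hv2 : ContDiff ℝ 2 v := hv.sm.of_le (by norm_num)
  have hP := h₀ v hv y (ball_subset_ball (le_add_of_nonneg_right (by positivity)) hy)
  have hS : MeasurableSet {x | ‖Z x‖ < s} :=
    (isOpen_lt hZ.diff.continuous.norm continuous_const).measurableSet
  have hle : ∀ x, ‖Z x‖ ≤ s → ‖x - y‖ ≤ M.K * s := fun x hx =>
    (hZ.low x).trans (mul_le_mul_of_nonneg_left hx hK.le)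
  have hST : {x | ‖Z x‖ < s} ⊆ ball c (a + M.K * s) := fun x hx => by
    have h1 := hle x (le_of_lt hx)
    have h2 := dist_triangle x y c
    rw [dist_eq_norm x y] at h2
    exact mem_ball.2 (by linarith [mem_ball.1 hy])
  have hne : ∀ x, x ≠ y → Z x ≠ 0 := fun x hx h => by
    have h1 := hZ.low x
    rw [h, norm_zero, mul_zero] at h1
    exact hx (sub_eq_zero.1 (norm_le_zero_iff.1 h1))
  have hlog := fun x (hx : x ≠ y) (h : ‖Z x‖ ≤ s) =>
    h₁ x y ‖Z x‖ (by linarith [hle x h]) hx (hZ.low x) (by linarith)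
  have hKB := fun q x (hx : x ≠ y) (h : ‖Z x‖ ≤ s) => (kLel_facts (hne x hx) (h.trans hs2) q).1
  have hLb : ∀ q x, ‖Lb M q v x‖ ≤ CL * ‖fderiv ℝ v x‖ := fun q x => (hL x _).1 q
  have key : ∀ q, Integrable (fun x => ∑ p, ktr s (kLel q) p (Z x) * Lc M (-I) p (Lb M q v) x) ∧
      ‖∫ x, ∑ p, ktr s (kLel q) p (Z x) * Lc M (-I) p (Lb M q v) x‖ₑ ≤
        ((Ck * ((10 * C₁ * CL).toNNReal * C₀) + (M.K ^ 3 * CL).toNNReal * C₀ : ℝ≥0) : ℝ≥0∞) := by
    intro q
    obtain ⟨D, hD, hD'⟩ := lel1_bd (contDiff_Lb M hv2 q) y (M.K * s)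
    obtain ⟨i1, -, i3⟩ := hk y Z (-I) (kLel q)
      (fun x => 10 * (-Real.log (‖Z x‖ ^ 2) * ‖Z x‖⁻¹ ^ 2)) (10 * C₁ * D) (Lb M q v) hZ (by simp)
      (contDiff_Lb M hv2 q) (hKB q) fun x hx h => by
        obtain ⟨a1, a2, -⟩ := hlog x hx h
        obtain ⟨b1, b2⟩ := hD' x (hle x h)
        have s0 : 0 ≤ sg y x := Real.rpow_nonneg (norm_nonneg _) _
        exact ⟨(mul_le_mul (mul_le_mul_of_nonneg_left a1 (by norm_num)) b1 (norm_nonneg _)
            (by positivity)).trans (le_of_eq (by ring)),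
          (mul_le_mul (mul_le_mul_of_nonneg_left a2 (by norm_num)) b2 (norm_nonneg _)
            (by positivity)).trans (le_of_eq (by ring))⟩
    refine ⟨i1, ?_⟩
    have e1 := lel1_int hST hS (w := fun x => ENNReal.ofReal
      (10 * (-Real.log (‖Z x‖ ^ 2) * ‖Z x‖⁻¹ ^ 2)) * ‖Lb M q v x‖ₑ) (D := 10 * C₁ * CL)
      (by positivity) hP fun x hx hxy => by
        rw [← ofReal_norm, mul_comm, ← ENNReal.ofReal_mul (norm_nonneg _), mul_comm]
        exact ENNReal.ofReal_le_ofReal ((mul_le_mul (mul_le_mul_of_nonneg_left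
          (hlog x hxy (le_of_lt hx)).2.2 (by norm_num)) (hLb q x) (norm_nonneg _)
          (by positivity)).trans (le_of_eq (by ring)))
    have e2 := lel1_int hST hS (w := fun x => ‖(cut (‖Z x‖ ^ 2 / s ^ 2) : ℂ) *
      (∑ p, dF (-I) p (kLel q p) (Z x)) * Lb M q v x‖ₑ) (D := M.K ^ 3 * CL)
      (by positivity) hP fun x hx hxy => by
        have a0 : 0 < ‖x - y‖ := norm_pos_iff.2 (sub_ne_zero.2 hxy)
        have a1 : ‖Z x‖⁻¹ ≤ M.K * ‖x - y‖⁻¹ := by
          rw [← div_eq_mul_inv, le_div_iff₀ a0, inv_mul_le_iff₀ (norm_pos_iff.2 (hne x hxy)),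
            mul_comm]
          exact hZ.low x
        rw [← ofReal_norm, norm_mul]
        exact ENNReal.ofReal_le_ofReal ((mul_le_mul
          ((lel1_div (hne x hxy) ((le_of_lt hx).trans hs2) s q).trans
            (pow_le_pow_left₀ (by positivity) a1 3)) (hLb q x) (norm_nonneg _)
          (by positivity)).trans (le_of_eq (by ring)))
    rw [setLIntegral_eq_of_support_subset fun x hx => by
      by_contra h
      refine hx ?_
      beta_reduce
      rw [cut_eq_zero ((one_le_div (by positivity)).2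
        (pow_le_pow_left₀ hs.le (not_lt.1 h) 2)), ofReal_zero, zero_mul, zero_mul, enorm_zero]] at e2
    rw [← add_sub_cancel_right (∫ x, ∑ p, ktr s (kLel q) p (Z x) * Lc M (-I) p (Lb M q v) x)
      (∫ x, (cut (‖Z x‖ ^ 2 / s ^ 2) : ℂ) * (∑ p, dF (-I) p (kLel q p) (Z x)) * Lb M q v x),
      ENNReal.coe_add, ENNReal.coe_mul]
    exact enorm_sub_le.trans (add_le_add (i3.trans (mul_le_mul_right e1 _))
      ((enorm_integral_le_lintegral_enorm _).trans e2))
  have main := lel1_abs (Φ := fun x => ∑ q, ∑ p, ktr s (kLel q) p (Z x) * H M v x p q)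
    (g := fun x => ∑ q, ∑ p, ktr s (kLel q) p (Z x) * Lc M (-I) p (Lb M q v) x)
    (Finset.measurable_sum _ fun q _ => Finset.measurable_sum _ fun p _ =>
      ((lel1_meas s q p).comp hZ.diff.continuous.measurable).mul
        (continuous_H M hv2 p q).measurable).aestronglyMeasurable
    (integrable_finsetSum _ fun q _ => (key q).1) fun x => by
      rw [lel1_re]
      rcases lt_or_ge ‖Z x‖ s with h | h
      · refine mul_nonneg (mul_nonneg (cut_nonneg _) (mul_nonneg (neg_nonneg.2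
          (Real.log_nonpos (by positivity) ?_)) (by positivity)))
          ((psd_H M hv.psh (ball_subset_ball hab.le (hST h))).pos _)
        exact pow_le_one₀ (norm_nonneg _) (by linarith)
      · rw [cut_eq_zero ((one_le_div (by positivity)).2 (pow_le_pow_left₀ hs.le h 2)), zero_mul,
          zero_mul]
  simp only [lel1_re] at main
  have e3 := lel1_int hST hS (w := fun x => ‖∑ q, ∑ p, ktr s (kLel q) p (Z x) * H M v x p q -
    ∑ q, ∑ p, ktr s (kLel q) p (Z x) * Lc M (-I) p (Lb M q v) x‖ₑ) (D := 280 * C₁ * CH)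
    (by positivity) hP fun x hx hxy => by
      have a1 : ∀ q p, ‖ktr s (kLel q) p (Z x) * H M v x p q -
          ktr s (kLel q) p (Z x) * Lc M (-I) p (Lb M q v) x‖ ≤
          7 * (10 * (C₁ * ‖x - y‖⁻¹ ^ 3)) * (CH * ‖fderiv ℝ v x‖) := fun q p => by
        rw [← mul_sub, norm_mul]
        refine mul_le_mul ((ktr_facts hs (hKB q x hxy (le_of_lt hx) p)).1.b0.trans ?_)
          (hH v hv2 x p q) (norm_nonneg _) (by positivity)
        linarith [(hlog x hxy (le_of_lt hx)).2.2]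
      rw [← ofReal_norm, ← Finset.sum_sub_distrib]
      refine ENNReal.ofReal_le_ofReal ((norm_sum_le_of_le _ (n := fun _ => ∑ _p : Fin 2,
        7 * (10 * (C₁ * ‖x - y‖⁻¹ ^ 3)) * (CH * ‖fderiv ℝ v x‖)) fun q _ => ?_).trans (le_of_eq ?_))
      · rw [← Finset.sum_sub_distrib]
        exact norm_sum_le_of_le _ fun p _ => a1 q p
      · simp only [Fin.sum_univ_two]
        ring
  rw [setLIntegral_eq_of_support_subset fun x hx => by
    by_contra h
    refine hx ?_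
    simp only [ktr_eq_zero hs _ _ (not_lt.1 h), zero_mul, Finset.sum_const_zero, sub_zero,
      enorm_zero]] at e3
  rw [integral_finsetSum _ fun q _ => (key q).1] at main
  rw [ENNReal.coe_add, ENNReal.ofNNReal_finsetSum]
  exact main.trans (add_le_add ((enorm_sum_le _ _).trans (Finset.sum_le_sum fun q _ => (key q).2)) e3)

end Pool.Agent.Lib.MP_f2cf74_an
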