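import Pool.Agent.Lib.MP_f2cf74_an.Lel1

open Set Metric MeasureTheory Complex Filter Topology
open scoped ContDiff ENNReal NNReal

noncomputable section

namespace Pool.Agent.Lib.MP_f2cf74_an

/-! Mass of small balls.  For small `t` use `lel1` at the two centres `y i = y - (4 K t) • X i`:
for `x ∈ ball y t`, `A (y i) (x - y i) = (4 K t) • (ee i + ε i)` with `‖ε i‖ ≤ 1/4`, hence
`tr H ≤ 4 (Hq H (ee 0 + ε 0) + Hq H (ee 1 + ε 1))` (`tr_eq_Hq`, `PSD.Hq_add`, `PSD.Hq_le`), the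
norm of `A (y i) (x - y i)` lies in `[3 K t, 5 K t]`, `cut ≥ 1/8`, and
`-log ((5 K t)²) ≥ -log t` when `25 K² t ≤ 1`.  For `t ≥ t₀` use `massV`. -/

theorem lel2_smul (α : Fin 2 → Fin 2 → ℂ) (r : ℝ) (z : F) : Hq α (r • z) = r ^ 2 * Hq α z := by
  simp [Hq, Fin.sum_univ_two]
  ring

theorem lel2_pt {α : Fin 2 → Fin 2 → ℂ} (h : PSD α) {r : ℝ} (e : Fin 2 → F)
    (he : ∀ i, ‖e i‖ ≤ r / 4) :
    r ^ 2 * tr α ≤ 4 * (Hq α (r • ee 0 + e 0) + Hq α (r • ee 1 + e 1)) := by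
  have key : ∀ i, r ^ 2 * Hq α (ee i) ≤ 2 * Hq α (r • ee i + e i) + r ^ 2 * tr α / 8 := fun i => by
    have h1 := h.Hq_add (r • ee i + e i) (-e i)
    have h2 := h.Hq_le (-e i)
    rw [add_neg_cancel_right, lel2_smul] at h1
    rw [norm_neg] at h2
    have h3 := mul_le_mul_of_nonneg_left (pow_le_pow_left₀ (norm_nonneg _) (he i) 2) h.tr_nonneg
    nlinarith
  have h0 := key 0
  have h1 := key 1
  have h2 := h.pos (r • ee 0 + e 0)
  have h3 := h.pos (r • ee 1 + e 1)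
  have h4 : r ^ 2 * tr α = r ^ 2 * Hq α (ee 0) + r ^ 2 * Hq α (ee 1) := by rw [tr_eq_Hq, mul_add]
  linarith

theorem lel2_w {s t K ρ q : ℝ} (ht : 0 < t) (ht1 : t < 1) (hK : 25 * K ^ 2 * t ≤ 1)
    (hs : 10 * K * t ≤ s) (hρ : 0 < ρ) (hρ' : ρ ≤ 5 * K * t) (hq : 0 ≤ q) :
    -Real.log t * q ≤ 8 * (5 * K * t) ^ 4 *
      (cut (ρ ^ 2 / s ^ 2) * (-Real.log (ρ ^ 2) * (ρ ^ 2)⁻¹ ^ 2) * q) := by
  have hs0 : 0 < s := by linarith
  have h1 : 1 / 8 ≤ cut (ρ ^ 2 / s ^ 2) := by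
    have : ρ ^ 2 / s ^ 2 ≤ 1 / 2 := by
      rw [div_le_iff₀ (by positivity)]
      nlinarith
    calc (1 / 8 : ℝ) = (1 / 2) ^ 3 := by norm_num
      _ ≤ _ := pow_le_pow_left₀ (by norm_num) (le_max_of_le_left (by linarith)) 3
  have h2 : -Real.log t ≤ -Real.log (ρ ^ 2) := by
    refine neg_le_neg (Real.log_le_log (by positivity) ?_)
    have := pow_le_pow_left₀ hρ.le hρ' 2
    nlinarith
  have h3 : 1 ≤ (5 * K * t) ^ 4 * (ρ ^ 2)⁻¹ ^ 2 := by
    rw [inv_pow, ← pow_mul, ← div_eq_mul_inv, one_le_div (by positivity)]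
    exact pow_le_pow_left₀ hρ.le hρ' 4
  have h4 : 0 ≤ -Real.log t := neg_nonneg.2 (Real.log_nonpos ht.le ht1.le)
  calc -Real.log t * q = 8 * (1 / 8) * 1 * (-Real.log t * q) := by ring
    _ ≤ 8 * cut (ρ ^ 2 / s ^ 2) * ((5 * K * t) ^ 4 * (ρ ^ 2)⁻¹ ^ 2) * (-Real.log (ρ ^ 2) * q) := by
      gcongr
    _ = _ := by ring

theorem lel2_meas (M : Model) {v : E → ℝ} (hv : ContDiff ℝ 2 v) (y : E) (s : ℝ) :
    Measurable fun x => ENNReal.ofReal (cut (‖M.A y (x - y)‖ ^ 2 / s ^ 2) *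
      (-Real.log (‖M.A y (x - y)‖ ^ 2) * (‖M.A y (x - y)‖ ^ 2)⁻¹ ^ 2) *
        Hq (H M v x) (M.A y (x - y))) := by
  have h1 := continuous_H M hv
  have h2 : Continuous fun x => Hq (H M v x) (M.A y (x - y)) := by
    unfold Hq
    fun_prop
  have h3 : Continuous fun x => cut (‖M.A y (x - y)‖ ^ 2 / s ^ 2) := by
    unfold cut
    fun_prop
  have h4 : Measurable fun x => ‖M.A y (x - y)‖ ^ 2 := by fun_prop
  exact ((h3.measurable.mul (h4.log.neg.mul (h4.inv.pow_const 2))).mul h2.measurable).ennreal_ofReal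

theorem lel2 (M : Model) (c : E) {a b : ℝ} (ha : 0 < a) (hab : a < b) (B : ℝ) : ∃ C : ℝ≥0,
    ∀ v, VOK M c b B v → ∀ y ∈ ball c a, ∀ t, 0 < t → t ≤ 1 / 2 →
    ∫⁻ x in ball y t ∩ ball c a, eT M v x ≤ C * ENNReal.ofReal (t ^ 2 / (-Real.log t)) := by
  have hK := M.K_pos
  have hK1 := M.one_le
  have hba := sub_pos.2 hab
  obtain ⟨s, hs, hs2, hs3⟩ : ∃ s : ℝ, 0 < s ∧ s ≤ 1 / 2 ∧ (a + b) / 2 + M.K * s < b := by
    refine ⟨min (1 / 2) ((b - a) / 4 / M.K), by positivity, min_le_left _ _, ?_⟩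
    have := (le_div_iff₀' hK).1 (min_le_right (1 / 2) ((b - a) / 4 / M.K))
    linarith
  obtain ⟨t₀, h0, h1, h2, h3⟩ : ∃ t₀ : ℝ, 0 < t₀ ∧ 25 * M.K ^ 2 * t₀ ≤ 1 ∧ 10 * M.K * t₀ ≤ s ∧
      4 * M.K * M.K * t₀ ≤ (b - a) / 2 := by
    refine ⟨min (1 / (25 * M.K ^ 2)) (min (s / (10 * M.K)) ((b - a) / 2 / (4 * M.K * M.K))),
      by positivity, (le_div_iff₀' (by positivity)).1 (min_le_left _ _),
      (le_div_iff₀' (by positivity)).1 ((min_le_right _ _).trans (min_le_left _ _)),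
      (le_div_iff₀' (by positivity)).1 ((min_le_right _ _).trans (min_le_right _ _))⟩
  obtain ⟨C1, hC1⟩ := lel1 M c (a := (a + b) / 2) (by linarith) hs hs2 hs3 B
  obtain ⟨C2, hC2⟩ := massV M c ha hab B
  refine ⟨(1250 * M.K ^ 2).toNNReal * (C1 + C1) + C2 * (-Real.log t₀ / t₀ ^ 2).toNNReal,
    fun v hv y hy t ht ht2 => ?_⟩
  have hl : 0 < -Real.log t := neg_pos.2 (Real.log_neg ht (by linarith))
  rw [ENNReal.coe_add, add_mul]
  rcases le_total t t₀ with htt | htt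
  · refine le_add_right ?_
    have hm : ∀ i, y - (4 * M.K * t) • M.X i ∈ ball c ((a + b) / 2) := fun i => by
      rw [mem_ball, dist_eq_norm] at hy ⊢
      rw [sub_right_comm]
      refine (norm_sub_le _ _).trans_lt ?_
      rw [norm_smul, Real.norm_of_nonneg (by positivity)]
      have e1 : 4 * M.K * t * ‖M.X i‖ ≤ 4 * M.K * t₀ * M.K := by gcongr; exact M.bX i
      linarith
    set f : Fin 2 → E → ℝ := fun i x =>
      cut (‖M.A (y - (4 * M.K * t) • M.X i) (x - (y - (4 * M.K * t) • M.X i))‖ ^ 2 / s ^ 2) *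
        (-Real.log (‖M.A (y - (4 * M.K * t) • M.X i) (x - (y - (4 * M.K * t) • M.X i))‖ ^ 2) *
          (‖M.A (y - (4 * M.K * t) • M.X i) (x - (y - (4 * M.K * t) • M.X i))‖ ^ 2)⁻¹ ^ 2) *
        Hq (H M v x) (M.A (y - (4 * M.K * t) • M.X i) (x - (y - (4 * M.K * t) • M.X i))) with hf
    have hpt : ∀ x ∈ ball y t ∩ ball c a, eT M v x ≤
        ENNReal.ofReal (1250 * M.K ^ 2 * (t ^ 2 / -Real.log t)) *
          (ENNReal.ofReal (f 0 x) + ENNReal.ofReal (f 1 x)) := fun x hx => by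
      have hp := psd_H M hv.psh (ball_subset_ball hab.le hx.2)
      have he : ∀ i, ‖M.A (y - (4 * M.K * t) • M.X i) (x - y)‖ ≤ 4 * M.K * t / 4 := fun i => by
        refine (M.norm_A _ _).trans ?_
        have := mul_le_mul_of_nonneg_left (mem_ball_iff_norm.1 hx.1).le hK.le
        linarith
      have hz : ∀ i, M.A (y - (4 * M.K * t) • M.X i) (x - (y - (4 * M.K * t) • M.X i)) =
          (4 * M.K * t) • ee i + M.A (y - (4 * M.K * t) • M.X i) (x - y) := fun i => by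
        rw [← M.AX (y - (4 * M.K * t) • M.X i) i, ← map_smul, ← map_add]
        congr 1
        abel
      have hn : ∀ i, ‖(4 * M.K * t) • ee i‖ = 4 * M.K * t := fun i => by
        rw [norm_smul, Real.norm_of_nonneg (by positivity), ee]
        simp
      have hw : ∀ i, -Real.log t * Hq (H M v x) ((4 * M.K * t) • ee i +
          M.A (y - (4 * M.K * t) • M.X i) (x - y)) ≤ 8 * (5 * M.K * t) ^ 4 * f i x := fun i => by
        rw [hf]
        simp only [hz]
        refine lel2_w ht (by linarith) (le_trans (by gcongr) h1) (le_trans (by gcongr) h2) ?_ ?_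
          (hp.pos _)
        · have e1 := norm_sub_le ((4 * M.K * t) • ee i + M.A (y - (4 * M.K * t) • M.X i) (x - y))
            (M.A (y - (4 * M.K * t) • M.X i) (x - y))
          rw [add_sub_cancel_right, hn] at e1
          linarith [he i, mul_pos hK ht]
        · refine (norm_add_le _ _).trans ?_
          rw [hn]
          linarith [he i]
      have q := lel2_pt hp (fun i => M.A (y - (4 * M.K * t) • M.X i) (x - y)) he
      refine le_trans ?_ (mul_le_mul_right ENNReal.ofReal_add_le _)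
      rw [← ENNReal.ofReal_mul (by positivity)]
      refine ENNReal.ofReal_le_ofReal ?_
      rw [← mul_div_assoc, div_mul_eq_mul_div, le_div_iff₀ hl]
      refine le_of_mul_le_mul_left ?_ (show 0 < (4 * M.K * t) ^ 2 by positivity)
      have q1 := mul_le_mul_of_nonneg_left q hl.le
      nlinarith [hw 0, hw 1]
    refine (setLIntegral_mono' (measurableSet_ball.inter measurableSet_ball) hpt).trans ?_
    refine (setLIntegral_le_lintegral _ _).trans ?_
    rw [lintegral_const_mul' _ _ ENNReal.ofReal_ne_top,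
      lintegral_add_left (lel2_meas M (hv.sm.of_le (by norm_num)) _ s),
      ENNReal.ofReal_mul (by positivity), ENNReal.coe_mul, ENNReal.coe_add, mul_right_comm]
    exact mul_le_mul_left (mul_le_mul_right (add_le_add (hC1 v hv _ (hm 0)) (hC1 v hv _ (hm 1))) _) _
  · refine le_add_left (((lintegral_mono_set inter_subset_right).trans (hC2 v hv)).trans ?_)
    have hl0 : -Real.log t ≤ -Real.log t₀ := neg_le_neg (Real.log_le_log h0 htt)
    rw [ENNReal.coe_mul, mul_assoc]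
    refine le_mul_of_one_le_right zero_le ?_
    rw [← ENNReal.ofReal.eq_1, ← ENNReal.ofReal_mul (div_nonneg (hl.le.trans hl0) (sq_nonneg _)),
      ENNReal.one_le_ofReal, div_mul_div_comm, one_le_div (by positivity), mul_comm]
    gcongr
    exact hl.le.trans hl0

end Pool.Agent.Lib.MP_f2cf74_an
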