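import Pool.Agent.Lib.MP_f2cf74_an.Jet

open Set Metric MeasureTheory Complex Filter Topology
open scoped ContDiff ENNReal NNReal

noncomputable section

namespace Pool.Agent.Lib.MP_f2cf74_an

/-! The doubling of variables.  Let `D = x - y`, `Γ ξ = ξ.re • a + ξ.im • b`, and
`ℓ : E →L[ℝ] ℂ` with `ℓ X = 1`, `ℓ (J y X) = I`, namely `ℓ Y = ⟪A y X, A y Y⟫_ℂ / ‖A y X‖²`.
Putting `y' = y` in the maximum gives `q ξ + ⟪D, Γ ξ⟫ / δ = 0` (`SJ.nonneg`).  Putting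
`ξ = ℓ η`, `η = y' - y`, shows that `W` has at `y` the superjet `p η = -⟪D, η⟫ / δ`,
`A η η = B (ℓ η) (ℓ η) + (‖Γ (ℓ η) - η‖² + ‖ℓ η‖² ⟪D, β⟫ / 2) / δ`; the remaining terms are
`O(‖η‖³)`. -/

section
variable {G G' : Type} [NormedAddCommGroup G] [NormedSpace ℝ G] [NormedAddCommGroup G']
  [NormedSpace ℝ G']

theorem lemS_sq (ℓ : G →L[ℝ] G') {ε : ℝ} (hε : 0 < ε) (η : G) :
    ε / (‖ℓ‖ ^ 2 + 1) * ‖ℓ η‖ ^ 2 ≤ ε * ‖η‖ ^ 2 := by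
  have h1 : ‖ℓ η‖ ^ 2 ≤ (‖ℓ‖ ^ 2 + 1) * ‖η‖ ^ 2 := by
    have := pow_le_pow_left₀ (norm_nonneg _) (ℓ.le_opNorm η) 2
    nlinarith [sq_nonneg ‖η‖]
  have h2 : 0 < ‖ℓ‖ ^ 2 + 1 := by positivity
  calc _ ≤ ε / (‖ℓ‖ ^ 2 + 1) * ((‖ℓ‖ ^ 2 + 1) * ‖η‖ ^ 2) :=
        mul_le_mul_of_nonneg_left h1 (by positivity)
    _ = _ := by field_simp

theorem lemS_comp {w : G' → ℝ} {q : G' →L[ℝ] ℝ} {B : G' →L[ℝ] G' →L[ℝ] ℝ} (h : SJ w 0 q B)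
    (ℓ : G →L[ℝ] G') : SJ (fun η => w (ℓ η)) 0 (q.comp ℓ) (B.bilinearComp ℓ ℓ) := by
  intro ε hε
  have h1 : Tendsto ℓ (𝓝 0) (𝓝 0) := ℓ.continuous.tendsto' 0 0 (map_zero ℓ)
  filter_upwards [h1.eventually (h (ε / (‖ℓ‖ ^ 2 + 1)) (by positivity))] with η hη
  simp only [sub_zero, map_zero, ContinuousLinearMap.comp_apply,
    ContinuousLinearMap.bilinearComp_apply] at hη ⊢
  linarith [lemS_sq ℓ hε η]

theorem lemS_quad {δ : ℝ} (hδ : 0 < δ) (D β : E) (ℓ : G →L[ℝ] ℂ) (U : G →L[ℝ] E) :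
    ∃ (p : G →L[ℝ] ℝ) (A : G →L[ℝ] G →L[ℝ] ℝ),
      SJ (fun η => ‖D + U η + (‖ℓ η‖ ^ 2 / 4) • β‖ ^ 2 / (2 * δ)) 0 p A ∧
      (∀ η, p η = inner ℝ D (U η) / δ) ∧
      ∀ η, A η η = (‖U η‖ ^ 2 + ‖ℓ η‖ ^ 2 * inner ℝ D β / 2) / δ := by
  obtain ⟨p, hp⟩ : ∃ p : G →L[ℝ] ℝ, ∀ η, p η = inner ℝ D (U η) / δ :=
    ⟨δ⁻¹ • (innerSL ℝ D).comp U, fun η => by simp [div_eq_inv_mul]⟩
  obtain ⟨A, hA⟩ : ∃ A : G →L[ℝ] G →L[ℝ] ℝ,
      ∀ η, A η η = (‖U η‖ ^ 2 + ‖ℓ η‖ ^ 2 * inner ℝ D β / 2) / δ := by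
    let i₁ : E →L[ℝ] E →L[ℝ] ℝ := innerSL ℝ
    let i₂ : ℂ →L[ℝ] ℂ →L[ℝ] ℝ := innerSL ℝ
    have e₁ : ∀ u, i₁ u u = ‖u‖ ^ 2 := fun u => real_inner_self_eq_norm_sq u
    have e₂ : ∀ u, i₂ u u = ‖u‖ ^ 2 := fun u => real_inner_self_eq_norm_sq u
    refine ⟨δ⁻¹ • (i₁.bilinearComp U U + (inner ℝ D β / 2 : ℝ) • i₂.bilinearComp ℓ ℓ), fun η => ?_⟩
    simp only [smul_apply, add_apply,
      ContinuousLinearMap.bilinearComp_apply, e₁, e₂, smul_eq_mul]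
    ring
  refine ⟨p, A, fun ε hε => ?_, hp, hA⟩
  have h1 : Tendsto (fun η => (inner ℝ (U η) β / 2 + ‖ℓ η‖ ^ 2 * ‖β‖ ^ 2 / 16) / (2 * δ)) (𝓝 0)
      (𝓝 0) := Continuous.tendsto' (by fun_prop) _ _ (by simp)
  filter_upwards [h1.eventually (gt_mem_nhds (show 0 < ε / (‖ℓ‖ ^ 2 + 1) by positivity))] with η hη
  have h2 := mul_le_mul_of_nonneg_right hη.le (sq_nonneg ‖ℓ η‖)
  have h3 := lemS_sq ℓ hε η
  have h4 : ‖D + U η + (‖ℓ η‖ ^ 2 / 4) • β‖ ^ 2 / (2 * δ) = ‖D‖ ^ 2 / (2 * δ) + p η + A η η / 2 +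
      (inner ℝ (U η) β / 2 + ‖ℓ η‖ ^ 2 * ‖β‖ ^ 2 / 16) / (2 * δ) * ‖ℓ η‖ ^ 2 := by
    rw [hp, hA, norm_add_sq_real, norm_add_sq_real, inner_add_left, real_inner_smul_right,
      real_inner_smul_right, norm_smul, mul_pow, Real.norm_eq_abs, sq_abs]
    field_simp
    ring
  simp only [sub_zero, map_zero, norm_zero, add_zero, ne_eq, OfNat.ofNat_ne_zero,
    not_false_eq_true, zero_pow, zero_div, zero_smul]
  linarith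

end

theorem lemS_ell (M : Model) (y : E) {X : E} (hX : X ≠ 0) :
    ∃ ℓ : E →L[ℝ] ℂ, ℓ X = 1 ∧ ℓ (M.J y X) = I := by
  have h1 : M.A y X ≠ 0 := by
    intro h
    have := M.low y X
    rw [h, norm_zero, mul_zero] at this
    exact hX (norm_le_zero_iff.1 this)
  have h2 : inner ℂ (M.A y X) (M.A y X) ≠ 0 := inner_self_ne_zero.2 h1
  refine ⟨(inner ℂ (M.A y X) (M.A y X))⁻¹ •
    ((innerSL ℂ (M.A y X)).restrictScalars ℝ).comp (M.A y), ?_, ?_⟩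
  · change (inner ℂ (M.A y X) (M.A y X))⁻¹ * inner ℂ (M.A y X) (M.A y X) = 1
    exact inv_mul_cancel₀ h2
  · change (inner ℂ (M.A y X) (M.A y X))⁻¹ * inner ℂ (M.A y X) (M.A y (M.J y X)) = I
    rw [M.AJ, inner_smul_right]
    field_simp

theorem lemS (M : Model) {W Wd : E → ℝ} {δ : ℝ} (hδ : 0 < δ) {x y a b β X : E} (hX : X ≠ 0)
    (h1 : Wd x = W y - ‖x - y‖ ^ 2 / (2 * δ))
    (h2 : ∀ᶠ y' in 𝓝 y, ∀ x', W y' - ‖x' - y'‖ ^ 2 / (2 * δ) ≤ Wd x')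
    (h3 : Visc M.J W y 0) {q : ℂ →L[ℝ] ℝ} {B : ℂ →L[ℝ] ℂ →L[ℝ] ℝ}
    (h4 : SJ (fun ξ => Wd (gam x a b β ξ)) 0 q B) :
    0 ≤ B 1 1 + B I I + (‖a - X‖ ^ 2 + ‖b - M.J y X‖ ^ 2 +
      inner ℝ (x - y) (β - beta M.J y X)) / δ := by
  obtain ⟨ℓ, l1, l2⟩ := lemS_ell M y hX
  obtain ⟨Γ, hΓ⟩ : ∃ Γ : ℂ →L[ℝ] E, ∀ ξ, Γ ξ = ξ.re • a + ξ.im • b :=
    ⟨reCLM.smulRight a + imCLM.smulRight b, fun ξ => rfl⟩
  have g0 : gam x a b β 0 = x := by simp [gam]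
  obtain ⟨p₁, A₁, s₁, hp₁, -⟩ := lemS_quad hδ (x - y) β (ContinuousLinearMap.id ℝ ℂ) Γ
  have hq : ∀ ξ, q ξ + inner ℝ (x - y) (Γ ξ) / δ = 0 := by
    have h5 := ((h4.add s₁).nonneg (Eventually.of_forall fun ξ => by
      have h6 := h2.self_of_nhds (gam x a b β ξ)
      have h7 : gam x a b β ξ - y = x - y + Γ ξ + (‖ξ‖ ^ 2 / 4) • β := by
        rw [hΓ, gam]
        abel
      rw [h7] at h6
      simp only [g0, map_zero, norm_zero, add_zero, ne_eq, OfNat.ofNat_ne_zero,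
        not_false_eq_true, zero_pow, zero_div, zero_smul, ContinuousLinearMap.id_apply]
      linarith)).1
    intro ξ
    rw [← hp₁]
    exact congrArg (fun f : ℂ →L[ℝ] ℝ => f ξ) h5
  obtain ⟨p₂, A₂, s₂, hp₂, hA₂⟩ :=
    lemS_quad hδ (x - y) β ℓ (Γ.comp ℓ - ContinuousLinearMap.id ℝ E)
  have t1 : Tendsto (fun η => y + η) (𝓝 0) (𝓝 y) := Continuous.tendsto' (by fun_prop) _ _ (by simp)
  have s₃ := SJ.shift.2 (((lemS_comp h4 ℓ).add s₂).of_le (w := fun η => W (y + η)) (by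
    filter_upwards [t1.eventually h2] with η hη
    have h6 := hη (gam x a b β (ℓ η))
    have h7 : gam x a b β (ℓ η) - (y + η) =
        x - y + (Γ.comp ℓ - ContinuousLinearMap.id ℝ E) η + (‖ℓ η‖ ^ 2 / 4) • β := by
      rw [sub_apply, ContinuousLinearMap.comp_apply, hΓ, gam,
        ContinuousLinearMap.id_apply]
      abel
    rw [h7] at h6
    simp only [g0, map_zero, norm_zero, add_zero, ne_eq, OfNat.ofNat_ne_zero,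
      not_false_eq_true, zero_pow, zero_div, zero_smul]
    linarith))
  have h5 := h3 _ _ s₃ X
  have h6 := hq (ℓ (beta M.J y X))
  have G1 : Γ 1 = a := by simp [hΓ]
  have G2 : Γ I = b := by simp [hΓ]
  simp only [jetL, add_apply, ContinuousLinearMap.bilinearComp_apply, hA₂, hp₂,
    sub_apply, ContinuousLinearMap.comp_apply, ContinuousLinearMap.id_apply,
    l1, l2, G1, G2, norm_one, norm_I, inner_sub_right, zero_mul, neg_zero] at h5 ⊢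
  have h7 : ∀ s t u v r : ℝ, (s + 1 ^ 2 * u / 2) / δ + (t + 1 ^ 2 * u / 2) / δ + (r - v) / δ =
      (s + t + (u - v)) / δ + r / δ := by
    intro s t u v r
    ring
  linarith [h7 (‖a - X‖ ^ 2) (‖b - M.J y X‖ ^ 2) (inner ℝ (x - y) β)
    (inner ℝ (x - y) (beta M.J y X)) (inner ℝ (x - y) (Γ (ℓ (beta M.J y X))))]

end Pool.Agent.Lib.MP_f2cf74_an
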