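import Pool.Agent.Lib.MP_f2cf74_an.Core

open Set Metric MeasureTheory Complex Filter Topology
open scoped ContDiff ENNReal NNReal

noncomputable section

namespace Pool.Agent.Lib.MP_f2cf74_an

/-! Gluing with a fixed function by a regularised maximum.  `reg_chi`: `χ t = ∫ s in -1..t, S s`
with `S s = Real.smoothTransition ((s + 1) / 2)` (`Real.smoothTransition.monotone`).
`regmax`: `g = A (‖x - c‖² - r²/4) - 1` with `A (3/4) r² ≥ B + 2`,
`v = g + χ (V - g) + A r²/4 + 1`; `levi_add`, `levi_comp`, `levi_rho`; for `r ≤ ‖x - c‖ < 10 r`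
the function `v` equals `g + const` near `x` as `V - g < -1` can be arranged (take `B + 3`), and
on `ball c (r/2)` it equals `V + const` near `x` (replace `-1` by `-2`). -/

theorem reg_chi : ∃ (χ : ℝ → ℝ) (k : ℝ), ContDiff ℝ ∞ χ ∧ (∀ t, t ≤ -1 → χ t = 0) ∧
    (∀ t, 1 ≤ t → χ t = t - k) ∧ (∀ t, 0 ≤ χ t ∧ χ t ≤ |t| + 1) ∧
    (∀ t, 0 ≤ deriv χ t ∧ deriv χ t ≤ 1) ∧ ∀ t, 0 ≤ deriv (deriv χ) t := by
  set S : ℝ → ℝ := fun s => Real.smoothTransition ((s + 1) / 2) with hS
  have hSc : ContDiff ℝ ∞ S :=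
    Real.smoothTransition.contDiff.comp ((contDiff_id.add contDiff_const).div_const 2)
  have hcont : Continuous S := hSc.continuous
  have hS0 : ∀ s, 0 ≤ S s := fun s => Real.smoothTransition.nonneg _
  have hS1 : ∀ s, S s ≤ 1 := fun s => Real.smoothTransition.le_one _
  have hSm : Monotone S := fun a b hab => Real.smoothTransition.monotone (by linarith)
  set χ : ℝ → ℝ := fun t => ∫ s in (-1 : ℝ)..t, S s with hχ
  have hd : ∀ t, HasDerivAt χ (S t) t := fun t =>
    intervalIntegral.integral_hasDerivAt_right (hcont.intervalIntegrable _ _)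
      (hcont.stronglyMeasurableAtFilter _ _) hcont.continuousAt
  have hder : deriv χ = S := funext fun t => (hd t).deriv
  have hneg : ∀ t, t ≤ -1 → χ t = 0 := by
    intro t ht
    have : ∫ s in (-1 : ℝ)..t, S s = ∫ s in (-1 : ℝ)..t, (0 : ℝ) := by
      apply intervalIntegral.integral_congr
      intro s hs
      rw [uIcc_of_ge ht] at hs
      exact Real.smoothTransition.zero_of_nonpos (by linarith [hs.2])
    simp only [hχ, this, intervalIntegral.integral_zero]
  refine ⟨χ, 1 - χ 1, ?_, hneg, ?_, ?_, ?_, ?_⟩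
  · rw [contDiff_infty_iff_deriv]
    exact ⟨fun t => (hd t).differentiableAt, hder ▸ hSc⟩
  · intro t ht
    have h1 : ∫ s in (1 : ℝ)..t, S s = ∫ s in (1 : ℝ)..t, (1 : ℝ) := by
      apply intervalIntegral.integral_congr
      intro s hs
      rw [uIcc_of_le ht] at hs
      exact Real.smoothTransition.one_of_one_le (by linarith [hs.1])
    have h2 := intervalIntegral.integral_add_adjacent_intervals (μ := volume)
      (hcont.intervalIntegrable (-1) 1) (hcont.intervalIntegrable 1 t)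
    rw [h1] at h2
    simp only [intervalIntegral.integral_const, smul_eq_mul, mul_one] at h2
    simp only [hχ]
    linarith
  · intro t
    rcases le_total t (-1) with ht | ht
    · rw [hneg t ht]
      exact ⟨le_rfl, by positivity⟩
    · refine ⟨intervalIntegral.integral_nonneg ht fun s _ => hS0 s, ?_⟩
      have h1 : ∫ s in (-1 : ℝ)..t, S s ≤ ∫ s in (-1 : ℝ)..t, (1 : ℝ) :=
        intervalIntegral.integral_mono_on ht (hcont.intervalIntegrable _ _)
          (continuous_const.intervalIntegrable _ _) fun s _ => hS1 s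
      simp only [intervalIntegral.integral_const, smul_eq_mul, mul_one] at h1
      have := le_abs_self t
      simp only [hχ]
      linarith
  · intro t
    rw [hder]
    exact ⟨hS0 t, hS1 t⟩
  · intro t
    rw [hder]
    exact hSm.deriv_nonneg

theorem regmax_bd {G : Type} [NormedAddCommGroup G] [NormedSpace ℝ G] (c : E) (R : ℝ) {f : E → G}
    (hf : ContDiff ℝ ∞ f) : ∃ B : ℝ, ∀ x ∈ closedBall c R, ‖f x‖ ≤ B :=
  (isCompact_closedBall c R).exists_bound_of_continuousOn hf.continuous.continuousOn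

theorem regmax (M : Model) : ∃ r0 : ℝ, 0 < r0 ∧ ∀ (c : E) (r B : ℝ), 0 < r → r ≤ r0 →
    ∃ B' : ℝ, ∀ V, VOK M c (10 * r) B V → ∃ v, VOK M c (10 * r) B' v ∧ Ann c r (10 * r) B' v ∧
      ∀ x ∈ ball c (r / 2), H M v x = H M V x := by
  obtain ⟨R0, hR0, hrho⟩ := levi_rho M
  obtain ⟨χ, k, hχ, hχ0, hχ1, hχb, hχd, hχdd⟩ := reg_chi
  refine ⟨R0 / 10, by positivity, fun c r B hr hr0 => ?_⟩
  set A : ℝ := (|B| + 2) * 16 / (5 * r ^ 2) with hA
  have hA0 : 0 ≤ A := by positivity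
  have hAr : A * (5 * r ^ 2 / 16) = |B| + 2 := by
    rw [hA]; field_simp
  set ρ : E → ℝ := fun y => ‖y - c‖ ^ 2 with hρ
  have hρs : ContDiff ℝ ∞ ρ := (contDiff_id.sub contDiff_const).norm_sq ℝ
  have hφs : ContDiff ℝ ∞ (fun y => A * ρ y) := contDiff_const.mul hρs
  have hφ1 : ContDiff ℝ ∞ (fderiv ℝ fun y => A * ρ y) := (contDiff_infty_iff_fderiv.1 hφs).2
  have hφ2 : ContDiff ℝ ∞ (fderiv ℝ (fderiv ℝ fun y => A * ρ y)) :=
    (contDiff_infty_iff_fderiv.1 hφ1).2
  obtain ⟨B1, hB1⟩ := (isCompact_closedBall c (10 * r)).exists_bound_of_continuousOn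
    hφ1.continuous.continuousOn
  obtain ⟨B2, hB2⟩ : ∃ B2 : ℝ, ∀ x ∈ closedBall c (10 * r),
      ‖fderiv ℝ (fderiv ℝ fun y => A * ρ y) x‖ ≤ B2 := by
    exact regmax_bd c _ hφ2
  refine ⟨max (max B1 B2) (A * (201 * r ^ 2) + |B| + 2), fun V hV => ?_⟩
  set w : E → ℝ := fun y => (V y + (-A) * ρ y) + (A * r ^ 2 / 4 + 1) with hw
  have h3 : (3 : WithTop ℕ∞) ≤ ((⊤ : ℕ∞) : WithTop ℕ∞) := by
    exact ENat.LEInfty.out
  have h23 : (2 : WithTop ℕ∞) ≤ 3 := by norm_num
  have hρ3 : ContDiff ℝ 3 ρ := hρs.of_le h3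
  have hw3 : ContDiff ℝ 3 w := (hV.sm.add (contDiff_const.mul hρ3)).add contDiff_const
  have hχw : ContDiff ℝ 3 (fun y => χ (w y)) := (hχ.of_le h3).comp hw3
  have hρb : ∀ x ∈ ball c (10 * r), 0 ≤ ρ x ∧ ρ x ≤ 100 * r ^ 2 := by
    intro x hx
    rw [mem_ball_iff_norm] at hx
    refine ⟨by positivity, ?_⟩
    have := norm_nonneg (x - c)
    simp only [hρ]
    nlinarith
  refine ⟨fun y => A * ρ y + χ (w y), ⟨(hφs.of_le h3).add hχw, ?_, ?_, ?_⟩, ?_, ?_⟩
  · intro x hx Y
    have hx' : ‖x - c‖ ≤ R0 := by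
      rw [mem_ball_iff_norm] at hx
      linarith
    have l1 : 0 ≤ levi M.J ρ x Y := le_trans (by positivity) (hrho c x hx' Y)
    have l2 : 0 ≤ levi M.J V x Y := hV.psh x hx Y
    have e1 : levi M.J w x Y = levi M.J V x Y + (-A) * levi M.J ρ x Y := by
      rw [hw, levi_add_const M.J (fun y => V y + (-A) * ρ y),
        levi_add M.J (hV.sm.of_le h23).contDiffAt
          ((contDiff_const.mul hρ3).of_le h23).contDiffAt,
        levi_const_mul M.J (hρ3.of_le h23).contDiffAt]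
    rw [levi_add M.J ((hφs.of_le h3).of_le h23).contDiffAt (hχw.of_le h23).contDiffAt,
      levi_const_mul M.J (hρ3.of_le h23).contDiffAt,
      levi_comp M.J (hw3.of_le h23).contDiffAt ((hχ.of_le h3).of_le h23).contDiffAt, e1]
    obtain ⟨d0, d1⟩ := hχd (w x)
    have d2 := hχdd (w x)
    have p1 : 0 ≤ (1 - deriv χ (w x)) * (A * levi M.J ρ x Y) :=
      mul_nonneg (by linarith) (mul_nonneg hA0 l1)
    have p2 : 0 ≤ deriv χ (w x) * levi M.J V x Y := mul_nonneg d0 l2
    have p3 : 0 ≤ deriv (deriv χ) (w x) * (fderiv ℝ w x Y ^ 2 + fderiv ℝ w x (M.J x Y) ^ 2) :=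
      mul_nonneg d2 (by positivity)
    nlinarith
  · intro x hx
    exact add_nonneg (mul_nonneg hA0 (hρb x hx).1) (hχb _).1
  · intro x hx
    refine le_trans ?_ (le_max_right _ _)
    obtain ⟨r1, r2⟩ := hρb x hx
    have v1 := hV.nn x hx
    have v2 := (hV.le x hx).trans (le_abs_self B)
    have a1 : 0 ≤ A * ρ x := mul_nonneg hA0 r1
    have a2 : A * ρ x ≤ A * (100 * r ^ 2) := mul_le_mul_of_nonneg_left r2 hA0
    have a3 : 0 ≤ A * r ^ 2 := by positivity
    have : |w x| ≤ |B| + A * (100 * r ^ 2) + A * r ^ 2 / 4 + 1 := by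
      rw [abs_le]
      simp only [hw]
      constructor <;> nlinarith [abs_nonneg B]
    have := (hχb (w x)).2
    nlinarith
  · intro x hx1 hx2
    have hU : IsOpen {y : E | 3 * r / 4 < ‖y - c‖ ∧ ‖y - c‖ < 10 * r} :=
      (isOpen_lt continuous_const (continuous_id.sub continuous_const).norm).inter
        (isOpen_lt (continuous_id.sub continuous_const).norm continuous_const)
    have hev : (fun y => A * ρ y + χ (w y)) =ᶠ[𝓝 x] fun y => A * ρ y := by
      filter_upwards [hU.mem_nhds (show 3 * r / 4 < ‖x - c‖ ∧ ‖x - c‖ < 10 * r from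
        ⟨by linarith, hx2⟩)] with y hy
      have v2 := (hV.le y (mem_ball_iff_norm.2 hy.2)).trans (le_abs_self B)
      have r1 : 9 * r ^ 2 / 16 ≤ ρ y := by
        simp only [hρ]
        nlinarith [hy.1]
      have a1 : A * (9 * r ^ 2 / 16) ≤ A * ρ y := mul_le_mul_of_nonneg_left r1 hA0
      rw [hχ0 (w y) (by simp only [hw]; nlinarith), add_zero]
    have hxb : x ∈ closedBall c (10 * r) := mem_closedBall_iff_norm.2 hx2.le
    rw [hev.fderiv.fderiv_eq, hev.fderiv_eq]
    exact ⟨(hB1 x hxb).trans ((le_max_left _ _).trans (le_max_left _ _)),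
      (hB2 x hxb).trans ((le_max_right _ _).trans (le_max_left _ _))⟩
  · intro x hx
    apply H_congr M (A * r ^ 2 / 4 + 1 - k)
    filter_upwards [isOpen_ball.mem_nhds hx] with y hy
    have hy' := mem_ball_iff_norm.1 hy
    have v1 := hV.nn y (mem_ball_iff_norm.2 (by linarith))
    have r1 : ρ y ≤ r ^ 2 / 4 := by
      simp only [hρ]
      nlinarith [norm_nonneg (y - c)]
    have a1 : A * ρ y ≤ A * (r ^ 2 / 4) := mul_le_mul_of_nonneg_left r1 hA0
    rw [hχ1 (w y) (by simp only [hw]; nlinarith)]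
    simp only [hw]
    ring

theorem core2 (M : Model) : ∃ r0 : ℝ, 0 < r0 ∧ ∀ (c : E) (r B : ℝ), 0 < r → r ≤ r0 →
    ∃ C : ℝ≥0, ∀ u V : E → ℝ, UOK M c (10 * r) u → (∀ x ∈ ball c (10 * r), u x ≤ 0) →
      VOK M c (10 * r) B V →
      ∫⁻ x in ball c (r / 2), ‖u x‖ₑ * eD M V V x x ≤ C * nU c (10 * r) u := by
  obtain ⟨r0, hr0, h⟩ := regmax M
  refine ⟨r0, hr0, fun c r B hr hr' => ?_⟩
  obtain ⟨B', hB'⟩ := h c r B hr hr'
  obtain ⟨C, hC⟩ := core M c hr B'
  refine ⟨C, fun u V hu hu0 hV => ?_⟩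
  obtain ⟨v, hv, hann, hH⟩ := hB' V hV
  calc ∫⁻ x in ball c (r / 2), ‖u x‖ₑ * eD M V V x x
      = ∫⁻ x in ball c (r / 2), ‖u x‖ₑ * eD M v v x x := by
        apply setLIntegral_congr_fun measurableSet_ball
        intro x hx
        simp only [eD, hH x hx]
    _ ≤ ∫⁻ x in ball c (2 * r), ‖u x‖ₑ * eD M v v x x :=
        lintegral_mono_set (ball_subset_ball (by linarith))
    _ ≤ C * nU c (10 * r) u := hC u v hu hu0 hv hann

end Pool.Agent.Lib.MP_f2cf74_an
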