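import Pool.Agent.Lib.MP_f2cf74_an.W12a

open Set Metric MeasureTheory Complex Filter Topology
open scoped ContDiff ENNReal NNReal

noncomputable section

namespace Pool.Agent.Lib.MP_f2cf74_an

/-! Strong convergence of gradients.  `φ` a bump (`1` on `ball c a`, support in `ball c a'`).
`0 ≤ ∫ φ² (V i - v) tr H (V i)`; `trH_sum`; for each of the four fields `T` use `adj_ibp` and
`weak_vf` with the test function `φ² VD T (V i)`; the lower order terms are
`≤ C ‖V i - v‖₂ ‖d V i‖₂ → 0` (`cacc`, dominated convergence).  Hence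
`limsup ∑ ∫ φ² (T V i - G T) T V i ≤ 0`; with `weak_conv` (expand `T x` in the basis `eb`),
`∑ ∫ φ² (T V i - G T)² → 0`; `Lg_bound` for `g = d V i - G`. -/

theorem w12b_small {α : Type} [MeasurableSpace α] {μ : Measure α} {u w : ℕ → α → ℝ}
    (hu : ∀ i, MemLp (u i) 2 μ) (hw : ∀ i, MemLp (w i) 2 μ) {C : ℝ}
    (hC : ∀ i, ∫ x, w i x ^ 2 ∂μ ≤ C) (h : Tendsto (fun i => ∫ x, u i x ^ 2 ∂μ) atTop (𝓝 0)) :
    Tendsto (fun i => ∫ x, u i x * w i x ∂μ) atTop (𝓝 0) := by
  have hC0 : 0 ≤ C := (integral_nonneg fun x => sq_nonneg _).trans (hC 0)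
  refine Metric.tendsto_nhds.2 fun ε hε => ?_
  obtain ⟨t, ht, htC⟩ : ∃ t : ℝ, 0 < t ∧ t * C < ε / 2 := by
    refine ⟨ε / 2 / (C + 1), by positivity, ?_⟩
    rw [div_mul_eq_mul_div, div_lt_iff₀ (by positivity)]
    nlinarith
  filter_upwards [h.eventually (gt_mem_nhds (show 0 < t * (ε / 2) by positivity))] with i hi
  rw [dist_zero_right]
  have h1 : ‖∫ x, u i x * w i x ∂μ‖ ≤ ∫ x, (t⁻¹ * u i x ^ 2 + t * w i x ^ 2) ∂μ := by
    refine norm_integral_le_of_norm_le (((hu i).integrable_sq.const_mul _).add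
      ((hw i).integrable_sq.const_mul _)) (Eventually.of_forall fun x => ?_)
    rw [norm_mul, Real.norm_eq_abs, Real.norm_eq_abs, ← sq_abs (u i x), ← sq_abs (w i x)]
    refine le_of_mul_le_mul_left ?_ ht
    rw [mul_add, mul_inv_cancel_left₀ ht.ne']
    nlinarith [sq_nonneg (|u i x| - t * |w i x|), mul_nonneg ht.le
      (mul_nonneg (abs_nonneg (u i x)) (abs_nonneg (w i x)))]
  rw [integral_add ((hu i).integrable_sq.const_mul _) ((hw i).integrable_sq.const_mul _),
    integral_const_mul, integral_const_mul] at h1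
  have h2 : t⁻¹ * ∫ x, u i x ^ 2 ∂μ < ε / 2 := by rwa [inv_mul_lt_iff₀ ht]
  have h3 := mul_le_mul_of_nonneg_left (hC i) ht.le
  linarith

theorem w12b_fin (c : E) (a : ℝ) : IsFiniteMeasure (volume.restrict (ball c a)) :=
  ⟨by rw [Measure.restrict_apply_univ]; exact measure_ball_lt_top⟩

theorem w12b_top {W : Type} [NormedAddCommGroup W] {h : E → W} (hh : Continuous h) (c : E)
    (a : ℝ) : MemLp h ⊤ (volume.restrict (ball c a)) := by
  obtain ⟨C, hC⟩ := (isCompact_closedBall c a).exists_bound_of_continuousOn hh.continuousOn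
  exact memLp_top_of_bound hh.aestronglyMeasurable C
    ((ae_restrict_mem measurableSet_ball).mono fun x hx => hC x (ball_subset_closedBall hx))

theorem w12b_two {W : Type} [NormedAddCommGroup W] {h : E → W} (hh : Continuous h) (c : E)
    (a : ℝ) : MemLp h 2 (volume.restrict (ball c a)) :=
  have := w12b_fin c a
  (w12b_top hh c a).mono_exponent le_top

theorem w12b_VD {T : E → E} (hT : ContDiff ℝ ∞ T) {f : E → ℝ} (hf : ContDiff ℝ ∞ f) :
    ContDiff ℝ ∞ (VD T f) := (hf.fderiv_right (m := ∞) (by simp)).clm_apply hT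

theorem w12b_cVD {T : E → E} (hT : Continuous T) {f : E → ℝ} (hf : ContDiff ℝ ∞ f) :
    Continuous (VD T f) := (hf.continuous_fderiv (by simp)).clm_apply hT

theorem w12b_adj {T : E → E} (hT : ContDiff ℝ ∞ T) {f : E → ℝ} (hf : ContDiff ℝ ∞ f) :
    ContDiff ℝ ∞ (adj T f) := (w12b_VD hT hf).add ((contDiff_divg hT).mul hf)

theorem w12b_exp (g : E →L[ℝ] ℝ) (Y : E) : g Y = ∑ k, Y k * g (eb k) := by
  have : Y = ∑ k, Y k • eb k := by
    ext k
    simp [eb, Pi.single_apply]
  conv_lhs => rw [this]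
  simp only [map_sum, map_smul, smul_eq_mul]

/-- The hypotheses. -/
structure w12b_H (M : Model) (Ω : Set E) (v : E → ℝ) (G : E → E →L[ℝ] ℝ) (c : E) (a b B : ℝ)
    (V : ℕ → E → ℝ) : Prop where
  hΩ : IsOpen Ω
  hG : IsWeakGrad Ω v G
  ha : 0 < a
  hab : a < b
  hb : ball c b ⊆ Ω
  sm : ∀ i, ContDiff ℝ ∞ (V i)
  ok : ∀ i, UOK M c b (V i)
  hB : ∀ i, ∀ x ∈ ball c b, |V i x| ≤ B
  hl : ∀ x ∈ ball c b, Tendsto (fun i => V i x) atTop (𝓝 (v x))

namespace w12b_H

variable {M : Model} {Ω : Set E} {v : E → ℝ} {G : E → E →L[ℝ] ℝ} {c : E} {a b B : ℝ}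
  {V : ℕ → E → ℝ} (h : w12b_H M Ω v G c a b B V)
include h

theorem ae_mem : ∀ᵐ x ∂(volume.restrict (ball c a)), x ∈ ball c b :=
  (ae_restrict_mem measurableSet_ball).mono fun _ hx => ball_subset_ball h.hab.le hx

theorem vB {x : E} (hx : x ∈ ball c b) : |v x| ≤ B :=
  le_of_tendsto' (h.hl x hx).abs fun i => h.hB i x hx

theorem v_top : MemLp v ⊤ (volume.restrict (ball c a)) :=
  memLp_top_of_bound (aestronglyMeasurable_of_tendsto_ae atTop
    (fun i => (h.sm i).continuous.aestronglyMeasurable) (h.ae_mem.mono h.hl)) B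
    (h.ae_mem.mono fun _ hx => h.vB hx)

theorem v_two : MemLp v 2 (volume.restrict (ball c a)) :=
  have := w12b_fin c a
  h.v_top.mono_exponent le_top

theorem u_two (i : ℕ) : MemLp (fun x => V i x - v x) 2 (volume.restrict (ball c a)) :=
  (w12b_two (h.sm i).continuous c a).sub h.v_two

theorem G_two {T : E → E} (hT : Continuous T) :
    MemLp (fun x => G x (T x)) 2 (volume.restrict (ball c a)) := by
  have h1 : MemLp G 2 (volume.restrict (ball c a)) :=
    (h.hG.1 _ (isCompact_closedBall c a) ((closedBall_subset_ball h.hab).trans h.hb)).mono_measure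
      (Measure.restrict_mono ball_subset_closedBall le_rfl)
  obtain ⟨C, hC⟩ := (isCompact_closedBall c a).exists_bound_of_continuousOn hT.continuousOn
  refine h1.of_le_mul (c := C) (isBoundedBilinearMap_apply.continuous.comp_aestronglyMeasurable
    (h1.1.prodMk hT.aestronglyMeasurable)) ?_
  filter_upwards [ae_restrict_mem measurableSet_ball] with x hx
  rw [mul_comm]
  exact (G x).le_opNorm_of_le (hC x (ball_subset_closedBall hx))

theorem d_two {T : E → E} (hT : Continuous T) (i : ℕ) :
    MemLp (fun x => VD T (V i) x - G x (T x)) 2 (volume.restrict (ball c a)) :=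
  (w12b_two (w12b_cVD hT (h.sm i)) c a).sub (h.G_two hT)

theorem u_lim : Tendsto (fun i => ∫ x in ball c a, (V i x - v x) ^ 2) atTop (𝓝 0) := by
  have := w12b_fin c a
  have h1 := tendsto_integral_of_dominated_convergence (μ := volume.restrict (ball c a))
    (F := fun i x => (V i x - v x) ^ 2) (f := fun _ => (0 : ℝ)) (fun _ => (2 * B) ^ 2)
    (fun i => (h.u_two i).integrable_sq.1) (integrable_const _) (fun i => ?_) ?_
  · simpa using h1
  · filter_upwards [h.ae_mem] with x hx
    rw [norm_pow, Real.norm_eq_abs]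
    refine pow_le_pow_left₀ (abs_nonneg _) ((abs_sub _ _).trans ?_) 2
    linarith [h.hB i x hx, h.vB hx]
  · filter_upwards [h.ae_mem] with x hx
    simpa using ((h.hl x hx).sub_const (v x)).pow 2

/-- Lower order terms. -/
theorem low {T : E → E} (hT : Continuous T) :
    Tendsto (fun i => ∫ x in ball c a, (V i x - v x) * VD T (V i) x) atTop (𝓝 0) := by
  obtain ⟨C, hC⟩ := cacc M c h.ha h.hab B
  obtain ⟨K, hK⟩ := (isCompact_closedBall c a).exists_bound_of_continuousOn hT.continuousOn
  refine w12b_small h.u_two (fun i => w12b_two (w12b_cVD hT (h.sm i)) c a) (C := K ^ 2 * C)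
    (fun i => ?_) h.u_lim
  have h0 := (w12b_two ((h.sm i).continuous_fderiv (by simp)).norm c a).integrable_sq
  have h1 : ∫ x in ball c a, ‖fderiv ℝ (V i) x‖ ^ 2 ≤ C := by
    rw [← ENNReal.coe_toReal C, ← ENNReal.ofReal_le_iff_le_toReal ENNReal.coe_ne_top,
      ofReal_integral_eq_lintegral_ofReal h0 (Eventually.of_forall fun x => sq_nonneg _)]
    refine le_of_eq_of_le (lintegral_congr fun x => ?_) (hC _ (h.ok i) (h.hB i))
    rw [ENNReal.ofReal_pow (norm_nonneg _), ofReal_norm, eG]
  refine le_trans ?_ (mul_le_mul_of_nonneg_left h1 (sq_nonneg K))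
  rw [← integral_const_mul]
  refine integral_mono_ae (w12b_two (w12b_cVD hT (h.sm i)) c a).integrable_sq (h0.const_mul _) ?_
  filter_upwards [ae_restrict_mem measurableSet_ball] with x hx
  rw [← mul_pow, ← sq_abs, mul_comm]
  exact pow_le_pow_left₀ (abs_nonneg _)
    ((fderiv ℝ (V i) x).le_opNorm_of_le (hK x (ball_subset_closedBall hx))) 2

/-- Weak convergence along a field. -/
theorem weak {T : E → E} (hT : Continuous T) {Φ : E → ℝ}
    (hΦ : MemLp Φ 2 (volume.restrict (ball c a))) :
    Tendsto (fun i => ∫ x in ball c a, (VD T (V i) x - G x (T x)) * Φ x) atTop (𝓝 0) := by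
  have h1 : ∀ k, MemLp (fun x => T x k * Φ x) 2 (volume.restrict (ball c a)) := fun k =>
    hΦ.mul' (w12b_top (by fun_prop) c a)
  have h2 := tendsto_finsetSum Finset.univ fun k _ =>
    weak_conv M h.hΩ h.hG h.ha h.hab h.hb h.ok h.hB h.hl (eb k) (h1 k)
  rw [Finset.sum_const_zero] at h2
  refine h2.congr fun i => ?_
  refine (integral_finsetSum _ fun k _ =>
    (h.d_two (T := fun _ => eb k) continuous_const i).integrable_mul (h1 k)).symm.trans ?_
  refine integral_congr_ae (Eventually.of_forall fun x => ?_)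
  simp only [VD, w12b_exp _ (T x), ← Finset.sum_sub_distrib, Finset.sum_mul, Pi.mul_apply]
  exact Finset.sum_congr rfl fun k _ => by ring

variable {ψ : E → ℝ} (hψ : ContDiff ℝ ∞ ψ) (hs : tsupport ψ ⊆ ball c a) {T : E → E}
  (hT : ContDiff ℝ ∞ T)
include hψ hT

theorem int1 (i : ℕ) : Integrable (fun x => (V i x - v x) * (ψ x * VD T (VD T (V i)) x))
    (volume.restrict (ball c a)) :=
  (h.u_two i).integrable_mul (w12b_two (hψ.continuous.mul
    (w12b_cVD hT.continuous (w12b_VD hT (h.sm i)))) c a)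

theorem int2 (i : ℕ) : Integrable
    (fun x => (VD T (V i) x - G x (T x)) * (ψ x * (VD T (V i) x - G x (T x))))
    (volume.restrict (ball c a)) :=
  (h.d_two hT.continuous i).integrable_mul (q := 2)
    ((h.d_two hT.continuous i).mul' (w12b_top hψ.continuous c a))

include hs

theorem ident (i : ℕ) :
    (∫ x in ball c a, (V i x - v x) * (ψ x * VD T (VD T (V i)) x)) +
      ∫ x in ball c a, (VD T (V i) x - G x (T x)) * (ψ x * (VD T (V i) x - G x (T x))) =
    -(∫ x in ball c a, (V i x - v x) * VD (fun x => adj T ψ x • T x) (V i) x) -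
      ∫ x in ball c a, (VD T (V i) x - G x (T x)) * (ψ x * G x (T x)) := by
  have := w12b_fin c a
  have hf := h.sm i
  have hg := w12b_VD hT hf
  have hw : ContDiff ℝ ∞ fun x => ψ x * VD T (V i) x := hψ.mul hg
  have hws : tsupport (fun x => ψ x * VD T (V i) x) ⊆ ball c a :=
    (tsupport_mul_subset_left).trans hs
  have hwc : HasCompactSupport fun x => ψ x * VD T (V i) x :=
    (isCompact_closedBall c a).of_isClosed_subset (isClosed_tsupport _)
      (hws.trans ball_subset_closedBall)
  have hA := w12b_adj hT hw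
  have hw0 : ∀ x, x ∉ ball c a → ψ x * VD T (V i) x = 0 := fun x hx =>
    image_eq_zero_of_notMem_tsupport (f := fun x => ψ x * VD T (V i) x) fun h1 => hx (hws h1)
  have hA0 : ∀ x, x ∉ ball c a → adj T (fun x => ψ x * VD T (V i) x) x = 0 := fun x hx => by
    rw [adj, VD, fderiv_of_notMem_tsupport ℝ fun h1 => hx (hws h1), hw0 x hx]
    simp
  have hAe : ∀ x, adj T (fun x => ψ x * VD T (V i) x) x =
      ψ x * VD T (VD T (V i)) x + adj T ψ x * VD T (V i) x := fun x => by
    rw [adj, adj, VD, fderiv_fun_mul (hψ.differentiable (by simp) x) (hg.differentiable (by simp) x)]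
    simp only [VD, add_apply, smul_apply, smul_eq_mul]
    ring
  have e1 := adj_ibp (hT.of_le (by simp)) (hw.of_le (by simp)) hwc (hf.of_le (by simp))
  have e2 := weak_vf h.hΩ h.hG ⟨hw, hwc, hws.trans ((ball_subset_ball h.hab.le).trans h.hb)⟩
    (IntegrableOn.mono_set (h.v_top.integrable le_top) hws) hT
  rw [← setIntegral_eq_integral_of_forall_compl_eq_zero (s := ball c a)
      fun x hx => by rw [hw0 x hx, zero_mul],
    ← setIntegral_eq_integral_of_forall_compl_eq_zero (s := ball c a)
      (f := fun x => adj T _ x * V i x) fun x hx => by rw [hA0 x hx, zero_mul]] at e1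
  rw [← setIntegral_eq_integral_of_forall_compl_eq_zero (s := ball c a)
      fun x hx => by rw [hA0 x hx, mul_zero],
    ← setIntegral_eq_integral_of_forall_compl_eq_zero (s := ball c a)
      (f := fun x => G x (T x) * (ψ x * VD T (V i) x)) fun x hx => by rw [hw0 x hx, mul_zero]] at e2
  have i1 := h.int1 hψ hT i
  have i2 := h.int2 hψ hT i
  have i3 : Integrable (fun x => (V i x - v x) * VD (fun x => adj T ψ x • T x) (V i) x)
      (volume.restrict (ball c a)) := (h.u_two i).integrable_mul (w12b_two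
    (w12b_cVD ((w12b_adj hT hψ).continuous.smul hT.continuous) hf) c a)
  have i4 : Integrable (fun x => (VD T (V i) x - G x (T x)) * (ψ x * G x (T x)))
      (volume.restrict (ball c a)) := (h.d_two hT.continuous i).integrable_mul (q := 2)
    ((h.G_two hT.continuous).mul' (w12b_top hψ.continuous c a))
  have j1 : Integrable (fun x => adj T (fun x => ψ x * VD T (V i) x) x * V i x)
      (volume.restrict (ball c a)) :=
    (w12b_top (hA.continuous.mul hf.continuous) c a).integrable le_top
  have j2 : Integrable (fun x => v x * adj T (fun x => ψ x * VD T (V i) x) x)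
      (volume.restrict (ball c a)) := h.v_two.integrable_mul (w12b_two hA.continuous c a)
  have j3 : Integrable (fun x => ψ x * VD T (V i) x * VD T (V i) x)
      (volume.restrict (ball c a)) :=
    (w12b_top (hw.continuous.mul hg.continuous) c a).integrable le_top
  have j4 : Integrable (fun x => G x (T x) * (ψ x * VD T (V i) x))
      (volume.restrict (ball c a)) :=
    (h.G_two hT.continuous).integrable_mul (w12b_two hw.continuous c a)
  have k1 := integral_add i1 i2
  have k2 := integral_add i3 i4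
  have k3 := integral_add (i1.add i2) (i3.add i4)
  have k4 := integral_sub j1 j2
  have k5 := integral_sub j3 j4
  have k6 := integral_add (j1.sub j2) (j3.sub j4)
  simp only [Pi.add_apply, Pi.sub_apply] at k3 k6
  rw [k1, k2] at k3
  rw [k4, k5, integral_congr_ae (Eventually.of_forall fun x => ?_), k3] at k6
  · linarith
  · simp only [hAe]
    simp only [VD, map_smul, smul_eq_mul]
    ring

theorem main : Tendsto (fun i => (∫ x in ball c a, (V i x - v x) * (ψ x * VD T (VD T (V i)) x)) +
    ∫ x in ball c a, (VD T (V i) x - G x (T x)) * (ψ x * (VD T (V i) x - G x (T x))))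
    atTop (𝓝 0) := by
  simp only [h.ident hψ hs hT]
  have := (h.low (T := fun x => adj T ψ x • T x)
    ((w12b_adj hT hψ).continuous.smul hT.continuous)).neg.sub
    (h.weak hT.continuous ((h.G_two hT.continuous).mul' (w12b_top hψ.continuous c a)))
  rwa [neg_zero, sub_zero] at this

end w12b_H

theorem w12 (M : Model) {Ω : Set E} (hΩ : IsOpen Ω) {v : E → ℝ} {G : E → E →L[ℝ] ℝ}
    (hG : IsWeakGrad Ω v G) {c : E} {a b B : ℝ} (ha : 0 < a) (hab : a < b) (hb : ball c b ⊆ Ω)
    {V : ℕ → E → ℝ} (hV : ∀ i, ContDiff ℝ ∞ (V i) ∧ Psh M.J (V i) (ball c b))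
    (hB : ∀ i, ∀ x ∈ ball c b, v x ≤ V i x ∧ |V i x| ≤ B)
    (hl : ∀ x ∈ ball c b, Tendsto (fun i => V i x) atTop (𝓝 (v x))) :
    Tendsto (fun i => ∫⁻ x in ball c a, ‖fderiv ℝ (V i) x - G x‖ₑ ^ 2) atTop (𝓝 0) := by
  have h : w12b_H M Ω v G c ((a + 2 * b) / 3) b B V :=
    ⟨hΩ, hG, by linarith, by linarith, hb, fun i => (hV i).1,
      fun i => ⟨contDiff_infty.1 (hV i).1 3, (hV i).2⟩, fun i x hx => (hB i x hx).2, hl⟩
  let φ : ContDiffBump c := ⟨a, (2 * a + b) / 3, ha, by linarith⟩
  have hψ : ContDiff ℝ ∞ φ := φ.contDiff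
  have hs : tsupport φ ⊆ ball c ((a + 2 * b) / 3) := by
    rw [φ.tsupport_eq]
    exact closedBall_subset_ball (by show (2 * a + b) / 3 < _; linarith)
  have hX : ∀ j, ContDiff ℝ ∞ (vX M j) := fun j => contDiff_const
  have hY := M.contDiff_vY
  have hZ : ∀ j, Continuous fun x => φ x • vB M j x := fun j =>
    hψ.continuous.smul (M.contDiff_vB j).continuous
  have iZ : ∀ i j, Integrable (fun x => (V i x - v x) * VD (fun x => φ x • vB M j x) (V i) x)
      (volume.restrict (ball c ((a + 2 * b) / 3))) := fun i j =>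
    (h.u_two i).integrable_mul (w12b_two (w12b_cVD (hZ j) (h.sm i)) _ _)
  obtain ⟨C, hC, hL⟩ := Lg_bound M
  set n : ℕ → E → ℝ := fun i x => ∑ j,
    ((VD (vX M j) (V i) x - G x (vX M j x)) * (φ x * (VD (vX M j) (V i) x - G x (vX M j x))) +
      (VD (vY M j) (V i) x - G x (vY M j x)) * (φ x * (VD (vY M j) (V i) x - G x (vY M j x))))
    with hn
  have n0 : ∀ i x, 0 ≤ n i x := fun i x => Finset.sum_nonneg fun j _ => by
    have := φ.nonneg (x := x)
    rw [mul_left_comm, mul_left_comm _ (φ x)]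
    exact add_nonneg (mul_nonneg this (mul_self_nonneg _)) (mul_nonneg this (mul_self_nonneg _))
  have ni : ∀ i, Integrable (n i) (volume.restrict (ball c ((a + 2 * b) / 3))) := fun i =>
    integrable_finsetSum _ fun j _ => (h.int2 hψ (hX j) i).add (h.int2 hψ (hY j) i)
  have t1 := tendsto_finsetSum Finset.univ fun j _ =>
    ((h.main hψ hs (hX j)).add (h.main hψ hs (hY j))).add (h.low (hZ j))
  simp only [add_zero, Finset.sum_const_zero] at t1
  have t2 : Tendsto (fun i => ∫ x in ball c ((a + 2 * b) / 3), n i x) atTop (𝓝 0) := by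
    refine squeeze_zero (fun i => integral_nonneg (n0 i)) (fun i => ?_) t1
    have p1 : 0 ≤ ∫ x in ball c ((a + 2 * b) / 3), ∑ j,
        ((V i x - v x) * (φ x * VD (vX M j) (VD (vX M j) (V i)) x) +
          (V i x - v x) * (φ x * VD (vY M j) (VD (vY M j) (V i)) x) +
          (V i x - v x) * VD (fun x => φ x • vB M j x) (V i) x) := by
      refine integral_nonneg_of_ae ?_
      filter_upwards [h.ae_mem] with x hx
      have q1 := (psd_H M (hV i).2 hx).tr_nonneg
      rw [trH_sum M (contDiff_infty.1 (hV i).1 2).contDiffAt] at q1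
      have q2 := mul_nonneg (mul_nonneg (sub_nonneg.2 (hB i x hx).1) (φ.nonneg (x := x)))
        (mul_nonneg (by norm_num : (0 : ℝ) ≤ 4) q1)
      refine q2.trans_eq ?_
      rw [mul_div_cancel₀ _ (by norm_num), Finset.mul_sum]
      refine Finset.sum_congr rfl fun j _ => ?_
      simp only [VD, map_smul, smul_eq_mul]
      ring
    replace p1 := p1.trans_eq (integral_finsetSum _ fun j _ =>
      ((h.int1 hψ (hX j) i).add (h.int1 hψ (hY j) i)).add (iZ i j))
    refine (integral_finsetSum _ fun j _ =>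
      (h.int2 hψ (hX j) i).add (h.int2 hψ (hY j) i)).trans_le ?_
    refine (le_add_of_nonneg_left p1).trans_eq ?_
    rw [← Finset.sum_add_distrib]
    refine Finset.sum_congr rfl fun j _ => ?_
    have r1 := integral_add ((h.int1 hψ (hX j) i).add (h.int1 hψ (hY j) i)) (iZ i j)
    simp only [Pi.add_apply] at r1 ⊢
    rw [r1, integral_add (h.int1 hψ (hX j) i) (h.int1 hψ (hY j) i),
      integral_add (h.int2 hψ (hX j) i) (h.int2 hψ (hY j) i)]
    ring
  have t3 := ENNReal.tendsto_ofReal (t2.const_mul C)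
  rw [mul_zero, ENNReal.ofReal_zero] at t3
  refine tendsto_of_tendsto_of_tendsto_of_le_of_le tendsto_const_nhds t3 (fun _ => zero_le)
    fun i => ?_
  simp only
  rw [← integral_const_mul, ofReal_integral_eq_lintegral_ofReal ((ni i).const_mul C)
    (Eventually.of_forall fun x => mul_nonneg hC (n0 i x))]
  refine le_trans (setLIntegral_mono' measurableSet_ball fun x hx => ?_)
    (lintegral_mono_set (ball_subset_ball (by linarith)))
  rw [← ofReal_norm, ← ENNReal.ofReal_pow (norm_nonneg _)]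
  refine ENNReal.ofReal_le_ofReal ((hL x _).2.2.1.trans (mul_le_mul_of_nonneg_left ?_ hC))
  have q : ∀ s t : ℝ, ‖((s : ℂ) + I * t) / 2‖ ^ 2 ≤ s * s + t * t := fun s t => by
    rw [norm_div, div_pow, Complex.sq_norm, Complex.normSq_apply]
    simp
    nlinarith [mul_self_nonneg s, mul_self_nonneg t]
  simp only [hn, Fin.sum_univ_two, φ.one_of_mem_closedBall (ball_subset_closedBall hx), one_mul]
  exact add_le_add (q _ _) (q _ _)

end Pool.Agent.Lib.MP_f2cf74_an
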