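import Pool.Agent.Lib.MP_f2cf74_an.MaPt3
import Pool.Agent.Lib.MP_f2cf74_an.CoreId
import Pool.Agent.Lib.MP_f2cf74_an.W12b
import Pool.Agent.Lib.MP_f2cf74_an.RegMax

open Set Metric MeasureTheory Complex Filter Topology
open scoped ContDiff ENNReal NNReal

noncomputable section

namespace Pool.Agent.Lib.MP_f2cf74_an

/-! Passing to the limit in the Monge-Ampere pairing.  `m0_lim`: `m0_lip`, Cauchy-Schwarz
(`‖g‖ ≤ ‖g - g'‖ + ‖g'‖`).  `ma_est`: `χ` a bump at `c` (`rIn = r/4`, `rOut = r/3`), `f = -χ U`;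
`IsMA`, `maDens_congr`, `ma_pt`, `maDens_zero`, `w12`, `m0_lim`, `i1`, `core2` applied to
`V i + B` (`H_congr`), upper bound for `dens`. -/

theorem lim_aux1 {C t : ℝ} (hC : 0 ≤ C) {g G : E →L[ℝ] ℝ}
    (h : |t| ≤ C * (‖g - G‖ * (‖g‖ + ‖G‖))) :
    ‖t‖ₑ ≤ ENNReal.ofReal C * (‖g - G‖ₑ ^ 2 + 2 * (‖g - G‖ₑ * ‖G‖ₑ)) := by
  have h1 : ‖g‖ ≤ ‖g - G‖ + ‖G‖ := by simpa using norm_add_le (g - G) G
  have h2 : |t| ≤ C * (‖g - G‖ ^ 2 + 2 * (‖g - G‖ * ‖G‖)) := by
    refine h.trans (mul_le_mul_of_nonneg_left ?_ hC)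
    nlinarith [norm_nonneg (g - G)]
  rw [Real.enorm_eq_ofReal_abs]
  refine (ENNReal.ofReal_le_ofReal h2).trans_eq ?_
  rw [ENNReal.ofReal_mul hC, ENNReal.ofReal_add (by positivity) (by positivity),
    ENNReal.ofReal_pow (norm_nonneg _), ENNReal.ofReal_mul (by norm_num),
    ENNReal.ofReal_mul (norm_nonneg _), ofReal_norm, ofReal_norm]
  simp

theorem lim_aux2 {ν : Measure E} {u w : E → ℝ≥0∞} (hu : AEMeasurable u ν) (hw : AEMeasurable w ν) :
    ∫⁻ x, u x * w x ∂ν ≤ (∫⁻ x, u x ^ 2 ∂ν) ^ (1 / 2 : ℝ) * (∫⁻ x, w x ^ 2 ∂ν) ^ (1 / 2 : ℝ) := by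
  have h := ENNReal.lintegral_mul_le_Lp_mul_Lq ν Real.HolderConjugate.two_two hu hw
  simpa only [Pi.mul_apply, ENNReal.rpow_two] using h

theorem m0_lim (M : Model) {f : E → ℝ} (hf : ContDiff ℝ 2 f) {c : E} {a : ℝ}
    (hs : tsupport f ⊆ ball c a) {G : E → E →L[ℝ] ℝ} (hG : MemLp G 2 (volume.restrict (ball c a)))
    {g : ℕ → E → E →L[ℝ] ℝ} (hg : ∀ i, Continuous (g i))
    (hl : Tendsto (fun i => ∫⁻ x in ball c a, ‖g i x - G x‖ₑ ^ 2) atTop (𝓝 0)) :
    Tendsto (fun i => ∫ x, dens M x * m0 M f x (g i x)) atTop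
      (𝓝 (∫ x, dens M x * m0 M f x (G x))) := by
  have hc : HasCompactSupport f :=
    (isCompact_closedBall c a).of_isClosed_subset (isClosed_tsupport f)
      (hs.trans ball_subset_closedBall)
  obtain ⟨C, hC, hlip⟩ := m0_lip M hf hc
  have hz : ∀ γ : E → E →L[ℝ] ℝ, ∫ x, dens M x * m0 M f x (γ x) =
      ∫ x in ball c a, dens M x * m0 M f x (γ x) := fun γ =>
    (setIntegral_eq_integral_of_forall_compl_eq_zero fun x hx => by
      rw [m0_zero M (fun h => hx (hs h)), mul_zero]).symm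
  simp only [hz]
  have hm := continuous_m0 M hf
  refine tendsto_integral_of_L1 _
    (hm.comp_aestronglyMeasurable (aestronglyMeasurable_id.prodMk hG.1))
    (Eventually.of_forall fun i => ?_) ?_
  · exact ((hm.comp (continuous_id.prodMk (hg i))).continuousOn.integrableOn_compact
      (isCompact_closedBall c a)).mono_set ball_subset_closedBall
  have hGm : AEMeasurable (fun x => ‖G x‖ₑ) (volume.restrict (ball c a)) := hG.1.enorm
  have hd : ∀ i, AEMeasurable (fun x => ‖g i x - G x‖ₑ) (volume.restrict (ball c a)) :=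
    fun i => ((hg i).aestronglyMeasurable.sub hG.1).enorm
  have hG2 : ∫⁻ x in ball c a, ‖G x‖ₑ ^ 2 < ⊤ := by
    have h := lintegral_rpow_enorm_lt_top_of_eLpNorm_lt_top two_ne_zero ENNReal.ofNat_ne_top hG.2
    simpa only [ENNReal.toReal_ofNat, ENNReal.rpow_two] using h
  have hN : (∫⁻ x in ball c a, ‖G x‖ₑ ^ 2) ^ (1 / 2 : ℝ) ≠ ⊤ :=
    ENNReal.rpow_ne_top_of_nonneg (by norm_num) hG2.ne
  have h1 : Tendsto (fun i => (∫⁻ x in ball c a, ‖g i x - G x‖ₑ ^ 2) ^ (1 / 2 : ℝ)) atTop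
      (𝓝 0) := by
    have h := (ENNReal.continuous_rpow_const (y := (1 / 2 : ℝ))).tendsto 0
    rw [ENNReal.zero_rpow_of_pos (by norm_num)] at h
    exact h.comp hl
  have h2 := ENNReal.Tendsto.mul_const h1 (Or.inr hN)
  have h3 := ENNReal.Tendsto.const_mul (a := 2) h2 (Or.inr ENNReal.ofNat_ne_top)
  have h4 := ENNReal.Tendsto.const_mul (a := ENNReal.ofReal C) (hl.add h3)
    (Or.inr ENNReal.ofReal_ne_top)
  simp only [zero_mul, mul_zero, add_zero] at h4
  refine tendsto_of_tendsto_of_tendsto_of_le_of_le tendsto_const_nhds h4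
    (fun _ => zero_le) fun i => ?_
  refine (lintegral_mono fun x => lim_aux1 hC (hlip x (g i x) (G x))).trans ?_
  rw [lintegral_const_mul' _ _ ENNReal.ofReal_ne_top, lintegral_add_left' ((hd i).pow_const 2),
    lintegral_const_mul' _ _ ENNReal.ofNat_ne_top]
  gcongr
  exact lim_aux2 (hd i) hGm

theorem ma_est (M : Model) : ∃ r0 : ℝ, 0 < r0 ∧ ∀ (c : E) (r B : ℝ), 0 < r → r ≤ r0 →
    ∃ C : ℝ≥0, ∀ (J : E → E →L[ℝ] E) (Ω : Set E) (v : E → ℝ) (G : E → E →L[ℝ] ℝ) (μ : Measure E)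
      (V : ℕ → E → ℝ) (U : E → ℝ), IsOpen Ω → ball c (10 * r) ⊆ Ω →
      (∀ x ∈ ball c (10 * r), M.J x = J x) → IsWeakGrad Ω v G → IsMA J Ω G μ →
      (∀ i, ContDiff ℝ ∞ (V i) ∧ Psh M.J (V i) (ball c (10 * r))) →
      (∀ i, ∀ x ∈ ball c (10 * r), v x ≤ V i x ∧ |V i x| ≤ B) →
      (∀ x ∈ ball c (10 * r), Tendsto (fun i => V i x) atTop (𝓝 (v x))) →
      ContDiff ℝ ∞ U → Psh M.J U (ball c (10 * r)) → (∀ x ∈ ball c (10 * r), U x ≤ 0) →
      ∫⁻ x in ball c (r / 4), ‖U x‖ₑ ∂μ ≤ C * nU c (10 * r) U := by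
  obtain ⟨r0, hr0, hcore⟩ := core2 M
  refine ⟨r0, hr0, fun c r B hr hrr => ?_⟩
  obtain ⟨C, hC⟩ := hcore c r (B + B) hr hrr
  obtain ⟨ε, -, -, hpos, hd⟩ := M.dens_facts
  obtain ⟨D, hD⟩ := (isCompact_closedBall c r).exists_bound_of_continuousOn
    hd.continuous.continuousOn
  have hD0 : 0 ≤ D := (norm_nonneg _).trans (hD c (mem_closedBall_self hr.le))
  refine ⟨(4 * D).toNNReal * C, ?_⟩
  intro J Ω v G μ V U hΩ hsub hJ hG hμ hV hB hl hU hUp hU0
  let χ : ContDiffBump c := ⟨r / 4, r / 3, by positivity, by linarith⟩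
  let f : E → ℝ := fun x => χ x * -U x
  have hf : ContDiff ℝ ∞ f := χ.contDiff.mul hU.neg
  have hts : tsupport f ⊆ ball c (r / 2) := by
    refine (tsupport_mul_subset_left (f := fun x => χ x) (g := fun x => -U x)).trans ?_
    rw [χ.tsupport_eq]
    exact closedBall_subset_ball (by change r / 3 < r / 2; linarith)
  have hb : ball c (r / 2) ⊆ ball c (10 * r) := ball_subset_ball (by linarith)
  have hc : HasCompactSupport f := χ.hasCompactSupport.mul_right
  have hf0 : ∀ x, 0 ≤ f x := fun x => by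
    by_cases hx : x ∈ tsupport f
    · exact mul_nonneg χ.nonneg (neg_nonneg.2 (hU0 x (hb (hts hx))))
    · exact (image_eq_zero_of_notMem_tsupport hx).ge
  have hf2 : ContDiff ℝ 2 f := contDiff_infty.1 hf 2
  have hf3 : ContDiff ℝ 3 f := contDiff_infty.1 hf 3
  have hsΩ : tsupport f ⊆ Ω := hts.trans (hb.trans hsub)
  -- the pairing
  have hpair : ∫ x, f x ∂μ = ∫ x, dens M x * m0 M f x (G x) := by
    have h1 := hμ.2 f ⟨hf, hc, hsΩ⟩
    have h2 : ∀ x, (orient (J x) : ℂ) * maDens J f x (G x) (G x) =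
        ((dens M x * m0 M f x (G x) : ℝ) : ℂ) := fun x => by
      by_cases hx : x ∈ tsupport f
      · have hx' := hb (hts hx)
        have he : J =ᶠ[𝓝 x] M.J :=
          Filter.eventually_of_mem (isOpen_ball.mem_nhds hx') fun y hy => (hJ y hy).symm
        rw [maDens_congr he, ← hJ x hx', ma_pt M hf2]
      · rw [maDens_zero J hx, m0_zero M hx]
        simp
    simp only [maPair, h2] at h1
    rw [integral_complex_ofReal, setIntegral_eq_integral_of_forall_compl_eq_zero fun x hx => by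
      rw [m0_zero M (fun h => hx (hsΩ h)), mul_zero]] at h1
    exact_mod_cast h1
  -- the limit
  have hG2 : MemLp G 2 (volume.restrict (ball c (r / 2))) :=
    (hG.1 (closedBall c (r / 2)) (isCompact_closedBall _ _)
      ((closedBall_subset_ball (by linarith)).trans hsub)).mono_measure
      (Measure.restrict_mono ball_subset_closedBall le_rfl)
  have hw := w12 M hΩ hG (a := r / 2) (b := 10 * r) (by positivity) (by linarith) hsub hV hB hl
  have hlim := m0_lim M hf2 hts hG2 (g := fun i => fderiv ℝ (V i))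
    (fun i => (hV i).1.continuous_fderiv (by simp)) hw
  -- the uniform bound
  have hbd : ∀ i, ENNReal.ofReal (∫ x, dens M x * m0 M f x (fderiv ℝ (V i) x)) ≤
      (((4 * D).toNNReal * C : ℝ≥0) : ℝ≥0∞) * nU c (10 * r) U := fun i => by
    have hV3 : ContDiff ℝ 3 (V i) := contDiff_infty.1 (hV i).1 3
    have hW : VOK M c (10 * r) (B + B) fun y => V i y + B :=
      ⟨hV3.add contDiff_const, fun x hx Y => by
        rw [levi_add_const]
        exact (hV i).2 x hx Y,
        fun x hx => by linarith [(abs_le.1 (hB i x hx).2).1],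
        fun x hx => by linarith [(abs_le.1 (hB i x hx).2).2]⟩
    have h1 := hC U _ ⟨contDiff_infty.1 hU 3, hUp⟩ hU0 hW
    have hH : ∀ x, H M (fun y => V i y + B) x = H M (V i) x := fun x =>
      H_congr M B (Filter.EventuallyEq.refl _ _)
    simp only [eD, hH] at h1
    rw [i1 M hf3 hc hV3, ← setIntegral_eq_integral_of_forall_compl_eq_zero (s := ball c (r / 2))
      fun x hx => by rw [image_eq_zero_of_notMem_tsupport fun h => hx (hts h)]; simp]
    refine (Real.ofReal_le_enorm _).trans ((enorm_integral_le_lintegral_enorm _).trans ?_)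
    rw [ENNReal.coe_mul, mul_assoc]
    refine le_trans ?_ (mul_le_mul_right h1 _)
    rw [← lintegral_const_mul' _ _ ENNReal.coe_ne_top]
    refine setLIntegral_mono' measurableSet_ball fun x hx => ?_
    have hp := psd_H M (hV i).2 (hb hx)
    have hDd := hp.Dd_nonneg hp
    have hdx : dens M x ≤ D := (le_abs_self _).trans
      (hD x (ball_subset_closedBall (ball_subset_ball (by linarith) hx)))
    have hfx : f x ≤ |U x| := by
      have h2 : χ x * -U x ≤ 1 * -U x :=
        mul_le_mul_of_nonneg_right χ.le_one (neg_nonneg.2 (hU0 x (hb hx)))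
      exact h2.trans ((one_mul _).trans_le (neg_le_abs _))
    have h3 : 0 ≤ dens M x * (4 * (f x * Dd (H M (V i) x) (H M (V i) x))) :=
      mul_nonneg (hpos x).le (mul_nonneg (by norm_num) (mul_nonneg (hf0 x) hDd))
    rw [Real.enorm_eq_ofReal h3, Real.enorm_eq_ofReal_abs, ← ENNReal.ofReal_mul (abs_nonneg _)]
    change _ ≤ ENNReal.ofReal (4 * D) * _
    rw [← ENNReal.ofReal_mul (by positivity)]
    refine ENNReal.ofReal_le_ofReal ?_
    have h4 := mul_le_mul hdx (mul_le_mul_of_nonneg_right hfx hDd) (mul_nonneg (hf0 x) hDd) hD0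
    linarith
  have hle := le_of_tendsto' (ENNReal.tendsto_ofReal hlim) hbd
  refine le_trans ?_ hle
  have hint : Integrable f μ := by
    rw [← integrableOn_iff_integrable_of_support_subset (subset_tsupport f)]
    obtain ⟨R, hR⟩ := hc.isCompact.exists_bound_of_continuousOn hf.continuous.continuousOn
    exact Measure.integrableOn_of_bounded (hμ.1 _ hc.isCompact hsΩ).ne
      hf.continuous.aestronglyMeasurable
      (ae_restrict_of_forall_mem (isClosed_tsupport f).measurableSet hR)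
  rw [← hpair, ofReal_integral_eq_lintegral_ofReal hint (Eventually.of_forall hf0)]
  refine le_trans (setLIntegral_mono' measurableSet_ball fun x hx => ?_)
    (setLIntegral_le_lintegral (ball c (r / 4)) _)
  have h1 : χ x = 1 := χ.one_of_mem_closedBall (ball_subset_closedBall hx)
  have h2 : U x ≤ 0 := hU0 x (ball_subset_ball (by linarith) hx)
  simp only [f, h1, one_mul]
  rw [Real.enorm_eq_ofReal_abs, abs_of_nonpos h2]

end Pool.Agent.Lib.MP_f2cf74_an
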