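import Pool.Agent.Lib.MP_f2cf74_an.MaLim
import Pool.Agent.Lib.MP_f2cf74_an.ExG2
import Pool.Agent.Lib.MP_f2cf74_an.ModE

open Set Metric MeasureTheory Complex Filter Topology
open scoped ContDiff ENNReal NNReal

noncomputable section

namespace Pool.Agent.Lib.MP_f2cf74_an

/-! From local to global test functions.  `maDens` is additive in the smooth function `f` at
points where `J` is differentiable (use `ma_pt` in a model near the point, or additivity of
`fderiv`).  Shrink the radii so that a model exists on each ball (`exists_model`), `test_split`,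
`maPair_eq`, `m0_integrable`, `integral_finset_sum`. -/

theorem maLoc_add (M : Model) {f f' : E → ℝ} (hf : ContDiff ℝ 2 f) (hf' : ContDiff ℝ 2 f') (x : E)
    (g : E →L[ℝ] ℝ) : m0 M (fun y => f y + f' y) x g = m0 M f x g + m0 M f' x g := by
  have h1 : fderiv ℝ (fun y => f y + f' y) = fun y => fderiv ℝ f y + fderiv ℝ f' y := funext fun y =>
    fderiv_fun_add (hf.differentiable (by simp) y) (hf'.differentiable (by simp) y)
  have h2 : fderiv ℝ (fun y => fderiv ℝ f y + fderiv ℝ f' y) x =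
      fderiv ℝ (fderiv ℝ f) x + fderiv ℝ (fderiv ℝ f') x :=
    fderiv_fun_add ((hf.fderiv_right (m := 1) (by norm_num)).differentiable (by simp) x)
      ((hf'.fderiv_right (m := 1) (by norm_num)).differentiable (by simp) x)
  simp only [m0, top22, w11, Om, Lb, Lg, h1, h2]
  simp
  ring

theorem maLoc_sum (M : Model) (t : Finset E) {f : E → E → ℝ} (hf : ∀ c ∈ t, ContDiff ℝ 2 (f c))
    (x : E) (g : E →L[ℝ] ℝ) :
    m0 M (fun y => ∑ c ∈ t, f c y) x g = ∑ c ∈ t, m0 M (f c) x g := by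
  classical
  induction t using Finset.induction_on with
  | empty =>
    simp only [Finset.sum_empty]
    exact m0_zero M (by simp [tsupport]) g
  | insert c t hc ih =>
    simp only [Finset.sum_insert hc]
    rw [maLoc_add M (hf c (Finset.mem_insert_self _ _))
      (ContDiff.sum fun d hd => hf d (Finset.mem_insert_of_mem hd)),
      ih fun d hd => hf d (Finset.mem_insert_of_mem hd)]

theorem maLoc_dens {J : E → E →L[ℝ] E} {Ω : Set E} (hΩ : IsOpen Ω) (hJ : IsACS J Ω) (t : Finset E)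
    {f : E → E → ℝ} (hf : ∀ c ∈ t, ContDiff ℝ 2 (f c)) {x : E} (hx : x ∈ Ω) (g : E →L[ℝ] ℝ) :
    (orient (J x) : ℂ) * maDens J (fun y => ∑ c ∈ t, f c y) x g g =
      ∑ c ∈ t, (orient (J x) : ℂ) * maDens J (f c) x g g := by
  obtain ⟨M, R, hR, -, hM⟩ := exists_model hΩ hJ hx
  have h1 : J =ᶠ[𝓝 x] M.J :=
    Filter.eventually_of_mem (ball_mem_nhds x hR) fun y hy => (hM y hy).symm
  simp only [maDens_congr h1]
  rw [h1.eq_of_nhds, ma_pt M (ContDiff.sum hf), maLoc_sum M t hf, Finset.mul_sum, ofReal_sum]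
  exact Finset.sum_congr rfl fun c hc => (ma_pt M (hf c hc) x g).symm

theorem ma_local {J : E → E →L[ℝ] E} {Ω : Set E} (hΩ : IsOpen Ω) (hJ : IsACS J Ω)
    {G : E → E →L[ℝ] ℝ} (hG : ∀ K, IsCompact K → K ⊆ Ω → MemLp G 2 (volume.restrict K))
    {U : Set E} (hUΩ : U ⊆ Ω) {ν : Measure E} (hν : ∀ K, IsCompact K → K ⊆ U → ν K < ⊤)
    (h : ∀ c ∈ U, ∃ r > 0, ∀ f, IsTest (ball c r ∩ U) f →
      ((∫ x, f x ∂ν : ℝ) : ℂ) = maPair J Ω G G f) {f : E → ℝ} (hf : IsTest U f) :
    ((∫ x, f x ∂ν : ℝ) : ℂ) = maPair J Ω G G f := by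
  have key : ∀ c ∈ U, ∃ r > 0, ∀ f, IsTest (ball c r ∩ U) f →
      ((∫ x, f x ∂ν : ℝ) : ℂ) = maPair J Ω G G f ∧
        Integrable fun x => (orient (J x) : ℂ) * maDens J f x (G x) (G x) := by
    intro c hc
    obtain ⟨r, hr, h1⟩ := h c hc
    obtain ⟨M, R, hR, hb, hM⟩ := exists_model hΩ hJ (hUΩ hc)
    refine ⟨min r R, lt_min hr hR, fun f hf => ⟨h1 f ⟨hf.1, hf.2.1, hf.2.2.trans
      (inter_subset_inter_left _ (ball_subset_ball (min_le_left _ _)))⟩, ?_⟩⟩
    have h2 : IsTest (ball c R) f := ⟨hf.1, hf.2.1, hf.2.2.trans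
      (inter_subset_left.trans (ball_subset_ball (min_le_right _ _)))⟩
    rw [funext (maPair_eq M hΩ (G := G) hb hM h2).1]
    exact (m0_integrable M (contDiff_infty.1 hf.1 2) hf.2.1
      (hG _ hf.2.1.isCompact (h2.2.2.trans hb))).ofReal
  choose! r hr hkey using key
  obtain ⟨t, g, ht, hg, hfg⟩ := test_split hf r hr
  have hint : ∀ c ∈ t, Integrable (g c) ν := by
    intro c hc
    obtain ⟨h1, h2, h3⟩ := hg c hc
    obtain ⟨C, hC⟩ := h1.continuous.bounded_above_of_compact_support h2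
    refine (integrableOn_iff_integrable_of_support_subset (subset_tsupport _)).1 ?_
    exact Measure.integrableOn_of_bounded (hν _ h2.isCompact (h3.trans inter_subset_right)).ne
      h1.continuous.aestronglyMeasurable (Filter.Eventually.of_forall hC)
  have h2 : ∀ c ∈ t, ContDiff ℝ 2 (g c) := fun c hc => contDiff_infty.1 (hg c hc).1 2
  rw [show f = fun y => ∑ c ∈ t, g c y from funext hfg, integral_finsetSum t hint, ofReal_sum,
    maPair, setIntegral_congr_fun hΩ.measurableSet fun x hx => maLoc_dens hΩ hJ t h2 hx (G x),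
    integral_finsetSum t fun c hc => (hkey c (ht c hc) _ (hg c hc)).2.integrableOn]
  exact Finset.sum_congr rfl fun c hc => (hkey c (ht c hc) _ (hg c hc)).1

end Pool.Agent.Lib.MP_f2cf74_an
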