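import Pool.Agent.Lib.MP_f2cf74_an.AlgB

open Set Metric MeasureTheory Complex Filter Topology
open scoped ContDiff ENNReal NNReal

noncomputable section

namespace Pool.Agent.Lib.MP_f2cf74_an

/-! Normal forms of the statement-level operators in the frame; `a j Y = M.A x Y j`.
First compute `d1 (fun y => pr1 (J y) s α) x Y Z = s / 2 * (α (DJ Y Z) - α (DJ Z Y))` for `α`
real-linear.  Both sides of each identity are real bilinear (linear), so it is enough to check them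
on `Bv z`, `Bv w` (`Model.Bv_A`), or to use `alt_frame`; `Model.DJ_anti`, `sigg_eq`, `sig_Om`.
`orient_eq`: `kf` is `J`-invariant with positive definite `hm`; `top22_det`, `top22_frame`. -/

theorem mapt1_g (M : Model) (x : E) (g : E →L[ℝ] ℝ) (Y : E) :
    g Y = ∑ j, ((M.A x Y j).re * g (M.X j) + (M.A x Y j).im * g (M.J x (M.X j))) := by
  conv_lhs => rw [M.span x Y]
  simp only [map_sum, map_add, map_smul, smul_eq_mul]

theorem mapt1_gJ (M : Model) (x : E) (g : E →L[ℝ] ℝ) (Y : E) :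
    g (M.J x Y) = ∑ j, (-(M.A x Y j).im * g (M.X j) + (M.A x Y j).re * g (M.J x (M.X j))) := by
  rw [mapt1_g M x g (M.J x Y), M.AJ]
  simp

theorem p10_cx (M : Model) (x : E) (g : E →L[ℝ] ℝ) (Y : E) :
    p10 (M.J x) (cx g) Y = ∑ j, M.A x Y j * (starRingEnd ℂ) (Lg M j x g) := by
  simp only [p10, pr1, cx, Lg]
  rw [mapt1_gJ M x g Y, mapt1_g M x g Y]
  apply Complex.ext <;> simp [Fin.sum_univ_two, map_ofNat] <;> ring

theorem p01_cx (M : Model) (x : E) (g : E →L[ℝ] ℝ) (Y : E) :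
    p01 (M.J x) (cx g) Y = ∑ j, (starRingEnd ℂ) (M.A x Y j) * Lg M j x g := by
  simp only [p01, pr1, cx, Lg]
  rw [mapt1_gJ M x g Y, mapt1_g M x g Y]
  apply Complex.ext <;> simp [Fin.sum_univ_two] <;> ring

theorem mapt1_vals (M : Model) (x : E) {Φ : E → E → ℝ} (hΦ : IsAlt Φ) (Y Z : E) {u η : ℂ}
    (hu : u = sig Φ (M.J x) M.X * (M.A x Y 0 * M.A x Z 1 - M.A x Y 1 * M.A x Z 0))
    (hη : η = ∑ j, ∑ k, M.A x Y j * (starRingEnd ℂ) (M.A x Z k) * hm Φ (M.J x) M.X j k) :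
    Φ Y Z = u.re / 2 - 4 * η.im ∧ Φ Y (M.J x Z) = -u.im / 2 + 4 * η.re ∧
      Φ (M.J x Y) Z = -u.im / 2 - 4 * η.re ∧ Φ (M.J x Y) (M.J x Z) = -u.re / 2 - 4 * η.im := by
  have h := fun Y Z => alt_frame hΦ (M.J x) M.X (M.A x Y) (M.A x Z)
  simp only [M.Bv_A] at h
  subst hu hη
  rw [h Y Z, h Y (M.J x Z), h (M.J x Y) Z, h (M.J x Y) (M.J x Z), M.AJ, M.AJ]
  generalize sig Φ (M.J x) M.X = σ
  generalize hm Φ (M.J x) M.X = α
  refine ⟨rfl, ?_, ?_, ?_⟩ <;> simp [Fin.sum_univ_two] <;> ring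

theorem mapt1_p20 (M : Model) (x : E) {Φ : E → E → ℝ} (hΦ : IsAlt Φ) (Y Z : E) :
    p20 (M.J x) (fun Y Z => (Φ Y Z : ℂ)) Y Z =
      sig Φ (M.J x) M.X * (M.A x Y 0 * M.A x Z 1 - M.A x Y 1 * M.A x Z 0) / 4 := by
  obtain ⟨h1, h2, h3, h4⟩ := mapt1_vals M x hΦ Y Z rfl rfl
  simp only [p20, pr2, pr1, h1, h2, h3, h4]
  generalize sig Φ (M.J x) M.X * _ = u
  generalize ∑ j, ∑ k, M.A x Y j * (starRingEnd ℂ) (M.A x Z k) * hm Φ (M.J x) M.X j k = η
  apply Complex.ext <;> simp <;> ring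

theorem mapt1_p02 (M : Model) (x : E) {Φ : E → E → ℝ} (hΦ : IsAlt Φ) (Y Z : E) :
    p02 (M.J x) (fun Y Z => (Φ Y Z : ℂ)) Y Z = (starRingEnd ℂ)
      (sig Φ (M.J x) M.X * (M.A x Y 0 * M.A x Z 1 - M.A x Y 1 * M.A x Z 0)) / 4 := by
  obtain ⟨h1, h2, h3, h4⟩ := mapt1_vals M x hΦ Y Z rfl rfl
  simp only [p02, pr2, pr1, h1, h2, h3, h4]
  generalize sig Φ (M.J x) M.X * _ = u
  generalize ∑ j, ∑ k, M.A x Y j * (starRingEnd ℂ) (M.A x Z k) * hm Φ (M.J x) M.X j k = η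
  apply Complex.ext <;> simp <;> ring

theorem mapt1_p11 (M : Model) (x : E) {Φ : E → E → ℝ} (hΦ : IsAlt Φ) (Y Z : E) :
    p11 (M.J x) (fun Y Z => (Φ Y Z : ℂ)) Y Z = -4 *
      (∑ j, ∑ k, M.A x Y j * (starRingEnd ℂ) (M.A x Z k) * hm Φ (M.J x) M.X j k).im := by
  obtain ⟨h1, h2, h3, h4⟩ := mapt1_vals M x hΦ Y Z rfl rfl
  simp only [p11, Pi.add_apply, pr2, pr1, h1, h2, h3, h4]
  generalize sig Φ (M.J x) M.X * _ = u
  generalize ∑ j, ∑ k, M.A x Y j * (starRingEnd ℂ) (M.A x Z k) * hm Φ (M.J x) M.X j k = η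
  apply Complex.ext <;> simp <;> ring

/-- The antisymmetrised derivative of `J`, tested against `g`. -/
def mapt1F (M : Model) (x : E) (g : E →L[ℝ] ℝ) (Y Z : E) : ℝ :=
  g (fderiv ℝ M.J x Y Z) - g (fderiv ℝ M.J x Z Y)

theorem mapt1_alt (M : Model) (x : E) (g : E →L[ℝ] ℝ) : IsAlt (mapt1F M x g) :=
  ⟨fun Y Y' Z => by simp only [mapt1F, map_add, add_apply]; ring,
    fun c Y Z => by simp only [mapt1F, map_smul, smul_apply, smul_eq_mul]; ring,
    fun Y Z => by simp only [mapt1F]; ring⟩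

theorem mapt1_sig (M : Model) (x : E) (g : E →L[ℝ] ℝ) :
    sig (mapt1F M x g) (M.J x) M.X = -sigg M x g := by
  have h : ∀ U Y, fderiv ℝ M.J x U Y = M.J x (fderiv ℝ M.J x U (M.J x Y)) := fun U Y => by
    rw [M.DJ_anti, map_neg, M.JJ, neg_neg]
  simp only [sig, sigg, mapt1F, Nij, map_add, map_sub, map_neg]
  rw [← h, ← h, M.DJ_anti x (M.X 0), M.DJ_anti x (M.X 1), map_neg, map_neg]
  push_cast
  ring

theorem mapt1_sig' (M : Model) (x : E) (g : E →L[ℝ] ℝ) :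
    sig (mapt1F M x (g ∘L M.J x)) (M.J x) M.X = I * sigg M x g := by
  rw [mapt1_sig]
  simp only [sigg, ContinuousLinearMap.comp_apply, M.JJ, map_neg]
  push_cast
  linear_combination (-(g (M.J x (Nij M x)) : ℂ)) * I_mul_I

theorem mapt1_derJ (M : Model) (x Z : E) :
    HasFDerivAt (fun y => M.J y Z) ((fderiv ℝ M.J x).flip Z) x := by
  have h := ((M.smJ.differentiable (by simp)) x).hasFDerivAt.clm_apply (hasFDerivAt_const Z x)
  simpa using h

theorem mapt1_d1 (M : Model) (x : E) (g : E →L[ℝ] ℝ) (s t : ℂ) :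
    d1 (fun y => pr1 (M.J y) s (pr1 (M.J x) t (cx g))) x =
      fun Y Z => s / 4 * ((mapt1F M x g Y Z : ℂ) + t * (mapt1F M x (g ∘L M.J x) Y Z : ℂ)) := by
  have h0 : ∀ (g : E →L[ℝ] ℝ) (Z : E), HasFDerivAt (fun y => (g (M.J y Z) : ℂ))
      ((ofRealCLM ∘L g) ∘L (fderiv ℝ M.J x).flip Z) x := fun g Z =>
    (ofRealCLM ∘L g).hasFDerivAt.comp x (mapt1_derJ M x Z)
  have h : ∀ Y Z, fderiv ℝ (fun y => pr1 (M.J y) s (pr1 (M.J x) t (cx g)) Z) x Y =
      s / 4 * ((g (fderiv ℝ M.J x Y Z) : ℂ) + t * (g (M.J x (fderiv ℝ M.J x Y Z)) : ℂ)) := by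
    intro Y Z
    have e : (fun y => pr1 (M.J y) s (pr1 (M.J x) t (cx g)) Z) = fun y =>
        pr1 (M.J x) t (cx g) Z / 2 +
          s / 4 * ((g (M.J y Z) : ℂ) + t * ((g ∘L M.J x) (M.J y Z) : ℂ)) := by
      funext y
      simp only [pr1, cx, ContinuousLinearMap.comp_apply]
      ring
    have h3 := (((h0 g Z).add ((h0 (g ∘L M.J x) Z).const_mul t)).const_mul (s / 4)).const_add
      (pr1 (M.J x) t (cx g) Z / 2)
    rw [e]
    refine (congrArg (fun L : E →L[ℝ] ℂ => L Y) h3.fderiv).trans ?_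
    simp [mul_add]
  funext Y Z
  simp only [d1, h, mapt1F, ContinuousLinearMap.comp_apply]
  push_cast
  ring

theorem theta1_cx (M : Model) (x : E) (g : E →L[ℝ] ℝ) (Y Z : E) :
    theta1 M.J x (p01 (M.J x) (cx g)) Y Z =
      I * sigg M x g / 8 * (M.A x Y 0 * M.A x Z 1 - M.A x Y 1 * M.A x Z 0) := by
  have h1 := mapt1_p20 M x (mapt1_alt M x g) Y Z
  have h2 := mapt1_p20 M x (mapt1_alt M x (g ∘L M.J x)) Y Z
  rw [mapt1_sig] at h1
  rw [mapt1_sig'] at h2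
  simp only [theta1, p01, mapt1_d1, Pi.neg_apply]
  simp only [p20, pr2, pr1] at h1 h2 ⊢
  linear_combination (-I / 4) * h1 - (I * I / 4) * h2 - (I / 16 * sigg M x g *
    (M.A x Y 0 * M.A x Z 1 - M.A x Y 1 * M.A x Z 0)) * I_mul_I

theorem thetaBar_cx (M : Model) (x : E) (g : E →L[ℝ] ℝ) (Y Z : E) :
    thetaBar M.J x (p10 (M.J x) (cx g)) Y Z =
      (starRingEnd ℂ) (I * sigg M x g / 8 * (M.A x Y 0 * M.A x Z 1 - M.A x Y 1 * M.A x Z 0)) := by
  have h1 := mapt1_p02 M x (mapt1_alt M x g) Y Z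
  have h2 := mapt1_p02 M x (mapt1_alt M x (g ∘L M.J x)) Y Z
  rw [mapt1_sig] at h1
  rw [mapt1_sig'] at h2
  simp only [thetaBar, p10, mapt1_d1, Pi.neg_apply]
  simp only [p02, pr2, pr1] at h1 h2 ⊢
  generalize M.A x Y 0 * M.A x Z 1 - M.A x Y 1 * M.A x Z 0 = w at h1 h2 ⊢
  simp only [map_mul, map_neg, map_div₀, conj_I, map_ofNat] at h1 h2 ⊢
  linear_combination (I / 4) * h1 - (I * I / 4) * h2 + (I / 16 * (starRingEnd ℂ) (sigg M x g) *
    (starRingEnd ℂ) w) * I_mul_I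

theorem ddbar_eq (M : Model) {f : E → ℝ} (hf : ContDiff ℝ 2 f) (x Y Z : E) :
    ddbar M.J f x Y Z = ∑ j, ∑ k, H M f x j k *
      (M.A x Y j * (starRingEnd ℂ) (M.A x Z k) - M.A x Z j * (starRingEnd ℂ) (M.A x Y k)) := by
  have hd : HasFDerivAt (fderiv ℝ f) (fderiv ℝ (fderiv ℝ f) x) x :=
    (((hf.fderiv_right (m := 1) le_rfl).differentiable one_ne_zero) x).hasFDerivAt
  have h : ∀ Y Z, fderiv ℝ (fun y => p01 (M.J y) (cx (fderiv ℝ f y)) Z) x Y =
      1 / 2 * ((fderiv ℝ (fderiv ℝ f) x Y Z : ℂ) + I * ((fderiv ℝ f x (fderiv ℝ M.J x Y Z) +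
        fderiv ℝ (fderiv ℝ f) x Y (M.J x Z) : ℝ) : ℂ)) := by
    intro Y Z
    have e : (fun y => p01 (M.J y) (cx (fderiv ℝ f y)) Z) = fun y =>
        1 / 2 * (ofRealCLM (fderiv ℝ f y Z) + I * ofRealCLM (fderiv ℝ f y (M.J y Z))) := by
      funext y
      simp only [p01, pr1, cx, ofRealCLM_apply]
      ring
    have h1 := ofRealCLM.hasFDerivAt.comp x (hd.clm_apply (hasFDerivAt_const Z x))
    have h2 := ofRealCLM.hasFDerivAt.comp x (hd.clm_apply (mapt1_derJ M x Z))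
    have h3 := (h1.add (h2.const_mul I)).const_mul (1 / 2)
    rw [e]
    refine (congrArg (fun L : E →L[ℝ] ℂ => L Y) h3.fderiv).trans ?_
    simp [mul_add]
  have hs := (hf.contDiffAt (x := x)).isSymmSndFDerivAt (by simp)
  have h1 : d1 (fun y => p01 (M.J y) (cx (fderiv ℝ f y))) x =
      fun Y Z => -I / 2 * (Om M.J f x Y Z : ℂ) := by
    funext Y Z
    simp only [d1, h, Om, hs Y Z]
    push_cast
    ring
  have h2 := mapt1_p11 M x (isAlt_Om M.J f x) Y Z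
  have h3 : ∑ j, ∑ k, H M f x j k * (M.A x Z j * (starRingEnd ℂ) (M.A x Y k)) = (starRingEnd ℂ)
      (∑ j, ∑ k, M.A x Y j * (starRingEnd ℂ) (M.A x Z k) * hm (Om M.J f x) (M.J x) M.X j k) := by
    rw [Finset.sum_comm]
    simp only [map_sum, map_mul, conj_conj, ← hm_herm (isAlt_Om M.J f x), H]
    exact Finset.sum_congr rfl fun _ _ => Finset.sum_congr rfl fun _ _ => by ring
  have h4 : ∑ j, ∑ k, H M f x j k * (M.A x Y j * (starRingEnd ℂ) (M.A x Z k)) =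
      ∑ j, ∑ k, M.A x Y j * (starRingEnd ℂ) (M.A x Z k) * hm (Om M.J f x) (M.J x) M.X j k :=
    Finset.sum_congr rfl fun _ _ => Finset.sum_congr rfl fun _ _ => mul_comm _ _
  simp only [mul_sub, Finset.sum_sub_distrib]
  rw [h3, h4, sub_conj, ddbar, h1]
  simp only [p11, Pi.add_apply, pr2, pr1] at h2 ⊢
  push_cast
  linear_combination (-I / 2) * h2

theorem orient_eq (M : Model) (x : E) :
    orient (M.J x) * (det4 (frame (M.J x) M.X))⁻¹ = dens M x := by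
  have hk : IsAlt (kf (M.J x)) :=
    ⟨fun Y Y' Z => by simp only [kf, map_add, inner_add_left]; ring,
      fun c Y Z => by simp only [kf, map_smul, real_inner_smul_left, smul_eq_mul]; ring,
      fun Y Z => by simp only [kf, real_inner_comm Y, real_inner_comm Z]; ring⟩
  have hp : ∀ z : F, z ≠ 0 → 0 < Hq (hm (kf (M.J x)) (M.J x) M.X) z := fun z hz => by
    have h := hq_hm hk (M.J x) M.X z
    have h0 : Bv (M.J x) M.X z ≠ 0 := fun e => hz (by rw [← M.A_Bv x z, e, map_zero])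
    rw [← M.J_Bv, kf, M.JJ, inner_neg_right] at h
    have h1 := real_inner_self_pos.2 h0
    have h2 := real_inner_self_nonneg (x := M.J x (Bv (M.J x) M.X z))
    linarith
  have hh := hm_herm hk (M.J x) M.X
  have hT := top22_frame hk hk (M.J x) M.X
  rw [top22_det hk hk, smul_eq_mul, mul_conj, ofReal_re] at hT
  generalize hm (kf (M.J x)) (M.J x) M.X = α at hp hh hT
  have h0 : 0 < (α 0 0).re := by
    simpa [Hq, ee, Fin.sum_univ_two] using hp (ee 0) (by simp [ee])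
  have h1 := hp (WithLp.toLp 2 ![-(starRingEnd ℂ) (α 0 1), ((α 0 0).re : ℂ)]) fun e => by
    have := congrArg (fun z : F => z 1) e
    simp [h0.ne'] at this
  have h2 : (α 0 0).im = 0 := conj_eq_iff_im.1 (hh 0 0).symm
  have h3 : 0 < (α 0 0).re * Dd α α := by
    simp [Hq, Fin.sum_univ_two, hh 0 1, h2] at h1
    simp [Dd]
    linarith
  have h4 := (mul_pos_iff_of_pos_left h0).1 h3
  have h5 : 0 < det4 (frame (M.J x) M.X) * top22 (kf (M.J x)) (kf (M.J x)) eb := by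
    linarith [normSq_nonneg (sig (kf (M.J x)) (M.J x) M.X)]
  rw [orient, dens]
  rcases pos_and_pos_or_neg_and_neg_of_mul_pos h5 with ⟨h6, h7⟩ | ⟨h6, h7⟩
  · rw [Real.sign_of_pos h7, abs_of_pos h6, one_mul]
  · rw [Real.sign_of_neg h7, abs_of_neg h6, neg_one_mul, inv_neg]

theorem mapt1_c1 {α β : E → F1} {x : E} (h : α =ᶠ[𝓝 x] β) : d1 α x = d1 β x := by
  have h1 : ∀ Z, fderiv ℝ (fun y => α y Z) x = fderiv ℝ (fun y => β y Z) x := fun Z =>
    EventuallyEq.fderiv_eq (h.mono fun y hy => congrFun hy Z)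
  funext Y Z
  simp only [d1, h1]

theorem mapt1_c2 {α β : E → F2} {x : E} (h : α =ᶠ[𝓝 x] β) : d2 α x = d2 β x := by
  have h1 : ∀ Y Z, fderiv ℝ (fun y => α y Y Z) x = fderiv ℝ (fun y => β y Y Z) x := fun Y Z =>
    EventuallyEq.fderiv_eq (h.mono fun y hy => congrFun (congrFun hy Y) Z)
  funext Y Z U
  simp only [d2, h1]

theorem maDens_congr {J J' : E → E →L[ℝ] E} {x : E} (h : J =ᶠ[𝓝 x] J') (f : E → ℝ)
    (g g' : E →L[ℝ] ℝ) : maDens J f x g g' = maDens J' f x g g' := by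
  have h0 : J x = J' x := h.eq_of_nhds
  have h1 : ∀ α, thetaBar J x α = thetaBar J' x α := fun α => by
    rw [thetaBar, thetaBar, h0, mapt1_c1 (h.mono fun y hy => congrArg (fun L => p10 L α) hy)]
  have h2 : ∀ α, theta1 J x α = theta1 J' x α := fun α => by
    rw [theta1, theta1, h0, mapt1_c1 (h.mono fun y hy => congrArg (fun L => p01 L α) hy)]
  have h3 : ∀ γ, theta2 J x γ = theta2 J' x γ := fun γ => by
    rw [theta2, theta2, h0, mapt1_c2 (h.mono fun y hy => congrArg (fun L => p02 L γ) hy)]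
  have h4 : ddbar J f x = ddbar J' f x := by
    rw [ddbar, ddbar, h0,
      mapt1_c1 (h.mono fun y hy => congrArg (fun L => p01 L (cx (fderiv ℝ f y))) hy)]
  simp only [maDens, h1, h2, h3, h4, h0]

theorem maDens_zero (J : E → E →L[ℝ] E) {f : E → ℝ} {x : E} (hx : x ∉ tsupport f)
    (g g' : E →L[ℝ] ℝ) : maDens J f x g g' = 0 := by
  have h : f =ᶠ[𝓝 x] 0 := notMem_tsupport_iff_eventuallyEq.1 hx
  have h1 : fderiv ℝ f =ᶠ[𝓝 x] fun _ => 0 := h.fderiv.trans (.of_forall fun _ => by simp)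
  have h2 : d1 (fun y => p01 (J y) (cx (fderiv ℝ f y))) x = d1 (fun _ => 0) x :=
    mapt1_c1 (h1.mono fun y hy => by
      funext Y
      simp [p01, pr1, cx, hy])
  have h3 : ddbar J f x = 0 := by
    funext Y Z
    rw [ddbar, h2]
    simp [p11, pr2, pr1, d1]
  simp [maDens, h3, h.eq_of_nhds, h1.eq_of_nhds, top22, w11, p10, p01, pr1, cx]

end Pool.Agent.Lib.MP_f2cf74_an
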