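import Pool.Agent.Lib.MP_f2cf74_an.MaPt1

open Set Metric MeasureTheory Complex Filter Topology
open scoped ContDiff ENNReal NNReal

noncomputable section

namespace Pool.Agent.Lib.MP_f2cf74_an

/-! The term `θ θbar ∂u ∧ ∂bar v`.  For a `(0,2)`-form `γ` at `x` (continuous bilinear),
`D_U (p02 (J y) γ Y Z) = (I / 2) (γ (DJ U Y) Z + γ Y (DJ U Z))`.  Prove the analogue of
`top22_det` for `top31` (trilinear alternating `κ`, linear `β`), evaluate on the frame, where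
`A (X j) = ee j`, `A (J X j) = I • ee j`, `A (DJ U (J X j)) = -I • A (DJ U (X j))`
(`Model.DJ_anti`), and finish by `ring`-type computations (`thetaBar_cx`, `theta1_cx`, `p01_cx`,
`sigg_eq`). -/

/-- Wedge product of a 2-form and a 1-form. -/
def mapt2_w (Φ : F2) (α : F1) : F3 := fun Y Z U => Φ Y Z * α U - Φ Y U * α Z + Φ Z U * α Y

theorem mapt2_pr3 (J0 : E →L[ℝ] E) (s t r : ℂ) (Φ Ψ : F2) (α β : F1) (Y Z U : E) :
    pr3 J0 s t r (mapt2_w Φ α + mapt2_w Ψ β) Y Z U =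
      (pr2 J0 s t Φ Y Z * pr1 J0 r α U - pr2 J0 s r Φ Y U * pr1 J0 t α Z +
        pr2 J0 t r Φ Z U * pr1 J0 s α Y) +
      (pr2 J0 s t Ψ Y Z * pr1 J0 r β U - pr2 J0 s r Ψ Y U * pr1 J0 t β Z +
        pr2 J0 t r Ψ Z U * pr1 J0 s β Y) := by
  simp only [pr3, pr2, pr1, mapt2_w, Pi.add_apply]
  ring

theorem mapt2_pr1 {J0 : E →L[ℝ] E} {α : F1} (h : ∀ Y, α (J0 Y) = -I * α Y) (Y : E) :
    pr1 J0 I α Y = α Y ∧ pr1 J0 (-I) α Y = 0 := by
  simp only [pr1, h]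
  constructor
  · linear_combination (-α Y / 2) * I_mul_I
  · linear_combination (α Y / 2) * I_mul_I

theorem mapt2_p21 {J0 : E →L[ℝ] E} (Φ Ψ : F2) {α β : F1} (hα : ∀ Y, α (J0 Y) = -I * α Y)
    (hβ : ∀ Y, β (J0 Y) = -I * β Y) :
    p21 J0 (mapt2_w Φ α + mapt2_w Ψ β) = mapt2_w (p20 J0 Φ) α + mapt2_w (p20 J0 Ψ) β := by
  funext Y Z U
  simp only [p21, Pi.add_apply, mapt2_pr3, (mapt2_pr1 hα _).1, (mapt2_pr1 hα _).2,
    (mapt2_pr1 hβ _).1, (mapt2_pr1 hβ _).2, mapt2_w, p20]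
  ring

theorem mapt2_der {J : E → E →L[ℝ] E} {x : E} (hJ : DifferentiableAt ℝ J x) (b : E →L[ℝ] ℂ)
    (Y : E) : HasFDerivAt (fun y => b Y + I * b (J y Y))
      (I • (b.comp ((fderiv ℝ J x).flip Y))) x := by
  have h1 : HasFDerivAt (fun y => J y Y) ((fderiv ℝ J x).flip Y) x := by
    have := hJ.hasFDerivAt.clm_apply (hasFDerivAt_const Y x)
    simpa using this
  exact ((b.hasFDerivAt.comp x h1).const_mul I).const_add _

theorem mapt2_main {J : E → E →L[ℝ] E} {x : E} (hJ : DifferentiableAt ℝ J x)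
    (b0 b1 : E →L[ℝ] ℂ) (h0 : ∀ Y, b0 (J x Y) = -I * b0 Y) (h1 : ∀ Y, b1 (J x Y) = -I * b1 Y)
    (c L0 L1 : ℂ) (v : Fin 4 → E) :
    top31 (theta2 J x fun Y Z => c * (b0 Y * b1 Z - b1 Y * b0 Z))
        (fun Y => b0 Y * L0 + b1 Y * L1) v =
      -top22 (theta1 J x fun Y => b0 Y * L0 + b1 Y * L1)
        (fun Y Z => c * (b0 Y * b1 Z - b1 Y * b0 Z)) v := by
  have e0 : ∀ Y, b0 Y + I * b0 (J x Y) = 2 * b0 Y := fun Y => by
    rw [h0]; linear_combination (-b0 Y) * I_mul_I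
  have e1 : ∀ Y, b1 Y + I * b1 (J x Y) = 2 * b1 Y := fun Y => by
    rw [h1]; linear_combination (-b1 Y) * I_mul_I
  have k1 : ∀ Z U, fderiv ℝ (fun y => p01 (J y) (fun Y => b0 Y * L0 + b1 Y * L1) Z) x U =
      I / 2 * (b0 (fderiv ℝ J x U Z) * L0 + b1 (fderiv ℝ J x U Z) * L1) := by
    intro Z U
    have e : (fun y => p01 (J y) (fun Y => b0 Y * L0 + b1 Y * L1) Z) = fun y =>
        L0 / 2 * (b0 Z + I * b0 (J y Z)) + L1 / 2 * (b1 Z + I * b1 (J y Z)) := by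
      funext y
      simp only [p01, pr1]
      ring
    have h := ((mapt2_der hJ b0 Z).const_mul (L0 / 2)).fun_add
      ((mapt2_der hJ b1 Z).const_mul (L1 / 2))
    rw [e, h.fderiv]
    simp
    ring
  have k2 : ∀ Y Z U, fderiv ℝ (fun y => p02 (J y)
      (fun Y Z => c * (b0 Y * b1 Z - b1 Y * b0 Z)) Y Z) x U =
      I * c / 2 * (b0 (fderiv ℝ J x U Y) * b1 Z + b0 Y * b1 (fderiv ℝ J x U Z) -
        b1 (fderiv ℝ J x U Y) * b0 Z - b1 Y * b0 (fderiv ℝ J x U Z)) := by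
    intro Y Z U
    have e : (fun y => p02 (J y) (fun Y Z => c * (b0 Y * b1 Z - b1 Y * b0 Z)) Y Z) = fun y =>
        c / 4 * ((b0 Y + I * b0 (J y Y)) * (b1 Z + I * b1 (J y Z)) -
          (b1 Y + I * b1 (J y Y)) * (b0 Z + I * b0 (J y Z))) := by
      funext y
      simp only [p02, pr2, pr1]
      ring
    have h := (((mapt2_der hJ b0 Y).fun_mul (mapt2_der hJ b1 Z)).fun_sub
      ((mapt2_der hJ b1 Y).fun_mul (mapt2_der hJ b0 Z))).const_mul (c / 4)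
    rw [e, h.fderiv, e0, e0, e1, e1]
    simp
    ring
  have k3 : d2 (fun y => p02 (J y) fun Y Z => c * (b0 Y * b1 Z - b1 Y * b0 Z)) x =
      mapt2_w (fun Y Z => I * c / 2 * (b0 (fderiv ℝ J x Y Z) - b0 (fderiv ℝ J x Z Y))) b1 +
      mapt2_w (fun Y Z => -(I * c / 2) * (b1 (fderiv ℝ J x Y Z) - b1 (fderiv ℝ J x Z Y))) b0 := by
    funext Y Z U
    simp only [d2, k2, mapt2_w, Pi.add_apply]
    ring
  have k4 : d1 (fun y => p01 (J y) fun Y => b0 Y * L0 + b1 Y * L1) x = fun Y Z =>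
      I / 2 * ((b0 (fderiv ℝ J x Y Z) - b0 (fderiv ℝ J x Z Y)) * L0 +
        (b1 (fderiv ℝ J x Y Z) - b1 (fderiv ℝ J x Z Y)) * L1) := by
    funext Y Z
    simp only [d1, k1]
    ring
  have k5 : ∀ (a : ℂ) (Φ : F2) Y Z, p20 (J x) (fun Y Z => a * Φ Y Z) Y Z = a * p20 (J x) Φ Y Z := by
    intro a Φ Y Z
    simp only [p20, pr2, pr1]
    ring
  have k6 : ∀ (Φ Ψ : F2) Y Z, p20 (J x) (fun Y Z => Φ Y Z * L0 + Ψ Y Z * L1) Y Z =
      p20 (J x) Φ Y Z * L0 + p20 (J x) Ψ Y Z * L1 := by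
    intro Φ Ψ Y Z
    simp only [p20, pr2, pr1]
    ring
  rw [theta2, theta1, k3, k4, mapt2_p21 _ _ h1 h0]
  simp only [top31, top22, Pi.neg_apply, Pi.add_apply, mapt2_w, k5, k6]
  ring

theorem theta2_wedge (M : Model) (x : E) (g g' : E →L[ℝ] ℝ) :
    top31 (theta2 M.J x (thetaBar M.J x (p10 (M.J x) (cx g)))) (p01 (M.J x) (cx g')) eb =
      -top22 (theta1 M.J x (p01 (M.J x) (cx g'))) (thetaBar M.J x (p10 (M.J x) (cx g))) eb := by
  let b : Fin 2 → E →L[ℝ] ℂ := fun j => (Complex.conjCLE : ℂ →L[ℝ] ℂ).comp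
    (((EuclideanSpace.proj j : F →L[ℂ] ℂ).restrictScalars ℝ).comp (M.A x))
  have hb : ∀ j Y, b j Y = (starRingEnd ℂ) (M.A x Y j) := fun j Y => rfl
  have hJ : ∀ j Y, b j (M.J x Y) = -I * b j Y := fun j Y => by
    rw [hb, hb, M.AJ]
    simp
  have e1 : thetaBar M.J x (p10 (M.J x) (cx g)) = fun Y Z =>
      (starRingEnd ℂ) (I * sigg M x g / 8) * (b 0 Y * b 1 Z - b 1 Y * b 0 Z) := by
    funext Y Z
    rw [thetaBar_cx, map_mul, map_sub, map_mul _ (M.A x Y 0), map_mul _ (M.A x Y 1), hb, hb, hb, hb]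
  have e2 : p01 (M.J x) (cx g') = fun Y => b 0 Y * Lg M 0 x g' + b 1 Y * Lg M 1 x g' := by
    funext Y
    rw [p01_cx, Fin.sum_univ_two, hb, hb]
  rw [e1, e2]
  exact mapt2_main ((M.smJ.differentiable (by simp)) x) (b 0) (b 1) (hJ 0) (hJ 1) _ _ _ eb

end Pool.Agent.Lib.MP_f2cf74_an
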