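import Pool.Agent.Lib.MP_f2cf74_an.MaPt2
import Pool.Agent.Lib.MP_f2cf74_an.AlgC

open Set Metric MeasureTheory Complex Filter Topology
open scoped ContDiff ENNReal NNReal

noncomputable section

namespace Pool.Agent.Lib.MP_f2cf74_an

/-! The density of the current in the frame (checked numerically).  Rewrite with the normal forms
of `MaPt1`, move each `top22 .. eb` to the frame (`top22_det`, `orient_eq`), `top22_frame`.
`m0_lip`: `m0 M f x` is a quadratic form in `g` with coefficients continuous in `x` and supported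
in `tsupport f`. -/

/-- A complex 2-form given by its coefficients in the frame. -/
def maF (M : Model) (x : E) (p q : ℂ) (h : Fin 2 → Fin 2 → ℂ) : F2 := fun Y Z =>
  p * (M.A x Y 0 * M.A x Z 1 - M.A x Y 1 * M.A x Z 0) +
    q * (starRingEnd ℂ) (M.A x Y 0 * M.A x Z 1 - M.A x Y 1 * M.A x Z 0) +
    ∑ j, ∑ k, h j k *
      (M.A x Y j * (starRingEnd ℂ) (M.A x Z k) - M.A x Z j * (starRingEnd ℂ) (M.A x Y k))

theorem maF_alt (M : Model) (x : E) (p q : ℂ) (h : Fin 2 → Fin 2 → ℂ) : IsAlt (maF M x p q h) := by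
  refine ⟨fun Y Y' Z => ?_, fun c Y Z => ?_, fun Y Z => ?_⟩
  · simp only [maF, Fin.sum_univ_two, map_add, map_sub, map_mul, PiLp.add_apply]
    ring
  · simp only [maF, Fin.sum_univ_two, map_smul, map_sub, map_mul, PiLp.smul_apply,
      Complex.real_smul, Complex.conj_ofReal]
    ring
  · simp only [maF, Fin.sum_univ_two, map_sub, map_mul]
    ring

theorem maF_top (M : Model) (x : E) (p q p' q' : ℂ) (h h' : Fin 2 → Fin 2 → ℂ) :
    (orient (M.J x) : ℂ) * top22 (maF M x p q h) (maF M x p' q' h') eb =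
      dens M x * (4 * (p * q' + q * p') -
        4 * (h 0 0 * h' 1 1 + h 1 1 * h' 0 0 - h 0 1 * h' 1 0 - h 1 0 * h' 0 1)) := by
  obtain ⟨ε, hε, h1, h2, -⟩ := M.dens_facts
  have hd : det4 (frame (M.J x) M.X) ≠ 0 := by
    intro h0
    have h3 := h1 x
    rw [h0, inv_zero] at h3
    have h4 := h2 x
    rcases hε with rfl | rfl <;> linarith
  have hd' : ((det4 (frame (M.J x) M.X) : ℝ) : ℂ) ≠ 0 := ofReal_ne_zero.2 hd
  have h5 := top22_det (maF_alt M x p q h) (maF_alt M x p' q' h') (frame (M.J x) M.X)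
  have h6 : top22 (maF M x p q h) (maF M x p' q' h') (frame (M.J x) M.X) = 4 * (p * q' + q * p') -
      4 * (h 0 0 * h' 1 1 + h 1 1 * h' 0 0 - h 0 1 * h' 1 0 - h 1 0 * h' 0 1) := by
    simp [top22, maF, frame, M.AX, M.AJ, ee]
    linear_combination (-2 * (p * q' + q * p') + 4 * (h 0 0 * h' 1 1 + h 1 1 * h' 0 0) -
      2 * (h 0 1 * h' 1 0 + h 1 0 * h' 0 1) + 2 * (p * p' + q * q' - h 0 1 * h' 0 1 -
        h 1 0 * h' 1 0)) * I_mul_I
  rw [← h6, h5, ← orient_eq, Complex.real_smul]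
  push_cast
  field_simp

theorem ma_pt (M : Model) {f : E → ℝ} (hf : ContDiff ℝ 2 f) (x : E) (g : E →L[ℝ] ℝ) :
    (orient (M.J x) : ℂ) * maDens M.J f x g g = ((dens M x * m0 M f x g : ℝ) : ℂ) := by
  have e1 : ddbar M.J f x = maF M x 0 0 (H M f x) := by
    funext Y Z
    simp [maF, ddbar_eq M hf]
  have e2 : I • w11 (p10 (M.J x) (cx g)) (p01 (M.J x) (cx g)) =
      maF M x 0 0 fun j k => I * ((starRingEnd ℂ) (Lg M j x g) * Lg M k x g) := by
    funext Y Z
    simp only [maF, w11, p10_cx, p01_cx, Fin.sum_univ_two, Pi.smul_apply, smul_eq_mul]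
    ring
  have e3 : w11 (p10 (M.J x) (cx (fderiv ℝ f x))) (p10 (M.J x) (cx g)) =
      maF M x ((starRingEnd ℂ) (Lb M 0 f x * Lg M 1 x g - Lb M 1 f x * Lg M 0 x g)) 0 0 := by
    funext Y Z
    simp only [maF, w11, p10_cx, Fin.sum_univ_two, Lb, map_sub, map_mul, Pi.zero_apply]
    ring
  have e4 : thetaBar M.J x (p10 (M.J x) (cx g)) =
      maF M x 0 ((starRingEnd ℂ) (I * sigg M x g / 8)) 0 := by
    funext Y Z
    rw [thetaBar_cx, map_mul]
    simp only [maF, Fin.sum_univ_two, Pi.zero_apply]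
    ring
  have e5 : theta1 M.J x (p01 (M.J x) (cx g)) = maF M x (I * sigg M x g / 8) 0 0 := by
    funext Y Z
    rw [theta1_cx]
    simp only [maF, Fin.sum_univ_two, Pi.zero_apply]
    ring
  have e6 : w11 (p01 (M.J x) (cx (fderiv ℝ f x))) (p01 (M.J x) (cx g)) =
      maF M x 0 (Lb M 0 f x * Lg M 1 x g - Lb M 1 f x * Lg M 0 x g) 0 := by
    funext Y Z
    simp only [maF, w11, p01_cx, Fin.sum_univ_two, Lb, map_sub, map_mul, Pi.zero_apply]
    ring
  have t1 := maF_top M x 0 0 0 0 (H M f x)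
    fun j k => I * ((starRingEnd ℂ) (Lg M j x g) * Lg M k x g)
  have t2 := maF_top M x ((starRingEnd ℂ) (Lb M 0 f x * Lg M 1 x g - Lb M 1 f x * Lg M 0 x g)) 0
    0 ((starRingEnd ℂ) (I * sigg M x g / 8)) 0 0
  have t3 := maF_top M x (I * sigg M x g / 8) 0 0
    (Lb M 0 f x * Lg M 1 x g - Lb M 1 f x * Lg M 0 x g) 0 0
  have t4 := maF_top M x (I * sigg M x g / 8) 0 0 ((starRingEnd ℂ) (I * sigg M x g / 8)) 0 0
  have hA : IsAlt (w11 g fun Y => -g (M.J x Y)) :=
    isAlt_w11 (map_add g) (map_smul g) (fun Y Z => by simp; ring) (fun c Y => by simp)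
  have a1 : sig (w11 g fun Y => -g (M.J x Y)) (M.J x) M.X = 0 := by
    simp [sig, w11, M.JJ]
    ring
  have a2 : ∀ j k, hm (w11 g fun Y => -g (M.J x Y)) (M.J x) M.X j k =
      (starRingEnd ℂ) (Lg M j x g) * Lg M k x g := by
    intro j k
    simp only [hm, w11, M.JJ, Lg, map_neg, map_div₀, map_add, map_mul, conj_ofReal, conj_I,
      map_ofNat]
    push_cast
    linear_combination (g (M.J x (M.X j)) * g (M.J x (M.X k)) / 4 : ℂ) * I_mul_I
  have b0 := congrArg Complex.im (hm_herm (isAlt_Om M.J f x) (M.J x) M.X 0 0)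
  have b1 := congrArg Complex.im (hm_herm (isAlt_Om M.J f x) (M.J x) M.X 1 1)
  have b2 := hm_herm (isAlt_Om M.J f x) (M.J x) M.X 0 1
  have c0 : (H M f x 0 0).im = 0 := by
    rw [conj_im] at b0
    unfold H
    linarith
  have c1 : (H M f x 1 1).im = 0 := by
    rw [conj_im] at b1
    unfold H
    linarith
  have c2 : H M f x 1 0 = (starRingEnd ℂ) (H M f x 0 1) := b2
  have hm0 : (m0 M f x g : ℂ) = -I * (4 * (0 * 0 + 0 * 0) -
      4 * (H M f x 0 0 * (I * ((starRingEnd ℂ) (Lg M 1 x g) * Lg M 1 x g)) +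
        H M f x 1 1 * (I * ((starRingEnd ℂ) (Lg M 0 x g) * Lg M 0 x g)) -
        H M f x 0 1 * (I * ((starRingEnd ℂ) (Lg M 1 x g) * Lg M 0 x g)) -
        H M f x 1 0 * (I * ((starRingEnd ℂ) (Lg M 0 x g) * Lg M 1 x g)))) -
      4 * ((starRingEnd ℂ) (Lb M 0 f x * Lg M 1 x g - Lb M 1 f x * Lg M 0 x g) *
        (starRingEnd ℂ) (I * sigg M x g / 8)) -
      4 * (I * sigg M x g / 8 * (Lb M 0 f x * Lg M 1 x g - Lb M 1 f x * Lg M 0 x g)) -
      2 * f x * (4 * (I * sigg M x g / 8 * (starRingEnd ℂ) (I * sigg M x g / 8))) := by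
    rw [m0, top22_frame hA (isAlt_Om M.J f x), a1, c2, Complex.sq_norm, normSq_apply]
    simp only [Dd, a2]
    rw [show hm (Om M.J f x) (M.J x) M.X = H M f x from rfl]
    generalize Lb M 0 f x * Lg M 1 x g - Lb M 1 f x * Lg M 0 x g = w
    apply Complex.ext
    · simp [c0, c1, map_ofNat, -ofReal_pow]
      ring
    · simp [c0, c1, map_ofNat, -ofReal_pow]
      ring
  rw [maDens, theta2_wedge, e1, e2, e3, e4, e5, e6, ofReal_mul, hm0]
  simp only [Pi.zero_apply] at t2 t3 t4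
  linear_combination -I * t1 - t2 - t3 - 2 * f x * t4

theorem m0_zero (M : Model) {f : E → ℝ} {x : E} (hx : x ∉ tsupport f) (g : E →L[ℝ] ℝ) :
    m0 M f x g = 0 := by
  have h0 : f =ᶠ[𝓝 x] fun _ => 0 := notMem_tsupport_iff_eventuallyEq.1 hx
  have h1 : f x = 0 := h0.eq_of_nhds
  have h2 : fderiv ℝ f =ᶠ[𝓝 x] fun _ => 0 := by
    filter_upwards [h0.eventually_nhds] with y hy
    rw [Filter.EventuallyEq.fderiv_eq hy]
    simp
  have h3 : fderiv ℝ f x = 0 := h2.eq_of_nhds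
  have h4 : fderiv ℝ (fderiv ℝ f) x = 0 := by
    rw [h2.fderiv_eq]
    simp
  simp [m0, top22, Om, Lb, Lg, h1, h3, h4]

theorem continuous_m0 (M : Model) {f : E → ℝ} (hf : ContDiff ℝ 2 f) :
    Continuous fun q : E × (E →L[ℝ] ℝ) => dens M q.1 * m0 M f q.1 q.2 := by
  obtain ⟨-, -, -, -, hd⟩ := M.dens_facts
  have h0 := hd.continuous
  have h1 : Continuous M.J := M.smJ.continuous
  have h2 : Continuous (fderiv ℝ M.J) := M.smJ.continuous_fderiv (by simp)
  have h3 := hf.continuous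
  have h4 : Continuous (fderiv ℝ f) := hf.continuous_fderiv (by simp)
  have h5 : Continuous (fderiv ℝ (fderiv ℝ f)) :=
    (hf.fderiv_right (m := 1) (by norm_num)).continuous_fderiv (by simp)
  have h6 : Continuous (Nij M) := M.contDiff_Nij.continuous
  simp only [m0, top22, w11, Om, frame, sigg, Lb, Lg, Matrix.cons_val_zero, Matrix.cons_val_one,
    Matrix.cons_val]
  fun_prop

theorem maPt3_polar (M : Model) (f : E → ℝ) (x : E) (u v : E →L[ℝ] ℝ) (s t : ℝ) :
    m0 M f x (s • u + t • v) - m0 M f x (s • u - t • v) =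
      s * t * (m0 M f x (u + v) - m0 M f x (u - v)) := by
  simp only [m0, top22, w11, sigg, Lg, Complex.sq_norm, normSq_apply]
  simp
  ring

theorem m0_lip (M : Model) {f : E → ℝ} (hf : ContDiff ℝ 2 f) (hc : HasCompactSupport f) :
    ∃ C : ℝ, 0 ≤ C ∧ ∀ x g g', |dens M x * m0 M f x g - dens M x * m0 M f x g'| ≤
      C * (‖g - g'‖ * (‖g‖ + ‖g'‖)) := by
  obtain ⟨C, hC⟩ := (hc.isCompact.prod
    (isCompact_closedBall (0 : E →L[ℝ] ℝ) 2)).exists_bound_of_continuousOn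
    (continuous_m0 M hf).continuousOn
  have hb : ∀ x (g : E →L[ℝ] ℝ), ‖g‖ ≤ 2 → |dens M x * m0 M f x g| ≤ max C 0 := by
    intro x g hg
    by_cases hx : x ∈ tsupport f
    · exact le_max_of_le_left (hC (x, g) ⟨hx, mem_closedBall_zero_iff.2 hg⟩)
    · rw [m0_zero M hx, mul_zero, abs_zero]
      exact le_max_right _ _
  have hn : ∀ u : E →L[ℝ] ℝ, ∃ u' : E →L[ℝ] ℝ, ‖u'‖ ≤ 1 ∧ ‖u‖ • u' = u := by
    intro u
    by_cases hu : u = 0
    · exact ⟨0, by simp, by simp [hu]⟩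
    · have h1 : ‖u‖ ≠ 0 := norm_ne_zero_iff.2 hu
      refine ⟨‖u‖⁻¹ • u, ?_, smul_inv_smul₀ h1 u⟩
      rw [norm_smul, norm_inv, norm_norm, inv_mul_cancel₀ h1]
  refine ⟨max C 0, le_max_right _ _, fun x g g' => ?_⟩
  obtain ⟨u, hu, eu⟩ := hn (g + g')
  obtain ⟨v, hv, ev⟩ := hn (g - g')
  have h1 := maPt3_polar M f x u v (‖g + g'‖ / 2) (‖g - g'‖ / 2)
  have e1 : (‖g + g'‖ / 2) • u + (‖g - g'‖ / 2) • v = g := by
    rw [div_eq_inv_mul, div_eq_inv_mul, mul_smul, mul_smul, eu, ev]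
    module
  have e2 : (‖g + g'‖ / 2) • u - (‖g - g'‖ / 2) • v = g' := by
    rw [div_eq_inv_mul, div_eq_inv_mul, mul_smul, mul_smul, eu, ev]
    module
  rw [e1, e2] at h1
  have h2 := hb x (u + v) ((norm_add_le _ _).trans (by linarith))
  have h3 := hb x (u - v) ((norm_sub_le _ _).trans (by linarith))
  have h4 : |dens M x * m0 M f x (u + v) - dens M x * m0 M f x (u - v)| ≤ 2 * max C 0 :=
    (abs_sub _ _).trans (by linarith)
  have h5 : dens M x * m0 M f x g - dens M x * m0 M f x g' = ‖g - g'‖ * ‖g + g'‖ / 4 *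
      (dens M x * m0 M f x (u + v) - dens M x * m0 M f x (u - v)) := by
    linear_combination dens M x * h1
  rw [h5, abs_mul, abs_of_nonneg (by positivity)]
  have h6 : ‖g - g'‖ * ‖g + g'‖ ≤ ‖g - g'‖ * (‖g‖ + ‖g'‖) :=
    mul_le_mul_of_nonneg_left (norm_add_le _ _) (norm_nonneg _)
  have h7 : 0 ≤ max C 0 := le_max_right _ _
  have h8 : 0 ≤ ‖g - g'‖ * ‖g + g'‖ := by positivity
  nlinarith [mul_le_mul_of_nonneg_left h4 h8, mul_le_mul_of_nonneg_left h6 h7, mul_nonneg h7 h8]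

end Pool.Agent.Lib.MP_f2cf74_an
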