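import Pool.Agent.Lib.MP_f2cf74_an.Loc
import Pool.Agent.Lib.MP_f2cf74_an.DefsM

/-! Transfer of the local theorem to a manifold. -/

open Set Metric MeasureTheory Complex Filter Topology
open scoped ContDiff ENNReal NNReal Manifold

noncomputable section

namespace Pool.Agent.Lib.MP_f2cf74_an

variable {M : Type*} [TopologicalSpace M] [ChartedSpace E M] [IsManifold 𝓘(ℝ, E) ∞ M]

omit [IsManifold 𝓘(ℝ, E) ∞ M] [ChartedSpace E M] in
theorem isOpen_chartSet (e : OpenPartialHomeomorph M E) {Ω : Set M} (hΩ : IsOpen Ω) :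
    IsOpen (chartSet e Ω) :=
  e.continuousOn_symm.isOpen_inter_preimage e.open_target hΩ

theorem man_symm_comp {e : OpenPartialHomeomorph M E} (he : e ∈ atlas E M) {y : E}
    (hy : y ∈ e.target) (Y : TangentSpace 𝓘(ℝ, E) (e.symm y)) :
    mfderiv 𝓘(ℝ, E) 𝓘(ℝ, E) e.symm y (mfderiv 𝓘(ℝ, E) 𝓘(ℝ, E) e (e.symm y) Y) = Y := by
  have hd : e.MDifferentiable 𝓘(ℝ, E) 𝓘(ℝ, E) := mdifferentiable_of_mem_atlas he
  have h := hd.symm_comp_deriv (e.map_target hy)
  rw [e.right_inv hy] at h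
  exact congrArg (fun L => L Y) h

theorem chartJ_acs {J : EndField M} (hJ : IsACSM J) {e : OpenPartialHomeomorph M E}
    (he : e ∈ atlas E M) (Ω : Set M) : IsACS (chartJ J e) (chartSet e Ω) := by
  refine ⟨(hJ.2 e he).mono inter_subset_left, fun y hy Y => ?_⟩
  have hd : e.MDifferentiable 𝓘(ℝ, E) 𝓘(ℝ, E) := mdifferentiable_of_mem_atlas he
  have h2 : ∀ Z : E, mfderiv 𝓘(ℝ, E) 𝓘(ℝ, E) e (e.symm y)
      (mfderiv 𝓘(ℝ, E) 𝓘(ℝ, E) e.symm y Z) = Z :=
    fun Z => congrArg (fun L => L Z) (hd.comp_symm_deriv hy.1)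
  change mfderiv 𝓘(ℝ, E) 𝓘(ℝ, E) e (e.symm y) (J (e.symm y) (mfderiv 𝓘(ℝ, E) 𝓘(ℝ, E) e.symm y
    (mfderiv 𝓘(ℝ, E) 𝓘(ℝ, E) e (e.symm y) (J (e.symm y)
      (mfderiv 𝓘(ℝ, E) 𝓘(ℝ, E) e.symm y Y))))) = -Y
  rw [man_symm_comp he hy.1, hJ.1, map_neg]
  exact congrArg Neg.neg (h2 Y)

theorem disc_transfer {J : EndField M} {e : OpenPartialHomeomorph M E} (he : e ∈ atlas E M)
    {Ω : Set M} {l : ℂ → E} (hl : IsDisc (chartJ J e) (chartSet e Ω) l) :
    IsDiscM J Ω (fun z => e.symm (l z)) := by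
  have hsm : ContMDiffOn 𝓘(ℝ, E) 𝓘(ℝ, E) 1 e.symm e.target :=
    contMDiffOn_symm_of_mem_maximalAtlas (IsManifold.subset_maximalAtlas he)
  have hl1 : ContMDiffOn 𝓘(ℝ, ℂ) 𝓘(ℝ, E) 1 l (ball 0 1) := hl.1.contMDiffOn
  refine ⟨hsm.comp hl1 fun z hz => (hl.2.1 hz).1, fun z hz => (hl.2.1 hz).2, fun z hz w => ?_⟩
  have hd : e.MDifferentiable 𝓘(ℝ, E) 𝓘(ℝ, E) := mdifferentiable_of_mem_atlas he
  have hlz : MDifferentiableAt 𝓘(ℝ, ℂ) 𝓘(ℝ, E) l z :=
    (hl1.contMDiffAt (isOpen_ball.mem_nhds hz)).mdifferentiableAt one_ne_zero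
  have hc : mfderiv 𝓘(ℝ, ℂ) 𝓘(ℝ, E) (fun z => e.symm (l z)) z =
      (mfderiv 𝓘(ℝ, E) 𝓘(ℝ, E) e.symm (l z)).comp (mfderiv 𝓘(ℝ, ℂ) 𝓘(ℝ, E) l z) :=
    mfderiv_comp z (hd.mdifferentiableAt_symm (hl.2.1 hz).1) hlz
  rw [hc, mfderiv_eq_fderiv]
  change mfderiv 𝓘(ℝ, E) 𝓘(ℝ, E) e.symm (l z) (fderiv ℝ l z (I * w)) =
    J (e.symm (l z)) (mfderiv 𝓘(ℝ, E) 𝓘(ℝ, E) e.symm (l z) (fderiv ℝ l z w))
  rw [hl.2.2 z hz w]
  exact man_symm_comp he (hl.2.1 hz).1 _

theorem psh_transfer {J : EndField M} {e : OpenPartialHomeomorph M E} (he : e ∈ atlas E M)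
    {Ω : Set M} {u : M → EReal} (hu : IsPSHM J Ω u) :
    IsPSH0 (chartJ J e) (chartSet e Ω) (fun y => u (e.symm y)) := by
  refine ⟨?_, fun y hy => hu.2.1 _ hy.2, fun l hl => hu.2.2.2 _ (disc_transfer he hl)⟩
  intro y hy t ht
  have h1 : Tendsto e.symm (𝓝[chartSet e Ω] y) (𝓝[Ω] (e.symm y)) :=
    ((e.continuousOn_symm y hy.1).mono inter_subset_left).tendsto_nhdsWithin fun z hz => hz.2
  exact h1.eventually (hu.1 _ hy.2 t ht)

theorem measurable_eabs : Measurable (EReal.abs) := by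
  have : EReal.abs = fun x : EReal => x.toENNReal + (-x).toENNReal := by
    funext x
    induction x with
    | bot => simp
    | top => simp
    | coe r =>
      rw [EReal.abs_def, ← EReal.coe_neg, EReal.real_coe_toENNReal, EReal.real_coe_toENNReal]
      rcases le_total 0 r with h | h
      · rw [abs_of_nonneg h, ENNReal.ofReal_of_nonpos (neg_nonpos.2 h), add_zero]
      · rw [abs_of_nonpos h, ENNReal.ofReal_of_nonpos h, zero_add]
  rw [this]
  fun_prop

theorem aemeasurable_usc {w : E → EReal} {T : Set E} (hT : IsOpen T)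
    (hw : UpperSemicontinuousOn w T) (ν : Measure E) : AEMeasurable w (ν.restrict T) := by
  have h0 : UpperSemicontinuous (fun x : T => w x) := by
    intro x t ht
    have h2 : Tendsto (fun z : T => (z : E)) (𝓝 x) (𝓝[T] (x : E)) :=
      tendsto_nhdsWithin_iff.2 ⟨continuous_subtype_val.tendsto x, Eventually.of_forall fun z => z.2⟩
    exact h2.eventually (hw x x.2 t ht)
  have h1 : Measurable (fun x : T => w x) := h0.measurable
  exact (aemeasurable_restrict_iff_comap_subtype hT.measurableSet).2 h1.aemeasurable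

theorem locM [MeasurableSpace M] [BorelSpace M] {J : EndField M} (hJ : IsACSM J) {Ω : Set M}
    (hΩ : IsOpen Ω) {u : M → EReal} (hu : IsPSHM J Ω u) {v : M → ℝ}
    (hv : IsPSHM J Ω fun x => (v x : EReal)) (hb : ∃ B, ∀ x ∈ Ω, |v x| ≤ B) {μ : Measure M}
    (hμ : IsMAM J Ω v μ) {c : M} (hc : c ∈ Ω) : ∃ T : Set M, IsOpen T ∧ c ∈ T ∧
      ((∃ x ∈ T, u x ≠ ⊥) → ∫⁻ x in T, (u x).abs ∂μ < ⊤ ∧ ∀ y ∈ T, ∃ᶠ x in 𝓝 y, u x ≠ ⊥) := by
  set e := chartAt E c with he_def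
  have he : e ∈ atlas E M := chart_mem_atlas E c
  have hce : c ∈ e.source := mem_chart_source E c
  obtain ⟨G, hG, hGμ⟩ := hμ.2 e he
  have hS : MeasurableSet (e.source ∩ Ω) := (e.open_source.inter hΩ).measurableSet
  have hem : AEMeasurable e (μ.restrict (e.source ∩ Ω)) :=
    (e.continuousOn.mono inter_subset_left).aemeasurable hS
  set ν : Measure E := (μ.restrict (e.source ∩ Ω)).map e with hν
  have hMA : IsMA (chartJ J e) (chartSet e Ω) G ν := by
    refine ⟨fun K hK hKΩ => ?_, fun f hf => ?_⟩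
    · rw [hν, Measure.map_apply_of_aemeasurable hem hK.measurableSet,
        Measure.restrict_apply' hS]
      have hK' : IsCompact (e.symm '' K) :=
        hK.image_of_continuousOn (e.continuousOn_symm.mono fun y hy => (hKΩ hy).1)
      refine lt_of_le_of_lt (measure_mono ?_) (hμ.1 _ hK' ?_)
      · rintro x ⟨hx, hxs, -⟩
        exact ⟨e x, hx, e.left_inv hxs⟩
      · rintro _ ⟨y, hy, rfl⟩
        exact (hKΩ hy).2
    · rw [← hGμ f hf, hν, integral_map hem hf.1.continuous.aestronglyMeasurable]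
      congr 1
      symm
      refine setIntegral_eq_of_subset_of_forall_sdiff_eq_zero e.open_source.measurableSet
        inter_subset_left ?_
      rintro x ⟨hxs, hx⟩
      by_contra h
      have := hf.2.2 (subset_tsupport _ h)
      exact hx ⟨hxs, by simpa [e.left_inv hxs] using this.2⟩
  have hcc : e c ∈ chartSet e Ω := ⟨e.map_source hce, by simpa [e.left_inv hce] using hc⟩
  obtain ⟨B, hB⟩ := hb
  obtain ⟨r, hr, hsub, hfin⟩ := loc (isOpen_chartSet e hΩ) (chartJ_acs hJ he Ω)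
    (psh_transfer he hu) (v := fun y => v (e.symm y)) (psh_transfer he hv)
    ⟨B, fun y hy => hB _ hy.2⟩ hG hMA hcc
  refine ⟨e.source ∩ e ⁻¹' ball (e c) r,
    e.continuousOn.isOpen_inter_preimage e.open_source isOpen_ball, ⟨hce, mem_ball_self hr⟩, ?_⟩
  rintro ⟨x, ⟨hxs, hxb⟩, hx⟩
  obtain ⟨h1, h2⟩ := hfin ⟨e x, hxb, by simpa [e.left_inv hxs] using hx⟩
  constructor
  · have hm : AEMeasurable (fun y => (u (e.symm y)).abs) (ν.restrict (ball (e c) r)) :=
      measurable_eabs.comp_aemeasurable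
        (aemeasurable_usc isOpen_ball ((psh_transfer he hu).1.mono hsub) ν)
    rw [hν, Measure.restrict_map_of_aemeasurable hem measurableSet_ball] at hm h1
    rw [lintegral_map' hm hem.restrict] at h1
    have hT : MeasurableSet (e.source ∩ e ⁻¹' ball (e c) r) :=
      (e.continuousOn.isOpen_inter_preimage e.open_source isOpen_ball).measurableSet
    have hle : μ.restrict (e.source ∩ e ⁻¹' ball (e c) r) ≤
        (μ.restrict (e.source ∩ Ω)).restrict (e ⁻¹' ball (e c) r) := by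
      have hsub2 : e.source ∩ e ⁻¹' ball (e c) r ⊆ e.source ∩ Ω := fun z hz =>
        ⟨hz.1, by simpa [e.left_inv hz.1] using (hsub hz.2).2⟩
      calc μ.restrict (e.source ∩ e ⁻¹' ball (e c) r)
          = (μ.restrict (e.source ∩ Ω)).restrict (e.source ∩ e ⁻¹' ball (e c) r) := by
            rw [Measure.restrict_restrict hT, inter_eq_left.2 hsub2]
        _ ≤ _ := Measure.restrict_mono inter_subset_right le_rfl
    refine lt_of_le_of_lt ?_ h1
    refine le_trans (le_of_eq ?_) (lintegral_mono' hle le_rfl)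
    refine setLIntegral_congr_fun hT fun z hz => ?_
    simp only [e.left_inv hz.1]
  · rintro y ⟨hys, hyb⟩
    have h3 := h2 (e y) hyb
    have h4 : Tendsto e.symm (𝓝 (e y)) (𝓝 y) := e.tendsto_symm hys
    exact h4.frequently h3

theorem globM [MeasurableSpace M] [BorelSpace M] {J : EndField M} (hJ : IsACSM J) {Ω : Set M}
    (hΩ : IsOpen Ω) (hc : IsConnected Ω) {u : M → EReal} (hu : IsPSHM J Ω u) {v : M → ℝ}
    (hv : IsPSHM J Ω fun x => (v x : EReal)) (hb : ∃ B, ∀ x ∈ Ω, |v x| ≤ B) {μ : Measure M}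
    (hμ : IsMAM J Ω v μ) {K : Set M} (hK : IsCompact K) (hKΩ : K ⊆ Ω) :
    ∫⁻ x in K, (u x).abs ∂μ < ⊤ := by
  have hloc := fun c (hcΩ : c ∈ Ω) => locM hJ hΩ hu hv hb hμ hcΩ
  choose! T hT hcT hfin using hloc
  have key : ∀ c ∈ Ω, ∃ x ∈ T c, u x ≠ ⊥ := by
    let A : Set M := {c | ∀ᶠ x in 𝓝 c, u x = ⊥}
    have hA : IsOpen A := isOpen_setOfPred_eventually_nhds
    let B : Set M := ⋃ c ∈ {c ∈ Ω | ∃ x ∈ T c, u x ≠ ⊥}, T c
    have hB : IsOpen B := isOpen_biUnion fun c hc => hT c hc.1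
    have hAB : Disjoint A B := by
      rw [Set.disjoint_left]
      intro y hyA hyB
      simp only [B, mem_iUnion, mem_ofPred_eq, exists_prop] at hyB
      obtain ⟨c, ⟨hcΩ, hx⟩, hy⟩ := hyB
      exact ((hfin c hcΩ hx).2 y hy) (Filter.Eventually.mono hyA fun x hx => not_not.2 hx)
    have hcov : Ω ⊆ A ∪ B := by
      intro c hcΩ
      by_cases h : ∃ x ∈ T c, u x ≠ ⊥
      · right
        exact mem_biUnion (show c ∈ {c ∈ Ω | ∃ x ∈ T c, u x ≠ ⊥} from ⟨hcΩ, h⟩) (hcT c hcΩ)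
      · left
        push Not at h
        exact Filter.mem_of_superset ((hT c hcΩ).mem_nhds (hcT c hcΩ)) h
    obtain ⟨x0, hx0, hne⟩ := hu.2.2.1
    have hx0B : x0 ∈ B :=
      mem_biUnion (show x0 ∈ {c ∈ Ω | ∃ x ∈ T c, u x ≠ ⊥} from ⟨hx0, x0, hcT x0 hx0, hne⟩)
        (hcT x0 hx0)
    have hΩB : Ω ⊆ B :=
      hc.isPreconnected.subset_right_of_subset_union hA hB hAB hcov ⟨x0, hx0, hx0B⟩
    intro c hcΩ
    by_contra h
    push Not at h
    have hcA : c ∈ A := Filter.mem_of_superset ((hT c hcΩ).mem_nhds (hcT c hcΩ)) h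
    exact Set.disjoint_left.1 hAB hcA (hΩB hcΩ)
  obtain ⟨t, ht, hcover⟩ := hK.elim_nhds_subcover T
    fun c hcK => (hT c (hKΩ hcK)).mem_nhds (hcT c (hKΩ hcK))
  calc ∫⁻ x in K, (u x).abs ∂μ ≤ ∫⁻ x in ⋃ c ∈ t, T c, (u x).abs ∂μ :=
        lintegral_mono_set hcover
    _ ≤ ∑ c ∈ t, ∫⁻ x in T c, (u x).abs ∂μ := by
        classical
        clear ht hcover
        induction t using Finset.induction_on with
        | empty => simp
        | insert a s ha ih =>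
          rw [Finset.set_biUnion_insert, Finset.sum_insert ha]
          exact (lintegral_union_le _ _ _).trans (add_le_add le_rfl ih)
    _ < ⊤ := ENNReal.sum_lt_top.2 fun c hct => (hfin c (hKΩ (ht c hct)) (key c (hKΩ (ht c hct)))).1

end Pool.Agent.Lib.MP_f2cf74_an
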