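import Pool.Agent.Lib.MP_f2cf74_an.Base

open Set Metric MeasureTheory Complex Filter Topology
open scoped ContDiff ENNReal NNReal

noncomputable section

namespace Pool.Agent.Lib.MP_f2cf74_an

/-! Uniqueness and gluing of measures.  `meas_unique`: for an open `W ⊆ U` and a compact `K ⊆ W`
there is a test function `0 ≤ f ≤ 1` with `f = 1` on `K` and support in `W`
(`exists_contDiff_tsupport_subset`-like lemmas, `exists_smooth_zero_one_of_isClosed`, or
`IsCompact.exists_cthickening_subset_open` with a bump convolution), so `ν K ≤ ν' W`; `W` is a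
countable increasing union of compact sets; hence the measures agree on open subsets of `U`, a
π-system; `Measure.ext_of_generateFrom_of_iUnion`.  `meas_glue`: countable subfamily with the same
union (`TopologicalSpace.isOpen_iUnion_countable`), `disjointed`, `Measure.sum`. -/

theorem measU_le {U W : Set E} {ν ν' : Measure E} (h1 : ∀ K, IsCompact K → K ⊆ U → ν K < ⊤)
    (h : ∀ f, IsTest U f → ∫ x, f x ∂ν = ∫ x, f x ∂ν') (hW : IsOpen W) (hWU : W ⊆ U) :
    ν W ≤ ν' W := by
  refine le_of_forall_lt fun r hr => ?_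
  obtain ⟨K, hKW, hK, hr⟩ := (Measure.InnerRegularWRT.isCompact_isClosed ν).trans
    (Measure.InnerRegularWRT.of_pseudoMetrizableSpace ν) hW r hr
  obtain ⟨L, hL, hKL, hLW⟩ := exists_compact_between hK hW hKW
  obtain ⟨f, f0, f1, f01⟩ := exists_contMDiffMap_zero_one_of_isClosed (n := ⊤)
    (modelWithCornersSelf ℝ E) isOpen_interior.isClosed_compl hK.isClosed
    (disjoint_compl_left_iff_subset.2 hKL)
  have hf : ContDiff ℝ ∞ f := f.contMDiff.contDiff
  have hz : ∀ x, x ∉ L → f x = 0 := fun x hx => f0 fun h => hx (interior_subset h)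
  have hs : tsupport f ⊆ L := closure_minimal (Function.support_subset_iff'.2 hz) hL.isClosed
  have hi : Integrable f ν := (Measure.integrableOn_of_bounded (M := 1)
    (h1 L hL (hLW.trans hWU)).ne hf.continuous.aestronglyMeasurable
    (Eventually.of_forall fun x => by
      rw [Real.norm_of_nonneg (f01 x).1]; exact (f01 x).2)).integrable_of_forall_notMem_eq_zero hz
  refine hr.trans_le ((hi.measure_le_integral (Eventually.of_forall fun x => (f01 x).1)
    fun x hx => (f1 hx).ge).trans ?_)
  rw [h f ⟨hf, HasCompactSupport.intro hL hz, hs.trans (hLW.trans hWU)⟩]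
  exact integral_le_measure (fun x _ => (f01 x).2) fun x hx => (hz x fun h => hx (hLW h)).le

theorem meas_unique {U : Set E} (hU : IsOpen U) {ν ν' : Measure E}
    (h1 : ∀ K, IsCompact K → K ⊆ U → ν K < ⊤) (h2 : ∀ K, IsCompact K → K ⊆ U → ν' K < ⊤)
    (h : ∀ f, IsTest U f → ∫ x, f x ∂ν = ∫ x, f x ∂ν') : ν.restrict U = ν'.restrict U := by
  choose L hL hx hLU using fun x : U => exists_compact_subset hU x.2
  obtain ⟨S, hS, e⟩ := TopologicalSpace.isOpen_iUnion_countable (fun x => interior (L x))
    fun _ => isOpen_interior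
  have e' : U ⊆ ⋃ x ∈ S, interior (L x) := fun x h => e ▸ mem_iUnion.2 ⟨⟨x, h⟩, hx _⟩
  refine Measure.restrict_congr_mono e' ((Measure.restrict_biUnion_congr hS).2 fun x _ => ?_)
  have : IsFiniteMeasure (ν.restrict (interior (L x))) := isFiniteMeasure_restrict.2
    ((measure_mono interior_subset).trans_lt (h1 _ (hL x) (hLU x))).ne
  have h3 : ∀ W, IsOpen W → ν.restrict (interior (L x)) W = ν'.restrict (interior (L x)) W :=
    fun W hW => by
      have h4 : W ∩ interior (L x) ⊆ U := inter_subset_right.trans (interior_subset.trans (hLU x))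
      rw [Measure.restrict_apply hW.measurableSet, Measure.restrict_apply hW.measurableSet]
      exact le_antisymm (measU_le h1 h (hW.inter isOpen_interior) h4)
        (measU_le h2 (fun f hf => (h f hf).symm) (hW.inter isOpen_interior) h4)
  exact ext_of_generate_finite _ BorelSpace.measurable_eq isPiSystem_isOpen h3 (h3 _ isOpen_univ)

theorem meas_glue {X : Type*} [TopologicalSpace X] [SecondCountableTopology X] [MeasurableSpace X]
    [BorelSpace X] {ι : Type*} (T : ι → Set X) (hT : ∀ i, IsOpen (T i)) (μ : ι → Measure X)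
    (h : ∀ i j, (μ i).restrict (T i ∩ T j) = (μ j).restrict (T i ∩ T j)) :
    ∃ ν : Measure X, ∀ i, ν.restrict (T i) = (μ i).restrict (T i) := by
  rcases isEmpty_or_nonempty ι with _ | ⟨⟨i₀⟩⟩
  · exact ⟨0, fun i => isEmptyElim i⟩
  obtain ⟨S, hS, hU⟩ := TopologicalSpace.isOpen_iUnion_countable T hT
  obtain ⟨e, he⟩ := (hS.insert i₀).exists_eq_range (insert_nonempty _ _)
  have hm : ∀ n, MeasurableSet (disjointed (fun n => T (e n)) n) :=
    MeasurableSet.disjointed fun n => (hT _).measurableSet
  refine ⟨Measure.sum fun n => (μ (e n)).restrict (disjointed (fun n => T (e n)) n), fun i => ?_⟩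
  have h1 : T i = ⋃ n, T i ∩ disjointed (fun n => T (e n)) n := by
    rw [← inter_iUnion, iUnion_disjointed]
    refine (inter_eq_left.2 fun x hx => ?_).symm
    obtain ⟨j, hj, hx⟩ := mem_iUnion₂.1 (hU.ge (mem_iUnion.2 ⟨i, hx⟩))
    obtain ⟨n, rfl⟩ := he.le (mem_insert_of_mem _ hj)
    exact mem_iUnion.2 ⟨n, hx⟩
  rw [Measure.restrict_sum _ (hT i).measurableSet]
  conv_rhs => rw [h1]
  rw [Measure.restrict_iUnion ((disjoint_disjointed _).mono fun _ _ hd =>
    hd.mono inter_subset_right inter_subset_right) fun n => (hT i).measurableSet.inter (hm n)]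
  congr 1
  funext n
  rw [Measure.restrict_restrict (hT i).measurableSet]
  exact (Measure.restrict_congr_mono (inter_subset_inter_right _ (disjointed_subset _ n))
    (h i (e n))).symm

end Pool.Agent.Lib.MP_f2cf74_an
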