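import Pool.Agent.Lib.MP_f2cf74_an.Man
import Pool.Agent.Lib.MP_f2cf74_an.Inv2
import Pool.Agent.Lib.MP_f2cf74_an.MaLoc
import Pool.Agent.Lib.MP_f2cf74_an.MeasU
import Pool.Agent.Lib.MP_f2cf74_an.ExMu

/-! Existence of the Monge-Ampere measure on a manifold. -/

open Set Metric MeasureTheory Complex Filter Topology
open scoped ContDiff ENNReal NNReal Manifold

noncomputable section

namespace Pool.Agent.Lib.MP_f2cf74_an

variable {M : Type*} [TopologicalSpace M] [ChartedSpace E M] [IsManifold 𝓘(ℝ, E) ∞ M]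
  [MeasurableSpace M] [BorelSpace M]

/-- `μ` represents the current near `x` in the chart `e`. -/
def RepAt (J : EndField M) (Ω : Set M) (μ : Measure M) (e : OpenPartialHomeomorph M E)
    (G : E → E →L[ℝ] ℝ) (x : M) : Prop :=
  ∃ r > 0, ∀ f, IsTest (ball (e x) r ∩ chartSet e Ω) f →
    ((∫ y in e.source, f (e y) ∂μ : ℝ) : ℂ) = maPair (chartJ J e) (chartSet e Ω) G G f

theorem IsTest.mono {U U' : Set E} {f : E → ℝ} (h : IsTest U f) (hU : tsupport f ⊆ U') :
    IsTest U' f := ⟨h.1, h.2.1, hU⟩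

theorem IsTest.zero_of {U : Set E} {f : E → ℝ} (h : IsTest U f) {y : E} (hy : y ∉ U) : f y = 0 := by
  by_contra h0
  exact hy (h.2.2 (subset_tsupport _ h0))

omit [MeasurableSpace M] [BorelSpace M] in
theorem trans_contDiffOn {e e' : OpenPartialHomeomorph M E} (he : e ∈ atlas E M)
    (he' : e' ∈ atlas E M) : ContDiffOn ℝ ∞ (e.symm.trans e') (e.symm.trans e').source := by
  have h1 : ContMDiffOn 𝓘(ℝ, E) 𝓘(ℝ, E) ∞ e.symm e.target :=
    contMDiffOn_symm_of_mem_maximalAtlas (IsManifold.subset_maximalAtlas he)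
  have h2 : ContMDiffOn 𝓘(ℝ, E) 𝓘(ℝ, E) ∞ e' e'.source :=
    contMDiffOn_of_mem_maximalAtlas (IsManifold.subset_maximalAtlas he')
  have h3 : ContMDiffOn 𝓘(ℝ, E) 𝓘(ℝ, E) ∞ (e' ∘ e.symm) (e.symm.trans e').source :=
    h2.comp (h1.mono fun y hy => hy.1) fun y hy => hy.2
  exact h3.contDiffOn

omit [MeasurableSpace M] [BorelSpace M] in
theorem trans_J (J : EndField M) {e e' : OpenPartialHomeomorph M E} (he : e ∈ atlas E M)
    (he' : e' ∈ atlas E M) {y : E} (hy : y ∈ e.target) (hy' : e.symm y ∈ e'.source) (Y : E) :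
    chartJ J e' (e' (e.symm y)) (fderiv ℝ (fun z => e' (e.symm z)) y Y) =
      fderiv ℝ (fun z => e' (e.symm z)) y (chartJ J e y Y) := by
  have hd : e.MDifferentiable 𝓘(ℝ, E) 𝓘(ℝ, E) := mdifferentiable_of_mem_atlas he
  have hd' : e'.MDifferentiable 𝓘(ℝ, E) 𝓘(ℝ, E) := mdifferentiable_of_mem_atlas he'
  have hc : mfderiv 𝓘(ℝ, E) 𝓘(ℝ, E) (fun z => e' (e.symm z)) y =
      (mfderiv 𝓘(ℝ, E) 𝓘(ℝ, E) e' (e.symm y)).comp (mfderiv 𝓘(ℝ, E) 𝓘(ℝ, E) e.symm y) :=
    mfderiv_comp y (hd'.mdifferentiableAt hy') (hd.mdifferentiableAt_symm hy)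
  rw [mfderiv_eq_fderiv] at hc
  have key : ∀ (x : M) (hx : x ∈ e'.source) (W : TangentSpace 𝓘(ℝ, E) x),
      chartJ J e' (e' x) (mfderiv 𝓘(ℝ, E) 𝓘(ℝ, E) e' x W) =
        mfderiv 𝓘(ℝ, E) 𝓘(ℝ, E) e' x (J x W) := by
    intro x hx
    obtain ⟨z, hz, rfl⟩ : ∃ z ∈ e'.target, e'.symm z = x := ⟨e' x, e'.map_source hx, e'.left_inv hx⟩
    intro W
    have h1 : chartJ J e' (e' (e'.symm z)) = chartJ J e' z := by rw [e'.right_inv hz]
    have h2 := man_symm_comp he' hz W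
    calc chartJ J e' (e' (e'.symm z)) (mfderiv 𝓘(ℝ, E) 𝓘(ℝ, E) e' (e'.symm z) W)
        = chartJ J e' z (mfderiv 𝓘(ℝ, E) 𝓘(ℝ, E) e' (e'.symm z) W) := by rw [h1]
      _ = mfderiv 𝓘(ℝ, E) 𝓘(ℝ, E) e' (e'.symm z) (J (e'.symm z) (mfderiv 𝓘(ℝ, E) 𝓘(ℝ, E) e'.symm z
          (mfderiv 𝓘(ℝ, E) 𝓘(ℝ, E) e' (e'.symm z) W))) := rfl
      _ = _ := by rw [h2]
  rw [hc]
  have h3 := key (e.symm y) hy' (mfderiv 𝓘(ℝ, E) 𝓘(ℝ, E) e.symm y Y)
  have h4 := man_symm_comp he hy (J (e.symm y) (mfderiv 𝓘(ℝ, E) 𝓘(ℝ, E) e.symm y Y))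
  calc _ = mfderiv 𝓘(ℝ, E) 𝓘(ℝ, E) e' (e.symm y)
        (J (e.symm y) (mfderiv 𝓘(ℝ, E) 𝓘(ℝ, E) e.symm y Y)) := h3
    _ = mfderiv 𝓘(ℝ, E) 𝓘(ℝ, E) e' (e.symm y) (mfderiv 𝓘(ℝ, E) 𝓘(ℝ, E) e.symm y
        (mfderiv 𝓘(ℝ, E) 𝓘(ℝ, E) e (e.symm y)
          (J (e.symm y) (mfderiv 𝓘(ℝ, E) 𝓘(ℝ, E) e.symm y Y)))) := by rw [h4]
    _ = _ := rfl

theorem rep_change {J : EndField M} (hJ : IsACSM J) {Ω : Set M} (hΩ : IsOpen Ω) {v : M → ℝ}
    (hv : IsPSHM J Ω fun x => (v x : EReal)) (hb : ∃ B, ∀ x ∈ Ω, |v x| ≤ B)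
    {e e' : OpenPartialHomeomorph M E} (he : e ∈ atlas E M) (he' : e' ∈ atlas E M)
    {G G' : E → E →L[ℝ] ℝ} (hG : IsWeakGrad (chartSet e Ω) (fun y => v (e.symm y)) G)
    (hG' : IsWeakGrad (chartSet e' Ω) (fun y => v (e'.symm y)) G') {μ : Measure M} {x : M}
    (hx : x ∈ Ω) (hxe : x ∈ e.source) (hxe' : x ∈ e'.source) (h : RepAt J Ω μ e G x) :
    RepAt J Ω μ e' G' x := by
  obtain ⟨r0, hr0, h⟩ := h
  obtain ⟨B, hB⟩ := hb
  set Φ : OpenPartialHomeomorph E E :=
    (e.symm.trans e').restrOpen (chartSet e Ω) (isOpen_chartSet e hΩ) with hΦ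
  have hsrc : ∀ y, y ∈ Φ.source ↔ y ∈ e.target ∧ e.symm y ∈ e'.source ∧ e.symm y ∈ Ω := by
    intro y
    simp only [hΦ, chartSet, OpenPartialHomeomorph.restrOpen_source,
      OpenPartialHomeomorph.trans_source, OpenPartialHomeomorph.symm_source, mem_inter_iff,
      mem_preimage]
    tauto
  have hfun : ∀ y, Φ y = e' (e.symm y) := fun y => rfl
  have hsym : ∀ y, Φ.symm y = e (e'.symm y) := fun y => rfl
  have htgt : ∀ y ∈ Φ.target, y ∈ e'.target ∧ e'.symm y ∈ e.source ∧ e'.symm y ∈ Ω := by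
    intro y hy
    have h1 := (hsrc _).1 (Φ.map_target hy)
    have h2 : e' (e.symm (Φ.symm y)) = y := Φ.right_inv hy
    have h3 : e'.symm y = e.symm (Φ.symm y) := by
      conv_lhs => rw [← h2]
      exact e'.left_inv h1.2.1
    refine ⟨h2 ▸ e'.map_source h1.2.1, h3 ▸ e.map_target h1.1, h3 ▸ h1.2.2⟩
  have hc : e x ∈ Φ.source :=
    (hsrc _).2 ⟨e.map_source hxe, by rwa [e.left_inv hxe], by rwa [e.left_inv hxe]⟩
  have hΦc : Φ (e x) = e' x := by rw [hfun, e.left_inv hxe]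
  have h1 : ContDiffOn ℝ ∞ Φ Φ.source := (trans_contDiffOn he he').mono fun y hy => hy.1
  have h2 : ContDiffOn ℝ ∞ Φ.symm Φ.target :=
    (trans_contDiffOn he' he).mono fun y hy => ⟨(htgt y hy).1, (htgt y hy).2.1⟩
  obtain ⟨r1, hr1, hinv⟩ := ma_inv (isOpen_chartSet e hΩ) (isOpen_chartSet e' hΩ)
    (chartJ_acs hJ he Ω) (chartJ_acs hJ he' Ω) (v := fun y => v (e.symm y))
    (v' := fun y => v (e'.symm y)) (psh_transfer he hv) ⟨B, fun y hy => hB _ hy.2⟩ hG hG' Φ
    (fun y hy => ⟨((hsrc y).1 hy).1, ((hsrc y).1 hy).2.2⟩)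
    (fun y hy => ⟨(htgt y hy).1, (htgt y hy).2.2⟩) h1 h2
    (fun y hy Y => trans_J J he he' ((hsrc y).1 hy).1 ((hsrc y).1 hy).2.1 Y)
    (fun y hy => by simp only [hfun, e'.left_inv ((hsrc y).1 hy).2.1]) hc
  have hn : Φ.target ∩ Φ.symm ⁻¹' ball (e x) r0 ∈ 𝓝 (e' x) := by
    refine (Φ.continuousOn_symm.isOpen_inter_preimage Φ.open_target isOpen_ball).mem_nhds
      ⟨hΦc ▸ Φ.map_source hc, ?_⟩
    rw [mem_preimage, ← hΦc, Φ.left_inv hc]
    exact mem_ball_self hr0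
  obtain ⟨r2, hr2, hr2s⟩ := Metric.mem_nhds_iff.1 hn
  refine ⟨min r1 r2, lt_min hr1 hr2, fun f' hf' => ?_⟩
  have hs1 : tsupport f' ⊆ ball (e' x) r1 := fun y hy =>
    ball_subset_ball (min_le_left _ _) (hf'.2.2 hy).1
  have hs2 : tsupport f' ⊆ Φ.target ∩ Φ.symm ⁻¹' ball (e x) r0 := fun y hy =>
    hr2s (ball_subset_ball (min_le_right _ _) (hf'.2.2 hy).1)
  have hft : IsTest Φ.target f' := hf'.mono fun y hy => (hs2 hy).1
  obtain ⟨f, hf, hff, hfs⟩ := test_pull Φ h1 hft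
  have hf0 : IsTest (ball (e x) r0 ∩ chartSet e Ω) f := by
    refine hf.mono fun y hy => ⟨?_, ((hsrc y).1 (hf.2.2 hy)).1, ((hsrc y).1 (hf.2.2 hy)).2.2⟩
    obtain ⟨z, hz, rfl⟩ := hfs hy
    exact (hs2 hz).2
  rw [← hinv f' (hf'.mono fun y hy => ⟨hΦc ▸ hs1 hy, (hs2 hy).1⟩) f hf hff, ← h f hf0]
  congr 1
  have hS : MeasurableSet (e.source ∩ e'.source ∩ Ω) :=
    ((e.open_source.inter e'.open_source).inter hΩ).measurableSet
  have e1 : ∫ y in e'.source, f' (e' y) ∂μ = ∫ y in e.source ∩ e'.source ∩ Ω, f' (e' y) ∂μ := by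
    refine setIntegral_eq_of_subset_of_forall_sdiff_eq_zero e'.open_source.measurableSet
      (fun y hy => hy.1.2) ?_
    rintro y ⟨hy, hy2⟩
    refine hft.zero_of fun hyt => hy2 ?_
    have := htgt _ hyt
    rw [e'.left_inv hy] at this
    exact ⟨⟨this.2.1, hy⟩, this.2.2⟩
  have e2 : ∫ y in e.source, f (e y) ∂μ = ∫ y in e.source ∩ e'.source ∩ Ω, f (e y) ∂μ := by
    refine setIntegral_eq_of_subset_of_forall_sdiff_eq_zero e.open_source.measurableSet
      (fun y hy => hy.1.1) ?_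
    rintro y ⟨hy, hy2⟩
    refine hf.zero_of fun hyt => hy2 ?_
    have := (hsrc _).1 hyt
    rw [e.left_inv hy] at this
    exact ⟨⟨hy, this.2.1⟩, this.2.2⟩
  rw [e1, e2]
  refine setIntegral_congr_fun hS fun y hy => ?_
  have hy2 : e y ∈ Φ.source := (hsrc _).2
    ⟨e.map_source hy.1.1, by rw [e.left_inv hy.1.1]; exact hy.1.2,
      by rw [e.left_inv hy.1.1]; exact hy.2⟩
  simp only [hff _ hy2, hfun, e.left_inv hy.1.1]

omit [ChartedSpace E M] [IsManifold 𝓘(ℝ, E) ∞ M] in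
theorem aemeasurable_chart (e : OpenPartialHomeomorph M E) (μ : Measure M) :
    AEMeasurable e (μ.restrict e.source) :=
  e.continuousOn.aemeasurable e.open_source.measurableSet

omit [ChartedSpace E M] [IsManifold 𝓘(ℝ, E) ∞ M] in
theorem chart_push_fin (e : OpenPartialHomeomorph M E) {μ : Measure M} {T : Set M}
    (hμ : ∀ K, IsCompact K → K ⊆ T → μ K < ⊤) (K : Set E) (hK : IsCompact K)
    (hKT : K ⊆ chartSet e T) : (μ.restrict e.source).map e K < ⊤ := by
  rw [Measure.map_apply_of_aemeasurable (aemeasurable_chart e μ) hK.measurableSet,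
    Measure.restrict_apply' e.open_source.measurableSet]
  have hK' : IsCompact (e.symm '' K) :=
    hK.image_of_continuousOn (e.continuousOn_symm.mono fun y hy => (hKT hy).1)
  refine lt_of_le_of_lt (measure_mono ?_) (hμ _ hK' ?_)
  · rintro x ⟨hx, hxs⟩
    exact ⟨e x, hx, e.left_inv hxs⟩
  · rintro _ ⟨y, hy, rfl⟩
    exact (hKT hy).2

theorem rep_glob {J : EndField M} (hJ : IsACSM J) {Ω : Set M} (hΩ : IsOpen Ω)
    {e : OpenPartialHomeomorph M E} (he : e ∈ atlas E M) {G : E → E →L[ℝ] ℝ}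
    (hG : ∀ K, IsCompact K → K ⊆ chartSet e Ω → MemLp G 2 (volume.restrict K)) {μ : Measure M}
    {T : Set M} (hT : T ⊆ Ω) (hμ : ∀ K, IsCompact K → K ⊆ T → μ K < ⊤)
    (h : ∀ x ∈ T, x ∈ e.source → RepAt J Ω μ e G x) {f : E → ℝ} (hf : IsTest (chartSet e T) f) :
    ((∫ y, f y ∂((μ.restrict e.source).map e) : ℝ) : ℂ) =
      maPair (chartJ J e) (chartSet e Ω) G G f := by
  refine ma_local (isOpen_chartSet e hΩ) (chartJ_acs hJ he Ω) hG
    (U := chartSet e T) (fun y hy => ⟨hy.1, hT hy.2⟩) (chart_push_fin e hμ) (fun c hc => ?_) hf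
  obtain ⟨r, hr, hrep⟩ := h (e.symm c) hc.2 (e.map_target hc.1)
  rw [e.right_inv hc.1] at hrep
  refine ⟨r, hr, fun g hg => ?_⟩
  rw [integral_map (aemeasurable_chart e μ) hg.1.continuous.aestronglyMeasurable]
  exact hrep g (hg.mono fun y hy => ⟨(hg.2.2 hy).1, (hg.2.2 hy).2.1, hT (hg.2.2 hy).2.2⟩)

omit [ChartedSpace E M] [IsManifold 𝓘(ℝ, E) ∞ M] in
theorem chart_pull (e : OpenPartialHomeomorph M E) {μ μ' : Measure M} {T : Set M} (hT : IsOpen T)
    (hTe : T ⊆ e.source) (h : ((μ.restrict e.source).map e).restrict (chartSet e T) =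
      ((μ'.restrict e.source).map e).restrict (chartSet e T)) : μ.restrict T = μ'.restrict T := by
  have key : ∀ (m : Measure M) (s : Set M), IsOpen s →
      ((m.restrict e.source).map e).restrict (chartSet e T) (chartSet e s) = m.restrict T s := by
    intro m s hs
    rw [Measure.restrict_apply (isOpen_chartSet e hs).measurableSet,
      Measure.map_apply_of_aemeasurable (aemeasurable_chart e m)
        ((isOpen_chartSet e hs).inter (isOpen_chartSet e hT)).measurableSet,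
      Measure.restrict_apply' e.open_source.measurableSet, Measure.restrict_apply hs.measurableSet]
    congr 1
    ext y
    constructor
    · rintro ⟨⟨h1, h2⟩, hy⟩
      have h3 := h1.2
      have h4 := h2.2
      rw [mem_preimage, e.left_inv hy] at h3 h4
      exact ⟨h3, h4⟩
    · rintro ⟨h1, h2⟩
      have hy := hTe h2
      refine ⟨⟨⟨e.map_source hy, ?_⟩, e.map_source hy, ?_⟩, hy⟩
      · rwa [mem_preimage, e.left_inv hy]
      · rwa [mem_preimage, e.left_inv hy]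
  have key2 : ∀ (m : Measure M), (((m.restrict e.source).map e).restrict (chartSet e T)).map e.symm =
      m.restrict T := by
    intro m
    have hU := (isOpen_chartSet e hT).measurableSet
    have hs : AEMeasurable e.symm (((m.restrict e.source).map e).restrict (chartSet e T)) :=
      (e.continuousOn_symm.mono inter_subset_left).aemeasurable hU
    rw [Measure.restrict_map_of_aemeasurable (aemeasurable_chart e m) hU] at hs ⊢
    rw [AEMeasurable.map_map_of_aemeasurable hs (aemeasurable_chart e m).restrict]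
    have h1 : (m.restrict e.source).restrict (e ⁻¹' chartSet e T) = m.restrict T := by
      rw [Measure.restrict_restrict' e.open_source.measurableSet]
      congr 1
      ext y
      constructor
      · rintro ⟨h1, hy⟩
        have h3 := h1.2
        rwa [mem_preimage, e.left_inv hy] at h3
      · intro h2
        have hy := hTe h2
        refine ⟨⟨e.map_source hy, ?_⟩, hy⟩
        rwa [mem_preimage, e.left_inv hy]
    rw [h1]
    have h2 : (e.symm ∘ e : M → M) =ᵐ[m.restrict T] id :=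
      (ae_restrict_iff' hT.measurableSet).2 (ae_of_all _ fun y hy => e.left_inv (hTe hy))
    rw [Measure.map_congr h2, Measure.map_id]
  rw [← key2 μ, ← key2 μ', h]

theorem local_measure {J : EndField M} (hJ : IsACSM J) {Ω : Set M} (hΩ : IsOpen Ω) {v : M → ℝ}
    (hv : IsPSHM J Ω fun x => (v x : EReal)) (hb : ∃ B, ∀ x ∈ Ω, |v x| ≤ B)
    {e : OpenPartialHomeomorph M E} (he : e ∈ atlas E M) {G : E → E →L[ℝ] ℝ}
    (hG : IsWeakGrad (chartSet e Ω) (fun y => v (e.symm y)) G) {c : M} (hc : c ∈ Ω)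
    (hce : c ∈ e.source) : ∃ (T : Set M) (μ : Measure M), IsOpen T ∧ c ∈ T ∧ T ⊆ Ω ∧
      T ⊆ e.source ∧ μ univ < ⊤ ∧
      ∀ μ' : Measure M, μ'.restrict T = μ.restrict T → ∀ x ∈ T, RepAt J Ω μ' e G x := by
  obtain ⟨B, hB⟩ := hb
  have hcc : e c ∈ chartSet e Ω := ⟨e.map_source hce, by simpa [e.left_inv hce] using hc⟩
  obtain ⟨r, hr, hsub, ν, hν, hrep⟩ := exMu_loc (isOpen_chartSet e hΩ) (chartJ_acs hJ he Ω)
    (v := fun y => v (e.symm y)) (psh_transfer he hv) ⟨B, fun y hy => hB _ hy.2⟩ hG hcc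
  have hs : AEMeasurable e.symm (ν.restrict (ball (e c) r)) :=
    (e.continuousOn_symm.mono fun y hy => (hsub hy).1).aemeasurable measurableSet_ball
  have hTo : IsOpen (e.source ∩ e ⁻¹' ball (e c) r) :=
    e.continuousOn.isOpen_inter_preimage e.open_source isOpen_ball
  refine ⟨e.source ∩ e ⁻¹' ball (e c) r, (ν.restrict (ball (e c) r)).map e.symm, hTo,
    ⟨hce, mem_ball_self hr⟩, fun y hy => ?_, inter_subset_left, ?_, fun μ' hμ' x hx => ?_⟩
  · simpa [e.left_inv hy.1] using (hsub hy.2).2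
  · rw [Measure.map_apply_of_aemeasurable hs MeasurableSet.univ, preimage_univ,
      Measure.restrict_apply_univ]
    exact lt_of_le_of_lt (measure_mono ball_subset_closedBall) (hν _ (isCompact_closedBall _ _))
  · obtain ⟨r', hr', hr's⟩ := Metric.isOpen_iff.1 isOpen_ball _ hx.2
    refine ⟨r', hr', fun f hf => ?_⟩
    have hf1 : IsTest (ball (e c) r) f := hf.mono fun y hy => hr's (hf.2.2 hy).1
    rw [← hrep f hf1]
    congr 1
    have e1 : ∫ y in e.source, f (e y) ∂μ' = ∫ y in e.source ∩ e ⁻¹' ball (e c) r, f (e y) ∂μ' := by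
      refine setIntegral_eq_of_subset_of_forall_sdiff_eq_zero e.open_source.measurableSet
        inter_subset_left ?_
      rintro y ⟨hy, hy2⟩
      exact hf1.zero_of fun h => hy2 ⟨hy, h⟩
    have hm : AEStronglyMeasurable (fun y => f (e y))
        (((ν.restrict (ball (e c) r)).map e.symm).restrict (e.source ∩ e ⁻¹' ball (e c) r)) :=
      (hf.1.continuous.comp_continuousOn
        (e.continuousOn.mono inter_subset_left)).aestronglyMeasurable hTo.measurableSet
    rw [e1, hμ']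
    rw [Measure.restrict_map_of_aemeasurable hs hTo.measurableSet] at hm ⊢
    rw [integral_map hs.restrict hm, Measure.restrict_restrict' measurableSet_ball]
    have h3 : e.symm ⁻¹' (e.source ∩ e ⁻¹' ball (e c) r) ∩ ball (e c) r = ball (e c) r := by
      refine inter_eq_right.2 fun y hy => ⟨e.map_target (hsub hy).1, ?_⟩
      rwa [mem_preimage, e.right_inv (hsub hy).1]
    rw [h3, ← setIntegral_eq_integral_of_forall_compl_eq_zero (s := ball (e c) r)
      fun y hy => hf1.zero_of hy]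
    refine setIntegral_congr_fun measurableSet_ball fun y hy => ?_
    simp only [e.right_inv (hsub hy).1]

theorem exMAM [SecondCountableTopology M] {J : EndField M} (hJ : IsACSM J) {Ω : Set M}
    (hΩ : IsOpen Ω) {v : M → ℝ} (hv : IsPSHM J Ω fun x => (v x : EReal))
    (hb : ∃ B, ∀ x ∈ Ω, |v x| ≤ B) : ∃ μ : Measure M, IsMAM J Ω v μ := by
  have hex : ∀ e ∈ atlas E M, ∃ G, IsWeakGrad (chartSet e Ω) (fun y => v (e.symm y)) G := by
    intro e he
    obtain ⟨B, hB⟩ := hb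
    exact exG (isOpen_chartSet e hΩ) (chartJ_acs hJ he Ω) (v := fun y => v (e.symm y))
      (psh_transfer he hv) ⟨B, fun y hy => hB _ hy.2⟩
  choose! G hG using hex
  have hl := fun c : Ω => local_measure hJ hΩ hv hb (chart_mem_atlas E c.1)
    (hG _ (chart_mem_atlas E c.1)) c.2 (mem_chart_source E c.1)
  choose T m hTo hcT hTΩ hTe hfin hrep using hl
  have hcons : ∀ c d : Ω, (m c).restrict (T c ∩ T d) = (m d).restrict (T c ∩ T d) := by
    intro c d
    have he := chart_mem_atlas E c.1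
    have hf : ∀ k : Ω, ∀ K, IsCompact K → K ⊆ T c ∩ T d → m k K < ⊤ := fun k K _ _ =>
      lt_of_le_of_lt (measure_mono (subset_univ _)) (hfin k)
    refine chart_pull (chartAt E c.1) ((hTo c).inter (hTo d)) (fun y hy => hTe c hy.1) ?_
    refine meas_unique (isOpen_chartSet _ ((hTo c).inter (hTo d))) (chart_push_fin _ (hf c))
      (chart_push_fin _ (hf d)) fun f hf' => ?_
    have h1 := rep_glob hJ hΩ he (hG _ he).1 (fun y hy => hTΩ c hy.1) (hf c)
      (fun x hx _ => hrep c _ rfl x hx.1) hf'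
    have h2 := rep_glob hJ hΩ he (hG _ he).1 (fun y hy => hTΩ c hy.1) (hf d)
      (fun x hx hxe => rep_change hJ hΩ hv hb (chart_mem_atlas E d.1) he
        (hG _ (chart_mem_atlas E d.1)) (hG _ he) (hTΩ c hx.1) (hTe d hx.2) hxe
        (hrep d _ rfl x hx.2)) hf'
    exact_mod_cast h1.trans h2.symm
  obtain ⟨μ, hμ⟩ := meas_glue T hTo m hcons
  have hK : ∀ K, IsCompact K → K ⊆ Ω → μ K < ⊤ := by
    intro K hK hKΩ
    refine hK.measure_lt_top_of_nhdsWithin fun x hx => ⟨T ⟨x, hKΩ hx⟩,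
      mem_nhdsWithin_of_mem_nhds ((hTo _).mem_nhds (hcT _)), ?_⟩
    rw [← Measure.restrict_apply_self, hμ, Measure.restrict_apply_self]
    exact lt_of_le_of_lt (measure_mono (subset_univ _)) (hfin _)
  refine ⟨μ, hK, fun e he => ⟨G e, hG e he, fun f hf => ?_⟩⟩
  rw [← rep_glob hJ hΩ he (hG _ he).1 Subset.rfl hK (fun x hx hxe =>
    rep_change hJ hΩ hv hb (chart_mem_atlas E x) he (hG _ (chart_mem_atlas E x)) (hG _ he) hx
      (mem_chart_source E x) hxe (hrep ⟨x, hx⟩ μ (hμ _) x (hcT ⟨x, hx⟩))) hf,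
    integral_map (aemeasurable_chart e μ) hf.1.continuous.aestronglyMeasurable]

omit [ChartedSpace E M] [IsManifold 𝓘(ℝ, E) ∞ M] in
theorem aemeasurable_uscM {w : M → EReal} {T : Set M} (hT : IsOpen T)
    (hw : UpperSemicontinuousOn w T) (ν : Measure M) : AEMeasurable w (ν.restrict T) := by
  have h0 : UpperSemicontinuous (fun x : T => w x) := by
    intro x t ht
    have h2 : Tendsto (fun z : T => (z : M)) (𝓝 x) (𝓝[T] (x : M)) :=
      tendsto_nhdsWithin_iff.2 ⟨continuous_subtype_val.tendsto x, Eventually.of_forall fun z => z.2⟩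
    exact h2.eventually (hw x x.2 t ht)
  have h1 : Measurable (fun x : T => w x) := h0.measurable
  exact (aemeasurable_restrict_iff_comap_subtype hT.measurableSet).2 h1.aemeasurable

end Pool.Agent.Lib.MP_f2cf74_an
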