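import Pool.Agent.Lib.MP_f2cf74_an.KI

open Set Metric MeasureTheory Complex Filter Topology
open scoped ContDiff ENNReal NNReal

noncomputable section

namespace Pool.Agent.Lib.MP_f2cf74_an

/-! The normalising factor `N0`.
`N0_facts`: `chiF 1 (A x h)` is `≥ 1` for `0 < ‖h‖ ≤ 1 / (2 K)`, bounded by `3 K² ‖h‖⁻²`, vanishes
for `K ≤ ‖h‖`; with `n τ = 3 τ⁻¹ (1 - τ)₊²` one has `|n τ - n τ'| ≤ C |τ - τ'| / min τ τ' ^ 2`.
`N_ident`: for `0 < ε ≤ s` the kernel `ktr s kBM - ktr ε kBM` is `O (ε⁻² ‖z‖⁻¹)` near `0`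
(or simply `O (‖z‖⁻²)`), so `ki0` with `G = 1` shows that the integral does not depend on `s`
(`dvK` is additive off the centre).  By `dvK_sub` and `ktr_kBM_div` it equals
`-∫ chi ε x y + O (ε)`, and `∫ chi ε x y dy = ∫ chiF 1 (A (x + ε h) h) dh → N0 x`
(scaling `y = x + ε h`, dominated convergence). -/

/-- The dominating function. -/
def nn_dom (R : ℝ) (h : E) : ℝ := (ball (0 : E) R).indicator (fun h => ‖h‖⁻¹ ^ 3) h

theorem nn_dom_int (R : ℝ) : Integrable (nn_dom R) := by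
  have h := integrableOn_inv_cube (0 : E) R
  simp only [sub_zero] at h
  exact (integrable_indicator_iff measurableSet_ball).2 h

theorem nn_dom_nonneg (R : ℝ) (h : E) : 0 ≤ nn_dom R h := by
  unfold nn_dom
  exact indicator_nonneg (fun _ _ => by positivity) h

theorem nn_dom_in {R : ℝ} {h : E} (hh : ‖h‖ < R) : nn_dom R h = ‖h‖⁻¹ ^ 3 := by
  unfold nn_dom
  rw [indicator_of_mem (by simpa using hh)]

theorem nn_ne (M : Model) (x : E) {h : E} (hh : h ≠ 0) : M.A x h ≠ 0 := by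
  intro h0
  have := M.low x h
  rw [h0, norm_zero, mul_zero] at this
  exact hh (norm_le_zero_iff.1 this)

theorem nn_inv (M : Model) (x : E) {h : E} (hh : h ≠ 0) : ‖M.A x h‖⁻¹ ≤ M.K * ‖h‖⁻¹ := by
  have h1 : 0 < ‖h‖ := norm_pos_iff.2 hh
  have h2 : 0 < ‖M.A x h‖ := norm_pos_iff.2 (nn_ne M x hh)
  have h3 := M.low x h
  rw [← div_eq_mul_inv, inv_eq_one_div, div_le_div_iff₀ h2 h1]
  linarith

theorem nn_out (M : Model) (x : E) {h : E} (hh : 2 * M.K ≤ ‖h‖) : 1 < ‖M.A x h‖ := by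
  have h3 := M.low x h
  have hK := M.K_pos
  by_contra hc
  push Not at hc
  have : M.K * ‖M.A x h‖ ≤ M.K * 1 := mul_le_mul_of_nonneg_left hc hK.le
  linarith

theorem nn_chi_zero (M : Model) (x : E) {h : E} (hh : 2 * M.K ≤ ‖h‖) :
    chiF 1 (M.A x h) = 0 :=
  (chiF_facts one_pos).2.1 _ (nn_out M x hh).le

theorem nn_pow_le {R t : ℝ} (ht : 0 < t) (hR : t ≤ R) :
    t⁻¹ ^ 2 ≤ R * t⁻¹ ^ 3 ∧ t⁻¹ ≤ R ^ 2 * t⁻¹ ^ 3 := by
  have h1 : 0 < t⁻¹ := inv_pos.2 ht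
  have h2 : 1 ≤ R * t⁻¹ := by
    rw [← div_eq_mul_inv, le_div_iff₀ ht]; linarith
  constructor
  · calc t⁻¹ ^ 2 = 1 * t⁻¹ ^ 2 := by ring
      _ ≤ (R * t⁻¹) * t⁻¹ ^ 2 := mul_le_mul_of_nonneg_right h2 (by positivity)
      _ = R * t⁻¹ ^ 3 := by ring
  · have h3 : 1 ≤ (R * t⁻¹) ^ 2 := one_le_pow₀ h2
    calc t⁻¹ = 1 * t⁻¹ := by ring
      _ ≤ (R * t⁻¹) ^ 2 * t⁻¹ := mul_le_mul_of_nonneg_right h3 h1.le
      _ = R ^ 2 * t⁻¹ ^ 3 := by ring

theorem nn_bd (M : Model) (x : E) {h : E} (hh : h ≠ 0) :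
    |chiF 1 (M.A x h)| ≤ 36 * M.K ^ 3 * nn_dom (2 * M.K) h := by
  have hK := M.K_pos
  by_cases hc : ‖h‖ < 2 * M.K
  · rw [nn_dom_in hc]
    have h1 := ((chiF_facts one_pos).2.2.2 _ (nn_ne M x hh)).b0
    rw [Complex.norm_real, Real.norm_eq_abs] at h1
    have h2 := nn_inv M x hh
    have h3 : ‖M.A x h‖⁻¹ ^ 2 ≤ (M.K * ‖h‖⁻¹) ^ 2 := pow_le_pow_left₀ (by positivity) h2 2
    have h4 := (nn_pow_le (norm_pos_iff.2 hh) hc.le).1
    have h5 : M.K ^ 2 * ‖h‖⁻¹ ^ 2 ≤ M.K ^ 2 * (2 * M.K * ‖h‖⁻¹ ^ 3) :=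
      mul_le_mul_of_nonneg_left h4 (by positivity)
    simp only [one_pow, inv_one, mul_one] at h1
    nlinarith
  · rw [nn_chi_zero M x (not_lt.1 hc), abs_zero]
    exact mul_nonneg (by positivity) (nn_dom_nonneg _ _)

theorem nn_lip0 (M : Model) (x x' : E) {h : E} (hh : h ≠ 0) :
    |chiF 1 (M.A x h) - chiF 1 (M.A x' h)| ≤ 18 * M.K ^ 4 * ‖h‖⁻¹ ^ 2 * ‖x - x'‖ := by
  have hK := M.K_pos
  have hp : 0 < ‖h‖ := norm_pos_iff.2 hh
  have hA : Differentiable ℝ M.A := M.smA.differentiable (by simp)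
  have hAh : ∀ y, HasFDerivAt (fun y => M.A y h) ((fderiv ℝ M.A y).flip h) y := by
    intro y
    have := (hA y).hasFDerivAt.clm_apply (hasFDerivAt_const h y)
    simpa using this
  have key := (convex_univ (𝕜 := ℝ) (E := E)).norm_image_sub_le_of_norm_hasFDerivWithin_le
    (f := fun y => (chiF 1 (M.A y h) : ℂ))
    (f' := fun y => (fderiv ℝ (fun w => (chiF 1 w : ℂ)) (M.A y h)).comp
      ((fderiv ℝ M.A y).flip h)) (C := 18 * M.K ^ 4 * ‖h‖⁻¹ ^ 2) (x := x') (y := x)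
    (fun y _ => (((chiF_facts one_pos).2.2.2 _ (nn_ne M y hh)).diff.hasFDerivAt.comp y
      (hAh y)).hasFDerivWithinAt) ?_ (mem_univ _) (mem_univ _)
  · rw [← Complex.ofReal_sub, Complex.norm_real, Real.norm_eq_abs] at key
    exact key
  · intro y _
    have h1 := ((chiF_facts one_pos).2.2.2 _ (nn_ne M y hh)).b1
    simp only [one_pow, inv_one, mul_one] at h1
    have h2 := nn_inv M y hh
    have hz : 0 < ‖M.A y h‖ := norm_pos_iff.2 (nn_ne M y hh)
    have h3 : ‖fderiv ℝ (fun w => (chiF 1 w : ℂ)) (M.A y h)‖ ≤ 18 * ‖M.A y h‖⁻¹ ^ 3 := by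
      have : 18 * ‖M.A y h‖⁻¹ ^ 3 = 18 * ‖M.A y h‖⁻¹ ^ 2 / ‖M.A y h‖ := by
        field_simp
      rw [this, le_div_iff₀ hz]; exact h1
    have h4 : ‖(fderiv ℝ M.A y).flip h‖ ≤ M.K * ‖h‖ := by
      refine ((fderiv ℝ M.A y).flip.le_opNorm h).trans ?_
      rw [ContinuousLinearMap.opNorm_flip]
      exact mul_le_mul_of_nonneg_right (M.bDA y) hp.le
    have h5 : ‖M.A y h‖⁻¹ ^ 3 ≤ (M.K * ‖h‖⁻¹) ^ 3 := pow_le_pow_left₀ (by positivity) h2 3
    refine (ContinuousLinearMap.opNorm_comp_le _ _).trans ?_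
    calc _ ≤ (18 * (M.K * ‖h‖⁻¹) ^ 3) * (M.K * ‖h‖) :=
          mul_le_mul (h3.trans (by linarith)) h4 (norm_nonneg _) (by positivity)
      _ = 18 * M.K ^ 4 * ‖h‖⁻¹ ^ 2 := by field_simp

theorem nn_lip (M : Model) (x x' : E) {h : E} (hh : h ≠ 0) :
    |chiF 1 (M.A x h) - chiF 1 (M.A x' h)| ≤ 36 * M.K ^ 5 * ‖x - x'‖ * nn_dom (2 * M.K) h := by
  have hK := M.K_pos
  by_cases hc : ‖h‖ < 2 * M.K
  · rw [nn_dom_in hc]
    refine (nn_lip0 M x x' hh).trans ?_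
    have h4 := (nn_pow_le (norm_pos_iff.2 hh) hc.le).1
    calc _ = (18 * M.K ^ 4 * ‖x - x'‖) * ‖h‖⁻¹ ^ 2 := by ring
      _ ≤ (18 * M.K ^ 4 * ‖x - x'‖) * (2 * M.K * ‖h‖⁻¹ ^ 3) :=
          mul_le_mul_of_nonneg_left h4 (by positivity)
      _ = _ := by ring
  · rw [nn_chi_zero M x (not_lt.1 hc), nn_chi_zero M x' (not_lt.1 hc), sub_zero, abs_zero]
    exact mul_nonneg (by positivity) (nn_dom_nonneg _ _)

theorem nn_meas (M : Model) (x : E) : Measurable fun h => chiF 1 (M.A x h) :=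
  (chiF_facts one_pos).2.2.1.comp (M.A x).continuous.measurable

theorem nn_int (M : Model) (x : E) : Integrable fun h => chiF 1 (M.A x h) := by
  refine ((nn_dom_int (2 * M.K)).const_mul (36 * M.K ^ 3)).mono'
    (nn_meas M x).aestronglyMeasurable ?_
  filter_upwards [volume.ae_ne (0 : E)] with h hh
  exact nn_bd M x hh

theorem nn_low (M : Model) (x : E) {h : E} (hh : h ≠ 0) (hc : ‖h‖ < 1 / (2 * M.K)) :
    1 ≤ chiF 1 (M.A x h) := by
  have hK := M.K_pos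
  have hz : 0 < ‖M.A x h‖ := norm_pos_iff.2 (nn_ne M x hh)
  have h1 : ‖M.A x h‖ ≤ 1 / 2 := by
    refine (M.norm_A x h).trans ?_
    rw [lt_div_iff₀ (by positivity)] at hc
    linarith
  set t := ‖M.A x h‖ with ht
  have h2 : t ^ 2 ≤ 1 / 4 := by nlinarith
  have h3 : 0 < t ^ 2 := by positivity
  have h4 : 4 ≤ (t ^ 2)⁻¹ := by
    rw [inv_eq_one_div, le_div_iff₀ h3]; linarith
  have h5 : 3 / 4 ≤ max (1 - t ^ 2) 0 := le_trans (by linarith) (le_max_left _ _)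
  have h6 : (3 / 4 : ℝ) ^ 2 ≤ max (1 - t ^ 2) 0 ^ 2 := pow_le_pow_left₀ (by norm_num) h5 2
  unfold chiF
  simp only [one_pow, inv_one, mul_one, div_one, ← ht]
  nlinarith

theorem N0_facts (M : Model) : ∃ c0 C0 : ℝ, 0 < c0 ∧ (∀ x, c0 ≤ N0 M x ∧ N0 M x ≤ C0) ∧
    ∀ x x', |N0 M x - N0 M x'| ≤ C0 * ‖x - x'‖ := by
  have hK := M.K_pos
  set D := ∫ h, nn_dom (2 * M.K) h with hD
  have hD0 : 0 ≤ D := integral_nonneg fun h => nn_dom_nonneg _ h
  refine ⟨volume.real (ball (0 : E) (1 / (2 * M.K))), 36 * M.K ^ 5 * D, ?_, fun x => ⟨?_, ?_⟩,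
    fun x x' => ?_⟩
  · exact ENNReal.toReal_pos (measure_ball_pos _ _ (by positivity)).ne' measure_ball_lt_top.ne
  · have h1 : volume.real (ball (0 : E) (1 / (2 * M.K))) =
        ∫ h, (ball (0 : E) (1 / (2 * M.K))).indicator (fun _ => (1 : ℝ)) h := by
      rw [integral_indicator measurableSet_ball]; simp
    rw [h1]
    refine integral_mono_ae ((integrable_indicator_iff measurableSet_ball).2
      (integrableOn_const measure_ball_lt_top.ne)) (nn_int M x) ?_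
    filter_upwards [volume.ae_ne (0 : E)] with h hh
    by_cases hc : h ∈ ball (0 : E) (1 / (2 * M.K))
    · rw [indicator_of_mem hc]
      exact nn_low M x hh (by simpa using hc)
    · rw [indicator_of_notMem hc]
      exact (chiF_facts one_pos).1 _
  · have h1 : N0 M x ≤ ∫ h, 36 * M.K ^ 3 * nn_dom (2 * M.K) h := by
      refine integral_mono_ae (nn_int M x) ((nn_dom_int _).const_mul _) ?_
      filter_upwards [volume.ae_ne (0 : E)] with h hh
      exact (le_abs_self _).trans (nn_bd M x hh)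
    rw [integral_const_mul] at h1
    refine h1.trans (mul_le_mul_of_nonneg_right ?_ hD0)
    have : M.K ^ 3 ≤ M.K ^ 5 := pow_le_pow_right₀ M.one_le (by norm_num)
    linarith
  · unfold N0
    rw [← integral_sub (nn_int M x) (nn_int M x'), ← Real.norm_eq_abs]
    refine (norm_integral_le_of_norm_le
      ((nn_dom_int (2 * M.K)).const_mul (36 * M.K ^ 5 * ‖x - x'‖)) ?_).trans ?_
    · filter_upwards [volume.ae_ne (0 : E)] with h hh
      exact nn_lip M x x' hh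
    · rw [integral_const_mul]
      exact le_of_eq (by ring)

theorem nn_cut_le {t : ℝ} (ht : 0 ≤ t) : |cut t - 1| ≤ 3 * t := by
  have h1 := cut_le_one ht
  have h0 := cut_nonneg t
  rw [abs_sub_comm, abs_of_nonneg (by linarith)]
  by_cases h : 1 ≤ t
  · linarith
  · push Not at h
    unfold cut
    rw [max_eq_left (by linarith)]
    nlinarith [mul_nonneg ht ht, mul_nonneg (mul_nonneg ht ht) (by linarith : (0 : ℝ) ≤ 3 - t)]

theorem nn_max_le {t : ℝ} (ht : 0 ≤ t) : max (1 - t) 0 ^ 2 ≤ 1 := by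
  have h1 : max (1 - t) 0 ≤ 1 := max_le (by linarith) zero_le_one
  have h0 : 0 ≤ max (1 - t) 0 := le_max_right _ _
  nlinarith

theorem nn_meas_ktr (s : ℝ) (p : Fin 2) : Measurable (ktr s kBM p) := by
  have hc : Continuous cut := by unfold cut; fun_prop
  have h1 : Measurable fun z : F => z p := (EuclideanSpace.proj (𝕜 := ℂ) p).continuous.measurable
  have h2 : Measurable fun z : F => ‖z‖ ^ 2 := measurable_norm.pow_const 2
  unfold ktr kBM
  exact (h1.mul (Complex.measurable_ofReal.comp (h2.inv.pow_const 2))).mul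
    (Complex.measurable_ofReal.comp (hc.measurable.comp (h2.div_const _)))

theorem nn_scale {G : Type} [NormedAddCommGroup G] [NormedSpace ℝ G] (g : E → G) (x : E) {e : ℝ}
    (he : 0 < e) : ∫ h, e ^ 4 • g (x + e • h) = ∫ y, g y := by
  rw [integral_smul, Measure.integral_comp_smul volume (fun z => g (x + z)) e,
    integral_add_left_eq_self, smul_smul]
  have : Module.finrank ℝ E = 4 := by simp
  rw [this, abs_of_pos (by positivity), mul_inv_cancel₀ (by positivity), one_smul]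

theorem nn_scale_int {G : Type} [NormedAddCommGroup G] [NormedSpace ℝ G] (g : E → G) (x : E)
    {e : ℝ} (he : 0 < e) (h : Integrable fun h => e ^ 4 • g (x + e • h)) : Integrable g := by
  have h1 : Integrable fun h : E => g (x + e • h) := by
    have := h.smul ((e ^ 4)⁻¹ : ℝ)
    refine this.congr (Eventually.of_forall fun h => ?_)
    simp only [Pi.smul_apply, smul_smul]
    rw [inv_mul_cancel₀ (by positivity), one_smul]
  have h2 : Integrable fun z : E => g (x + z) :=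
    (integrable_comp_smul_iff volume (fun z => g (x + z)) he.ne').1 h1
  have h3 := h2.comp_add_left (-x)
  simpa using h3

theorem nn_chi_scale {e : ℝ} (he : 0 < e) (z : F) : e ^ 4 * chiF e (e • z) = chiF 1 z := by
  unfold chiF
  rw [norm_smul, Real.norm_eq_abs, abs_of_pos he]
  have h1 : (e * ‖z‖) ^ 2 / e ^ 2 = ‖z‖ ^ 2 := by field_simp
  rw [h1, mul_pow, mul_inv]
  simp only [one_pow, inv_one, mul_one, div_one]
  field_simp

theorem nn_near (M : Model) : ∃ C : ℝ, 0 ≤ C ∧ ∀ (x : E) (e : ℝ), 0 < e → ∀ h : E, h ≠ 0 →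
    ‖e ^ 4 • dvK M (-I) (ktr e kBM) (fun y => M.A y (y - x)) (x + e • h) +
      (chiF 1 (M.A x h) : ℂ)‖ ≤ e * C * nn_dom (2 * M.K) h := by
  obtain ⟨C, hC, hs⟩ := dvK_sub M
  have hK := M.K_pos
  refine ⟨35 * C * M.K ^ 3 + 72 * M.K ^ 6, by positivity, fun x e he h hh => ?_⟩
  set y := x + e • h with hy
  have hyx : y - x = e • h := by rw [hy]; abel
  have hZ : M.A y (y - x) = e • M.A y h := by rw [hyx, map_smul]
  have hz0 : M.A y h ≠ 0 := nn_ne M y hh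
  have hz1 : e • M.A y h ≠ 0 := smul_ne_zero he.ne' hz0
  have hn : ‖e • M.A y h‖ = e * ‖M.A y h‖ := by
    rw [norm_smul, Real.norm_eq_abs, abs_of_pos he]
  have hd0 := nn_dom_nonneg (2 * M.K) h
  have h1 : ‖dvK M (-I) (ktr e kBM) (fun y => M.A y (y - x)) y + (chiF e (e • M.A y h) : ℂ)‖ ≤
      C * (35 * (e⁻¹ ^ 3 * M.K ^ 3 * nn_dom (2 * M.K) h)) := by
    by_cases hc : ‖h‖ < 2 * M.K
    · have h2 := hs x (fun y => M.A y (y - x)) (-I) (ktr e kBM) y
        (7 * (5 * ‖e • M.A y h‖⁻¹ ^ 3)) (M.coord2 x) (by simp) (fun p => by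
          rw [hZ]; exact (ktr_facts he ((kBM_facts hz1).1 p)).1)
      simp only [hZ] at h2
      rw [ktr_kBM_div he hz1, sub_neg_eq_add] at h2
      refine h2.trans (mul_le_mul_of_nonneg_left ?_ hC)
      rw [nn_dom_in hc, hn, mul_inv, mul_pow]
      have h3 : ‖M.A y h‖⁻¹ ^ 3 ≤ (M.K * ‖h‖⁻¹) ^ 3 :=
        pow_le_pow_left₀ (by positivity) (nn_inv M y hh) 3
      have h4 : e⁻¹ ^ 3 * ‖M.A y h‖⁻¹ ^ 3 ≤ e⁻¹ ^ 3 * (M.K * ‖h‖⁻¹) ^ 3 :=
        mul_le_mul_of_nonneg_left h3 (by positivity)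
      rw [mul_pow] at h4
      linarith
    · have h3 : e < ‖e • M.A y h‖ := by
        rw [hn]
        have := nn_out M y (not_lt.1 hc)
        nlinarith
      have h2 := hs x (fun y => M.A y (y - x)) (-I) (ktr e kBM) y 0 (M.coord2 x) (by simp)
        (fun p => by rw [hZ]; exact ktr_KB_out he kBM p h3)
      simp only [hZ] at h2
      rw [ktr_kBM_div he hz1, sub_neg_eq_add] at h2
      exact h2.trans (mul_le_mul_of_nonneg_left (by positivity) hC)
  have h5 : |chiF 1 (M.A x h) - chiF 1 (M.A y h)| ≤ e * (72 * M.K ^ 6) * nn_dom (2 * M.K) h := by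
    by_cases hc : ‖h‖ < 2 * M.K
    · refine (nn_lip M x y hh).trans (mul_le_mul_of_nonneg_right ?_ hd0)
      rw [norm_sub_rev, hyx, norm_smul, Real.norm_eq_abs, abs_of_pos he]
      have : 36 * M.K ^ 5 * e * ‖h‖ ≤ 36 * M.K ^ 5 * e * (2 * M.K) :=
        mul_le_mul_of_nonneg_left hc.le (by positivity)
      nlinarith
    · rw [nn_chi_zero M x (not_lt.1 hc), nn_chi_zero M y (not_lt.1 hc), sub_zero, abs_zero]
      positivity
  have h6 : e ^ 4 • dvK M (-I) (ktr e kBM) (fun y => M.A y (y - x)) y + (chiF 1 (M.A x h) : ℂ) =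
      e ^ 4 • (dvK M (-I) (ktr e kBM) (fun y => M.A y (y - x)) y + (chiF e (e • M.A y h) : ℂ)) +
        ((chiF 1 (M.A x h) - chiF 1 (M.A y h) : ℝ) : ℂ) := by
    rw [← nn_chi_scale he (M.A y h)]
    simp only [Complex.real_smul]
    push_cast
    ring
  rw [h6]
  refine (norm_add_le _ _).trans ?_
  rw [norm_smul, Complex.norm_real, Real.norm_eq_abs, Real.norm_eq_abs,
    abs_of_pos (by positivity : 0 < e ^ 4)]
  have h7 := mul_le_mul_of_nonneg_left h1 (by positivity : 0 ≤ e ^ 4)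
  have h8 : e ^ 4 * (C * (35 * (e⁻¹ ^ 3 * M.K ^ 3 * nn_dom (2 * M.K) h))) =
      e * (35 * C * M.K ^ 3) * nn_dom (2 * M.K) h := by field_simp
  rw [h8] at h7
  calc _ ≤ e * (35 * C * M.K ^ 3) * nn_dom (2 * M.K) h +
        e * (72 * M.K ^ 6) * nn_dom (2 * M.K) h := add_le_add h7 h5
    _ = _ := by ring

theorem nn_int_sc (M : Model) (x : E) {e : ℝ} (he : 0 < e) : Integrable fun h =>
    e ^ 4 • dvK M (-I) (ktr e kBM) (fun y => M.A y (y - x)) (x + e • h) := by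
  obtain ⟨C, hC, hs⟩ := nn_near M
  have hm : Measurable (dvK M (-I) (ktr e kBM) (fun y => M.A y (y - x))) :=
    measurable_dvK M _ (nn_meas_ktr e) (M.coord2 x).diff.continuous
  have hm2 : Measurable fun h : E =>
      e ^ 4 • dvK M (-I) (ktr e kBM) (fun y => M.A y (y - x)) (x + e • h) :=
    (hm.comp (by fun_prop : Continuous fun h : E => x + e • h).measurable).const_smul (e ^ 4)
  have hi : Integrable fun h => (chiF 1 (M.A x h) : ℂ) := (nn_int M x).ofReal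
  have h1 : Integrable fun h : E =>
      e ^ 4 • dvK M (-I) (ktr e kBM) (fun y => M.A y (y - x)) (x + e • h) +
        (chiF 1 (M.A x h) : ℂ) := by
    refine ((nn_dom_int (2 * M.K)).const_mul (e * C)).mono'
      (hm2.aestronglyMeasurable.add hi.aestronglyMeasurable) ?_
    filter_upwards [volume.ae_ne (0 : E)] with h hh
    exact hs x e he h hh
  refine (h1.sub hi).congr (Eventually.of_forall fun h => ?_)
  simp

theorem nn_int_T (M : Model) (x : E) {e : ℝ} (he : 0 < e) :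
    Integrable (dvK M (-I) (ktr e kBM) (fun y => M.A y (y - x))) :=
  nn_scale_int _ x he (nn_int_sc M x he)

theorem nn_est (M : Model) : ∃ C : ℝ, 0 ≤ C ∧ ∀ (x : E) (e : ℝ), 0 < e →
    ‖(∫ y, dvK M (-I) (ktr e kBM) (fun y => M.A y (y - x)) y) + (N0 M x : ℂ)‖ ≤ e * C := by
  obtain ⟨C, hC, hs⟩ := nn_near M
  refine ⟨C * ∫ h, nn_dom (2 * M.K) h,
    mul_nonneg hC (integral_nonneg fun h => nn_dom_nonneg _ h), fun x e he => ?_⟩
  have hi : Integrable fun h => (chiF 1 (M.A x h) : ℂ) := (nn_int M x).ofReal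
  rw [← nn_scale _ x he]
  unfold N0
  rw [← integral_complex_ofReal, ← integral_add (nn_int_sc M x he) hi]
  refine (norm_integral_le_of_norm_le ((nn_dom_int (2 * M.K)).const_mul (e * C)) ?_).trans ?_
  · filter_upwards [volume.ae_ne (0 : E)] with h hh
    exact hs x e he h hh
  · rw [integral_const_mul]
    exact le_of_eq (by ring)

theorem nn_diffKB {s e : ℝ} (hs : 0 < s) (he : 0 < e) (p : Fin 2) {z : F} (hz : z ≠ 0) :
    KB (fun w => ktr s kBM p w - ktr e kBM p w) z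
      (15 * (3 / s ^ 2 + 3 / e ^ 2) * ‖z‖⁻¹) := by
  set L := 3 / s ^ 2 + 3 / e ^ 2 with hL
  have hL0 : 0 ≤ L := by positivity
  have hp : 0 < ‖z‖ := norm_pos_iff.2 hz
  have hk := (kBM_facts hz).1 p
  have hd : ∀ r : ℝ, HasDerivAt (fun t : ℝ => cut (t / r ^ 2))
      (-3 * max (1 - ‖z‖ ^ 2 / r ^ 2) 0 ^ 2 * (1 / r ^ 2)) (‖z‖ ^ 2) := fun r =>
    (hasDerivAt_cut _).comp (‖z‖ ^ 2) ((hasDerivAt_id (‖z‖ ^ 2)).div_const (r ^ 2))
  have hφ := (hd s).sub (hd e)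
  obtain ⟨h1, -, h3⟩ := rad_mul (φ := fun t => cut (t / s ^ 2) - cut (t / e ^ 2)) hk.diff hφ
  have hf : (fun w => ktr s kBM p w - ktr e kBM p w) =
      fun w => kBM p w * ((cut (‖w‖ ^ 2 / s ^ 2) - cut (‖w‖ ^ 2 / e ^ 2) : ℝ) : ℂ) := by
    funext w
    unfold ktr
    push_cast
    ring
  have hv : |cut (‖z‖ ^ 2 / s ^ 2) - cut (‖z‖ ^ 2 / e ^ 2)| ≤ L * ‖z‖ ^ 2 := by
    have a1 := nn_cut_le (t := ‖z‖ ^ 2 / s ^ 2) (by positivity)
    have a2 := nn_cut_le (t := ‖z‖ ^ 2 / e ^ 2) (by positivity)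
    have a3 : L * ‖z‖ ^ 2 = 3 * (‖z‖ ^ 2 / s ^ 2) + 3 * (‖z‖ ^ 2 / e ^ 2) := by rw [hL]; ring
    rw [a3]
    rw [abs_le] at a1 a2 ⊢
    constructor <;> linarith [a1.1, a1.2, a2.1, a2.2]
  have hv' : |-3 * max (1 - ‖z‖ ^ 2 / s ^ 2) 0 ^ 2 * (1 / s ^ 2) -
      -3 * max (1 - ‖z‖ ^ 2 / e ^ 2) 0 ^ 2 * (1 / e ^ 2)| ≤ L := by
    have a1 := nn_max_le (t := ‖z‖ ^ 2 / s ^ 2) (by positivity)
    have a2 := nn_max_le (t := ‖z‖ ^ 2 / e ^ 2) (by positivity)
    have b1 : max (1 - ‖z‖ ^ 2 / s ^ 2) 0 ^ 2 * (1 / s ^ 2) ≤ 1 * (1 / s ^ 2) :=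
      mul_le_mul_of_nonneg_right a1 (by positivity)
    have b2 : max (1 - ‖z‖ ^ 2 / e ^ 2) 0 ^ 2 * (1 / e ^ 2) ≤ 1 * (1 / e ^ 2) :=
      mul_le_mul_of_nonneg_right a2 (by positivity)
    have c1 : 0 ≤ max (1 - ‖z‖ ^ 2 / s ^ 2) 0 ^ 2 * (1 / s ^ 2) := by positivity
    have c2 : 0 ≤ max (1 - ‖z‖ ^ 2 / e ^ 2) 0 ^ 2 * (1 / e ^ 2) := by positivity
    have a3 : L = 3 * (1 / s ^ 2) + 3 * (1 / e ^ 2) := by rw [hL]; ring
    rw [a3, abs_le]
    constructor <;> linarith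
  have hb0 : ‖kBM p z‖ ≤ 5 * ‖z‖⁻¹ ^ 3 := hk.b0
  have hb1 := hk.b1
  have e1 : 5 * ‖z‖⁻¹ ^ 3 * (L * ‖z‖ ^ 2) = 5 * L * ‖z‖⁻¹ := by field_simp
  have hq : 0 ≤ L * ‖z‖⁻¹ := by positivity
  rw [hf]
  refine ⟨h1, ?_, ?_⟩
  · rw [norm_mul, Complex.norm_real, Real.norm_eq_abs]
    refine (mul_le_mul hb0 hv (abs_nonneg _) (by positivity)).trans ?_
    rw [e1]; linarith
  · refine (mul_le_mul_of_nonneg_right h3 hp.le).trans ?_
    have d1 : ‖fderiv ℝ (kBM p) z‖ * ‖z‖ * |cut (‖z‖ ^ 2 / s ^ 2) - cut (‖z‖ ^ 2 / e ^ 2)| ≤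
        5 * ‖z‖⁻¹ ^ 3 * (L * ‖z‖ ^ 2) := mul_le_mul hb1 hv (abs_nonneg _) (by positivity)
    have d2 := mul_le_mul hb0 (mul_le_mul_of_nonneg_right hv' (by positivity : 0 ≤ ‖z‖ ^ 2))
      (by positivity) (by positivity)
    rw [e1] at d1 d2
    nlinarith

theorem nn_dvK_sub (M : Model) (c : ℂ) {k l : Fin 2 → F → ℂ} {Z : E → F} {y : E}
    (hZ : DifferentiableAt ℝ Z y) (hk : ∀ p, DifferentiableAt ℝ (k p) (Z y))
    (hl : ∀ p, DifferentiableAt ℝ (l p) (Z y)) :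
    dvK M c (fun p w => k p w - l p w) Z y = dvK M c k Z y - dvK M c l Z y := by
  unfold dvK
  rw [← Finset.sum_sub_distrib]
  refine Finset.sum_congr rfl fun p _ => ?_
  have h1 : DifferentiableAt ℝ (fun x' => k p (Z x')) y := (hk p).comp y hZ
  have h2 : DifferentiableAt ℝ (fun x' => l p (Z x')) y := (hl p).comp y hZ
  unfold Lc
  rw [fderiv_fun_sub h1 h2]
  simp only [sub_apply]
  ring

theorem nn_indep (M : Model) (x : E) {s e : ℝ} (hs : 0 < s) (he : 0 < e) :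
    ∫ y, dvK M (-I) (ktr s kBM) (fun y => M.A y (y - x)) y =
      ∫ y, dvK M (-I) (ktr e kBM) (fun y => M.A y (y - x)) y := by
  have hK := M.K_pos
  set L := 3 / s ^ 2 + 3 / e ^ 2 with hL
  have hL0 : 0 ≤ L := by positivity
  set R := M.K * (s + e) with hR
  have hR0 : 0 < R := by positivity
  obtain ⟨C, hC, hsg⟩ := inv_cube_le_sg R
  have hZ := M.coord2 x
  have h := ki0 M hZ (c := -I) (by simp) (k := fun p w => ktr s kBM p w - ktr e kBM p w)
    (κ := fun y => 15 * L * ‖M.A y (y - x)‖⁻¹) (R := R) (C1 := 15 * L * M.K * R * C)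
    (G := fun _ => 1) contDiff_const
    (fun y hy p => nn_diffKB hs he p (nn_ne M y (sub_ne_zero.2 hy))) ?_ ?_
  · obtain ⟨-, -, h3⟩ := h
    have h4 : ∀ p y, Lc M (-I) p (fun _ => (1 : ℂ)) y = 0 := by
      intro p y; simp [Lc]
    simp only [h4, mul_zero, Finset.sum_const_zero, integral_zero, mul_one] at h3
    rw [← sub_eq_zero, ← integral_sub (nn_int_T M x hs) (nn_int_T M x he),
      ← neg_eq_zero.1 h3.symm]
    refine integral_congr_ae ?_
    filter_upwards [volume.ae_ne x] with y hy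
    have hz := nn_ne M y (sub_ne_zero.2 hy)
    exact (nn_dvK_sub M (-I) (hZ.diff.differentiable one_ne_zero y)
      (fun p => (ktr_facts hs ((kBM_facts hz).1 p)).1.diff)
      (fun p => (ktr_facts he ((kBM_facts hz).1 p)).1.diff)).symm
  · intro y hy p
    have h1 := M.low y (y - x)
    have h2 : s + e ≤ ‖M.A y (y - x)‖ := le_of_mul_le_mul_left (hy.trans h1) hK
    rw [ktr_eq_zero hs kBM p (by linarith), ktr_eq_zero he kBM p (by linarith), sub_zero]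
  · intro y hy hlt
    have hp : 0 < ‖y - x‖ := norm_pos_iff.2 (sub_ne_zero.2 hy)
    have hs0 : 0 ≤ sg x y := Real.rpow_nonneg (norm_nonneg _) _
    constructor
    · rw [norm_one, mul_one]
      have h1 := nn_inv M y (sub_ne_zero.2 hy)
      have h2 := (hsg y x hlt).2
      have h3 : ‖y - x‖⁻¹ ≤ R * ‖y - x‖⁻¹ ^ 2 := by
        have : 1 ≤ R * ‖y - x‖⁻¹ := by
          rw [← div_eq_mul_inv, le_div_iff₀ hp]; linarith
        calc ‖y - x‖⁻¹ = 1 * ‖y - x‖⁻¹ := by ring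
          _ ≤ (R * ‖y - x‖⁻¹) * ‖y - x‖⁻¹ := mul_le_mul_of_nonneg_right this (by positivity)
          _ = _ := by ring
      have h4 : ‖M.A y (y - x)‖⁻¹ ≤ M.K * (R * (C * (‖y - x‖ * sg x y))) :=
        h1.trans (mul_le_mul_of_nonneg_left (h3.trans
          (mul_le_mul_of_nonneg_left h2 hR0.le)) hK.le)
      calc _ ≤ 15 * L * (M.K * (R * (C * (‖y - x‖ * sg x y)))) :=
            mul_le_mul_of_nonneg_left h4 (by positivity)
        _ = _ := by ring
    · simp only [fderiv_fun_const, Pi.zero_apply, norm_zero, mul_zero]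
      positivity

theorem N_ident (M : Model) (x : E) {s : ℝ} (hs : 0 < s) :
    Integrable (dvK M (-I) (ktr s kBM) (fun y => M.A y (y - x))) ∧
    ∫ y, dvK M (-I) (ktr s kBM) (fun y => M.A y (y - x)) y = -(N0 M x : ℂ) := by
  refine ⟨nn_int_T M x hs, ?_⟩
  obtain ⟨C, hC, h⟩ := nn_est M
  rw [← add_eq_zero_iff_eq_neg, ← norm_le_zero_iff]
  refine le_of_forall_pos_le_add fun δ hδ => ?_
  have he : 0 < δ / (C + 1) := by positivity
  rw [nn_indep M x hs he, zero_add]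
  refine (h x _ he).trans ?_
  rw [div_mul_eq_mul_div, div_le_iff₀ (by positivity)]
  nlinarith

end Pool.Agent.Lib.MP_f2cf74_an
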