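import Pool.Agent.Lib.MP_f2cf74_an.CT2

open Set Metric MeasureTheory Complex Filter Topology
open scoped ContDiff ENNReal NNReal

noncomputable section

namespace Pool.Agent.Lib.MP_f2cf74_an

/-! One step of the Picard iteration for `dzb μ = S (ε μ) (dz μ)`.
`muq X q ζ = ζ • X + cT q ζ - cT q 0` has `dz = X + cT (dz q)` and `dzb = q`, and
`dzb (X + cT (dz q)) = dz q`.  Since `S z` is antilinear, `dz (S p) = (dz S) p + S (dzb p)`, so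
`dz (picStep q)` is an explicit expression in `χ, dz χ, μ, p, q, dz q`, which is bounded by `C ε`
and Lipschitz with constant `C ε` (bounds for `S`, `fderiv S` and a Lipschitz constant of
`fderiv S` on `closedBall 0 1`; `‖S z‖ ≤ L ‖z‖`). -/

def muq (X : F) (q : ℂ → F) (ζ : ℂ) : F := ζ • X + cT q ζ - cT q 0

def picStep (S : F → F →L[ℝ] F) (χ : ℂ → ℝ) (X : F) (ε : ℝ) (q : ℂ → F) (ζ : ℂ) : F :=
  χ ζ • S (ε • muq X q ζ) (X + cT (dz q) ζ)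

/-- The class on which the iteration acts. -/
structure QOK (q : ℂ → F) : Prop where
  sm : ContDiff ℝ ∞ q
  supp : ∀ z, 2 ≤ ‖z‖ → q z = 0
  b0 : ∀ z, ‖q z‖ ≤ 1
  b1 : ∀ z, ‖dz q z‖ ≤ 1

theorem pic1_lip {G : Type} [NormedAddCommGroup G] [NormedSpace ℝ G] {f : F → G}
    (hf : ContDiff ℝ ∞ f) : ∃ L : ℝ, 0 ≤ L ∧ (∀ x : F, ‖x‖ ≤ 1 → ‖fderiv ℝ f x‖ ≤ L) ∧
      ∀ x y : F, ‖x‖ ≤ 1 → ‖y‖ ≤ 1 → ‖f x - f y‖ ≤ L * ‖x - y‖ := by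
  obtain ⟨L, hL⟩ := (isCompact_closedBall (0 : F) 1).exists_bound_of_continuousOn
    (hf.continuous_fderiv (by simp)).continuousOn
  have hL' : ∀ x : F, ‖x‖ ≤ 1 → ‖fderiv ℝ f x‖ ≤ L := fun x hx => hL x (by simpa using hx)
  refine ⟨L, le_trans (norm_nonneg _) (hL' 0 (by simp)), hL', fun x y hx hy => ?_⟩
  exact (convex_closedBall (0 : F) 1).norm_image_sub_le_of_norm_fderiv_le
    (fun z _ => (hf.differentiable (by simp)) z) hL (by simpa using hy) (by simpa using hx)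

/-- The bounds on `S` used in the estimates. -/
structure pic1_SB (S : F → F →L[ℝ] F) (L : ℝ) : Prop where
  nn : 0 ≤ L
  z : S 0 = 0
  d : ∀ x, ‖x‖ ≤ 1 → ‖fderiv ℝ S x‖ ≤ L
  l0 : ∀ x y, ‖x‖ ≤ 1 → ‖y‖ ≤ 1 → ‖S x - S y‖ ≤ L * ‖x - y‖
  l1 : ∀ x y, ‖x‖ ≤ 1 → ‖y‖ ≤ 1 → ‖fderiv ℝ S x - fderiv ℝ S y‖ ≤ L * ‖x - y‖

theorem pic1_exists_SB {S : F → F →L[ℝ] F} (hS : ContDiff ℝ ∞ S) (h0 : S 0 = 0) :
    ∃ L, pic1_SB S L := by
  obtain ⟨L1, h1, hd, hl⟩ := pic1_lip hS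
  obtain ⟨L2, -, -, hl'⟩ := pic1_lip (hS.fderiv_right (m := ∞) (by simp))
  refine ⟨max L1 L2, le_max_of_le_left h1, h0, fun x hx => (hd x hx).trans (le_max_left _ _),
    fun x y hx hy => (hl x y hx hy).trans ?_, fun x y hx hy => (hl' x y hx hy).trans ?_⟩
  · exact mul_le_mul_of_nonneg_right (le_max_left _ _) (norm_nonneg _)
  · exact mul_le_mul_of_nonneg_right (le_max_right _ _) (norm_nonneg _)

theorem pic1_small {ε R : ℝ} (hε : 0 ≤ ε) (hR : ε * R ≤ 1) {a : F} (ha : ‖a‖ ≤ R) :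
    ‖ε • a‖ ≤ ε * R ∧ ‖ε • a‖ ≤ 1 := by
  have h : ‖ε • a‖ ≤ ε * R := by
    rw [norm_smul, Real.norm_of_nonneg hε]
    exact mul_le_mul_of_nonneg_left ha hε
  exact ⟨h, h.trans hR⟩

theorem pic1_nS {S : F → F →L[ℝ] F} {L ε R : ℝ} (h : pic1_SB S L) (hε : 0 ≤ ε) (hR : ε * R ≤ 1)
    {a : F} (ha : ‖a‖ ≤ R) : ‖S (ε • a)‖ ≤ L * (ε * R) := by
  have h1 := h.l0 (ε • a) 0 (pic1_small hε hR ha).2 (by simp)
  rw [h.z, sub_zero, sub_zero] at h1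
  exact h1.trans (mul_le_mul_of_nonneg_left (pic1_small hε hR ha).1 h.nn)

theorem pic1_dsm {ε R m : ℝ} (hε : 0 ≤ ε) {a a' : F} (h : ‖a - a'‖ ≤ R * m) :
    ‖ε • a - ε • a'‖ ≤ ε * (R * m) := by
  rw [← smul_sub, norm_smul, Real.norm_of_nonneg hε]
  exact mul_le_mul_of_nonneg_left h hε

theorem pic1_A {S : F → F →L[ℝ] F} {L ε R : ℝ} (h : pic1_SB S L) (hε : 0 ≤ ε) (hR : ε * R ≤ 1)
    {a p : F} (ha : ‖a‖ ≤ R) (hp : ‖p‖ ≤ R) : ‖S (ε • a) p‖ ≤ L * R ^ 2 * ε := by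
  have h1 := pic1_nS h hε hR ha
  calc ‖S (ε • a) p‖ ≤ ‖S (ε • a)‖ * ‖p‖ := ContinuousLinearMap.le_opNorm _ _
    _ ≤ L * (ε * R) * R := mul_le_mul h1 hp (norm_nonneg _) ((norm_nonneg _).trans h1)
    _ = L * R ^ 2 * ε := by ring

theorem pic1_A' {S : F → F →L[ℝ] F} {L ε R m : ℝ} (h : pic1_SB S L) (hε : 0 ≤ ε)
    (hR : ε * R ≤ 1) {a p a' p' : F} (ha : ‖a‖ ≤ R) (ha' : ‖a'‖ ≤ R) (hp : ‖p‖ ≤ R)
    (haa : ‖a - a'‖ ≤ R * m) (hpp : ‖p - p'‖ ≤ R * m) :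
    ‖S (ε • a) p - S (ε • a') p'‖ ≤ 2 * (L * R ^ 2 * ε * m) := by
  have h1 := pic1_nS h hε hR ha'
  have h2 : ‖S (ε • a) - S (ε • a')‖ ≤ L * (ε * (R * m)) :=
    (h.l0 _ _ (pic1_small hε hR ha).2 (pic1_small hε hR ha').2).trans
      (mul_le_mul_of_nonneg_left (pic1_dsm hε haa) h.nn)
  have e : S (ε • a) p - S (ε • a') p' = (S (ε • a) - S (ε • a')) p + S (ε • a') (p - p') := by
    simp
  rw [e]
  calc _ ≤ ‖(S (ε • a) - S (ε • a')) p‖ + ‖S (ε • a') (p - p')‖ := norm_add_le _ _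
    _ ≤ ‖S (ε • a) - S (ε • a')‖ * ‖p‖ + ‖S (ε • a')‖ * ‖p - p'‖ :=
      add_le_add (ContinuousLinearMap.le_opNorm _ _) (ContinuousLinearMap.le_opNorm _ _)
    _ ≤ L * (ε * (R * m)) * R + L * (ε * R) * (R * m) :=
      add_le_add (mul_le_mul h2 hp (norm_nonneg _) ((norm_nonneg _).trans h2))
        (mul_le_mul h1 hpp (norm_nonneg _) ((norm_nonneg _).trans h1))
    _ = _ := by ring

theorem pic1_bil (B : F →L[ℝ] F →L[ℝ] F) {v p : F} {b c d : ℝ} (hB : ‖B‖ ≤ b) (hv : ‖v‖ ≤ c)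
    (hp : ‖p‖ ≤ d) : ‖B v p‖ ≤ b * c * d := by
  have hb : 0 ≤ b := (ContinuousLinearMap.opNorm_nonneg B).trans hB
  have hc := (norm_nonneg _).trans hv
  refine (B.le_opNorm₂ v p).trans ?_
  exact mul_le_mul (mul_le_mul hB hv (norm_nonneg _) hb) hp (norm_nonneg _) (mul_nonneg hb hc)

theorem pic1_B {S : F → F →L[ℝ] F} {L ε R : ℝ} (h : pic1_SB S L) (hε : 0 ≤ ε) (hR : ε * R ≤ 1)
    {a v p : F} (ha : ‖a‖ ≤ R) (hv : ‖v‖ ≤ R) (hp : ‖p‖ ≤ R) :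
    ‖fderiv ℝ S (ε • a) (ε • v) p‖ ≤ L * R ^ 2 * ε :=
  (pic1_bil _ (h.d _ (pic1_small hε hR ha).2) (pic1_small hε hR hv).1 hp).trans_eq (by ring)

theorem pic1_B' {S : F → F →L[ℝ] F} {L ε R m : ℝ} (h : pic1_SB S L) (hε : 0 ≤ ε)
    (hR : ε * R ≤ 1) {a v p a' v' p' : F} (ha : ‖a‖ ≤ R) (ha' : ‖a'‖ ≤ R) (hv : ‖v‖ ≤ R)
    (hv' : ‖v'‖ ≤ R) (hp : ‖p‖ ≤ R) (haa : ‖a - a'‖ ≤ R * m) (hvv : ‖v - v'‖ ≤ R * m)
    (hpp : ‖p - p'‖ ≤ R * m) :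
    ‖fderiv ℝ S (ε • a) (ε • v) p - fderiv ℝ S (ε • a') (ε • v') p'‖ ≤
      3 * (L * R ^ 2 * ε * m) := by
  have h1 := h.d _ (pic1_small hε hR ha').2
  have h2 : ‖fderiv ℝ S (ε • a) - fderiv ℝ S (ε • a')‖ ≤ L * (ε * (R * m)) :=
    (h.l1 _ _ (pic1_small hε hR ha).2 (pic1_small hε hR ha').2).trans
      (mul_le_mul_of_nonneg_left (pic1_dsm hε haa) h.nn)
  have e : fderiv ℝ S (ε • a) (ε • v) p - fderiv ℝ S (ε • a') (ε • v') p' =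
      (fderiv ℝ S (ε • a) - fderiv ℝ S (ε • a')) (ε • v) p +
        fderiv ℝ S (ε • a') (ε • v - ε • v') p + fderiv ℝ S (ε • a') (ε • v') (p - p') := by
    simp only [map_sub, sub_apply]
    abel
  rw [e]
  refine (norm_add₃_le).trans ((add_le_add (add_le_add
    (pic1_bil _ h2 (pic1_small hε hR hv).2 hp) (pic1_bil _ h1 (pic1_dsm hε hvv) hp))
    (pic1_bil _ h1 (pic1_small hε hR hv').1 hpp)).trans_eq (by ring))

theorem pic1_dzn (u v : F) {b : ℝ} (hu : ‖u‖ ≤ b) (hv : ‖v‖ ≤ b) :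
    ‖(1 / 2 : ℂ) • (u - I • v)‖ ≤ b := by
  have h1 : ‖u - I • v‖ ≤ b + b := by
    refine (norm_sub_le _ _).trans (add_le_add hu ?_)
    rw [norm_smul, Complex.norm_I, one_mul]
    exact hv
  have h2 : ‖(1 / 2 : ℂ)‖ = 1 / 2 := by simp
  rw [norm_smul, h2]
  linarith

theorem pic1_sm {c K b : ℝ} {u : F} (hc : ‖c‖ ≤ K) (hu : ‖u‖ ≤ b) : ‖c • u‖ ≤ K * b := by
  rw [norm_smul]
  exact mul_le_mul hc hu (norm_nonneg _) ((norm_nonneg _).trans hc)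

theorem pic1_fderiv_muq (X : F) {q : ℂ → F} (hq : ContDiff ℝ ∞ q) (hs : ∀ z, 2 ≤ ‖z‖ → q z = 0)
    (ζ w : ℂ) : fderiv ℝ (muq X q) ζ w = w • X + fderiv ℝ (cT q) ζ w := by
  have h1 : HasFDerivAt (fun z : ℂ => z • X) ((ContinuousLinearMap.id ℝ ℂ).smulRight X) ζ :=
    (hasFDerivAt_id ζ).smul_const X
  have h2 := ((cT_contDiff hq hs).differentiable (by simp) ζ).hasFDerivAt
  have h3 : HasFDerivAt (muq X q) _ ζ := (h1.add h2).sub_const (cT q 0)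
  rw [h3.fderiv]
  simp

theorem muq_facts (X : F) {q : ℂ → F} (hq : ContDiff ℝ ∞ q) (hs : ∀ z, 2 ≤ ‖z‖ → q z = 0) :
    ContDiff ℝ ∞ (muq X q) ∧ (∀ ζ, dz (muq X q) ζ = X + cT (dz q) ζ) ∧ dzb (muq X q) = q := by
  have hc := cT_contDiff hq hs
  refine ⟨((contDiff_id.smul contDiff_const).add hc).sub contDiff_const, fun ζ => ?_, ?_⟩
  · rw [← (cT_dz hq hs).1, dz, dz, pic1_fderiv_muq X hq hs, pic1_fderiv_muq X hq hs, smul_add,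
      smul_smul, I_mul_I]
    module
  · funext ζ
    have h : q ζ = dzb (cT q) ζ := by rw [(cT_dz hq hs).2, cT_dzb hq hs]
    rw [h, dzb, dzb, pic1_fderiv_muq X hq hs, pic1_fderiv_muq X hq hs, smul_add I,
      smul_smul I, I_mul_I]
    module

/-- The part of the derivative of `picStep` that does not differentiate `p`. -/
def pic1_T (S : F → F →L[ℝ] F) (χ : ℂ → ℝ) (X : F) (ε : ℝ) (q : ℂ → F) (ζ w : ℂ) : F :=
  fderiv ℝ χ ζ w • S (ε • muq X q ζ) (X + cT (dz q) ζ) +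
    χ ζ • fderiv ℝ S (ε • muq X q ζ)
      (ε • (w • (X + cT (dz q) ζ) + (starRingEnd ℂ) w • q ζ)) (X + cT (dz q) ζ)

theorem pic1_fderiv {S : F → F →L[ℝ] F} (hS : ContDiff ℝ ∞ S) {χ : ℂ → ℝ}
    (hχ : ContDiff ℝ ∞ χ) (X : F) (ε : ℝ) {q : ℂ → F} (hq : ContDiff ℝ ∞ q)
    (hs : ∀ z, 2 ≤ ‖z‖ → q z = 0) (ζ w : ℂ) :
    fderiv ℝ (picStep S χ X ε q) ζ w = pic1_T S χ X ε q ζ w +
      χ ζ • S (ε • muq X q ζ) (fderiv ℝ (cT (dz q)) ζ w) := by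
  obtain ⟨hm, hm1, hm2⟩ := muq_facts X hq hs
  obtain ⟨hd, -, hds, -⟩ := dz_facts hq hs
  have h1 := (hχ.differentiable (by simp) ζ).hasFDerivAt
  have h2 := (hm.differentiable (by simp) ζ).hasFDerivAt.const_smul ε
  have h3 := ((hS.differentiable (by simp) (ε • muq X q ζ)).hasFDerivAt).comp ζ h2
  have h4 := (((cT_contDiff hd hds).differentiable (by simp) ζ).hasFDerivAt).const_add X
  have h5 : HasFDerivAt (picStep S χ X ε q) _ ζ := h1.smul (h3.clm_apply h4)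
  rw [h5.fderiv, pic1_T, ← hm1, ← congrFun hm2 ζ, ← fderiv_eq_dz, hm1]
  simp only [add_apply, smul_apply,
    ContinuousLinearMap.comp_apply, ContinuousLinearMap.flip_apply,
    ContinuousLinearMap.smulRight_apply, Function.comp_apply, smul_add, Pi.smul_apply]
  abel

theorem pic1_dz {S : F → F →L[ℝ] F} (hS : ContDiff ℝ ∞ S)
    (ha : ∀ z w, S z (I • w) = -(I • S z w)) {χ : ℂ → ℝ}
    (hχ : ContDiff ℝ ∞ χ) (X : F) (ε : ℝ) {q : ℂ → F} (hq : ContDiff ℝ ∞ q)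
    (hs : ∀ z, 2 ≤ ‖z‖ → q z = 0) (ζ : ℂ) :
    dz (picStep S χ X ε q) ζ =
      (1 / 2 : ℂ) • (pic1_T S χ X ε q ζ 1 - I • pic1_T S χ X ε q ζ I) +
        χ ζ • S (ε • muq X q ζ) (dz q ζ) := by
  obtain ⟨hd, -, hds, -⟩ := dz_facts hq hs
  have h1 : dz q ζ = dzb (cT (dz q)) ζ := by rw [(cT_dz hd hds).2, cT_dzb hd hds]
  have h2 : ∀ v : F, (1 / 2 : ℂ) • v = (1 / 2 : ℝ) • v := fun v => by
    rw [← Complex.coe_smul]
    norm_num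
  rw [h1, dzb, h2 (fderiv ℝ (cT (dz q)) ζ 1 + _), map_smul, map_add, ha, ← h2, dz,
    pic1_fderiv hS hχ X ε hq hs, pic1_fderiv hS hχ X ε hq hs]
  simp only [← Complex.coe_smul]
  module

theorem pic1_bds {X : F} {C : ℝ} (hC0 : 0 ≤ C) (hC : ∀ (q : ℂ → F) (m : ℝ),
    (∀ z, 2 ≤ ‖z‖ → q z = 0) → (∀ z, ‖q z‖ ≤ m) → ∀ z, ‖cT q z‖ ≤ C * m) {q : ℂ → F}
    (hq : QOK q) {z : ℂ} (hz : ‖z‖ ≤ 2) :
    ‖muq X q z‖ ≤ 2 * ‖X‖ + 2 * C + 1 ∧ ‖X + cT (dz q) z‖ ≤ 2 * ‖X‖ + 2 * C + 1 ∧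
      ‖dz q z‖ ≤ 2 * ‖X‖ + 2 * C + 1 ∧ ∀ w : ℂ, ‖w‖ = 1 →
        ‖w • (X + cT (dz q) z) + (starRingEnd ℂ) w • q z‖ ≤ 2 * ‖X‖ + 2 * C + 1 := by
  obtain ⟨-, -, hds, -⟩ := dz_facts hq.sm hq.supp
  have h1 := hC q 1 hq.supp hq.b0
  have h2 := hC (dz q) 1 hds hq.b1 z
  have hX := norm_nonneg X
  have h3 : ‖X + cT (dz q) z‖ ≤ ‖X‖ + C := (norm_add_le _ _).trans (by linarith)
  refine ⟨?_, by linarith, by linarith [hq.b1 z], fun w hw => ?_⟩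
  · have h4 : ‖z • X‖ ≤ 2 * ‖X‖ := by
      rw [norm_smul]
      exact mul_le_mul_of_nonneg_right hz hX
    have h5 := norm_sub_le (z • X + cT q z) (cT q 0)
    have h6 := norm_add_le (z • X) (cT q z)
    have := h1 z
    have := h1 0
    unfold muq
    linarith
  · refine (norm_add_le _ _).trans ?_
    rw [norm_smul, norm_smul, Complex.norm_conj, hw]
    linarith [hq.b0 z]

theorem pic1_diffs {X : F} {C m : ℝ} (hC0 : 0 ≤ C) (hC : ∀ (q : ℂ → F) (m : ℝ),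
    (∀ z, 2 ≤ ‖z‖ → q z = 0) → (∀ z, ‖q z‖ ≤ m) → ∀ z, ‖cT q z‖ ≤ C * m) {q q' : ℂ → F}
    (hq : QOK q) (hq' : QOK q') (h0 : ∀ z, ‖q z - q' z‖ ≤ m) (h1 : ∀ z, ‖dz q z - dz q' z‖ ≤ m)
    (z : ℂ) :
    ‖muq X q z - muq X q' z‖ ≤ (2 * ‖X‖ + 2 * C + 1) * m ∧
      ‖(X + cT (dz q) z) - (X + cT (dz q') z)‖ ≤ (2 * ‖X‖ + 2 * C + 1) * m ∧
      ‖dz q z - dz q' z‖ ≤ (2 * ‖X‖ + 2 * C + 1) * m ∧ ∀ w : ℂ, ‖w‖ = 1 →
        ‖(w • (X + cT (dz q) z) + (starRingEnd ℂ) w • q z) -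
          (w • (X + cT (dz q') z) + (starRingEnd ℂ) w • q' z)‖ ≤ (2 * ‖X‖ + 2 * C + 1) * m := by
  obtain ⟨hd, -, hds, -⟩ := dz_facts hq.sm hq.supp
  obtain ⟨hd', -, hds', -⟩ := dz_facts hq'.sm hq'.supp
  have hm : 0 ≤ m := (norm_nonneg _).trans (h0 0)
  have hXm : 0 ≤ ‖X‖ * m := mul_nonneg (norm_nonneg _) hm
  have hCm : 0 ≤ C * m := mul_nonneg hC0 hm
  have a0 : ∀ y, ‖cT q y - cT q' y‖ ≤ C * m := fun y => by
    rw [cT_sub hq.sm.continuous hq.supp hq'.sm.continuous hq'.supp]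
    exact hC _ m (fun x hx => by simp [hq.supp x hx, hq'.supp x hx]) h0 y
  have a1 : ‖(X + cT (dz q) z) - (X + cT (dz q') z)‖ ≤ C * m := by
    rw [add_sub_add_left_eq_sub, cT_sub hd.continuous hds hd'.continuous hds']
    exact hC _ m (fun x hx => by simp [hds x hx, hds' x hx]) h1 z
  refine ⟨?_, by linarith, by linarith [h1 z], fun w hw => ?_⟩
  · have e : muq X q z - muq X q' z = (cT q z - cT q' z) - (cT q 0 - cT q' 0) := by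
      unfold muq
      abel
    rw [e]
    refine (norm_sub_le _ _).trans ?_
    linarith [a0 z, a0 0]
  · rw [add_sub_add_comm, ← smul_sub, ← smul_sub]
    refine (norm_add_le _ _).trans ?_
    rw [norm_smul, norm_smul, Complex.norm_conj, hw]
    linarith [h0 z]

theorem pic_step {S : F → F →L[ℝ] F} (hS : ContDiff ℝ ∞ S) (h0 : S 0 = 0)
    (ha : ∀ z w, S z (I • w) = -(I • S z w)) {χ : ℂ → ℝ} (hχ : ContDiff ℝ ∞ χ)
    (hc : ∀ z, 2 ≤ ‖z‖ → χ z = 0) (X : F) : ∃ C ε0 : ℝ, 0 ≤ C ∧ 0 < ε0 ∧ ∀ ε, 0 < ε → ε ≤ ε0 →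
    (∀ q, QOK q → ContDiff ℝ ∞ (picStep S χ X ε q) ∧ (∀ z, 2 ≤ ‖z‖ → picStep S χ X ε q z = 0) ∧
      ∀ z, ‖picStep S χ X ε q z‖ ≤ C * ε ∧ ‖dz (picStep S χ X ε q) z‖ ≤ C * ε) ∧
    ∀ q q' m, QOK q → QOK q' → (∀ z, ‖q z - q' z‖ ≤ m) → (∀ z, ‖dz q z - dz q' z‖ ≤ m) → ∀ z,
      ‖picStep S χ X ε q z - picStep S χ X ε q' z‖ ≤ C * ε * m ∧
      ‖dz (picStep S χ X ε q) z - dz (picStep S χ X ε q') z‖ ≤ C * ε * m := by
  obtain ⟨L, hL⟩ := pic1_exists_SB hS h0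
  obtain ⟨C, hC0, hC⟩ := cT_bound
  obtain ⟨K0, hK0⟩ := (isCompact_closedBall (0 : ℂ) 2).exists_bound_of_continuousOn
    hχ.continuous.continuousOn
  obtain ⟨K1, hK1⟩ := (isCompact_closedBall (0 : ℂ) 2).exists_bound_of_continuousOn
    (hχ.continuous_fderiv (by simp)).continuousOn
  obtain ⟨K, hK⟩ : ∃ K : ℝ, ∀ z : ℂ, ‖z‖ ≤ 2 → ‖χ z‖ ≤ K ∧ ∀ w : ℂ, ‖w‖ = 1 →
      ‖fderiv ℝ χ z w‖ ≤ K := by
    refine ⟨max K0 K1, fun z hz => ⟨le_max_of_le_left (hK0 z (by simpa using hz)),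
      fun w hw => le_max_of_le_right ?_⟩⟩
    have := (fderiv ℝ χ z).le_opNorm w
    rw [hw, mul_one] at this
    exact this.trans (hK1 z (by simpa using hz))
  have hKn : 0 ≤ K := (norm_nonneg _).trans (hK 0 (by simp)).1
  obtain ⟨R, hR⟩ : ∃ R, R = 2 * ‖X‖ + 2 * C + 1 := ⟨_, rfl⟩
  have hR0 : 0 < R := by rw [hR]; positivity
  have hLn := hL.nn
  have base : ∀ ε q, QOK q → ContDiff ℝ ∞ (picStep S χ X ε q) ∧
      (∀ z, 2 ≤ ‖z‖ → picStep S χ X ε q z = 0) ∧ ∀ z, 2 ≤ ‖z‖ → dz (picStep S χ X ε q) z = 0 := by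
    intro ε q hq
    obtain ⟨hd, -, hds, -⟩ := dz_facts hq.sm hq.supp
    have h1 : ContDiff ℝ ∞ (picStep S χ X ε q) :=
      hχ.smul ((hS.comp ((muq_facts X hq.sm hq.supp).1.const_smul ε)).clm_apply
        (contDiff_const.add (cT_contDiff hd hds)))
    have h2 : ∀ z, 2 ≤ ‖z‖ → picStep S χ X ε q z = 0 := fun z hz => by simp [picStep, hc z hz]
    exact ⟨h1, h2, (dz_facts h1 h2).2.2.1⟩
  refine ⟨7 * (K * (L * R ^ 2)), R⁻¹, by positivity, by positivity, fun ε hε hε0 => ?_⟩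
  have hεR : ε * R ≤ 1 := by
    calc ε * R ≤ R⁻¹ * R := mul_le_mul_of_nonneg_right hε0 hR0.le
      _ = 1 := inv_mul_cancel₀ hR0.ne'
  have hD : 0 ≤ K * (L * R ^ 2 * ε) := by positivity
  refine ⟨fun q hq => ⟨(base ε q hq).1, (base ε q hq).2.1, fun z => ?_⟩,
    fun q q' m hq hq' h0 h1 z => ?_⟩
  · rcases le_total 2 ‖z‖ with hz | hz
    · rw [(base ε q hq).2.1 z hz, (base ε q hq).2.2 z hz, norm_zero]
      constructor <;> positivity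
    obtain ⟨b1, b2, b3, b4⟩ := pic1_bds (X := X) hC0 hC hq hz
    rw [← hR] at b1 b2 b3 b4
    have c1 := pic1_A hL hε.le hεR b1 b2
    have c2 : ∀ w : ℂ, ‖w‖ = 1 → ‖pic1_T S χ X ε q z w‖ ≤ 2 * (K * (L * R ^ 2 * ε)) :=
      fun w hw => (norm_add_le _ _).trans ((add_le_add (pic1_sm ((hK z hz).2 w hw) c1)
        (pic1_sm (hK z hz).1 (pic1_B hL hε.le hεR b1 (b4 w hw) b2))).trans_eq (by ring))
    constructor
    · exact (pic1_sm (hK z hz).1 c1).trans (by nlinarith)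
    · rw [pic1_dz hS ha hχ X ε hq.sm hq.supp]
      refine (norm_add_le _ _).trans ((add_le_add (pic1_dzn _ _ (c2 1 (by simp)) (c2 I (by simp)))
        (pic1_sm (hK z hz).1 (pic1_A hL hε.le hεR b1 b3))).trans (by nlinarith))
  · have hm : 0 ≤ m := (norm_nonneg _).trans (h0 0)
    have hDm : 0 ≤ K * (L * R ^ 2 * ε * m) := by positivity
    rcases le_total 2 ‖z‖ with hz | hz
    · rw [(base ε q hq).2.1 z hz, (base ε q hq).2.2 z hz, (base ε q' hq').2.1 z hz,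
        (base ε q' hq').2.2 z hz, sub_zero, norm_zero]
      constructor <;> positivity
    obtain ⟨b1, b2, b3, b4⟩ := pic1_bds (X := X) hC0 hC hq hz
    obtain ⟨b1', -, -, b4'⟩ := pic1_bds (X := X) hC0 hC hq' hz
    obtain ⟨d1, d2, d3, d4⟩ := pic1_diffs (X := X) hC0 hC hq hq' h0 h1 z
    rw [← hR] at b1 b2 b3 b4 b1' b4' d1 d2 d3 d4
    have c1 := pic1_A' hL hε.le hεR b1 b1' b2 d1 d2
    have c2 : ∀ w : ℂ, ‖w‖ = 1 → ‖pic1_T S χ X ε q z w - pic1_T S χ X ε q' z w‖ ≤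
        5 * (K * (L * R ^ 2 * ε * m)) := fun w hw => by
      rw [pic1_T, pic1_T, add_sub_add_comm, ← smul_sub, ← smul_sub]
      exact (norm_add_le _ _).trans ((add_le_add (pic1_sm ((hK z hz).2 w hw) c1)
        (pic1_sm (hK z hz).1 (pic1_B' hL hε.le hεR b1 b1' (b4 w hw) (b4' w hw) b2 d1 (d4 w hw)
          d2))).trans_eq (by ring))
    constructor
    · rw [picStep, picStep, ← smul_sub]
      exact (pic1_sm (hK z hz).1 c1).trans (by nlinarith)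
    · rw [pic1_dz hS ha hχ X ε hq.sm hq.supp, pic1_dz hS ha hχ X ε hq'.sm hq'.supp,
        add_sub_add_comm, ← smul_sub, ← smul_sub, sub_sub_sub_comm, ← smul_sub]
      refine (norm_add_le _ _).trans ((add_le_add (pic1_dzn _ _ (c2 1 (by simp)) (c2 I (by simp)))
        (pic1_sm (hK z hz).1 (pic1_A' hL hε.le hεR b1 b1' b3 d1 d3))).trans (by nlinarith))

end Pool.Agent.Lib.MP_f2cf74_an
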