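import Pool.Agent.Lib.MP_f2cf74_an.Pic1

open Set Metric MeasureTheory Complex Filter Topology
open scoped ContDiff ENNReal NNReal

noncomputable section

namespace Pool.Agent.Lib.MP_f2cf74_an

/-! The limit of the Picard iteration.  `χ` is a bump equal to `1` on `closedBall 0 1` and `0` off
`ball 0 2`; `q 0 = 0`, `q (n+1) = picStep q n`, `C ε ≤ 1/2`.  `q n`, `dz (q n)`, hence
`muq X (q n)` and `p n = X + cT (dz (q n))` (`cT_sub`, `cT_bound`) converge uniformly on `ℂ` (the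
first one up to the fixed term `ζ • X`); `fderiv (muq X (q n)) z w = w • p n z + conj w • q n z`;
`hasFDerivAt_of_tendstoUniformly`; the limit derivative is continuous. -/

theorem pic2_unif {G : Type} [NormedAddCommGroup G] [CompleteSpace G] {f : ℕ → ℂ → G} {c : ℝ}
    (h : ∀ n z, ‖f n z - f (n + 1) z‖ ≤ c * (1 / 2) ^ n) : ∃ g, TendstoUniformly f g atTop := by
  simp only [← dist_eq_norm] at h
  have h1 : (1 / 2 : ℝ) < 1 := by norm_num
  choose g hg using fun z => cauchySeq_tendsto_of_complete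
    (cauchySeq_of_le_geometric (f := fun n => f n z) _ _ h1 fun n => h n z)
  refine ⟨g, Metric.tendstoUniformly_iff.2 fun δ hδ => ?_⟩
  have h2 := ((tendsto_pow_atTop_nhds_zero_of_lt_one (by norm_num) h1).const_mul c).div_const
    (1 - 1 / 2)
  rw [mul_zero, zero_div] at h2
  filter_upwards [h2.eventually_lt_const hδ] with n hn z
  rw [dist_comm]
  exact (dist_le_of_le_geometric_of_tendsto (f := fun n => f n z) _ _ h1 (fun n => h n z)
    (hg z) n).trans_lt hn

theorem pic2_eps {ε0 η : ℝ} (h0 : 0 < ε0) (hη : 0 < η) (a b c : ℝ) :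
    ∃ ε : ℝ, 0 < ε ∧ ε ≤ ε0 ∧ a * ε ≤ 1 / 2 ∧ b * ε ≤ η ∧ ε * c < η := by
  have h : ∀ {r t : ℝ}, 0 < t → ∀ᶠ ε in 𝓝[>] (0 : ℝ), r * ε < t := fun {r t} ht =>
    nhdsWithin_le_nhds ((continuous_const_mul r).continuousAt.eventually_lt_const (by simpa))
  obtain ⟨ε, e0, e1, e2, e3, e4⟩ := ((eventually_mem_nhdsWithin (a := (0 : ℝ)) (s := Ioi 0)).and
    ((h (r := 1) h0).and ((h (r := a) one_half_pos).and
      ((h (r := b) hη).and (h (r := c) hη))))).exists
  exact ⟨ε, e0, by linarith, e2.le, e3.le, by linarith⟩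

theorem picard {S : F → F →L[ℝ] F} (hS : ContDiff ℝ ∞ S) (h0 : S 0 = 0)
    (ha : ∀ z w, S z (I • w) = -(I • S z w)) (X : F) {η : ℝ} (hη : 0 < η) :
    ∃ (ε : ℝ) (μ p : ℂ → F), 0 < ε ∧ ContDiff ℝ 1 μ ∧ μ 0 = 0 ∧ ‖p 0 - X‖ ≤ η ∧
      ‖S (ε • μ 0) (p 0)‖ ≤ η ∧ ∀ z ∈ ball (0 : ℂ) 1, ‖ε • μ z‖ < η ∧
        ∀ w, fderiv ℝ μ z w = w • p z + (starRingEnd ℂ) w • S (ε • μ z) (p z) := by
  let χ : ContDiffBump (0 : ℂ) := ⟨1, 2, one_pos, one_lt_two⟩
  obtain ⟨C, ε0, hC, hε0, H⟩ := pic_step hS h0 ha (χ := χ) χ.contDiff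
    (fun z hz => χ.zero_of_le_dist (by rwa [dist_zero_right])) X
  obtain ⟨C', hC', hT⟩ := cT_bound
  obtain ⟨ε, hε, e1, e2, e3, e4⟩ := pic2_eps hε0 hη C (C' * C) (‖X‖ + 2 * C')
  obtain ⟨H1, H2⟩ := H ε hε e1
  obtain ⟨q, q0, qs⟩ : ∃ q : ℕ → ℂ → F, q 0 = (fun _ => 0) ∧
      ∀ n, q (n + 1) = picStep S χ X ε (q n) :=
    ⟨fun n => (picStep S χ X ε)^[n] fun _ => 0, rfl, fun n => Function.iterate_succ_apply' _ _ _⟩
  have hq : ∀ n, QOK (q n) := fun n => by
    induction n with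
    | zero => exact q0 ▸ ⟨contDiff_const, fun _ _ => rfl, by simp, by simp [dz]⟩
    | succ n ih =>
      obtain ⟨a1, a2, a3⟩ := H1 _ ih
      exact qs n ▸ ⟨a1, a2, fun z => by linarith [(a3 z).1], fun z => by linarith [(a3 z).2]⟩
  have hb : ∀ n z, ‖dz (q n) z‖ ≤ C * ε := fun n z => by
    cases n with
    | zero => simpa [q0, dz] using mul_nonneg hC hε.le
    | succ n => exact qs n ▸ ((H1 _ (hq n)).2.2 z).2
  have hd : ∀ n z, ‖q n z - q (n + 1) z‖ ≤ 2 * (1 / 2) ^ n ∧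
      ‖dz (q n) z - dz (q (n + 1)) z‖ ≤ 2 * (1 / 2) ^ n := fun n => by
    induction n with
    | zero =>
      exact fun z => ⟨(norm_sub_le _ _).trans (by linarith [(hq 0).b0 z, (hq (0 + 1)).b0 z]),
        (norm_sub_le _ _).trans (by linarith [(hq 0).b1 z, (hq (0 + 1)).b1 z])⟩
    | succ n ih =>
      intro z
      have h1 := H2 _ _ _ (hq n) (hq (n + 1)) (fun z => (ih z).1) (fun z => (ih z).2) z
      have h2 := mul_le_mul_of_nonneg_right e2 (show (0 : ℝ) ≤ 2 * (1 / 2) ^ n by positivity)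
      rw [← qs, ← qs] at h1
      rw [pow_succ]
      exact ⟨by linarith [h1.1], by linarith [h1.2]⟩
  have hz := fun n => dz_facts (hq n).sm (hq n).supp
  have hm := fun n => muq_facts X (hq n).sm (hq n).supp
  have d1 : ∀ n z, ‖cT (q n) z - cT (q (n + 1)) z‖ ≤ C' * (2 * (1 / 2) ^ n) := fun n z => by
    rw [cT_sub (hq n).sm.continuous (hq n).supp (hq _).sm.continuous (hq _).supp]
    exact hT _ _ (fun z h => by rw [(hq _).supp z h, (hq _).supp z h, sub_zero])
      (fun z => (hd n z).1) z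
  have d2 : ∀ n z, ‖X + cT (dz (q n)) z - (X + cT (dz (q (n + 1))) z)‖ ≤
      C' * 2 * (1 / 2) ^ n := fun n z => by
    rw [add_sub_add_left_eq_sub, mul_assoc,
      cT_sub (hz n).1.continuous (hz n).2.2.1 (hz _).1.continuous (hz _).2.2.1]
    exact hT _ _ (fun z h => by rw [(hz _).2.2.1 z h, (hz _).2.2.1 z h, sub_zero])
      (fun z => (hd n z).2) z
  have hf : ∀ n z w, fderiv ℝ (muq X (q n)) z w =
      w • (X + cT (dz (q n)) z) + (starRingEnd ℂ) w • q n z := fun n z w => by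
    rw [fderiv_eq_dz, (hm n).2.1, (hm n).2.2]
  obtain ⟨Q, hQ⟩ := pic2_unif fun n z => (hd n z).1
  obtain ⟨p, hp⟩ := pic2_unif (f := fun n z => X + cT (dz (q n)) z) d2
  obtain ⟨μ, hμ⟩ := pic2_unif (f := fun n => muq X (q n)) (c := C' * 4) fun n z => by
    rw [show muq X (q n) z - muq X (q (n + 1)) z = cT (q n) z - cT (q (n + 1)) z -
      (cT (q n) 0 - cT (q (n + 1)) 0) by unfold muq; abel]
    exact (norm_sub_le _ _).trans (by linarith [d1 n z, d1 n 0])
  obtain ⟨D, hD⟩ := pic2_unif (f := fun n => fderiv ℝ (muq X (q n))) (c := C' * 2 + 2)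
    fun n z => ContinuousLinearMap.opNorm_le_bound _ (by positivity) fun w => by
      rw [_root_.sub_apply, hf, hf, add_sub_add_comm, ← smul_sub, ← smul_sub]
      refine (norm_add_le _ _).trans ?_
      rw [norm_smul, norm_smul, Complex.norm_conj]
      linarith [mul_le_mul_of_nonneg_left (d2 n z) (norm_nonneg w),
        mul_le_mul_of_nonneg_left (hd n z).1 (norm_nonneg w)]
  have hder := hasFDerivAt_of_tendstoUniformly hD
    (fun n z => ((hm n).1.differentiable (by simp) z).hasFDerivAt) hμ.tendsto_at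
  have hfd : fderiv ℝ μ = D := funext fun z => (hder z).fderiv
  have hμ0 : μ 0 = 0 := tendsto_nhds_unique (hμ.tendsto_at 0) (by simp [muq])
  refine ⟨ε, μ, p, hε, contDiff_one_iff_fderiv.2 ⟨fun z => (hder z).differentiableAt,
    hfd ▸ hD.continuous (Frequently.of_forall fun n => (hm n).1.continuous_fderiv (by simp))⟩,
    hμ0, ?_, by simp [hμ0, h0, hη.le], fun z hz1 => ⟨?_, fun w => ?_⟩⟩
  · refine le_of_tendsto' ((hp.tendsto_at 0).sub_const X).norm fun n => ?_
    rw [add_sub_cancel_left]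
    linarith [hT _ _ (hz n).2.2.1 (hb n) 0]
  · rw [norm_smul, Real.norm_of_nonneg hε.le]
    refine (mul_le_mul_of_nonneg_left
      (le_of_tendsto' (hμ.tendsto_at z).norm fun n => ?_) hε.le).trans_lt e4
    refine (norm_sub_le _ _).trans ((add_le_add_left (norm_add_le _ _) _).trans ?_)
    rw [norm_smul]
    linarith [hT _ _ (hq n).supp (hq n).b0 z, hT _ _ (hq n).supp (hq n).b0 0,
      mul_le_mul_of_nonneg_right (mem_ball_zero_iff.1 hz1).le (norm_nonneg X)]
  · have h1 : Tendsto (fun n => q (n + 1) z) atTop (𝓝 (S (ε • μ z) (p z))) := by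
      have h2 : χ z = 1 := χ.one_of_mem_closedBall (ball_subset_closedBall hz1)
      simp only [qs, picStep, h2, one_smul]
      exact ((isBoundedBilinearMap_apply (𝕜 := ℝ) (E := F) (F := F)).continuous.tendsto
        (S (ε • μ z), p z)).comp (((hS.continuous.tendsto _).comp
          ((hμ.tendsto_at z).const_smul ε)).prodMk_nhds (hp.tendsto_at z))
    rw [hfd, tendsto_nhds_unique h1 ((hQ.tendsto_at z).comp (tendsto_add_atTop_nat 1))]
    refine tendsto_nhds_unique (((ContinuousLinearMap.apply ℝ F w).continuous.tendsto _).comp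
      (hD.tendsto_at z)) ?_
    simp only [Function.comp_def, ContinuousLinearMap.apply_apply, hf]
    exact ((hp.tendsto_at z).const_smul w).add ((hQ.tendsto_at z).const_smul _)

end Pool.Agent.Lib.MP_f2cf74_an
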