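import Pool.Agent.Lib.MP_f2cf74_an.NN
import Pool.Agent.Lib.MP_f2cf74_an.KkF
import Pool.Agent.Lib.MP_f2cf74_an.AlgB

open Set Metric MeasureTheory Complex Filter Topology
open scoped ContDiff ENNReal NNReal

noncomputable section

namespace Pool.Agent.Lib.MP_f2cf74_an

/-! The representation formula.  `rep`: `ki0` with `G - G x` and the centre `x`, `N_ident`,
`dvK = -chi + err` with `‖err‖ ≤ C ‖x - y‖⁻³` (`dvK_sub`, `ktr_kBM_div`); outside
`closedBall x (K s)` everything vanishes.  `repH`: `G = Lb M k f` and `H_sub_LL`.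
`grad_rep`: `s = δ / K`, `N0_facts`, `Lg_bound`, `PSD.norm_le`. -/

theorem rep_ae (x : E) (R : ℝ) : ∀ᵐ y : E, y ≠ x ∧ ‖x - y‖ ≠ R := by
  have h1 : ∀ᵐ y : E, y ≠ x := by simp [ae_iff]
  have h2 : ∀ᵐ y : E, y ∉ sphere x R :=
    measure_eq_zero_iff_ae_notMem.1 (Measure.addHaar_sphere volume x R)
  filter_upwards [h1, h2] with y a b
  refine ⟨a, fun h => b ?_⟩
  rw [mem_sphere, dist_comm, dist_eq_norm, h]

theorem rep_mem {x y : E} {R : ℝ} : y ∈ ball x R ↔ ‖x - y‖ < R := by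
  rw [mem_ball, dist_comm, dist_eq_norm]

theorem rep_enorm {x : E} {R C : ℝ} (hC : 0 ≤ C) {φ : E → ℂ} {g : E → ℝ}
    (h1 : ∀ y, y ≠ x → ‖x - y‖ < R → ‖φ y‖ ≤ C * (‖x - y‖⁻¹ ^ 3 * g y))
    (h0 : ∀ y, R < ‖x - y‖ → φ y = 0) :
    ‖∫ y, φ y‖ₑ ≤ C.toNNReal * ∫⁻ y in ball x R, kp 3 x y * ENNReal.ofReal (g y) := by
  rw [← lintegral_const_mul' _ _ ENNReal.coe_ne_top, ← lintegral_indicator measurableSet_ball]
  refine (enorm_integral_le_lintegral_enorm _).trans (lintegral_mono_ae ?_)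
  filter_upwards [rep_ae x R] with y hy
  rcases lt_or_gt_of_ne hy.2 with h | h
  · rw [indicator_of_mem (rep_mem.2 h), ← ofReal_norm, kp,
      ← ENNReal.ofReal_mul (by positivity)]
    exact (ENNReal.ofReal_le_ofReal (h1 y hy.1 h)).trans_eq (ENNReal.ofReal_mul hC)
  · simp [h0 y h]

theorem rep_int {x : E} {R C : ℝ} (hC : 0 ≤ C) {φ G : E → ℂ} (hφ : Measurable φ)
    (hG : Continuous G) (h1 : ∀ y, ‖φ y‖ ≤ C * ‖x - y‖⁻¹ ^ 3) (h0 : ∀ y, R ≤ ‖x - y‖ → φ y = 0) :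
    Integrable (fun y => φ y * G y) := by
  obtain ⟨B, hB⟩ := (isCompact_closedBall x R).exists_bound_of_continuousOn hG.continuousOn
  have hi : Integrable ((ball x R).indicator fun y => C * ‖y - x‖⁻¹ ^ 3 * B) :=
    (integrable_indicator_iff measurableSet_ball).2
      (((integrableOn_inv_cube x R).const_mul C).mul_const B)
  refine hi.mono' (hφ.mul hG.measurable).aestronglyMeasurable (ae_of_all _ fun y => ?_)
  by_cases hy : y ∈ ball x R
  · rw [indicator_of_mem hy, norm_mul, norm_sub_rev y x]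
    exact mul_le_mul (h1 y) (hB y (ball_subset_closedBall hy)) (norm_nonneg _) (by positivity)
  · rw [indicator_of_notMem hy, h0 y (not_lt.1 fun h => hy (rep_mem.2 h))]
    simp

theorem rep_lip {G : E → ℂ} (hG : ContDiff ℝ 1 G) (x : E) (R : ℝ) : ∃ L : ℝ, ∀ y, ‖y - x‖ < R →
    ‖G y - G x‖ ≤ L * ‖y - x‖ ∧ ‖fderiv ℝ G y‖ ≤ L := by
  obtain ⟨L, hL⟩ := (isCompact_closedBall x R).exists_bound_of_continuousOn
    (hG.continuous_fderiv (by simp)).continuousOn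
  refine ⟨L, fun y hy => ?_⟩
  have hy' : y ∈ closedBall x R := by rw [mem_closedBall, dist_eq_norm]; exact hy.le
  exact ⟨(convex_closedBall x R).norm_image_sub_le_of_norm_fderiv_le
    (fun z _ => (hG.differentiable (by simp)) z) hL
    (mem_closedBall_self ((norm_nonneg _).trans hy.le)) hy', hL y hy'⟩

theorem rep_ne (M : Model) {x y : E} (h : y ≠ x) : M.A y (y - x) ≠ 0 := fun h0 => by
  have h1 := M.low y (y - x)
  rw [h0, norm_zero, mul_zero] at h1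
  exact h (sub_eq_zero.1 (norm_le_zero_iff.1 h1))

theorem rep_KB (M : Model) {s : ℝ} (hs : 0 < s) {x y : E} (h : y ≠ x) (p : Fin 2) :
    KB (ktr s kBM p) (M.A y (y - x)) (35 * M.K ^ 3 * ‖y - x‖⁻¹ ^ 3) := by
  have h1 := (ktr_facts hs ((kBM_facts (rep_ne M h)).1 p)).1
  have hz : 0 < ‖M.A y (y - x)‖ := norm_pos_iff.2 (rep_ne M h)
  have hd : 0 < ‖y - x‖ := norm_pos_iff.2 (sub_ne_zero.2 h)
  have h2 : ‖M.A y (y - x)‖⁻¹ ≤ M.K * ‖y - x‖⁻¹ := by
    rw [← div_eq_mul_inv, le_div_iff₀ hd, inv_mul_le_iff₀ hz, mul_comm]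
    exact M.low y (y - x)
  have h3 : 7 * (5 * ‖M.A y (y - x)‖⁻¹ ^ 3) ≤ 35 * M.K ^ 3 * ‖y - x‖⁻¹ ^ 3 := by
    have := pow_le_pow_left₀ (by positivity) h2 3
    rw [mul_pow] at this
    linarith
  exact ⟨h1.diff, h1.b0.trans h3, h1.b1.trans h3⟩

theorem rep_err (M : Model) : ∃ C : ℝ, 0 ≤ C ∧ ∀ (x y : E) (s : ℝ), 0 < s → y ≠ x →
    ‖dvK M (-I) (ktr s kBM) (fun y => M.A y (y - x)) y + chi M s x y‖ ≤ C * ‖x - y‖⁻¹ ^ 3 ∧
    (M.K * s < ‖x - y‖ → dvK M (-I) (ktr s kBM) (fun y => M.A y (y - x)) y + chi M s x y = 0) := by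
  obtain ⟨C, hC, h⟩ := dvK_sub M
  have hK := M.K_pos
  refine ⟨C * (35 * M.K ^ 3), by positivity, fun x y s hs hy => ?_⟩
  have key : ∀ κ, (∀ p, KB (ktr s kBM p) (M.A y (y - x)) κ) →
      ‖dvK M (-I) (ktr s kBM) (fun y => M.A y (y - x)) y + chi M s x y‖ ≤ C * κ := fun κ hκ => by
    have h1 := h x _ (-I) (ktr s kBM) y κ (M.coord2 x) (by simp) hκ
    rwa [ktr_kBM_div hs (rep_ne M hy), sub_neg_eq_add] at h1
  refine ⟨(key _ (rep_KB M hs hy)).trans_eq (by rw [norm_sub_rev x y]; ring), fun hd => ?_⟩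
  have h2 : s < ‖M.A y (y - x)‖ := by
    have := M.low y (y - x)
    rw [norm_sub_rev] at this
    exact lt_of_mul_lt_mul_left (hd.trans_le this) hK.le
  have := key 0 fun p => ktr_KB_out hs _ p h2
  rwa [mul_zero, norm_le_zero_iff] at this

theorem rep_mono {x : E} {R C : ℝ} (hC : 0 ≤ C) {g g' : E → ℝ} (h : ∀ y, g y ≤ C * g' y) :
    ∫⁻ y in ball x R, kp 3 x y * ENNReal.ofReal (g y) ≤
      C.toNNReal * ∫⁻ y in ball x R, kp 3 x y * ENNReal.ofReal (g' y) := by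
  rw [← lintegral_const_mul' _ _ ENNReal.coe_ne_top]
  refine lintegral_mono fun y => ?_
  rw [mul_left_comm]
  exact mul_le_mul_right ((ENNReal.ofReal_le_ofReal (h y)).trans_eq (ENNReal.ofReal_mul hC)) _

theorem rep_sum (M : Model) : ∃ C : ℝ≥0, ∀ (x : E) (s : ℝ) (a : Fin 2 → E → ℂ) (g : E → ℝ),
    0 < s → (∀ y, ‖x - y‖ < M.K * s → ∀ j, ‖a j y‖ ≤ g y) →
    ‖∫ y, ∑ j, Kk M s j x y * a j y‖ₑ ≤
      C * ∫⁻ y in ball x (M.K * s), kp 3 x y * ENNReal.ofReal (g y) := by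
  obtain ⟨C, hC, h⟩ := Kk_bound M
  refine ⟨(2 * C).toNNReal, fun x s a g hs ha => rep_enorm (by positivity) (fun y _ hy => ?_)
    fun y hy => by simp [Kk_zero M hs _ hy.le]⟩
  have h1 : ∀ j, ‖Kk M s j x y * a j y‖ ≤ C * ‖x - y‖⁻¹ ^ 3 * g y := fun j => by
    rw [norm_mul]
    exact mul_le_mul (h s j x y hs) (ha y hy j) (norm_nonneg _) (by positivity)
  rw [Fin.sum_univ_two]
  exact (norm_add_le _ _).trans ((add_le_add (h1 0) (h1 1)).trans_eq (by ring))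

theorem rep_eG (f : E → ℝ) : eG f = fun y => ENNReal.ofReal ‖fderiv ℝ f y‖ :=
  funext fun _ => (ofReal_norm _).symm

theorem rep (M : Model) : ∃ C : ℝ≥0, ∀ (x : E) (s : ℝ) (G : E → ℂ), 0 < s → ContDiff ℝ 1 G →
    Integrable (fun y => ∑ j, Kk M s j x y * Lc M (-I) j G y) ∧
    Integrable (fun y => (chi M s x y : ℂ) * G y) ∧
    ‖(N0 M x : ℂ) * G x + (∫ y, ∑ j, Kk M s j x y * Lc M (-I) j G y) -
      ∫ y, (chi M s x y : ℂ) * G y‖ₑ ≤ C * ∫⁻ y in ball x (M.K * s), kp 3 x y * ‖G y‖ₑ := by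
  obtain ⟨C, hC, herr⟩ := rep_err M
  obtain ⟨C2, hC2, hchi⟩ := chi_bound M
  have hK := M.K_pos
  refine ⟨C.toNNReal, fun x s G hs hG => ?_⟩
  obtain ⟨L, hL⟩ := rep_lip hG x (M.K * s)
  obtain ⟨C3, hC3, hsg⟩ := inv_cube_le_sg (M.K * s)
  obtain ⟨i1, i2, e1⟩ := ki0 M (M.coord2 x) (c := -I) (by simp) (k := ktr s kBM)
    (κ := fun y => 35 * M.K ^ 3 * ‖y - x‖⁻¹ ^ 3) (R := M.K * s) (C1 := 35 * M.K ^ 3 * C3 * L)
    (G := fun y => G y - G x) (hG.sub contDiff_const) (fun y hy p => rep_KB M hs hy p)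
    (fun y hy p => Kk_zero M hs p (by rwa [norm_sub_rev])) (fun y _ hy => by
      obtain ⟨a, b⟩ := hL y hy
      have hL0 : 0 ≤ L := (norm_nonneg _).trans b
      have c : 35 * M.K ^ 3 * ‖y - x‖⁻¹ ^ 3 ≤ 35 * M.K ^ 3 * (C3 * sg x y) :=
        mul_le_mul_of_nonneg_left (hsg y x hy).1 (by positivity)
      have c0 : 0 ≤ 35 * M.K ^ 3 * (C3 * sg x y) := le_trans (by positivity) c
      rw [fderiv_sub_const]
      exact ⟨(mul_le_mul c a (norm_nonneg _) c0).trans_eq (by ring),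
        (mul_le_mul c b (norm_nonneg _) c0).trans_eq (by ring)⟩)
  have eL : ∀ j y, Lc M (-I) j (fun y => G y - G x) y = Lc M (-I) j G y := fun j y => by
    simp only [Lc, fderiv_sub_const]
  simp only [eL] at i1 e1
  obtain ⟨i3, e3⟩ := N_ident M x hs
  have i4 : Integrable (fun y => (chi M s x y : ℂ) * G y) := by
    have m1 : Measurable fun y => chi M s x y := (measurable_chi M hs).of_uncurry_left
    have m2 : Measurable fun y => (chi M s x y : ℂ) := Complex.measurable_ofReal.comp m1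
    refine rep_int (x := x) (R := M.K * s) (C := C2 * s⁻¹) (by positivity) m2
      hG.continuous (fun y => ?_) fun y hy => by simp [(hchi s x y hs).2.2 hy]
    rw [Complex.norm_real, Real.norm_of_nonneg (hchi s x y hs).1]
    exact (hchi s x y hs).2.1
  refine ⟨i1, i4, ?_⟩
  have e4 : (N0 M x : ℂ) * G x + (∫ y, ∑ j, Kk M s j x y * Lc M (-I) j G y) -
      ∫ y, (chi M s x y : ℂ) * G y =
      -∫ y, (dvK M (-I) (ktr s kBM) (fun y => M.A y (y - x)) y + chi M s x y) * G y := by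
    have e5 : ∀ y, (dvK M (-I) (ktr s kBM) (fun y => M.A y (y - x)) y + chi M s x y) * G y =
        dvK M (-I) (ktr s kBM) (fun y => M.A y (y - x)) y * (G y - G x) +
          dvK M (-I) (ktr s kBM) (fun y => M.A y (y - x)) y * G x + chi M s x y * G y :=
      fun y => by ring
    simp only [e5]
    have i5 : Integrable fun y => dvK M (-I) (ktr s kBM) (fun y => M.A y (y - x)) y * (G y - G x) +
        dvK M (-I) (ktr s kBM) (fun y => M.A y (y - x)) y * G x := i2.add (i3.mul_const _)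
    rw [integral_add i5 i4, integral_add i2 (i3.mul_const _), integral_mul_const, e3]
    have e6 : (∫ y, ∑ j, Kk M s j x y * Lc M (-I) j G y) = _ := e1
    rw [e6]
    ring
  rw [e4, enorm_neg]
  simp only [← ofReal_norm (G _)]
  refine rep_enorm hC (fun y hy _ => ?_) fun y hy => ?_
  · rw [norm_mul, ← mul_assoc]
    exact mul_le_mul_of_nonneg_right (herr x y s hs hy).1 (norm_nonneg _)
  · have hy' : y ≠ x := by
      rintro rfl
      rw [sub_self, norm_zero] at hy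
      exact absurd hy (not_lt.2 (by positivity))
    rw [(herr x y s hs hy').2 hy, zero_mul]

theorem repH (M : Model) : ∃ C : ℝ≥0, ∀ (x : E) (s : ℝ) (k : Fin 2) (f : E → ℝ), 0 < s →
    ContDiff ℝ 2 f →
    ‖(N0 M x : ℂ) * Lb M k f x + AH M s k f x - ∫ y, (chi M s x y : ℂ) * Lb M k f y‖ₑ ≤
      C * ∫⁻ y in ball x (M.K * s), kp 3 x y * eG f y := by
  obtain ⟨C1, h1⟩ := rep M
  obtain ⟨C2, h2⟩ := rep_sum M
  obtain ⟨C3, hC3, h3⟩ := Lg_bound M
  obtain ⟨C4, hC4, h4⟩ := H_sub_LL M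
  obtain ⟨C5, hC5, h5⟩ := Kk_bound M
  refine ⟨C1 * C3.toNNReal + C2 * C4.toNNReal, fun x s k f hs hf => ?_⟩
  obtain ⟨i1, -, e1⟩ := h1 x s _ hs (contDiff_Lb M hf k)
  have m1 : ∀ j, Measurable fun y => Kk M s j x y := fun j => (measurable_Kk M s j).of_uncurry_left
  have i2 : Integrable (fun y => ∑ j, Kk M s j x y * H M f y j k) :=
    integrable_finsetSum _ fun j _ => rep_int (x := x) (R := M.K * s) hC5
      (m1 j) (continuous_H M hf j k)
      (fun y => h5 s j x y hs) fun y hy => Kk_zero M hs j hy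
  have e2 := h2 x s (fun j y => H M f y j k - Lc M (-I) j (Lb M k f) y) _ hs
    fun y _ j => h4 f hf y j k
  have e3 : (N0 M x : ℂ) * Lb M k f x + AH M s k f x - ∫ y, (chi M s x y : ℂ) * Lb M k f y =
      ((N0 M x : ℂ) * Lb M k f x + (∫ y, ∑ j, Kk M s j x y * Lc M (-I) j (Lb M k f) y) -
        ∫ y, (chi M s x y : ℂ) * Lb M k f y) +
      ∫ y, ∑ j, Kk M s j x y * (H M f y j k - Lc M (-I) j (Lb M k f) y) := by
    simp only [mul_sub, Finset.sum_sub_distrib]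
    rw [integral_sub i2 i1, AH]
    ring
  simp only [← ofReal_norm (Lb M k f _)] at e1
  rw [e3, rep_eG]
  refine (enorm_add_le _ _).trans ((add_le_add
    (e1.trans (mul_le_mul_right (rep_mono hC3 fun y => (h3 y _).1 k) _))
    (e2.trans (mul_le_mul_right (rep_mono hC4 fun y => le_rfl) _))).trans_eq ?_)
  push_cast
  ring

theorem repH' (M : Model) {s : ℝ} (hs : 0 < s) : ∃ C : ℝ≥0, ∀ (x : E) (k : Fin 2) (f : E → ℝ),
    ContDiff ℝ 2 f → ‖(N0 M x : ℂ) * Lb M k f x + AH M s k f x‖ₑ ≤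
      C * ∫⁻ y in ball x (M.K * s), kp 3 x y * eG f y := by
  obtain ⟨C1, h1⟩ := repH M
  obtain ⟨C2, hC2, h2⟩ := chi_bound M
  obtain ⟨C3, hC3, h3⟩ := Lg_bound M
  refine ⟨C1 + (C2 * s⁻¹ * C3).toNNReal, fun x k f hf => ?_⟩
  have e2 : ‖∫ y, (chi M s x y : ℂ) * Lb M k f y‖ₑ ≤ (C2 * s⁻¹ * C3).toNNReal *
      ∫⁻ y in ball x (M.K * s), kp 3 x y * eG f y := by
    rw [rep_eG]
    refine rep_enorm (by positivity) (fun y _ _ => ?_) fun y hy => by simp [(h2 s x y hs).2.2 hy.le]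
    rw [norm_mul, Complex.norm_real, Real.norm_of_nonneg (h2 s x y hs).1]
    exact (mul_le_mul (h2 s x y hs).2.1 ((h3 y _).1 k) (norm_nonneg _)
      (by positivity)).trans_eq (by ring)
  rw [← sub_add_cancel ((N0 M x : ℂ) * Lb M k f x + AH M s k f x)
    (∫ y, (chi M s x y : ℂ) * Lb M k f y)]
  refine (enorm_add_le _ _).trans ((add_le_add (h1 x s k f hs hf) e2).trans_eq ?_)
  push_cast
  ring

theorem AH_bound (M : Model) : ∃ C : ℝ≥0, ∀ (x : E) (s : ℝ) (k : Fin 2) (f : E → ℝ), 0 < s →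
    Psh M.J f (ball x (M.K * s)) →
    ‖AH M s k f x‖ₑ ≤ C * ∫⁻ y in ball x (M.K * s), kp 3 x y * eT M f y := by
  obtain ⟨C, h⟩ := rep_sum M
  exact ⟨C, fun x s k f hs hp => h x s (fun j y => H M f y j k) _ hs
    fun y hy j => (psd_H M hp (rep_mem.2 hy)).norm_le j k⟩

theorem grad_rep (M : Model) {δ : ℝ} (hδ : 0 < δ) : ∃ C : ℝ≥0, ∀ (x : E) (f : E → ℝ),
    ContDiff ℝ 2 f → Psh M.J f (ball x δ) →
    eG f x ≤ C * ∫⁻ y in ball x δ, kp 3 x y * (eT M f y + eG f y) := by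
  have hK := M.K_pos
  have hs : 0 < δ / M.K := by positivity
  have hδ' : M.K * (δ / M.K) = δ := by field_simp
  obtain ⟨C1, h1⟩ := repH' M hs
  obtain ⟨C2, h2⟩ := AH_bound M
  obtain ⟨C3, hC3, h3⟩ := Lg_bound M
  obtain ⟨c0, C0, hc0, h4, -⟩ := N0_facts M
  refine ⟨(C3 / c0).toNNReal * (2 * (C1 + C2)), fun x f hf hp => ?_⟩
  have a : ∀ k, ‖(N0 M x : ℂ) * Lb M k f x‖ₑ ≤
      (C1 + C2) * ∫⁻ y in ball x δ, kp 3 x y * (eT M f y + eG f y) := fun k => by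
    have b1 := h1 x k f hf
    have b2 := h2 x _ k f hs (hδ'.symm ▸ hp)
    rw [hδ'] at b1 b2
    rw [← add_sub_cancel_right ((N0 M x : ℂ) * Lb M k f x) (AH M (δ / M.K) k f x), add_mul]
    refine enorm_sub_le.trans (add_le_add (b1.trans ?_) (b2.trans ?_))
    · exact mul_le_mul_right (lintegral_mono fun y => mul_le_mul_right le_add_self _) _
    · exact mul_le_mul_right (lintegral_mono fun y => mul_le_mul_right le_self_add _) _
  have b : ∀ k, ‖Lb M k f x‖ ≤ ‖(N0 M x : ℂ) * Lb M k f x‖ / c0 := fun k => by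
    rw [le_div_iff₀ hc0, norm_mul, Complex.norm_real, mul_comm]
    exact mul_le_mul_of_nonneg_right ((h4 x).1.trans (le_abs_self _)) (norm_nonneg _)
  have c : ‖fderiv ℝ f x‖ ≤
      C3 / c0 * (‖(N0 M x : ℂ) * Lb M 0 f x‖ + ‖(N0 M x : ℂ) * Lb M 1 f x‖) :=
    (h3 x _).2.1.trans ((mul_le_mul_of_nonneg_left (add_le_add (b 0) (b 1)) hC3).trans_eq
      (by ring))
  have d := ENNReal.ofReal_le_ofReal c
  rw [ENNReal.ofReal_mul (by positivity), ENNReal.ofReal_add (norm_nonneg _) (norm_nonneg _),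
    ofReal_norm, ofReal_norm, ofReal_norm] at d
  refine d.trans ((mul_le_mul_right (add_le_add (a 0) (a 1)) _).trans_eq ?_)
  rw [ENNReal.ofReal]
  push_cast
  ring

end Pool.Agent.Lib.MP_f2cf74_an
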