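import Pool.Agent.Lib.MP_f2cf74_an.Base

open Set Metric MeasureTheory Complex Filter Topology
open scoped ContDiff ENNReal NNReal

noncomputable section

namespace Pool.Agent.Lib.MP_f2cf74_an

/-! Sup-convolutions over a compact set.  Existence of a maximiser:
`UpperSemicontinuousOn.exists_isMaxOn`.  Continuity: `supc` is locally Lipschitz.
`supc_tendsto`: maximisers converge to `x`; use upper semicontinuity. -/

variable {W f : E → ℝ} {S : Set E} {B δ : ℝ}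

theorem supc_ge (hB : ∀ y ∈ S, |W y| ≤ B) (hδ : 0 < δ) (x : E) {y : E} (hy : y ∈ S) :
    W y - ‖x - y‖ ^ 2 / (2 * δ) ≤ supc W S δ x := by
  refine le_csSup ⟨B, forall_mem_image.2 fun z hz => ?_⟩ (mem_image_of_mem _ hy)
  have : 0 ≤ ‖x - z‖ ^ 2 / (2 * δ) := by positivity
  linarith [(abs_le.1 (hB z hz)).2]

theorem supc_aux_le (hne : S.Nonempty) {x : E} {c : ℝ}
    (h : ∀ y ∈ S, W y - ‖x - y‖ ^ 2 / (2 * δ) ≤ c) : supc W S δ x ≤ c :=
  csSup_le (hne.image _) (forall_mem_image.2 h)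

theorem supc_aux_self (hB : ∀ y ∈ S, |W y| ≤ B) (hδ : 0 < δ) {x : E} (hx : x ∈ S) :
    W x ≤ supc W S δ x := by
  simpa using supc_ge hB hδ x hx

theorem supc_aux_near (hB : ∀ y ∈ S, |W y| ≤ B) (hδ : 0 < δ) {x : E} (hx : x ∈ S) {r c : ℝ}
    (hr : 0 < r) (hc : W x ≤ c) (h : ∀ y ∈ S, ‖x - y‖ < r → W y ≤ c) (hδ' : 4 * B * δ ≤ r ^ 2) :
    supc W S δ x ≤ c := by
  refine supc_aux_le ⟨x, hx⟩ fun y hy => ?_
  rcases lt_or_ge ‖x - y‖ r with h1 | h1
  · have : 0 ≤ ‖x - y‖ ^ 2 / (2 * δ) := by positivity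
    linarith [h y hy h1]
  · have h2 : 2 * B ≤ ‖x - y‖ ^ 2 / (2 * δ) := by
      rw [le_div_iff₀ (by positivity)]
      linarith [pow_le_pow_left₀ hr.le h1 2]
    linarith [(abs_le.1 (hB x hx)).1, (abs_le.1 (hB y hy)).2]

theorem supc_max (hS : IsCompact S) (hne : S.Nonempty) (hW : UpperSemicontinuousOn W S)
    (hB : ∀ y ∈ S, |W y| ≤ B) (hδ : 0 < δ) (x : E) :
    ∃ y ∈ S, supc W S δ x = W y - ‖x - y‖ ^ 2 / (2 * δ) ∧
      ‖x - y‖ ^ 2 ≤ 4 * δ * (supc W S (2 * δ) x - supc W S δ x) ∧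
      (x ∈ S → ‖x - y‖ ^ 2 ≤ 4 * B * δ) := by
  have hc : Continuous fun y : E => -(‖x - y‖ ^ 2 / (2 * δ)) := by fun_prop
  obtain ⟨y, hy, hm⟩ := (hW.add hc.continuousOn.upperSemicontinuousOn).exists_isMaxOn hne hS
  have e : supc W S δ x = W y - ‖x - y‖ ^ 2 / (2 * δ) :=
    le_antisymm (supc_aux_le hne fun z hz => by linarith [isMaxOn_iff.1 hm z hz])
      (supc_ge hB hδ x hy)
  refine ⟨y, hy, e, ?_, fun hx => ?_⟩
  · have h1 := supc_ge hB (show 0 < 2 * δ by positivity) x hy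
    have h2 : ‖x - y‖ ^ 2 = 4 * δ * (‖x - y‖ ^ 2 / (2 * δ) - ‖x - y‖ ^ 2 / (2 * (2 * δ))) := by
      field_simp
      ring
    rw [h2]
    exact mul_le_mul_of_nonneg_left (by linarith) (by positivity)
  · have h1 := supc_aux_self hB hδ hx
    have h2 : ‖x - y‖ ^ 2 / (2 * δ) ≤ 2 * B := by
      linarith [(abs_le.1 (hB x hx)).1, (abs_le.1 (hB y hy)).2]
    rw [div_le_iff₀ (by positivity)] at h2
    linarith

theorem supc_le (hne : S.Nonempty) (hB : ∀ y ∈ S, |W y| ≤ B) (hδ : 0 < δ) (x : E) :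
    supc W S δ x ≤ B := by
  refine supc_aux_le hne fun z hz => ?_
  have : 0 ≤ ‖x - z‖ ^ 2 / (2 * δ) := by positivity
  linarith [(abs_le.1 (hB z hz)).2]

theorem continuous_supc (hS : IsCompact S) (hne : S.Nonempty) (hB : ∀ y ∈ S, |W y| ≤ B)
    (hδ : 0 < δ) : Continuous (supc W S δ) := by
  obtain ⟨R, hR⟩ := hS.isBounded.exists_norm_le
  have key : ∀ x x' : E, supc W S δ x - supc W S δ x' ≤
      ‖x - x'‖ * (‖x‖ + ‖x'‖ + 2 * R) / (2 * δ) := by
    intro x x'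
    rw [sub_le_iff_le_add']
    refine supc_aux_le hne fun y hy => ?_
    have h1 := supc_ge hB hδ x' hy
    have h2 : ‖x' - y‖ - ‖x - y‖ ≤ ‖x - x'‖ := by
      have := norm_sub_norm_le (x' - y) (x - y)
      rwa [sub_sub_sub_cancel_right, norm_sub_rev x' x] at this
    have h3 : ‖x' - y‖ + ‖x - y‖ ≤ ‖x‖ + ‖x'‖ + 2 * R := by
      linarith [norm_sub_le x' y, norm_sub_le x y, hR y hy]
    have h4 : ‖x' - y‖ ^ 2 - ‖x - y‖ ^ 2 ≤ ‖x - x'‖ * (‖x‖ + ‖x'‖ + 2 * R) := by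
      rw [sq_sub_sq, mul_comm]
      exact mul_le_mul h2 h3 (by positivity) (norm_nonneg _)
    have h5 := div_le_div_of_nonneg_right h4 (show 0 ≤ 2 * δ by positivity)
    rw [sub_div] at h5
    linarith
  refine continuous_iff_continuousAt.2 fun x => tendsto_iff_dist_tendsto_zero.2
    (squeeze_zero (g := fun x' => ‖x' - x‖ * (‖x'‖ + ‖x‖ + 2 * R) / (2 * δ))
      (fun _ => dist_nonneg) (fun x' => ?_) ?_)
  · rw [Real.dist_eq, abs_sub_le_iff]
    refine ⟨key x' x, (key x x').trans (le_of_eq ?_)⟩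
    rw [norm_sub_rev, add_comm ‖x‖]
  · have hc : Continuous fun x' : E => ‖x' - x‖ * (‖x'‖ + ‖x‖ + 2 * R) / (2 * δ) := by fun_prop
    simpa using hc.tendsto x

theorem supc_mono (hne : S.Nonempty) (hB : ∀ y ∈ S, |f y| ≤ B) (h : ∀ y ∈ S, W y ≤ f y)
    (hδ : 0 < δ) (x : E) : supc W S δ x ≤ supc f S δ x := by
  exact supc_aux_le hne fun y hy => (sub_le_sub_right (h y hy) _).trans (supc_ge hB hδ x hy)

theorem supc_mono_delta (hne : S.Nonempty) (hB : ∀ y ∈ S, |W y| ≤ B) (hδ : 0 < δ) {δ' : ℝ}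
    (h : δ ≤ δ') (x : E) : supc W S δ x ≤ supc W S δ' x := by
  refine supc_aux_le hne fun y hy => le_trans ?_ (supc_ge hB (hδ.trans_le h) x hy)
  gcongr

theorem supc_tendsto (hS : IsCompact S) (hW : UpperSemicontinuousOn W S)
    (hB : ∀ y ∈ S, |W y| ≤ B) {x : E} (hx : x ∈ S) :
    Tendsto (fun n : ℕ => supc W S (1 / (n + 1)) x) atTop (𝓝 (W x)) := by
  have hp : ∀ n : ℕ, (0 : ℝ) < 1 / (n + 1) := fun n => by positivity
  refine tendsto_order.2 ⟨fun a ha => Eventually.of_forall fun n =>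
    ha.trans_le (supc_aux_self hB (hp n) hx), fun b hb => ?_⟩
  obtain ⟨c, h1, h2⟩ := exists_between hb
  obtain ⟨r, hr, h3⟩ := Metric.mem_nhdsWithin_iff.1 (hW x hx c h1)
  have h4 := (tendsto_one_div_add_atTop_nhds_zero_nat (𝕜 := ℝ)).const_mul (4 * B)
  rw [mul_zero] at h4
  filter_upwards [h4.eventually (gt_mem_nhds (pow_pos hr 2))] with n hn
  refine (supc_aux_near hB (hp n) hx hr h1.le (fun y hy h => ?_) hn.le).trans_lt h2
  exact le_of_lt (h3 ⟨mem_ball_iff_norm'.2 h, hy⟩)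

theorem supc_unif (hS : IsCompact S) (hf : ContinuousOn f S) {η : ℝ} (hη : 0 < η) :
    ∃ δ0 > 0, ∀ δ, 0 < δ → δ ≤ δ0 → ∀ x ∈ S, supc f S δ x ≤ f x + η := by
  obtain ⟨B, hB⟩ := hS.exists_bound_of_continuousOn hf
  obtain ⟨r, hr, h⟩ := Metric.uniformContinuousOn_iff.1
    (hS.uniformContinuousOn_of_continuous hf) η hη
  refine ⟨r ^ 2 / (4 * (|B| + 1)), by positivity, fun δ hδ hδ' x hx => ?_⟩
  refine supc_aux_near (B := |B| + 1) (fun y hy => ?_) hδ hx hr (by linarith) (fun y hy hxy => ?_) ?_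
  · linarith [hB y hy, le_abs_self B, Real.norm_eq_abs (f y)]
  · have := h x hx y hy (by rwa [dist_eq_norm])
    rw [Real.dist_eq] at this
    linarith [(abs_lt.1 this).1]
  · rw [le_div_iff₀ (by positivity)] at hδ'
    linarith

end Pool.Agent.Lib.MP_f2cf74_an
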