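import Pool.Agent.Lib.MP_f2cf74_an.LemS
import Pool.Agent.Lib.MP_f2cf74_an.SupC

open Set Metric MeasureTheory Complex Filter Topology
open scoped ContDiff ENNReal NNReal

noncomputable section

namespace Pool.Agent.Lib.MP_f2cf74_an

/-! Sup-convolutions are approximate subsolutions.  `supc_curve`: `supc_max` gives `y` in the
open ball, then `lemS`.  `supc_visc`: `sj_gam` with `a = Y`, `b = J x Y`, `β = beta x Y`, `lipJ`,
`beta_bound`; for `Y = 0` the claim is trivial. -/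

theorem supc_curve (M : Model) {c : E} {R R5 B δ m : ℝ} {W : E → ℝ} (hW : WOK M c R5 B W)
    (hR : R < R5) (hδ : 0 < δ) (hs : 4 * B * δ < (R5 - R) ^ 2) {x a b β X : E} (hx : x ∈ ball c R)
    (hm : supc W (closedBall c R5) (2 * δ) x - supc W (closedBall c R5) δ x ≤ m) (hX : X ≠ 0)
    {q : ℂ →L[ℝ] ℝ} {A : ℂ →L[ℝ] ℂ →L[ℝ] ℝ}
    (h : SJ (fun ξ => supc W (closedBall c R5) δ (gam x a b β ξ)) 0 q A) :
    ∃ y, ‖x - y‖ ^ 2 ≤ 4 * δ * m ∧ 0 ≤ A 1 1 + A I I + (‖a - X‖ ^ 2 + ‖b - M.J y X‖ ^ 2 +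
      inner ℝ (x - y) (β - beta M.J y X)) / δ := by
  have hxc : ‖x - c‖ < R := mem_ball_iff_norm.1 hx
  have hxS : x ∈ closedBall c R5 := mem_closedBall_iff_norm.2 (by linarith)
  obtain ⟨y, hy, h1, h2, h3⟩ := supc_max (isCompact_closedBall c R5) ⟨x, hxS⟩ hW.usc hW.bd hδ x
  have h4 : ‖x - y‖ < R5 - R :=
    lt_of_pow_lt_pow_left₀ 2 (by linarith) ((h3 hxS).trans_lt hs)
  have h5 : y ∈ ball c R5 := by
    rw [mem_ball_iff_norm]
    have := norm_sub_le_norm_sub_add_norm_sub y x c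
    rw [norm_sub_rev y x] at this
    linarith
  refine ⟨y, h2.trans (mul_le_mul_of_nonneg_left hm (by positivity)),
    lemS M hδ hX h1 ?_ (hW.visc y h5) h⟩
  filter_upwards [isOpen_ball.mem_nhds h5] with y' hy' x'
  exact supc_ge hW.bd hδ x' (ball_subset_closedBall hy')

theorem supc_visc (M : Model) : ∃ C : ℝ, 0 ≤ C ∧ ∀ (c : E) (R R5 B δ m : ℝ) (W : E → ℝ),
    WOK M c R5 B W → R < R5 → 0 < δ → 4 * B * δ < (R5 - R) ^ 2 → ∀ x ∈ ball c R,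
    supc W (closedBall c R5) (2 * δ) x - supc W (closedBall c R5) δ x ≤ m →
    Visc M.J (supc W (closedBall c R5) δ) x (C * m) := by
  obtain ⟨C, hC, -, H⟩ := M.beta_bound
  refine ⟨4 * (M.K ^ 2 + C), by positivity, fun c R R5 B δ m W hW hR hδ hs x hx hm p A hA Y => ?_⟩
  rcases eq_or_ne Y 0 with rfl | hY
  · simp [jetL, beta]
  obtain ⟨q, B', h1, h2⟩ := sj_gam hA Y (M.J x Y) (beta M.J x Y)
  obtain ⟨y, h3, h4⟩ := supc_curve M hW hR hδ hs hx hm hY h1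
  have h5 : ‖M.J x Y - M.J y Y‖ ≤ M.K * ‖x - y‖ * ‖Y‖ :=
    (M.J x - M.J y).le_of_opNorm_le (M.lipJ x y) Y
  have h6 := pow_le_pow_left₀ (norm_nonneg _) h5 2
  have h7 := (real_inner_le_norm (x - y) _).trans
    (mul_le_mul_of_nonneg_left (H x y Y) (norm_nonneg _))
  have h8 := mul_le_mul_of_nonneg_right h3 (show 0 ≤ (M.K ^ 2 + C) * ‖Y‖ ^ 2 by positivity)
  have h9 : (‖Y - Y‖ ^ 2 + ‖M.J x Y - M.J y Y‖ ^ 2 +
      inner ℝ (x - y) (beta M.J x Y - beta M.J y Y)) / δ ≤ 4 * (M.K ^ 2 + C) * m * ‖Y‖ ^ 2 := by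
    rw [div_le_iff₀ hδ, sub_self, norm_zero]
    nlinarith
  rw [jetL, ← h2]
  linarith

end Pool.Agent.Lib.MP_f2cf74_an
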