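import Pool.Agent.Lib.MP_f2cf74_an.Ibp

open Set Metric MeasureTheory Complex Filter Topology
open scoped ContDiff ENNReal NNReal

noncomputable section

namespace Pool.Agent.Lib.MP_f2cf74_an

/-! Stokes' theorem for the 3-form `κ = f α ∧ dγ`.  With
`κ a b c = f (α a dγ b c - α b dγ a c + α c dγ a b)` on basis vectors, the integrand below is
`D₀ κ 1 2 3 - D₁ κ 0 2 3 + D₂ κ 0 1 3 - D₃ κ 0 1 2` because `ddγ = 0` (symmetry of the second
derivative of each `fun y => γ y (eb i)`); each term integrates to `0` by `ibp` with a constant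
field. -/

theorem Stokes_int {h : E → ℝ} (hh : ContDiff ℝ 1 h) (R : ℝ) (hs : ∀ x, R ≤ ‖x‖ → h x = 0) (Y : E) :
    Integrable (fun x => fderiv ℝ h x Y) ∧ ∫ x, fderiv ℝ h x Y = 0 := by
  have hc : HasCompactSupport h := by
    refine HasCompactSupport.intro (isCompact_closedBall (0 : E) R) fun x hx => hs x ?_
    rw [mem_closedBall_zero_iff] at hx
    exact (not_le.mp hx).le
  constructor
  · refine Continuous.integrable_of_hasCompactSupport ?_ (hc.fderiv_apply ℝ Y)
    exact (hh.continuous_fderiv one_ne_zero).clm_apply continuous_const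
  · have h1 := ibp (V := fun _ => Y) contDiff_const hh hc
    simpa [divg] using h1

theorem Stokes_snd {g : E → ℝ} (hg : ContDiff ℝ 2 g) (Y x : E) :
    HasFDerivAt (fun y => fderiv ℝ g y Y) ((fderiv ℝ (fderiv ℝ g) x).flip Y) x := by
  have h1 : ContDiff ℝ 1 (fderiv ℝ g) := hg.fderiv_right (m := 1) (by norm_num)
  have h2 := ((h1.differentiable one_ne_zero) x).hasFDerivAt.clm_apply (hasFDerivAt_const Y x)
  simpa using h2

theorem Stokes_kappa {f a b c p q r : E → ℝ} {x : E} (hf : DifferentiableAt ℝ f x)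
    (ha : DifferentiableAt ℝ a x) (hb : DifferentiableAt ℝ b x) (hc : DifferentiableAt ℝ c x)
    (hp : DifferentiableAt ℝ p x) (hq : DifferentiableAt ℝ q x) (hr : DifferentiableAt ℝ r x)
    (Y : E) :
    fderiv ℝ (fun y => f y * (a y * p y - b y * q y + c y * r y)) x Y =
      fderiv ℝ f x Y * (a x * p x - b x * q x + c x * r x) +
        f x * (fderiv ℝ a x Y * p x + a x * fderiv ℝ p x Y -
          (fderiv ℝ b x Y * q x + b x * fderiv ℝ q x Y) +
          (fderiv ℝ c x Y * r x + c x * fderiv ℝ r x Y)) := by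
  have h := hf.hasFDerivAt.fun_mul (((ha.hasFDerivAt.fun_mul hp.hasFDerivAt).fun_sub
    (hb.hasFDerivAt.fun_mul hq.hasFDerivAt)).fun_add (hc.hasFDerivAt.fun_mul hr.hasFDerivAt))
  rw [h.fderiv]
  simp only [add_apply, sub_apply, smul_apply, smul_eq_mul]
  ring

theorem stokes {f : E → ℝ} {α γ : E → E → ℝ} (hf : ContDiff ℝ 1 f)
    (hα : ∀ i, ContDiff ℝ 1 fun y => α y (eb i)) (hγ : ∀ i, ContDiff ℝ 2 fun y => γ y (eb i))
    (R : ℝ) (hs : ∀ x, R ≤ ‖x‖ → f x = 0 ∨ (∀ Y, α x Y = 0) ∨ ∀ Y Z, dR γ x Y Z = 0) :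
    ∫ x, (top22 (w11 (fderiv ℝ f x) (α x)) (dR γ x) eb + f x * top22 (dR α x) (dR γ x) eb) = 0 := by
  have hG : ∀ i j, ContDiff ℝ 1 fun y => dR γ y (eb i) (eb j) := fun i j =>
    (((hγ j).fderiv_right (m := 1) (by norm_num)).clm_apply contDiff_const).sub
      (((hγ i).fderiv_right (m := 1) (by norm_num)).clm_apply contDiff_const)
  let κ : Fin 4 → Fin 4 → Fin 4 → E → ℝ := fun a b c y =>
    f y * (α y (eb a) * dR γ y (eb b) (eb c) - α y (eb b) * dR γ y (eb a) (eb c) +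
      α y (eb c) * dR γ y (eb a) (eb b))
  have hκ : ∀ a b c, ContDiff ℝ 1 (κ a b c) := fun a b c =>
    hf.mul ((((hα a).mul (hG b c)).sub ((hα b).mul (hG a c))).add ((hα c).mul (hG a b)))
  have hκ0 : ∀ a b c x, R ≤ ‖x‖ → κ a b c x = 0 := by
    intro a b c x hx
    rcases hs x hx with h | h | h <;> simp [κ, h]
  have hI := fun a b c d => Stokes_int (hκ a b c) R (hκ0 a b c) (eb d)
  have hD : ∀ x i j d, fderiv ℝ (fun y => dR γ y (eb i) (eb j)) x (eb d) =
      fderiv ℝ (fderiv ℝ fun y => γ y (eb j)) x (eb d) (eb i) -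
        fderiv ℝ (fderiv ℝ fun y => γ y (eb i)) x (eb d) (eb j) := by
    intro x i j d
    have h := (Stokes_snd (hγ j) (eb i) x).fun_sub (Stokes_snd (hγ i) (eb j) x)
    have h2 := h.fderiv
    unfold dR
    rw [h2]
    simp
  have hS : ∀ x i d e, fderiv ℝ (fderiv ℝ fun y => γ y (eb i)) x (eb d) (eb e) =
      fderiv ℝ (fderiv ℝ fun y => γ y (eb i)) x (eb e) (eb d) := fun x i d e =>
    ((hγ i).contDiffAt.isSymmSndFDerivAt (by simp)).eq _ _
  have hk : ∀ x a b c d, fderiv ℝ (κ a b c) x (eb d) = _ := fun x a b c d =>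
    Stokes_kappa (hf.differentiable one_ne_zero x) ((hα a).differentiable one_ne_zero x)
      ((hα b).differentiable one_ne_zero x) ((hα c).differentiable one_ne_zero x)
      ((hG b c).differentiable one_ne_zero x) ((hG a c).differentiable one_ne_zero x)
      ((hG a b).differentiable one_ne_zero x) (eb d)
  have key : ∀ x, top22 (w11 (fderiv ℝ f x) (α x)) (dR γ x) eb + f x * top22 (dR α x) (dR γ x) eb =
      fderiv ℝ (κ 1 2 3) x (eb 0) - fderiv ℝ (κ 0 2 3) x (eb 1) + fderiv ℝ (κ 0 1 3) x (eb 2) -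
        fderiv ℝ (κ 0 1 2) x (eb 3) := by
    intro x
    simp only [hk, hD]
    rw [hS x 0 2 1, hS x 0 3 1, hS x 0 3 2, hS x 1 2 0, hS x 1 3 0, hS x 1 3 2, hS x 2 1 0,
      hS x 2 3 0, hS x 2 3 1, hS x 3 1 0, hS x 3 2 0, hS x 3 2 1]
    have e : ∀ i j, dR α x (eb i) (eb j) = fderiv ℝ (fun y => α y (eb j)) x (eb i) -
      fderiv ℝ (fun y => α y (eb i)) x (eb j) := fun _ _ => rfl
    simp only [top22, w11, e]
    ring
  simp only [key]
  have i1 : Integrable fun x => fderiv ℝ (κ 1 2 3) x (eb 0) - fderiv ℝ (κ 0 2 3) x (eb 1) :=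
    (hI 1 2 3 0).1.sub (hI 0 2 3 1).1
  have i2 : Integrable fun x => fderiv ℝ (κ 1 2 3) x (eb 0) - fderiv ℝ (κ 0 2 3) x (eb 1) +
      fderiv ℝ (κ 0 1 3) x (eb 2) := i1.add (hI 0 1 3 2).1
  rw [integral_sub i2 (hI 0 1 2 3).1, integral_add i1 (hI 0 1 3 2).1,
    integral_sub (hI 1 2 3 0).1 (hI 0 2 3 1).1, (hI 1 2 3 0).2, (hI 0 2 3 1).2, (hI 0 1 3 2).2,
    (hI 0 1 2 3).2]
  simp

theorem dR_eta {J : E → E →L[ℝ] E} (hJ : ContDiff ℝ 1 J) {f : E → ℝ} (hf : ContDiff ℝ 2 f) (x : E) :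
    dR (eta J f) x = Om J f x := by
  have h1 : ContDiff ℝ 1 (fderiv ℝ f) := hf.fderiv_right (m := 1) (by norm_num)
  have key : ∀ Y Z, fderiv ℝ (fun y => eta J f y Z) x Y =
      -(fderiv ℝ (fderiv ℝ f) x Y (J x Z) + fderiv ℝ f x (fderiv ℝ J x Y Z)) := by
    intro Y Z
    have h2 := ((hJ.differentiable one_ne_zero) x).hasFDerivAt.clm_apply (hasFDerivAt_const Z x)
    have h3 := (((h1.differentiable one_ne_zero) x).hasFDerivAt.clm_apply h2).fun_neg
    have h4 := h3.fderiv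
    unfold eta
    rw [h4]
    simp [add_comm]
  funext Y Z
  simp only [dR, Om, key]
  ring

theorem contDiff_eta {J : E → E →L[ℝ] E} (hJ : ContDiff ℝ ∞ J) {f : E → ℝ} {n : ℕ}
    (hf : ContDiff ℝ (n + 1 : ℕ) f) (Y : E) : ContDiff ℝ n fun y => eta J f y Y := by
  have h1 : ContDiff ℝ n (fderiv ℝ f) := hf.fderiv_right (m := n) (by norm_cast)
  have h2 : ContDiff ℝ n J := hJ.of_le (by exact_mod_cast le_top)
  exact (h1.clm_apply (h2.clm_apply contDiff_const)).neg

theorem dR_shift (γ : E → E → ℝ) (h x : E) : dR (fun y => γ (y + h)) x = dR γ (x + h) := by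
  funext Y Z
  simp only [dR]
  rw [fderiv_comp_add_right (f := fun y => γ y Z), fderiv_comp_add_right (f := fun y => γ y Y)]

theorem continuous_Om {J : E → E →L[ℝ] E} (hJ : ContDiff ℝ 1 J) {f : E → ℝ} (hf : ContDiff ℝ 2 f)
    (Y Z : E) : Continuous fun x => Om J f x Y Z := by
  have h1 : ContDiff ℝ 1 (fderiv ℝ f) := hf.fderiv_right (m := 1) (by norm_num)
  have c1 : Continuous (fderiv ℝ f) := h1.continuous
  have c2 : Continuous (fderiv ℝ (fderiv ℝ f)) := h1.continuous_fderiv one_ne_zero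
  have c3 : Continuous J := hJ.continuous
  have c4 : Continuous (fderiv ℝ J) := hJ.continuous_fderiv one_ne_zero
  unfold Om
  refine ((((c2.clm_apply continuous_const).clm_apply (c3.clm_apply continuous_const)).neg.sub
    (c1.clm_apply ((c4.clm_apply continuous_const).clm_apply continuous_const))).add
    ((c2.clm_apply continuous_const).clm_apply (c3.clm_apply continuous_const))).add
    (c1.clm_apply ((c4.clm_apply continuous_const).clm_apply continuous_const))

end Pool.Agent.Lib.MP_f2cf74_an
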