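import Pool.Agent.Lib.MP_f2cf74_an.Rep
import Pool.Agent.Lib.MP_f2cf74_an.Mass
import Pool.Agent.Lib.MP_f2cf74_an.Kq

open Set Metric MeasureTheory Complex Filter Topology
open scoped ContDiff ENNReal NNReal

noncomputable section

namespace Pool.Agent.Lib.MP_f2cf74_an

/-! The gradient of a psh function in `L¹`.
`chi_ibp`: `ki0` with `c = I`, the kernel `fun p => if p = k then chiF s else 0`, `G = u`
(`Lc_ofReal`), `dvK_sub`, `norm_dF_le`, `chiF_facts`.
`iter_lemma`: `r i = a + (b - a) (1 - (2/3) ^ i)`.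
`t3`: for `a ≤ r < R ≤ b'` put `s = (R - r) / K`; `repH`, `AH_bound`, `chi_ibp`, `N0_facts`,
`Lg_bound`, Tonelli (`swap_pot`-like, `leb_near 3` gives the factor `R - r`) yield
`Φ r ≤ C (R - r) Φ R + C' nU / (R - r)`, `Φ r = ∫⁻ ball c r, eG u`; take `b' - a` so small that
`C (b' - a) ≤ 1/2`.  `Φ` is finite since `fderiv u` is continuous. -/

theorem t3_out {s : ℝ} (hs : 0 < s) {z : F} (hz : s ≤ ‖z‖) :
    KB (fun w => (chiF s w : ℂ)) z 0 := by
  obtain ⟨h1, h2, -, h4⟩ := chiF_facts hs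
  have hz0 : z ≠ 0 := norm_pos_iff.1 (hs.trans_le hz)
  have hd := (h4 z hz0).diff
  have hr : DifferentiableAt ℝ (chiF s) z := Complex.reCLM.differentiableAt.comp z hd
  have hm : IsLocalMin (chiF s) z := Eventually.of_forall fun w => by
    rw [h2 z hz]
    exact h1 w
  have h5 : HasFDerivAt (fun w => (chiF s w : ℂ)) (Complex.ofRealCLM.comp (fderiv ℝ (chiF s) z)) z :=
    Complex.ofRealCLM.hasFDerivAt.comp z hr.hasFDerivAt
  refine ⟨hd, by simp [h2 z hz], ?_⟩
  rw [h5.fderiv, hm.fderiv_eq_zero]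
  simp

theorem t3_ite {f : F → ℂ} {z : F} {κ : ℝ} (h : KB f z κ) (k p : Fin 2) :
    KB (if p = k then f else 0) z κ := by
  split_ifs
  · exact h
  · have h0 : 0 ≤ κ := (norm_nonneg _).trans h.b0
    exact ⟨differentiableAt_const _, by simpa using h0, by simpa using h0⟩

theorem t3_dv (M : Model) : ∃ C : ℝ, 0 ≤ C ∧ ∀ (y : E) (Z : E → F) (k : Fin 2 → F → ℂ) (x : E)
    (κ B : ℝ), Coord M y Z → Z x ≠ 0 → (∀ p, KB (k p) (Z x) κ) → κ ≤ B → κ * ‖Z x‖⁻¹ ≤ B →
    ‖dvK M I k Z x‖ ≤ C * B := by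
  obtain ⟨C, hC, h⟩ := dvK_sub M
  refine ⟨C + 2, by linarith, fun y Z k x κ B hZ h0 hk h1 h2 => ?_⟩
  have h3 := h y Z I k x κ hZ (by simp) hk
  have h4 : ∀ p, ‖dF I p (k p) (Z x)‖ ≤ B := fun p => by
    refine (norm_dF_le (by simp) p _).trans (le_trans ?_ h2)
    rw [← div_eq_mul_inv, le_div_iff₀ (norm_pos_iff.2 h0)]
    exact (hk p).b1
  have h5 : ‖∑ p, dF I p (k p) (Z x)‖ ≤ B + B := by
    rw [Fin.sum_univ_two]
    exact (norm_add_le _ _).trans (add_le_add (h4 0) (h4 1))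
  have h6 := norm_add_le (dvK M I k Z x - ∑ p, dF I p (k p) (Z x)) (∑ p, dF I p (k p) (Z x))
  rw [sub_add_cancel] at h6
  have h7 := mul_le_mul_of_nonneg_left h1 hC
  linarith

theorem chi_ibp (M : Model) : ∃ C : ℝ≥0, ∀ (x : E) (s : ℝ) (k : Fin 2) (u : E → ℝ), 0 < s →
    s ≤ 1 → ContDiff ℝ 1 u → ‖∫ y, (chi M s x y : ℂ) * Lb M k u y‖ₑ ≤
      C * ENNReal.ofReal ((s ^ 2)⁻¹) * ∫⁻ y in ball x (M.K * s), kp 3 x y * ‖u y‖ₑ := by
  obtain ⟨C, hC, hdv⟩ := t3_dv M
  have hK := M.K_pos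
  refine ⟨(C * (18 * M.K ^ 3)).toNNReal, fun x s k u hs hs1 hu => ?_⟩
  obtain ⟨-, c2, -, c4⟩ := chiF_facts hs
  have hZ := M.coord2 x
  have hσ : 0 < (s ^ 2)⁻¹ := by positivity
  have hG : ContDiff ℝ 1 fun y => (u y : ℂ) := Complex.ofRealCLM.contDiff.comp hu
  have hz : ∀ y, y ≠ x → M.A y (y - x) ≠ 0 ∧ ‖M.A y (y - x)‖⁻¹ ≤ M.K * ‖y - x‖⁻¹ := by
    intro y hy
    have h1 : 0 < ‖y - x‖ := norm_pos_iff.2 (sub_ne_zero.2 hy)
    have h2 : ‖y - x‖ ≤ M.K * ‖M.A y (y - x)‖ := hZ.low y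
    have h3 : 0 < ‖M.A y (y - x)‖ := (mul_pos_iff_of_pos_left hK).1 (h1.trans_le h2)
    refine ⟨norm_pos_iff.1 h3, ?_⟩
    rw [← div_eq_mul_inv, inv_eq_one_div, div_le_div_iff₀ h3 h1, one_mul]
    exact h2
  have hout : ∀ y, M.K * s ≤ ‖y - x‖ → s ≤ ‖M.A y (y - x)‖ := fun y hy =>
    le_of_mul_le_mul_left (hy.trans (hZ.low y)) hK
  obtain ⟨B0, hB0⟩ := (isCompact_closedBall x (M.K * s)).exists_bound_of_continuousOn
    hG.continuous.continuousOn
  obtain ⟨B1, hB1⟩ := (isCompact_closedBall x (M.K * s)).exists_bound_of_continuousOn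
    (hG.continuous_fderiv one_ne_zero).continuousOn
  obtain ⟨Cs, hCs, hsg⟩ := inv_cube_le_sg (M.K * s)
  have hB0' : 0 ≤ B0 := (norm_nonneg _).trans (hB0 x (mem_closedBall_self (by positivity)))
  have hB1' : 0 ≤ B1 := (norm_nonneg _).trans (hB1 x (mem_closedBall_self (by positivity)))
  obtain ⟨-, -, key⟩ := ki0 M hZ (c := I) (by simp)
    (k := fun p => if p = k then fun w => (chiF s w : ℂ) else 0)
    (κ := fun y => 18 * (s ^ 2)⁻¹ * ‖M.A y (y - x)‖⁻¹ ^ 2) (R := M.K * s)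
    (C1 := 18 * (s ^ 2)⁻¹ * M.K ^ 2 * Cs * (B0 + M.K * s * B1)) hG
    (fun y hy p => t3_ite (c4 _ (hz y hy).1) k p)
    (fun y hy p => by
      split_ifs
      · exact Complex.ofReal_eq_zero.2 (c2 _ (hout y hy))
      · rfl)
    (fun y hy hR => by
      have hm : y ∈ closedBall x (M.K * s) := by
        rw [mem_closedBall, dist_eq_norm]
        exact hR.le
      have s0 : 0 ≤ sg x y := Real.rpow_nonneg (norm_nonneg _) _
      have a1 : ‖M.A y (y - x)‖⁻¹ ^ 2 ≤ M.K ^ 2 * (Cs * (‖y - x‖ * sg x y)) := by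
        refine (pow_le_pow_left₀ (by positivity) (hz y hy).2 2).trans ?_
        rw [mul_pow]
        exact mul_le_mul_of_nonneg_left (hsg y x hR).2 (by positivity)
      have a2 := mul_le_mul_of_nonneg_left a1 (show 0 ≤ 18 * (s ^ 2)⁻¹ by positivity)
      constructor
      · refine (mul_le_mul a2 ((hB0 y hm).trans (le_add_of_nonneg_right
          (show 0 ≤ M.K * s * B1 by positivity))) (norm_nonneg _) (by positivity)).trans_eq ?_
        ring
      · refine (mul_le_mul a2 (hB1 y hm) (norm_nonneg _) (by positivity)).trans ?_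
        have a3 : ‖y - x‖ * B1 ≤ B0 + M.K * s * B1 :=
          (mul_le_mul_of_nonneg_right hR.le hB1').trans (le_add_of_nonneg_left hB0')
        refine le_of_eq_of_le ?_ ((mul_le_mul_of_nonneg_left a3
          (show 0 ≤ 18 * (s ^ 2)⁻¹ * M.K ^ 2 * Cs * sg x y by positivity)).trans_eq ?_)
        · ring
        · ring)
  have e1 : (fun y => (chi M s x y : ℂ) * Lb M k u y) = fun y =>
      ∑ p, (if p = k then fun w => (chiF s w : ℂ) else 0 : F → ℂ) (M.A y (y - x)) *
        Lc M I p (fun y => (u y : ℂ)) y := by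
    funext y
    rw [Finset.sum_eq_single k (fun p _ hp => by rw [if_neg hp]; simp) (by simp), if_pos rfl,
      Lc_ofReal M (hu.differentiable one_ne_zero y)]
    rfl
  rw [e1, key, enorm_neg, ← lintegral_const_mul' _ _ (by finiteness),
    ← lintegral_indicator measurableSet_ball]
  refine (enorm_integral_le_lintegral_enorm _).trans (lintegral_mono_ae ?_)
  filter_upwards [compl_mem_ae_iff.2 (measure_singleton x)] with y hy
  have hy' : y ≠ x := hy
  rw [enorm_mul]
  by_cases hb : y ∈ ball x (M.K * s)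
  · rw [indicator_of_mem hb, ← mul_assoc]
    refine mul_le_mul' ?_ (by simp [enorm_eq_nnnorm])
    rw [mem_ball, dist_eq_norm] at hb
    have h1 : 0 < ‖y - x‖ := norm_pos_iff.2 (sub_ne_zero.2 hy')
    have w1 : 1 ≤ M.K * ‖y - x‖⁻¹ := by
      rw [← div_eq_mul_inv, one_le_div h1]
      nlinarith
    have w2 := (hz y hy').2
    have w0 : 0 ≤ ‖M.A y (y - x)‖⁻¹ := by positivity
    have w3 : ‖M.A y (y - x)‖⁻¹ ^ 2 ≤ (M.K * ‖y - x‖⁻¹) ^ 3 :=
      (pow_le_pow_left₀ w0 w2 2).trans (pow_le_pow_right₀ w1 (by norm_num))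
    have w4 : ‖M.A y (y - x)‖⁻¹ ^ 3 ≤ (M.K * ‖y - x‖⁻¹) ^ 3 := pow_le_pow_left₀ w0 w2 3
    have w5 := hdv x _ (fun p => if p = k then fun w => (chiF s w : ℂ) else 0) y _
      (18 * (s ^ 2)⁻¹ * (M.K * ‖y - x‖⁻¹) ^ 3) hZ (hz y hy').1
      (fun p => t3_ite (c4 _ (hz y hy').1) k p)
      (mul_le_mul_of_nonneg_left w3 (by positivity))
      (le_of_eq_of_le (by ring) (mul_le_mul_of_nonneg_left w4 (by positivity)))
    rw [← ofReal_norm, kp, norm_sub_rev x y]
    refine (ENNReal.ofReal_le_ofReal w5).trans_eq ?_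
    change _ = ENNReal.ofReal _ * _ * _
    rw [← ENNReal.ofReal_mul (by positivity), ← ENNReal.ofReal_mul (by positivity)]
    congr 1
    ring
  · rw [indicator_of_notMem hb]
    rw [mem_ball, dist_eq_norm, not_lt] at hb
    have w5 := hdv x _ (fun p => if p = k then fun w => (chiF s w : ℂ) else 0) y 0 0 hZ
      (hz y hy').1 (fun p => t3_ite (t3_out hs (hout y hb)) k p) le_rfl (by simp)
    rw [mul_zero, norm_le_zero_iff] at w5
    rw [w5]
    simp

theorem iter_lemma {Φ : ℝ → ℝ} {a b A B : ℝ} (hab : a < b) (hA : 0 ≤ A)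
    (hB : ∀ r ∈ Icc a b, Φ r ≤ B)
    (h : ∀ r R, a ≤ r → r < R → R ≤ b → Φ r ≤ Φ R / 2 + A / (R - r)) :
    Φ a ≤ 12 * A / (b - a) := by
  have hd : 0 < b - a := sub_pos.2 hab
  have hr : ∀ n : ℕ, a + (b - a) * (1 - (2 / 3) ^ n) ∈ Icc a b := fun n => by
    have h1 : (0 : ℝ) < (2 / 3) ^ n := by positivity
    have h2 : ((2 : ℝ) / 3) ^ n ≤ 1 := pow_le_one₀ (by norm_num) (by norm_num)
    constructor <;> nlinarith
  have key : ∀ n : ℕ, Φ a ≤ Φ (a + (b - a) * (1 - (2 / 3) ^ n)) * (1 / 2) ^ n +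
      12 * A / (b - a) * (1 - (3 / 4) ^ n) := by
    intro n
    induction n with
    | zero => simp
    | succ n ih =>
      have h1 : (0 : ℝ) < (2 / 3) ^ n := by positivity
      have h2 := h _ _ (hr n).1 (show _ < a + (b - a) * (1 - (2 / 3) ^ (n + 1)) by
        rw [pow_succ]
        nlinarith [mul_pos hd h1]) (hr (n + 1)).2
      have e : A / (a + (b - a) * (1 - (2 / 3) ^ (n + 1)) - (a + (b - a) * (1 - (2 / 3) ^ n))) *
          (1 / 2) ^ n = 3 * A / (b - a) * (3 / 4) ^ n := by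
        have e1 : a + (b - a) * (1 - (2 / 3) ^ (n + 1)) - (a + (b - a) * (1 - (2 / 3) ^ n)) =
            (b - a) * (2 / 3) ^ n / 3 := by ring
        have e2 : ((1 : ℝ) / 2) ^ n = (3 / 4) ^ n * (2 / 3) ^ n := by
          rw [← mul_pow]
          norm_num
        rw [e1, e2]
        field_simp
      have h3 := mul_le_mul_of_nonneg_right h2 (show (0 : ℝ) ≤ (1 / 2) ^ n by positivity)
      rw [add_mul, e] at h3
      refine ih.trans ((add_le_add h3 le_rfl).trans_eq ?_)
      ring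
  have lim : Tendsto (fun n : ℕ => B * (1 / 2) ^ n + 12 * A / (b - a)) atTop
      (𝓝 (B * 0 + 12 * A / (b - a))) :=
    ((tendsto_pow_atTop_nhds_zero_of_lt_one (by norm_num) (by norm_num)).const_mul B).add_const _
  rw [mul_zero, zero_add] at lim
  refine ge_of_tendsto' lim fun n => (key n).trans (add_le_add ?_ ?_)
  · exact mul_le_mul_of_nonneg_right (hB _ (hr n)) (by positivity)
  · refine mul_le_of_le_one_right (by positivity) ?_
    have : (0 : ℝ) < (3 / 4) ^ n := by positivity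
    linarith

theorem t3_pt (M : Model) : ∃ D : ℝ≥0, ∀ (x : E) (s : ℝ) (u : E → ℝ), 0 < s → s ≤ 1 →
    ContDiff ℝ 2 u → Psh M.J u (ball x (M.K * s)) → eG u x ≤ D * ∫⁻ y in ball x (M.K * s),
      kp 3 x y * (eG u y + eT M u y + ENNReal.ofReal ((s ^ 2)⁻¹) * ‖u y‖ₑ) := by
  obtain ⟨C1, h1⟩ := repH M
  obtain ⟨C2, h2⟩ := AH_bound M
  obtain ⟨C3, h3⟩ := chi_ibp M
  obtain ⟨c0, C0, hc0, hN, -⟩ := N0_facts M
  obtain ⟨CL, hCL, hL⟩ := Lg_bound M
  refine ⟨(CL / c0).toNNReal * ((C1 + C2 + C3) + (C1 + C2 + C3)), fun x s u hs hs1 hu hp => ?_⟩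
  generalize hP : ∫⁻ y in ball x (M.K * s),
    kp 3 x y * (eG u y + eT M u y + ENNReal.ofReal ((s ^ 2)⁻¹) * ‖u y‖ₑ) = P
  have key : ∀ k, ‖(N0 M x : ℂ) * Lb M k u x‖ₑ ≤ (C1 + C2 + C3) * P := by
    intro k
    have a1 := (h1 x s k u hs hu).trans (mul_le_mul' le_rfl (show _ ≤ P from hP ▸
      lintegral_mono fun y => mul_le_mul' le_rfl (le_self_add.trans le_self_add)))
    have a2 := (h2 x s k u hs hp).trans (mul_le_mul' le_rfl (show _ ≤ P from hP ▸
      lintegral_mono fun y => mul_le_mul' le_rfl (le_add_self.trans le_self_add)))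
    have a3 : ‖∫ y, (chi M s x y : ℂ) * Lb M k u y‖ₑ ≤ C3 * P := by
      refine (h3 x s k u hs hs1 (hu.of_le one_le_two)).trans ?_
      rw [mul_assoc, ← lintegral_const_mul' _ _ ENNReal.ofReal_ne_top, ← hP]
      refine mul_le_mul' le_rfl (lintegral_mono fun y => ?_)
      beta_reduce
      rw [mul_left_comm]
      exact mul_le_mul' le_rfl le_add_self
    have e : (N0 M x : ℂ) * Lb M k u x = ((N0 M x : ℂ) * Lb M k u x + AH M s k u x -
        ∫ y, (chi M s x y : ℂ) * Lb M k u y) - AH M s k u x +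
        ∫ y, (chi M s x y : ℂ) * Lb M k u y := by ring
    rw [e, add_mul, add_mul]
    exact (enorm_add_le _ _).trans (add_le_add (enorm_sub_le.trans (add_le_add a1 a2)) a3)
  have b1 : ∀ k, c0 * ‖Lb M k u x‖ ≤ ‖(N0 M x : ℂ) * Lb M k u x‖ := fun k => by
    rw [norm_mul, Complex.norm_real, Real.norm_eq_abs]
    exact mul_le_mul_of_nonneg_right ((hN x).1.trans (le_abs_self _)) (norm_nonneg _)
  have b2 : ‖fderiv ℝ u x‖ ≤
      CL / c0 * (‖(N0 M x : ℂ) * Lb M 0 u x‖ + ‖(N0 M x : ℂ) * Lb M 1 u x‖) := by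
    refine (hL x (fderiv ℝ u x)).2.1.trans (le_of_eq_of_le ?_
      (mul_le_mul_of_nonneg_left (add_le_add (b1 0) (b1 1)) (div_nonneg hCL hc0.le)))
    unfold Lb
    field_simp
  rw [eG, ← ofReal_norm]
  refine (ENNReal.ofReal_le_ofReal b2).trans ?_
  rw [ENNReal.ofReal_mul (div_nonneg hCL hc0.le),
    ENNReal.ofReal_add (norm_nonneg _) (norm_nonneg _), ofReal_norm, ofReal_norm,
    ENNReal.coe_mul, mul_assoc]
  refine mul_le_mul' le_rfl ((add_le_add (key 0) (key 1)).trans_eq ?_)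
  push_cast
  ring

theorem t3_swap : ∃ C : ℝ≥0, ∀ (c : E) (r δ : ℝ) (m : E → ℝ≥0∞), 0 < δ → Measurable m →
    ∫⁻ x in ball c r, ∫⁻ y in ball x δ, kp 3 x y * m y ≤
      C * ENNReal.ofReal δ * ∫⁻ y in ball c (r + δ), m y := by
  obtain ⟨C, hC⟩ := leb_near 3 (by norm_num) (by norm_num)
  refine ⟨C, fun c r δ m hδ hm => ?_⟩
  have hS : MeasurableSet {q : E × E | dist q.2 q.1 < δ} :=
    (isOpen_lt (by fun_prop) continuous_const).measurableSet
  have hF : Measurable fun q : E × E =>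
      {q : E × E | dist q.2 q.1 < δ}.indicator (fun q => kp 3 q.1 q.2) q * m q.2 :=
    ((measurable_kp 3).indicator hS).mul (hm.comp measurable_snd)
  calc _ = ∫⁻ x in ball c r, ∫⁻ y in ball c (r + δ),
        {q : E × E | dist q.2 q.1 < δ}.indicator (fun q => kp 3 q.1 q.2) (x, y) * m y := by
        refine setLIntegral_congr_fun measurableSet_ball fun x hx => ?_
        have hsub : ball x δ ⊆ ball c (r + δ) :=
          ball_subset_ball' (by rw [mem_ball] at hx; linarith)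
        beta_reduce
        rw [← inter_eq_left.2 hsub, ← Measure.restrict_restrict measurableSet_ball,
          ← lintegral_indicator measurableSet_ball]
        refine lintegral_congr fun y => ?_
        by_cases hy : y ∈ ball x δ
        · rw [indicator_of_mem hy,
            indicator_of_mem (show (x, y) ∈ {q : E × E | dist q.2 q.1 < δ} from hy)]
        · rw [indicator_of_notMem hy,
            indicator_of_notMem (show (x, y) ∉ {q : E × E | dist q.2 q.1 < δ} from hy), zero_mul]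
    _ = ∫⁻ y in ball c (r + δ), ∫⁻ x in ball c r,
        {q : E × E | dist q.2 q.1 < δ}.indicator (fun q => kp 3 q.1 q.2) (x, y) * m y :=
        lintegral_lintegral_swap hF.aemeasurable
    _ ≤ ∫⁻ y in ball c (r + δ), C * ENNReal.ofReal δ * m y := by
        refine lintegral_mono fun y => ?_
        beta_reduce
        have h0 : Measurable fun x : E =>
            {q : E × E | dist q.2 q.1 < δ}.indicator (fun q => kp 3 q.1 q.2) (x, y) :=
          ((measurable_kp 3).indicator hS).comp measurable_prodMk_right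
        rw [lintegral_mul_const _ h0]
        refine mul_le_mul' ((setLIntegral_le_lintegral _ _).trans ?_) le_rfl
        have h1 := hC y δ hδ
        rw [show 4 - 3 = 1 from rfl, pow_one, ← lintegral_indicator measurableSet_ball] at h1
        refine le_of_eq_of_le (lintegral_congr fun x => ?_) h1
        by_cases hx : x ∈ ball y δ
        · rw [indicator_of_mem hx, indicator_of_mem
            (show (x, y) ∈ {q : E × E | dist q.2 q.1 < δ} from mem_ball'.1 hx), kp_comm]
        · rw [indicator_of_notMem hx, indicator_of_notMem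
            (show (x, y) ∉ {q : E × E | dist q.2 q.1 < δ} from fun h => hx (mem_ball'.2 h))]
    _ = _ := lintegral_const_mul _ hm

theorem t3_fin {G : Type} [NormedAddCommGroup G] {f : E → G} (hf : Continuous f) (c : E) (r : ℝ) :
    ∫⁻ x in ball c r, ‖f x‖ₑ ≠ ⊤ :=
  ((hf.continuousOn.integrableOn_compact (isCompact_closedBall c r)).mono_set
    ball_subset_closedBall).2.ne

theorem t3 (M : Model) (c : E) {a b : ℝ} (ha : 0 < a) (hab : a < b) : ∃ C : ℝ≥0,
    ∀ u, UOK M c b u → ∫⁻ x in ball c a, eG u x ≤ C * nU c b u := by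
  obtain ⟨D, hD⟩ := t3_pt M
  obtain ⟨C4, h4⟩ := t3_swap
  have hK := M.K_pos
  obtain ⟨η, η0, η1, η2, η3⟩ : ∃ η : ℝ, 0 < η ∧ η ≤ 1 ∧ a + η < b ∧
      (D * C4 : ℝ) * η ≤ 1 / 2 := by
    have h0 : (0 : ℝ) ≤ D * C4 := by positivity
    refine ⟨min (min 1 ((b - a) / 2)) (1 / (2 * (D * C4 + 1))),
      lt_min (lt_min one_pos (by linarith)) (by positivity),
      (min_le_left _ _).trans (min_le_left _ _), ?_, ?_⟩
    · have := (min_le_left (min 1 ((b - a) / 2)) (1 / (2 * (D * C4 + 1)))).trans (min_le_right _ _)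
      linarith
    · refine (mul_le_mul_of_nonneg_left (min_le_right _ _) h0).trans ?_
      rw [mul_one_div, div_le_div_iff₀ (by positivity) two_pos]
      linarith
  obtain ⟨C5, h5⟩ := mass M c (add_pos ha η0) η2
  refine ⟨(12 * (D * C4 * (C5 + M.K ^ 2)) / η).toNNReal, fun u hu => ?_⟩
  have hu2 : ContDiff ℝ 2 u := hu.sm.of_le (by norm_num)
  have fG : ∀ r, ∫⁻ x in ball c r, eG u x ≠ ⊤ := fun r =>
    t3_fin (hu2.continuous_fderiv two_ne_zero) c r
  have fU : nU c b u ≠ ⊤ := t3_fin hu2.continuous c b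
  have hn : 0 ≤ (nU c b u).toReal := ENNReal.toReal_nonneg
  have key := iter_lemma (Φ := fun r => (∫⁻ x in ball c r, eG u x).toReal) (a := a) (b := a + η)
    (A := D * C4 * (C5 + M.K ^ 2) * (nU c b u).toReal) (lt_add_of_pos_right a η0) (by positivity)
    (fun r hr => ENNReal.toReal_mono (fG (a + η)) (lintegral_mono_set (ball_subset_ball hr.2)))
    (fun r R hr hR hR' => by
      obtain ⟨δ, rfl⟩ : ∃ δ, R = r + δ := ⟨R - r, by ring⟩
      have hδ : 0 < δ := by linarith
      have hδη : δ ≤ η := by linarith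
      have hs : 0 < δ / M.K := div_pos hδ hK
      have e : M.K * (δ / M.K) = δ := mul_div_cancel₀ _ hK.ne'
      have m1 := measurable_eG u
      have m2 := measurable_eT M hu2
      have m3 : Measurable fun y => ‖u y‖ₑ := hu2.continuous.measurable.enorm
      have m4 : Measurable fun y => eG u y + eT M u y := m1.add m2
      have m5 : Measurable fun y => eG u y + eT M u y +
        ENNReal.ofReal (((δ / M.K) ^ 2)⁻¹) * ‖u y‖ₑ := m4.add (m3.const_mul _)
      have a1 : ∫⁻ x in ball c r, eG u x ≤ D * (C4 * ENNReal.ofReal δ *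
          ((∫⁻ x in ball c (r + δ), eG u x) + C5 * nU c b u +
            ENNReal.ofReal (((δ / M.K) ^ 2)⁻¹) * nU c b u)) := by
        refine (setLIntegral_mono' measurableSet_ball fun x hx => hD x (δ / M.K) u hs
          ((div_le_one hK).2 (by linarith [M.one_le])) hu2 fun y hy => hu.psh y ?_).trans ?_
        · rw [e] at hy
          exact ball_subset_ball' (by rw [mem_ball] at hx; linarith) hy
        · rw [lintegral_const_mul' _ _ ENNReal.coe_ne_top, e]
          refine mul_le_mul' le_rfl ((h4 c r δ _ hδ m5).trans (mul_le_mul' le_rfl ?_))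
          rw [lintegral_add_left m4, lintegral_add_left m1, lintegral_const_mul _ m3]
          refine add_le_add (add_le_add le_rfl ?_) (mul_le_mul' le_rfl ?_)
          · exact (lintegral_mono_set (ball_subset_ball hR')).trans (h5 u hu)
          · exact lintegral_mono_set (ball_subset_ball (hR'.trans η2.le))
      have f1 := fG (r + δ)
      have a2 := ENNReal.toReal_mono (by finiteness) a1
      rw [ENNReal.toReal_mul, ENNReal.toReal_mul, ENNReal.toReal_mul,
        ENNReal.toReal_add (by finiteness) (by finiteness), ENNReal.toReal_add f1 (by finiteness),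
        ENNReal.toReal_mul, ENNReal.toReal_mul, ENNReal.toReal_ofReal hδ.le,
        ENNReal.toReal_ofReal (by positivity), ENNReal.coe_toReal, ENNReal.coe_toReal,
        ENNReal.coe_toReal] at a2
      beta_reduce
      rw [add_sub_cancel_left]
      have hX : 0 ≤ (∫⁻ x in ball c (r + δ), eG u x).toReal := ENNReal.toReal_nonneg
      generalize (∫⁻ x in ball c (r + δ), eG u x).toReal = X at *
      generalize (nU c b u).toReal = n at *
      have h0 : (0 : ℝ) ≤ D * C4 := by positivity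
      have b1 : (D * C4 : ℝ) * δ * X ≤ 1 / 2 * X :=
        mul_le_mul_of_nonneg_right ((mul_le_mul_of_nonneg_left hδη h0).trans η3) hX
      have b2 : (D * C4 * C5 * n : ℝ) * δ ≤ D * C4 * C5 * n / δ := by
        rw [div_eq_mul_inv]
        refine mul_le_mul_of_nonneg_left ?_ (by positivity)
        exact (hδη.trans η1).trans (one_le_inv_iff₀.2 ⟨hδ, hδη.trans η1⟩)
      have b3 : (D : ℝ) * (C4 * δ * (X + C5 * n + ((δ / M.K) ^ 2)⁻¹ * n)) =
          D * C4 * δ * X + D * C4 * C5 * n * δ + D * C4 * M.K ^ 2 * n / δ := by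
        field_simp
      have b4 : (D : ℝ) * C4 * (C5 + M.K ^ 2) * n / δ =
          D * C4 * C5 * n / δ + D * C4 * M.K ^ 2 * n / δ := by ring
      rw [b3] at a2
      rw [b4]
      linarith)
  rw [add_sub_cancel_left] at key
  rw [← ENNReal.ofReal_toReal (fG a), ← ENNReal.ofReal_toReal fU]
  refine (ENNReal.ofReal_le_ofReal key).trans_eq ?_
  change _ = ENNReal.ofReal _ * _
  rw [← ENNReal.ofReal_mul (by positivity)]
  congr 1
  ring

end Pool.Agent.Lib.MP_f2cf74_an
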