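import Pool.Agent.Lib.MP_f2cf74_an.AlgA
import Pool.Agent.Lib.MP_f2cf74_an.ModB

open Set Metric MeasureTheory Complex Filter Topology
open scoped ContDiff ENNReal NNReal

noncomputable section

namespace Pool.Agent.Lib.MP_f2cf74_an

/-! The pointwise two-point inequality.  Put `h = ‖y - y'‖`, `β = hm Ψ (J y')`,
`β' = hm Ψ (J y)`.  For `c : F` let `Y = Bv (J y) X c`, `z = A y' Y = c + e₁`,
`A y' (J y Y) = I • z + e₂` with `‖e₁‖, ‖e₂‖ ≤ C h ‖c‖` (`lipA`, `lipJ`).  By `alt_frame` at `y'`,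
`4 Hq β' c = Ψ Y (J y Y) ≥ 4 Hq β z - b ‖z‖ ‖e₂‖ - (Hq β z + 4 Hq β e₂)` (`PSD.cs` with `t = 1/2`),
and `Hq β c ≤ 2 Hq β z + 2 Hq β e₁`.  So `γ = (8/3) β' + C (h² tr β + h b) 1 - β` is `PSD`, and
`0 ≤ Dd α γ` (`Dd α 1 = tr α`).  Finally `top22_frame` at `y` and
`‖sig Ψ (J y)‖ ≤ b + C h (tr β + b)`. -/

theorem two0_mul (z w : F) (j k : Fin 2) : ‖z j‖ * ‖w k‖ ≤ ‖z‖ * ‖w‖ :=
  mul_le_mul (PiLp.norm_apply_le z j) (PiLp.norm_apply_le w k) (norm_nonneg _) (norm_nonneg _)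

theorem two0_wedge {σ : ℂ} {b : ℝ} (hb : ‖σ‖ ≤ b) (z w : F) :
    |(σ * (z 0 * w 1 - z 1 * w 0)).re / 2| ≤ b * (‖z‖ * ‖w‖) := by
  have h1 : ‖z 0 * w 1 - z 1 * w 0‖ ≤ 2 * (‖z‖ * ‖w‖) := by
    refine (norm_sub_le _ _).trans ?_
    rw [norm_mul, norm_mul]
    linarith [two0_mul z w 0 1, two0_mul z w 1 0]
  have h2 := (abs_re_le_norm (σ * (z 0 * w 1 - z 1 * w 0))).trans ((norm_mul_le _ _).trans
    (mul_le_mul hb h1 (norm_nonneg _) ((norm_nonneg _).trans hb)))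
  rw [abs_div, abs_two]
  linarith

theorem two0_S {β : Fin 2 → Fin 2 → ℂ} (h : PSD β) (z w : F) :
    ‖∑ j, ∑ k, z j * (starRingEnd ℂ) (w k) * β j k‖ ≤ 4 * (tr β * (‖z‖ * ‖w‖)) := by
  have h1 : ∀ j k, ‖z j * (starRingEnd ℂ) (w k) * β j k‖ ≤ tr β * (‖z‖ * ‖w‖) := fun j k => by
    rw [norm_mul, norm_mul, RCLike.norm_conj, mul_comm]
    exact mul_le_mul (h.norm_le j k) (two0_mul z w j k) (by positivity) h.tr_nonneg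
  refine (norm_sum_le _ _).trans ((Finset.sum_le_sum fun j _ => (norm_sum_le _ _).trans
    (Finset.sum_le_sum fun k _ => h1 j k)).trans (le_of_eq ?_))
  simp only [Fin.sum_univ_two]
  ring

theorem two0_add {Ψ : E → E → ℝ} (h : IsAlt Ψ) (Y Z Z' : E) : Ψ Y (Z + Z') = Ψ Y Z + Ψ Y Z' := by
  rw [h.anti, h.add, h.anti Z, h.anti Z']
  ring

theorem two0_bd (M : Model) {y : E} {Ψ : E → E → ℝ} {b : ℝ} (h : IsAlt Ψ)
    (hp : PSD (hm Ψ (M.J y) M.X)) (hb : ‖sig Ψ (M.J y) M.X‖ ≤ b) {Y Z : E} {s t : ℝ}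
    (hY : ‖Y‖ ≤ s) (hZ : ‖Z‖ ≤ t) :
    |Ψ Y Z| ≤ (b + 16 * tr (hm Ψ (M.J y) M.X)) * M.K ^ 2 * (s * t) := by
  have hK := M.K_pos
  have h0 : 0 ≤ b + 16 * tr (hm Ψ (M.J y) M.X) := by
    linarith [hp.tr_nonneg, norm_nonneg (sig Ψ (M.J y) M.X)]
  have h1 := alt_frame h (M.J y) M.X (M.A y Y) (M.A y Z)
  rw [M.Bv_A, M.Bv_A] at h1
  have h2 := two0_wedge hb (M.A y Y) (M.A y Z)
  have h3 := (abs_im_le_norm _).trans (two0_S hp (M.A y Y) (M.A y Z))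
  have h4 : ‖M.A y Y‖ * ‖M.A y Z‖ ≤ M.K * s * (M.K * t) :=
    mul_le_mul ((M.norm_A y Y).trans (by gcongr)) ((M.norm_A y Z).trans (by gcongr))
      (norm_nonneg _) (mul_nonneg hK.le ((norm_nonneg _).trans hY))
  have h5 := mul_le_mul_of_nonneg_left h4 h0
  rw [h1]
  refine (abs_sub _ _).trans ?_
  rw [abs_mul (4 : ℝ), abs_of_pos (by norm_num : (0 : ℝ) < 4)]
  linarith

theorem two0_sig (M : Model) (y : E) {y' : E} {Ψ : E → E → ℝ} {b : ℝ} (h : IsAlt Ψ)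
    (hp : PSD (hm Ψ (M.J y') M.X)) (hb : ‖sig Ψ (M.J y') M.X‖ ≤ b) :
    ‖sig Ψ (M.J y) M.X‖ ≤ b + 4 * M.K ^ 6 * ‖y - y'‖ * (b + 16 * tr (hm Ψ (M.J y') M.X)) := by
  have hK := M.K_pos
  have h1 : ∀ x j, ‖M.J x (M.X j)‖ ≤ M.K ^ 2 := fun x j => ((M.J x).le_opNorm _).trans
    ((mul_le_mul (M.bJ x) (M.bX j) (norm_nonneg _) hK.le).trans_eq (sq _).symm)
  have h2 : ∀ j, ‖M.X j‖ ≤ M.K ^ 2 := fun j => (M.bX j).trans (by nlinarith [M.one_le])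
  obtain ⟨D, hD⟩ : ∃ D : Fin 2 → E, ∀ j, D j = (M.J y - M.J y') (M.X j) := ⟨_, fun _ => rfl⟩
  have h3 : ∀ j, ‖D j‖ ≤ M.K ^ 2 * ‖y - y'‖ := fun j => by
    rw [hD]
    refine ((M.J y - M.J y').le_opNorm _).trans
      ((mul_le_mul (M.lipJ y y') (M.bX j) (norm_nonneg _) (by positivity)).trans_eq (by ring))
  have h4 : ∀ j, M.J y (M.X j) = M.J y' (M.X j) + D j := fun j => by simp [hD]
  have h5 : sig Ψ (M.J y) M.X = sig Ψ (M.J y') M.X -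
      (((Ψ (D 0) (M.J y (M.X 1)) + Ψ (M.J y' (M.X 0)) (D 1) : ℝ) : ℂ) +
        I * ((Ψ (M.X 0) (D 1) + Ψ (D 0) (M.X 1) : ℝ) : ℂ)) := by
    simp only [sig, h4, h.add, two0_add h]
    push_cast
    ring
  have b1 := two0_bd M h hp hb (h3 0) (h1 y 1)
  have b2 := two0_bd M h hp hb (h1 y' 0) (h3 1)
  have b3 := two0_bd M h hp hb (h2 0) (h3 1)
  have b4 := two0_bd M h hp hb (h3 0) (h2 1)
  rw [h5]
  refine (norm_sub_le _ _).trans (add_le_add hb ((norm_add_le _ _).trans ?_))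
  rw [norm_mul, norm_I, one_mul, norm_real, norm_real, Real.norm_eq_abs, Real.norm_eq_abs]
  linarith [abs_add_le (Ψ (D 0) (M.J y (M.X 1))) (Ψ (M.J y' (M.X 0)) (D 1)),
    abs_add_le (Ψ (M.X 0) (D 1)) (Ψ (D 0) (M.X 1))]

theorem two0_P (M : Model) (y y' : E) (c : F) :
    ‖M.A y' (Bv (M.J y) M.X c) - c‖ ≤ M.K ^ 2 * ‖y - y'‖ * ‖c‖ := by
  have hK := M.K_pos
  have h1 : M.A y' (Bv (M.J y) M.X c) - c = -(M.A y - M.A y') (Bv (M.J y) M.X c) := by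
    simp [M.A_Bv]
  rw [h1, norm_neg]
  exact ((M.A y - M.A y').le_opNorm _).trans ((mul_le_mul (M.lipA y y') (M.norm_Bv y c)
    (norm_nonneg _) (by positivity)).trans_eq (by ring))

theorem two0_hq (M : Model) {y y' : E} {Ψ : E → E → ℝ} {b : ℝ} (h : IsAlt Ψ) (hy : ‖y - y'‖ ≤ 1)
    (hp : PSD (hm Ψ (M.J y') M.X)) (hb : ‖sig Ψ (M.J y') M.X‖ ≤ b) (c : F) :
    Hq (hm Ψ (M.J y') M.X) c ≤ 8 / 3 * Hq (hm Ψ (M.J y) M.X) c +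
      13 * M.K ^ 4 * (‖y - y'‖ ^ 2 * tr (hm Ψ (M.J y') M.X) + ‖y - y'‖ * b) * ‖c‖ ^ 2 := by
  have hK := M.K_pos
  have hT := hp.tr_nonneg
  have hb0 : 0 ≤ b := (norm_nonneg _).trans hb
  have p1 := two0_P M y y' c
  have p2 := two0_P M y y' (I • c)
  rw [norm_smul, norm_I, one_mul] at p2
  have h1 := hq_hm h (M.J y) M.X c
  rw [← M.Bv_A y' (Bv (M.J y) M.X c), ← M.Bv_A y' (Bv (M.J y) M.X (I • c))] at h1
  generalize M.A y' (Bv (M.J y) M.X c) = z at p1 h1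
  generalize M.A y' (Bv (M.J y) M.X (I • c)) = w at p2 h1
  obtain ⟨e, rfl⟩ : ∃ e, w = I • z + e := ⟨w - I • z, by abel⟩
  have he : ‖e‖ ≤ 2 * (M.K ^ 2 * ‖y - y'‖ * ‖c‖) := by
    have h2 : e = (I • z + e - I • c) - I • (z - c) := by rw [smul_sub]; abel
    rw [h2]
    refine (norm_sub_le _ _).trans ?_
    rw [norm_smul, norm_I, one_mul]
    linarith
  have hK2 : 1 ≤ M.K ^ 2 := one_le_pow₀ M.one_le
  have hz : ‖z‖ ≤ 2 * (M.K ^ 2 * ‖c‖) := by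
    have h2 : ‖z‖ ≤ ‖c‖ + ‖z - c‖ := norm_le_insert' z c
    have h3 : M.K ^ 2 * ‖y - y'‖ * ‖c‖ ≤ M.K ^ 2 * 1 * ‖c‖ := by gcongr
    have h4 : 1 * ‖c‖ ≤ M.K ^ 2 * ‖c‖ := by gcongr
    linarith
  have h2 : Ψ (Bv (M.J y') M.X z) (Bv (M.J y') M.X (I • z + e)) =
      (sig Ψ (M.J y') M.X * (z 0 * e 1 - z 1 * e 0)).re / 2 + 4 * Hq (hm Ψ (M.J y') M.X) z -
        4 * (∑ j, ∑ k, z j * (starRingEnd ℂ) (e k) * hm Ψ (M.J y') M.X j k).im := by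
    rw [alt_frame h]
    simp [Hq, Fin.sum_univ_two]
    ring
  have h3 := (abs_le.1 (two0_wedge hb z e)).1
  have h4 := (le_abs_self _).trans ((abs_im_le_norm _).trans (hp.cs z e (1 / 2) (by norm_num)))
  have h5 := hp.Hq_add z (c - z)
  rw [add_sub_cancel] at h5
  have h6 : Hq (hm Ψ (M.J y') M.X) e ≤
      tr (hm Ψ (M.J y') M.X) * (2 * (M.K ^ 2 * ‖y - y'‖ * ‖c‖)) ^ 2 :=
    (hp.Hq_le e).trans (by gcongr)
  have h7 : Hq (hm Ψ (M.J y') M.X) (c - z) ≤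
      tr (hm Ψ (M.J y') M.X) * (M.K ^ 2 * ‖y - y'‖ * ‖c‖) ^ 2 :=
    (hp.Hq_le _).trans (by rw [norm_sub_rev]; gcongr)
  have h8 : b * (‖z‖ * ‖e‖) ≤ b * (2 * (M.K ^ 2 * ‖c‖) * (2 * (M.K ^ 2 * ‖y - y'‖ * ‖c‖))) := by
    gcongr
  have h9 : 0 ≤ tr (hm Ψ (M.J y') M.X) * (M.K ^ 2 * ‖y - y'‖ * ‖c‖) ^ 2 := by positivity
  have h10 : 0 ≤ b * (M.K ^ 2 * ‖c‖ * (M.K ^ 2 * ‖y - y'‖ * ‖c‖)) := by positivity
  linarith

theorem two0_dd {α β β' : Fin 2 → Fin 2 → ℂ} {m r : ℝ} (hα : PSD α)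
    (hβ : ∀ j k, β k j = (starRingEnd ℂ) (β j k)) (hβ' : ∀ j k, β' k j = (starRingEnd ℂ) (β' j k))
    (h : ∀ c, Hq β c ≤ r * Hq β' c + m * ‖c‖ ^ 2) : Dd α β ≤ r * Dd α β' + m * tr α := by
  have h1 : PSD fun j k => (r : ℂ) * β' j k + (if j = k then (m : ℂ) else 0) - β j k := by
    refine ⟨fun j k => ?_, fun c => ?_⟩
    · rw [hβ j k, hβ' j k, map_sub, map_add, map_mul, conj_ofReal]
      rcases eq_or_ne j k with rfl | hjk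
      · simp
      · simp [hjk, hjk.symm]
    · refine (sub_nonneg.2 (h c)).trans_eq ?_
      rw [EuclideanSpace.norm_sq_eq]
      simp [Hq, Fin.sum_univ_two, Complex.sq_norm, Complex.normSq_apply]
      ring
  have h2 := hα.Dd_nonneg h1
  refine sub_nonneg.1 (h2.trans_eq ?_)
  simp [Dd, tr]
  ring

theorem two_point (M : Model) : ∃ C : ℝ, 0 ≤ C ∧ ∀ (y y' : E) (Φ Ψ : E → E → ℝ) (a b : ℝ),
    IsAlt Φ → IsAlt Ψ → ‖y - y'‖ ≤ 1 → PSD (hm Φ (M.J y) M.X) → PSD (hm Ψ (M.J y') M.X) →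
    ‖sig Φ (M.J y) M.X‖ ≤ a → ‖sig Ψ (M.J y') M.X‖ ≤ b →
    Dd (hm Φ (M.J y) M.X) (hm Ψ (M.J y') M.X) ≤ top22 Φ Ψ (frame (M.J y) M.X) / 6 +
      C * (‖y - y'‖ ^ 2 * (tr (hm Φ (M.J y) M.X) * tr (hm Ψ (M.J y') M.X)) +
        ‖y - y'‖ * (tr (hm Φ (M.J y) M.X) * b) + ‖y - y'‖ * (a * tr (hm Ψ (M.J y') M.X)) +
        a * b) := by
  have hK := M.K_pos
  refine ⟨13 * M.K ^ 6, by positivity, fun y y' Φ Ψ a b hΦ hΨ hy pΦ pΨ ha hb => ?_⟩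
  have h1 := two0_dd pΦ pΨ.herm (hm_herm hΨ (M.J y) M.X) (two0_hq M hΨ hy pΨ hb)
  have h2 := top22_frame hΦ hΨ (M.J y) M.X
  have h3 := two0_sig M y hΨ pΨ hb
  have ha0 : 0 ≤ a := (norm_nonneg _).trans ha
  have hb0 : 0 ≤ b := (norm_nonneg _).trans hb
  have h4 := (abs_le.1 ((abs_re_le_norm (sig Φ (M.J y) M.X *
    (starRingEnd ℂ) (sig Ψ (M.J y) M.X))).trans ((norm_mul_le _ _).trans
      (mul_le_mul ha ((RCLike.norm_conj _).le.trans h3) (norm_nonneg _) ha0)))).1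
  have hS := pΦ.tr_nonneg
  have hT := pΨ.tr_nonneg
  have hh := norm_nonneg (y - y')
  generalize tr (hm Φ (M.J y) M.X) = S at *
  generalize tr (hm Ψ (M.J y') M.X) = T at *
  generalize ‖y - y'‖ = h at *
  have k1 : M.K ^ 4 ≤ M.K ^ 6 := pow_le_pow_right₀ M.one_le (by norm_num)
  have k2 : 1 ≤ M.K ^ 6 := one_le_pow₀ M.one_le
  have k3 : M.K ^ 4 * ((h ^ 2 * T + h * b) * S) ≤ M.K ^ 6 * ((h ^ 2 * T + h * b) * S) := by gcongr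
  have k4 : 1 * (a * b) ≤ M.K ^ 6 * (a * b) := by gcongr
  have k5 : M.K ^ 6 * (a * b) * h ≤ M.K ^ 6 * (a * b) * 1 := by gcongr
  have k6 : 0 ≤ M.K ^ 6 * (a * b) := by positivity
  have k7 : 0 ≤ M.K ^ 6 * (h * (a * T)) := by positivity
  linarith

end Pool.Agent.Lib.MP_f2cf74_an
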