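import Pool.Agent.Lib.MP_f2cf74_an.Two0
import Pool.Agent.Lib.MP_f2cf74_an.Stokes
import Pool.Agent.Lib.MP_f2cf74_an.G0

open Set Metric MeasureTheory Complex Filter Topology
open scoped ContDiff ENNReal NNReal

noncomputable section

namespace Pool.Agent.Lib.MP_f2cf74_an

/-! Two-point Chern-Levine-Nirenberg inequality for a fixed shift.  Let `φ` be a `ContDiffBump c`
with `rIn = a₁`, `rOut = a₂`.  `stokes` with `f = φ`, `α = eta u`, `γ = eta v (· + h)`; by
`top22_det`, `dens_facts`: `ε top22 .. eb = dens * top22 .. frame`.  Where `fderiv φ ≠ 0` the form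
`Om v (y + h)` is bounded (`Ann`, `Om_bound`), so that term is `≤ C ∫⁻ eG u ≤ C nU` (`t3`).
Multiply `two_point` (with `a = C ‖du‖`, `b = C ‖dv‖` from `sig_Om`, `Lg_bound`) by `φ dens`;
`dens` is bounded above and below on `closedBall c b`.  The term `eG u y * eG v (y + h)` is handled
by `gd` and `g0` (translation invariance). -/

theorem twoA_pt {p w q : ℝ} (hp : 0 ≤ p) (h : p ≤ w + q) :
    ENNReal.ofReal p + ENNReal.ofReal (-w) ≤ ENNReal.ofReal w + ENNReal.ofReal q := by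
  rcases le_total 0 w with hw | hw
  · rw [ENNReal.ofReal_of_nonpos (neg_nonpos.2 hw), add_zero]
    exact (ENNReal.ofReal_le_ofReal h).trans ENNReal.ofReal_add_le
  · rw [← ENNReal.ofReal_add hp (neg_nonneg.2 hw)]
    exact (ENNReal.ofReal_le_ofReal (by linarith)).trans le_add_self

theorem twoA_int {W : E → ℝ} (hW : Integrable W) (h0 : ∫ y, W y = 0) {P Q : E → ℝ≥0∞}
    (h : ∀ y, P y + ENNReal.ofReal (-W y) ≤ ENNReal.ofReal (W y) + Q y) :
    ∫⁻ y, P y ≤ ∫⁻ y, Q y := by
  have m1 : AEMeasurable fun y => ENNReal.ofReal (W y) := hW.1.aemeasurable.ennreal_ofReal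
  have m2 : AEMeasurable fun y => ENNReal.ofReal (-W y) := hW.1.aemeasurable.neg.ennreal_ofReal
  have f1 : ∫⁻ y, ENNReal.ofReal (W y) ≠ ⊤ := hW.lintegral_lt_top.ne
  have f2 : ∫⁻ y, ENNReal.ofReal (-W y) ≠ ⊤ := hW.neg.lintegral_lt_top.ne
  have h1 := lintegral_mono (μ := volume) h
  rw [lintegral_add_right' _ m2, lintegral_add_left' m1] at h1
  rw [integral_eq_lintegral_pos_part_sub_lintegral_neg_part hW, sub_eq_zero,
    ENNReal.toReal_eq_toReal_iff' f1 f2] at h0
  rw [h0, add_comm] at h1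
  exact (ENNReal.add_le_add_iff_left f2).1 h1

theorem twoA_cont {Φ Ψ : E → E → E → ℝ} (h : ∀ Y Z, Continuous fun y => Φ y Y Z)
    (h' : ∀ Y Z, Continuous fun y => Ψ y Y Z) : Continuous fun y => top22 (Φ y) (Ψ y) eb := by
  unfold top22
  exact ((((((h _ _).mul (h' _ _)).sub ((h _ _).mul (h' _ _))).add ((h _ _).mul (h' _ _))).add
    ((h _ _).mul (h' _ _))).sub ((h _ _).mul (h' _ _))).add ((h _ _).mul (h' _ _))

theorem twoA_top_le {Φ Ψ : E → E → ℝ} {a b : ℝ} (h : ∀ i j, |Φ (eb i) (eb j)| ≤ a)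
    (h' : ∀ i j, |Ψ (eb i) (eb j)| ≤ b) : |top22 Φ Ψ eb| ≤ 6 * (a * b) := by
  have k : ∀ i j k l, |Φ (eb i) (eb j) * Ψ (eb k) (eb l)| ≤ a * b := fun i j k l => by
    rw [abs_mul]
    exact mul_le_mul (h i j) (h' k l) (abs_nonneg _) ((abs_nonneg _).trans (h i j))
  have k1 := abs_le.1 (k 0 1 2 3)
  have k2 := abs_le.1 (k 0 2 1 3)
  have k3 := abs_le.1 (k 0 3 1 2)
  have k4 := abs_le.1 (k 1 2 0 3)
  have k5 := abs_le.1 (k 1 3 0 2)
  have k6 := abs_le.1 (k 2 3 0 1)
  unfold top22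
  rw [abs_le]
  constructor <;> linarith [k1.1, k1.2, k2.1, k2.2, k3.1, k3.2, k4.1, k4.2, k5.1, k5.2, k6.1, k6.2]

theorem twoA_norm_eb (i : Fin 4) : ‖eb i‖ = 1 := by simp [eb]

theorem twoA_w11_le (M : Model) (p : E →L[ℝ] ℝ) {L : ℝ} (hp : ‖p‖ ≤ L) (u : E → ℝ) (y : E)
    (i j : Fin 4) : |w11 p (eta M.J u y) (eb i) (eb j)| ≤ 2 * L * M.K * ‖fderiv ℝ u y‖ := by
  have h1 : ∀ i, |p (eb i)| ≤ L := fun i => by
    have := p.le_opNorm (eb i)
    rw [twoA_norm_eb, mul_one, Real.norm_eq_abs] at this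
    exact this.trans hp
  have h2 : ∀ i, |eta M.J u y (eb i)| ≤ M.K * ‖fderiv ℝ u y‖ := fun i => by
    have k1 := (fderiv ℝ u y).le_opNorm (M.J y (eb i))
    have k2 := (M.J y).le_opNorm (eb i)
    rw [twoA_norm_eb, mul_one] at k2
    rw [eta, abs_neg, ← Real.norm_eq_abs, mul_comm]
    exact k1.trans (mul_le_mul_of_nonneg_left (k2.trans (M.bJ y)) (norm_nonneg _))
  have h3 : ∀ i j, |p (eb i) * eta M.J u y (eb j)| ≤ L * (M.K * ‖fderiv ℝ u y‖) := fun i j => by
    rw [abs_mul]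
    exact mul_le_mul (h1 i) (h2 j) (abs_nonneg _) ((abs_nonneg _).trans (h1 i))
  have h4 := abs_sub (p (eb i) * eta M.J u y (eb j)) (p (eb j) * eta M.J u y (eb i))
  have h5 := h3 i j
  have h6 := h3 j i
  unfold w11
  linarith

theorem twoA_shift {f : E → ℝ≥0∞} {c h : E} {a a' : ℝ} (hh : a + ‖h‖ ≤ a') :
    ∫⁻ x in ball c a, f (x + h) ≤ ∫⁻ x in ball c a', f x := by
  rw [← lintegral_indicator measurableSet_ball, ← lintegral_indicator measurableSet_ball,
    ← lintegral_add_right_eq_self ((ball c a').indicator f) h]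
  refine lintegral_mono fun x => ?_
  by_cases hx : x ∈ ball c a
  · have : x + h ∈ ball c a' := by
      rw [mem_ball_iff_norm] at hx ⊢
      have := norm_add_le (x - c) h
      rw [add_sub_right_comm]
      linarith
    rw [indicator_of_mem hx, indicator_of_mem this]
  · rw [indicator_of_notMem hx]
    exact zero_le

theorem twoA_gg (M : Model) (c : E) {a2 b δ : ℝ} (ha : 0 < a2) (hδ : 0 < δ) (h2 : a2 + δ < b)
    (B : ℝ) : ∃ C : ℝ≥0, ∀ (u v : E → ℝ), UOK M c b u → VOK M c b B v → ∀ h : E, ‖h‖ < δ →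
    ∫⁻ y in ball c a2, eG u y * eG v (y + h) ≤ C * nU c b u := by
  obtain ⟨C1, H1⟩ := gd M c (a := a2) (a' := a2 + (b - a2 - δ) / 2) (b := b) ha (by linarith)
    (by linarith)
  obtain ⟨C2, H2⟩ := g0 M c (a := a2 + (b - a2 - δ) / 2 + δ) (b := b) (by linarith) (by linarith) B
  refine ⟨C1 * C2, fun u v hu hv h hh => ?_⟩
  have h3 := H1 u (fun x => eG v (x + h)) C2 hu
    ((measurable_eG v).comp (measurable_add_const h)) (fun y hy => by
      have hy' : y + h ∈ ball c (a2 + (b - a2 - δ) / 2 + δ) := by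
        rw [mem_ball_iff_norm] at hy ⊢
        have := norm_add_le (y - c) h
        rw [add_sub_right_comm]
        linarith
      refine le_trans (le_of_eq ?_) ((twoA_shift (f := fun x => kp 3 (y + h) x * eG v x)
        (c := c) (h := h) (a := a2) (by linarith)).trans (H2 v hv _ hy'))
      simp only [kp, add_sub_add_right_eq_sub])
  simp only [mul_comm (eG u _)]
  rw [ENNReal.coe_mul]
  exact h3

theorem twoA_alg {D T C0 C1 η tu tv gu gv φ d D1 : ℝ} (hC0 : 0 ≤ C0) (hC1 : 0 ≤ C1) (hη : 0 ≤ η)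
    (htu : 0 ≤ tu) (htv : 0 ≤ tv) (hgu : 0 ≤ gu) (hgv : 0 ≤ gv) (hφ : 0 ≤ φ) (hφ1 : φ ≤ 1)
    (hd : 0 ≤ d) (hd1 : d ≤ D1)
    (h : D ≤ T / 6 + C0 * (η ^ 2 * (tu * tv) + η * (tu * (C1 * gv)) + η * (C1 * gu * tv) +
      C1 * gu * (C1 * gv))) :
    φ * d * D ≤ φ * (d * T) / 6 + D1 * C0 * (1 + C1) ^ 2 *
      (η ^ 2 * (tu * tv) + η * (tu * gv) + η * (gu * tv) + gu * gv) := by
  have e1 : 0 ≤ η ^ 2 * (tu * tv) := by positivity
  have e2 : 0 ≤ η * (tu * gv) := by positivity
  have e3 : 0 ≤ η * (gu * tv) := by positivity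
  have e4 : 0 ≤ gu * gv := by positivity
  have c1 : 1 ≤ (1 + C1) ^ 2 := by nlinarith
  have c2 : C1 ≤ (1 + C1) ^ 2 := by nlinarith
  have c3 : C1 ^ 2 ≤ (1 + C1) ^ 2 := by nlinarith
  have h1 : η ^ 2 * (tu * tv) + η * (tu * (C1 * gv)) + η * (C1 * gu * tv) + C1 * gu * (C1 * gv) ≤
      (1 + C1) ^ 2 * (η ^ 2 * (tu * tv) + η * (tu * gv) + η * (gu * tv) + gu * gv) := by
    have k1 := mul_le_mul_of_nonneg_right c1 e1
    have k2 := mul_le_mul_of_nonneg_right c2 e2
    have k3 := mul_le_mul_of_nonneg_right c2 e3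
    have k4 := mul_le_mul_of_nonneg_right c3 e4
    linarith
  have h2 := h.trans (add_le_add le_rfl (mul_le_mul_of_nonneg_left h1 hC0))
  have h3 := mul_le_mul_of_nonneg_left h2 (mul_nonneg hφ hd)
  have h4 : φ * d ≤ D1 := (mul_le_of_le_one_left hd hφ1).trans hd1
  have h5 := mul_le_mul_of_nonneg_right h4 (show 0 ≤ C0 * ((1 + C1) ^ 2 *
    (η ^ 2 * (tu * tv) + η * (tu * gv) + η * (gu * tv) + gu * gv)) by positivity)
  linarith

theorem twoA (M : Model) (c : E) {r a1 a2 b δ : ℝ} (hr : 0 < r) (hδ : 0 < δ) (hδ1 : δ ≤ 1)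
    (h1 : r + δ ≤ a1) (h12 : a1 < a2) (h2 : a2 + δ < b) (B : ℝ) : ∃ C : ℝ≥0,
    ∀ (u v : E → ℝ), UOK M c b u → VOK M c b B v → Ann c r b B v → ∀ h : E, ‖h‖ < δ →
    ∫⁻ y in ball c a1, eD M u v y (y + h) ≤ C * (nU c b u + ∫⁻ y in ball c a2,
      (ENNReal.ofReal (‖h‖ ^ 2) * (eT M u y * eT M v (y + h)) +
        ENNReal.ofReal ‖h‖ * (eT M u y * eG v (y + h)) +
        ENNReal.ofReal ‖h‖ * (eG u y * eT M v (y + h)))) := by
  have ha1 : 0 < a1 := by linarith
  have ha2 : 0 < a2 := by linarith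
  let φ : ContDiffBump c := ⟨a1, a2, ha1, h12⟩
  have hφ : ContDiff ℝ 1 φ := φ.contDiff
  have hdφ : Continuous (fderiv ℝ φ) := hφ.continuous_fderiv one_ne_zero
  have hφ0 : ∀ y, y ∉ ball c a2 → φ y = 0 := fun y hy => φ.zero_of_le_dist (by simpa using hy)
  have hd0 : ∀ y, y ∉ ball c a2 → fderiv ℝ φ y = 0 := fun y hy =>
    IsLocalMin.fderiv_eq_zero (Eventually.of_forall fun z => by rw [hφ0 y hy]; exact φ.nonneg)
  have hd1 : ∀ y ∈ closedBall c a1, fderiv ℝ φ y = 0 := fun y hy =>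
    IsLocalMax.fderiv_eq_zero (Eventually.of_forall fun z => by
      rw [φ.one_of_mem_closedBall hy]; exact φ.le_one)
  obtain ⟨L, hL⟩ := (isCompact_closedBall c b).exists_bound_of_continuousOn hdφ.continuousOn
  obtain ⟨ε, hε, hdet, hpos, hdens⟩ := M.dens_facts
  obtain ⟨D1, hD1⟩ := (isCompact_closedBall c b).exists_bound_of_continuousOn
    hdens.continuous.continuousOn
  obtain ⟨D0, hD0, hD0'⟩ := (isCompact_closedBall c b).exists_forall_le'
    hdens.continuous.continuousOn (a := 0) fun x _ => hpos x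
  have hcb : c ∈ closedBall c b := mem_closedBall_self (by linarith)
  have hL0 : 0 ≤ L := (norm_nonneg _).trans (hL c hcb)
  have hD10 : 0 ≤ D1 := (norm_nonneg _).trans (hD1 c hcb)
  obtain ⟨C0, hC0, H0⟩ := two_point M
  obtain ⟨C1, hC1, H1⟩ := Lg_bound M
  obtain ⟨C2, hC2, H2⟩ := Om_bound M
  obtain ⟨C3, H3⟩ := t3 M c (a := a2) (b := b) ha2 (by linarith)
  obtain ⟨C4, H4⟩ := twoA_gg M c ha2 hδ h2 B
  have hK := M.K_pos
  set K0 := 2 * L * M.K * (C2 * (|B| + |B|)) with hK0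
  set K1 := D1 * C0 * (1 + C1) ^ 2 with hK1
  have hK00 : 0 ≤ K0 := by positivity
  have hK10 : 0 ≤ K1 := by positivity
  refine ⟨(D0⁻¹ * (K0 + K1)).toNNReal * (C3 + C4 + 1), fun u v hu hv hA h hh => ?_⟩
  have hu2 : ContDiff ℝ 2 u := hu.sm.of_le (by norm_num)
  have hv2 : ContDiff ℝ 2 v := hv.sm.of_le (by norm_num)
  have hJ1 : ContDiff ℝ 1 M.J := M.smJ.of_le (by simp)
  have hst := stokes (f := φ) (α := eta M.J u) (γ := fun y => eta M.J v (y + h)) hφ
    (fun i => contDiff_eta M.smJ (n := 1) hu2 _)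
    (fun i => (contDiff_eta M.smJ (n := 2) hv.sm _).comp (contDiff_id.add contDiff_const))
    (‖c‖ + a2) (fun x hx => Or.inl (hφ0 x (by
      rw [mem_ball_iff_norm, not_lt]
      have := norm_sub_norm_le x c
      linarith)))
  simp only [dR_shift, dR_eta hJ1 hu2, dR_eta hJ1 hv2] at hst
  set S := fun y => top22 (w11 (fderiv ℝ φ y) (eta M.J u y)) (Om M.J v (y + h)) eb with hS
  set T := fun y => top22 (Om M.J u y) (Om M.J v (y + h)) eb with hT
  have cv : ∀ Y Z, Continuous fun y => Om M.J v (y + h) Y Z := fun Y Z =>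
    (continuous_Om hJ1 hv2 Y Z).comp (continuous_add_const h)
  have ce : ∀ Y, Continuous fun y => eta M.J u y Y := fun Y =>
    (contDiff_eta M.smJ (n := 1) hu2 Y).continuous
  have cS : Continuous S := twoA_cont (fun Y Z => by
    unfold w11
    exact ((hdφ.clm_apply continuous_const).mul (ce Z)).sub
      ((hdφ.clm_apply continuous_const).mul (ce Y))) cv
  have cT : Continuous T := twoA_cont (continuous_Om hJ1 hu2) cv
  have hS0 : ∀ y, fderiv ℝ φ y = 0 → S y = 0 := fun y hy => by simp [hS, hy, top22, w11]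
  have hW0 : ∀ y, y ∉ ball c a2 → ε / 6 * (S y + φ y * T y) = 0 := fun y hy => by
    rw [hS0 y (hd0 y hy), hφ0 y hy]; simp
  have hWi : Integrable fun y => ε / 6 * (S y + φ y * T y) :=
    (continuous_const.mul (cS.add (hφ.continuous.mul cT))).integrable_of_hasCompactSupport
      (HasCompactSupport.intro (isCompact_closedBall c a2) fun y hy =>
        hW0 y fun hy' => hy (ball_subset_closedBall hy'))
  have hW : ∫ y, ε / 6 * (S y + φ y * T y) = 0 := by
    rw [integral_const_mul]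
    exact mul_eq_zero_of_right _ hst
  set G : E → ℝ≥0∞ := fun y => ENNReal.ofReal (‖h‖ ^ 2) * (eT M u y * eT M v (y + h)) +
    ENNReal.ofReal ‖h‖ * (eT M u y * eG v (y + h)) +
    ENNReal.ofReal ‖h‖ * (eG u y * eT M v (y + h)) with hG
  have key := twoA_int hWi hW
    (P := (ball c a1).indicator fun y => ENNReal.ofReal D0 * eD M u v y (y + h))
    (Q := (ball c a2).indicator fun y => ENNReal.ofReal (K0 + K1) *
      (eG u y + eG u y * eG v (y + h) + G y)) (fun y => by
    by_cases hy : y ∈ ball c a2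
    swap
    · rw [hW0 y hy, indicator_of_notMem fun h' => hy (ball_subset_ball h12.le h')]
      simp
    have hn := mem_ball_iff_norm.1 hy
    have hn' : ‖y + h - c‖ < b := by
      have := norm_add_le (y - c) h
      rw [add_sub_right_comm]
      linarith
    have hyb : y ∈ ball c b := ball_subset_ball (by linarith) hy
    have hyc := ball_subset_closedBall hyb
    have pu := psd_H M hu.psh hyb
    have pv := psd_H M hv.psh (mem_ball_iff_norm.2 hn')
    have hyy : ‖y - (y + h)‖ = ‖h‖ := by rw [sub_add_cancel_left, norm_neg]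
    have h3 := H0 y (y + h) (Om M.J u y) (Om M.J v (y + h)) (C1 * ‖fderiv ℝ u y‖)
      (C1 * ‖fderiv ℝ v (y + h)‖) (isAlt_Om _ _ _) (isAlt_Om _ _ _) (by rw [hyy]; linarith) pu pv
      (by rw [sig_Om M hu2.contDiffAt]; exact (H1 _ _).2.2.2)
      (by rw [sig_Om M hv2.contDiffAt]; exact (H1 _ _).2.2.2)
    rw [hyy] at h3
    have hd1' : dens M y ≤ D1 := (le_abs_self _).trans (hD1 y hyc)
    have h4 := twoA_alg hC0 hC1 (norm_nonneg h) pu.tr_nonneg pv.tr_nonneg (norm_nonneg _)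
      (norm_nonneg _) (φ.nonneg (x := y)) φ.le_one (hpos y).le hd1' h3
    have h5 : dens M y * top22 (Om M.J u y) (Om M.J v (y + h)) (frame (M.J y) M.X) = ε * T y := by
      have k1 : det4 (frame (M.J y) M.X) ≠ 0 := fun h0 => by
        have := hpos y
        simp [dens, h0] at this
      have k2 : dens M y = ε * (det4 (frame (M.J y) M.X))⁻¹ := by
        rw [hdet]
        rcases hε with rfl | rfl <;> ring
      rw [top22_det (isAlt_Om _ _ _) (isAlt_Om _ _ _), k2, smul_eq_mul, mul_assoc,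
        inv_mul_cancel_left₀ k1]
    rw [h5] at h4
    have h6 : |S y| ≤ 6 * (K0 * ‖fderiv ℝ u y‖) := by
      by_cases h0 : fderiv ℝ φ y = 0
      · rw [hS0 y h0, abs_zero]; positivity
      have k1 : a1 < ‖y - c‖ := by
        by_contra hc
        exact h0 (hd1 y (mem_closedBall_iff_norm.2 (not_lt.1 hc)))
      have k2 : r ≤ ‖y + h - c‖ := by
        have := norm_sub_le (y + h - c) h
        rw [show y + h - c - h = y - c by abel] at this
        linarith
      obtain ⟨k3, k4⟩ := hA _ k2 hn'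
      have k5 := twoA_top_le (twoA_w11_le M (fderiv ℝ φ y) (hL y hyc) u y)
        (Ψ := Om M.J v (y + h)) (b := C2 * (|B| + |B|)) (fun i j => by
          have := H2 v (y + h) (eb i) (eb j)
          rw [twoA_norm_eb, twoA_norm_eb, mul_one, mul_one] at this
          exact this.trans (mul_le_mul_of_nonneg_left
            (add_le_add (k3.trans (le_abs_self _)) (k4.trans (le_abs_self _))) hC2))
      exact k5.trans (le_of_eq (by rw [hK0]; ring))
    have h7 : -(ε * S y) ≤ |S y| := by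
      rcases hε with rfl | rfl
      · rw [one_mul]; exact neg_le_abs _
      · rw [neg_one_mul, neg_neg]; exact le_abs_self _
    set tu := tr (H M u y)
    set tv := tr (H M v (y + h))
    set gu := ‖fderiv ℝ u y‖
    set gv := ‖fderiv ℝ v (y + h)‖
    have htu : 0 ≤ tu := pu.tr_nonneg
    have htv : 0 ≤ tv := pv.tr_nonneg
    have hgu : 0 ≤ gu := norm_nonneg _
    have hgv : 0 ≤ gv := norm_nonneg _
    have hDd : 0 ≤ Dd (H M u y) (H M v (y + h)) := pu.Dd_nonneg pv
    have h8 : φ y * dens M y * Dd (H M u y) (H M v (y + h)) ≤ ε / 6 * (S y + φ y * T y) +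
        (K0 + K1) * (gu + gu * gv +
          (‖h‖ ^ 2 * (tu * tv) + ‖h‖ * (tu * gv) + ‖h‖ * (gu * tv))) := by
      have k1 : 0 ≤ K0 * (gu * gv +
        (‖h‖ ^ 2 * (tu * tv) + ‖h‖ * (tu * gv) + ‖h‖ * (gu * tv))) := by positivity
      have k2 : 0 ≤ K1 * gu := by positivity
      have k3 : φ y * dens M y * Dd (H M u y) (H M v (y + h)) ≤ φ y * (ε * T y) / 6 +
        K1 * (‖h‖ ^ 2 * (tu * tv) + ‖h‖ * (tu * gv) + ‖h‖ * (gu * tv) + gu * gv) := h4
      linarith
    refine le_trans (add_le_add ?_ le_rfl) ((twoA_pt (mul_nonneg (mul_nonneg φ.nonneg (hpos y).le)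
      hDd) h8).trans (add_le_add le_rfl (le_of_eq ?_)))
    · by_cases hy1 : y ∈ ball c a1
      · rw [indicator_of_mem hy1, φ.one_of_mem_closedBall (ball_subset_closedBall hy1), one_mul, eD,
          ← ENNReal.ofReal_mul hD0.le]
        exact ENNReal.ofReal_le_ofReal (mul_le_mul_of_nonneg_right (hD0' y hyc) hDd)
      · rw [indicator_of_notMem hy1]
        exact zero_le
    · rw [indicator_of_mem hy, ENNReal.ofReal_mul (by positivity)]
      congr 1
      rw [ENNReal.ofReal_add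
        (by positivity) (by positivity), ENNReal.ofReal_add (by positivity) (by positivity),
        ENNReal.ofReal_add (by positivity) (by positivity),
        ENNReal.ofReal_add (by positivity) (by positivity), ENNReal.ofReal_mul hgu,
        ENNReal.ofReal_mul (sq_nonneg _), ENNReal.ofReal_mul (norm_nonneg h),
        ENNReal.ofReal_mul (norm_nonneg h), ENNReal.ofReal_mul htu, ENNReal.ofReal_mul htu,
        ENNReal.ofReal_mul hgu]
      simp only [hG, eT, eG, ← ofReal_norm]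
      rfl)
  rw [lintegral_indicator measurableSet_ball, lintegral_indicator measurableSet_ball,
    lintegral_const_mul' _ _ ENNReal.ofReal_ne_top, lintegral_const_mul' _ _ ENNReal.ofReal_ne_top,
    lintegral_add_left (f := fun y => eG u y + eG u y * eG v (y + h))
      ((measurable_eG u).add ((measurable_eG u).mul
      ((measurable_eG v).comp (measurable_add_const h)))),
    lintegral_add_left (measurable_eG u)] at key
  have h9 : (∫⁻ y in ball c a2, eG u y) + (∫⁻ y in ball c a2, eG u y * eG v (y + h)) +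
      ∫⁻ y in ball c a2, G y ≤
      ((C3 + C4 + 1 : ℝ≥0) : ℝ≥0∞) * (nU c b u + ∫⁻ y in ball c a2, G y) := by
    refine (add_le_add (add_le_add (H3 u hu) (H4 u v hu hv h hh)) le_rfl).trans ?_
    rw [← add_mul, mul_add]
    push_cast
    refine add_le_add (mul_le_mul_left le_self_add _) ?_
    exact le_mul_of_one_le_left zero_le le_add_self
  have h10 := mul_le_mul_right (key.trans (mul_le_mul_right h9 _)) (ENNReal.ofReal D0⁻¹)
  rw [← mul_assoc, ← ENNReal.ofReal_mul (inv_pos.2 hD0).le, inv_mul_cancel₀ hD0.ne',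
    ENNReal.ofReal_one, one_mul, ← mul_assoc, ← ENNReal.ofReal_mul (inv_pos.2 hD0).le,
    ← mul_assoc] at h10
  rw [ENNReal.coe_mul]
  exact h10

end Pool.Agent.Lib.MP_f2cf74_an
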