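import Pool.Agent.Lib.MP_f2cf74_an.Mass

open Set Metric MeasureTheory Complex Filter Topology
open scoped ContDiff ENNReal NNReal

noncomputable section

namespace Pool.Agent.Lib.MP_f2cf74_an

/-! Weak gradients.  `weak_vf`: expand `V x = ∑ i, V x i • eb i` and use the definition with the
test functions `V x i * ψ x`.  `weak_conv`: approximate `Φ · 1_{ball c a}` in `L²` by smooth
compactly supported functions (`MeasureTheory.MemLp.exist_eLpNorm_sub_le`), multiplied by a bump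
equal to `1` on `closedBall c a` with support in `ball c a'`, `a < a' < b`; for a smooth `Φ'`
integrate by parts (`ibp`, the definition) and use dominated convergence; `cacc` and
Cauchy-Schwarz for the rest. -/

theorem w12a_int {K : Set E} (hK : IsCompact K) {g φ : E → ℝ} (hg : IntegrableOn g K)
    (hφ : Continuous φ) (h0 : ∀ x, x ∉ K → φ x = 0) : Integrable fun x => g x * φ x :=
  (hg.mul_continuousOn hφ.continuousOn hK).integrable_of_forall_notMem_eq_zero fun x hx => by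
    rw [h0 x hx, mul_zero]

theorem w12a_memLp {ν : Measure E} {G : E → E →L[ℝ] ℝ} (hG : MemLp G 2 ν) (Y : E) :
    MemLp (fun x => G x Y) 2 ν :=
  (ContinuousLinearMap.apply ℝ ℝ Y).comp_memLp' hG

theorem w12a_intG {Ω : Set E} {v : E → ℝ} {G : E → E →L[ℝ] ℝ} (hG : IsWeakGrad Ω v G)
    {K : Set E} (hK : IsCompact K) (hKΩ : K ⊆ Ω) (Y : E) : IntegrableOn (fun x => G x Y) K := by
  have : IsFiniteMeasure (volume.restrict K) := isFiniteMeasure_restrict.2 hK.measure_lt_top.ne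
  exact (w12a_memLp (hG.1 K hK hKΩ) Y).integrable one_le_two

theorem w12a_fd {f : E → ℝ} {x : E} (hx : x ∉ tsupport f) (Y : E) : fderiv ℝ f x Y = 0 := by
  rw [fderiv_of_notMem_tsupport ℝ hx]
  rfl

theorem w12a_cont {f : E → ℝ} (hf : ContDiff ℝ 1 f) (Y : E) :
    Continuous fun x => fderiv ℝ f x Y :=
  (hf.continuous_fderiv one_ne_zero).clm_apply continuous_const

theorem w12a_test {Ω : Set E} {v : E → ℝ} {G : E → E →L[ℝ] ℝ} (hG : IsWeakGrad Ω v G)
    {f : E → ℝ} (hf : IsTest Ω f) (Y : E) :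
    ∫ x, v x * fderiv ℝ f x Y = -∫ x, G x Y * f x := by
  have h := hG.2 f hf Y
  rwa [setIntegral_eq_integral_of_forall_compl_eq_zero fun x hx => by
      rw [w12a_fd (fun h => hx (hf.2.2 h)), mul_zero],
    setIntegral_eq_integral_of_forall_compl_eq_zero fun x hx => by
      rw [image_eq_zero_of_notMem_tsupport fun h => hx (hf.2.2 h), mul_zero]] at h

theorem w12a_sum (L : E →L[ℝ] ℝ) (Y : E) : L Y = ∑ i, Y i * L (eb i) := by
  have e : Y = ∑ i, Y i • eb i := by
    ext j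
    simp [eb, Pi.single_apply]
  conv_lhs => rw [e]
  simp only [map_sum, map_smul, smul_eq_mul]

theorem w12a_cs {ν : Measure E} {f g : E → ℝ} (hf : MemLp f 2 ν) (hg : MemLp g 2 ν) {C ε : ℝ}
    (hC : 0 ≤ C) (hε : 0 ≤ ε) (h1 : eLpNorm f 2 ν ≤ ENNReal.ofReal C)
    (h2 : eLpNorm g 2 ν ≤ ENNReal.ofReal ε) : |∫ x, f x * g x ∂ν| ≤ C * ε := by
  have h3 : eLpNorm (f • g) 1 ν ≤ eLpNorm f 2 ν * eLpNorm g 2 ν :=
    eLpNorm_smul_le_mul_eLpNorm hg.1 hf.1
  rw [eLpNorm_one_eq_lintegral_enorm] at h3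
  have h4 : ‖∫ x, f x * g x ∂ν‖ₑ ≤ ENNReal.ofReal (C * ε) := by
    rw [ENNReal.ofReal_mul hC]
    exact ((enorm_integral_le_lintegral_enorm _).trans h3).trans (mul_le_mul' h1 h2)
  rwa [← ofReal_norm, ENNReal.ofReal_le_ofReal_iff (mul_nonneg hC hε)] at h4

theorem w12a_weak {ν : Measure E} {D : ℕ → E → ℝ} {C : ℝ} (hC : 0 ≤ C) (hD : ∀ i, MemLp (D i) 2 ν)
    (hb : ∀ i, eLpNorm (D i) 2 ν ≤ ENNReal.ofReal C) {Φ : E → ℝ} (hΦ : MemLp Φ 2 ν)
    (happ : ∀ ε : ℝ, 0 < ε → ∃ φ, MemLp φ 2 ν ∧ eLpNorm (Φ - φ) 2 ν ≤ ENNReal.ofReal ε ∧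
      Tendsto (fun i => ∫ x, D i x * φ x ∂ν) atTop (𝓝 0)) :
    Tendsto (fun i => ∫ x, D i x * Φ x ∂ν) atTop (𝓝 0) := by
  refine Metric.tendsto_nhds.2 fun ε hε => ?_
  have hδ : 0 < ε / (2 * (C + 1)) := by positivity
  obtain ⟨φ, hφ, h1, h2⟩ := happ _ hδ
  refine (Metric.tendsto_nhds.1 h2 _ (half_pos hε)).mono fun i hi => ?_
  rw [Real.dist_eq, sub_zero] at hi ⊢
  have h3 := w12a_cs (hD i) (hΦ.sub hφ) hC hδ.le (hb i) h1
  have h4 : ∫ x, D i x * Φ x ∂ν = ∫ x, D i x * φ x ∂ν + ∫ x, D i x * (Φ - φ) x ∂ν := by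
    refine Eq.trans (integral_congr_ae (.of_forall fun x => ?_))
      (integral_add ((hD i).integrable_mul hφ) ((hD i).integrable_mul (hΦ.sub hφ)))
    simp only [Pi.sub_apply]
    ring
  have h5 : C * (ε / (2 * (C + 1))) ≤ ε / 2 := by
    rw [← mul_div_assoc, div_le_div_iff₀ (by positivity) two_pos]
    nlinarith
  rw [h4]
  exact (abs_add_le _ _).trans_lt (by linarith)

theorem w12a_smooth {Ω : Set E} {v : E → ℝ} {G : E → E →L[ℝ] ℝ} (hG : IsWeakGrad Ω v G)
    {U : Set E} {B : ℝ} {V : ℕ → E → ℝ} (hV : ∀ i, ContDiff ℝ 1 (V i))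
    (hB : ∀ i, ∀ x ∈ U, |V i x| ≤ B) (hl : ∀ x ∈ U, Tendsto (fun i => V i x) atTop (𝓝 (v x)))
    (Y : E) {φ : E → ℝ} (hφ : IsTest Ω φ) (hU : tsupport φ ⊆ U) :
    Tendsto (fun i => ∫ x, (fderiv ℝ (V i) x Y - G x Y) * φ x) atTop (𝓝 0) := by
  have hK : IsCompact (tsupport φ) := hφ.2.1
  have h1 : ContDiff ℝ 1 φ := hφ.1.of_le (by simp)
  have hc := w12a_cont h1 Y
  have h0 : ∀ x, x ∉ tsupport φ → φ x = 0 := fun x hx => image_eq_zero_of_notMem_tsupport hx
  have h0' : ∀ x, x ∉ tsupport φ → fderiv ℝ φ x Y = 0 := fun x hx => w12a_fd hx Y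
  have i1 : ∀ i, Integrable fun x => fderiv ℝ (V i) x Y * φ x := fun i =>
    w12a_int hK ((w12a_cont (hV i) Y).continuousOn.integrableOn_compact hK) h1.continuous h0
  have i2 : ∀ i, Integrable fun x => V i x * fderiv ℝ φ x Y := fun i =>
    w12a_int hK ((hV i).continuous.continuousOn.integrableOn_compact hK) hc h0'
  have i3 : ∀ i, Integrable fun x => V i x * φ x := fun i =>
    w12a_int hK ((hV i).continuous.continuousOn.integrableOn_compact hK) h1.continuous h0
  have i4 : Integrable fun x => G x Y * φ x :=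
    w12a_int hK (w12a_intG hG hK hφ.2.2 Y) h1.continuous h0
  have i5 : Integrable fun x => B * |fderiv ℝ φ x Y| :=
    w12a_int hK (continuous_const.continuousOn.integrableOn_compact hK) hc.abs
      fun x hx => by rw [h0' x hx, abs_zero]
  have e : ∀ i, ∫ x, (fderiv ℝ (V i) x Y - G x Y) * φ x =
      (∫ x, v x * fderiv ℝ φ x Y) - ∫ x, V i x * fderiv ℝ φ x Y := fun i => by
    rw [w12a_test hG hφ, integral_mul_fderiv_eq_neg_fderiv_mul_of_integrable (i1 i) (i2 i) (i3 i)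
      (fun x _ => (hV i).differentiable one_ne_zero x) (fun x _ => h1.differentiable one_ne_zero x)]
    simp only [sub_mul]
    rw [integral_sub (i1 i) i4]
    ring
  have h2 : Tendsto (fun i => ∫ x, V i x * fderiv ℝ φ x Y) atTop
      (𝓝 (∫ x, v x * fderiv ℝ φ x Y)) := by
    refine tendsto_integral_of_dominated_convergence _ (fun i => (i2 i).1) i5
      (fun i => .of_forall fun x => ?_) (.of_forall fun x => ?_)
    · by_cases hx : x ∈ tsupport φ
      · rw [Real.norm_eq_abs, abs_mul]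
        exact mul_le_mul_of_nonneg_right (hB i x (hU hx)) (abs_nonneg _)
      · rw [h0' x hx, mul_zero, abs_zero, mul_zero, norm_zero]
    · by_cases hx : x ∈ tsupport φ
      · exact (hl x (hU hx)).mul_const _
      · simp only [h0' x hx, mul_zero]
        exact tendsto_const_nhds
  simp only [e]
  have h3 := h2.const_sub (∫ x, v x * fderiv ℝ φ x Y)
  rwa [sub_self] at h3

theorem w12a_two {ν : Measure E} {f : E → E →L[ℝ] ℝ} {C : ℝ≥0}
    (h : ∫⁻ x, ‖f x‖ₑ ^ 2 ∂ν ≤ C) : eLpNorm f 2 ν ≤ 1 + C := by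
  have h1 := eLpNorm_nnreal_pow_eq_lintegral (f := f) (μ := ν) (p := 2) two_ne_zero
  simp only [ENNReal.coe_ofNat, NNReal.coe_ofNat, ENNReal.rpow_ofNat] at h1
  rw [← h1] at h
  rcases le_total (eLpNorm f 2 ν) 1 with h2 | h2
  · exact h2.trans le_self_add
  · exact ((le_self_pow₀ h2 two_ne_zero).trans h).trans le_add_self

theorem weak_vf {Ω : Set E} (hΩ : IsOpen Ω) {v : E → ℝ} {G : E → E →L[ℝ] ℝ}
    (hG : IsWeakGrad Ω v G) {ψ : E → ℝ} (hψ : IsTest Ω ψ) (hv : IntegrableOn v (tsupport ψ))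
    {V : E → E} (hV : ContDiff ℝ ∞ V) :
    ∫ x, v x * adj V ψ x = -∫ x, G x (V x) * ψ x := by
  have hK : IsCompact (tsupport ψ) := hψ.2.1
  have hVi : ∀ i, ContDiff ℝ ∞ fun x => V x i := fun i =>
    (EuclideanSpace.proj i : E →L[ℝ] ℝ).contDiff.comp hV
  have hs : ∀ i, tsupport (fun x => V x i * ψ x) ⊆ tsupport ψ := fun i => tsupport_mul_subset_right
  have ht : ∀ i, IsTest Ω fun x => V x i * ψ x := fun i =>
    ⟨(hVi i).mul hψ.1, hψ.2.1.mul_left, (hs i).trans hψ.2.2⟩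
  have e1 : ∀ x, adj V ψ x = ∑ i, fderiv ℝ (fun x => V x i * ψ x) x (eb i) := fun x => by
    have hd : DifferentiableAt ℝ V x := hV.differentiable (by simp) x
    have hd' : DifferentiableAt ℝ ψ x := hψ.1.differentiable (by simp) x
    unfold adj VD divg
    rw [w12a_sum, Finset.sum_mul, ← Finset.sum_add_distrib]
    refine Finset.sum_congr rfl fun i _ => ?_
    have h1 : HasFDerivAt (fun x => V x i)
        ((EuclideanSpace.proj i : E →L[ℝ] ℝ).comp (fderiv ℝ V x)) x :=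
      (EuclideanSpace.proj i : E →L[ℝ] ℝ).hasFDerivAt.comp x hd.hasFDerivAt
    rw [(h1.fun_mul hd'.hasFDerivAt).fderiv]
    simp [mul_comm]
  have e2 : ∀ x, G x (V x) * ψ x = ∑ i, G x (eb i) * (V x i * ψ x) := fun x => by
    rw [w12a_sum, Finset.sum_mul]
    exact Finset.sum_congr rfl fun i _ => by ring
  simp only [e1, e2, Finset.mul_sum]
  rw [integral_finsetSum _ fun i _ => w12a_int hK hv (w12a_cont ((ht i).1.of_le (by simp)) _)
      fun x hx => w12a_fd (fun h => hx (hs i h)) _,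
    integral_finsetSum _ fun i _ => w12a_int hK (w12a_intG hG hK hψ.2.2 _) (ht i).1.continuous
      fun x hx => by rw [image_eq_zero_of_notMem_tsupport hx, mul_zero],
    ← Finset.sum_neg_distrib]
  exact Finset.sum_congr rfl fun i _ => w12a_test hG (ht i) _

theorem weak_conv (M : Model) {Ω : Set E} (hΩ : IsOpen Ω) {v : E → ℝ} {G : E → E →L[ℝ] ℝ}
    (hG : IsWeakGrad Ω v G) {c : E} {a b B : ℝ} (ha : 0 < a) (hab : a < b) (hb : ball c b ⊆ Ω)
    {V : ℕ → E → ℝ} (hV : ∀ i, UOK M c b (V i)) (hB : ∀ i, ∀ x ∈ ball c b, |V i x| ≤ B)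
    (hl : ∀ x ∈ ball c b, Tendsto (fun i => V i x) atTop (𝓝 (v x))) (Y : E) {Φ : E → ℝ}
    (hΦ : MemLp Φ 2 (volume.restrict (ball c a))) :
    Tendsto (fun i => ∫ x in ball c a, (fderiv ℝ (V i) x Y - G x Y) * Φ x) atTop (𝓝 0) := by
  obtain ⟨a', h1, h2⟩ := exists_between hab
  obtain ⟨C, hC⟩ := cacc M c (ha.trans h1) h2 B
  have hsub : closedBall c a' ⊆ ball c b := closedBall_subset_ball h2
  have hV1 : ∀ i, ContDiff ℝ 1 (V i) := fun i => (hV i).sm.of_le (by norm_num)
  have hGν : MemLp (fun x => G x Y) 2 (volume.restrict (ball c a')) := w12a_memLp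
    ((hG.1 _ (isCompact_closedBall c a') (hsub.trans hb)).mono_measure
      (Measure.restrict_mono ball_subset_closedBall le_rfl)) Y
  have hn : ∀ i, eLpNorm (fun x => fderiv ℝ (V i) x Y) 2 (volume.restrict (ball c a')) ≤
      ENNReal.ofReal ‖Y‖ * (1 + C) := fun i =>
    (eLpNorm_le_mul_eLpNorm_of_ae_le_mul (g := fderiv ℝ (V i)) (.of_forall fun x =>
      ((fderiv ℝ (V i) x).le_opNorm Y).trans_eq (mul_comm _ _)) 2).trans
      (mul_le_mul_right (w12a_two (hC _ (hV i) (hB i))) _)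
  have hfin : ENNReal.ofReal ‖Y‖ * (1 + C) ≠ ⊤ := by finiteness
  have hm : ∀ i, MemLp (fun x => fderiv ℝ (V i) x Y) 2 (volume.restrict (ball c a')) := fun i =>
    ⟨(w12a_cont (hV1 i) Y).aestronglyMeasurable, (hn i).trans_lt hfin.lt_top⟩
  have hΦ' : MemLp ((ball c a).indicator Φ) 2 volume :=
    (memLp_indicator_iff_restrict measurableSet_ball).2 hΦ
  have key := w12a_weak (ν := volume.restrict (ball c a'))
    (D := fun i x => fderiv ℝ (V i) x Y - G x Y) (C := (ENNReal.ofReal ‖Y‖ * (1 + C) +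
      eLpNorm (fun x => G x Y) 2 (volume.restrict (ball c a'))).toReal) ENNReal.toReal_nonneg
    (fun i => (hm i).sub hGν) (fun i => by
      rw [ENNReal.ofReal_toReal (ENNReal.add_ne_top.2 ⟨hfin, hGν.eLpNorm_ne_top⟩)]
      exact (eLpNorm_sub_le (hm i).1 hGν.1 one_le_two).trans (add_le_add_left (hn i) _))
    (hΦ'.restrict _) fun ε hε => ?_
  · refine key.congr fun i => ?_
    have e : (fun x => (fderiv ℝ (V i) x Y - G x Y) * (ball c a).indicator Φ x) =
        (ball c a).indicator fun x => (fderiv ℝ (V i) x Y - G x Y) * Φ x :=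
      funext fun x => by
        by_cases hx : x ∈ ball c a
        · rw [indicator_of_mem hx, indicator_of_mem hx]
        · rw [indicator_of_notMem hx, indicator_of_notMem hx, mul_zero]
    rw [e, setIntegral_indicator measurableSet_ball,
      inter_eq_self_of_subset_right (ball_subset_ball h1.le)]
  · obtain ⟨g, -, hg, hge⟩ := hΦ'.exist_eLpNorm_sub_le (by simp) one_le_two hε
    let θ : ContDiffBump c := ⟨a, a', ha, h1⟩
    have hs : tsupport (fun x => θ x * g x) ⊆ ball c b :=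
      tsupport_mul_subset_left.trans (θ.tsupport_eq.subset.trans hsub)
    have ht : IsTest Ω fun x => θ x * g x :=
      ⟨θ.contDiff.mul hg, θ.hasCompactSupport.mul_right, hs.trans hb⟩
    refine ⟨fun x => θ x * g x, (ht.1.continuous.memLp_of_hasCompactSupport ht.2.1).restrict _,
      ((eLpNorm_mono fun x => ?_).trans (eLpNorm_mono_measure _ Measure.restrict_le_self)).trans
        hge, (w12a_smooth hG hV1 hB hl Y ht hs).congr fun i => ?_⟩
    · have e : (ball c a).indicator Φ x - θ x * g x = θ x * ((ball c a).indicator Φ x - g x) := by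
        by_cases hx : x ∈ ball c a
        · rw [θ.one_of_mem_closedBall (ball_subset_closedBall hx), one_mul, one_mul]
        · rw [indicator_of_notMem hx]
          ring
      rw [Pi.sub_apply, Pi.sub_apply, e, norm_mul, Real.norm_of_nonneg θ.nonneg]
      exact mul_le_of_le_one_left (norm_nonneg _) θ.le_one
    · refine (setIntegral_eq_integral_of_forall_compl_eq_zero fun x hx => ?_).symm
      rw [θ.zero_of_le_dist (not_lt.1 hx), zero_mul, mul_zero]

end Pool.Agent.Lib.MP_f2cf74_an
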